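import Pool.Agent.Lib_helper84.HSG.DefsB

/-!
# Block GA1: fractional ideals
-/

namespace Pool.Agent.HSG

open Complex MeasureTheory Filter Topology UpperHalfPlane NumberField IsDedekindDomain
open scoped nonZeroDivisors MatrixGroups ENNReal

variable {K : Type} [Field K] [NumberField K]

theorem m_inj {a b : Id K} (h : a.m = b.m) : a = b := by
  apply Units.ext
  exact FractionalIdeal.coeToSubmodule_injective h

theorem toId_m {M : Submodule (𝓞 K) K} (h1 : M ≠ ⊥) (h2 : M.FG) : (toId M).m = M := by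
  have hex : ∃ a : Id K, a.m = M := by
    have hfr : IsFractional (𝓞 K)⁰ M := FractionalIdeal.isFractional_of_fg h2
    refine ⟨Units.mk0 ⟨M, hfr⟩ ?_, rfl⟩
    intro h
    apply h1
    have h3 := congrArg (fun I : FractionalIdeal (𝓞 K)⁰ K => (I : Submodule (𝓞 K) K)) h
    simpa using h3
  unfold toId
  rw [dif_pos hex]
  exact hex.choose_spec

theorem toId_self (a : Id K) : toId a.m = a := by
  have hex : ∃ b : Id K, b.m = a.m := ⟨a, rfl⟩
  unfold toId
  rw [dif_pos hex]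
  exact m_inj hex.choose_spec

theorem m_mul (a b : Id K) : (a * b).m = a.m * b.m := by
  unfold Id.m
  rw [Units.val_mul, FractionalIdeal.coe_mul]

theorem mem_m_one (x : K) : x ∈ (1 : Id K).m ↔ ∃ y : 𝓞 K, (y : K) = x := by
  unfold Id.m
  rw [Units.val_one, FractionalIdeal.coe_one, Submodule.mem_one]

theorem isInt_iff (a : Id K) : IsInt a ↔ a.m ≤ (1 : Id K).m := by
  unfold IsInt Id.m
  rw [Units.val_one, FractionalIdeal.coe_le_coe]

theorem ga1_le (a b : Id K) : a.m ≤ b.m ↔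
    (a : FractionalIdeal (𝓞 K)⁰ K) ≤ (b : FractionalIdeal (𝓞 K)⁰ K) := by
  unfold Id.m
  rw [FractionalIdeal.coe_le_coe]

theorem isInt_div (a b : Id K) : IsInt (a / b) ↔ a.m ≤ b.m := by
  rw [ga1_le]
  unfold IsInt
  constructor
  · intro h
    have h1 := mul_le_mul_left h (b : FractionalIdeal (𝓞 K)⁰ K)
    rw [← Units.val_mul, div_mul_cancel, one_mul] at h1
    exact h1
  · intro h
    have h1 := mul_le_mul_left h ((b⁻¹ : Id K) : FractionalIdeal (𝓞 K)⁰ K)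
    rw [← Units.val_mul, ← Units.val_mul, mul_inv_cancel, ← div_eq_mul_inv, Units.val_one] at h1
    exact h1

theorem isInt_one : IsInt (1 : Id K) := le_refl _

theorem isInt_mul {a b : Id K} (ha : IsInt a) (hb : IsInt b) : IsInt (a * b) := by
  unfold IsInt at *
  rw [Units.val_mul]
  exact mul_le_one' ha hb

theorem mem_mul_of {a b : Id K} {x y : K} (hx : x ∈ a.m) (hy : y ∈ b.m) :
    x * y ∈ (a * b).m := by
  rw [m_mul]
  exact Submodule.mul_mem_mul hx hy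

/-- `x ∈ a / b` iff `x b ⊆ a` -/
theorem mem_div_iff (a b : Id K) (x : K) : x ∈ (a / b).m ↔ ∀ y ∈ b.m, x * y ∈ a.m := by
  constructor
  · intro h y hy
    have := mem_mul_of h hy
    rwa [div_mul_cancel] at this
  · intro h
    have h1 : FractionalIdeal.spanSingleton (𝓞 K)⁰ x * (b : FractionalIdeal (𝓞 K)⁰ K) ≤
        (a : FractionalIdeal (𝓞 K)⁰ K) := by
      rw [FractionalIdeal.spanSingleton_mul_le_iff]
      exact h
    have h2 := mul_le_mul_left h1 ((b⁻¹ : Id K) : FractionalIdeal (𝓞 K)⁰ K)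
    rw [mul_assoc, ← Units.val_mul, mul_inv_cancel, Units.val_one, mul_one, ← Units.val_mul,
      ← div_eq_mul_inv, FractionalIdeal.spanSingleton_le_iff_mem] at h2
    exact h2

theorem mem_prI_mul (x : Kˣ) (a : Id K) (y : K) :
    y ∈ (prI x * a).m ↔ ((x⁻¹ : Kˣ) : K) * y ∈ a.m := by
  have hx : (x : K) ≠ 0 := x.ne_zero
  show y ∈ ((prI x * a : Id K) : FractionalIdeal (𝓞 K)⁰ K) ↔
    ((x⁻¹ : Kˣ) : K) * y ∈ (a : FractionalIdeal (𝓞 K)⁰ K)
  rw [Units.val_mul]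
  unfold prI
  rw [coe_toPrincipalIdeal, FractionalIdeal.mem_singleton_mul, Units.val_inv_eq_inv_val]
  constructor
  · rintro ⟨z, hz, rfl⟩
    rwa [← mul_assoc, inv_mul_cancel₀ hx, one_mul]
  · intro h
    exact ⟨_, h, by rw [← mul_assoc, mul_inv_cancel₀ hx, one_mul]⟩

theorem ga1_cm (a b : 𝓞 K) : ((a * b : 𝓞 K) : K) = (a : K) * (b : K) := rfl

theorem ga1_c1 : ((1 : 𝓞 K) : K) = 1 := rfl

theorem mem_uu (x : Kˣ) : x ∈ Uu K ↔ ∃ u : (𝓞 K)ˣ, ((u : 𝓞 K) : K) = x := by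
  have hx : (x : K) ≠ 0 := x.ne_zero
  unfold Uu
  rw [MonoidHom.mem_ker]
  constructor
  · intro h
    have h1 : ∀ y : K, y ∈ (1 : Id K).m ↔ ((x⁻¹ : Kˣ) : K) * y ∈ (1 : Id K).m := by
      intro y
      rw [← mem_prI_mul, h, one_mul]
    have h2 : (x : K) ∈ (1 : Id K).m := by
      rw [h1, Units.inv_mul]
      exact (mem_m_one 1).2 ⟨1, rfl⟩
    have h3 : ((x⁻¹ : Kˣ) : K) ∈ (1 : Id K).m := by
      have := (h1 1).1 ((mem_m_one 1).2 ⟨1, rfl⟩)
      rwa [mul_one] at this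
    obtain ⟨y, hy⟩ := (mem_m_one _).1 h2
    obtain ⟨z, hz⟩ := (mem_m_one _).1 h3
    have hyz : y * z = 1 := by
      apply NumberField.RingOfIntegers.ext
      rw [ga1_cm, ga1_c1, hy, hz, Units.mul_inv]
    exact ⟨⟨y, z, hyz, by rw [mul_comm]; exact hyz⟩, hy⟩
  · rintro ⟨u, hu⟩
    apply m_inj
    ext y
    rw [← mul_one (prI x), mem_prI_mul, mem_m_one, mem_m_one]
    have hu' : (((u⁻¹ : (𝓞 K)ˣ) : 𝓞 K) : K) = ((x⁻¹ : Kˣ) : K) := by
      rw [Units.val_inv_eq_inv_val, ← hu]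
      apply eq_inv_of_mul_eq_one_left
      rw [← ga1_cm, Units.inv_mul, ga1_c1]
    constructor
    · rintro ⟨z, hz⟩
      refine ⟨u * z, ?_⟩
      rw [ga1_cm, hz, hu, ← mul_assoc, Units.mul_inv, one_mul]
    · rintro ⟨z, hz⟩
      refine ⟨((u⁻¹ : (𝓞 K)ˣ) : 𝓞 K) * z, ?_⟩
      rw [ga1_cm, hz, hu']

end Pool.Agent.HSG
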