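import Pool.Agent.Lib_helper84.HSG.DefsB
import Pool.Agent.Lib_helper84.HSGF.GA1

/-!
# Block GA3: norms of fractional ideals
-/

namespace Pool.Agent.HSG

open Complex MeasureTheory Filter Topology UpperHalfPlane NumberField IsDedekindDomain
open scoped nonZeroDivisors MatrixGroups ENNReal

variable {K : Type} [Field K] [NumberField K]

theorem nI_pos (a : Id K) : 0 < nI a := by
  unfold nI
  have h1 : 0 ≤ FractionalIdeal.absNorm (a : FractionalIdeal (𝓞 K)⁰ K) :=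
    FractionalIdeal.absNorm_nonneg _
  have h2 : FractionalIdeal.absNorm (a : FractionalIdeal (𝓞 K)⁰ K) ≠ 0 := by
    rw [Ne, FractionalIdeal.absNorm_eq_zero_iff]
    exact a.ne_zero
  exact_mod_cast lt_of_le_of_ne h1 (Ne.symm h2)

theorem nI_one : nI (1 : Id K) = 1 := by
  unfold nI
  rw [Units.val_one, FractionalIdeal.absNorm_one, Rat.cast_one]

theorem nI_mul (a b : Id K) : nI (a * b) = nI a * nI b := by
  unfold nI
  rw [Units.val_mul, map_mul, Rat.cast_mul]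

theorem nI_inv (a : Id K) : nI a⁻¹ = (nI a)⁻¹ := by
  apply eq_inv_of_mul_eq_one_left
  rw [← nI_mul, inv_mul_cancel, nI_one]

theorem nI_div (a b : Id K) : nI (a / b) = nI a / nI b := by
  rw [div_eq_mul_inv, nI_mul, nI_inv, div_eq_mul_inv]

theorem ga3_int {a : Id K} (h : IsInt a) : ∃ J : Ideal (𝓞 K), J ≠ ⊥ ∧
    (J : FractionalIdeal (𝓞 K)⁰ K) = (a : FractionalIdeal (𝓞 K)⁰ K) ∧
      nI a = (Ideal.absNorm J : ℝ) := by
  obtain ⟨J, hJ⟩ := FractionalIdeal.le_one_iff_exists_coeIdeal.1 h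
  refine ⟨J, ?_, hJ, ?_⟩
  · intro h0
    apply a.ne_zero
    rw [← hJ, h0]
    simp
  · unfold nI
    rw [← hJ, FractionalIdeal.coeIdeal_absNorm, Rat.cast_natCast]

theorem ga3_mem {a : Id K} {J : Ideal (𝓞 K)}
    (h : (J : FractionalIdeal (𝓞 K)⁰ K) = (a : FractionalIdeal (𝓞 K)⁰ K)) (x : K) :
    x ∈ a.m ↔ ∃ y ∈ J, (y : K) = x := by
  show x ∈ (a : FractionalIdeal (𝓞 K)⁰ K) ↔ _
  rw [← h, FractionalIdeal.mem_coeIdeal]

/-- the norm of an integral ideal is a positive integer which is contained in the ideal -/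
theorem nI_int {a : Id K} (h : IsInt a) : ∃ n : ℕ, 1 ≤ n ∧ nI a = n ∧ (n : K) ∈ a.m := by
  obtain ⟨J, h0, hJ, hn⟩ := ga3_int h
  refine ⟨Ideal.absNorm J, ?_, hn, ?_⟩
  · rw [Nat.one_le_iff_ne_zero, Ne, Ideal.absNorm_eq_zero_iff]
    exact h0
  · rw [ga3_mem hJ]
    exact ⟨_, Ideal.absNorm_mem J, by simp⟩

theorem nI_eq_one {a : Id K} (h : IsInt a) (h1 : nI a = 1) : a = 1 := by
  obtain ⟨J, h0, hJ, hn⟩ := ga3_int h
  rw [hn] at h1
  have h2 : Ideal.absNorm J = 1 := by exact_mod_cast h1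
  rw [Ideal.absNorm_eq_one_iff] at h2
  apply Units.ext
  rw [← hJ, h2, Units.val_one]
  simp

theorem nI_mono {a b : Id K} (h : a.m ≤ b.m) : nI b ≤ nI a := by
  obtain ⟨n, hn, h2, -⟩ := nI_int ((isInt_div a b).2 h)
  rw [nI_div, div_eq_iff (nI_pos b).ne'] at h2
  rw [h2]
  have h3 : (1 : ℝ) ≤ n := by exact_mod_cast hn
  have h4 := nI_pos b
  nlinarith

theorem nI_mem {a : Id K} {x : Kˣ} (h : (x : K) ∈ a.m) : nI a ≤ nI (prI x) := by
  apply nI_mono
  intro y hy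
  rw [← mul_one (prI x), mem_prI_mul, mem_m_one] at hy
  obtain ⟨z, hz⟩ := hy
  have h1 : y = z • (x : K) := by
    show y = (z : K) * (x : K)
    rw [hz, mul_comm, ← mul_assoc, Units.mul_inv, one_mul]
  rw [h1]
  exact a.m.smul_mem z h

theorem id_finite (X : ℝ) : {m : Id K | IsInt m ∧ nI m ≤ X}.Finite := by
  have h1 : ((fun J : Ideal (𝓞 K) => (J : FractionalIdeal (𝓞 K)⁰ K)) ''
      {J | Ideal.absNorm J ≤ ⌊X⌋₊}).Finite :=
    (Ideal.finite_setOfPred_absNorm_le _).image _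
  apply Set.Finite.of_finite_image (f := fun m : Id K => (m : FractionalIdeal (𝓞 K)⁰ K))
  · apply h1.subset
    rintro _ ⟨m, ⟨hm, hX⟩, rfl⟩
    obtain ⟨J, h0, hJ, hn⟩ := ga3_int hm
    refine ⟨J, ?_, hJ⟩
    show Ideal.absNorm J ≤ ⌊X⌋₊
    apply Nat.le_floor
    rw [← hn]
    exact hX
  · intro m _ m' _ h
    exact Units.ext h

theorem pI_facts (p : Pr K) :
    Id.m (HS.frP p) = ((p.asIdeal : FractionalIdeal (𝓞 K)⁰ K) : Submodule (𝓞 K) K) ∧
      IsInt (HS.frP p) ∧ nI (HS.frP p) = qP p ∧ 2 ≤ qP p := by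
  refine ⟨rfl, ?_, ?_, ?_⟩
  · show (p.asIdeal : FractionalIdeal (𝓞 K)⁰ K) ≤ 1
    exact FractionalIdeal.coeIdeal_le_one
  · unfold nI qP
    show ((FractionalIdeal.absNorm (p.asIdeal : FractionalIdeal (𝓞 K)⁰ K) : ℚ) : ℝ) = _
    rw [FractionalIdeal.coeIdeal_absNorm, Rat.cast_natCast]
  · unfold qP
    have h1 : Ideal.absNorm p.asIdeal ≠ 0 := by
      rw [Ne, Ideal.absNorm_eq_zero_iff]
      exact p.ne_bot
    have h2 : Ideal.absNorm p.asIdeal ≠ 1 := by
      rw [Ne, Ideal.absNorm_eq_one_iff]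
      exact p.isPrime.ne_top
    omega

/-! ### The index of fractional ideals -/

theorem ga3_rel_int {x y : Id K} (hx : IsInt x) (hy : IsInt y) (h : y.m ≤ x.m) :
    ((y.m.toAddSubgroup.relIndex x.m.toAddSubgroup : ℕ) : ℝ) = nI y / nI x := by
  obtain ⟨I, hI0, hI, hIn⟩ := ga3_int hx
  obtain ⟨J, hJ0, hJ, hJn⟩ := ga3_int hy
  have hle : J ≤ I := by
    intro z hz
    have h1 : (z : K) ∈ y.m := (ga3_mem hJ _).2 ⟨z, hz, rfl⟩
    obtain ⟨w, hw, hwz⟩ := (ga3_mem hI _).1 (h h1)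
    have h2 : w = z := NumberField.RingOfIntegers.ext hwz
    rwa [← h2]
  have e : ∀ {a : Id K} {L : Ideal (𝓞 K)},
      (L : FractionalIdeal (𝓞 K)⁰ K) = (a : FractionalIdeal (𝓞 K)⁰ K) →
      a.m.toAddSubgroup = L.toAddSubgroup.map (algebraMap (𝓞 K) K).toAddMonoidHom := by
    intro a L hL
    ext z
    rw [Submodule.mem_toAddSubgroup, ga3_mem hL, AddSubgroup.mem_map]
    rfl
  have hinj : Function.Injective (algebraMap (𝓞 K) K).toAddMonoidHom :=
    IsFractionRing.injective (𝓞 K) K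
  rw [e hI, e hJ, AddSubgroup.relIndex_map_map_of_injective _ _ hinj]
  have h1 : J.toAddSubgroup ≤ I.toAddSubgroup := hle
  have h2 := AddSubgroup.relIndex_mul_index h1
  have h3 : I.toAddSubgroup.index = Ideal.absNorm I := rfl
  have h4 : J.toAddSubgroup.index = Ideal.absNorm J := rfl
  rw [h3, h4] at h2
  have h5 : (Ideal.absNorm I : ℝ) ≠ 0 := by
    rw [← hIn]
    exact (nI_pos x).ne'
  rw [hIn, hJn, eq_div_iff h5, ← h2]
  push_cast
  ring

theorem ga3_den (x : Id K) : ∃ d : Kˣ, IsInt (prI d * x) := by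
  obtain ⟨a, ha, h⟩ := (x : FractionalIdeal (𝓞 K)⁰ K).isFractional
  have ha0 : (a : K) ≠ 0 := by
    intro h0
    apply nonZeroDivisors.ne_zero ha
    exact NumberField.RingOfIntegers.ext h0
  refine ⟨Units.mk0 (a : K) ha0, ?_⟩
  rw [isInt_iff]
  intro y hy
  rw [mem_prI_mul] at hy
  obtain ⟨z, hz⟩ := h _ hy
  rw [mem_m_one]
  refine ⟨z, ?_⟩
  have h1 : (z : K) = (a : K) * (((Units.mk0 (a : K) ha0)⁻¹ : Kˣ) * y) := by
    rw [show (z : K) = algebraMap (𝓞 K) K z from rfl, hz]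
    rfl
  rw [h1, Units.val_inv_eq_inv_val, Units.val_mk0, ← mul_assoc, mul_inv_cancel₀ ha0, one_mul]

theorem ga3_rel {x y : Id K} (h : y.m ≤ x.m) :
    ((y.m.toAddSubgroup.relIndex x.m.toAddSubgroup : ℕ) : ℝ) = nI y / nI x := by
  obtain ⟨d, hd⟩ := ga3_den x
  have hle : (prI d * y).m ≤ (prI d * x).m := by
    intro z hz
    rw [mem_prI_mul] at hz ⊢
    exact h hz
  have hd' : IsInt (prI d * y) := by
    rw [isInt_iff]
    exact hle.trans ((isInt_iff _).1 hd)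
  have h1 := ga3_rel_int hd hd' hle
  rw [nI_mul, nI_mul, mul_div_mul_left _ _ (nI_pos (prI d)).ne'] at h1
  rw [← h1]
  have e : ∀ a : Id K, (prI d * a).m.toAddSubgroup =
      a.m.toAddSubgroup.map (AddMonoidHom.mulLeft (d : K)) := by
    intro a
    ext z
    rw [Submodule.mem_toAddSubgroup, mem_prI_mul, AddSubgroup.mem_map]
    constructor
    · intro hz
      refine ⟨_, hz, ?_⟩
      rw [AddMonoidHom.coe_mulLeft, ← mul_assoc, Units.mul_inv, one_mul]
    · rintro ⟨w, hw, rfl⟩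
      rw [AddMonoidHom.coe_mulLeft, ← mul_assoc, Units.inv_mul, one_mul]
      exact hw
  have hinj : Function.Injective (AddMonoidHom.mulLeft (d : K)) := by
    intro a b hab
    rw [AddMonoidHom.coe_mulLeft] at hab
    exact mul_left_cancel₀ d.ne_zero hab
  rw [e, e, AddSubgroup.relIndex_map_map_of_injective _ _ hinj]

theorem ga3_ne {x y : Id K} (h : y.m ≤ x.m) :
    y.m.toAddSubgroup.relIndex x.m.toAddSubgroup ≠ 0 := by
  intro h0
  have h1 := ga3_rel h
  rw [h0, Nat.cast_zero] at h1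
  have h2 := div_pos (nI_pos y) (nI_pos x)
  rw [← h1] at h2
  exact lt_irrefl _ h2

theorem repq_exists {x y : Id K} (h : y.m ≤ x.m) : ∃ S : Finset K, IsRepQ x y S := by
  classical
  have h0 := ga3_ne h
  set A := x.m.toAddSubgroup
  set B := y.m.toAddSubgroup
  have hfin : Finite (A ⧸ B.addSubgroupOf A) := by
    have : (B.addSubgroupOf A).index ≠ 0 := h0
    have h1 : (B.addSubgroupOf A).FiniteIndex := ⟨this⟩
    exact AddSubgroup.finite_quotient_of_finiteIndex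
  have := Fintype.ofFinite (A ⧸ B.addSubgroupOf A)
  refine ⟨Finset.univ.image (fun q : A ⧸ B.addSubgroupOf A => ((q.out : A) : K)), ?_, ?_, ?_⟩
  · intro β hβ
    rw [Finset.mem_image] at hβ
    obtain ⟨q, -, rfl⟩ := hβ
    exact q.out.2
  · intro β hβ
    refine ⟨_, Finset.mem_image_of_mem _ (Finset.mem_univ
      (QuotientAddGroup.mk (⟨β, hβ⟩ : A) : A ⧸ B.addSubgroupOf A)), ?_⟩
    have h1 := QuotientAddGroup.out_eq' (QuotientAddGroup.mk (⟨β, hβ⟩ : A) : A ⧸ B.addSubgroupOf A)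
    rw [QuotientAddGroup.eq] at h1
    have h2 : (-((QuotientAddGroup.mk (⟨β, hβ⟩ : A) : A ⧸ B.addSubgroupOf A).out : K) + β) ∈
      y.m := h1
    rw [sub_eq_add_neg, add_comm]
    exact h2
  · intro β hβ β' hβ' hd
    rw [Finset.mem_image] at hβ hβ'
    obtain ⟨q, -, rfl⟩ := hβ
    obtain ⟨q', -, rfl⟩ := hβ'
    have h1 : q' = q := by
      rw [← QuotientAddGroup.out_eq' q, ← QuotientAddGroup.out_eq' q', QuotientAddGroup.eq]
      show -((q'.out : A) : K) + ((q.out : A) : K) ∈ y.m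
      rw [add_comm, ← sub_eq_add_neg]
      exact hd
    rw [h1]

theorem repq_card {x y : Id K} (h : y.m ≤ x.m) {S : Finset K} (hS : IsRepQ x y S) :
    (S.card : ℝ) = nI y / nI x := by
  classical
  rw [← ga3_rel h]
  congr 1
  set A := x.m.toAddSubgroup
  set B := y.m.toAddSubgroup
  let f : S → A ⧸ B.addSubgroupOf A := fun s => QuotientAddGroup.mk (⟨s.1, hS.mem s.1 s.2⟩ : A)
  have hf : Function.Bijective f := by
    constructor
    · intro s s' hss
      apply Subtype.ext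
      apply hS.inj s.1 s.2 s'.1 s'.2
      have h1 := hss.symm
      show s.1 - s'.1 ∈ y.m
      rw [QuotientAddGroup.eq] at h1
      have h2 : -s'.1 + s.1 ∈ y.m := h1
      rw [sub_eq_add_neg, add_comm]
      exact h2
    · intro q
      obtain ⟨⟨β, hβ⟩, rfl⟩ := QuotientAddGroup.mk_surjective q
      obtain ⟨s, hs, hd⟩ := hS.sur β hβ
      refine ⟨⟨s, hs⟩, ?_⟩
      show (QuotientAddGroup.mk (⟨s, hS.mem s hs⟩ : A) : A ⧸ B.addSubgroupOf A) = _
      rw [QuotientAddGroup.eq]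
      show -s + β ∈ y.m
      rw [add_comm, ← sub_eq_add_neg]
      exact hd
  have h1 := Nat.card_eq_of_bijective f hf
  rw [Nat.card_eq_fintype_card, Fintype.card_coe] at h1
  exact h1

end Pool.Agent.HSG
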