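import Pool.Agent.Lib_helper84.HSG.DefsB
import Pool.Agent.Lib_helper84.HSGF.GA1

/-! # Hilbert-Selberg, PART II, block GD1 (TRE-a): totally real fields (cites GA1) -/

namespace Pool.Agent.HSG

open Complex MeasureTheory Filter Topology UpperHalfPlane NumberField IsDedekindDomain
open scoped nonZeroDivisors MatrixGroups ENNReal

variable {K : Type} [Field K] [NumberField K]

section tr
variable [IsTotallyReal K]

theorem gd1_bij : Function.Bijective (fun w : Em K => (Complex.ofRealHom.comp w : K →+* ℂ)) := by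
  constructor
  · intro w w' h
    ext x
    have h1 := RingHom.congr_fun h x
    simpa using h1
  · intro φ
    have hφ := IsTotallyReal.complexEmbedding_isReal φ
    refine ⟨hφ.embedding, ?_⟩
    ext x
    simp

variable (K) in
/-- the real embeddings are the complex embeddings -/
noncomputable def gd1_eq : Em K ≃ (K →+* ℂ) := Equiv.ofBijective _ gd1_bij

theorem gd1_eq_apply (w : Em K) (x : K) : gd1_eq K w x = ((w x : ℝ) : ℂ) := rfl

theorem card_em : Fintype.card (Em K) = dg K := by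
  rw [Fintype.card_congr (gd1_eq K), NumberField.Embeddings.card K ℂ]
  rfl

theorem dg_pos : 1 ≤ dg K := Module.finrank_pos

theorem gd1_norm (x : K) : ((Algebra.norm ℚ x : ℚ) : ℝ) = ∏ w : Em K, w x := by
  have h1 := Algebra.norm_eq_prod_embeddings ℚ ℂ x
  have h2 : ∏ w : Em K, ((w x : ℝ) : ℂ) = ∏ σ : K →ₐ[ℚ] ℂ, σ x := by
    rw [← Fintype.prod_equiv (RingHom.equivRatAlgHom K ℂ) (fun φ => φ x) (fun σ => σ x)
      (fun _ => by simp [RingHom.equivRatAlgHom_apply]),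
      ← Fintype.prod_equiv (gd1_eq K) (fun w => ((w x : ℝ) : ℂ)) (fun φ => φ x)
      (fun w => (gd1_eq_apply w x).symm)]
  rw [← h2, ← Complex.ofReal_prod] at h1
  have h3 : ((Algebra.norm ℚ x : ℚ) : ℂ) = ((∏ w : Em K, w x : ℝ) : ℂ) := by
    rw [← h1]
    rfl
  exact_mod_cast h3

theorem tr_em (x : K) : ((Algebra.trace ℚ K x : ℚ) : ℝ) = ∑ w : Em K, w x := by
  have h1 := trace_eq_sum_embeddings (K := ℚ) ℂ (x := x)
  have h2 : ∑ w : Em K, ((w x : ℝ) : ℂ) = ∑ σ : K →ₐ[ℚ] ℂ, σ x := by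
    rw [← Fintype.sum_equiv (RingHom.equivRatAlgHom K ℂ) (fun φ => φ x) (fun σ => σ x)
      (fun _ => by simp [RingHom.equivRatAlgHom_apply]),
      ← Fintype.sum_equiv (gd1_eq K) (fun w => ((w x : ℝ) : ℂ)) (fun φ => φ x)
      (fun w => (gd1_eq_apply w x).symm)]
  rw [← h2, ← Complex.ofReal_sum] at h1
  have h3 : ((Algebra.trace ℚ K x : ℚ) : ℂ) = ((∑ w : Em K, w x : ℝ) : ℂ) := by
    rw [← h1]
    rfl
  exact_mod_cast h3

theorem nI_prI (x : Kˣ) : nI (prI x) = ∏ w : Em K, |w (x : K)| := by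
  unfold nI prI
  rw [coe_toPrincipalIdeal, FractionalIdeal.absNorm_span_singleton, Rat.cast_abs, gd1_norm,
    Finset.abs_prod]

/-- the different as a unit of the monoid of fractional ideals -/
noncomputable def gd1_D : Id K :=
  Units.mk0 ((differentIdeal ℤ (𝓞 K) : Ideal (𝓞 K)) : FractionalIdeal (𝓞 K)⁰ K)
    (FractionalIdeal.coeIdeal_ne_zero.mpr differentIdeal_ne_bot)

omit [IsTotallyReal K] in
theorem gd1_DD : DD K = gd1_D := by
  have h : DD K = toId (Id.m (gd1_D (K := K))) := rfl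
  rw [h, toId_self]

omit [IsTotallyReal K] in
theorem gd1_DD_val : ((DD K : Id K) : FractionalIdeal (𝓞 K)⁰ K) =
    (FractionalIdeal.dual ℤ ℚ (1 : FractionalIdeal (𝓞 K)⁰ K))⁻¹ := by
  rw [gd1_DD]
  exact coeIdeal_differentIdeal ℤ ℚ K (𝓞 K)

theorem dual_iff (b : Id K) (ν : K) :
    (∀ y ∈ b.m, ∃ n : ℤ, ∑ w : Em K, w (ν * y) = n) ↔ ν ∈ ((DD K)⁻¹ * b⁻¹).m := by
  have h1 : (((DD K)⁻¹ * b⁻¹ : Id K) : FractionalIdeal (𝓞 K)⁰ K) =
      FractionalIdeal.dual ℤ ℚ (b : FractionalIdeal (𝓞 K)⁰ K) := by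
    rw [Units.val_mul, Units.val_inv_eq_inv_val, Units.val_inv_eq_inv_val, gd1_DD_val, inv_inv,
      ← FractionalIdeal.dual_eq_mul_inv]
  have h2 : ν ∈ ((DD K)⁻¹ * b⁻¹).m ↔
      ν ∈ FractionalIdeal.dual ℤ ℚ (b : FractionalIdeal (𝓞 K)⁰ K) := by
    rw [← h1]
    rfl
  rw [h2, FractionalIdeal.mem_dual b.ne_zero]
  refine forall_congr' fun y => imp_congr_right fun _ => ?_
  rw [Algebra.traceForm_apply, RingHom.mem_range, ← tr_em]
  refine exists_congr fun n => ?_
  constructor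
  · intro h
    have h3 : Algebra.trace ℚ K (ν * y) = (n : ℚ) := by exact_mod_cast h
    rw [h3]
    rfl
  · intro h
    rw [← h]
    simp

theorem nI_DD : nI (DD K) = dK K := by
  rw [gd1_DD]
  unfold nI gd1_D dK
  rw [Units.val_mk0, FractionalIdeal.coeIdeal_absNorm, NumberField.absNorm_differentIdeal K]
  rw [Rat.cast_natCast, Nat.cast_natAbs, Int.cast_abs]

theorem dK_ge : 1 ≤ dK K := by
  unfold dK
  have h := NumberField.discr_ne_zero K
  have h1 : (1 : ℤ) ≤ |discr K| := Int.one_le_abs h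
  exact_mod_cast h1

end tr

end Pool.Agent.HSG
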