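import Pool.Agent.Lib_helper84.HSG.DefsB
import Pool.Agent.Lib_helper84.HSGF.GA1
import Pool.Agent.Lib_helper84.HSGF.GA3

/-!
# Hilbert-Selberg, PART II, block GB1 (DET-a): determinants and the ideals `a_v`
-/

namespace Pool.Agent.HSG

open Complex MeasureTheory Filter Topology UpperHalfPlane NumberField IsDedekindDomain
open scoped nonZeroDivisors MatrixGroups ENNReal

variable {K : Type} [Field K] [NumberField K]

/-! ### bilinearity -/

omit [NumberField K] in
theorem gb1_add_l (u u' v : Fin 2 → K) : dt (u + u') v = dt u v + dt u' v := by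
  simp only [dt, Pi.add_apply]; ring

omit [NumberField K] in
theorem gb1_add_r (u v v' : Fin 2 → K) : dt u (v + v') = dt u v + dt u v' := by
  simp only [dt, Pi.add_apply]; ring

omit [NumberField K] in
theorem gb1_smul_l (c : K) (u v : Fin 2 → K) : dt (c • u) v = c * dt u v := by
  simp only [dt, Pi.smul_apply, smul_eq_mul]; ring

omit [NumberField K] in
theorem gb1_smul_r (c : K) (u v : Fin 2 → K) : dt u (c • v) = c * dt u v := by
  simp only [dt, Pi.smul_apply, smul_eq_mul]; ring

omit [NumberField K] in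
theorem gb1_osmul (c : 𝓞 K) (u : Fin 2 → K) : c • u = (c : K) • u := by
  ext i
  simp [Algebra.smul_def]

omit [NumberField K] in
theorem gb1_osmul' (c : 𝓞 K) (x : K) : c • x = (c : K) * x := by
  simp [Algebra.smul_def]

theorem gb1_mem_dM {L : Lat K} {u v : Fin 2 → K} (hu : u ∈ L.M) (hv : v ∈ L.M) :
    dt u v ∈ L.dM := Submodule.subset_span ⟨u, hu, v, hv, rfl⟩

theorem gb1_dM_le {L : Lat K} {N : Submodule (𝓞 K) K} (h : ∀ u ∈ L.M, ∀ v ∈ L.M, dt u v ∈ N) :
    L.dM ≤ N := by
  refine Submodule.span_le.2 ?_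
  rintro x ⟨u, hu, v, hv, rfl⟩
  exact h u hu v hv

theorem gb1_zero {L : Lat K} (f : (Fin 2 → K) → K) (h0 : f 0 = 0)
    (hadd : ∀ u v, f (u + v) = f u + f v) (hsm : ∀ (c : K) u, f (c • u) = c * f u)
    (h : ∀ u ∈ L.M, f u = 0) (u : Fin 2 → K) : f u = 0 := by
  have hu : u ∈ Submodule.span K (L.M : Set (Fin 2 → K)) := by
    rw [L.top]; exact Submodule.mem_top
  induction hu using Submodule.span_induction with
  | mem x hx => exact h x hx
  | zero => exact h0
  | add x y _ _ hx hy => rw [hadd, hx, hy, add_zero]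
  | smul c x _ hx => rw [hsm, hx, mul_zero]

theorem gb1_dM_ne (L : Lat K) : L.dM ≠ ⊥ := by
  intro h
  have h1 : ∀ u ∈ L.M, ∀ v ∈ L.M, dt u v = 0 := by
    intro u hu v hv
    have := gb1_mem_dM hu hv
    rw [h] at this
    exact (Submodule.mem_bot _).1 this
  have h2 : ∀ u ∈ L.M, ∀ v, dt u v = 0 := fun u hu v =>
    gb1_zero (fun v => dt u v) (by simp [dt]) (fun v v' => gb1_add_r u v v')
      (fun c v => gb1_smul_r c u v) (fun v hv => h1 u hu v hv) v
  have h3 : ∀ v u : Fin 2 → K, dt u v = 0 := fun v u =>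
    gb1_zero (fun u => dt u v) (by simp [dt]) (fun u u' => gb1_add_l u u' v)
      (fun c u => gb1_smul_l c u v) (fun u hu => h2 u hu v) u
  have h4 := h3 ![0, 1] ![1, 0]
  simp [dt] at h4

theorem gb1_dM_fg (L : Lat K) : L.dM.FG := by
  classical
  obtain ⟨S, hS⟩ := L.fg
  refine ⟨Finset.image₂ dt S S, le_antisymm ?_ ?_⟩
  · rw [Submodule.span_le]
    intro x hx
    rw [Finset.mem_coe, Finset.mem_image₂] at hx
    obtain ⟨s, hs, t, ht, rfl⟩ := hx
    refine gb1_mem_dM ?_ ?_
    · rw [← hS]; exact Submodule.subset_span hs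
    · rw [← hS]; exact Submodule.subset_span ht
  · refine gb1_dM_le ?_
    intro u hu v hv
    rw [← hS] at hu hv
    induction hu using Submodule.span_induction with
    | mem s hs =>
      induction hv using Submodule.span_induction with
      | mem t ht =>
        exact Submodule.subset_span (Finset.mem_coe.mpr (Finset.mem_image₂_of_mem hs ht))
      | zero => simp [dt]
      | add x y _ _ hx hy => rw [gb1_add_r]; exact Submodule.add_mem _ hx hy
      | smul c x _ hx =>
        rw [gb1_osmul, gb1_smul_r, ← gb1_osmul']; exact Submodule.smul_mem _ _ hx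
    | zero => simp [dt]
    | add x y _ _ hx hy => rw [gb1_add_l]; exact Submodule.add_mem _ hx hy
    | smul c x _ hx =>
      rw [gb1_osmul, gb1_smul_l, ← gb1_osmul']; exact Submodule.smul_mem _ _ hx

theorem det_m (L : Lat K) : L.det.m = L.dM := toId_m (gb1_dM_ne L) (gb1_dM_fg L)

theorem gb1_mem_aM {L : Lat K} {v : Fin 2 → K} {x : K} : x ∈ L.aM v ↔ x • v ∈ L.M := Iff.rfl

/-- every vector has a multiple in the lattice -/
theorem gb1_den (L : Lat K) (v : Fin 2 → K) : ∃ d : 𝓞 K, d ≠ 0 ∧ d • v ∈ L.M := by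
  have hv : v ∈ Submodule.span K (L.M : Set (Fin 2 → K)) := by
    rw [L.top]; exact Submodule.mem_top
  induction hv using Submodule.span_induction with
  | mem x hx => exact ⟨1, one_ne_zero, by rw [one_smul]; exact hx⟩
  | zero => exact ⟨1, one_ne_zero, by rw [smul_zero]; exact Submodule.zero_mem _⟩
  | add x y _ _ hx hy =>
    obtain ⟨d, hd, hdx⟩ := hx
    obtain ⟨e, he, hey⟩ := hy
    refine ⟨d * e, mul_ne_zero hd he, ?_⟩
    rw [smul_add]
    refine Submodule.add_mem _ ?_ ?_
    · rw [mul_comm, mul_smul]; exact Submodule.smul_mem _ _ hdx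
    · rw [mul_smul]; exact Submodule.smul_mem _ _ hey
  | smul c x _ hx =>
    obtain ⟨d, hd, hdx⟩ := hx
    obtain ⟨a, b, hb, hc⟩ := IsFractionRing.div_surjective (A := 𝓞 K) c
    have hb0 : b ≠ 0 := nonZeroDivisors.ne_zero hb
    have hb1 : (b : K) ≠ 0 := by
      simpa using hb0
    refine ⟨d * b, mul_ne_zero hd hb0, ?_⟩
    have h1 : (d * b) • (c • x) = a • (d • x) := by
      rw [gb1_osmul, gb1_osmul, gb1_osmul, smul_smul, smul_smul]
      congr 1
      rw [← hc]
      have h2 : (algebraMap (𝓞 K) K) b ≠ 0 := hb1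
      change (algebraMap (𝓞 K) K) (d * b) * _ =
        (algebraMap (𝓞 K) K) a * (algebraMap (𝓞 K) K) d
      rw [map_mul]
      field_simp
    rw [h1]
    exact Submodule.smul_mem _ _ hdx

theorem gb1_aM_ne (L : Lat K) {v : Fin 2 → K} (hv : v ≠ 0) : L.aM v ≠ ⊥ := by
  intro h
  obtain ⟨d, hd, hdv⟩ := gb1_den L v
  have h1 : (d : K) ∈ L.aM v := by
    rw [gb1_mem_aM, ← gb1_osmul]; exact hdv
  rw [h, Submodule.mem_bot] at h1
  exact hd (by simpa using h1)

theorem gb1_aM_fg (L : Lat K) {v : Fin 2 → K} (hv : v ≠ 0) : (L.aM v).FG := by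
  have hinj : Function.Injective
      ((LinearMap.toSpanSingleton K (Fin 2 → K) v).restrictScalars (𝓞 K)) := by
    intro x y hxy
    have h1 : x • v = y • v := hxy
    exact smul_left_injective K hv h1
  refine Submodule.fg_of_fg_map_injective _ hinj ?_
  refine Submodule.FG.of_le L.fg ?_
  rw [Submodule.map_le_iff_le_comap]
  exact le_rfl

theorem av_m (L : Lat K) {v : Fin 2 → K} (hv : v ≠ 0) : (L.av v).m = L.aM v :=
  toId_m (gb1_aM_ne L hv) (gb1_aM_fg L hv)

theorem gb1_mem_ds {b a : Id K} {v : Fin 2 → K} :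
    v ∈ (Lat.ds b a).M ↔ v 0 ∈ b.m ∧ v 1 ∈ a.m := Iff.rfl

theorem det_ds (b a : Id K) : (Lat.ds b a).det = b * a := by
  apply m_inj
  rw [det_m]
  apply le_antisymm
  · refine gb1_dM_le ?_
    intro u hu v hv
    have h1 : u 0 * v 1 ∈ (b * a).m := mem_mul_of hu.1 hv.2
    have h2 : u 1 * v 0 ∈ (b * a).m := by
      rw [mul_comm (u 1)]; exact mem_mul_of hv.1 hu.2
    exact Submodule.sub_mem _ h1 h2
  · rw [m_mul, Submodule.mul_le]
    intro x hx y hy
    have h : x * y = dt ![x, 0] ![0, y] := by simp [dt]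
    rw [h]
    exact gb1_mem_dM ⟨by simpa using hx, by simp⟩ ⟨by simp, by simpa using hy⟩

theorem av_ds (b a : Id K) : (Lat.ds b a).av ![0, 1] = a := by
  apply m_inj
  rw [av_m _ (by intro h; simpa using congrFun h 1)]
  ext x
  rw [gb1_mem_aM, gb1_mem_ds]
  simp

theorem ds_inj {b a b' a' : Id K} (h : Lat.ds b a = Lat.ds b' a') : b = b' ∧ a = a' := by
  have h1 : a = a' := by rw [← av_ds b a, h, av_ds]
  have h2 : b * a = b' * a' := by rw [← det_ds b a, h, det_ds]
  rw [h1] at h2
  exact ⟨mul_right_cancel h2, h1⟩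

omit [NumberField K] in
theorem gb1_dt_mul (u v : Fin 2 → K) (g : Matrix (Fin 2) (Fin 2) K) :
    dt (Matrix.vecMul u g) (Matrix.vecMul v g) = g.det * dt u v := by
  simp only [dt, Matrix.vecMul, dotProduct, Fin.sum_univ_two, Matrix.det_fin_two]
  ring

theorem gb1_mem_mul {L : Lat K} {g : GL (Fin 2) K} {v : Fin 2 → K} :
    v ∈ (L.mul g).M ↔ ∃ u ∈ L.M, Matrix.vecMul u (g : Matrix (Fin 2) (Fin 2) K) = v := Iff.rfl

theorem det_mul (L : Lat K) (g : GL (Fin 2) K) :
    (L.mul g).det = prI (Matrix.GeneralLinearGroup.det g) * L.det := by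
  have hd : ((Matrix.GeneralLinearGroup.det g : Kˣ) : K) =
      (g : Matrix (Fin 2) (Fin 2) K).det := rfl
  set t : Kˣ := Matrix.GeneralLinearGroup.det g with ht
  apply m_inj
  ext y
  rw [det_m, mem_prI_mul, det_m]
  have h1 : ∀ z ∈ (L.mul g).dM, ((t⁻¹ : Kˣ) : K) * z ∈ L.dM := by
    intro z hz
    induction hz using Submodule.span_induction with
    | mem x hx =>
      obtain ⟨_, ⟨u, hu, rfl⟩, _, ⟨v, hv, rfl⟩, rfl⟩ := hx
      have : ((t⁻¹ : Kˣ) : K) * dt (Matrix.vecMul u (g : Matrix (Fin 2) (Fin 2) K))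
          (Matrix.vecMul v (g : Matrix (Fin 2) (Fin 2) K)) = dt u v := by
        rw [gb1_dt_mul, ← hd, ← mul_assoc, Units.inv_mul, one_mul]
      change ((t⁻¹ : Kˣ) : K) * dt (Matrix.vecMul u (g : Matrix (Fin 2) (Fin 2) K))
          (Matrix.vecMul v (g : Matrix (Fin 2) (Fin 2) K)) ∈ L.dM
      rw [this]
      exact gb1_mem_dM hu hv
    | zero => rw [mul_zero]; exact Submodule.zero_mem _
    | add x y _ _ hx hy => rw [mul_add]; exact Submodule.add_mem _ hx hy
    | smul c x _ hx => rw [mul_smul_comm]; exact Submodule.smul_mem _ _ hx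
  have h2 : ∀ z ∈ L.dM, (t : K) * z ∈ (L.mul g).dM := by
    intro z hz
    induction hz using Submodule.span_induction with
    | mem x hx =>
      obtain ⟨u, hu, v, hv, rfl⟩ := hx
      rw [hd, ← gb1_dt_mul]
      exact gb1_mem_dM ⟨u, hu, rfl⟩ ⟨v, hv, rfl⟩
    | zero => rw [mul_zero]; exact Submodule.zero_mem _
    | add x y _ _ hx hy => rw [mul_add]; exact Submodule.add_mem _ hx hy
    | smul c x _ hx => rw [mul_smul_comm]; exact Submodule.smul_mem _ _ hx
  constructor
  · exact h1 y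
  · intro h
    have := h2 _ h
    rwa [← mul_assoc, Units.mul_inv, one_mul] at this

theorem det_act (g : SL(2, K)) (L : Lat K) : (g • L).det = L.det := by
  show (L.mul ((Matrix.SpecialLinearGroup.toGL g)⁻¹)).det = L.det
  rw [det_mul]
  have h : Matrix.GeneralLinearGroup.det ((Matrix.SpecialLinearGroup.toGL g)⁻¹ : GL (Fin 2) K) =
      1 := by
    rw [map_inv, inv_eq_one]
    ext
    simp
  rw [h, map_one, one_mul]

theorem det_sm (a : Id K) (L : Lat K) : (L.sm a).det = a ^ 2 * L.det := by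
  apply m_inj
  rw [det_m, sq, mul_assoc, m_mul, m_mul, det_m]
  apply le_antisymm
  · refine gb1_dM_le ?_
    intro u hu v hv
    have h1 : ∀ w ∈ L.M, dt u w ∈ a.m * L.dM := by
      intro w hw
      refine Submodule.smul_induction_on hu ?_ ?_
      · intro x hx n hn
        rw [gb1_smul_l]
        exact Submodule.mul_mem_mul hx (gb1_mem_dM hn hw)
      · intro x y hx hy
        rw [gb1_add_l]; exact Submodule.add_mem _ hx hy
    refine Submodule.smul_induction_on hv ?_ ?_
    · intro x hx n hn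
      rw [gb1_smul_r]
      exact Submodule.mul_mem_mul hx (h1 n hn)
    · intro x y hx hy
      rw [gb1_add_r]; exact Submodule.add_mem _ hx hy
  · rw [Submodule.mul_le]
    intro x hx z hz
    refine Submodule.mul_induction_on hz ?_ ?_
    · intro y hy w hw
      induction hw using Submodule.span_induction with
      | mem s hs =>
        obtain ⟨u, hu, v, hv, rfl⟩ := hs
        have : x * (y * dt u v) = dt (x • u) (y • v) := by
          rw [gb1_smul_l, gb1_smul_r]
        rw [this]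
        exact gb1_mem_dM (Submodule.smul_mem_smul hx hu) (Submodule.smul_mem_smul hy hv)
      | zero => rw [mul_zero, mul_zero]; exact Submodule.zero_mem _
      | add s t _ _ hs ht =>
        rw [mul_add, mul_add]; exact Submodule.add_mem _ hs ht
      | smul c s _ hs =>
        rw [mul_smul_comm, mul_smul_comm]; exact Submodule.smul_mem _ _ hs
    · intro s t hs ht
      rw [mul_add]; exact Submodule.add_mem _ hs ht

theorem av_act (g : GL (Fin 2) K) (L : Lat K) {v : Fin 2 → K} (hv : v ≠ 0) :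
    (g • L).av (Matrix.vecMul v ((g⁻¹ : GL (Fin 2) K) : Matrix (Fin 2) (Fin 2) K)) = L.av v := by
  unfold Lat.av
  congr 1
  ext x
  rw [gb1_mem_aM, gb1_mem_aM]
  constructor
  · rintro ⟨u, hu, huv⟩
    have h1 : Matrix.vecMul u ((g⁻¹ : GL (Fin 2) K) : Matrix (Fin 2) (Fin 2) K) =
        Matrix.vecMul (x • v) ((g⁻¹ : GL (Fin 2) K) : Matrix (Fin 2) (Fin 2) K) := by
      rw [Matrix.smul_vecMul]; exact huv
    have h2 : u = x • v := by
      have h3 := congrArg (fun w => Matrix.vecMul w (g : Matrix (Fin 2) (Fin 2) K)) h1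
      simpa [Matrix.vecMul_vecMul, ← Units.val_mul] using h3
    rw [← h2]; exact hu
  · intro h
    exact ⟨x • v, h, by
      show Matrix.vecMul (x • v) ((g⁻¹ : GL (Fin 2) K) : Matrix (Fin 2) (Fin 2) K) = _
      rw [Matrix.smul_vecMul]⟩

theorem av_sm (a : Id K) (L : Lat K) {v : Fin 2 → K} (hv : v ≠ 0) :
    (L.sm a).av v = a * L.av v := by
  apply m_inj
  apply le_antisymm
  · intro x hx
    rw [av_m _ hv, gb1_mem_aM] at hx
    have h1 : a * L.av v = L.av v / a⁻¹ := by rw [div_inv_eq_mul, mul_comm]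
    rw [h1, mem_div_iff]
    intro y hy
    rw [av_m _ hv, gb1_mem_aM, mul_comm, mul_smul]
    refine Submodule.smul_induction_on (p := fun w => y • w ∈ L.M) hx ?_ ?_
    · intro z hz n hn
      have h2 : y * z ∈ (a⁻¹ * a).m := mem_mul_of hy hz
      rw [inv_mul_cancel, mem_m_one] at h2
      obtain ⟨o, ho⟩ := h2
      rw [smul_smul, ← ho, ← gb1_osmul]
      exact Submodule.smul_mem _ _ hn
    · intro s t hs ht
      rw [smul_add]; exact Submodule.add_mem _ hs ht
  · rw [m_mul, Submodule.mul_le, av_m _ hv, av_m _ hv]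
    intro x hx y hy
    rw [gb1_mem_aM] at hy ⊢
    rw [mul_smul]
    exact Submodule.smul_mem_smul hx hy

theorem av_scal (L : Lat K) (t : Kˣ) {v : Fin 2 → K} (hv : v ≠ 0) :
    L.av ((t : K) • v) = (prI t)⁻¹ * L.av v := by
  have htv : (t : K) • v ≠ 0 := smul_ne_zero t.ne_zero hv
  apply m_inj
  ext x
  rw [← map_inv, mem_prI_mul, inv_inv, av_m _ htv, av_m _ hv, gb1_mem_aM, gb1_mem_aM,
    smul_smul, mul_comm]

/-- `N(L) ≤ |N(det(u,v))| N(a_u) N(a_v)` -/
theorem det_le (L : Lat K) (u v : Fin 2 → K) (t : Kˣ) (ht : (t : K) = dt u v) :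
    nI L.det ≤ nI (prI t) * nI (L.av u) * nI (L.av v) := by
  have hu : u ≠ 0 := by
    rintro rfl
    apply t.ne_zero
    rw [ht]; simp [dt]
  have hv : v ≠ 0 := by
    rintro rfl
    apply t.ne_zero
    rw [ht]; simp [dt]
  rw [← nI_mul, ← nI_mul, mul_assoc]
  apply nI_mono
  intro y hy
  rw [mem_prI_mul, m_mul] at hy
  have h1 : ∀ z ∈ (L.av u).m * (L.av v).m, (t : K) * z ∈ L.det.m := by
    intro z hz
    rw [det_m]
    refine Submodule.mul_induction_on hz ?_ ?_
    · intro x hx w hw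
      rw [av_m _ hu, gb1_mem_aM] at hx
      rw [av_m _ hv, gb1_mem_aM] at hw
      have : (t : K) * (x * w) = dt (x • u) (w • v) := by
        rw [gb1_smul_l, gb1_smul_r, ht]; ring
      rw [this]
      exact gb1_mem_dM hx hw
    · intro s r hs hr
      rw [mul_add]; exact Submodule.add_mem _ hs hr
  have := h1 _ hy
  rwa [← mul_assoc, Units.mul_inv, one_mul] at this

end Pool.Agent.HSG
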