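import Pool.Agent.Lib_helper84.HSG.DefsB
import Pool.Agent.Lib_helper84.HSGF.GA1
import Pool.Agent.Lib_helper84.HSGF.GB1

/-!
# Hilbert-Selberg, PART II, block GB2 (DET-b): splitting of lattices, formulas for `b ⊕ a`
-/

namespace Pool.Agent.HSG

open Complex MeasureTheory Filter Topology UpperHalfPlane NumberField IsDedekindDomain
open scoped nonZeroDivisors MatrixGroups ENNReal

variable {K : Type} [Field K] [NumberField K]

theorem gb2_ext {L L' : Lat K} (h : ∀ v, v ∈ L.M ↔ v ∈ L'.M) : L = L' := by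
  ext v
  exact h v

theorem mul_mul (L : Lat K) (g h : GL (Fin 2) K) : L.mul (g * h) = (L.mul g).mul h := by
  apply gb2_ext
  intro v
  rw [gb1_mem_mul, gb1_mem_mul]
  constructor
  · rintro ⟨u, hu, rfl⟩
    exact ⟨_, ⟨u, hu, rfl⟩, by
      show Matrix.vecMul (Matrix.vecMul u (g : Matrix (Fin 2) (Fin 2) K)) _ = _
      rw [Matrix.vecMul_vecMul, ← Units.val_mul]⟩
  · rintro ⟨_, ⟨u, hu, rfl⟩, rfl⟩
    refine ⟨u, hu, ?_⟩
    show _ = Matrix.vecMul (Matrix.vecMul u (g : Matrix (Fin 2) (Fin 2) K)) _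
    rw [Matrix.vecMul_vecMul, ← Units.val_mul]

theorem act_eq (g : SL(2, K)) (L : Lat K) :
    g • L = L.mul ((g⁻¹ : SL(2, K)) : GL (Fin 2) K) := by
  show L.mul ((Matrix.SpecialLinearGroup.toGL g)⁻¹) = L.mul (Matrix.SpecialLinearGroup.toGL g⁻¹)
  rw [map_inv]

theorem mul_sm (a : Id K) (L : Lat K) (g : GL (Fin 2) K) :
    (L.sm a).mul g = (L.mul g).sm a := by
  ext1
  show (a.m • L.M).map _ = a.m • (L.M.map _)
  apply le_antisymm
  · rw [Submodule.map_le_iff_le_comap, Submodule.smul_le]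
    intro r hr n hn
    rw [Submodule.mem_comap]
    show Matrix.vecMul (r • n) (g : Matrix (Fin 2) (Fin 2) K) ∈ _
    rw [Matrix.smul_vecMul]
    exact Submodule.smul_mem_smul hr ⟨n, hn, rfl⟩
  · rw [Submodule.smul_le]
    rintro r hr _ ⟨n, hn, rfl⟩
    refine ⟨r • n, Submodule.smul_mem_smul hr hn, ?_⟩
    show Matrix.vecMul (r • n) (g : Matrix (Fin 2) (Fin 2) K) =
      r • Matrix.vecMul n (g : Matrix (Fin 2) (Fin 2) K)
    rw [Matrix.smul_vecMul]

theorem act_sm (a : Id K) (L : Lat K) (g : SL(2, K)) : g • (L.sm a) = (g • L).sm a := by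
  rw [act_eq, act_eq, mul_sm]

theorem gb2_mem_one_smul {L : Lat K} {x : K} (hx : x ∈ (1 : Id K).m) {v : Fin 2 → K}
    (hv : v ∈ L.M) : x • v ∈ L.M := by
  rw [mem_m_one] at hx
  obtain ⟨o, rfl⟩ := hx
  rw [← gb1_osmul]
  exact Submodule.smul_mem _ _ hv

theorem sm_sm (a b : Id K) (L : Lat K) : (L.sm a).sm b = L.sm (a * b) := by
  ext1
  show b.m • (a.m • L.M) = (a * b).m • L.M
  apply le_antisymm
  · rw [Submodule.smul_le]
    intro r hr n hn
    refine Submodule.smul_induction_on (p := fun w => r • w ∈ (a * b).m • L.M) hn ?_ ?_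
    · intro x hx u hu
      rw [smul_smul, mul_comm r x]
      exact Submodule.smul_mem_smul (mem_mul_of hx hr) hu
    · intro s t hs ht
      rw [smul_add]; exact Submodule.add_mem _ hs ht
  · rw [Submodule.smul_le]
    intro r hr n hn
    rw [m_mul] at hr
    refine Submodule.mul_induction_on (C := fun r => r • n ∈ b.m • (a.m • L.M)) hr ?_ ?_
    · intro x hx y hy
      rw [mul_comm, mul_smul]
      exact Submodule.smul_mem_smul hy (Submodule.smul_mem_smul hx hn)
    · intro s t hs ht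
      rw [add_smul]; exact Submodule.add_mem _ hs ht

theorem sm_one (L : Lat K) : L.sm 1 = L := by
  ext1
  show (1 : Id K).m • L.M = L.M
  apply le_antisymm
  · rw [Submodule.smul_le]
    intro r hr n hn
    exact gb2_mem_one_smul hr hn
  · intro v hv
    have h : (1 : K) ∈ (1 : Id K).m := by
      rw [mem_m_one]; exact ⟨1, by simp⟩
    have := Submodule.smul_mem_smul h hv
    rwa [one_smul] at this

theorem ds_sm (c b a : Id K) : (Lat.ds b a).sm c = Lat.ds (c * b) (c * a) := by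
  ext1
  show c.m • (Lat.ds b a).M = (Lat.ds (c * b) (c * a)).M
  apply le_antisymm
  · rw [Submodule.smul_le]
    intro r hr v hv
    exact ⟨mem_mul_of hr hv.1, mem_mul_of hr hv.2⟩
  · intro v hv
    have h1 : v = ![v 0, 0] + ![0, v 1] := by
      ext i
      fin_cases i <;> simp
    rw [h1]
    refine Submodule.add_mem _ ?_ ?_
    · have h2 : v 0 ∈ c.m * b.m := by rw [← m_mul]; exact hv.1
      refine Submodule.mul_induction_on
        (C := fun r => (![r, 0] : Fin 2 → K) ∈ c.m • (Lat.ds b a).M) h2 ?_ ?_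
      · intro x hx y hy
        have h3 : (![x * y, 0] : Fin 2 → K) = x • ![y, 0] := by
          ext i
          fin_cases i <;> simp
        rw [h3]
        exact Submodule.smul_mem_smul hx ⟨by simpa using hy, by simp⟩
      · intro s t hs ht
        have h3 : (![s + t, 0] : Fin 2 → K) = ![s, 0] + ![t, 0] := by
          ext i
          fin_cases i <;> simp
        rw [h3]
        exact Submodule.add_mem _ hs ht
    · have h2 : v 1 ∈ c.m * a.m := by rw [← m_mul]; exact hv.2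
      refine Submodule.mul_induction_on
        (C := fun r => (![0, r] : Fin 2 → K) ∈ c.m • (Lat.ds b a).M) h2 ?_ ?_
      · intro x hx y hy
        have h3 : (![0, x * y] : Fin 2 → K) = x • ![0, y] := by
          ext i
          fin_cases i <;> simp
        rw [h3]
        exact Submodule.smul_mem_smul hx ⟨by simp, by simpa using hy⟩
      · intro s t hs ht
        have h3 : (![0, s + t] : Fin 2 → K) = ![0, s] + ![0, t] := by
          ext i
          fin_cases i <;> simp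
        rw [h3]
        exact Submodule.add_mem _ hs ht

/-- membership in `L g` by the inverse matrix -/
theorem gb2_mem_mul' {L : Lat K} {g : GL (Fin 2) K} {v : Fin 2 → K} :
    v ∈ (L.mul g).M ↔
      Matrix.vecMul v ((g⁻¹ : GL (Fin 2) K) : Matrix (Fin 2) (Fin 2) K) ∈ L.M := by
  rw [gb1_mem_mul]
  constructor
  · rintro ⟨u, hu, rfl⟩
    rw [Matrix.vecMul_vecMul, ← Units.val_mul, mul_inv_cancel]
    simpa using hu
  · intro h
    refine ⟨_, h, ?_⟩
    rw [Matrix.vecMul_vecMul, ← Units.val_mul, inv_mul_cancel]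
    simp

theorem ds_dgm (α : Kˣ) (b a : Id K) :
    (Lat.ds b a).mul (dgm α) = Lat.ds (prI α * b) a := by
  apply gb2_ext
  intro v
  rw [gb2_mem_mul', gb1_mem_ds, gb1_mem_ds, mem_prI_mul]
  have h : (((dgm α)⁻¹ : GL (Fin 2) K) : Matrix (Fin 2) (Fin 2) K) =
      !![((α⁻¹ : Kˣ) : K), 0; 0, 1] := rfl
  rw [h]
  have h0 : Matrix.vecMul v !![((α⁻¹ : Kˣ) : K), 0; 0, 1] 0 = ((α⁻¹ : Kˣ) : K) * v 0 := by
    simp [Matrix.vecMul, dotProduct, Fin.sum_univ_two, mul_comm]
  have h1 : Matrix.vecMul v !![((α⁻¹ : Kˣ) : K), 0; 0, 1] 1 = v 1 := by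
    simp [Matrix.vecMul, dotProduct, Fin.sum_univ_two]
  rw [h0, h1]

omit [NumberField K] in
theorem gb2_nm_inv (β : K) : ((((nm β : SL(2, K)) : GL (Fin 2) K)⁻¹ : GL (Fin 2) K) :
    Matrix (Fin 2) (Fin 2) K) = !![1, -β; 0, 1] := by
  rw [← map_inv, Matrix.SpecialLinearGroup.coe_GL_coe_matrix,
    Matrix.SpecialLinearGroup.SL2_inv_expl]
  ext i j
  fin_cases i <;> fin_cases j <;> simp [nm]

omit [NumberField K] in
theorem gb2_nm_inv' (β : K) : (nm β)⁻¹ = nm (-β) := by
  ext i j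
  rw [Matrix.SpecialLinearGroup.SL2_inv_expl]
  fin_cases i <;> fin_cases j <;> simp [nm]

/-- `(b ⊕ a) n(β)` in coordinates -/
theorem mem_ds_nm (b a : Id K) (β : K) (v : Fin 2 → K) :
    v ∈ ((Lat.ds b a).mul (nm β : GL (Fin 2) K)).M ↔ v 0 ∈ b.m ∧ v 1 - v 0 * β ∈ a.m := by
  rw [gb2_mem_mul', gb1_mem_ds, gb2_nm_inv]
  have h0 : Matrix.vecMul v !![1, -β; 0, 1] 0 = v 0 := by
    simp [Matrix.vecMul, dotProduct, Fin.sum_univ_two]
  have h1 : Matrix.vecMul v !![1, -β; 0, 1] 1 = v 1 - v 0 * β := by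
    simp [Matrix.vecMul, dotProduct, Fin.sum_univ_two]
    ring
  rw [h0, h1]

theorem ds_nm (b a : Id K) {β : K} (hβ : β ∈ (a / b).m) :
    (Lat.ds b a).mul (nm β : GL (Fin 2) K) = Lat.ds b a := by
  apply gb2_ext
  intro v
  rw [mem_ds_nm, gb1_mem_ds]
  refine and_congr_right fun h0 => ?_
  have h1 : v 0 * β ∈ a.m := by
    rw [mul_comm]; exact (mem_div_iff a b β).1 hβ _ h0
  constructor
  · intro h
    have := Submodule.add_mem _ h h1
    rwa [sub_add_cancel] at this
  · intro h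
    exact Submodule.sub_mem _ h h1

omit [NumberField K] in
theorem gb2_wm_inv : ((((wm K : SL(2, K)) : GL (Fin 2) K)⁻¹ : GL (Fin 2) K) :
    Matrix (Fin 2) (Fin 2) K) = !![0, 1; -1, 0] := by
  rw [← map_inv, Matrix.SpecialLinearGroup.coe_GL_coe_matrix,
    Matrix.SpecialLinearGroup.SL2_inv_expl]
  ext i j
  fin_cases i <;> fin_cases j <;> simp [wm]

theorem ds_wm (b a : Id K) : (Lat.ds b a).mul (wm K : GL (Fin 2) K) = Lat.ds a b := by
  apply gb2_ext
  intro v
  rw [gb2_mem_mul', gb1_mem_ds, gb1_mem_ds, gb2_wm_inv]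
  have h0 : Matrix.vecMul v !![0, 1; -1, 0] 0 = -v 1 := by
    simp [Matrix.vecMul, dotProduct, Fin.sum_univ_two]
  have h1 : Matrix.vecMul v !![0, 1; -1, 0] 1 = v 0 := by
    simp [Matrix.vecMul, dotProduct, Fin.sum_univ_two]
  rw [h0, h1]
  constructor
  · rintro ⟨h, h'⟩
    exact ⟨h', by simpa using Submodule.neg_mem _ h⟩
  · rintro ⟨h, h'⟩
    exact ⟨Submodule.neg_mem _ h', h⟩

theorem ds_dsm {ε : Kˣ} (hε : ε ∈ Uu K) (b a : Id K) : dsm ε • Lat.ds b a = Lat.ds b a := by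
  rw [act_eq]
  apply gb2_ext
  intro v
  rw [gb2_mem_mul', gb1_mem_ds, gb1_mem_ds]
  have h : (((((dsm ε)⁻¹ : SL(2, K)) : GL (Fin 2) K)⁻¹ : GL (Fin 2) K) :
      Matrix (Fin 2) (Fin 2) K) = !![(ε : K), 0; 0, ((ε⁻¹ : Kˣ) : K)] := by
    rw [map_inv, inv_inv]
    rfl
  rw [h]
  have h0 : Matrix.vecMul v !![(ε : K), 0; 0, ((ε⁻¹ : Kˣ) : K)] 0 = (ε : K) * v 0 := by
    simp [Matrix.vecMul, dotProduct, Fin.sum_univ_two, mul_comm]
  have h1 : Matrix.vecMul v !![(ε : K), 0; 0, ((ε⁻¹ : Kˣ) : K)] 1 = ((ε⁻¹ : Kˣ) : K) * v 1 := by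
    simp [Matrix.vecMul, dotProduct, Fin.sum_univ_two, mul_comm]
  rw [h0, h1]
  have e1 : prI ε = (1 : Id K) := hε
  have e2 : ∀ (c : Id K) (y : K), ((ε⁻¹ : Kˣ) : K) * y ∈ c.m ↔ y ∈ c.m := by
    intro c y
    rw [← mem_prI_mul, e1, one_mul]
  have e3 : ∀ (c : Id K) (y : K), (ε : K) * y ∈ c.m ↔ y ∈ c.m := by
    intro c y
    rw [← e2 c ((ε : K) * y), ← mul_assoc, Units.inv_mul, one_mul]
  rw [e2, e3]

/-- the elements with second row `(0,1)` mapping `b ⊕ a` to a lattice `b' ⊕ a` -/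
theorem stab_ds {g : SL(2, K)} {b a b' a' : Id K}
    (h1 : (g : Matrix (Fin 2) (Fin 2) K) 1 = ![0, 1]) (h : g • Lat.ds b a = Lat.ds b' a') :
    b = b' ∧ a = a' ∧ ∃ β ∈ (a / b).m, g = nm β := by
  have h10 : (g : Matrix (Fin 2) (Fin 2) K) 1 0 = 0 := by rw [h1]; rfl
  have h11 : (g : Matrix (Fin 2) (Fin 2) K) 1 1 = 1 := by rw [h1]; rfl
  have hdet := g.det_coe
  rw [Matrix.det_fin_two, h10, h11] at hdet
  have h00 : (g : Matrix (Fin 2) (Fin 2) K) 0 0 = 1 := by linear_combination hdet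
  set q := (g : Matrix (Fin 2) (Fin 2) K) 0 1 with hq
  have hg : g = nm q := by
    ext i j
    fin_cases i <;> fin_cases j
    · simpa [nm] using h00
    · simp [nm, hq]
    · simpa [nm] using h10
    · simpa [nm] using h11
  have hinv : g⁻¹ = nm (-q) := by
    rw [hg, gb2_nm_inv']
  rw [act_eq, hinv] at h
  have key : ∀ v : Fin 2 → K, (v 0 ∈ b.m ∧ v 1 + v 0 * q ∈ a.m) ↔ (v 0 ∈ b'.m ∧ v 1 ∈ a'.m) := by
    intro v
    rw [← gb1_mem_ds (b := b') (a := a'), ← h, mem_ds_nm, mul_neg, sub_neg_eq_add]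
  have ha : a = a' := by
    apply m_inj
    ext x
    have := key ![0, x]
    simpa using this
  have hdet2 : b * a = b' * a' := by
    rw [← det_ds b a, ← det_ds b' a', ← h, det_mul]
    have h3 : Matrix.GeneralLinearGroup.det ((nm (-q) : SL(2, K)) : GL (Fin 2) K) = 1 := by
      ext
      simp
    rw [h3, map_one, one_mul]
  have hb : b = b' := by
    rw [ha] at hdet2
    exact mul_right_cancel hdet2
  refine ⟨hb, ha, q, ?_, hg⟩
  rw [mem_div_iff]
  intro y hy
  have h4 := (key ![y, 0]).2 (by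
    constructor
    · rw [← hb]; simpa using hy
    · simp)
  have h5 := h4.2
  rw [mul_comm]
  simpa using h5

/-- the image of `L` under `u ↦ dt u v` -/
def gb2_B (L : Lat K) (v : Fin 2 → K) : Submodule (𝓞 K) K where
  carrier := {x | ∃ u ∈ L.M, dt u v = x}
  add_mem' := by
    rintro _ _ ⟨u, hu, rfl⟩ ⟨u', hu', rfl⟩
    exact ⟨u + u', Submodule.add_mem _ hu hu', gb1_add_l u u' v⟩
  zero_mem' := ⟨0, Submodule.zero_mem _, by simp [dt]⟩
  smul_mem' := by
    rintro c _ ⟨u, hu, rfl⟩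
    exact ⟨c • u, Submodule.smul_mem _ _ hu, by rw [gb1_osmul, gb1_smul_l, gb1_osmul']⟩

theorem split (L : Lat K) {v : Fin 2 → K} (hv : v ≠ 0) :
    ∃ g : SL(2, K), (g : Matrix (Fin 2) (Fin 2) K) 1 = v ∧
      g • L = Lat.ds (L.det / L.av v) (L.av v) := by
  have hne : gb2_B L v ≠ ⊥ := by
    intro h
    have h1 : ∀ u ∈ L.M, dt u v = 0 := by
      intro u hu
      have : dt u v ∈ gb2_B L v := ⟨u, hu, rfl⟩
      rw [h] at this
      exact (Submodule.mem_bot _).1 this
    have h2 : ∀ u, dt u v = 0 := fun u =>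
      gb1_zero (L := L) (fun u => dt u v) (by simp [dt]) (fun u u' => gb1_add_l u u' v)
        (fun c u => gb1_smul_l c u v) h1 u
    apply hv
    ext i
    fin_cases i
    · have := h2 ![0, 1]
      simpa [dt] using this
    · have := h2 ![1, 0]
      simpa [dt] using this
  have hfg : (gb2_B L v).FG := by
    classical
    obtain ⟨S, hS⟩ := L.fg
    refine ⟨S.image (fun u => dt u v), le_antisymm ?_ ?_⟩
    · rw [Submodule.span_le]
      intro x hx
      rw [Finset.mem_coe, Finset.mem_image] at hx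
      obtain ⟨s, hs, rfl⟩ := hx
      exact ⟨s, by rw [← hS]; exact Submodule.subset_span hs, rfl⟩
    · rintro _ ⟨u, hu, rfl⟩
      rw [← hS] at hu
      induction hu using Submodule.span_induction with
      | mem s hs =>
        exact Submodule.subset_span (Finset.mem_coe.mpr (Finset.mem_image_of_mem _ hs))
      | zero => simp [dt]
      | add x y _ _ hx hy => rw [gb1_add_l]; exact Submodule.add_mem _ hx hy
      | smul c x _ hx =>
        rw [gb1_osmul, gb1_smul_l, ← gb1_osmul']; exact Submodule.smul_mem _ _ hx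
  set B : Id K := toId (gb2_B L v) with hBdef
  have hB : B.m = gb2_B L v := toId_m hne hfg
  have hone : (1 : K) ∈ B.m * (B⁻¹).m := by
    rw [← m_mul, mul_inv_cancel, mem_m_one]
    exact ⟨1, by simp⟩
  have hlift : ∀ z ∈ B.m * (B⁻¹).m, ∃ u : Fin 2 → K, dt u v = z ∧ ∀ t ∈ B.m, t • u ∈ L.M := by
    intro z hz
    refine Submodule.mul_induction_on hz ?_ ?_
    · intro x hx y hy
      rw [hB] at hx
      obtain ⟨X, hX, rfl⟩ := hx
      refine ⟨y • X, by rw [gb1_smul_l, mul_comm], ?_⟩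
      intro t ht
      rw [smul_smul]
      refine gb2_mem_one_smul ?_ hX
      have := mem_mul_of ht hy
      rwa [mul_inv_cancel] at this
    · rintro s t ⟨u, hu, hu'⟩ ⟨w, hw, hw'⟩
      refine ⟨u + w, by rw [gb1_add_l, hu, hw], ?_⟩
      intro r hr
      rw [smul_add]
      exact Submodule.add_mem _ (hu' r hr) (hw' r hr)
  obtain ⟨u, hu1, hu2⟩ := hlift 1 hone
  let g : SL(2, K) := ⟨!![u 0, u 1; v 0, v 1], by
    rw [Matrix.det_fin_two_of]; exact hu1⟩
  have hgL : g • L = Lat.ds B (L.av v) := by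
    apply gb2_ext
    intro c
    rw [act_eq, gb2_mem_mul', map_inv, inv_inv, gb1_mem_ds, av_m L hv, gb1_mem_aM]
    have h1 : Matrix.vecMul c ((g : GL (Fin 2) K) : Matrix (Fin 2) (Fin 2) K) =
        c 0 • u + c 1 • v := by
      rw [Matrix.SpecialLinearGroup.coe_GL_coe_matrix]
      ext i
      fin_cases i <;>
        simp [g, Matrix.vecMul, dotProduct, Fin.sum_univ_two]
    rw [h1]
    constructor
    · intro h
      have h2 : c 0 ∈ B.m := by
        rw [hB]
        refine ⟨_, h, ?_⟩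
        rw [gb1_add_l, gb1_smul_l, gb1_smul_l, hu1]
        have : dt v v = 0 := by simp only [dt]; ring
        rw [this]; ring
      refine ⟨h2, ?_⟩
      have h3 := Submodule.sub_mem _ h (hu2 _ h2)
      rwa [add_sub_cancel_left] at h3
    · rintro ⟨h2, h3⟩
      exact Submodule.add_mem _ (hu2 _ h2) h3
  have hdet : L.det = B * L.av v := by
    rw [← det_ds B (L.av v), ← hgL, det_act]
  refine ⟨g, ?_, ?_⟩
  · ext i
    fin_cases i <;> simp [g]
  · rw [hgL, hdet, mul_div_cancel_right]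

end Pool.Agent.HSG
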