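import Pool.Agent.Lib_helper84.HSG.DefsB
import Pool.Agent.Lib_helper84.HSGF.GA1
import Pool.Agent.Lib_helper84.HSGF.GA3
import Pool.Agent.Lib_helper84.HSGF.GB1
import Pool.Agent.Lib_helper84.HSGF.GB2

/-! # Hecke sublattices, part a -/

namespace Pool.Agent.HSG

open Complex MeasureTheory Filter Topology UpperHalfPlane NumberField IsDedekindDomain
open scoped nonZeroDivisors MatrixGroups ENNReal

variable {K : Type} [Field K] [NumberField K]

theorem gc1_smul (p : Pr K) (N : Submodule (𝓞 K) (Fin 2 → K)) :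
    Id.m (HS.frP p) • N = p.asIdeal • N := by
  have h1 := (pI_facts p).1
  rw [h1]
  apply le_antisymm
  · rw [Submodule.smul_le]
    intro r hr n hn
    have hr' : r ∈ (p.asIdeal : FractionalIdeal (𝓞 K)⁰ K) := hr
    rw [FractionalIdeal.mem_coeIdeal] at hr'
    obtain ⟨x, hx, rfl⟩ := hr'
    have h2 : (algebraMap (𝓞 K) K x) • n = x • n := algebraMap_smul K x n
    rw [h2]
    exact Submodule.smul_mem_smul hx hn
  · rw [Submodule.smul_le]
    intro r hr n hn
    have h2 : (algebraMap (𝓞 K) K r) • n = r • n := algebraMap_smul K r n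
    rw [← h2]
    refine Submodule.smul_mem_smul ?_ hn
    have h3 : algebraMap (𝓞 K) K r ∈ (p.asIdeal : FractionalIdeal (𝓞 K)⁰ K) := by
      rw [FractionalIdeal.mem_coeIdeal]
      exact ⟨r, hr, rfl⟩
    exact h3

theorem gc1_one (N : Submodule (𝓞 K) (Fin 2 → K)) : (1 : Id K).m • N = N := by
  apply le_antisymm
  · rw [Submodule.smul_le]
    intro r hr n hn
    obtain ⟨y, rfl⟩ := (mem_m_one r).mp hr
    have h2 : (algebraMap (𝓞 K) K y) • n = y • n := algebraMap_smul K y n
    rw [show ((y : K)) • n = y • n from h2]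
    exact N.smul_mem y hn
  · intro n hn
    have h1 : (1 : K) • n ∈ (1 : Id K).m • N :=
      Submodule.smul_mem_smul ((mem_m_one 1).mpr ⟨1, by simp⟩) hn
    rwa [one_smul] at h1

theorem gc1_mul (a b : Id K) (N : Submodule (𝓞 K) (Fin 2 → K)) :
    (a * b).m • N = a.m • (b.m • N) := by
  rw [m_mul, ← Submodule.smul_assoc]
  rfl

theorem gc1_le (a : Id K) {N N' : Submodule (𝓞 K) (Fin 2 → K)} :
    a.m • N ≤ a.m • N' ↔ N ≤ N' := by
  constructor
  · intro h
    have h1 := Submodule.smul_mono (le_refl (a⁻¹ : Id K).m) h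
    rwa [← gc1_mul, ← gc1_mul, inv_mul_cancel, gc1_one, gc1_one] at h1
  · intro h
    exact Submodule.smul_mono (le_refl a.m) h

theorem gc1_lt (a : Id K) {N N' : Submodule (𝓞 K) (Fin 2 → K)} :
    a.m • N < a.m • N' ↔ N < N' := by
  rw [lt_iff_le_not_ge, lt_iff_le_not_ge, gc1_le, gc1_le]

theorem gc1_sub (p : Pr K) (L L' : Lat K) : L.Sub p L' ↔
    Id.m (HS.frP p) • L.M < L'.M ∧ L'.M < L.M := by
  unfold Lat.Sub
  rw [gc1_smul]

theorem sub_fin (p : Pr K) (L : Lat K) : Finite {L' : Lat K // L.Sub p L'} := by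
  have hfin : Finite ((𝓞 K) ⧸ p.asIdeal) := by
    rw [← Ideal.absNorm_ne_zero_iff, Ne, Ideal.absNorm_eq_zero_iff]
    exact p.ne_bot
  have hfg : (⊤ : Submodule (𝓞 K) L.M).FG := by
    have h1 : Module.Finite (𝓞 K) L.M := Module.Finite.of_fg L.fg
    exact h1.fg_top
  have hsub : Subsingleton (L.M ⧸ (⊤ : Submodule (𝓞 K) L.M)) := inferInstance
  have hq : Finite (L.M ⧸ p.asIdeal • (⊤ : Submodule (𝓞 K) L.M)) :=
    Submodule.finite_quotient_smul p.asIdeal hfg
  let Q := L.M ⧸ p.asIdeal • (⊤ : Submodule (𝓞 K) L.M)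
  have hS : Finite (Submodule (𝓞 K) Q) := by
    exact Finite.of_injective (fun S : Submodule (𝓞 K) Q => (S : Set Q)) SetLike.coe_injective
  refine Finite.of_injective (fun L' : {L' : Lat K // L.Sub p L'} =>
    ((L'.1.M.comap L.M.subtype).map (Submodule.mkQ (p.asIdeal • (⊤ : Submodule (𝓞 K) L.M))) :
      Submodule (𝓞 K) Q)) ?_
  intro L₁ L₂ h
  have key : ∀ L' : {L' : Lat K // L.Sub p L'}, ((L'.1.M.comap L.M.subtype).map
      (Submodule.mkQ (p.asIdeal • (⊤ : Submodule (𝓞 K) L.M)))).comap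
      (Submodule.mkQ (p.asIdeal • (⊤ : Submodule (𝓞 K) L.M))) = L'.1.M.comap L.M.subtype := by
    intro L'
    rw [Submodule.comap_map_mkQ, sup_eq_right]
    rw [Submodule.smul_le]
    intro r hr n _
    rw [Submodule.mem_comap]
    exact L'.2.1.le (Submodule.smul_mem_smul hr n.2)
  have h1 : L₁.1.M.comap L.M.subtype = L₂.1.M.comap L.M.subtype := by
    rw [← key L₁, ← key L₂]
    exact congrArg _ h
  apply Subtype.ext
  apply Lat.ext
  ext x
  constructor
  · intro hx
    have h2 : (⟨x, L₁.2.2.le hx⟩ : L.M) ∈ L₁.1.M.comap L.M.subtype := hx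
    rw [h1] at h2
    exact h2
  · intro hx
    have h2 : (⟨x, L₂.2.2.le hx⟩ : L.M) ∈ L₂.1.M.comap L.M.subtype := hx
    rw [← h1] at h2
    exact h2

theorem gc1_map_smul (I : Ideal (𝓞 K)) (g : GL (Fin 2) K) (N : Submodule (𝓞 K) (Fin 2 → K)) :
    I • N.map ((Matrix.vecMulLinear (g : Matrix (Fin 2) (Fin 2) K)).restrictScalars (𝓞 K)) =
      (I • N).map ((Matrix.vecMulLinear (g : Matrix (Fin 2) (Fin 2) K)).restrictScalars (𝓞 K)) :=
  (Submodule.map_smul'' I N _).symm

theorem gc1_inj (g : GL (Fin 2) K) : Function.Injective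
    ((Matrix.vecMulLinear (g : Matrix (Fin 2) (Fin 2) K)).restrictScalars (𝓞 K)) := by
  intro v w h
  have h1 : Matrix.vecMul v (g : Matrix (Fin 2) (Fin 2) K) =
      Matrix.vecMul w (g : Matrix (Fin 2) (Fin 2) K) := h
  have h2 := congrArg (fun u => Matrix.vecMul u ((g⁻¹ : GL (Fin 2) K) :
    Matrix (Fin 2) (Fin 2) K)) h1
  simp only [Matrix.vecMul_vecMul, ← Units.val_mul, mul_inv_cancel, Units.val_one,
    Matrix.vecMul_one] at h2
  exact h2

theorem gc1_map_lt (g : GL (Fin 2) K) {N N' : Submodule (𝓞 K) (Fin 2 → K)} :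
    N.map ((Matrix.vecMulLinear (g : Matrix (Fin 2) (Fin 2) K)).restrictScalars (𝓞 K)) <
      N'.map ((Matrix.vecMulLinear (g : Matrix (Fin 2) (Fin 2) K)).restrictScalars (𝓞 K)) ↔
      N < N' := by
  rw [lt_iff_le_not_ge, lt_iff_le_not_ge, Submodule.map_le_map_iff_of_injective (gc1_inj g),
    Submodule.map_le_map_iff_of_injective (gc1_inj g)]

theorem sub_mul (g : GL (Fin 2) K) {p : Pr K} {L L' : Lat K} :
    (L.mul g).Sub p (L'.mul g) ↔ L.Sub p L' := by
  unfold Lat.Sub
  change (p.asIdeal • L.M.map _ < L'.M.map _ ∧ L'.M.map _ < L.M.map _) ↔ _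
  rw [gc1_map_smul, gc1_map_lt, gc1_map_lt]

theorem sub_act (g : SL(2, K)) {p : Pr K} {L L' : Lat K} :
    (g • L).Sub p (g • L') ↔ L.Sub p L' := by
  rw [act_eq, act_eq]
  exact sub_mul _

theorem sub_sm (a : Id K) {p : Pr K} {L L' : Lat K} :
    (L.sm a).Sub p (L'.sm a) ↔ L.Sub p L' := by
  rw [gc1_sub, gc1_sub]
  change (Id.m (HS.frP p) • (a.m • L.M) < a.m • L'.M ∧ a.m • L'.M < a.m • L.M) ↔ _
  rw [← gc1_mul, mul_comm, gc1_mul, gc1_lt, gc1_lt]

theorem sub_dual {p : Pr K} {L L' : Lat K} : L.Sub p L' ↔ L'.Sub p (L.sm (HS.frP p)) := by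
  rw [gc1_sub, gc1_sub]
  change _ ↔ (Id.m (HS.frP p) • L'.M < Id.m (HS.frP p) • L.M ∧
    Id.m (HS.frP p) • L.M < L'.M)
  rw [gc1_lt]
  exact and_comm

/-- `a / p a` is simple. -/
theorem gc1_simple (p : Pr K) (a : Id K) (M : Submodule (𝓞 K) K)
    (h1 : Id.m (HS.frP p * a) ≤ M) (h2 : M ≤ a.m) :
    M = a.m ∨ M = Id.m (HS.frP p * a) := by
  have hne : M ≠ ⊥ := by
    intro h
    obtain ⟨x, hx0, hx⟩ := Id.exists_ne (HS.frP p * a)
    have h3 := h1 hx
    rw [h, Submodule.mem_bot] at h3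
    exact hx0 h3
  have hfg : M.FG := Submodule.FG.of_le (FractionalIdeal.fg_unit a) h2
  have hM := toId_m hne hfg
  set m := toId M with hm
  rw [← hM] at h1 h2 ⊢
  have hint : IsInt (m / a) := (isInt_div m a).mpr h2
  have hint2 : IsInt ((HS.frP p * a) / m) := (isInt_div _ m).mpr h1
  obtain ⟨I, hI⟩ := FractionalIdeal.le_one_iff_exists_coeIdeal.mp hint
  have hpI : p.asIdeal ≤ I := by
    rw [← FractionalIdeal.coeIdeal_le_coeIdeal K, hI]
    have h3 : Id.m (HS.frP p) ≤ (m / a).m := by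
      rw [← isInt_div]
      have h4 : (HS.frP p : Id K) / (m / a) = (HS.frP p * a) / m := by
        rw [div_div_eq_mul_div]
      rw [h4]
      exact hint2
    have h5 := (pI_facts p).1
    intro x hx
    have h6 : x ∈ Id.m (HS.frP p) := by
      rw [h5]
      exact hx
    exact h3 h6
  rcases eq_or_ne I ⊤ with h | h
  · left
    rw [h, FractionalIdeal.coeIdeal_top] at hI
    have h3 : m / a = 1 := Units.ext hI.symm
    rw [div_eq_one] at h3
    rw [h3]
  · right
    have h3 : p.asIdeal = I := p.isMaximal.eq_of_le h hpI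
    have h4 : m / a = HS.frP p := by
      apply m_inj
      rw [(pI_facts p).1, h3]
      show ((m / a : Id K) : FractionalIdeal (𝓞 K)⁰ K).coeToSubmodule = _
      rw [← hI]
    rw [← h4, div_mul_cancel]

theorem sub_det {p : Pr K} {L L' : Lat K} (h : L.Sub p L') :
    L'.det = HS.frP p * L.det := by
  have hs := (gc1_sub p L L').mp h
  -- a vector of `L'` outside `p L`
  obtain ⟨v, hv, hvp⟩ := SetLike.exists_of_lt hs.1
  have hv0 : v ≠ 0 := by
    rintro rfl
    exact hvp (Submodule.zero_mem _)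
  have hvL : v ∈ L.M := hs.2.le hv
  -- `a v ≤ L'`
  have haL : (L.av v).m = L.aM v := av_m L hv0
  have hmem : ∀ (L : Lat K) (x : K), x ∈ L.aM v ↔ x • v ∈ L.M := fun L x => Iff.rfl
  have haL' : L'.aM v = (L.av v).m := by
    have h1 : Id.m (HS.frP p * L.av v) ≤ L'.aM v := by
      intro x hx
      rw [hmem]
      have h2 : (HS.frP p * L.av v : Id K) = (L.sm (HS.frP p)).av v :=
        (av_sm (HS.frP p) L hv0).symm
      rw [h2, av_m _ hv0, hmem] at hx
      exact hs.1.le hx
    have h2 : L'.aM v ≤ (L.av v).m := by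
      intro x hx
      rw [haL, hmem]
      exact hs.2.le hx
    rcases gc1_simple p (L.av v) (L'.aM v) h1 h2 with h3 | h3
    · exact h3
    · exfalso
      apply hvp
      have h4 : (1 : K) ∈ L'.aM v := by
        rw [hmem, one_smul]
        exact hv
      rw [h3] at h4
      have h5 : (HS.frP p * L.av v : Id K) = (L.sm (HS.frP p)).av v :=
        (av_sm (HS.frP p) L hv0).symm
      rw [h5, av_m _ hv0, hmem, one_smul] at h4
      exact h4
  obtain ⟨g, hg1, hg2⟩ := split L hv0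
  set a := L.av v with ha
  set b := L.det / a with hb
  -- the lattice `g L'`
  have hsub : (g • L).Sub p (g • L') := sub_act g |>.mpr h
  have hsub' := (gc1_sub p _ _).mp hsub
  have he2 : ∀ y ∈ a.m, (![0, y] : Fin 2 → K) ∈ (g • L').M := by
    intro y hy
    rw [act_eq]
    have h1 : y • v ∈ L'.M := by
      rw [← hmem, haL']
      exact hy
    refine ⟨y • v, h1, ?_⟩
    show Matrix.vecMul (y • v) (((g⁻¹ : SL(2, K)) : GL (Fin 2) K) : Matrix (Fin 2) (Fin 2) K) = _
    have h2 : v = Matrix.vecMul ![0, 1] (g : Matrix (Fin 2) (Fin 2) K) := by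
      rw [← hg1]
      ext i
      fin_cases i <;> simp [Matrix.vecMul, dotProduct, Fin.sum_univ_two]
    have h3 : (g : Matrix (Fin 2) (Fin 2) K) *
        (((g⁻¹ : SL(2, K)) : GL (Fin 2) K) : Matrix (Fin 2) (Fin 2) K) = 1 := by
      have h4 : (((g⁻¹ : SL(2, K)) : GL (Fin 2) K) : Matrix (Fin 2) (Fin 2) K) =
          ((g⁻¹ : SL(2, K)) : Matrix (Fin 2) (Fin 2) K) := rfl
      rw [h4, ← Matrix.SpecialLinearGroup.coe_mul, mul_inv_cancel,
        Matrix.SpecialLinearGroup.coe_one]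
    rw [Matrix.smul_vecMul, h2, Matrix.vecMul_vecMul, h3, Matrix.vecMul_one]
    ext i
    fin_cases i <;> simp
  let B : Submodule (𝓞 K) K := (g • L').M.comap
    ((LinearMap.single K (fun _ : Fin 2 => K) 0).restrictScalars (𝓞 K))
  have hB : ∀ x, x ∈ B ↔ (Pi.single 0 x : Fin 2 → K) ∈ (g • L').M := fun x => Iff.rfl
  have hL'eq : ((g • L').M : Set (Fin 2 → K)) = {v : Fin 2 → K | v 0 ∈ B ∧ v 1 ∈ a.m} := by
    ext u
    constructor
    · intro hu
      have h1 : u ∈ (Lat.ds b a).M := by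
        rw [← hg2]
        exact hsub'.2.le hu
      have h2 : u 1 ∈ a.m := h1.2
      refine ⟨?_, h2⟩
      rw [hB]
      have h3 : (Pi.single 0 (u 0) : Fin 2 → K) = u - ![0, u 1] := by
        ext i
        fin_cases i <;> simp
      rw [h3]
      exact Submodule.sub_mem _ hu (he2 _ h2)
    · rintro ⟨h1, h2⟩
      rw [hB] at h1
      have h3 : u = Pi.single 0 (u 0) + ![0, u 1] := by
        ext i
        fin_cases i <;> simp
      rw [h3]
      exact Submodule.add_mem _ h1 (he2 _ h2)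
  have hsm : Id.m (HS.frP p) • (g • L).M = (Lat.ds (HS.frP p * b) (HS.frP p * a)).M := by
    rw [hg2, ← ds_sm]
    rfl
  have hBb : B = b.m ∨ B = Id.m (HS.frP p * b) := by
    apply gc1_simple
    · intro x hx
      rw [hB]
      apply hsub'.1.le
      rw [hsm]
      refine ⟨?_, ?_⟩
      · simpa using hx
      · simp
    · intro x hx
      rw [hB] at hx
      have h1 : (Pi.single 0 x : Fin 2 → K) ∈ (Lat.ds b a).M := by
        rw [← hg2]
        exact hsub'.2.le hx
      have h2 := h1.1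
      simpa using h2
  have hfin : g • L' = Lat.ds (HS.frP p * b) a := by
    rcases hBb with h1 | h1
    · exfalso
      apply hsub'.2.ne
      rw [hg2]
      apply SetLike.coe_injective
      rw [hL'eq, h1]
      rfl
    · apply Lat.ext
      apply SetLike.coe_injective
      rw [hL'eq, h1]
      rfl
  rw [← det_act g L', hfin, det_ds, hb, mul_assoc, div_mul_cancel]


end Pool.Agent.HSG
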