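import Pool.Agent.Lib_helper84.HSG.DefsB

/-! # Hilbert-Selberg, Part II, block GG: the class groups -/

namespace Pool.Agent.HSG

open Complex MeasureTheory Filter Topology UpperHalfPlane NumberField IsDedekindDomain
open scoped nonZeroDivisors MatrixGroups ENNReal

variable {K : Type} [Field K] [NumberField K]

section tr
variable [IsTotallyReal K]

omit [IsTotallyReal K] in
theorem gg_range : Finite (Id K ⧸ (prI (K := K)).range) := by
  have h : Finite (ClassGroup (𝓞 K)) := inferInstance
  exact Finite.of_equiv (ClassGroup (𝓞 K)) (ClassGroup.equiv K).toEquiv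

omit [IsTotallyReal K] in
theorem gg_kp : (Kp K).FiniteIndex := by
  classical
  have hfin : Finite (Kˣ ⧸ Kp K) := by
    refine Finite.of_injective (fun x : Kˣ ⧸ Kp K => fun w : Em K => decide (0 < w (x.out : K))) ?_
    intro x y hxy
    have h1 : ∀ w : Em K, (0 < w (x.out : K)) ↔ (0 < w (y.out : K)) := by
      intro w
      have := congrFun hxy w
      simpa using this
    rw [← QuotientGroup.out_eq' x, ← QuotientGroup.out_eq' y]
    refine QuotientGroup.eq.mpr ?_
    show ∀ w : Em K, 0 < w ((x.out⁻¹ * y.out : Kˣ) : K)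
    intro w
    have hx : w (x.out : K) ≠ 0 := by
      simp
    have hy : w (y.out : K) ≠ 0 := by
      simp
    rw [Units.val_mul, Units.val_inv_eq_inv_val, map_mul, map_inv₀]
    rcases lt_or_gt_of_ne hx with h | h
    · have h2 : w (y.out : K) < 0 := by
        rcases lt_or_gt_of_ne hy with h' | h'
        · exact h'
        · exact absurd ((h1 w).mpr h') (not_lt.mpr h.le)
      exact mul_pos_of_neg_of_neg (inv_lt_zero.mpr h) h2
    · exact mul_pos (inv_pos.mpr h) ((h1 w).mp h)
  exact Subgroup.finiteIndex_of_finite_quotient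

omit [IsTotallyReal K] in
theorem gg_pp : (Pp K).FiniteIndex := by
  have h1 := gg_kp (K := K)
  have h2 : (prI (K := K)).range.FiniteIndex := by
    have := gg_range (K := K)
    exact Subgroup.finiteIndex_of_finite_quotient
  refine ⟨?_⟩
  unfold Pp
  rw [Subgroup.index_map]
  refine mul_ne_zero ?_ h2.index_ne_zero
  exact (Subgroup.finiteIndex_of_le (le_sup_left : Kp K ≤ Kp K ⊔ (prI (K := K)).ker)).index_ne_zero

omit [IsTotallyReal K] in
theorem gg_sq (x : Id K) (hx : x ∈ Sq K) : ∃ (t : Kˣ) (c : Id K), t ∈ Kp K ∧ x = prI t * c ^ 2 := by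
  unfold Sq at hx
  rw [Subgroup.mem_sup] at hx
  obtain ⟨y, ⟨t, ht, rfl⟩, z, ⟨c, rfl⟩, rfl⟩ := hx
  exact ⟨t, c, ht, rfl⟩

omit [IsTotallyReal K] in
theorem gg_out (e : Id K) : ∃ (t : Kˣ) (c : Id K), t ∈ Kp K ∧
    (QuotientGroup.mk e : Gen K).out = prI t * c ^ 2 * e := by
  have h : e⁻¹ * (QuotientGroup.mk e : Gen K).out ∈ Sq K := by
    refine QuotientGroup.eq.mp ?_
    exact (QuotientGroup.out_eq' _).symm
  obtain ⟨t, c, ht, h1⟩ := gg_sq _ h
  refine ⟨t, c, ht, ?_⟩
  rw [← h1]
  rw [mul_comm (e⁻¹), mul_assoc, inv_mul_cancel, mul_one]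

theorem ncl_finite : Finite (NCl K) := by
  have := gg_pp (K := K)
  exact Subgroup.finite_quotient_of_finiteIndex

theorem gen_finite : Finite (Gen K) := by
  have := gg_pp (K := K)
  have : (Sq K).FiniteIndex := Subgroup.finiteIndex_of_le (le_sup_left : Pp K ≤ Sq K)
  exact Subgroup.finite_quotient_of_finiteIndex

theorem gg_cusp (κ : NCl K) : ∃ b a : Id K, (QuotientGroup.mk (b / a) : NCl K) = κ ∧
    ∃ g : Gen K, b * a = g.out := by
  obtain ⟨e, rfl⟩ := QuotientGroup.mk_surjective κ
  obtain ⟨t, c, ht, h⟩ := gg_out e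
  refine ⟨prI t * c * e, c, ?_, QuotientGroup.mk e, ?_⟩
  · have h1 : prI t * c * e / c = e * prI t := by
      rw [div_eq_mul_inv]
      calc prI t * c * e * c⁻¹ = (e * prI t) * (c * c⁻¹) := by
            rw [mul_comm (prI t * c) e, ← mul_assoc, mul_assoc]
        _ = e * prI t := by rw [mul_inv_cancel, mul_one]
    rw [h1]
    refine (QuotientGroup.eq.mpr ?_).symm
    rw [← mul_assoc, inv_mul_cancel, one_mul]
    exact ⟨t, ht, rfl⟩
  · rw [h, pow_two]
    calc prI t * c * e * c = prI t * (c * (e * c)) := by rw [mul_assoc, mul_assoc]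
      _ = prI t * (c * (c * e)) := by rw [mul_comm e c]
      _ = prI t * (c * c) * e := by rw [mul_assoc, mul_assoc]

theorem cusps_exists : Nonempty (Cusps K) := by
  choose b a h1 h2 using gg_cusp (K := K)
  exact ⟨⟨b, a, h1, h2⟩⟩

/-- representatives of the wide classes -/
theorem wide_reps : ∃ A : Finset (Id K), ∀ a : Id K, ∃ t : Kˣ, prI t * a ∈ A := by
  classical
  have := gg_range (K := K)
  have hf : (Set.range (fun κ : Id K ⧸ (prI (K := K)).range => κ.out)).Finite :=
    Set.finite_range _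
  refine ⟨hf.toFinset, fun a => ?_⟩
  have h : a⁻¹ * (QuotientGroup.mk a : Id K ⧸ (prI (K := K)).range).out ∈
      (prI (K := K)).range := by
    refine QuotientGroup.eq.mp ?_
    exact (QuotientGroup.out_eq' _).symm
  obtain ⟨t, ht⟩ := h
  refine ⟨t, ?_⟩
  rw [Set.Finite.mem_toFinset]
  refine ⟨QuotientGroup.mk a, ?_⟩
  show (QuotientGroup.mk a : Id K ⧸ (prI (K := K)).range).out = prI t * a
  rw [ht, mul_comm a⁻¹, mul_assoc, inv_mul_cancel, mul_one]

theorem pp_iff (a : Id K) : a ∈ Pp K ↔ ∃ t : Kˣ, t ∈ Kp K ∧ prI t = a := by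
  exact Iff.rfl

/-- multiplication by an ideal permutes the genera, up to squares and totally positive elements -/
theorem gen_shift (p r : Id K) : ∃ (t : Kˣ) (c : Id K), t ∈ Kp K ∧
    (QuotientGroup.mk (p * r) : Gen K).out = prI t * c ^ 2 * (p * r) := gg_out (p * r)

end tr

end Pool.Agent.HSG
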