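import Pool.Agent.Lib_helper84.HSG.DefsB
import Pool.Agent.Lib_helper84.HSGF.GA1
import Pool.Agent.Lib_helper84.HSGF.GA3
import Pool.Agent.Lib_helper84.HSGF.GB2
import Pool.Agent.Lib_helper84.HSGF.GC1

/-! # Block GC2 (HSB-b): Hecke sublattices -/

set_option linter.unusedSectionVars false

namespace Pool.Agent.HSG

open Complex MeasureTheory Filter Topology UpperHalfPlane NumberField IsDedekindDomain
open scoped nonZeroDivisors MatrixGroups ENNReal

variable {K : Type} [Field K] [NumberField K]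

theorem gc2_mem_p (p : Pr K) (x : K) :
    x ∈ (Id.m (HS.frP p)) ↔ ∃ r ∈ p.asIdeal, ((r : 𝓞 K) : K) = x := by
  have h := (pI_facts p).1
  change x ∈ Id.m (HS.frP p) ↔ _
  rw [h]
  constructor
  · intro hx
    have hx' : x ∈ (p.asIdeal : FractionalIdeal (𝓞 K)⁰ K) := hx
    rw [FractionalIdeal.mem_coeIdeal] at hx'
    obtain ⟨r, hr, hr'⟩ := hx'
    exact ⟨r, hr, hr'⟩
  · rintro ⟨r, hr, rfl⟩
    show ((r : 𝓞 K) : K) ∈ (p.asIdeal : FractionalIdeal (𝓞 K)⁰ K)
    rw [FractionalIdeal.mem_coeIdeal]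
    exact ⟨r, hr, rfl⟩

theorem gc2_coe_mem (p : Pr K) (r : 𝓞 K) : ((r : 𝓞 K) : K) ∈ (Id.m (HS.frP p)) ↔ r ∈ p.asIdeal := by
  rw [gc2_mem_p]
  constructor
  · rintro ⟨s, hs, h⟩
    have : s = r := by
      apply RingOfIntegers.coe_injective
      exact h
    rwa [← this]
  · intro h
    exact ⟨r, h, rfl⟩

theorem gc2_one_not (p : Pr K) : (1 : K) ∉ (Id.m (HS.frP p)) := by
  intro h
  have h1 : (((1 : 𝓞 K) : 𝓞 K) : K) ∈ (Id.m (HS.frP p)) := by
    simpa using h
  rw [gc2_coe_mem] at h1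
  exact p.isPrime.ne_top ((Ideal.eq_top_iff_one _).mpr h1)

theorem gc2_one_mem : (1 : K) ∈ (1 : Id K).m := by
  rw [mem_m_one]
  exact ⟨1, by simp⟩

theorem gc2_pb_le (p : Pr K) (b : Id K) : (Id.m (HS.frP p * b)) ≤ b.m := by
  rw [← isInt_div]
  have : HS.frP p * b / b = HS.frP p := by
    rw [mul_div_assoc, div_self', mul_one]
  rw [this]
  exact (pI_facts p).2.1

theorem gc2_p_le (p : Pr K) : (Id.m (HS.frP p)) ≤ (1 : Id K).m := by
  have := gc2_pb_le p (1 : Id K)
  rwa [mul_one] at this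

theorem gc2_exists_not (p : Pr K) (b : Id K) : ∃ x ∈ b.m, x ∉ (Id.m (HS.frP p * b)) := by
  by_contra h
  push Not at h
  have h1 : (Id.m (HS.frP p * b)) = b.m := le_antisymm (gc2_pb_le p b) h
  have h2 : HS.frP p * b = b := m_inj h1
  have h3 : HS.frP p = 1 := by
    have := congrArg (fun t => t * b⁻¹) h2
    simpa using this
  apply gc2_one_not p
  rw [h3]
  exact gc2_one_mem

/-- the elements of `p (b ⊕ 𝓞)` -/
theorem gc2_mem_pL (p : Pr K) (b : Id K) (v : Fin 2 → K) :
    v ∈ p.asIdeal • (Lat.ds b 1).M ↔ v 0 ∈ (Id.m (HS.frP p * b)) ∧ v 1 ∈ (Id.m (HS.frP p)) := by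
  constructor
  · intro hv
    induction hv using Submodule.smul_induction_on' with
    | smul r hr u hu =>
      obtain ⟨hu0, hu1⟩ := hu
      constructor
      · show (r • u) 0 ∈ _
        have : (r • u) 0 = ((r : 𝓞 K) : K) * u 0 := by
          rw [Pi.smul_apply, Algebra.smul_def]
        rw [this]
        exact mem_mul_of ((gc2_coe_mem p r).mpr hr) hu0
      · have : (r • u) 1 = ((r : 𝓞 K) : K) * u 1 := by
          rw [Pi.smul_apply, Algebra.smul_def]
        rw [this]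
        have h1 := mem_mul_of ((gc2_coe_mem p r).mpr hr) hu1
        rwa [mul_one] at h1
    | add u _ w _ h1 h2 =>
      exact ⟨Submodule.add_mem _ h1.1 h2.1, Submodule.add_mem _ h1.2 h2.2⟩
  · rintro ⟨h0, h1⟩
    have e : v = ![v 0, 0] + ![0, v 1] := by
      ext i
      fin_cases i <;> simp
    rw [e]
    apply Submodule.add_mem
    · rw [m_mul] at h0
      generalize v 0 = v0 at h0
      induction h0 using Submodule.mul_induction_on' with
      | mem_mul_mem m hm n hn =>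
        rw [gc2_mem_p] at hm
        obtain ⟨r, hr, rfl⟩ := hm
        have e2 : (![((r : 𝓞 K) : K) * n, 0] : Fin 2 → K) = r • ![n, 0] := by
          ext i
          fin_cases i
          · simp [Algebra.smul_def]
          · simp
        rw [e2]
        apply Submodule.smul_mem_smul hr
        exact ⟨by simpa using hn, by simp⟩
      | add x _ y _ hx hy =>
        have e2 : (![x + y, 0] : Fin 2 → K) = ![x, 0] + ![y, 0] := by
          ext i
          fin_cases i <;> simp
        rw [e2]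
        exact Submodule.add_mem _ hx hy
    · rw [gc2_mem_p] at h1
      obtain ⟨r, hr, h1⟩ := h1
      rw [← h1]
      have e2 : (![0, ((r : 𝓞 K) : K)] : Fin 2 → K) = r • ![0, 1] := by
        ext i
        fin_cases i
        · simp
        · simp [Algebra.smul_def]
      rw [e2]
      apply Submodule.smul_mem_smul hr
      exact ⟨by simp, by simpa using gc2_one_mem⟩

theorem gc2_mem_L (b : Id K) (v : Fin 2 → K) :
    v ∈ (Lat.ds b 1).M ↔ v 0 ∈ b.m ∧ v 1 ∈ (1 : Id K).m := Iff.rfl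

theorem gc2_sub0 (p : Pr K) (b : Id K) : (Lat.ds b 1).Sub p (Lat.ds (HS.frP p * b) 1) := by
  constructor
  · rw [SetLike.lt_iff_le_and_exists]
    refine ⟨?_, ![0, 1], ?_, ?_⟩
    · intro v hv
      rw [gc2_mem_pL] at hv
      exact ⟨hv.1, gc2_p_le p hv.2⟩
    · exact ⟨by simp, by simpa using gc2_one_mem⟩
    · rw [gc2_mem_pL]
      rintro ⟨_, h⟩
      exact gc2_one_not p (by simpa using h)
  · rw [SetLike.lt_iff_le_and_exists]
    obtain ⟨x, hx, hx'⟩ := gc2_exists_not p b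
    refine ⟨?_, ![x, 0], ?_, ?_⟩
    · intro v hv
      exact ⟨gc2_pb_le p b hv.1, hv.2⟩
    · exact ⟨by simpa using hx, by simp⟩
    · rintro ⟨h, _⟩
      exact hx' (by simpa using h)

theorem gc2_mul_beta (b : Id K) {x β : K} (hx : x ∈ b.m) (hβ : β ∈ (b⁻¹).m) :
    x * β ∈ (1 : Id K).m := by
  have := mem_mul_of hx hβ
  rwa [mul_inv_cancel] at this

theorem gc2_sub1 (p : Pr K) (b : Id K) {β : K} (hβ : β ∈ (b⁻¹).m) :
    (Lat.ds b 1).Sub p ((Lat.ds b (HS.frP p)).mul (nm β : GL (Fin 2) K)) := by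
  constructor
  · rw [SetLike.lt_iff_le_and_exists]
    obtain ⟨x, hx, hx'⟩ := gc2_exists_not p b
    refine ⟨?_, ![x, x * β], ?_, ?_⟩
    · intro v hv
      rw [gc2_mem_pL] at hv
      rw [mem_ds_nm]
      refine ⟨gc2_pb_le p b hv.1, Submodule.sub_mem _ hv.2 ?_⟩
      have := mem_mul_of hv.1 hβ
      rwa [mul_assoc, mul_inv_cancel, mul_one] at this
    · rw [mem_ds_nm]
      exact ⟨by simpa using hx, by simp⟩
    · rw [gc2_mem_pL]
      rintro ⟨h, _⟩
      exact hx' (by simpa using h)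
  · rw [SetLike.lt_iff_le_and_exists]
    refine ⟨?_, ![0, 1], ?_, ?_⟩
    · intro v hv
      rw [mem_ds_nm] at hv
      refine ⟨hv.1, ?_⟩
      have h1 := gc2_p_le p hv.2
      have h2 := gc2_mul_beta b hv.1 hβ
      have h3 := Submodule.add_mem _ h1 h2
      rwa [sub_add_cancel] at h3
    · exact ⟨by simp, by simpa using gc2_one_mem⟩
    · rw [mem_ds_nm]
      rintro ⟨_, h⟩
      exact gc2_one_not p (by simpa using h)

theorem gc2_ne (p : Pr K) (b : Id K) (β : K) :
    Lat.ds (HS.frP p * b) 1 ≠ (Lat.ds b (HS.frP p)).mul (nm β : GL (Fin 2) K) := by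
  intro h
  have h1 : (![0, 1] : Fin 2 → K) ∈ (Lat.ds (HS.frP p * b) 1).M :=
    ⟨by simp, by simpa using gc2_one_mem⟩
  rw [h, mem_ds_nm] at h1
  exact gc2_one_not p (by simpa using h1.2)

theorem gc2_inj (p : Pr K) (b : Id K) {β β' : K}
    (h : (Lat.ds b (HS.frP p)).mul (nm β : GL (Fin 2) K) =
      (Lat.ds b (HS.frP p)).mul (nm β' : GL (Fin 2) K)) : β - β' ∈ (Id.m (HS.frP p * b⁻¹)) := by
  rw [← div_eq_mul_inv, mem_div_iff]
  intro x hx
  have h1 : (![x, x * β] : Fin 2 → K) ∈ ((Lat.ds b (HS.frP p)).mul (nm β : GL (Fin 2) K)).M := by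
    rw [mem_ds_nm]
    exact ⟨by simpa using hx, by simp⟩
  rw [h, mem_ds_nm] at h1
  have h2 : x * β - x * β' ∈ (Id.m (HS.frP p)) := by simpa using h1.2
  have e : (β - β') * x = x * β - x * β' := by ring
  rw [e]
  exact h2

theorem gc2_eq (p : Pr K) (b : Id K) {β β' : K} (h : β - β' ∈ (Id.m (HS.frP p * b⁻¹))) :
    (Lat.ds b (HS.frP p)).mul (nm β : GL (Fin 2) K) =
      (Lat.ds b (HS.frP p)).mul (nm β' : GL (Fin 2) K) := by
  rw [← div_eq_mul_inv, mem_div_iff] at h
  ext v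
  rw [mem_ds_nm, mem_ds_nm]
  constructor
  · rintro ⟨h1, h2⟩
    refine ⟨h1, ?_⟩
    have h3 := Submodule.add_mem _ h2 (h _ h1)
    have e : v 1 - v 0 * β + (β - β') * v 0 = v 1 - v 0 * β' := by ring
    rwa [e] at h3
  · rintro ⟨h1, h2⟩
    refine ⟨h1, ?_⟩
    have h3 := Submodule.sub_mem _ h2 (h _ h1)
    have e : v 1 - v 0 * β' - (β - β') * v 0 = v 1 - v 0 * β := by ring
    rwa [e] at h3

/-- scalars from `(1 : Id K).m` -/
theorem gc2_smul_mem (N : Submodule (𝓞 K) (Fin 2 → K)) {t : K} (ht : t ∈ (1 : Id K).m)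
    {x y : K} (h : (![x, y] : Fin 2 → K) ∈ N) : (![t * x, t * y] : Fin 2 → K) ∈ N := by
  rw [mem_m_one] at ht
  obtain ⟨r, rfl⟩ := ht
  have e : (![((r : 𝓞 K) : K) * x, ((r : 𝓞 K) : K) * y] : Fin 2 → K) = r • ![x, y] := by
    ext i
    fin_cases i <;> simp [Algebra.smul_def]
  rw [e]
  exact N.smul_mem _ h

theorem gc2_add_mem (N : Submodule (𝓞 K) (Fin 2 → K)) {x y x' y' : K}
    (h : (![x, y] : Fin 2 → K) ∈ N) (h' : (![x', y'] : Fin 2 → K) ∈ N) :
    (![x + x', y + y'] : Fin 2 → K) ∈ N := by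
  have e : (![x + x', y + y'] : Fin 2 → K) = ![x, y] + ![x', y'] := by
    ext i
    fin_cases i <;> simp
  rw [e]
  exact N.add_mem h h'

theorem gc2_neg_mem (N : Submodule (𝓞 K) (Fin 2 → K)) {x y : K}
    (h : (![x, y] : Fin 2 → K) ∈ N) : (![-x, -y] : Fin 2 → K) ∈ N := by
  have e : (![-x, -y] : Fin 2 → K) = -![x, y] := by
    ext i
    fin_cases i <;> simp
  rw [e]
  exact N.neg_mem h

theorem gc2_eta (v : Fin 2 → K) : (![v 0, v 1] : Fin 2 → K) = v := by
  ext i
  fin_cases i <;> simp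

/-- a submodule of the fractional ideal `b` which contains `p b` and is not contained in `p b`
is `b` -/
theorem gc2_max (p : Pr K) (b : Id K) (N : Submodule (𝓞 K) K) (h1 : (Id.m (HS.frP p * b)) ≤ N)
    (h2 : N ≤ b.m) : N = (Id.m (HS.frP p * b)) ∨ N = b.m := by
  -- the ideal `b⁻¹ N`
  let J : Ideal (𝓞 K) := Submodule.comap (Algebra.linearMap (𝓞 K) K) ((b⁻¹).m * N)
  have hJ : ∀ r : 𝓞 K, r ∈ J ↔ ((r : 𝓞 K) : K) ∈ (b⁻¹).m * N := fun r => Iff.rfl
  have hle1 : (b⁻¹).m * N ≤ (1 : Id K).m := by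
    have h3 : (b⁻¹).m * N ≤ (b⁻¹).m * b.m := Submodule.mul_le.mpr fun m hm n hn => Submodule.mul_mem_mul hm (h2 hn)
    rw [← m_mul, inv_mul_cancel] at h3
    exact h3
  have hp : p.asIdeal ≤ J := by
    intro r hr
    rw [hJ]
    have h3 : (Id.m (HS.frP p)) ≤ (b⁻¹).m * N := by
      have h4 : (b⁻¹).m * (Id.m (HS.frP p * b)) ≤ (b⁻¹).m * N := Submodule.mul_le.mpr fun m hm n hn => Submodule.mul_mem_mul hm (h1 hn)
      rw [← m_mul, mul_comm (HS.frP p) b, inv_mul_cancel_left] at h4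
      exact h4
    exact h3 ((gc2_coe_mem p r).mpr hr)
  have hb : b.m * ((b⁻¹).m * N) = N := by
    rw [← mul_assoc, ← m_mul, mul_inv_cancel]
    have : (1 : Id K).m = 1 := by
      unfold Id.m
      simp
    rw [this, one_mul]
  have hcases : p.asIdeal = J ∨ J = ⊤ := by
    by_cases h : J = ⊤
    · exact Or.inr h
    · exact Or.inl (p.isMaximal.eq_of_le h hp)
  rcases hcases with h | h
  · left
    have h3 : (b⁻¹).m * N = (Id.m (HS.frP p)) := by
      apply le_antisymm
      · intro x hx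
        obtain ⟨r, rfl⟩ := (mem_m_one x).mp (hle1 hx)
        rw [gc2_coe_mem, h, hJ]
        exact hx
      · intro x hx
        rw [gc2_mem_p] at hx
        obtain ⟨r, hr, rfl⟩ := hx
        exact (hJ r).mp (hp hr)
    rw [← hb, h3, ← m_mul, mul_comm]
  · right
    have h3 : (b⁻¹).m * N = (1 : Id K).m := by
      apply le_antisymm hle1
      intro x hx
      obtain ⟨r, rfl⟩ := (mem_m_one x).mp hx
      rw [← hJ, h]
      trivial
    rw [← hb, h3, ← m_mul, mul_one]

theorem gc2_exh (p : Pr K) (b : Id K) {L' : Lat K} (h : (Lat.ds b 1).Sub p L') :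
    L' = Lat.ds (HS.frP p * b) 1 ∨
      ∃ β ∈ (b⁻¹).m, L' = (Lat.ds b (HS.frP p)).mul (nm β : GL (Fin 2) K) := by
  obtain ⟨hlt1, hlt2⟩ := h
  have hle1 := hlt1.le
  have hle2 := hlt2.le
  -- projection
  let N : Submodule (𝓞 K) K := L'.M.map
    ((LinearMap.proj (R := K) (φ := fun _ : Fin 2 => K) 0).restrictScalars (𝓞 K))
  have hN : ∀ x : K, x ∈ N ↔ ∃ y : K, (![x, y] : Fin 2 → K) ∈ L'.M := by
    intro x
    constructor
    · rintro ⟨v, hv, hvx⟩
      have hvx' : v 0 = x := hvx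
      refine ⟨v 1, ?_⟩
      rw [← hvx', gc2_eta]
      exact hv
    · rintro ⟨y, hy⟩
      exact ⟨_, hy, by simp⟩
  -- kernel
  let J : Submodule (𝓞 K) K := L'.M.comap
    ((LinearMap.single K (fun _ : Fin 2 => K) 1).restrictScalars (𝓞 K))
  have hJ : ∀ y : K, y ∈ J ↔ (![0, y] : Fin 2 → K) ∈ L'.M := by
    intro y
    have e : (LinearMap.single K (fun _ : Fin 2 => K) 1) y = ![0, y] := by
      ext i
      fin_cases i <;> simp
    show (LinearMap.single K (fun _ : Fin 2 => K) 1) y ∈ L'.M ↔ _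
    rw [e]
  have hN1 : (Id.m (HS.frP p * b)) ≤ N := by
    intro x hx
    rw [hN]
    refine ⟨0, hle1 ?_⟩
    rw [gc2_mem_pL]
    exact ⟨by simpa using hx, by simp⟩
  have hN2 : N ≤ b.m := by
    intro x hx
    rw [hN] at hx
    obtain ⟨y, hy⟩ := hx
    have := (hle2 hy).1
    simpa using this
  have hJ1 : (Id.m (HS.frP p * 1)) ≤ J := by
    intro x hx
    rw [mul_one] at hx
    rw [hJ]
    refine hle1 ?_
    rw [gc2_mem_pL]
    exact ⟨by simp, by simpa using hx⟩
  have hJ2 : J ≤ (1 : Id K).m := by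
    intro y hy
    rw [hJ] at hy
    have := (hle2 hy).2
    simpa using this
  -- elements `(x, 0)` of `L'` with `x ∈ pb`
  have hpb : ∀ x ∈ (Id.m (HS.frP p * b)), (![x, 0] : Fin 2 → K) ∈ L'.M := by
    intro x hx
    refine hle1 ?_
    rw [gc2_mem_pL]
    exact ⟨by simpa using hx, by simp⟩
  rcases gc2_max p 1 J hJ1 hJ2 with hJp | hJt
  · right
    rw [mul_one] at hJp
    -- the projection is `b`
    have hNb : N = b.m := by
      rcases gc2_max p b N hN1 hN2 with h | h
      · exfalso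
        apply hlt1.not_ge
        intro v hv
        rw [gc2_mem_pL]
        have hv0 : v 0 ∈ (Id.m (HS.frP p * b)) := by
          rw [← h, hN]
          exact ⟨v 1, by rw [gc2_eta]; exact hv⟩
        refine ⟨hv0, ?_⟩
        rw [← hJp, hJ]
        have h1 := gc2_add_mem L'.M (gc2_neg_mem L'.M (hpb _ hv0)) (x' := v 0) (y' := v 1)
          (by rw [gc2_eta]; exact hv)
        simpa using h1
      · exact h
    -- the element `β`
    have hβ : ∀ s ∈ (b⁻¹).m * b.m, ∃ β ∈ (b⁻¹).m, ∀ x ∈ b.m,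
        (![x * s, x * β] : Fin 2 → K) ∈ L'.M := by
      intro s hs
      induction hs using Submodule.mul_induction_on' with
      | mem_mul_mem t ht x1 hx1 =>
        rw [← hNb, hN] at hx1
        obtain ⟨y1, hy1⟩ := hx1
        have hy1' : y1 ∈ (1 : Id K).m := by simpa using (hle2 hy1).2
        refine ⟨t * y1, ?_, ?_⟩
        · have := mem_mul_of ht hy1'
          rwa [mul_one] at this
        · intro x hx
          have h1 := gc2_mul_beta b hx ht
          have h2 := gc2_smul_mem L'.M h1 hy1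
          rwa [mul_assoc, mul_assoc] at h2
      | add s1 _ s2 _ h1 h2 =>
        obtain ⟨β1, hβ1, h1⟩ := h1
        obtain ⟨β2, hβ2, h2⟩ := h2
        refine ⟨β1 + β2, Submodule.add_mem _ hβ1 hβ2, ?_⟩
        intro x hx
        rw [mul_add, mul_add]
        exact gc2_add_mem L'.M (h1 x hx) (h2 x hx)
    obtain ⟨β, hβb, hβL⟩ := hβ 1 (by rw [← m_mul, inv_mul_cancel]; exact gc2_one_mem)
    simp only [mul_one] at hβL
    refine ⟨β, hβb, ?_⟩
    ext v
    rw [mem_ds_nm]
    have key : v 0 ∈ b.m → (v ∈ L'.M ↔ v 1 - v 0 * β ∈ (Id.m (HS.frP p))) := by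
      intro h0
      rw [← hJp, hJ]
      constructor
      · intro hv
        have h1 := gc2_add_mem L'.M (gc2_neg_mem L'.M (hβL _ h0)) (x' := v 0) (y' := v 1)
          (by rw [gc2_eta]; exact hv)
        have e : (![-v 0 + v 0, -(v 0 * β) + v 1] : Fin 2 → K) = ![0, v 1 - v 0 * β] := by
          ext i
          fin_cases i
          · simp
          · simp
            ring
        rwa [e] at h1
      · intro hv
        have h1 := gc2_add_mem L'.M (hβL _ h0) hv
        have e : (![v 0 + 0, v 0 * β + (v 1 - v 0 * β)] : Fin 2 → K) = v := by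
          ext i
          fin_cases i <;> simp
        rwa [e] at h1
    constructor
    · intro hv
      have h0 := (hle2 hv).1
      exact ⟨h0, (key h0).mp hv⟩
    · rintro ⟨h0, h1⟩
      exact (key h0).mpr h1
  · left
    have hNp : N = (Id.m (HS.frP p * b)) := by
      rcases gc2_max p b N hN1 hN2 with h | h
      · exact h
      · exfalso
        apply hlt2.not_ge
        intro v hv
        have h0 : v 0 ∈ N := by rw [h]; exact hv.1
        rw [hN] at h0
        obtain ⟨y, hy⟩ := h0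
        have hy1 : y ∈ (1 : Id K).m := by simpa using (hle2 hy).2
        have h1 : v 1 - y ∈ J := by
          rw [hJt]
          exact Submodule.sub_mem _ hv.2 hy1
        rw [hJ] at h1
        have h2 := gc2_add_mem L'.M hy h1
        have e : (![v 0 + 0, y + (v 1 - y)] : Fin 2 → K) = v := by
          ext i
          fin_cases i <;> simp
        rwa [e] at h2
    ext v
    constructor
    · intro hv
      refine ⟨?_, (hle2 hv).2⟩
      rw [← hNp, hN]
      exact ⟨v 1, by rw [gc2_eta]; exact hv⟩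
    · rintro ⟨h0, h1⟩
      rw [← hJt, hJ] at h1
      have h2 := gc2_add_mem L'.M (hpb _ h0) h1
      have e : (![v 0 + 0, 0 + v 1] : Fin 2 → K) = v := by
        ext i
        fin_cases i <;> simp
      rwa [e] at h2

/-- the bijection with `Option S` -/
noncomputable def gc2_fun (p : Pr K) (b : Id K) {S : Finset K}
    (hS : IsRepQ b⁻¹ (HS.frP p * b⁻¹) S) : Option S → {L' : Lat K // (Lat.ds b 1).Sub p L'}
  | none => ⟨Lat.ds (HS.frP p * b) 1, gc2_sub0 p b⟩
  | some β => ⟨(Lat.ds b (HS.frP p)).mul (nm β.1 : GL (Fin 2) K), gc2_sub1 p b (hS.mem β.1 β.2)⟩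

theorem gc2_bij (p : Pr K) (b : Id K) {S : Finset K}
    (hS : IsRepQ b⁻¹ (HS.frP p * b⁻¹) S) : Function.Bijective (gc2_fun p b hS) := by
  constructor
  · intro o o' h
    have h1 : (gc2_fun p b hS o).1 = (gc2_fun p b hS o').1 := by rw [h]
    cases o with
    | none =>
      cases o' with
      | none => rfl
      | some β => exact absurd h1 (gc2_ne p b β.1)
    | some β =>
      cases o' with
      | none => exact absurd h1.symm (gc2_ne p b β.1)
      | some β' =>
        have h2 := hS.inj β.1 β.2 β'.1 β'.2 (gc2_inj p b h1)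
        rw [Subtype.ext h2]
  · rintro ⟨L', hL'⟩
    rcases gc2_exh p b hL' with h | ⟨β, hβ, h⟩
    · exact ⟨none, Subtype.ext h.symm⟩
    · obtain ⟨β', hβ', h'⟩ := hS.sur β hβ
      exact ⟨some ⟨β', hβ'⟩, Subtype.ext ((gc2_eq p b h').symm.trans h.symm)⟩

theorem sub_ds (p : Pr K) (b : Id K) {S : Finset K} (hS : IsRepQ b⁻¹ (HS.frP p * b⁻¹) S)
    (f : Lat K → ℂ) :
    ∑ᶠ L' : {L' : Lat K // (Lat.ds b 1).Sub p L'}, f L'.1 =
      f (Lat.ds (HS.frP p * b) 1) + ∑ β ∈ S, f ((Lat.ds b (HS.frP p)).mul (nm β : GL (Fin 2) K)) := by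
  rw [← finsum_comp_equiv (Equiv.ofBijective _ (gc2_bij p b hS)), finsum_eq_sum_of_fintype,
    Fintype.sum_option]
  congr 1
  exact Finset.sum_coe_sort S fun β => f ((Lat.ds b (HS.frP p)).mul (nm β : GL (Fin 2) K))

/-- transport by `SL₂` -/
noncomputable def gc2_act (p : Pr K) (g : SL(2, K)) (L : Lat K) :
    {L' : Lat K // L.Sub p L'} ≃ {L' : Lat K // (g • L).Sub p L'} where
  toFun L' := ⟨g • L'.1, (sub_act g).mpr L'.2⟩
  invFun L' := ⟨g⁻¹ • L'.1, (sub_act g).mp (by rw [smul_inv_smul]; exact L'.2)⟩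
  left_inv L' := Subtype.ext (inv_smul_smul g L'.1)
  right_inv L' := Subtype.ext (smul_inv_smul g L'.1)

/-- transport by multiplication with an ideal -/
noncomputable def gc2_sm (p : Pr K) (a : Id K) (L : Lat K) :
    {L' : Lat K // L.Sub p L'} ≃ {L' : Lat K // (L.sm a).Sub p L'} where
  toFun L' := ⟨L'.1.sm a, (sub_sm a).mpr L'.2⟩
  invFun L' := ⟨L'.1.sm a⁻¹, (sub_sm a).mp (by
    rw [sm_sm, inv_mul_cancel, sm_one]; exact L'.2)⟩
  left_inv L' := Subtype.ext (by
    show (L'.1.sm a).sm a⁻¹ = L'.1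
    rw [sm_sm, mul_inv_cancel, sm_one])
  right_inv L' := Subtype.ext (by
    show (L'.1.sm a⁻¹).sm a = L'.1
    rw [sm_sm, inv_mul_cancel, sm_one])

theorem gc2_card_ds (p : Pr K) (b : Id K) :
    Nat.card {L' : Lat K // (Lat.ds b 1).Sub p L'} = qP p + 1 := by
  obtain ⟨S, hS⟩ := repq_exists (gc2_pb_le p b⁻¹)
  have h1 := Nat.card_congr (Equiv.ofBijective _ (gc2_bij p b hS))
  have h2 := repq_card (gc2_pb_le p b⁻¹) hS
  rw [nI_mul, mul_div_cancel_right₀ _ (nI_pos _).ne', (pI_facts p).2.2.1] at h2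
  have h3 : S.card = qP p := by exact_mod_cast h2
  rw [← h1, Nat.card_eq_fintype_card, Fintype.card_option, Fintype.card_coe, h3]

theorem sub_card (p : Pr K) (L : Lat K) : Nat.card {L' : Lat K // L.Sub p L'} = qP p + 1 := by
  have hv : (![0, 1] : Fin 2 → K) ≠ 0 := by
    intro h
    have := congrFun h 1
    simp at this
  obtain ⟨g, _, hg⟩ := split L hv
  rw [Nat.card_congr (gc2_act p g L), hg]
  set a := L.av ![0, 1]
  set b := L.det / a
  rw [Nat.card_congr (gc2_sm p a⁻¹ (Lat.ds b a)), ds_sm, inv_mul_cancel]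
  exact gc2_card_ds p _


end Pool.Agent.HSG
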