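import Pool.Agent.Lib_helper84.HSG.DefsB
import Pool.Agent.Lib_helper84.HSGF.GA3
import Pool.Agent.Lib_helper84.HSGF.GB1
import Pool.Agent.Lib_helper84.HSGF.GD1

/-! # HSG, block GI1: heights -/

namespace Pool.Agent.HSG

open Complex MeasureTheory Filter Topology UpperHalfPlane NumberField IsDedekindDomain
open scoped nonZeroDivisors MatrixGroups ENNReal

variable {K : Type} [Field K] [NumberField K]

theorem lz_ne {v : Fin 2 → K} (hv : v ≠ 0) (z : Em K → ℍ) (w : Em K) : lz v z w ≠ 0 := by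
  have h1 : (![w (v 0), w (v 1)] : Fin 2 → ℝ) ≠ 0 := by
    intro h
    apply hv
    have h0 : w (v 0) = 0 := by simpa using congrFun h 0
    have h2 : w (v 1) = 0 := by simpa using congrFun h 1
    ext i
    fin_cases i
    · exact (map_eq_zero w).mp h0
    · exact (map_eq_zero w).mp h2
  have h2 := UpperHalfPlane.linear_ne_zero (cd := ![w (v 0), w (v 1)]) (z w) h1
  simpa [lz] using h2

omit [NumberField K] in
theorem gi_map_det (g : GL (Fin 2) K) (w : Em K) :
    ((Matrix.GeneralLinearGroup.map (n := Fin 2) w g).det : ℝˣ).val =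
      w (g : Matrix (Fin 2) (Fin 2) K).det := by
  rw [Matrix.GeneralLinearGroup.val_det_apply]
  have h1 : ((Matrix.GeneralLinearGroup.map (n := Fin 2) w g : GL (Fin 2) ℝ) :
      Matrix (Fin 2) (Fin 2) ℝ) = w.mapMatrix (g : Matrix (Fin 2) (Fin 2) K) := by
    ext i j
    simp
  rw [h1, RingHom.map_det]

omit [NumberField K] in
theorem gi_denom (g : GL (Fin 2) K) (z : Em K → ℍ) (w : Em K) :
    denom (Matrix.GeneralLinearGroup.map (n := Fin 2) w g) (z w) = lz (g 1) z w := by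
  simp [denom, lz]

omit [NumberField K] in
theorem gi_num (g : GL (Fin 2) K) (z : Em K → ℍ) (w : Em K) :
    num (Matrix.GeneralLinearGroup.map (n := Fin 2) w g) (z w) = lz (g 0) z w := by
  simp [num, lz]

omit [NumberField K] in
theorem gi_row_ne (g : GL (Fin 2) K) (i : Fin 2) : (g i : Fin 2 → K) ≠ 0 := by
  intro h
  have h1 : (g : Matrix (Fin 2) (Fin 2) K).det = 0 := by
    apply Matrix.det_eq_zero_of_row_eq_zero i
    intro j
    exact congrFun h j
  have h2 : (g : Matrix (Fin 2) (Fin 2) K).det ≠ 0 := by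
    rw [← Matrix.GeneralLinearGroup.val_det_apply]
    exact Units.ne_zero _
  exact h2 h1

theorem lz_act (g : GL (Fin 2) K) (hg : ∀ w : Em K, 0 < w (g : Matrix (Fin 2) (Fin 2) K).det)
    (v : Fin 2 → K) (z : Em K → ℍ) (w : Em K) :
    lz (Matrix.vecMul v ((g⁻¹ : GL (Fin 2) K) : Matrix (Fin 2) (Fin 2) K)) (g • z) w *
      lz (g 1) z w = lz v z w := by
  set u := Matrix.vecMul v ((g⁻¹ : GL (Fin 2) K) : Matrix (Fin 2) (Fin 2) K) with hu
  have huv : Matrix.vecMul u (g : Matrix (Fin 2) (Fin 2) K) = v := by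
    rw [hu, Matrix.vecMul_vecMul, ← Units.val_mul, inv_mul_cancel]
    simp
  have h0 : v 0 = u 0 * g 0 0 + u 1 * g 1 0 := by
    rw [← huv]
    simp [Matrix.vecMul, dotProduct, Fin.sum_univ_two]
  have h1 : v 1 = u 0 * g 0 1 + u 1 * g 1 1 := by
    rw [← huv]
    simp [Matrix.vecMul, dotProduct, Fin.sum_univ_two]
  have hne := lz_ne (gi_row_ne g 1) z w
  have hz : (((g • z) w : ℍ) : ℂ) = lz (g 0) z w / lz (g 1) z w := by
    have h3 := UpperHalfPlane.coe_smul_of_det_pos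
      (g := Matrix.GeneralLinearGroup.map (n := Fin 2) w g) (by
        rw [gi_map_det]
        exact hg w) (z w)
    rw [gi_denom, gi_num] at h3
    exact h3
  have h4 : lz u (g • z) w = ((w (u 0) : ℝ) : ℂ) * (lz (g 0) z w / lz (g 1) z w) +
      ((w (u 1) : ℝ) : ℂ) := by
    rw [← hz]
    rfl
  rw [h4, add_mul, mul_assoc, div_mul_cancel₀ _ hne]
  simp only [lz]
  rw [h0, h1]
  simp only [map_add, map_mul]
  push_cast
  ring

theorem im_act (g : GL (Fin 2) K) (hg : ∀ w : Em K, 0 < w (g : Matrix (Fin 2) (Fin 2) K).det)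
    (z : Em K → ℍ) (w : Em K) :
    ((g • z) w).im = w (g : Matrix (Fin 2) (Fin 2) K).det * (z w).im / ‖lz (g 1) z w‖ ^ 2 := by
  have h1 := UpperHalfPlane.im_smul_eq_div_normSq
    (Matrix.GeneralLinearGroup.map (n := Fin 2) w g) (z w)
  rw [gi_map_det, gi_denom, abs_of_pos (hg w), Complex.normSq_eq_norm_sq] at h1
  exact h1

theorem gi_NY_pos (z : Em K → ℍ) : 0 < NY z := Finset.prod_pos fun w _ => (z w).im_pos

theorem gi_NY_act (g : GL (Fin 2) K) (hg : ∀ w : Em K, 0 < w (g : Matrix (Fin 2) (Fin 2) K).det)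
    (z : Em K → ℍ) :
    NY (g • z) = (∏ w : Em K, w (g : Matrix (Fin 2) (Fin 2) K).det) * NY z /
      (∏ w, ‖lz (g 1) z w‖) ^ 2 := by
  simp only [NY]
  rw [← Finset.prod_mul_distrib, ← Finset.prod_pow, ← Finset.prod_div_distrib]
  exact Finset.prod_congr rfl fun w _ => im_act g hg z w

section tr2
variable [IsTotallyReal K]

theorem gi_det (g : GL (Fin 2) K) (hg : ∀ w : Em K, 0 < w (g : Matrix (Fin 2) (Fin 2) K).det) :
    nI (prI (Matrix.GeneralLinearGroup.det g)) =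
      ∏ w : Em K, w (g : Matrix (Fin 2) (Fin 2) K).det := by
  rw [nI_prI]
  refine Finset.prod_congr rfl fun w _ => ?_
  rw [Matrix.GeneralLinearGroup.val_det_apply, abs_of_pos (hg w)]

theorem ht_act (g : GL (Fin 2) K) (hg : ∀ w : Em K, 0 < w (g : Matrix (Fin 2) (Fin 2) K).det)
    {v : Fin 2 → K} (hv : v ≠ 0) (z : Em K → ℍ) (L : Lat K) :
    ht (Matrix.vecMul v ((g⁻¹ : GL (Fin 2) K) : Matrix (Fin 2) (Fin 2) K)) (g • z) (g • L) =
      ht v z L := by
  have hD : 0 < ∏ w : Em K, w (g : Matrix (Fin 2) (Fin 2) K).det :=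
    Finset.prod_pos fun w _ => hg w
  have h1 : nI (g • L).det = (∏ w : Em K, w (g : Matrix (Fin 2) (Fin 2) K).det)⁻¹ * nI L.det := by
    have h2 : (g • L) = L.mul g⁻¹ := rfl
    rw [h2, det_mul, nI_mul, map_inv, map_inv, nI_inv, gi_det g hg]
  have hP : (∏ w, ‖lz (g 1) z w‖) ≠ 0 :=
    Finset.prod_ne_zero_iff.mpr fun w _ => norm_ne_zero_iff.mpr (lz_ne (gi_row_ne g 1) z w)
  have h3 : (∏ w, ‖lz (Matrix.vecMul v ((g⁻¹ : GL (Fin 2) K) : Matrix (Fin 2) (Fin 2) K))
      (g • z) w‖) * (∏ w, ‖lz (g 1) z w‖) = ∏ w, ‖lz v z w‖ := by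
    rw [← Finset.prod_mul_distrib]
    refine Finset.prod_congr rfl fun w _ => ?_
    rw [← norm_mul, lz_act g hg]
  have hA : (∏ w, ‖lz v z w‖) ≠ 0 :=
    Finset.prod_ne_zero_iff.mpr fun w _ => norm_ne_zero_iff.mpr (lz_ne hv z w)
  unfold ht
  rw [gi_NY_act g hg, h1, av_act g L hv, ← h3]
  rw [← h3] at hA
  have hB := left_ne_zero_of_mul hA
  have hn := (nI_pos (L.av v)).ne'
  field_simp

theorem ht_sm (a : Id K) {v : Fin 2 → K} (hv : v ≠ 0) (z : Em K → ℍ) (L : Lat K) :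
    ht v z (L.sm a) = ht v z L := by
  unfold ht
  rw [det_sm, av_sm a L hv, nI_mul, nI_mul, pow_two a, nI_mul]
  have hn := (nI_pos (L.av v)).ne'
  have ha := (nI_pos a).ne'
  have hA : (∏ w, ‖lz v z w‖) ≠ 0 :=
    Finset.prod_ne_zero_iff.mpr fun w _ => norm_ne_zero_iff.mpr (lz_ne hv z w)
  field_simp

theorem ht_scal (t : Kˣ) {v : Fin 2 → K} (hv : v ≠ 0) (z : Em K → ℍ) (L : Lat K) :
    ht ((t : K) • v) z L = ht v z L := by
  unfold ht
  have h1 : (∏ w, ‖lz ((t : K) • v) z w‖) = nI (prI t) * ∏ w, ‖lz v z w‖ := by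
    rw [nI_prI, ← Finset.prod_mul_distrib]
    refine Finset.prod_congr rfl fun w _ => ?_
    have h2 : lz ((t : K) • v) z w = ((w (t : K) : ℝ) : ℂ) * lz v z w := by
      simp only [lz, Pi.smul_apply, smul_eq_mul, map_mul]
      push_cast
      ring
    rw [h2, norm_mul, Complex.norm_real, Real.norm_eq_abs]
  rw [h1, av_scal L t hv, nI_mul, nI_inv]
  have hn := (nI_pos (L.av v)).ne'
  have ha := (nI_pos (prI t)).ne'
  have hA : (∏ w, ‖lz v z w‖) ≠ 0 :=
    Finset.prod_ne_zero_iff.mpr fun w _ => norm_ne_zero_iff.mpr (lz_ne hv z w)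
  field_simp

theorem ht_ds (z : Em K → ℍ) (b a : Id K) :
    ht ![0, 1] z (Lat.ds b a) = NY z * nI (b / a) := by
  unfold ht
  have h1 : (∏ w, ‖lz (![0, 1] : Fin 2 → K) z w‖) = 1 := by
    refine Finset.prod_eq_one fun w _ => ?_
    simp [lz]
  rw [h1, det_ds, av_ds, nI_mul, nI_div]
  have ha := (nI_pos a).ne'
  field_simp

/-- two different lines -/
theorem ht_two {u v : Fin 2 → K} (h : dt u v ≠ 0) (z : Em K → ℍ) (L : Lat K) :
    ht u z L * ht v z L ≤ 1 := by
  have hu : u ≠ 0 := by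
    rintro rfl
    exact h (by simp [dt])
  have hv : v ≠ 0 := by
    rintro rfl
    exact h (by simp [dt])
  have h1 := det_le L u v (Units.mk0 (dt u v) h) rfl
  have hA : 0 < (∏ w, ‖lz u z w‖) :=
    Finset.prod_pos fun w _ => norm_pos_iff.mpr (lz_ne hu z w)
  have hB : 0 < (∏ w, ‖lz v z w‖) :=
    Finset.prod_pos fun w _ => norm_pos_iff.mpr (lz_ne hv z w)
  have hau := nI_pos (L.av u)
  have hav := nI_pos (L.av v)
  have hd := nI_pos L.det
  have hy := gi_NY_pos z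
  have h2 : NY z * nI (prI (Units.mk0 (dt u v) h)) ≤ (∏ w, ‖lz u z w‖) * ∏ w, ‖lz v z w‖ := by
    rw [nI_prI, NY, ← Finset.prod_mul_distrib, ← Finset.prod_mul_distrib]
    refine Finset.prod_le_prod (fun w _ => mul_nonneg (z w).im_pos.le (abs_nonneg _))
      fun w _ => ?_
    have h3 : (lz u z w * starRingEnd ℂ (lz v z w)).im = (z w).im * w (dt u v) := by
      simp only [lz, dt, map_sub, map_mul, map_add, Complex.conj_ofReal, Complex.mul_im,
        Complex.add_re, Complex.add_im, Complex.mul_re, Complex.ofReal_re, Complex.ofReal_im,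
        Complex.conj_re, Complex.conj_im, UpperHalfPlane.coe_im, UpperHalfPlane.coe_re]
      ring
    have h4 : (z w).im * |w (dt u v)| = |(lz u z w * starRingEnd ℂ (lz v z w)).im| := by
      rw [h3, abs_mul, abs_of_pos (z w).im_pos]
    calc (z w).im * |w ((Units.mk0 (dt u v) h : Kˣ) : K)| =
        |(lz u z w * starRingEnd ℂ (lz v z w)).im| := h4
      _ ≤ ‖lz u z w * starRingEnd ℂ (lz v z w)‖ := Complex.abs_im_le_norm _
      _ = ‖lz u z w‖ * ‖lz v z w‖ := by rw [norm_mul, Complex.norm_conj]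
  have h5 : NY z * nI L.det ≤ ((∏ w, ‖lz u z w‖) * ∏ w, ‖lz v z w‖) *
      (nI (L.av u) * nI (L.av v)) := by
    calc NY z * nI L.det ≤ NY z * (nI (prI (Units.mk0 (dt u v) h)) * nI (L.av u) *
          nI (L.av v)) := mul_le_mul_of_nonneg_left h1 hy.le
      _ = (NY z * nI (prI (Units.mk0 (dt u v) h))) * (nI (L.av u) * nI (L.av v)) := by ring
      _ ≤ _ := mul_le_mul_of_nonneg_right h2 (by positivity)
  unfold ht
  rw [div_mul_div_comm, div_le_one (by positivity)]
  calc NY z * nI L.det * (NY z * nI L.det) = (NY z * nI L.det) ^ 2 := by ring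
    _ ≤ (((∏ w, ‖lz u z w‖) * ∏ w, ‖lz v z w‖) * (nI (L.av u) * nI (L.av v))) ^ 2 :=
        pow_le_pow_left₀ (by positivity) h5 2
    _ = _ := by ring

end tr2

end Pool.Agent.HSG

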