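import Pool.Agent.Lib_helper84.HSG.DefsB
import Pool.Agent.Lib_helper84.HSGF.GA1
import Pool.Agent.Lib_helper84.HSGF.GA3

/-! # HSG, block GA2 (EXD): exact denominators -/

namespace Pool.Agent.HSG

open Complex MeasureTheory Filter Topology UpperHalfPlane NumberField IsDedekindDomain
open scoped nonZeroDivisors MatrixGroups ENNReal

variable {K : Type} [Field K] [NumberField K]

theorem ga2_mem_div' (a b : Id K) (x : K) : x ∈ (a / b).m ↔ ∀ y ∈ b.m, y * x ∈ a.m := by
  rw [mem_div_iff]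
  simp only [mul_comm x]

/-- the submodule `{t ∈ 𝓞 : tβ ∈ x}` -/
noncomputable def ga2_M (x : Id K) (β : K) : Submodule (𝓞 K) K :=
  (1 : Id K).m ⊓ x.m.comap ((LinearMap.toSpanSingleton K K β).restrictScalars (𝓞 K))

theorem ga2_mem_M (x : Id K) (β t : K) : t ∈ ga2_M x β ↔ t ∈ (1 : Id K).m ∧ t * β ∈ x.m := by
  unfold ga2_M
  rw [Submodule.mem_inf, Submodule.mem_comap]
  rfl

theorem ga2_one_mem : (1 : K) ∈ (1 : Id K).m := (mem_m_one 1).2 ⟨1, by simp⟩

theorem ga2_fg_of_le {M : Submodule (𝓞 K) K} {a : Id K} (h : M ≤ a.m) : M.FG := by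
  have h1 : a.m.FG := FractionalIdeal.fg_unit a
  have : IsNoetherian (𝓞 K) a.m := isNoetherian_of_fg_of_noetherian _ h1
  have h2 := (isNoetherian_submodule.1 this) M h
  exact h2

theorem ga2_M_ne (x : Id K) (β : K) : ga2_M x β ≠ ⊥ := by
  obtain ⟨z, hz0, hz⟩ := x.exists_ne
  obtain ⟨a, b, hb, hab⟩ := IsFractionRing.div_surjective (A := 𝓞 K) (β / z)
  have hb0 : (b : K) ≠ 0 := by
    intro h0
    have : b = 0 := by exact_mod_cast h0
    rw [this] at hb
    exact zero_notMem_nonZeroDivisors hb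
  have h1 : (b : K) * β = a * z := by
    have h2 : (a : K) / (b : K) = β / z := hab
    field_simp at h2
    linear_combination -h2
  intro h
  have h2 : (b : K) ∈ ga2_M x β := by
    rw [ga2_mem_M]
    refine ⟨(mem_m_one _).2 ⟨b, rfl⟩, ?_⟩
    rw [h1]
    exact x.m.smul_mem a hz
  rw [h, Submodule.mem_bot] at h2
  exact hb0 h2

theorem exd_self (x : Id K) (β : K) : ∃! c : Id K, ExD x c β := by
  have h1 : (toId (ga2_M x β)).m = ga2_M x β :=
    toId_m (ga2_M_ne x β) (ga2_fg_of_le (a := 1) inf_le_left)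
  refine ⟨toId (ga2_M x β), ?_, ?_⟩
  · intro t
    rw [h1, ga2_mem_M]
  · intro c hc
    apply m_inj
    rw [h1]
    ext t
    rw [ga2_mem_M]
    exact (hc t).symm

theorem exd_int {x c : Id K} {β : K} (h : ExD x c β) : IsInt c := by
  rw [isInt_iff]
  intro t ht
  exact ((h t).2 ht).1

theorem exd_mem {x c : Id K} {β : K} (h : ExD x c β) {b : Id K} (hb : IsInt b) :
    β ∈ (x / b).m ↔ IsInt (b / c) := by
  rw [ga2_mem_div', isInt_div]
  rw [isInt_iff] at hb
  constructor
  · intro h1 t ht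
    exact (h t).1 ⟨hb ht, h1 t ht⟩
  · intro h1 t ht
    exact ((h t).2 (h1 ht)).2

/-- the submodule `b β + a` -/
noncomputable def ga2_N (a b : Id K) (β : K) : Submodule (𝓞 K) K :=
  b.m.map ((LinearMap.toSpanSingleton K K β).restrictScalars (𝓞 K)) ⊔ a.m

theorem ga2_mem_N (a b : Id K) (β t : K) :
    t ∈ ga2_N a b β ↔ ∃ s ∈ b.m, ∃ r ∈ a.m, t = s * β + r := by
  unfold ga2_N
  rw [Submodule.mem_sup]
  constructor
  · rintro ⟨y, hy, r, hr, rfl⟩
    obtain ⟨s, hs, rfl⟩ := hy
    exact ⟨s, hs, r, hr, rfl⟩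
  · rintro ⟨s, hs, r, hr, rfl⟩
    exact ⟨s * β, ⟨s, hs, rfl⟩, r, hr, rfl⟩

theorem exd_parts {a b c : Id K} {β : K} (h : ExD (a / b) c β) :
    (∀ t : K, (t ∈ b.m ∧ t * β ∈ a.m) ↔ t ∈ (b * c).m) ∧
      ∀ t : K, (∃ s ∈ b.m, ∃ r ∈ a.m, t = s * β + r) ↔ t ∈ (a / c).m := by
  have hdiv : ∀ (u v : Id K) (t : K), t ∈ (u / v).m ↔ ∀ y ∈ v.m, t * y ∈ u.m := mem_div_iff
  constructor
  · intro t
    have e1 : b * c = c / b⁻¹ := by rw [div_inv_eq_mul, mul_comm]
    have e2 : b = 1 / b⁻¹ := by rw [one_div, inv_inv]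
    have e3 : a = (a / b) / b⁻¹ := by rw [div_inv_eq_mul, div_mul_cancel]
    rw [e1, hdiv]
    constructor
    · rintro ⟨h1, h2⟩ y hy
      rw [e2, hdiv] at h1
      rw [e3, hdiv] at h2
      refine (h _).1 ⟨h1 y hy, ?_⟩
      have := h2 y hy
      rwa [mul_right_comm] at this
    · intro h1
      constructor
      · rw [e2, hdiv]
        intro y hy
        exact ((h _).2 (h1 y hy)).1
      · rw [e3, hdiv]
        intro y hy
        rw [mul_right_comm]
        exact ((h _).2 (h1 y hy)).2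
  · have hN0 : ga2_N a b β ≠ ⊥ := by
      intro h0
      obtain ⟨z, hz0, hz⟩ := a.exists_ne
      have h1 : z ∈ ga2_N a b β := (ga2_mem_N a b β z).2 ⟨0, b.m.zero_mem, z, hz, by ring⟩
      rw [h0, Submodule.mem_bot] at h1
      exact hz0 h1
    have hNfg : (ga2_N a b β).FG :=
      ((FractionalIdeal.fg_unit b).map _).sup (FractionalIdeal.fg_unit a)
    have hN := toId_m hN0 hNfg
    have hkey : 1 / toId (ga2_N a b β) = c / a := by
      apply m_inj
      ext t
      rw [hdiv, hdiv, hN]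
      have h3 : (∀ y ∈ ga2_N a b β, t * y ∈ (1 : Id K).m) ↔
          (∀ s ∈ b.m, t * β * s ∈ (1 : Id K).m) ∧ ∀ r ∈ a.m, t * r ∈ (1 : Id K).m := by
        constructor
        · intro h4
          constructor
          · intro s hs
            have := h4 (s * β) ((ga2_mem_N a b β _).2 ⟨s, hs, 0, a.m.zero_mem, by ring⟩)
            rwa [show t * (s * β) = t * β * s by ring] at this
          · intro r hr
            exact h4 r ((ga2_mem_N a b β _).2 ⟨0, b.m.zero_mem, r, hr, by ring⟩)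
        · rintro ⟨h4, h5⟩ y hy
          obtain ⟨s, hs, r, hr, rfl⟩ := (ga2_mem_N a b β y).1 hy
          rw [show t * (s * β + r) = t * β * s + t * r by ring]
          exact Submodule.add_mem _ (h4 s hs) (h5 r hr)
      have h4 : (∀ s ∈ b.m, t * β * s ∈ (1 : Id K).m) ↔ ∀ r ∈ a.m, t * β * r ∈ (a / b).m := by
        rw [← hdiv, ← hdiv, one_div, div_div_cancel_left]
      rw [h3, h4]
      constructor
      · rintro ⟨h5, h6⟩ r hr
        refine (h _).1 ⟨h6 r hr, ?_⟩
        rw [mul_right_comm]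
        exact h5 r hr
      · intro h5
        constructor
        · intro r hr
          rw [mul_right_comm]
          exact ((h _).2 (h5 r hr)).2
        · intro r hr
          exact ((h _).2 (h5 r hr)).1
    have hkey2 : toId (ga2_N a b β) = a / c := by
      rw [one_div, inv_eq_iff_eq_inv, inv_div] at hkey
      exact hkey
    intro t
    rw [← ga2_mem_N, ← hkey2, hN]

theorem ga2_exd_congr {x c : Id K} {β β' : K} (h : β - β' ∈ x.m) (hE : ExD x c β) :
    ExD x c β' := by
  intro t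
  rw [← hE t]
  have h1 : t ∈ (1 : Id K).m → (t * β' ∈ x.m ↔ t * β ∈ x.m) := by
    intro ht
    obtain ⟨y, rfl⟩ := (mem_m_one t).1 ht
    have h2 : (y : K) * (β - β') ∈ x.m := x.m.smul_mem y h
    constructor
    · intro h3
      have := x.m.add_mem h2 h3
      rwa [show (y : K) * (β - β') + y * β' = y * β by ring] at this
    · intro h3
      have := x.m.sub_mem h3 h2
      rwa [show (y : K) * β - y * (β - β') = y * β' by ring] at this
  constructor
  · rintro ⟨ht, h2⟩
    exact ⟨ht, (h1 ht).1 h2⟩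
  · rintro ⟨ht, h2⟩
    exact ⟨ht, (h1 ht).2 h2⟩

theorem ga2_le_div {x g : Id K} (hg : IsInt g) : x.m ≤ (x / g).m := by
  rw [← isInt_div, div_div_cancel]
  exact hg

open scoped Classical in
theorem ga2_rep_filter {x g c : Id K} (hg : IsInt g) {S : Finset K} (hS : IsRepQ (x / g) x S)
    (hc : IsInt (g / c)) : IsRep x c (S.filter fun β => ExD x c β) where
  ex := by
    intro β hβ
    exact (Finset.mem_filter.1 hβ).2
  sur := by
    intro β hβ
    have h1 : β ∈ (x / g).m := (exd_mem hβ hg).2 hc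
    obtain ⟨β', hβ', h2⟩ := hS.sur β h1
    exact ⟨β', Finset.mem_filter.2 ⟨hβ', ga2_exd_congr h2 hβ⟩, h2⟩
  inj := by
    intro β hβ β' hβ' h
    exact hS.inj β (Finset.mem_filter.1 hβ).1 β' (Finset.mem_filter.1 hβ').1 h

theorem rep_exists (x : Id K) {c : Id K} (hc : IsInt c) : ∃ S : Finset K, IsRep x c S := by
  classical
  obtain ⟨S, hS⟩ := repq_exists (ga2_le_div (x := x) hc)
  exact ⟨_, ga2_rep_filter hc hS (by rw [div_self']; exact isInt_one)⟩

theorem ga2_card_le {x c : Id K} {S S' : Finset K} (hS : IsRep x c S) (hS' : IsRep x c S') :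
    S.card ≤ S'.card := by
  have h : ∀ β, ∃ β', β ∈ S → β' ∈ S' ∧ β - β' ∈ x.m := by
    intro β
    by_cases hβ : β ∈ S
    · obtain ⟨β', h1, h2⟩ := hS'.sur β (hS.ex β hβ)
      exact ⟨β', fun _ => ⟨h1, h2⟩⟩
    · exact ⟨0, fun h => absurd h hβ⟩
  choose f hf using h
  refine Finset.card_le_card_of_injOn f (fun β hβ => (hf β hβ).1) ?_
  intro β hβ γ hγ h
  apply hS.inj β hβ γ hγ
  have h1 := (hf β hβ).2
  have h2 := (hf γ hγ).2
  rw [h] at h1
  have := x.m.sub_mem h1 h2
  rwa [show β - f γ - (γ - f γ) = β - γ by ring] at this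

theorem ga2_card_eq {x c : Id K} {S S' : Finset K} (hS : IsRep x c S) (hS' : IsRep x c S') :
    S.card = S'.card := le_antisymm (ga2_card_le hS hS') (ga2_card_le hS' hS)

/-- the divisors of `g` -/
noncomputable def ga2_D (g : Id K) : Finset (Id K) :=
  (Set.Finite.subset (t := {c : Id K | IsInt c ∧ IsInt (g / c) ∧ nI c ≤ nI g})
    (id_finite (K := K) (nI g)) fun _ h => ⟨h.1, h.2.2⟩).toFinset

theorem ga2_nI_ge_one {a : Id K} (h : IsInt a) : 1 ≤ nI a := by
  obtain ⟨n, hn, h1, _⟩ := nI_int h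
  rw [h1]
  exact_mod_cast hn

theorem ga2_nI_le {g c : Id K} (hc : IsInt (g / c)) : nI c ≤ nI g := by
  have h1 := ga2_nI_ge_one hc
  rw [nI_div, le_div_iff₀ (nI_pos c), one_mul] at h1
  exact h1

theorem ga2_mem_D {g c : Id K} : c ∈ ga2_D g ↔ IsInt c ∧ IsInt (g / c) := by
  unfold ga2_D
  rw [Set.Finite.mem_toFinset]
  exact ⟨fun h => ⟨h.1, h.2.1⟩, fun h => ⟨h.1, h.2, ga2_nI_le h.2⟩⟩

open scoped Classical in
theorem ga2_sum {x g : Id K} (hg : IsInt g) {S : Finset K} (hS : IsRepQ (x / g) x S) :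
    ∑ c ∈ ga2_D g, (S.filter fun β => ExD x c β).card = S.card := by
  rw [← Finset.card_biUnion]
  · congr 1
    ext β
    rw [Finset.mem_biUnion]
    constructor
    · rintro ⟨c, _, h⟩
      exact (Finset.mem_filter.1 h).1
    · intro hβ
      obtain ⟨c, hc, _⟩ := exd_self x β
      refine ⟨c, ga2_mem_D.2 ⟨exd_int hc, (exd_mem hc hg).1 (hS.mem β hβ)⟩,
        Finset.mem_filter.2 ⟨hβ, hc⟩⟩
  · intro c _ c' _ hcc
    rw [Function.onFun, Finset.disjoint_left]
    intro β h1 h2
    exact hcc ((exd_self x β).unique (Finset.mem_filter.1 h1).2 (Finset.mem_filter.1 h2).2)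

theorem ga2_main (x y : Id K) (n : ℕ) : ∀ g : Id K, IsInt g → nI g = n → ∀ S S' : Finset K,
    IsRep x g S → IsRep y g S' → S.card = S'.card := by
  classical
  induction n using Nat.strong_induction_on with
  | _ n ih =>
  intro g hg hn S S' hS hS'
  obtain ⟨T, hT⟩ := repq_exists (ga2_le_div (x := x) hg)
  obtain ⟨T', hT'⟩ := repq_exists (ga2_le_div (x := y) hg)
  have c1 : (T.card : ℝ) = nI g := by
    rw [repq_card (ga2_le_div hg) hT, nI_div, div_div_cancel₀ (nI_pos x).ne']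
  have c2 : (T'.card : ℝ) = nI g := by
    rw [repq_card (ga2_le_div hg) hT', nI_div, div_div_cancel₀ (nI_pos y).ne']
  have c3 : T.card = T'.card := by exact_mod_cast c1.trans c2.symm
  have hgD : g ∈ ga2_D g := ga2_mem_D.2 ⟨hg, by rw [div_self']; exact isInt_one⟩
  rw [← ga2_sum hg hT, ← ga2_sum hg hT', ← Finset.add_sum_erase _ _ hgD,
    ← Finset.add_sum_erase _ _ hgD] at c3
  have h1 : ∑ c ∈ (ga2_D g).erase g, (T.filter fun β => ExD x c β).card =
      ∑ c ∈ (ga2_D g).erase g, (T'.filter fun β => ExD y c β).card := by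
    apply Finset.sum_congr rfl
    intro c hc
    obtain ⟨hcg, hcD⟩ := Finset.mem_erase.1 hc
    obtain ⟨hc1, hc2⟩ := ga2_mem_D.1 hcD
    obtain ⟨m, hm, hm1, _⟩ := nI_int hc1
    have hlt : m < n := by
      have h2 := ga2_nI_le hc2
      rw [hm1, hn] at h2
      have h3 : m ≤ n := by exact_mod_cast h2
      refine lt_of_le_of_ne h3 ?_
      intro h4
      apply hcg
      have h5 : nI (g / c) = 1 := by
        rw [nI_div, hn, hm1, h4, div_self]
        rw [← h4]
        exact Nat.cast_ne_zero.2 (by omega)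
      have h6 := nI_eq_one hc2 h5
      exact (div_eq_one.1 h6).symm
    exact ih m hlt c hc1 hm1 _ _ (ga2_rep_filter hg hT hc2) (ga2_rep_filter hg hT' hc2)
  have h2 : IsInt (g / g) := by rw [div_self']; exact isInt_one
  have h3 := ga2_card_eq hS (ga2_rep_filter hg hT h2)
  have h4 := ga2_card_eq hS' (ga2_rep_filter hg hT' h2)
  omega

theorem rep_card {x c : Id K} {S : Finset K} (hS : IsRep x c S) : (S.card : ℝ) = phK c := by
  by_cases hc : IsInt c
  · have h : ∃ S : Finset K, IsRep 1 c S := rep_exists 1 hc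
    obtain ⟨n, _, hn, _⟩ := nI_int hc
    unfold phK
    rw [dif_pos h]
    exact_mod_cast ga2_main x 1 n c hc hn S _ hS h.choose_spec
  · have h0 : ∀ (y : Id K) (T : Finset K), IsRep y c T → T = ∅ := by
      intro y T hT
      rw [Finset.eq_empty_iff_forall_notMem]
      intro β hβ
      exact hc (exd_int (hT.ex β hβ))
    rw [h0 x S hS, Finset.card_empty]
    unfold phK
    split_ifs with h
    · rw [h0 1 _ h.choose_spec, Finset.card_empty]
    · rfl

theorem phK_le {c : Id K} (hc : IsInt c) : 0 ≤ phK c ∧ phK c ≤ nI c := by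
  classical
  refine ⟨Nat.zero_le _, ?_⟩
  obtain ⟨T, hT⟩ := repq_exists (ga2_le_div (x := (1 : Id K)) hc)
  have h2 : IsInt (c / c) := by rw [div_self']; exact isInt_one
  rw [← rep_card (ga2_rep_filter hc hT h2)]
  have c1 : (T.card : ℝ) = nI c := by
    rw [repq_card (ga2_le_div hc) hT, nI_div, div_div_cancel₀ (nI_pos 1).ne']
  rw [← c1]
  exact_mod_cast Finset.card_filter_le _ _


end Pool.Agent.HSG
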