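import Pool.Agent.Lib_helper84.HSG.DefsB
import Pool.Agent.Lib_helper84.HSGF.GA1
import Pool.Agent.Lib_helper84.HSGF.GA2
import Pool.Agent.Lib_helper84.HSGF.GA3
import Pool.Agent.Lib_helper45.HSF.KI

/-! # Block GH: the totient function -/

namespace Pool.Agent.HSG

open Complex MeasureTheory Filter Topology UpperHalfPlane NumberField IsDedekindDomain
open scoped nonZeroDivisors MatrixGroups ENNReal

variable {K : Type} [Field K] [NumberField K]

theorem idl_int (f : Pr K →₀ ℕ) : IsInt (HS.idl f) := (HS.idl_surj (HS.idl f)).2 ⟨f, rfl⟩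

theorem idl_sur {m : Id K} (h : IsInt m) : ∃ f, HS.idl f = m := (HS.idl_surj m).1 h

theorem gh_m_le (a b : Id K) : a.m ≤ b.m ↔
    (a : FractionalIdeal (𝓞 K)⁰ K) ≤ (b : FractionalIdeal (𝓞 K)⁰ K) :=
  FractionalIdeal.coe_le_coe

theorem idl_dvd (f g : Pr K →₀ ℕ) : IsInt (HS.idl f / HS.idl g) ↔ g ≤ f := by
  rw [isInt_div, gh_m_le, HS.idl_le]

theorem nI_idl (f : Pr K →₀ ℕ) : nI (HS.idl f) = (HS.PK K).nrm f := HS.idl_nrm f

omit [NumberField K] in
theorem gh_mem_dv (g c : Pr K →₀ ℕ) : c ∈ HS.dv g ↔ c ≤ g := by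
  classical
  unfold HS.dv
  rw [Finset.mem_image]
  constructor
  · rintro ⟨⟨a, b⟩, h, rfl⟩
    rw [Finset.HasAntidiagonal.mem_antidiagonal] at h
    rw [← h]
    exact le_self_add
  · intro h
    refine ⟨(c, g - c), ?_, rfl⟩
    rw [Finset.HasAntidiagonal.mem_antidiagonal]
    exact add_tsub_cancel_of_le h

theorem gh_shift {c : Id K} {β β' : K} (h : β - β' ∈ (1 : Id K).m) (h1 : ExD 1 c β) :
    ExD 1 c β' := by
  intro t
  rw [← h1 t]
  have key : t ∈ (1 : Id K).m → (t * β' ∈ (1 : Id K).m ↔ t * β ∈ (1 : Id K).m) := by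
    intro ht
    have h2 : t * (β - β') ∈ (1 : Id K).m := by
      have := mem_mul_of ht h
      rwa [mul_one] at this
    have h3 : t * β = t * β' + t * (β - β') := by ring
    rw [h3]
    exact (Submodule.add_mem_iff_left _ h2).symm
  constructor
  · rintro ⟨ht, h3⟩
    exact ⟨ht, (key ht).1 h3⟩
  · rintro ⟨ht, h3⟩
    exact ⟨ht, (key ht).2 h3⟩

theorem gh_uniq {c c' : Id K} {β : K} (h : ExD 1 c β) (h' : ExD 1 c' β) : c = c' := by
  obtain ⟨d, -, hd⟩ := exd_self (1 : Id K) β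
  rw [hd c h, hd c' h']

/-- `∑_{c | g} φ(c) = N(g)` -/
theorem tot_phK : HS.Tot (HS.PK K) (fun c => (phK (HS.idl c) : ℝ)) := by
  classical
  refine ⟨fun c => Nat.cast_nonneg _, ?_⟩
  intro g
  set G : Id K := HS.idl g with hG
  have hGi : IsInt G := idl_int g
  have hle : (1 : Id K).m ≤ (1 / G : Id K).m := by
    rw [← isInt_div]
    have : (1 : Id K) / (1 / G) = G := by simp
    rw [this]
    exact hGi
  obtain ⟨S, hS⟩ := repq_exists hle
  have hcard : (S.card : ℝ) = nI G := by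
    rw [repq_card hle hS, nI_div, nI_one]
    simp
  rw [← nI_idl g, ← hG, ← hcard]
  -- partition by the exact denominator
  have hpart : S.card = ∑ c ∈ HS.dv g, (S.filter fun β => ExD 1 (HS.idl c) β).card := by
    have h1 : S = (HS.dv g).biUnion fun c => S.filter fun β => ExD 1 (HS.idl c) β := by
      ext β
      rw [Finset.mem_biUnion]
      constructor
      · intro hβ
        obtain ⟨c0, hc0, -⟩ := exd_self (1 : Id K) β
        obtain ⟨c, rfl⟩ := idl_sur (exd_int hc0)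
        refine ⟨c, ?_, Finset.mem_filter.mpr ⟨hβ, hc0⟩⟩
        rw [gh_mem_dv, ← idl_dvd]
        exact (exd_mem hc0 hGi).1 (hS.mem β hβ)
      · rintro ⟨c, -, h⟩
        exact (Finset.mem_filter.mp h).1
    conv_lhs => rw [h1]
    rw [Finset.card_biUnion]
    intro c _ c' _ hcc
    rw [Function.onFun, Finset.disjoint_left]
    intro β h1 h2
    apply hcc
    apply HS.idl_inj
    exact gh_uniq (Finset.mem_filter.mp h1).2 (Finset.mem_filter.mp h2).2
  rw [hpart, Nat.cast_sum]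
  apply Finset.sum_congr rfl
  intro c hc
  rw [gh_mem_dv] at hc
  have hrep : IsRep 1 (HS.idl c) (S.filter fun β => ExD 1 (HS.idl c) β) := by
    refine ⟨fun β hβ => (Finset.mem_filter.mp hβ).2, ?_, ?_⟩
    · intro β hβ
      have h1 : β ∈ (1 / G : Id K).m := (exd_mem hβ hGi).2 ((idl_dvd g c).2 hc)
      obtain ⟨β', hβ', h2⟩ := hS.sur β h1
      exact ⟨β', Finset.mem_filter.mpr ⟨hβ', gh_shift h2 hβ⟩, h2⟩
    · intro β hβ β' hβ' h
      exact hS.inj β (Finset.mem_filter.mp hβ).1 β' (Finset.mem_filter.mp hβ').1 h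
  exact (rep_card hrep).symm


end Pool.Agent.HSG
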