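import Pool.Agent.Lib_helper84.HSG.DefsB
import Pool.Agent.Lib_helper98.WAF.A1
import Pool.Agent.Lib_helper98.WAF.A2
import Pool.Agent.Lib_helper98.WAF.A3

/-! # Hilbert-Selberg, PART II, block GU1: the reproducing formula in several variables (helper35) -/

namespace Pool.Agent.HSG

open Complex MeasureTheory Filter Topology UpperHalfPlane NumberField IsDedekindDomain
open scoped nonZeroDivisors MatrixGroups ENNReal

theorem gu1_c (k : ℕ) (z : ℍ) : Continuous (fun w : ℍ => WA.phf k (WA.ez k z) w) := by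
  have h := WA.ez_cont k
  have h2 : Continuous (fun w : ℍ => ((z, w) : ℍ × ℍ)) :=
    Continuous.prodMk continuous_const continuous_id
  have h3 := h.comp h2
  simp only [Function.comp_def] at h3
  exact h3

theorem gu1_int1 {k : ℕ} (hk : 16 ≤ k) (z : ℍ) :
    Integrable (fun w : ℍ => WA.phf k (WA.ez k z) w) := by
  obtain ⟨C, hC⟩ := WA.ch_lint
  refine ⟨(gu1_c k z).aestronglyMeasurable, ?_⟩
  refine lt_of_le_of_lt ?_ (lt_of_le_of_lt (hC z) ENNReal.ofReal_lt_top)
  refine lintegral_mono fun w => ?_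
  rw [← ofReal_norm, WA.ez_norm]
  refine ENNReal.ofReal_le_ofReal ?_
  refine Real.rpow_le_rpow_of_exponent_le (WA.one_le_ch z w) ?_
  have : (16 : ℝ) ≤ k := by exact_mod_cast hk
  linarith

theorem gu1_EW_int {ι : Type} [Fintype ι] {k : ℕ} (hk : 16 ≤ k) (z : ι → ℍ) :
    Integrable (fun w : ι → ℍ => EW k z w) :=
  Integrable.fintype_prod (fun i => gu1_int1 hk (z i))

theorem gu1_phW_cont {ι : Type} [Fintype ι] {k : ℕ} {f : (ι → ℂ) → ℂ}
    (hf : DifferentiableOn ℂ f (UH ι)) : Continuous (fun w : ι → ℍ => phW k f w) := by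
  have h0 : Continuous (fun w : ι → ℍ => (fun i => (w i : ℂ))) :=
    continuous_pi fun i => UpperHalfPlane.continuous_coe.comp (continuous_apply i)
  have h1 : Continuous (fun w : ι → ℍ => f (fun i => (w i : ℂ))) := by
    rw [← continuousOn_univ]
    exact hf.continuousOn.comp h0.continuousOn (fun w _ i => (w i).im_pos)
  have h2 : Continuous (fun w : ι → ℍ => ∏ i, (((w i).im ^ ((k : ℝ) / 2) : ℝ) : ℂ)) := by
    refine continuous_finsetProd _ fun i _ => ?_
    refine Complex.continuous_ofReal.comp ?_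
    refine Continuous.rpow_const ?_ (fun w => Or.inl (w i).im_pos.ne')
    exact UpperHalfPlane.continuous_im.comp (continuous_apply i)
  exact h1.mul h2

theorem gu1_int {ι : Type} [Fintype ι] {k : ℕ} (hk : 16 ≤ k) {f : (ι → ℂ) → ℂ}
    (hf : DifferentiableOn ℂ f (UH ι)) {C : ℝ} (hC : ∀ z : ι → ℍ, ‖phW k f z‖ ≤ C) (z : ι → ℍ) :
    Integrable (fun w : ι → ℍ => phW k f w * starRingEnd ℂ (EW k z w)) := by
  have h1 : Integrable (fun w : ι → ℍ => starRingEnd ℂ (EW k z w)) := by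
    have h := (gu1_EW_int hk z).norm
    refine Integrable.mono' h ?_ (Eventually.of_forall fun w => ?_)
    · exact Complex.continuous_conj.comp_aestronglyMeasurable
        (gu1_EW_int hk z).aestronglyMeasurable
    · rw [RCLike.norm_conj]
  refine h1.bdd_mul (c := C) (gu1_phW_cont hf).aestronglyMeasurable ?_
  exact Eventually.of_forall hC

/-- the product of the imaginary parts -/
noncomputable def gu1P {ι : Type} [Fintype ι] (k : ℕ) (w : ι → ℍ) : ℝ :=
  ∏ i, (w i).im ^ ((k : ℝ) / 2)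

theorem gu1P_pos {ι : Type} [Fintype ι] (k : ℕ) (w : ι → ℍ) : 0 < gu1P k w :=
  Finset.prod_pos fun i _ => Real.rpow_pos_of_pos (w i).im_pos _

theorem gu1_coe_cons {n : ℕ} (a : ℍ) (w : Fin n → ℍ) :
    (fun i : Fin (n + 1) => (((Fin.cons a w : Fin (n + 1) → ℍ) i : ℍ) : ℂ)) =
      Fin.cons (a : ℂ) (fun i => (w i : ℂ)) := by
  funext i
  refine Fin.cases ?_ (fun i => ?_) i
  · rfl
  · rfl

theorem gu1_phW_cons {n : ℕ} (k : ℕ) (f : (Fin (n + 1) → ℂ) → ℂ) (a : ℍ) (w : Fin n → ℍ) :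
    phW k f (Fin.cons a w : Fin (n + 1) → ℍ) =
      WA.phf k (fun ζ => f (Fin.cons ζ (fun i => (w i : ℂ)))) a * (gu1P k w : ℂ) := by
  unfold phW WA.phf gu1P
  rw [Fin.prod_univ_succ, gu1_coe_cons]
  simp only [Fin.cons_zero, Fin.cons_succ]
  push_cast
  ring

theorem gu1_phW_cons' {n : ℕ} (k : ℕ) (f : (Fin (n + 1) → ℂ) → ℂ) (a : ℍ) (w : Fin n → ℍ) :
    phW k f (Fin.cons a w : Fin (n + 1) → ℍ) =
      phW k (fun y => f (Fin.cons (a : ℂ) y) * ((a.im ^ ((k : ℝ) / 2) : ℝ) : ℂ)) w := by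
  unfold phW
  rw [Fin.prod_univ_succ, gu1_coe_cons]
  simp only [Fin.cons_zero, Fin.cons_succ]
  ring

theorem gu1_EW_cons {n : ℕ} (k : ℕ) (z0 a : ℍ) (z w : Fin n → ℍ) :
    EW k (Fin.cons z0 z : Fin (n + 1) → ℍ) (Fin.cons a w : Fin (n + 1) → ℍ) =
      WA.phf k (WA.ez k z0) a * EW k z w := by
  unfold EW
  rw [Fin.prod_univ_succ]
  simp only [Fin.cons_zero, Fin.cons_succ]

theorem gu1_diff1 {n : ℕ} {f : (Fin (n + 1) → ℂ) → ℂ} (hf : DifferentiableOn ℂ f (UH (Fin (n + 1))))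
    (w : Fin n → ℍ) :
    DifferentiableOn ℂ (fun ζ : ℂ => f (Fin.cons ζ (fun i => (w i : ℂ)))) {z : ℂ | 0 < z.im} := by
  have h : Differentiable ℂ
      (fun ζ : ℂ => (Fin.cons ζ (fun i => (w i : ℂ)) : Fin (n + 1) → ℂ)) := by
    rw [differentiable_pi]
    intro i
    refine Fin.cases ?_ (fun i => ?_) i
    · exact differentiable_id
    · exact differentiable_const _
  refine hf.comp h.differentiableOn ?_
  intro ζ hζ i
  refine Fin.cases ?_ (fun i => ?_) i
  · exact hζ
  · exact (w i).im_pos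

theorem gu1_diff2 {n : ℕ} {f : (Fin (n + 1) → ℂ) → ℂ} (hf : DifferentiableOn ℂ f (UH (Fin (n + 1))))
    (a : ℍ) (c : ℂ) :
    DifferentiableOn ℂ (fun y : Fin n → ℂ => f (Fin.cons (a : ℂ) y) * c) (UH (Fin n)) := by
  have h : Differentiable ℂ
      (fun y : Fin n → ℂ => (Fin.cons (a : ℂ) y : Fin (n + 1) → ℂ)) := by
    rw [differentiable_pi]
    intro i
    refine Fin.cases ?_ (fun i => ?_) i
    · exact differentiable_const _
    · exact differentiable_apply i
  refine DifferentiableOn.mul_const ?_ c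
  refine hf.comp h.differentiableOn ?_
  intro y hy i
  refine Fin.cases ?_ (fun i => ?_) i
  · exact a.im_pos
  · exact hy i

theorem gu1_fin {k : ℕ} (hk : 16 ≤ k) : ∀ (n : ℕ) {f : (Fin n → ℂ) → ℂ}
    (_ : DifferentiableOn ℂ f (UH (Fin n))) {C : ℝ} (_ : ∀ z : Fin n → ℍ, ‖phW k f z‖ ≤ C)
    (z : Fin n → ℍ),
    ∫ w : Fin n → ℍ, phW k f w * starRingEnd ℂ (EW k z w) =
      (((4 * Real.pi / ((k : ℝ) - 1)) ^ n : ℝ) : ℂ) * phW k f z := by
  intro n
  induction n with
  | zero =>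
    intro f hf C hC z
    have h1 : ∀ w : Fin 0 → ℍ, phW k f w * starRingEnd ℂ (EW k z w) = phW k f z := by
      intro w
      rw [Subsingleton.elim w z]
      unfold EW
      rw [Finset.univ_eq_empty, Finset.prod_empty, map_one, mul_one]
    simp only [h1]
    rw [integral_const, pow_zero]
    have h2 : (volume : Measure (Fin 0 → ℍ)).real Set.univ = 1 := by
      rw [Measure.real, volume_pi, Measure.pi_of_empty, Measure.dirac_apply_of_mem (Set.mem_univ _)]
      rfl
    rw [h2, one_smul]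
    push_cast
    rw [one_mul]
  | succ n ih =>
    intro f hf C hC z
    obtain ⟨z0, z', rfl⟩ : ∃ (z0 : ℍ) (z' : Fin n → ℍ), z = Fin.cons z0 z' :=
      ⟨z 0, Fin.tail z, (Fin.cons_self_tail z).symm⟩
    have hvp := (volume_preserving_piFinSuccAbove (fun _ : Fin (n + 1) => ℍ) 0).symm
    set g : (Fin (n + 1) → ℍ) → ℂ := fun w => phW k f w *
      starRingEnd ℂ (EW k (Fin.cons z0 z' : Fin (n + 1) → ℍ) w) with hg
    have hgi : Integrable g := gu1_int hk hf hC _
    have hsym : ∀ (a : ℍ) (w : Fin n → ℍ),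
        (MeasurableEquiv.piFinSuccAbove (fun _ : Fin (n + 1) => ℍ) 0).symm (a, w) =
          (Fin.cons a w : Fin (n + 1) → ℍ) := by
      intro a w
      show Fin.insertNth (α := fun _ : Fin (n + 1) => ℍ) 0 a w = _
      rw [Fin.insertNth_zero]
      rfl
    have h1 : ∫ w, g w = ∫ p : ℍ × (Fin n → ℍ),
        g ((MeasurableEquiv.piFinSuccAbove (fun _ : Fin (n + 1) => ℍ) 0).symm p) :=
      (hvp.integral_comp' g).symm
    have h2 : Integrable (fun p : ℍ × (Fin n → ℍ) =>
        g ((MeasurableEquiv.piFinSuccAbove (fun _ : Fin (n + 1) => ℍ) 0).symm p)) :=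
      (hvp.integrable_comp_emb (MeasurableEquiv.measurableEmbedding _)).2 hgi
    rw [h1, Measure.volume_eq_prod, integral_prod_symm _ h2]
    have h3 : ∀ w : Fin n → ℍ, ∫ a : ℍ,
        g ((MeasurableEquiv.piFinSuccAbove (fun _ : Fin (n + 1) => ℍ) 0).symm (a, w)) =
        ((4 * Real.pi / ((k : ℝ) - 1) : ℝ) : ℂ) *
          (phW k (fun y => f (Fin.cons (z0 : ℂ) y) * ((z0.im ^ ((k : ℝ) / 2) : ℝ) : ℂ)) w *
            starRingEnd ℂ (EW k z' w)) := by
      intro w
      have hP := gu1P_pos k w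
      have hb : ∀ ζ : ℂ, 0 < ζ.im → ‖f (Fin.cons ζ (fun i => (w i : ℂ)))‖ ≤
          (C / gu1P k w) * ζ.im ^ (-(k : ℝ) / 2) := by
        intro ζ hζ
        obtain ⟨u, hu1, hu2⟩ : ∃ u : ℍ, (u : ℂ) = ζ ∧ u.im = ζ.im := ⟨⟨ζ, hζ⟩, rfl, rfl⟩
        have h4 := hC (Fin.cons u w)
        rw [gu1_phW_cons, norm_mul, WA.phf, norm_mul, Complex.norm_real, Complex.norm_real,
          Real.norm_of_nonneg hP.le, Real.norm_of_nonneg (Real.rpow_nonneg u.im_pos.le _),
          hu1, hu2] at h4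
        have h5 : 0 < ζ.im ^ ((k : ℝ) / 2) := Real.rpow_pos_of_pos hζ _
        rw [neg_div, Real.rpow_neg hζ.le, ← div_eq_mul_inv, le_div_iff₀ h5, le_div_iff₀ hP]
        exact h4
      obtain ⟨-, h6⟩ := WA.rep (by omega) (gu1_diff1 hf w) hb z0
      have h7 : (fun a : ℍ =>
          g ((MeasurableEquiv.piFinSuccAbove (fun _ : Fin (n + 1) => ℍ) 0).symm (a, w))) =
          fun a : ℍ => (WA.phf k (fun ζ => f (Fin.cons ζ (fun i => (w i : ℂ)))) a *
            starRingEnd ℂ (WA.phf k (WA.ez k z0) a)) *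
              ((gu1P k w : ℂ) * starRingEnd ℂ (EW k z' w)) := by
        funext a
        rw [hsym, hg]
        simp only []
        rw [gu1_phW_cons, gu1_EW_cons, map_mul]
        ring
      rw [h7, integral_mul_const, h6, ← gu1_phW_cons', gu1_phW_cons]
      ring
    have h3' : (fun w : Fin n → ℍ => ∫ a : ℍ,
        g ((MeasurableEquiv.piFinSuccAbove (fun _ : Fin (n + 1) => ℍ) 0).symm (a, w))) =
        fun w => ((4 * Real.pi / ((k : ℝ) - 1) : ℝ) : ℂ) *
          (phW k (fun y => f (Fin.cons (z0 : ℂ) y) * ((z0.im ^ ((k : ℝ) / 2) : ℝ) : ℂ)) w *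
            starRingEnd ℂ (EW k z' w)) := funext h3
    rw [h3', integral_const_mul, ih (gu1_diff2 hf z0 _) (C := C) (fun w => by
      rw [← gu1_phW_cons']
      exact hC _) z', ← gu1_phW_cons', pow_succ]
    push_cast
    ring

theorem rep_pi {ι : Type} [Fintype ι] {k : ℕ} (hk : 16 ≤ k) {f : (ι → ℂ) → ℂ}
    (hf : DifferentiableOn ℂ f (UH ι)) {C : ℝ} (hC : ∀ z : ι → ℍ, ‖phW k f z‖ ≤ C) (z : ι → ℍ) :
    Integrable (fun w : ι → ℍ => phW k f w * starRingEnd ℂ (EW k z w)) ∧
      phW k f z = (((((k : ℝ) - 1) / (4 * Real.pi)) ^ Fintype.card ι : ℝ) : ℂ) *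
        ∫ w : ι → ℍ, phW k f w * starRingEnd ℂ (EW k z w) := by
  refine ⟨gu1_int hk hf hC z, ?_⟩
  let e : ι ≃ Fin (Fintype.card ι) := Fintype.equivFin ι
  set f' : (Fin (Fintype.card ι) → ℂ) → ℂ := fun y => f (fun i => y (e i)) with hf'
  have hph : ∀ w : Fin (Fintype.card ι) → ℍ, phW k f' w = phW k f (fun i => w (e i)) := by
    intro w
    unfold phW
    rw [hf']
    simp only []
    rw [← e.prod_comp]
  have hEW : ∀ w w' : Fin (Fintype.card ι) → ℍ,
      EW k w w' = EW k (fun i => w (e i)) (fun i => w' (e i)) := by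
    intro w w'
    unfold EW
    rw [← e.prod_comp]
  have hd : DifferentiableOn ℂ f' (UH (Fin (Fintype.card ι))) := by
    have h : Differentiable ℂ (fun y : Fin (Fintype.card ι) → ℂ => (fun i => y (e i))) := by
      rw [differentiable_pi]
      intro i
      exact differentiable_apply _
    exact hf.comp h.differentiableOn (fun y hy i => hy (e i))
  have h1 := gu1_fin hk _ hd (C := C) (fun w => by rw [hph]; exact hC _) (fun j => z (e.symm j))
  have h2 : ∫ w : ι → ℍ, phW k f w * starRingEnd ℂ (EW k z w) =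
      ∫ w : Fin (Fintype.card ι) → ℍ, phW k f' w *
        starRingEnd ℂ (EW k (fun j => z (e.symm j)) w) := by
    have hvp := (volume_measurePreserving_piCongrLeft (fun _ : Fin (Fintype.card ι) => ℍ) e)
    rw [← hvp.integral_comp']
    refine integral_congr_ae (Eventually.of_forall fun w => ?_)
    simp only []
    have h3 : (fun i => (MeasurableEquiv.piCongrLeft (fun _ : Fin (Fintype.card ι) => ℍ) e w)
        (e i)) = w := by
      funext i
      exact MeasurableEquiv.piCongrLeft_apply_apply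
        (β := fun _ : Fin (Fintype.card ι) => ℍ) e w i
    rw [hph, hEW, h3]
    simp only [Equiv.symm_apply_apply]
  have h4 : (fun i => (fun j => z (e.symm j)) (e i)) = z := by
    funext i
    simp only [Equiv.symm_apply_apply]
  rw [h2, h1, hph, h4, ← mul_assoc]
  have hk1 : (0 : ℝ) < (k : ℝ) - 1 := by
    have : (16 : ℝ) ≤ k := by exact_mod_cast hk
    linarith
  have h5 : (((k : ℝ) - 1) / (4 * Real.pi)) ^ Fintype.card ι *
      (4 * Real.pi / ((k : ℝ) - 1)) ^ Fintype.card ι = 1 := by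
    rw [← mul_pow]
    have hpi := Real.pi_pos
    have : ((k : ℝ) - 1) / (4 * Real.pi) * (4 * Real.pi / ((k : ℝ) - 1)) = 1 := by
      field_simp
    rw [this, one_pow]
  rw [← Complex.ofReal_mul, h5, Complex.ofReal_one, one_mul]

end Pool.Agent.HSG
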