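import Pool.Agent.Lib_helper98.WAF.A1
import Pool.Agent.Lib_helper98.WAF.A3
import Pool.Agent.Lib_helper84.HSG.DefsB
import Pool.Agent.Lib_helper84.HSGF.GU1

/-! # HSG, block GU2 (EWS): the kernel function in several variables -/

namespace Pool.Agent.HSG

open Complex MeasureTheory Filter Topology UpperHalfPlane NumberField IsDedekindDomain
open scoped nonZeroDivisors MatrixGroups ENNReal

variable {K : Type} [Field K] [NumberField K]

theorem ew_norm {ι : Type} [Fintype ι] (k : ℕ) (z w : ι → ℍ) :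
    ‖EW k z w‖ = (∏ i, WA.ch (z i) (w i)) ^ (-(k : ℝ) / 2) := by
  unfold EW
  rw [norm_prod, ← Real.finsetProd_rpow _ _ fun i _ => (zero_le_one.trans (WA.one_le_ch _ _))]
  exact Finset.prod_congr rfl fun i _ => WA.ez_norm k (z i) (w i)

theorem ew_cont {ι : Type} [Fintype ι] (k : ℕ) :
    Continuous (fun p : (ι → ℍ) × (ι → ℍ) => EW k p.1 p.2) := by
  have h : ∀ i ∈ (Finset.univ : Finset ι), Continuous
      (fun p : (ι → ℍ) × (ι → ℍ) => WA.phf k (WA.ez k (p.1 i)) (p.2 i)) := by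
    intro i _
    have h1 : Continuous (fun p : (ι → ℍ) × (ι → ℍ) => ((p.1 i, p.2 i) : ℍ × ℍ)) :=
      ((continuous_apply i).comp continuous_fst).prodMk
        ((continuous_apply i).comp continuous_snd)
    have h2 := (WA.ez_cont k).comp h1
    simpa only [Function.comp_def] using h2
  have h3 := continuous_finsetProd _ h
  unfold EW
  exact h3

theorem gu2_le_one {ι : Type} [Fintype ι] (k : ℕ) (z w : ι → ℍ) : ‖EW k z w‖ ≤ 1 := by
  rw [ew_norm]
  refine Real.rpow_le_one_of_one_le_of_nonpos ?_ ?_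
  · have : ∏ i : ι, (1 : ℝ) ≤ ∏ i, WA.ch (z i) (w i) :=
      Finset.prod_le_prod (fun _ _ => zero_le_one) fun i _ => WA.one_le_ch _ _
    simpa using this
  · have : (0 : ℝ) ≤ k := Nat.cast_nonneg k
    linarith

theorem gu2_meas1 (k : ℕ) (z : ℍ) : Measurable (fun w : ℍ => WA.phf k (WA.ez k z) w) :=
  ((WA.ez_cont k).comp (continuous_const.prodMk continuous_id)).measurable

theorem gu2_one : ∃ C : ℝ, 0 ≤ C ∧ ∀ k : ℕ, 16 ≤ k → ∀ z : ℍ,
    ∫⁻ w : ℍ, ‖WA.phf k (WA.ez k z) w‖ₑ ≤ ENNReal.ofReal C := by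
  obtain ⟨C, hC⟩ := WA.ch_lint
  refine ⟨max C 0, le_max_right _ _, fun k hk z => ?_⟩
  refine le_trans (le_trans (lintegral_mono fun w => ?_) (hC z))
    (ENNReal.ofReal_le_ofReal (le_max_left _ _))
  rw [← ofReal_norm, WA.ez_norm]
  refine ENNReal.ofReal_le_ofReal (Real.rpow_le_rpow_of_exponent_le (WA.one_le_ch z w) ?_)
  have : (16 : ℝ) ≤ k := by exact_mod_cast hk
  linarith

theorem gu2_int1 {k : ℕ} (hk : 16 ≤ k) (z : ℍ) :
    Integrable (fun w : ℍ => WA.phf k (WA.ez k z) w) := by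
  obtain ⟨C, _, hC⟩ := gu2_one
  refine ⟨(gu2_meas1 k z).aestronglyMeasurable, ?_⟩
  exact lt_of_le_of_lt (hC k hk z) ENNReal.ofReal_lt_top

theorem ew_lint {ι : Type} [Fintype ι] : ∃ C : ℝ, ∀ k : ℕ, 16 ≤ k → ∀ z : ι → ℍ,
    ∫⁻ w : ι → ℍ, ‖EW k z w‖ₑ ≤ ENNReal.ofReal C := by
  obtain ⟨C, hC0, hC⟩ := gu2_one
  refine ⟨C ^ Fintype.card ι, fun k hk z => ?_⟩
  have h1 : Integrable (fun w : ι → ℍ => EW k z w) :=
    Integrable.fintype_prod (f := fun i w => WA.phf k (WA.ez k (z i)) w)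
      (fun i => gu2_int1 hk (z i))
  have h2 : ∫⁻ w : ι → ℍ, ‖EW k z w‖ₑ = ENNReal.ofReal (∫ w : ι → ℍ, ‖EW k z w‖) :=
    (ofReal_integral_norm_eq_lintegral_enorm h1).symm
  rw [h2]
  refine ENNReal.ofReal_le_ofReal ?_
  have h3 : ∫ w : ι → ℍ, ‖EW k z w‖ = ∏ i, ∫ w : ℍ, ‖WA.phf k (WA.ez k (z i)) w‖ := by
    rw [← integral_fintype_prod_volume_eq_prod
      (fun i (w : ℍ) => ‖WA.phf k (WA.ez k (z i)) w‖)]
    refine integral_congr_ae (Eventually.of_forall fun w => ?_)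
    exact norm_prod _ _
  rw [h3, Fintype.card, ← Finset.prod_const]
  refine Finset.prod_le_prod (fun i _ => integral_nonneg fun _ => norm_nonneg _) fun i _ => ?_
  have h4 := hC k hk (z i)
  rw [← ofReal_integral_norm_eq_lintegral_enorm (gu2_int1 hk (z i)),
    ENNReal.ofReal_le_ofReal_iff hC0] at h4
  exact h4

theorem gu2_phW {ι : Type} [Fintype ι] (k : ℕ) (z w : ι → ℍ) :
    phW k (fun y : ι → ℂ => ∏ i, WA.ez k (z i) (y i)) w = EW k z w := by
  unfold phW EW WA.phf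
  rw [Finset.prod_mul_distrib]

/-- the inner product of two kernel functions -/
theorem ew_inner {ι : Type} [Fintype ι] {k : ℕ} (hk : 16 ≤ k) (z z' : ι → ℍ) :
    Integrable (fun w : ι → ℍ => EW k z w * starRingEnd ℂ (EW k z' w)) ∧
    ‖∫ w : ι → ℍ, EW k z w * starRingEnd ℂ (EW k z' w)‖ =
      (4 * Real.pi / ((k : ℝ) - 1)) ^ Fintype.card ι *
        (∏ i, WA.ch (z i) (z' i)) ^ (-(k : ℝ) / 2) := by
  have hf : DifferentiableOn ℂ (fun y : ι → ℂ => ∏ i, WA.ez k (z i) (y i)) (UH ι) := by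
    have h1 : ∀ i : ι, DifferentiableOn ℂ (fun y : ι → ℂ => WA.ez k (z i) (y i)) (UH ι) := by
      intro i
      exact (WA.ez_holo k (z i)).comp (differentiable_apply i).differentiableOn fun y hy => hy i
    have h2 : ∀ s : Finset ι,
        DifferentiableOn ℂ (fun y : ι → ℂ => ∏ i ∈ s, WA.ez k (z i) (y i)) (UH ι) := by
      classical
      intro s
      induction s using Finset.induction_on with
      | empty =>
        simp only [Finset.prod_empty]
        exact differentiableOn_const _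
      | insert a s ha ih =>
        simp only [Finset.prod_insert ha]
        exact (h1 a).mul ih
    exact h2 _
  have h := rep_pi hk hf (C := 1) (fun w => by rw [gu2_phW]; exact gu2_le_one k z w) z'
  simp only [gu2_phW] at h
  refine ⟨h.1, ?_⟩
  have hk1 : (0 : ℝ) < (k : ℝ) - 1 := by
    have : (16 : ℝ) ≤ k := by exact_mod_cast hk
    linarith
  have h2 := congrArg norm h.2
  rw [norm_mul, ew_norm, Complex.norm_real, Real.norm_of_nonneg (by positivity)] at h2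
  rw [h2, ← mul_assoc, ← mul_pow]
  have h3 : 4 * Real.pi / ((k : ℝ) - 1) * (((k : ℝ) - 1) / (4 * Real.pi)) = 1 := by
    have := Real.pi_pos
    field_simp
  rw [h3, one_pow, one_mul]

/-! ### The transformation formula -/

theorem gu2_dne (G : GL (Fin 2) ℝ) (w : ℍ) : denom G w ≠ 0 := UpperHalfPlane.denom_ne_zero G w

theorem gu2_im {G : GL (Fin 2) ℝ} (hG : G.det.val = 1) (k : ℕ) (w : ℍ) :
    (((G • w).im ^ ((k : ℝ) / 2) : ℝ) : ℂ) =
      ((w.im ^ ((k : ℝ) / 2) : ℝ) : ℂ) / ((‖denom G w‖ : ℝ) : ℂ) ^ k := by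
  have h1 : 0 < ‖denom G w‖ := norm_pos_iff.mpr (gu2_dne G w)
  rw [UpperHalfPlane.im_smul_eq_div_normSq, hG, abs_one, one_mul, Complex.normSq_eq_norm_sq,
    Real.div_rpow w.im_pos.le (sq_nonneg _)]
  have h2 : (‖denom G w‖ ^ 2) ^ ((k : ℝ) / 2) = ‖denom G w‖ ^ k := by
    rw [← Real.rpow_natCast (‖denom G w‖) 2, ← Real.rpow_mul h1.le, ← Real.rpow_natCast _ k]
    congr 1
    push_cast
    ring
  rw [h2]
  push_cast
  rfl

theorem gu2_sub {G : GL (Fin 2) ℝ} (hG : G.det.val = 1) (z w : ℍ) :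
    ((G • w : ℍ) : ℂ) - starRingEnd ℂ ((G • z : ℍ) : ℂ) =
      ((w : ℂ) - starRingEnd ℂ (z : ℂ)) / (denom G w * starRingEnd ℂ (denom G z)) := by
  have hpos : 0 < G.det.val := by rw [hG]; exact one_pos
  rw [UpperHalfPlane.coe_smul_of_det_pos hpos, UpperHalfPlane.coe_smul_of_det_pos hpos, map_div₀,
    div_sub_div _ _ (gu2_dne G w) ((map_ne_zero _).mpr (gu2_dne G z))]
  congr 1
  have hd : (G 0 0 * G 1 1 - G 0 1 * G 1 0 : ℝ) = 1 := by
    rw [← hG, Matrix.GeneralLinearGroup.val_det_apply, Matrix.det_fin_two]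
  have hd' : ((G 0 0 : ℝ) : ℂ) * ((G 1 1 : ℝ) : ℂ) - ((G 0 1 : ℝ) : ℂ) * ((G 1 0 : ℝ) : ℂ) = 1 := by
    exact_mod_cast hd
  unfold num denom
  simp only [map_add, map_mul, Complex.conj_ofReal]
  linear_combination ((w : ℂ) - starRingEnd ℂ (z : ℂ)) * hd'

theorem gu2_act1 {G : GL (Fin 2) ℝ} (hG : G.det.val = 1) (k : ℕ) (z w : ℍ) :
    WA.phf k (WA.ez k (G • z)) (G • w) =
      (denom G w / ((‖denom G w‖ : ℝ) : ℂ)) ^ k *
        starRingEnd ℂ ((denom G z / ((‖denom G z‖ : ℝ) : ℂ)) ^ k) * WA.phf k (WA.ez k z) w := by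
  have hz := gu2_dne G z
  have hw := gu2_dne G w
  have hz' : ((‖denom G z‖ : ℝ) : ℂ) ≠ 0 := by
    rw [Ne, Complex.ofReal_eq_zero, norm_eq_zero]
    exact hz
  have hw' : ((‖denom G w‖ : ℝ) : ℂ) ≠ 0 := by
    rw [Ne, Complex.ofReal_eq_zero, norm_eq_zero]
    exact hw
  have hcz : starRingEnd ℂ (denom G z) ≠ 0 := (map_ne_zero _).mpr hz
  have hne : (w : ℂ) - starRingEnd ℂ (z : ℂ) ≠ 0 := WA.A1_ne z w w.im_pos
  unfold WA.phf WA.ez
  rw [gu2_im hG, gu2_im hG, gu2_sub hG]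
  rw [map_pow, map_div₀, Complex.conj_ofReal]
  simp only [div_pow, mul_pow]
  field_simp

section tr4
variable [IsTotallyReal K]

/-- transformation of the kernel function -/
theorem ew_act (k : ℕ) (g : SL(2, K)) (z w : Em K → ℍ) :
    EW k (g • z) (g • w) = (∏ v, (lz (((g : GL (Fin 2) K)) 1) w v /
      (‖lz (((g : GL (Fin 2) K)) 1) w v‖ : ℂ)) ^ k) *
      starRingEnd ℂ (∏ v, (lz (((g : GL (Fin 2) K)) 1) z v /
      (‖lz (((g : GL (Fin 2) K)) 1) z v‖ : ℂ)) ^ k) * EW k z w := by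
  unfold EW
  rw [map_prod, ← Finset.prod_mul_distrib, ← Finset.prod_mul_distrib]
  refine Finset.prod_congr rfl fun v _ => ?_
  have hG : (Matrix.GeneralLinearGroup.map (n := Fin 2) v (g : GL (Fin 2) K)).det.val = 1 := by
    rw [Matrix.GeneralLinearGroup.map_det]
    simp
  exact gu2_act1 hG k (z v) (w v)

end tr4

end Pool.Agent.HSG
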