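import Pool.Agent.Lib_helper84.HSG.DefsB
import Pool.Agent.Lib_helper84.HSGF.GA3
import Pool.Agent.Lib_helper84.HSGF.GD1

/-! # Bases of ideals of totally real fields and sums of characters -/

namespace Pool.Agent.HSG

open Complex MeasureTheory Filter Topology UpperHalfPlane NumberField IsDedekindDomain
open scoped nonZeroDivisors MatrixGroups ENNReal

variable {K : Type} [Field K] [NumberField K]

section tr
variable [IsTotallyReal K]

open scoped Classical in
theorem gd2_sq (e : Em K → K) :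
    (Matrix.of fun i w => w (e i) : Matrix (Em K) (Em K) ℝ).det ^ 2 =
      ((Algebra.discr ℚ e : ℚ) : ℝ) := by
  have h1 : (Matrix.of fun i w => w (e i) : Matrix (Em K) (Em K) ℝ) *
      (Matrix.of fun i w => w (e i) : Matrix (Em K) (Em K) ℝ).transpose =
      (Algebra.traceMatrix ℚ e).map (fun x : ℚ => (x : ℝ)) := by
    ext i j
    rw [Matrix.mul_apply, Matrix.map_apply, Algebra.traceMatrix_apply, Algebra.traceForm_apply,
      tr_em]
    refine Finset.sum_congr rfl fun w _ => ?_
    rw [Matrix.of_apply, Matrix.transpose_apply, Matrix.of_apply, map_mul]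
  have h2 := congrArg Matrix.det h1
  rw [Matrix.det_mul, Matrix.det_transpose, ← sq] at h2
  rw [h2, Algebra.discr_def]
  have h3 := RingHom.map_det (Rat.castHom ℝ) (Algebra.traceMatrix ℚ e)
  have h4 : ((Algebra.traceMatrix ℚ e).det : ℝ) =
      (Rat.castHom ℝ) (Algebra.traceMatrix ℚ e).det := rfl
  rw [h4, h3]
  rfl

open scoped Classical in
theorem lat_basis (a : Id K) : ∃ e : Em K → K, (∀ i, e i ∈ a.m) ∧
    (∀ x ∈ a.m, ∃ c : Em K → ℤ, x = ∑ i, (c i : K) * e i) ∧
    LinearIndependent ℝ (fun i => em (e i)) ∧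
    |(Matrix.of fun i w => w (e i) : Matrix (Em K) (Em K) ℝ).det| = √(dK K) * nI a := by
  let e0 : Module.Free.ChooseBasisIndex ℤ (𝓞 K) ≃
      Module.Free.ChooseBasisIndex ℤ (a : FractionalIdeal (𝓞 K)⁰ K) :=
    (integralBasis K).indexEquiv (basisOfFractionalIdeal K a)
  let b : Module.Basis (Module.Free.ChooseBasisIndex ℤ (𝓞 K)) ℚ K :=
    (basisOfFractionalIdeal K a).reindex e0.symm
  have hcard : Fintype.card (Em K) =
      Fintype.card (Module.Free.ChooseBasisIndex ℤ (𝓞 K)) := by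
    rw [card_em, dg, Module.finrank_eq_card_basis (integralBasis K)]
  let f0 : Em K ≃ Module.Free.ChooseBasisIndex ℤ (𝓞 K) := Fintype.equivOfCardEq hcard
  let e : Em K → K := fun i => b (f0 i)
  have hspan : ∀ x, x ∈ a.m ↔ x ∈ Submodule.span ℤ (Set.range (basisOfFractionalIdeal K a)) := by
    intro x
    rw [mem_span_basisOfFractionalIdeal]
    rfl
  have hmem : ∀ i, e i ∈ a.m := by
    intro i
    rw [hspan]
    apply Submodule.subset_span
    refine ⟨e0 (f0 i), ?_⟩
    show _ = (basisOfFractionalIdeal K a).reindex e0.symm (f0 i)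
    rw [Module.Basis.reindex_apply, Equiv.symm_symm]
  have hgen : ∀ x ∈ a.m, ∃ c : Em K → ℤ, x = ∑ i, (c i : K) * e i := by
    intro x hx
    rw [hspan, Submodule.mem_span_range_iff_exists_fun] at hx
    obtain ⟨c, hc⟩ := hx
    refine ⟨fun i => c (e0 (f0 i)), ?_⟩
    rw [← hc, ← (f0.trans e0).sum_comp]
    refine Finset.sum_congr rfl fun i _ => ?_
    rw [zsmul_eq_mul]
    congr 1
    show _ = (basisOfFractionalIdeal K a).reindex e0.symm (f0 i)
    rw [Module.Basis.reindex_apply, Equiv.symm_symm]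
    rfl
  -- the discriminant
  have hdisc : Algebra.discr ℚ e = (integralBasis K).det b ^ 2 * (discr K : ℚ) := by
    have h1 : Algebra.discr ℚ e = Algebra.discr ℚ b := by
      have h2 := Algebra.discr_reindex ℚ (b.reindex f0.symm) f0.symm.symm
      have h3 : (fun i => (b.reindex f0.symm) i) = e := by
        funext i
        rw [Module.Basis.reindex_apply, Equiv.symm_symm]
      have h4 : (⇑(b.reindex f0.symm) ∘ ⇑f0.symm.symm.symm) = b := by
        funext i
        show (b.reindex f0.symm) (f0.symm i) = b i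
        rw [Module.Basis.reindex_apply, Equiv.symm_symm, Equiv.apply_symm_apply]
      rw [h4] at h2
      rw [h2]
      congr 1
      exact h3.symm
    have h5 := (integralBasis K).toMatrix_map_vecMul b
    rw [h1, coe_discr, Module.Basis.det_apply]
    conv_lhs => rw [← h5]
    rw [Algebra.discr_of_matrix_vecMul]
  have hnorm : ((((integralBasis K).det b : ℚ) : ℝ)) ^ 2 = nI a ^ 2 := by
    have h1 := det_basisOfFractionalIdeal_eq_absNorm K a e0
    have h2 : |(((integralBasis K).det b : ℚ) : ℝ)| = nI a := by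
      unfold nI
      rw [← h1]
      push_cast
      rfl
    rw [← h2, sq_abs]
  have hsq : (Matrix.of fun i w => w (e i) : Matrix (Em K) (Em K) ℝ).det ^ 2 =
      nI a ^ 2 * (discr K : ℝ) := by
    rw [gd2_sq, hdisc]
    push_cast
    rw [hnorm]
  have hpos := nI_pos a
  have hd : |(discr K : ℝ)| = (discr K : ℝ) := by
    apply abs_of_nonneg
    have h1 : 0 ≤ nI a ^ 2 * (discr K : ℝ) := by
      rw [← hsq]
      positivity
    exact nonneg_of_mul_nonneg_right h1 (by positivity)
  have hdet : |(Matrix.of fun i w => w (e i) : Matrix (Em K) (Em K) ℝ).det| =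
      √(dK K) * nI a := by
    rw [← Real.sqrt_sq_eq_abs, hsq, dK, hd, Real.sqrt_mul (by positivity),
      Real.sqrt_sq hpos.le, mul_comm]
  refine ⟨e, hmem, hgen, ?_, hdet⟩
  have hne : (Matrix.of fun i w => w (e i) : Matrix (Em K) (Em K) ℝ).det ≠ 0 := by
    intro h0
    rw [h0, abs_zero] at hdet
    have h1 := dK_ge (K := K)
    have h2 : 0 < √(dK K) * nI a := by positivity
    exact h2.ne hdet
  have h3 : IsUnit (Matrix.of fun i w => w (e i) : Matrix (Em K) (Em K) ℝ) :=
    (Matrix.isUnit_iff_isUnit_det _).mpr (isUnit_iff_ne_zero.mpr hne)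
  exact Matrix.linearIndependent_rows_iff_isUnit.mpr h3

theorem char_sum {x y : Id K} (h : y.m ≤ x.m) {S : Finset K} (hS : IsRepQ x y S) {ν : K}
    (hν : ν ∈ ((DD K)⁻¹ * y⁻¹).m) :
    (ν ∈ ((DD K)⁻¹ * x⁻¹).m → ∀ β ∈ S,
      cexp (2 * Real.pi * Complex.I * ((∑ w : Em K, w (ν * β) : ℝ) : ℂ)) = 1) ∧
    (ν ∉ ((DD K)⁻¹ * x⁻¹).m → ∑ β ∈ S,
      cexp (2 * Real.pi * Complex.I * ((∑ w : Em K, w (ν * β) : ℝ) : ℂ)) = 0) := by
  classical
  have hone : ∀ β : K, (∃ n : ℤ, ∑ w : Em K, w (ν * β) = n) ↔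
      cexp (2 * Real.pi * Complex.I * ((∑ w : Em K, w (ν * β) : ℝ) : ℂ)) = 1 := by
    intro β
    rw [Complex.exp_eq_one_iff]
    have hpi : (2 * Real.pi * Complex.I : ℂ) ≠ 0 := by
      simp [Real.pi_ne_zero]
    constructor
    · rintro ⟨n, hn⟩
      refine ⟨n, ?_⟩
      rw [hn]
      push_cast
      ring
    · rintro ⟨n, hn⟩
      refine ⟨n, ?_⟩
      rw [mul_comm] at hn
      have h1 := mul_right_cancel₀ hpi hn
      exact_mod_cast h1
  have hadd : ∀ β γ : K, cexp (2 * Real.pi * Complex.I *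
      ((∑ w : Em K, w (ν * (β + γ)) : ℝ) : ℂ)) =
      cexp (2 * Real.pi * Complex.I * ((∑ w : Em K, w (ν * β) : ℝ) : ℂ)) *
      cexp (2 * Real.pi * Complex.I * ((∑ w : Em K, w (ν * γ) : ℝ) : ℂ)) := by
    intro β γ
    rw [← Complex.exp_add]
    congr 1
    have h1 : ∑ w : Em K, w (ν * (β + γ)) = ∑ w : Em K, w (ν * β) + ∑ w : Em K, w (ν * γ) := by
      rw [← Finset.sum_add_distrib]
      refine Finset.sum_congr rfl fun w _ => ?_
      rw [mul_add, map_add]
    rw [h1]
    push_cast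
    ring
  have hy := (dual_iff y ν).mpr hν
  constructor
  · intro hx β hβ
    rw [← hone]
    exact (dual_iff x ν).mpr hx β (hS.mem β hβ)
  · intro hx
    rw [← dual_iff] at hx
    push Not at hx
    obtain ⟨y0, hy0, hne⟩ := hx
    have hne1 : cexp (2 * Real.pi * Complex.I * ((∑ w : Em K, w (ν * y0) : ℝ) : ℂ)) ≠ 1 := by
      intro h1
      obtain ⟨n, hn⟩ := (hone y0).mpr h1
      exact hne n hn
    have hex : ∀ β ∈ S, ∃ β' ∈ S, (β + y0) - β' ∈ y.m := fun β hβ =>
      hS.sur _ (x.m.add_mem (hS.mem β hβ) hy0)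
    choose! σ hσ1 hσ2 using hex
    have hinj : Set.InjOn σ S := by
      intro β hβ γ hγ hβγ
      apply hS.inj β hβ γ hγ
      have h1 := y.m.sub_mem (hσ2 β hβ) (hσ2 γ hγ)
      rw [hβγ] at h1
      have h2 : β + y0 - σ γ - (γ + y0 - σ γ) = β - γ := by ring
      rwa [h2] at h1
    have himg : S.image σ = S := by
      apply Finset.eq_of_subset_of_card_le
      · intro β hβ
        obtain ⟨γ, hγ, rfl⟩ := Finset.mem_image.mp hβ
        exact hσ1 γ hγ
      · rw [Finset.card_image_of_injOn hinj]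
    set f : K → ℂ := fun β =>
      cexp (2 * Real.pi * Complex.I * ((∑ w : Em K, w (ν * β) : ℝ) : ℂ)) with hf
    have h1 : ∑ β ∈ S, f β = f y0 * ∑ β ∈ S, f β := by
      conv_lhs => rw [← himg]
      rw [Finset.sum_image hinj, Finset.mul_sum]
      refine Finset.sum_congr rfl fun β hβ => ?_
      have h2 : f (β + y0) = f (σ β) := by
        have h3 : β + y0 = σ β + (β + y0 - σ β) := by ring
        have h4 : f (β + y0 - σ β) = 1 := (hone _).mp (hy _ (hσ2 β hβ))
        rw [h3]
        show f (σ β + (β + y0 - σ β)) = f (σ β)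
        have h5 : f (σ β + (β + y0 - σ β)) = f (σ β) * f (β + y0 - σ β) := hadd _ _
        rw [h5, h4, mul_one]
      rw [← h2]
      have h6 : f (β + y0) = f β * f y0 := hadd _ _
      rw [h6, mul_comm]
    have h2 : (1 - f y0) * ∑ β ∈ S, f β = 0 := by
      rw [_root_.sub_mul, one_mul, ← h1, sub_self]
    rcases mul_eq_zero.mp h2 with h3 | h3
    · exact absurd (sub_eq_zero.mp h3).symm hne1
    · exact h3

end tr


end Pool.Agent.HSG
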