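import Pool.Agent.Lib_helper84.HSG.DefsB
import Pool.Agent.Lib_helper84.HSGF.GD1
import Pool.Agent.Lib_helper84.HSGF.GD2

/-! # HSG block GE2 (CEL-b), helper16: lattice points in boxes (cites GD) -/

namespace Pool.Agent.HSG

open Complex MeasureTheory Filter Topology UpperHalfPlane NumberField IsDedekindDomain
open scoped nonZeroDivisors MatrixGroups ENNReal

variable {K : Type} [Field K] [NumberField K]

section tr
variable [IsTotallyReal K]

theorem ge2_icc (x r : ℝ) (hr : 0 ≤ r) :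
    ((Finset.Icc ⌈x - r⌉ ⌊x + r⌋).card : ℝ) ≤ 2 * r + 1 := by
  rw [Int.card_Icc]
  have h1 : (⌊x + r⌋ : ℝ) ≤ x + r := Int.floor_le _
  have h2 : x - r ≤ (⌈x - r⌉ : ℝ) := Int.le_ceil _
  rcases le_or_gt (⌊x + r⌋ + 1 - ⌈x - r⌉) 0 with h | h
  · rw [Int.toNat_of_nonpos h]
    push_cast
    linarith
  · have h3 : (((⌊x + r⌋ + 1 - ⌈x - r⌉).toNat : ℕ) : ℝ) = ((⌊x + r⌋ + 1 - ⌈x - r⌉ : ℤ) : ℝ) := by
      have := Int.toNat_of_nonneg h.le
      exact_mod_cast this
    rw [h3]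
    push_cast
    linarith

/-- at most `C (1+T)^d` elements of an ideal in a box of size `T` -/
theorem cnt_box (a : Id K) : ∃ C : ℝ, 0 < C ∧ ∀ (t : Em K → ℝ) (T : ℝ), 0 ≤ T → ∀ s : Finset K,
    (∀ x ∈ s, x ∈ a.m ∧ ∀ w : Em K, |w x - t w| ≤ T) → (s.card : ℝ) ≤ C * (1 + T) ^ dg K := by
  classical
  obtain ⟨e, -, hsp, hli, -⟩ := lat_basis a
  have : Nonempty (Em K) := Fintype.card_pos_iff.1 (by rw [card_em]; exact dg_pos)
  let b : Module.Basis (Em K) ℝ (Em K → ℝ) := basisOfLinearIndependentOfCardEqFinrank hli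
    (Module.finrank_fintype_fun_eq_card (R := ℝ) (η := Em K)).symm
  have hb : ∀ i, b i = em (e i) := fun i => by
    simp [b]
  let f : (Em K → ℝ) →ₗ[ℝ] (Em K → ℝ) := b.equivFun.toLinearMap
  let g : (Em K → ℝ) →L[ℝ] (Em K → ℝ) := LinearMap.toContinuousLinearMap f
  set D : ℝ := 2 * ‖g‖ + 1 with hD
  have hD1 : 1 ≤ D := by
    have := norm_nonneg g
    rw [hD]
    linarith
  refine ⟨D ^ dg K, by positivity, fun t T hT s hs => ?_⟩
  have hc : ∀ x ∈ s, ∃ c : Em K → ℤ, x = ∑ i, (c i : K) * e i := fun x hx => hsp x (hs x hx).1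
  choose! c hc using hc
  have hem : ∀ x ∈ s, b.equivFun (em x) = fun i => (c x i : ℝ) := by
    intro x hx
    have h1 : em x = ∑ i, (c x i : ℝ) • b i := by
      funext w
      rw [Finset.sum_apply]
      conv_lhs => rw [em, hc x hx]
      rw [map_sum]
      refine Finset.sum_congr rfl fun i _ => ?_
      rw [map_mul, map_intCast, hb, Pi.smul_apply, smul_eq_mul, em]
    rw [h1]
    rw [← Module.Basis.equivFun_symm_apply b (fun i => (c x i : ℝ)),
      LinearEquiv.apply_symm_apply]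
  have hbd : ∀ x ∈ s, ∀ i, |(c x i : ℝ) - g t i| ≤ ‖g‖ * T := by
    intro x hx i
    have h1 : ‖em x - t‖ ≤ T := by
      rw [pi_norm_le_iff_of_nonneg hT]
      intro w
      rw [Real.norm_eq_abs]
      exact (hs x hx).2 w
    have h2 : g (em x) = fun i => (c x i : ℝ) := hem x hx
    have h3 : ‖g (em x - t)‖ ≤ ‖g‖ * T :=
      (g.le_opNorm _).trans (mul_le_mul_of_nonneg_left h1 (norm_nonneg _))
    have h4 : |g (em x - t) i| ≤ ‖g‖ * T := by
      rw [← Real.norm_eq_abs]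
      exact (norm_le_pi_norm _ i).trans h3
    rw [map_sub, h2, Pi.sub_apply] at h4
    exact h4
  let B : Finset (Em K → ℤ) := Fintype.piFinset fun i =>
    Finset.Icc ⌈g t i - ‖g‖ * T⌉ ⌊g t i + ‖g‖ * T⌋
  have h1 : s.card ≤ B.card := by
    refine Finset.card_le_card_of_injOn c ?_ ?_
    · intro x hx
      rw [Finset.mem_coe, Fintype.mem_piFinset]
      intro i
      have h2 := abs_le.1 (hbd x hx i)
      rw [Finset.mem_Icc, Int.ceil_le, Int.le_floor]
      constructor <;> linarith [h2.1, h2.2]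
    · intro x hx y hy hxy
      rw [hc x hx, hc y hy, hxy]
  have h2 : (B.card : ℝ) ≤ (2 * (‖g‖ * T) + 1) ^ dg K := by
    rw [Fintype.card_piFinset]
    push_cast
    calc ∏ i : Em K, ((Finset.Icc ⌈g t i - ‖g‖ * T⌉ ⌊g t i + ‖g‖ * T⌋).card : ℝ) ≤
        ∏ _i : Em K, (2 * (‖g‖ * T) + 1) :=
          Finset.prod_le_prod (fun _ _ => Nat.cast_nonneg _) fun i _ =>
            ge2_icc _ _ (mul_nonneg (norm_nonneg g) hT)
      _ = (2 * (‖g‖ * T) + 1) ^ dg K := by
          rw [Finset.prod_const, Finset.card_univ, card_em]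
  calc (s.card : ℝ) ≤ B.card := by exact_mod_cast h1
    _ ≤ (2 * (‖g‖ * T) + 1) ^ dg K := h2
    _ ≤ (D * (1 + T)) ^ dg K := by
        refine pow_le_pow_left₀ (by have := mul_nonneg (norm_nonneg g) hT; linarith) ?_ _
        have := norm_nonneg g
        rw [hD]
        nlinarith [mul_nonneg this hT]
    _ = D ^ dg K * (1 + T) ^ dg K := mul_pow _ _ _

theorem box_finite (a : Id K) (T : ℝ) :
    {x : K | x ∈ a.m ∧ ∀ w : Em K, |w x| ≤ T}.Finite := by
  by_contra hcon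
  have hinf : {x : K | x ∈ a.m ∧ ∀ w : Em K, |w x| ≤ T}.Infinite := hcon
  obtain ⟨C, hC, h⟩ := cnt_box a
  obtain ⟨n, hn⟩ := exists_nat_gt (C * (1 + max T 0) ^ dg K)
  obtain ⟨s, hs, hcard⟩ := hinf.exists_subset_card_eq n
  have h1 := h 0 (max T 0) (le_max_right _ _) s (fun x hx => ⟨(hs hx).1, fun w => by
    rw [Pi.zero_apply, sub_zero]
    exact ((hs hx).2 w).trans (le_max_left _ _)⟩)
  rw [hcard] at h1
  linarith

end tr

end Pool.Agent.HSG
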