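import Pool.Agent.Lib_helper84.HSG.DefsB
import Pool.Agent.Lib_helper84.HSGF.GA1
import Pool.Agent.Lib_helper84.HSGF.GA3
import Pool.Agent.Lib_helper84.HSGF.GD1
import Pool.Agent.Lib_helper84.HSGF.GE2

/-! # Block GF1: units of a totally real field -/

namespace Pool.Agent.HSG

open Complex MeasureTheory Filter Topology UpperHalfPlane NumberField IsDedekindDomain
open scoped nonZeroDivisors MatrixGroups ENNReal

variable {K : Type} [Field K] [NumberField K]

section tr
variable [IsTotallyReal K]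

theorem lg_sum {ε : Kˣ} (hε : ε ∈ Uu K) : ∑ w, lg ε w = 0 := by
  have h1 : prI ε = 1 := hε
  have h2 : nI (prI ε) = 1 := by rw [h1, nI_one]
  rw [nI_prI] at h2
  unfold lg
  rw [← Real.log_prod, h2, Real.log_one]
  intro w _
  rw [abs_ne_zero]
  exact (map_ne_zero w).mpr ε.ne_zero

theorem lg_ker {ε : Kˣ} (hε : ε ∈ Uu K) (h : ∀ w, lg ε w = 0) : ε = 1 ∨ ε = -1 := by
  have h0 : 0 < Fintype.card (Em K) := by
    rw [card_em]
    exact dg_pos
  obtain ⟨w⟩ := Fintype.card_pos_iff.mp h0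
  have h1 : |w (ε : K)| = 1 := by
    have h2 : 0 < |w (ε : K)| := abs_pos.mpr ((map_ne_zero w).mpr ε.ne_zero)
    rw [← Real.exp_log h2]
    have h3 := h w
    unfold lg at h3
    rw [h3, Real.exp_zero]
  rcases eq_or_eq_neg_of_abs_eq h1 with h2 | h2
  · left
    ext
    apply w.injective
    rw [h2]
    simp
  · right
    ext
    apply w.injective
    rw [h2]
    simp

theorem uu_finite (T : ℝ) : {ε : Kˣ | ε ∈ Uu K ∧ ∀ w, |lg ε w| ≤ T}.Finite := by
  have h := box_finite (1 : Id K) (Real.exp T)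
  apply Set.Finite.of_finite_image (f := fun ε : Kˣ => (ε : K)) (h.subset ?_)
    (fun a _ b _ hab => Units.ext hab)
  rintro _ ⟨ε, ⟨h1, h2⟩, rfl⟩
  refine ⟨?_, fun w => ?_⟩
  · rw [mem_m_one]
    obtain ⟨u, hu⟩ := (mem_uu ε).mp h1
    exact ⟨u, hu⟩
  · have h3 : 0 < |w (ε : K)| := abs_pos.mpr ((map_ne_zero w).mpr ε.ne_zero)
    rw [← Real.exp_log h3]
    apply Real.exp_le_exp.mpr
    exact (le_abs_self _).trans (h2 w)

/-- the place of a real embedding -/
noncomputable def gf1_pl (w : Em K) : InfinitePlace K :=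
  InfinitePlace.mk (Complex.ofRealHom.comp w)

theorem gf1_pl_apply (w : Em K) (x : K) : gf1_pl w x = |w x| := by
  unfold gf1_pl
  rw [InfinitePlace.apply]
  simp

/-- the real embedding of a place -/
noncomputable def gf1_em (v : InfinitePlace K) : Em K :=
  InfinitePlace.embedding_of_isReal (IsTotallyReal.isReal v)

theorem gf1_em_pl (w : Em K) : gf1_em (gf1_pl w) = w := by
  ext x
  have h1 : ComplexEmbedding.IsReal (Complex.ofRealHom.comp w) := by
    rw [ComplexEmbedding.isReal_iff]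
    ext y
    simp [ComplexEmbedding.conjugate]
  have h2 := InfinitePlace.embedding_mk_eq_of_isReal h1
  have h3 : ((gf1_em (gf1_pl w) x : ℝ) : ℂ) = ((w x : ℝ) : ℂ) := by
    unfold gf1_em
    rw [InfinitePlace.embedding_of_isReal_apply]
    unfold gf1_pl
    rw [h2]
    rfl
  exact_mod_cast h3

omit [IsTotallyReal K] in
/-- approximation by the unit lattice -/
theorem gf1_appr : ∃ R : ℝ, 0 ≤ R ∧
    ∀ t : Units.dirichletUnitTheorem.logSpace K, ∃ u : (𝓞 K)ˣ, ∀ v,
      |t v - Units.logEmbedding K (Additive.ofMul u) v| ≤ R := by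
  classical
  let b := (Units.basisUnitLattice K).ofZLatticeBasis ℝ (Units.unitLattice K)
  refine ⟨∑ i, ‖b i‖, Finset.sum_nonneg fun i _ => norm_nonneg _, fun t => ?_⟩
  have h1 : (ZSpan.floor b t : Units.dirichletUnitTheorem.logSpace K) ∈ Units.unitLattice K := by
    have h2 := (ZSpan.floor b t).2
    have h3 : Submodule.span ℤ (Set.range b) ≤ Units.unitLattice K :=
      (Module.Basis.ofZLatticeBasis_span ℝ (Units.unitLattice K)
        (Units.basisUnitLattice K)).le
    exact h3 h2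
  obtain ⟨u, hu, hu2⟩ := h1
  refine ⟨Additive.toMul u, fun v => ?_⟩
  have h4 : Units.logEmbedding K (Additive.ofMul (Additive.toMul u)) =
      (ZSpan.floor b t : Units.dirichletUnitTheorem.logSpace K) := hu2
  rw [h4]
  exact (norm_le_pi_norm (t - (ZSpan.floor b t : Units.dirichletUnitTheorem.logSpace K)) v).trans
    (ZSpan.norm_fract_le b t)

theorem bal : ∃ R0 : ℝ, ∀ u : Em K → ℝ, ∃ ε ∈ Uu K, ∀ w,
    |u w + 2 * lg ε w - (∑ v, u v) / (dg K : ℝ)| ≤ R0 := by
  classical
  obtain ⟨R, hR0, hR⟩ := gf1_appr (K := K)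
  refine ⟨2 * ((dg K : ℝ) + 1) * R, fun u => ?_⟩
  set mu : ℝ := (∑ v, u v) / (dg K : ℝ) with hmu
  have hd : (0 : ℝ) < (dg K : ℝ) := by exact_mod_cast dg_pos (K := K)
  obtain ⟨e, he⟩ := hR (fun v => (mu - u (gf1_em v.1)) / 2)
  -- the unit as an element of `Kˣ`
  let ε : Kˣ := Units.map (algebraMap (𝓞 K) K : 𝓞 K →* K) e
  have hε : ε ∈ Uu K := by
    rw [mem_uu]
    exact ⟨e, rfl⟩
  have hval : ∀ w : Em K, lg ε w = Real.log (gf1_pl w ((e : 𝓞 K) : K)) := by
    intro w
    rw [gf1_pl_apply]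
    rfl
  have hne : ∀ w : Em K, gf1_pl w ≠ Units.dirichletUnitTheorem.w₀ →
      |u w + 2 * lg ε w - mu| ≤ 2 * R := by
    intro w hw
    have h1 := he ⟨gf1_pl w, hw⟩
    rw [Units.dirichletUnitTheorem.logEmbedding_component] at h1
    simp only [gf1_em_pl] at h1
    rw [InfinitePlace.mult_isReal ⟨gf1_pl w, IsTotallyReal.isReal _⟩, Nat.cast_one,
      one_mul] at h1
    have h2 : lg ε w = Real.log (gf1_pl w ((e : 𝓞 K) : K)) := hval w
    rw [← h2] at h1
    have h3 : u w + 2 * lg ε w - mu = -(2 * ((mu - u w) / 2 - lg ε w)) := by ring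
    rw [h3, abs_neg, abs_mul, abs_two]
    linarith
  refine ⟨ε, hε, fun w => ?_⟩
  have hcard : ((Fintype.card (Em K) : ℕ) : ℝ) = (dg K : ℝ) := by rw [card_em]
  have hsum : ∑ v, (u v + 2 * lg ε v - mu) = 0 := by
    rw [Finset.sum_sub_distrib, Finset.sum_add_distrib, ← Finset.mul_sum, lg_sum hε,
      Finset.sum_const, Finset.card_univ, nsmul_eq_mul, hcard, hmu]
    field_simp
    ring
  by_cases hw : gf1_pl w = Units.dirichletUnitTheorem.w₀
  · have h1 : u w + 2 * lg ε w - mu = -∑ v ∈ Finset.univ.erase w, (u v + 2 * lg ε v - mu) := by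
      rw [← Finset.add_sum_erase Finset.univ _ (Finset.mem_univ w)] at hsum
      linarith
    rw [h1, abs_neg]
    refine (Finset.abs_sum_le_sum_abs _ _).trans ?_
    have h2 : ∀ v ∈ Finset.univ.erase w, |u v + 2 * lg ε v - mu| ≤ 2 * R := by
      intro v hv
      apply hne
      intro hv2
      apply (Finset.ne_of_mem_erase hv)
      rw [← gf1_em_pl v, ← gf1_em_pl w, hv2, hw]
    refine (Finset.sum_le_sum h2).trans ?_
    rw [Finset.sum_const, nsmul_eq_mul]
    have h3 : ((Finset.univ.erase w).card : ℝ) ≤ (dg K : ℝ) := by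
      rw [← hcard]
      exact_mod_cast (Finset.card_le_univ _)
    have h4 : ((Finset.univ.erase w).card : ℝ) * (2 * R) ≤ (dg K : ℝ) * (2 * R) :=
      mul_le_mul_of_nonneg_right h3 (by positivity)
    nlinarith
  · refine (hne w hw).trans ?_
    nlinarith

end tr


end Pool.Agent.HSG
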