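import Pool.Agent.Lib_helper84.HSG.DefsB
import Pool.Agent.Lib_helper84.HSGF.GA3
import Pool.Agent.Lib_helper84.HSGF.GB1
import Pool.Agent.Lib_helper84.HSGF.GB2
import Pool.Agent.Lib_helper84.HSGF.GD1
import Pool.Agent.Lib_helper84.HSGF.GI1

/-! # HSG, block GJ1: forms -/

namespace Pool.Agent.HSG

open Complex MeasureTheory Filter Topology UpperHalfPlane NumberField IsDedekindDomain
open scoped nonZeroDivisors MatrixGroups ENNReal

variable {K : Type} [Field K] [NumberField K]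

theorem gj_row_ne (g : GL (Fin 2) K) (i : Fin 2) : (g i : Fin 2 → K) ≠ 0 := by
  intro h
  have h1 : (g : Matrix (Fin 2) (Fin 2) K).det = 0 := by
    apply Matrix.det_eq_zero_of_row_eq_zero i
    intro j
    exact congrFun h j
  have h2 : (g : Matrix (Fin 2) (Fin 2) K).det ≠ 0 := by
    rw [← Matrix.GeneralLinearGroup.val_det_apply]
    exact Units.ne_zero _
  exact h2 h1

theorem gj_NY_pos (z : Em K → ℍ) : 0 < NY z := Finset.prod_pos fun w _ => (z w).im_pos

theorem gj_NY_act (g : GL (Fin 2) K) (hg : ∀ w : Em K, 0 < w (g : Matrix (Fin 2) (Fin 2) K).det)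
    (z : Em K → ℍ) :
    NY (g • z) = (∏ w : Em K, w (g : Matrix (Fin 2) (Fin 2) K).det) * NY z /
      (∏ w, ‖lz (g 1) z w‖) ^ 2 := by
  simp only [NY]
  rw [← Finset.prod_mul_distrib, ← Finset.prod_pow, ← Finset.prod_div_distrib]
  exact Finset.prod_congr rfl fun w _ => im_act g hg z w

theorem gj_mul_one (L : Lat K) : L.mul 1 = L := by
  have h := one_smul (GL (Fin 2) K) L
  have h1 : (1 : GL (Fin 2) K) • L = L.mul 1⁻¹ := rfl
  rw [h1, inv_one] at h
  exact h

theorem gj_act_mul (g : GL (Fin 2) K) (L : Lat K) : (g • L).mul g = L := by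
  have h1 : g • L = L.mul g⁻¹ := rfl
  rw [h1, ← mul_mul, inv_mul_cancel, gj_mul_one]

section tr
variable [IsTotallyReal K]

theorem gj_det (g : GL (Fin 2) K) (hg : ∀ w : Em K, 0 < w (g : Matrix (Fin 2) (Fin 2) K).det) :
    nI (prI (Matrix.GeneralLinearGroup.det g)) =
      ∏ w : Em K, w (g : Matrix (Fin 2) (Fin 2) K).det := by
  rw [nI_prI]
  refine Finset.prod_congr rfl fun w _ => ?_
  rw [Matrix.GeneralLinearGroup.val_det_apply, abs_of_pos (hg w)]

theorem gj_act {k : ℕ} {F : (Em K → ℍ) → Lat K → ℂ} (hF : IsForm k F) (g : GL (Fin 2) K)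
    (hg : ∀ w : Em K, 0 < w (g : Matrix (Fin 2) (Fin 2) K).det) (z : Em K → ℍ) (L : Lat K) :
    PF k F (g • z) (g • L) = (∏ w, (lz (g 1) z w / (‖lz (g 1) z w‖ : ℂ)) ^ k) * PF k F z L := by
  have hD : 0 < ∏ w : Em K, w (g : Matrix (Fin 2) (Fin 2) K).det :=
    Finset.prod_pos fun w _ => hg w
  have hP : 0 < (∏ w, ‖lz (g 1) z w‖) :=
    Finset.prod_pos fun w _ => norm_pos_iff.mpr (lz_ne (gj_row_ne g 1) z w)
  have h1 : nI (g • L).det = (∏ w : Em K, w (g : Matrix (Fin 2) (Fin 2) K).det)⁻¹ * nI L.det := by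
    have h2 : (g • L) = L.mul g⁻¹ := rfl
    rw [h2, det_mul, nI_mul, map_inv, map_inv, nI_inv, gj_det g hg]
  have h2 : NY (g • z) * nI (g • L).det = NY z * nI L.det / (∏ w, ‖lz (g 1) z w‖) ^ 2 := by
    rw [gj_NY_act g hg, h1]
    have := hD.ne'
    field_simp
  have h3 : (NY (g • z) * nI (g • L).det) ^ ((k : ℝ) / 2) =
      (NY z * nI L.det) ^ ((k : ℝ) / 2) / (∏ w, ‖lz (g 1) z w‖) ^ k := by
    rw [h2, Real.div_rpow (mul_nonneg (gj_NY_pos z).le (nI_pos _).le) (by positivity),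
      ← Real.rpow_natCast _ 2, ← Real.rpow_mul hP.le]
    congr 1
    rw [show ((2 : ℕ) : ℝ) * ((k : ℝ) / 2) = (k : ℝ) by push_cast; ring, Real.rpow_natCast]
  unfold PF
  rw [hF.slash g hg z (g • L), gj_act_mul, h3]
  push_cast
  simp only [div_pow]
  rw [Finset.prod_div_distrib, Finset.prod_pow, Finset.prod_pow]
  have h4 : ((∏ w, (‖lz (g 1) z w‖ : ℂ)) ^ k) ≠ 0 := by
    apply pow_ne_zero
    rw [← Complex.ofReal_prod]
    exact_mod_cast hP.ne'
  field_simp

theorem gj_unit (g : GL (Fin 2) K) (z : Em K → ℍ) (k : ℕ) :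
    ‖∏ w : Em K, (lz (g 1) z w / (‖lz (g 1) z w‖ : ℂ)) ^ k‖ = 1 := by
  rw [norm_prod]
  refine Finset.prod_eq_one fun w _ => ?_
  rw [norm_pow, norm_div, Complex.norm_real, norm_norm, div_self, one_pow]
  exact norm_ne_zero_iff.mpr (lz_ne (gj_row_ne g 1) z w)

omit [NumberField K] [IsTotallyReal K] in
theorem gj_sl_det (g : SL(2, K)) (w : Em K) :
    0 < w (((g : GL (Fin 2) K)) : Matrix (Fin 2) (Fin 2) K).det := by
  have h : (((g : GL (Fin 2) K)) : Matrix (Fin 2) (Fin 2) K).det = 1 := g.det_coe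
  rw [h, map_one]
  exact one_pos

/-- the automorphy factor -/
theorem form_act {k : ℕ} {F : (Em K → ℍ) → Lat K → ℂ} (hF : IsForm k F) (g : SL(2, K))
    (z : Em K → ℍ) (L : Lat K) :
    PF k F (g • z) (g • L) = (∏ w, (lz (((g : GL (Fin 2) K)) 1) z w /
      (‖lz (((g : GL (Fin 2) K)) 1) z w‖ : ℂ)) ^ k) * PF k F z L :=
  gj_act hF (g : GL (Fin 2) K) (fun w => gj_sl_det g w) z L

theorem pf_norm_act {k : ℕ} {F : (Em K → ℍ) → Lat K → ℂ} (hF : IsForm k F) (g : SL(2, K))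
    (z : Em K → ℍ) (L : Lat K) : ‖PF k F (g • z) (g • L)‖ = ‖PF k F z L‖ := by
  rw [form_act hF, norm_mul, gj_unit, one_mul]

/-- the product of `P_F` and `conj P_F'` is invariant under matrices of totally positive
determinant -/
theorem pf_gl {k : ℕ} {F F' : (Em K → ℍ) → Lat K → ℂ} (hF : IsForm k F) (hF' : IsForm k F')
    (g : GL (Fin 2) K) (hg : ∀ w : Em K, 0 < w (g : Matrix (Fin 2) (Fin 2) K).det)
    (z : Em K → ℍ) (L L' : Lat K) :
    PF k F (g • z) (g • L) * starRingEnd ℂ (PF k F' (g • z) (g • L')) =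
      PF k F z L * starRingEnd ℂ (PF k F' z L') := by
  rw [gj_act hF g hg, gj_act hF' g hg, map_mul]
  set ε := ∏ w : Em K, (lz (g 1) z w / (‖lz (g 1) z w‖ : ℂ)) ^ k with hε
  have h1 : ε * starRingEnd ℂ ε = 1 := by
    rw [Complex.mul_conj, Complex.normSq_eq_norm_sq, hε, gj_unit]
    simp
  calc ε * PF k F z L * (starRingEnd ℂ ε * starRingEnd ℂ (PF k F' z L')) =
      (ε * starRingEnd ℂ ε) * (PF k F z L * starRingEnd ℂ (PF k F' z L')) := by ring
    _ = _ := by rw [h1, one_mul]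

theorem pf_sm {k : ℕ} {F : (Em K → ℍ) → Lat K → ℂ} (hF : IsForm k F) (a : Id K)
    (z : Em K → ℍ) (L : Lat K) : PF k F z (L.sm a) = PF k F z L := by
  have ha := nI_pos a
  have h1 : NY z * nI (L.sm a).det = nI a ^ 2 * (NY z * nI L.det) := by
    rw [det_sm, nI_mul, pow_two, nI_mul]
    ring
  have h2 : (NY z * nI (L.sm a).det) ^ ((k : ℝ) / 2) =
      nI a ^ k * (NY z * nI L.det) ^ ((k : ℝ) / 2) := by
    rw [h1, Real.mul_rpow (by positivity) (mul_nonneg (gj_NY_pos z).le (nI_pos _).le),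
      ← Real.rpow_natCast _ 2, ← Real.rpow_mul ha.le,
      show ((2 : ℕ) : ℝ) * ((k : ℝ) / 2) = (k : ℝ) by push_cast; ring, Real.rpow_natCast]
  unfold PF
  rw [hF.scal, h2]
  have h3 : ((nI a ^ k : ℝ) : ℂ) ≠ 0 := by
    exact_mod_cast (pow_pos ha k).ne'
  rw [Complex.ofReal_mul]
  field_simp

omit [IsTotallyReal K] in
theorem gj_NY_cont : Continuous (fun z : Em K → ℍ => NY z) := by
  unfold NY
  exact continuous_finset_prod _ fun w _ => UpperHalfPlane.continuous_im.comp (continuous_apply w)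

theorem pf_cont {k : ℕ} {F : (Em K → ℍ) → Lat K → ℂ} (hF : IsForm k F) (L : Lat K) :
    Continuous (fun z => PF k F z L) := by
  have h1 : Continuous (fun z : Em K → ℍ => (fun w => (z w : ℂ) : Em K → ℂ)) :=
    continuous_pi fun w => UpperHalfPlane.continuous_coe.comp (continuous_apply w)
  have h2 := (hF.holo L).continuousOn.comp_continuous h1 (fun z w => (z w).im_pos)
  have h3 : (fun z : Em K → ℍ => F (fun w => ofComplex ((z w : ℍ) : ℂ)) L) = fun z => F z L := by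
    funext z
    simp only [UpperHalfPlane.ofComplex_apply]
  have h4 : Continuous (fun z : Em K → ℍ => F z L) := by
    rw [← h3]
    exact h2
  unfold PF
  refine h4.mul (Complex.continuous_ofReal.comp ?_)
  refine Continuous.rpow_const (gj_NY_cont.mul continuous_const) ?_
  intro z
  left
  exact (mul_pos (gj_NY_pos z) (nI_pos _)).ne'

theorem pf_meas {k : ℕ} {F : (Em K → ℍ) → Lat K → ℂ} (hF : IsForm k F) :
    Measurable (fun x : XX K => PF k F x.1 x.2) := by
  refine measurable_from_prod_countable_left fun L => ?_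
  exact (pf_cont hF L).measurable

theorem pf_phW (k : ℕ) (F : (Em K → ℍ) → Lat K → ℂ) (z : Em K → ℍ) (L : Lat K) :
    PF k F z L = ((nI L.det ^ ((k : ℝ) / 2) : ℝ) : ℂ) *
      phW k (fun y : Em K → ℂ => F (fun w => ofComplex (y w)) L) z := by
  unfold PF phW
  simp only [UpperHalfPlane.ofComplex_apply]
  rw [Real.mul_rpow (gj_NY_pos z).le (nI_pos _).le, NY,
    ← Real.finset_prod_rpow _ _ fun w _ => (z w).im_pos.le]
  push_cast
  ring

theorem form_lin {k : ℕ} {ι : Type} (s : Finset ι) (c : ι → ℂ)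
    {F : ι → (Em K → ℍ) → Lat K → ℂ} (hF : ∀ i ∈ s, IsForm k (F i)) :
    IsForm k (fun z L => ∑ i ∈ s, c i * F i z L) := by
  refine ⟨?_, ?_, ?_, ?_⟩
  · intro L
    refine DifferentiableOn.fun_sum fun i hi => ?_
    exact ((hF i hi).holo L).const_mul (c i)
  · intro g hg z L
    rw [Finset.mul_sum]
    refine Finset.sum_congr rfl fun i hi => ?_
    rw [(hF i hi).slash g hg z L]
    ring
  · intro a z L
    rw [Finset.mul_sum]
    refine Finset.sum_congr rfl fun i hi => ?_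
    rw [(hF i hi).scal a z L]
    ring
  · intro L
    choose! C hC using fun i (hi : i ∈ s) => (hF i hi).bdd L
    refine ⟨∑ i ∈ s, ‖c i‖ * C i, fun z => ?_⟩
    have hy : 0 ≤ NY z ^ ((k : ℝ) / 2) := Real.rpow_nonneg (gj_NY_pos z).le _
    calc ‖∑ i ∈ s, c i * F i z L‖ * NY z ^ ((k : ℝ) / 2) ≤
        (∑ i ∈ s, ‖c i * F i z L‖) * NY z ^ ((k : ℝ) / 2) :=
          mul_le_mul_of_nonneg_right (norm_sum_le _ _) hy
      _ = ∑ i ∈ s, ‖c i‖ * (‖F i z L‖ * NY z ^ ((k : ℝ) / 2)) := by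
          rw [Finset.sum_mul]
          refine Finset.sum_congr rfl fun i _ => ?_
          rw [norm_mul]
          ring
      _ ≤ ∑ i ∈ s, ‖c i‖ * C i :=
          Finset.sum_le_sum fun i hi => mul_le_mul_of_nonneg_left (hC i hi z) (norm_nonneg _)

end tr

end Pool.Agent.HSG

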