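import Pool.Agent.Lib_helper84.HSG.DefsB
import Pool.Agent.Lib_helper84.HSGF.GA3
import Pool.Agent.Lib_helper84.HSGF.GB2
import Pool.Agent.Lib_helper84.HSGF.GC1
import Pool.Agent.Lib_helper84.HSGF.GC2
import Pool.Agent.Lib_helper84.HSGF.GG
import Pool.Agent.Lib_helper84.HSGF.GJ1

/-!
# HS Part II, block GJ2: bounds for forms, Hecke operators, the trivial bound
-/

namespace Pool.Agent.HSG

open Complex MeasureTheory Filter Topology UpperHalfPlane NumberField IsDedekindDomain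
open scoped nonZeroDivisors MatrixGroups ENNReal

variable {K : Type} [Field K] [NumberField K]

section tr
variable [IsTotallyReal K]

omit [IsTotallyReal K] in
theorem gj2_NY (z : Em K → ℍ) : 0 < NY z := Finset.prod_pos fun w _ => (z w).im_pos

/-- a bound for one lattice -/
theorem gj2_one {k : ℕ} {F : (Em K → ℍ) → Lat K → ℂ} (hF : IsForm k F) (L : Lat K) :
    ∃ C : ℝ, ∀ z, ‖PF k F z L‖ ≤ C := by
  obtain ⟨C, hC⟩ := hF.bdd L
  refine ⟨C * nI L.det ^ ((k : ℝ) / 2), fun z => ?_⟩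
  have h1 := nI_pos L.det
  have h2 := gj2_NY z
  rw [PF, norm_mul, Complex.norm_real, Real.norm_of_nonneg (Real.rpow_nonneg (mul_pos h2 h1).le _),
    Real.mul_rpow h2.le h1.le, ← mul_assoc]
  exact mul_le_mul_of_nonneg_right (hC z) (Real.rpow_nonneg h1.le _)

/-- multiplication by a totally positive element -/
theorem gj2_tp {k : ℕ} {F : (Em K → ℍ) → Lat K → ℂ} (hF : IsForm k F) {t : Kˣ} (ht : t ∈ Kp K)
    (b : Id K) {C : ℝ} (hC : ∀ z, ‖PF k F z (Lat.ds b 1)‖ ≤ C) (z : Em K → ℍ) :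
    ‖PF k F z (Lat.ds (prI t * b) 1)‖ ≤ C := by
  have hdet : ((dgm t : GL (Fin 2) K) : Matrix (Fin 2) (Fin 2) K).det = (t : K) := by
    show (!![(t : K), 0; 0, 1] : Matrix (Fin 2) (Fin 2) K).det = _
    rw [Matrix.det_fin_two_of]
    ring
  have hg : ∀ w : Em K, 0 < w ((dgm t : GL (Fin 2) K) : Matrix (Fin 2) (Fin 2) K).det := by
    intro w
    rw [hdet]
    exact ht w
  have h1 := pf_gl hF hF (dgm t) hg z (Lat.ds (prI t * b) 1) (Lat.ds (prI t * b) 1)
  have h2 : (dgm t : GL (Fin 2) K) • (Lat.ds (prI t * b) 1) = Lat.ds b 1 := by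
    show (Lat.ds (prI t * b) 1).mul (dgm t)⁻¹ = _
    rw [← ds_dgm, ← mul_mul, mul_inv_cancel]
    have h3 : (1 : GL (Fin 2) K) • Lat.ds b 1 = Lat.ds b 1 := one_smul _ _
    have h4 : (1 : GL (Fin 2) K) • Lat.ds b 1 = (Lat.ds b 1).mul 1⁻¹ := rfl
    rw [h4, inv_one] at h3
    exact h3
  rw [h2, Complex.mul_conj, Complex.mul_conj, Complex.ofReal_inj, Complex.normSq_eq_norm_sq,
    Complex.normSq_eq_norm_sq] at h1
  have h3 := hC (dgm t • z)
  have h4 : ‖PF k F z (Lat.ds (prI t * b) 1)‖ = ‖PF k F (dgm t • z) (Lat.ds b 1)‖ := by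
    rw [← abs_of_nonneg (norm_nonneg (PF k F z (Lat.ds (prI t * b) 1))),
      ← abs_of_nonneg (norm_nonneg (PF k F (dgm t • z) (Lat.ds b 1)))]
    exact (sq_eq_sq_iff_abs_eq_abs _ _).1 h1.symm
  rw [h4]
  exact h3

theorem pf_bdd {k : ℕ} {F : (Em K → ℍ) → Lat K → ℂ} (hF : IsForm k F) :
    ∃ C : ℝ, 0 ≤ C ∧ ∀ z L, ‖PF k F z L‖ ≤ C := by
  have : Finite (NCl K) := ncl_finite
  have : Fintype (NCl K) := Fintype.ofFinite _
  choose C hC using fun κ : NCl K => gj2_one hF (Lat.ds κ.out 1)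
  refine ⟨∑ κ, |C κ|, Finset.sum_nonneg fun κ _ => abs_nonneg _, fun z L => ?_⟩
  have hv : (![0, 1] : Fin 2 → K) ≠ 0 := by
    intro h
    have := congrFun h 1
    simp at this
  obtain ⟨g, -, hg⟩ := split L hv
  rw [← pf_norm_act hF g z L, hg]
  generalize L.det / L.av ![0, 1] = b
  generalize L.av ![0, 1] = a
  have e : Lat.ds b a = (Lat.ds (b / a) 1).sm a := by
    rw [ds_sm, mul_div_cancel, mul_one]
  rw [e, pf_sm hF]
  set κ : NCl K := QuotientGroup.mk (b / a) with hκ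
  have h1 : κ.out⁻¹ * (b / a) ∈ Pp K := by
    rw [← QuotientGroup.eq, hκ]
    exact Quotient.out_eq' _
  obtain ⟨t, ht, ht'⟩ := (pp_iff _).1 h1
  have h2 : b / a = prI t * κ.out := by
    rw [ht', mul_comm, mul_inv_cancel_left]
  rw [h2]
  refine (gj2_tp hF ht κ.out (hC κ) (g • z)).trans ((le_abs_self _).trans ?_)
  exact Finset.single_le_sum (f := fun κ => |C κ|) (fun κ _ => abs_nonneg _) (Finset.mem_univ κ)

omit [IsTotallyReal K] in
theorem gj2_mul_one (L : Lat K) : L.mul 1 = L := by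
  have h3 : (1 : GL (Fin 2) K) • L = L := one_smul _ _
  have h4 : (1 : GL (Fin 2) K) • L = L.mul 1⁻¹ := rfl
  rw [h4, inv_one] at h3
  exact h3

/-- the sublattices of `L g` -/
theorem gj2_mul (p : Pr K) (L : Lat K) (g : GL (Fin 2) K) (f : Lat K → ℂ) :
    ∑ᶠ L' : {L' : Lat K // L.Sub p L'}, f (L'.1.mul g) =
      ∑ᶠ L' : {L' : Lat K // (L.mul g).Sub p L'}, f L'.1 := by
  have hi : ∀ M : Lat K, (M.mul g).mul g⁻¹ = M := fun M => by
    rw [← mul_mul, mul_inv_cancel, gj2_mul_one]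
  have hi' : ∀ M : Lat K, (M.mul g⁻¹).mul g = M := fun M => by
    rw [← mul_mul, inv_mul_cancel, gj2_mul_one]
  refine finsum_eq_of_bijective (fun L' => ⟨L'.1.mul g, (sub_mul g).2 L'.2⟩) ⟨?_, ?_⟩ fun L' => rfl
  · intro x y h
    have h1 := congrArg (fun M : {L' : Lat K // (L.mul g).Sub p L'} => M.1.mul g⁻¹) h
    simp only [hi] at h1
    exact Subtype.ext h1
  · intro y
    refine ⟨⟨y.1.mul g⁻¹, ?_⟩, Subtype.ext (hi' y.1)⟩
    rw [← sub_mul g, hi']
    exact y.2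

/-- the sublattices of `a L` -/
theorem gj2_sm (p : Pr K) (L : Lat K) (a : Id K) (f : Lat K → ℂ) :
    ∑ᶠ L' : {L' : Lat K // L.Sub p L'}, f (L'.1.sm a) =
      ∑ᶠ L' : {L' : Lat K // (L.sm a).Sub p L'}, f L'.1 := by
  have hi : ∀ M : Lat K, (M.sm a).sm a⁻¹ = M := fun M => by
    rw [sm_sm, mul_inv_cancel, sm_one]
  have hi' : ∀ M : Lat K, (M.sm a⁻¹).sm a = M := fun M => by
    rw [sm_sm, inv_mul_cancel, sm_one]
  refine finsum_eq_of_bijective (fun L' => ⟨L'.1.sm a, (sub_sm a).2 L'.2⟩) ⟨?_, ?_⟩ fun L' => rfl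
  · intro x y h
    have h1 := congrArg (fun M : {L' : Lat K // (L.sm a).Sub p L'} => M.1.sm a⁻¹) h
    simp only [hi] at h1
    exact Subtype.ext h1
  · intro y
    refine ⟨⟨y.1.sm a⁻¹, ?_⟩, Subtype.ext (hi' y.1)⟩
    rw [← sub_sm a, hi']
    exact y.2

theorem form_TT {k : ℕ} {F : (Em K → ℍ) → Lat K → ℂ} (hF : IsForm k F) (p : Pr K) :
    IsForm k (TT p F) := by
  refine ⟨?_, ?_, ?_, ?_⟩
  · intro L
    have : Finite {L' : Lat K // L.Sub p L'} := sub_fin p L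
    have : Fintype {L' : Lat K // L.Sub p L'} := Fintype.ofFinite _
    simp only [TT, finsum_eq_sum_of_fintype]
    exact DifferentiableOn.fun_sum fun L' _ => hF.holo L'.1
  · intro g hg z L
    have : Finite {L' : Lat K // L.Sub p L'} := sub_fin p L
    have : Finite {L' : Lat K // (L.mul g).Sub p L'} := sub_fin p (L.mul g)
    rw [TT, TT, ← gj2_mul p L g (fun M => F z M), mul_finsum]
    exact finsum_congr fun L' => hF.slash g hg z L'.1
  · intro a z L
    have : Finite {L' : Lat K // L.Sub p L'} := sub_fin p L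
    rw [TT, TT, ← gj2_sm p L a (fun M => F z M), mul_finsum]
    exact finsum_congr fun L' => hF.scal a z L'.1
  · intro L
    have : Finite {L' : Lat K // L.Sub p L'} := sub_fin p L
    have : Fintype {L' : Lat K // L.Sub p L'} := Fintype.ofFinite _
    choose C hC using fun L' : {L' : Lat K // L.Sub p L'} => hF.bdd L'.1
    refine ⟨∑ L', C L', fun z => ?_⟩
    rw [TT, finsum_eq_sum_of_fintype]
    have h1 := gj2_NY z
    refine (mul_le_mul_of_nonneg_right (norm_sum_le _ _) (Real.rpow_nonneg h1.le _)).trans ?_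
    rw [Finset.sum_mul]
    exact Finset.sum_le_sum fun L' _ => hC L' z

/-- the Hecke operator in terms of `P_F` -/
theorem pf_TT (k : ℕ) (F : (Em K → ℍ) → Lat K → ℂ) (p : Pr K) (z : Em K → ℍ) (L : Lat K) :
    PF k (TT p F) z L = (((qP p : ℝ) ^ (-(k : ℝ) / 2) : ℝ) : ℂ) *
      ∑ᶠ L' : {L' : Lat K // L.Sub p L'}, PF k F z L'.1 := by
  have : Finite {L' : Lat K // L.Sub p L'} := sub_fin p L
  have hq : (0 : ℝ) < qP p := by
    have := (pI_facts p).2.2.2
    exact_mod_cast (by omega : 0 < qP p)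
  have h1 := gj2_NY z
  have h2 := nI_pos L.det
  rw [PF, TT, finsum_mul, mul_finsum]
  refine finsum_congr fun L' => ?_
  rw [PF, sub_det L'.2, nI_mul, (pI_facts p).2.2.1]
  have e : (NY z * (qP p * nI L.det)) ^ ((k : ℝ) / 2) =
      (qP p : ℝ) ^ ((k : ℝ) / 2) * (NY z * nI L.det) ^ ((k : ℝ) / 2) := by
    rw [← Real.mul_rpow hq.le (mul_pos h1 h2).le]
    congr 1
    ring
  have e2 : (qP p : ℝ) ^ (-(k : ℝ) / 2) * (qP p : ℝ) ^ ((k : ℝ) / 2) = 1 := by
    rw [← Real.rpow_add hq]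
    have : -(k : ℝ) / 2 + (k : ℝ) / 2 = 0 := by ring
    rw [this, Real.rpow_zero]
  rw [e]
  have e3 : (((qP p : ℝ) ^ (-(k : ℝ) / 2) : ℝ) : ℂ) * (((qP p : ℝ) ^ ((k : ℝ) / 2) : ℝ) : ℂ) = 1 := by
    rw [← Complex.ofReal_mul, e2, Complex.ofReal_one]
  rw [Complex.ofReal_mul ((qP p : ℝ) ^ ((k : ℝ) / 2))]
  linear_combination (-(F z L'.1 * (((NY z * nI L.det) ^ ((k : ℝ) / 2) : ℝ) : ℂ))) * e3

/-- the trivial bound for the eigenvalues (cites also sub_card) -/
theorem eig_triv {k : ℕ} {F : (Em K → ℍ) → Lat K → ℂ} {lam : Pr K → ℝ} (h : IsEig k F lam)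
    (p : Pr K) : |lam p| ≤ √(qP p : ℝ) + 1 / √(qP p : ℝ) := by
  obtain ⟨C, hC0, hC⟩ := pf_bdd h.form
  have hq : (0 : ℝ) < qP p := by
    have := (pI_facts p).2.2.2
    exact_mod_cast (by omega : 0 < qP p)
  set R : Set ℝ := Set.range fun x : (Em K → ℍ) × Lat K => ‖PF k F x.1 x.2‖ with hR
  have hbdd : BddAbove R := ⟨C, by
    rintro _ ⟨x, rfl⟩
    exact hC x.1 x.2⟩
  set S : ℝ := sSup R with hS
  have hle : ∀ z L, ‖PF k F z L‖ ≤ S := fun z L => le_csSup hbdd ⟨(z, L), rfl⟩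
  obtain ⟨z0, L0, h0⟩ := h.ne
  have hPF0 : 0 < ‖PF k F z0 L0‖ := by
    rw [norm_pos_iff, PF]
    refine mul_ne_zero h0 ?_
    have h6 : 0 < NY z0 * nI L0.det := mul_pos (gj2_NY z0) (nI_pos _)
    exact_mod_cast (Real.rpow_pos_of_pos h6 _).ne'
  have hS0 : 0 < S := hPF0.trans_le (hle z0 L0)
  have hsq : 0 < √(qP p : ℝ) := Real.sqrt_pos.2 hq
  -- the main inequality
  have key : ∀ z L, |lam p| * ‖PF k F z L‖ ≤ (√(qP p : ℝ) + 1 / √(qP p : ℝ)) * S := by
    intro z L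
    have : Finite {L' : Lat K // L.Sub p L'} := sub_fin p L
    have : Fintype {L' : Lat K // L.Sub p L'} := Fintype.ofFinite _
    have h1 := pf_TT k F p z L
    have h2 : PF k (TT p F) z L =
        (((qP p : ℝ) ^ ((1 - (k : ℝ)) / 2) * lam p : ℝ) : ℂ) * PF k F z L := by
      rw [PF, h.eig p z L, PF]
      ring
    rw [h2] at h1
    have h3 := congrArg norm h1
    rw [norm_mul, norm_mul, Complex.norm_real, Complex.norm_real, norm_mul,
      Real.norm_of_nonneg (Real.rpow_nonneg hq.le _), Real.norm_of_nonneg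
      (Real.rpow_nonneg hq.le _), Real.norm_eq_abs, finsum_eq_sum_of_fintype] at h3
    have h4 : ‖∑ L' : {L' : Lat K // L.Sub p L'}, PF k F z L'.1‖ ≤ (qP p + 1) * S := by
      refine (norm_sum_le _ _).trans ((Finset.sum_le_sum fun L' _ => hle z L'.1).trans ?_)
      rw [Finset.sum_const, Finset.card_univ, ← Nat.card_eq_fintype_card, sub_card, nsmul_eq_mul]
      push_cast
      exact le_rfl
    have e1 : (qP p : ℝ) ^ ((1 - (k : ℝ)) / 2) = √(qP p : ℝ) * (qP p : ℝ) ^ (-(k : ℝ) / 2) := by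
      rw [Real.sqrt_eq_rpow, ← Real.rpow_add hq]
      congr 1
      ring
    have e2 : 0 < (qP p : ℝ) ^ (-(k : ℝ) / 2) := Real.rpow_pos_of_pos hq _
    rw [e1] at h3
    have h5 : (qP p : ℝ) ^ (-(k : ℝ) / 2) * (√(qP p : ℝ) * (|lam p| * ‖PF k F z L‖)) ≤
        (qP p : ℝ) ^ (-(k : ℝ) / 2) * ((qP p + 1) * S) := by
      refine le_trans (le_of_eq ?_) (mul_le_mul_of_nonneg_left h4 e2.le)
      rw [← h3]
      ring
    have h6 := le_of_mul_le_mul_left h5 e2
    have h7 : √(qP p : ℝ) * ((√(qP p : ℝ) + 1 / √(qP p : ℝ)) * S) = (qP p + 1) * S := by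
      have h8 : √(qP p : ℝ) * √(qP p : ℝ) = qP p := Real.mul_self_sqrt hq.le
      have h9 : √(qP p : ℝ) * (1 / √(qP p : ℝ)) = 1 := mul_one_div_cancel hsq.ne'
      rw [← mul_assoc, mul_add, h8, h9]
    rw [← h7] at h6
    exact le_of_mul_le_mul_left h6 hsq
  have h8 : |lam p| * S ≤ (√(qP p : ℝ) + 1 / √(qP p : ℝ)) * S := by
    rcases (abs_nonneg (lam p)).eq_or_lt with h9 | h9
    · rw [← h9, zero_mul]
      positivity
    · have h10 : S ≤ ((√(qP p : ℝ) + 1 / √(qP p : ℝ)) * S) / |lam p| := by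
        refine csSup_le ⟨_, ⟨(z0, L0), rfl⟩⟩ ?_
        rintro _ ⟨x, rfl⟩
        rw [le_div_iff₀ h9, mul_comm]
        exact key x.1 x.2
      rw [le_div_iff₀ h9, mul_comm] at h10
      exact h10
  exact le_of_mul_le_mul_right h8 hS0

end tr

end Pool.Agent.HSG
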