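import Pool.Agent.Lib_helper84.HSG.DefsB
import Pool.Agent.Lib_helper84.HSGF.GD1
import Pool.Agent.Lib_helper84.HSGF.GD2

/-! Block GK1: Fourier series of periodic holomorphic functions. -/

namespace Pool.Agent.HSG

open Complex MeasureTheory Filter Topology UpperHalfPlane NumberField IsDedekindDomain
open scoped nonZeroDivisors MatrixGroups ENNReal

section gk1a

/-- a holomorphic family of continuous functions on a compact space has a holomorphic integral -/
theorem gk1_holo {X : Type} [TopologicalSpace X] [CompactSpace X] [MeasurableSpace X]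
    [OpensMeasurableSpace X] (μ : Measure X) [IsFiniteMeasure μ] {D : Set ℂ} (hD : IsOpen D)
    (H : ℂ → X → ℂ) (hc : ContinuousOn (fun p : ℂ × X => H p.1 p.2) (D ×ˢ Set.univ))
    (hd : ∀ θ, DifferentiableOn ℂ (fun τ => H τ θ) D) :
    DifferentiableOn ℂ (fun τ => ∫ θ, H τ θ ∂μ) D := by
  intro τ0 hτ0
  obtain ⟨r, hr, hrD⟩ := Metric.nhds_basis_closedBall.mem_iff.mp (hD.mem_nhds hτ0)
  have hcs : ∀ τ ∈ D, Continuous (fun θ => H τ θ) := by
    intro τ hτ
    have h1 : ContinuousOn (fun θ : X => (fun p : ℂ × X => H p.1 p.2) (τ, θ)) Set.univ :=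
      hc.comp (by fun_prop) (fun θ _ => ⟨hτ, trivial⟩)
    exact continuousOn_univ.mp h1
  obtain ⟨C, hC⟩ := ((isCompact_closedBall τ0 r).prod (isCompact_univ (X := X))).exists_bound_of_continuousOn
    (hc.mono (Set.prod_mono_left hrD))
  have hr2 : 0 < r / 2 := by linarith
  have hin : ∀ τ ∈ Metric.ball τ0 (r / 2), Metric.closedBall τ (r / 2) ⊆ Metric.closedBall τ0 r := by
    intro τ hτ
    apply Metric.closedBall_subset_closedBall'
    have := (Metric.mem_ball.mp hτ).le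
    linarith
  have hbD : Metric.ball τ0 (r / 2) ⊆ D := fun τ hτ =>
    hrD (hin τ hτ (Metric.mem_closedBall_self hr2.le))
  have hτ0b : τ0 ∈ Metric.ball τ0 (r / 2) := Metric.mem_ball_self hr2
  have key := hasDerivAt_integral_of_dominated_loc_of_deriv_le (𝕜 := ℂ) (μ := μ)
    (F := H) (F' := fun τ θ => deriv (fun τ => H τ θ) τ) (x₀ := τ0)
    (s := Metric.ball τ0 (r / 2)) (bound := fun _ => C / (r / 2))
    (Metric.ball_mem_nhds _ hr2) ?_ ?_ ?_ ?_ (integrable_const _) ?_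
  · exact key.2.differentiableAt.differentiableWithinAt
  · filter_upwards [hD.mem_nhds hτ0] with τ hτ
    exact (hcs τ hτ).aestronglyMeasurable
  · refine Integrable.mono' (integrable_const C) (hcs τ0 hτ0).aestronglyMeasurable ?_
    exact Eventually.of_forall fun θ => hC (τ0, θ) ⟨Metric.mem_closedBall_self hr.le, trivial⟩
  · -- measurability of the derivative
    set h : ℕ → ℂ := fun n => ((r / 2 / (n + 1 : ℝ) : ℝ) : ℂ) with hh
    have hh0 : Tendsto (fun n : ℕ => r / 2 / ((n : ℝ) + 1)) atTop (𝓝 0) := by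
      have := tendsto_one_div_add_atTop_nhds_zero_nat (𝕜 := ℝ)
      have h2 := this.const_mul (r / 2)
      rw [mul_zero] at h2
      refine h2.congr (fun n => ?_)
      ring
    have hpos : ∀ n : ℕ, 0 < r / 2 / ((n : ℝ) + 1) := fun n => by positivity
    have hle : ∀ n : ℕ, r / 2 / ((n : ℝ) + 1) ≤ r / 2 := fun n => by
      apply div_le_self hr2.le
      have : (0 : ℝ) ≤ n := Nat.cast_nonneg n
      linarith
    have hmem : ∀ n : ℕ, τ0 + h n ∈ D := by
      intro n
      apply hrD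
      rw [Metric.mem_closedBall, dist_eq_norm, add_sub_cancel_left, hh]
      simp only [Complex.norm_real, Real.norm_eq_abs]
      rw [abs_of_pos (hpos n)]
      linarith [hle n]
    refine aestronglyMeasurable_of_tendsto_ae atTop
      (f := fun (n : ℕ) θ => (h n)⁻¹ • (H (τ0 + h n) θ - H τ0 θ)) ?_ ?_
    · intro n
      exact (((hcs _ (hmem n)).sub (hcs _ hτ0)).const_smul ((h n)⁻¹)).aestronglyMeasurable
    · refine Eventually.of_forall fun θ => ?_
      have h1 : HasDerivAt (fun τ => H τ θ) (deriv (fun τ => H τ θ) τ0) τ0 :=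
        ((hd θ).differentiableAt (hD.mem_nhds hτ0)).hasDerivAt
      have h2 := h1.tendsto_slope_zero
      refine h2.comp ?_
      rw [tendsto_nhdsWithin_iff]
      refine ⟨?_, Eventually.of_forall fun n => ?_⟩
      · have := (Complex.continuous_ofReal.tendsto 0).comp hh0
        rw [Complex.ofReal_zero] at this
        exact this
      · simp only [Set.mem_compl_iff, Set.mem_singleton_iff, hh]
        exact_mod_cast (hpos n).ne'
  · refine Eventually.of_forall fun θ τ hτ => ?_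
    have hsub : Metric.closedBall τ (r / 2) ⊆ D := (hin τ hτ).trans hrD
    refine Complex.norm_deriv_le_of_forall_mem_sphere_norm_le hr2 ?_ ?_
    · apply DifferentiableOn.diffContOnCl
      rw [closure_ball _ hr2.ne']
      exact (hd θ).mono hsub
    · intro z hz
      exact hC (z, θ) ⟨hin τ hτ (Metric.sphere_subset_closedBall hz), trivial⟩
  · refine Eventually.of_forall fun θ τ hτ => ?_
    exact ((hd θ).differentiableAt (hD.mem_nhds (hbD hτ))).hasDerivAt

end gk1a

section gk1b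

variable {ι : Type} [Fintype ι]

noncomputable local instance gk1_ms : MeasureSpace UnitAddCircle := ⟨AddCircle.haarAddCircle⟩

local instance gk1_haar : Measure.IsAddHaarMeasure (volume : Measure UnitAddCircle) :=
  inferInstanceAs (Measure.IsAddHaarMeasure AddCircle.haarAddCircle)

local instance gk1_prob : IsProbabilityMeasure (volume : Measure UnitAddCircle) :=
  inferInstanceAs (IsProbabilityMeasure AddCircle.haarAddCircle)

/-- the projection to the torus -/
def gk1_pi (t : ι → ℝ) : UnitAddTorus ι := fun i => (t i : UnitAddCircle)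

theorem gk1_pi_oq : IsOpenQuotientMap (gk1_pi (ι := ι)) :=
  IsOpenQuotientMap.piMap (fun _ => QuotientAddGroup.isOpenQuotientMap_mk)

theorem gk1_pi_add (s t : ι → ℝ) : gk1_pi (s + t) = gk1_pi s + gk1_pi t := by
  funext i
  simp [gk1_pi]

theorem gk1_pi_zero : gk1_pi (0 : ι → ℝ) = 0 := by
  funext i
  simp [gk1_pi]

theorem gk1_pi_eq {s t : ι → ℝ} (h : gk1_pi s = gk1_pi t) :
    ∃ n : ι → ℤ, s = t + fun i => (n i : ℝ) := by
  have h1 : ∀ i, ∃ n : ℤ, s i = t i + n := by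
    intro i
    have h2 : ((s i - t i : ℝ) : UnitAddCircle) = 0 := by
      have h3 := congrFun h i
      simp only [gk1_pi] at h3
      rw [AddCircle.coe_sub, h3, sub_self]
    obtain ⟨n, hn⟩ := (AddCircle.coe_eq_zero_iff (1 : ℝ)).mp h2
    refine ⟨n, ?_⟩
    rw [zsmul_eq_mul, mul_one] at hn
    linarith
  choose n hn using h1
  exact ⟨n, funext hn⟩

/-- a section of the projection -/
noncomputable def gk1_sec (θ : UnitAddTorus ι) : ι → ℝ :=
  Function.surjInv gk1_pi_oq.surjective θ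

theorem gk1_pi_sec (θ : UnitAddTorus ι) : gk1_pi (gk1_sec θ) = θ :=
  Function.surjInv_eq gk1_pi_oq.surjective θ

theorem gk1_mF (n : ι → ℤ) (t : ι → ℝ) :
    UnitAddTorus.mFourier n (gk1_pi t) = cexp (2 * Real.pi * Complex.I * ((∑ i, (n i : ℝ) * t i : ℝ) : ℂ)) := by
  simp only [UnitAddTorus.mFourier, ContinuousMap.coe_mk, gk1_pi, fourier_coe_apply]
  rw [← Complex.exp_sum]
  congr 1
  push_cast
  rw [Finset.mul_sum]
  refine Finset.sum_congr rfl fun i _ => ?_
  ring

/-- the translation vector `∑ t_i A_i` -/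
def gk1_T (A : ι → ι → ℝ) (t : ι → ℝ) (w : ι) : ℝ := ∑ i, t i * A i w

theorem gk1_T_add (A : ι → ι → ℝ) (s t : ι → ℝ) (w : ι) :
    gk1_T A (s + t) w = gk1_T A s w + gk1_T A t w := by
  simp only [gk1_T, Pi.add_apply, add_mul, Finset.sum_add_distrib]

/-- translation of a complex vector by a real one -/
def gk1_tr (z : ι → ℂ) (s : ι → ℝ) : ι → ℂ := fun w => z w + (s w : ℂ)

theorem gk1_tr_mem {z : ι → ℂ} (hz : z ∈ UH ι) (s : ι → ℝ) : gk1_tr z s ∈ UH ι := by
  intro w
  have := hz w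
  simpa [gk1_tr] using this

/-- the function on the torus -/
noncomputable def gk1_G (g : (ι → ℂ) → ℂ) (A : ι → ι → ℝ) (z : ι → ℂ) (θ : UnitAddTorus ι) : ℂ :=
  g (gk1_tr z (gk1_T A (gk1_sec θ)))

variable {g : (ι → ℂ) → ℂ} {A : ι → ι → ℝ}

theorem gk1_G_pi (hp : ∀ n : ι → ℤ, ∀ z ∈ UH ι, g (gk1_tr z (gk1_T A (fun i => (n i : ℝ)))) = g z)
    {z : ι → ℂ} (hz : z ∈ UH ι) (t : ι → ℝ) : gk1_G g A z (gk1_pi t) = g (gk1_tr z (gk1_T A t)) := by
  obtain ⟨n, hn⟩ := gk1_pi_eq (gk1_pi_sec (gk1_pi t))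
  rw [gk1_G, hn]
  have h1 : gk1_tr z (gk1_T A (t + fun i => (n i : ℝ))) =
      gk1_tr (gk1_tr z (gk1_T A t)) (gk1_T A (fun i => (n i : ℝ))) := by
    funext w
    simp only [gk1_tr, gk1_T_add]
    push_cast
    ring
  rw [h1]
  exact hp n _ (gk1_tr_mem hz _)

theorem gk1_G_add (hp : ∀ n : ι → ℤ, ∀ z ∈ UH ι, g (gk1_tr z (gk1_T A (fun i => (n i : ℝ)))) = g z)
    {z : ι → ℂ} (hz : z ∈ UH ι) (t0 : ι → ℝ) (θ : UnitAddTorus ι) :
    gk1_G g A (gk1_tr z (gk1_T A t0)) θ = gk1_G g A z (θ + gk1_pi t0) := by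
  obtain ⟨t, rfl⟩ := gk1_pi_oq.surjective θ
  rw [← gk1_pi_add, gk1_G_pi hp hz, gk1_G_pi hp (gk1_tr_mem hz _)]
  congr 1
  funext w
  simp only [gk1_tr, gk1_T_add]
  push_cast
  ring

theorem gk1_G_cont (hg : ContinuousOn g (UH ι))
    (hp : ∀ n : ι → ℤ, ∀ z ∈ UH ι, g (gk1_tr z (gk1_T A (fun i => (n i : ℝ)))) = g z) :
    Continuous (fun p : UH ι × UnitAddTorus ι => gk1_G g A p.1 p.2) := by
  have hq : IsOpenQuotientMap (Prod.map (id : UH ι → UH ι) (gk1_pi (ι := ι))) :=
    IsOpenQuotientMap.id.prodMap gk1_pi_oq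
  rw [← hq.continuous_comp_iff]
  have h1 : (fun p : UH ι × UnitAddTorus ι => gk1_G g A p.1 p.2) ∘
      (Prod.map (id : UH ι → UH ι) (gk1_pi (ι := ι))) =
      fun p : UH ι × (ι → ℝ) => g (gk1_tr p.1 (gk1_T A p.2)) := by
    funext p
    simp only [Function.comp_apply, Prod.map_fst, Prod.map_snd, id]
    exact gk1_G_pi hp p.1.2 _
  rw [h1]
  refine hg.comp_continuous ?_ (fun p => gk1_tr_mem p.1.2 _)
  unfold gk1_tr gk1_T
  refine continuous_pi fun w => ?_
  have h2 : Continuous (fun p : UH ι × (ι → ℝ) => ∑ i, p.2 i * A i w) := by fun_prop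
  have h3 : Continuous (fun p : UH ι × (ι → ℝ) => (p.1 : ι → ℂ) w) :=
    (continuous_apply w).comp (continuous_subtype_val.comp continuous_fst)
  exact h3.add (Complex.continuous_ofReal.comp h2)

theorem gk1_G_cont1 (hg : ContinuousOn g (UH ι))
    (hp : ∀ n : ι → ℤ, ∀ z ∈ UH ι, g (gk1_tr z (gk1_T A (fun i => (n i : ℝ)))) = g z)
    {z : ι → ℂ} (hz : z ∈ UH ι) : Continuous (gk1_G g A z) :=
  (gk1_G_cont hg hp).comp (Continuous.prodMk (continuous_const (y := (⟨z, hz⟩ : UH ι))) continuous_id)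

/-- the Fourier coefficient -/
noncomputable def gk1_c (g : (ι → ℂ) → ℂ) (A : ι → ι → ℝ) (z : ι → ℂ) (n : ι → ℤ) : ℂ :=
  UnitAddTorus.mFourierCoeff (gk1_G g A z) n

theorem gk1_c_add (hp : ∀ n : ι → ℤ, ∀ z ∈ UH ι, g (gk1_tr z (gk1_T A (fun i => (n i : ℝ)))) = g z)
    {z : ι → ℂ} (hz : z ∈ UH ι) (t0 : ι → ℝ) (n : ι → ℤ) :
    gk1_c g A (gk1_tr z (gk1_T A t0)) n = UnitAddTorus.mFourier n (gk1_pi t0) * gk1_c g A z n := by
  unfold gk1_c UnitAddTorus.mFourierCoeff
  rw [← integral_const_mul]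
  rw [← integral_add_right_eq_self (fun θ => UnitAddTorus.mFourier n (gk1_pi t0) *
    UnitAddTorus.mFourier (-n) θ • gk1_G g A z θ) (gk1_pi t0)]
  refine integral_congr_ae (Eventually.of_forall fun θ => ?_)
  simp only [smul_eq_mul]
  rw [gk1_G_add hp hz]
  obtain ⟨t, rfl⟩ := gk1_pi_oq.surjective θ
  rw [← gk1_pi_add, gk1_mF, gk1_mF, gk1_mF, ← mul_assoc, ← Complex.exp_add]
  congr 2
  push_cast
  simp only [Pi.neg_apply, Pi.add_apply]
  rw [← mul_add, ← Finset.sum_add_distrib]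
  congr 1
  refine Finset.sum_congr rfl fun i _ => ?_
  push_cast
  ring

theorem gk1_c_le {z : ι → ℂ} {B : ℝ} (h : ∀ t : ι → ℝ, ‖g (gk1_tr z t)‖ ≤ B) (n : ι → ℤ) :
    ‖gk1_c g A z n‖ ≤ B := by
  have h1 : ∀ θ : UnitAddTorus ι, ‖UnitAddTorus.mFourier (-n) θ • gk1_G g A z θ‖ ≤ B := by
    intro θ
    rw [norm_smul]
    have h2 : ‖UnitAddTorus.mFourier (-n) θ‖ ≤ 1 := by
      have := (UnitAddTorus.mFourier (-n)).norm_coe_le_norm θ
      rwa [UnitAddTorus.mFourier_norm] at this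
    calc _ ≤ 1 * B := mul_le_mul h2 (h _) (norm_nonneg _) zero_le_one
      _ = B := one_mul B
  have h3 := norm_integral_le_of_norm_le_const (μ := (volume : Measure (UnitAddTorus ι)))
    (Eventually.of_forall h1)
  rw [probReal_univ, mul_one] at h3
  exact h3

/-- the character -/
noncomputable def gk1_e (v : ι → ℝ) (z : ι → ℂ) : ℂ :=
  cexp (2 * Real.pi * Complex.I * ∑ w, (v w : ℂ) * z w)

theorem gk1_e_ne (v : ι → ℝ) (z : ι → ℂ) : gk1_e v z ≠ 0 := Complex.exp_ne_zero _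

theorem gk1_e_tr (v : ι → ℝ) (z : ι → ℂ) (s : ι → ℝ) :
    gk1_e v (gk1_tr z s) = cexp (2 * Real.pi * Complex.I * ((∑ w, v w * s w : ℝ) : ℂ)) * gk1_e v z := by
  unfold gk1_e gk1_tr
  rw [← Complex.exp_add]
  congr 1
  push_cast
  rw [← mul_add, ← Finset.sum_add_distrib]
  congr 1
  refine Finset.sum_congr rfl fun i _ => ?_
  ring

/-- the constant -/
noncomputable def gk1_M (g : (ι → ℂ) → ℂ) (A : ι → ι → ℝ) (v : ι → ℝ) (n : ι → ℤ) (z : ι → ℂ) : ℂ :=
  gk1_c g A z n * (gk1_e v z)⁻¹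

theorem gk1_M_T (hp : ∀ n : ι → ℤ, ∀ z ∈ UH ι, g (gk1_tr z (gk1_T A (fun i => (n i : ℝ)))) = g z)
    {v : ι → ℝ} {n : ι → ℤ} (hv : ∀ i, ∑ w, v w * A i w = n i)
    {z : ι → ℂ} (hz : z ∈ UH ι) (t0 : ι → ℝ) :
    gk1_M g A v n (gk1_tr z (gk1_T A t0)) = gk1_M g A v n z := by
  unfold gk1_M
  rw [gk1_c_add hp hz, gk1_e_tr, gk1_mF, mul_inv]
  have h1 : ∑ w, v w * gk1_T A t0 w = ∑ i, (n i : ℝ) * t0 i := by
    unfold gk1_T
    simp only [Finset.mul_sum]
    rw [Finset.sum_comm]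
    refine Finset.sum_congr rfl fun i _ => ?_
    rw [← hv i, Finset.sum_mul]
    refine Finset.sum_congr rfl fun w _ => ?_
    ring
  rw [h1]
  have h2 := Complex.exp_ne_zero (2 * Real.pi * Complex.I * ((∑ i, (n i : ℝ) * t0 i : ℝ) : ℂ))
  field_simp

theorem gk1_T_surj [Nonempty ι] (hA : LinearIndependent ℝ A) (s : ι → ℝ) : ∃ t, gk1_T A t = s := by
  have h1 := hA.span_eq_top_of_card_eq_finrank' (by simp)
  have h2 : s ∈ Submodule.span ℝ (Set.range A) := by rw [h1]; trivial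
  obtain ⟨c, hc⟩ := (Submodule.mem_span_range_iff_exists_fun ℝ).mp h2
  refine ⟨c, ?_⟩
  rw [← hc]
  funext w
  simp [gk1_T, Finset.sum_apply]

/-- the complex line through `z` in the direction `b` -/
def gk1_ln (z : ι → ℂ) (b : ι → ℝ) (τ : ℂ) : ι → ℂ := fun w => z w + τ * b w

theorem gk1_M_ln (hg : DifferentiableOn ℂ g (UH ι))
    (hp : ∀ n : ι → ℤ, ∀ z ∈ UH ι, g (gk1_tr z (gk1_T A (fun i => (n i : ℝ)))) = g z)
    (hA : LinearIndependent ℝ A) [Nonempty ι]
    {v : ι → ℝ} {n : ι → ℤ} (hv : ∀ i, ∑ w, v w * A i w = n i)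
    (z : ι → ℂ) (b : ι → ℝ) (h0 : gk1_ln z b 0 ∈ UH ι) (h1 : gk1_ln z b Complex.I ∈ UH ι) :
    gk1_M g A v n (gk1_ln z b 0) = gk1_M g A v n (gk1_ln z b Complex.I) := by
  set D : Set ℂ := {τ | gk1_ln z b τ ∈ UH ι} with hD
  have hDeq : D = ⋂ w, {τ : ℂ | 0 < (z w).im + τ.im * b w} := by
    ext τ
    simp only [hD, Set.mem_ofPred_eq, UH, Set.mem_iInter, gk1_ln, Complex.add_im,
      Complex.mul_im, Complex.ofReal_re, Complex.ofReal_im, mul_zero, zero_add]
  have hopen : IsOpen D := by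
    rw [hDeq]
    refine isOpen_iInter_of_finite fun w => ?_
    exact isOpen_lt continuous_const (by fun_prop)
  have hconv : Convex ℝ D := by
    rw [hDeq]
    refine convex_iInter fun w => ?_
    intro τ1 h1 τ2 h2 a c ha hc hac
    simp only [Set.mem_ofPred_eq] at h1 h2 ⊢
    have e1 : (a • τ1 + c • τ2).im = a * τ1.im + c * τ2.im := by simp
    rw [e1]
    have e2 : (z w).im + (a * τ1.im + c * τ2.im) * b w =
        a * ((z w).im + τ1.im * b w) + c * ((z w).im + τ2.im * b w) := by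
      linear_combination (-(z w).im) * hac
    rw [e2]
    rcases ha.eq_or_lt with ha0 | ha0
    · have : c = 1 := by linarith
      rw [← ha0, this]
      linarith
    · have := mul_pos ha0 h1
      have := mul_nonneg hc h2.le
      linarith
  have hgc : ContinuousOn g (UH ι) := hg.continuousOn
  have hdiff : DifferentiableOn ℂ (fun τ => gk1_M g A v n (gk1_ln z b τ)) D := by
    unfold gk1_M
    refine DifferentiableOn.mul ?_ ?_
    · unfold gk1_c UnitAddTorus.mFourierCoeff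
      simp only [smul_eq_mul]
      refine gk1_holo (volume : Measure (UnitAddTorus ι)) hopen
        (fun τ θ => UnitAddTorus.mFourier (-n) θ * gk1_G g A (gk1_ln z b τ) θ) ?_ ?_
      · refine ContinuousOn.mul
          (((UnitAddTorus.mFourier (-n)).continuous.comp continuous_snd).continuousOn) ?_
        rw [continuousOn_iff_continuous_domRestrict]
        have h3 : Continuous (fun p : ↥(D ×ˢ (Set.univ : Set (UnitAddTorus ι))) =>
            ((⟨gk1_ln z b p.1.1, p.2.1⟩, p.1.2) : UH ι × UnitAddTorus ι)) := by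
          refine Continuous.prodMk (Continuous.subtype_mk ?_ _) (by fun_prop)
          unfold gk1_ln
          fun_prop
        exact (gk1_G_cont hgc hp).comp h3
      · intro θ
        refine DifferentiableOn.const_mul ?_ _
        refine hg.comp ?_ (fun τ hτ => gk1_tr_mem hτ _)
        unfold gk1_tr gk1_ln
        fun_prop
    · unfold gk1_e
      refine DifferentiableOn.inv ?_ (fun τ _ => Complex.exp_ne_zero _)
      unfold gk1_ln
      fun_prop
  refine hopen.is_const_of_deriv_eq_zero hconv.isPreconnected hdiff ?_ h0 h1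
  intro τ hτ
  have h3 := (hdiff.differentiableAt (hopen.mem_nhds hτ)).hasDerivAt
  have h4 : HasDerivAt (fun r : ℝ => gk1_M g A v n (gk1_ln z b (τ + r)))
      (deriv (fun τ => gk1_M g A v n (gk1_ln z b τ)) τ) 0 := by
    have h5 : HasDerivAt (fun r : ℝ => τ + (r : ℂ)) 1 0 := by
      have := (Complex.ofRealCLM.hasDerivAt (x := (0 : ℝ))).const_add τ
      simpa using this
    have h6 : HasDerivAt (fun τ => gk1_M g A v n (gk1_ln z b τ))
      (deriv (fun τ => gk1_M g A v n (gk1_ln z b τ)) τ) (τ + ((0 : ℝ) : ℂ)) := by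
      rw [Complex.ofReal_zero, add_zero]; exact h3
    have h7 := h6.comp (0 : ℝ) h5
    rw [mul_one] at h7
    exact h7
  have h5 : (fun r : ℝ => gk1_M g A v n (gk1_ln z b (τ + r))) =
      fun _ => gk1_M g A v n (gk1_ln z b τ) := by
    funext r
    obtain ⟨t0, ht0⟩ := gk1_T_surj hA (fun w => r * b w)
    have h6 : gk1_ln z b (τ + r) = gk1_tr (gk1_ln z b τ) (gk1_T A t0) := by
      rw [ht0]
      funext w
      simp only [gk1_ln, gk1_tr]
      push_cast
      ring
    rw [h6]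
    exact gk1_M_T hp hv hτ t0
  rw [h5] at h4
  exact h4.unique (hasDerivAt_const _ _)

theorem gk1_M_const (hg : DifferentiableOn ℂ g (UH ι))
    (hp : ∀ n : ι → ℤ, ∀ z ∈ UH ι, g (gk1_tr z (gk1_T A (fun i => (n i : ℝ)))) = g z)
    (hA : LinearIndependent ℝ A) [Nonempty ι]
    {v : ι → ℝ} {n : ι → ℤ} (hv : ∀ i, ∑ w, v w * A i w = n i)
    {z z' : ι → ℂ} (hz : z ∈ UH ι) (hz' : z' ∈ UH ι) :
    gk1_M g A v n z = gk1_M g A v n z' := by
  set b : ι → ℝ := fun w => (z' w - z w).im with hb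
  have e0 : gk1_ln z b 0 = z := by
    funext w
    simp [gk1_ln]
  obtain ⟨t0, ht0⟩ := gk1_T_surj hA (fun w => (z' w - z w).re)
  have e1 : z' = gk1_tr (gk1_ln z b Complex.I) (gk1_T A t0) := by
    rw [ht0]
    funext w
    simp only [gk1_tr, gk1_ln, hb]
    apply Complex.ext <;> simp
  have h1 : gk1_ln z b Complex.I ∈ UH ι := by
    intro w
    have := hz' w
    rw [e1] at this
    simpa [gk1_tr] using this
  rw [e1, gk1_M_T hp hv h1, ← gk1_M_ln hg hp hA hv z b (by rw [e0]; exact hz) h1, e0]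

theorem gk1_summ_Z {κ : ℝ} (hκ : 0 < κ) : Summable (fun m : ℤ => Real.exp (-(κ * |(m : ℝ)|))) := by
  have h1 : Summable (fun m : ℕ => Real.exp (-(κ * (m : ℝ)))) := by
    have : (fun m : ℕ => Real.exp (-(κ * (m : ℝ)))) = fun m : ℕ => Real.exp (-κ) ^ m := by
      funext m
      rw [← Real.exp_nat_mul]
      congr 1
      ring
    rw [this]
    exact summable_geometric_of_lt_one (Real.exp_pos _).le (by
      rw [Real.exp_lt_one_iff]; linarith)
  refine Summable.of_nat_of_neg ?_ ?_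
  · refine h1.congr fun m => ?_
    rw [Int.cast_natCast, abs_of_nonneg (Nat.cast_nonneg m)]
  · refine h1.congr fun m => ?_
    rw [Int.cast_neg, Int.cast_natCast, abs_neg, abs_of_nonneg (Nat.cast_nonneg m)]

theorem gk1_summ {κ : ℝ} (hκ : 0 < κ) :
    Summable (fun n : ι → ℤ => Real.exp (-(κ * ∑ i, |(n i : ℝ)|))) := by
  classical
  have h1 : ∀ n : ι → ℤ, Real.exp (-(κ * ∑ i, |(n i : ℝ)|)) =
      ∏ i, Real.exp (-(κ * |(n i : ℝ)|)) := by
    intro n
    rw [← Real.exp_sum, Finset.mul_sum, Finset.sum_neg_distrib]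
  simp_rw [h1]
  set f : ℤ → ℝ := fun m => Real.exp (-(κ * |(m : ℝ)|)) with hf
  have hf0 : ∀ m, 0 ≤ f m := fun m => (Real.exp_pos _).le
  refine summable_of_sum_le (c := ∏ _i : ι, ∑' m, f m) (fun n => Finset.prod_nonneg fun i _ => hf0 _) ?_
  intro s
  set t : ι → Finset ℤ := fun i => s.image (fun n => n i) with ht
  calc ∑ n ∈ s, ∏ i, f (n i) ≤ ∑ n ∈ Fintype.piFinset t, ∏ i, f (n i) := by
        refine Finset.sum_le_sum_of_subset_of_nonneg ?_ (fun n _ _ => Finset.prod_nonneg fun i _ => hf0 _)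
        intro n hn
        rw [Fintype.mem_piFinset]
        intro i
        exact Finset.mem_image_of_mem _ hn
    _ = ∏ i, ∑ m ∈ t i, f m := (Finset.prod_univ_sum t (fun _ m => f m)).symm
    _ ≤ ∏ _i : ι, ∑' m, f m := by
        refine Finset.prod_le_prod (fun i _ => Finset.sum_nonneg fun m _ => hf0 m) (fun i _ => ?_)
        exact (gk1_summ_Z hκ).sum_le_tsum _ (fun m _ => hf0 m)

theorem gk1_c_eq (v : ι → ℝ) (n : ι → ℤ) (z : ι → ℂ) :
    gk1_c g A z n = gk1_M g A v n z * gk1_e v z := by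
  unfold gk1_M
  rw [inv_mul_cancel_right₀ (gk1_e_ne v z)]

theorem gk1_e_norm (v : ι → ℝ) (z : ι → ℂ) :
    ‖gk1_e v z‖ = Real.exp (-(2 * Real.pi * ∑ w, v w * (z w).im)) := by
  unfold gk1_e
  rw [Complex.norm_exp]
  congr 1
  have h1 : 2 * (Real.pi : ℂ) * Complex.I * ∑ w, (v w : ℂ) * z w =
      ((2 * Real.pi : ℝ) : ℂ) * (Complex.I * ∑ w, (v w : ℂ) * z w) := by
    push_cast
    ring
  rw [h1, Complex.re_ofReal_mul, Complex.I_mul_re, Complex.im_sum]
  have h2 : ∀ w, ((v w : ℂ) * z w).im = v w * (z w).im := fun w => by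
    rw [Complex.im_ofReal_mul]
  simp only [h2]
  ring

theorem gk1_c_summable (hg : DifferentiableOn ℂ g (UH ι))
    (hp : ∀ n : ι → ℤ, ∀ z ∈ UH ι, g (gk1_tr z (gk1_T A (fun i => (n i : ℝ)))) = g z)
    (hA : LinearIndependent ℝ A) [Nonempty ι]
    {v : (ι → ℤ) → ι → ℝ} (hv : ∀ n i, ∑ w, v n w * A i w = n i)
    {z : ι → ℂ} (hz : z ∈ UH ι) : Summable (gk1_c g A z) := by
  classical
  obtain ⟨δ, hδ, hδz⟩ : ∃ δ : ℝ, 0 < δ ∧ ∀ w, δ < (z w).im := by
    obtain ⟨w0, hw0⟩ := Finite.exists_min (fun w => (z w).im)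
    exact ⟨(z w0).im / 2, half_pos (hz w0), fun w => (half_lt_self (hz w0)).trans_le (hw0 w)⟩
  -- the shifted points
  set zs : (ι → Bool) → ι → ℂ := fun s w => z w + ((if s w then -δ else δ : ℝ) : ℂ) * Complex.I with hzs
  have hzsim : ∀ s w, (zs s w).im = (z w).im + (if s w then -δ else δ) := by
    intro s w
    simp only [hzs, Complex.add_im, Complex.im_ofReal_mul, Complex.I_im, mul_one]
  have hzsU : ∀ s, zs s ∈ UH ι := by
    intro s w
    rw [hzsim]
    have h1 := hδz w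
    have h2 := hz w
    split_ifs <;> linarith
  have hb : ∀ s : ι → Bool, ∃ B : ℝ, ∀ n, ‖gk1_c g A (zs s) n‖ ≤ B := by
    intro s
    obtain ⟨B, hB⟩ := (isCompact_univ (X := UnitAddTorus ι)).exists_bound_of_continuousOn
      (gk1_G_cont1 hg.continuousOn hp (hzsU s)).continuousOn
    refine ⟨B, fun n => gk1_c_le ?_ n⟩
    intro t
    obtain ⟨t0, ht0⟩ := gk1_T_surj hA t
    rw [← ht0, ← gk1_G_pi hp (hzsU s)]
    exact hB _ trivial
  choose B hB using hb
  have hB0 : ∀ s, 0 ≤ B s := fun s => (norm_nonneg _).trans (hB s 0)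
  set C : ℝ := ∑ i, ∑ w, |A i w| + 1 with hC
  have hC0 : 0 < C := by positivity
  have hκ : 0 < 2 * Real.pi * δ / C := by positivity
  refine Summable.of_norm_bounded (g := fun n : ι → ℤ => (∑ s, B s) *
    Real.exp (-(2 * Real.pi * δ / C * ∑ i, |(n i : ℝ)|))) ((gk1_summ hκ).mul_left _) ?_
  intro n
  set s : ι → Bool := fun w => decide (0 ≤ v n w) with hs
  have h1 : gk1_c g A z n = gk1_c g A (zs s) n * ((gk1_e (v n) (zs s))⁻¹ * gk1_e (v n) z) := by
    rw [gk1_c_eq (v n) n z, gk1_M_const hg hp hA (hv n) hz (hzsU s)]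
    unfold gk1_M
    ring
  have h2 : ‖(gk1_e (v n) (zs s))⁻¹ * gk1_e (v n) z‖ =
      Real.exp (-(2 * Real.pi * δ * ∑ w, |v n w|)) := by
    rw [norm_mul, norm_inv, gk1_e_norm, gk1_e_norm, ← Real.exp_neg, ← Real.exp_add]
    congr 1
    have h3 : ∀ w, v n w * (zs s w).im = v n w * (z w).im - δ * |v n w| := by
      intro w
      rw [hzsim]
      simp only [hs, decide_eq_true_eq]
      split_ifs with h
      · rw [abs_of_nonneg h]; ring
      · rw [abs_of_neg (not_le.mp h)]; ring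
    simp only [h3, Finset.sum_sub_distrib, ← Finset.mul_sum]
    ring
  have h3 : ∑ i, |(n i : ℝ)| ≤ C * ∑ w, |v n w| := by
    have h4 : ∀ i, |(n i : ℝ)| ≤ (∑ w, |A i w|) * ∑ w, |v n w| := by
      intro i
      rw [← hv n i]
      calc |∑ w, v n w * A i w| ≤ ∑ w, |v n w * A i w| := Finset.abs_sum_le_sum_abs _ _
        _ ≤ ∑ w, |A i w| * ∑ w', |v n w'| := by
          refine Finset.sum_le_sum fun w _ => ?_
          rw [abs_mul, mul_comm]
          exact mul_le_mul_of_nonneg_left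
            (Finset.single_le_sum (f := fun w => |v n w|) (fun _ _ => abs_nonneg _)
              (Finset.mem_univ w)) (abs_nonneg _)
        _ = _ := by rw [Finset.sum_mul]
    calc ∑ i, |(n i : ℝ)| ≤ ∑ i, (∑ w, |A i w|) * ∑ w, |v n w| := Finset.sum_le_sum fun i _ => h4 i
      _ = (∑ i, ∑ w, |A i w|) * ∑ w, |v n w| := by rw [Finset.sum_mul]
      _ ≤ _ := mul_le_mul_of_nonneg_right (by linarith) (Finset.sum_nonneg fun _ _ => abs_nonneg _)
  rw [h1, norm_mul, h2]
  refine mul_le_mul ((hB s n).trans (Finset.single_le_sum (f := B) (fun s _ => hB0 s)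
    (Finset.mem_univ s))) ?_ (Real.exp_pos _).le (Finset.sum_nonneg fun s _ => hB0 s)
  refine Real.exp_le_exp.mpr (neg_le_neg ?_)
  calc 2 * Real.pi * δ / C * ∑ i, |(n i : ℝ)| ≤ 2 * Real.pi * δ / C * (C * ∑ w, |v n w|) :=
        mul_le_mul_of_nonneg_left h3 hκ.le
    _ = _ := by
      field_simp

theorem gk1_main (hg : DifferentiableOn ℂ g (UH ι))
    (hp : ∀ n : ι → ℤ, ∀ z ∈ UH ι, g (gk1_tr z (gk1_T A (fun i => (n i : ℝ)))) = g z)
    (hA : LinearIndependent ℝ A) [Nonempty ι]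
    {v : (ι → ℤ) → ι → ℝ} (hv : ∀ n i, ∑ w, v n w * A i w = n i) :
    ∃ M : (ι → ℤ) → ℂ, ∀ z ∈ UH ι, HasSum (fun n => M n * gk1_e (v n) z) (g z) ∧
      ∀ B : ℝ, (∀ t : ι → ℝ, ‖g (gk1_tr z t)‖ ≤ B) → ∀ n, ‖M n * gk1_e (v n) z‖ ≤ B := by
  set z0 : ι → ℂ := fun _ => Complex.I with hz0
  have hz0U : z0 ∈ UH ι := fun w => by simp [hz0]
  refine ⟨fun n => gk1_M g A (v n) n z0, fun z hz => ?_⟩
  have h1 : ∀ n, gk1_M g A (v n) n z0 * gk1_e (v n) z = gk1_c g A z n := by
    intro n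
    rw [gk1_M_const hg hp hA (hv n) hz0U hz, ← gk1_c_eq]
  simp only [h1]
  refine ⟨?_, fun B hB n => gk1_c_le hB n⟩
  set f : C(UnitAddTorus ι, ℂ) := ⟨gk1_G g A z, gk1_G_cont1 hg.continuousOn hp hz⟩ with hf
  have h2 : Summable (UnitAddTorus.mFourierCoeff f) := gk1_c_summable hg hp hA hv hz
  have h3 := UnitAddTorus.hasSum_mFourier_series_apply_of_summable h2 (gk1_pi 0)
  have h4 : f (gk1_pi 0) = g z := by
    have h5 : f (gk1_pi 0) = gk1_G g A z (gk1_pi 0) := rfl
    rw [h5, gk1_G_pi hp hz]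
    congr 1
    funext w
    simp [gk1_tr, gk1_T]
  rw [h4] at h3
  refine h3.congr_fun ?_
  intro n
  rw [gk1_mF]
  simp only [Pi.zero_apply, mul_zero, Finset.sum_const_zero, Complex.ofReal_zero, Complex.exp_zero,
    smul_eq_mul, mul_one]
  rfl

theorem gk1_inj [Nonempty ι] (hA : LinearIndependent ℝ A) {v : ι → ℝ}
    (h : ∀ i, ∑ w, v w * A i w = 0) : v = 0 := by
  obtain ⟨t, ht⟩ := gk1_T_surj hA v
  have h1 : ∑ w, v w * v w = 0 := by
    calc ∑ w, v w * v w = ∑ w, v w * gk1_T A t w := by rw [ht]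
      _ = ∑ w, ∑ i, t i * (v w * A i w) := by
        refine Finset.sum_congr rfl fun w _ => ?_
        unfold gk1_T
        rw [Finset.mul_sum]
        refine Finset.sum_congr rfl fun i _ => ?_
        ring
      _ = ∑ i, t i * ∑ w, v w * A i w := by
        rw [Finset.sum_comm]
        refine Finset.sum_congr rfl fun i _ => ?_
        rw [Finset.mul_sum]
      _ = 0 := by simp only [h, mul_zero, Finset.sum_const_zero]
  rw [Finset.sum_eq_zero_iff_of_nonneg (fun w _ => mul_self_nonneg (v w))] at h1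
  funext w
  exact mul_self_eq_zero.mp (h1 w (Finset.mem_univ w))

end gk1b

section gk1c

variable {K : Type} [Field K] [NumberField K] [IsTotallyReal K]

theorem gk1_nonempty : Nonempty (Em K) := by
  rw [← Fintype.card_pos_iff, card_em]
  exact dg_pos

/-- solving `Tr(ν e_i) = n_i` -/
theorem gk1_solve {e : Em K → K} (hli : LinearIndependent ℝ (fun i => em (e i))) (n : Em K → ℤ) :
    ∃ ν : K, ∀ i, ∑ w : Em K, w (ν * e i) = n i := by
  have := gk1_nonempty (K := K)
  set L : K →ₗ[ℚ] (Em K → ℚ) :=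
    LinearMap.pi (fun i => (Algebra.trace ℚ K) ∘ₗ (LinearMap.mulRight ℚ (e i))) with hL
  have hLa : ∀ ν i, ((L ν i : ℚ) : ℝ) = ∑ w : Em K, w (ν * e i) := by
    intro ν i
    rw [← tr_em]
    simp [hL]
  have hinj : Function.Injective L := by
    rw [injective_iff_map_eq_zero]
    intro ν hν
    have h1 : (em ν) = 0 := by
      refine gk1_inj hli (fun i => ?_)
      have h2 := hLa ν i
      rw [hν] at h2
      simp only [Pi.zero_apply, Rat.cast_zero, map_mul] at h2
      exact h2.symm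
    obtain ⟨w⟩ := gk1_nonempty (K := K)
    have h3 : w ν = 0 := congrFun h1 w
    exact (map_eq_zero w).mp h3
  have hsur : Function.Surjective L := by
    refine (LinearMap.injective_iff_surjective_of_finrank_eq_finrank ?_).mp hinj
    rw [Module.finrank_fintype_fun_eq_card, card_em]
    rfl
  obtain ⟨ν, hν⟩ := hsur (fun i => (n i : ℚ))
  refine ⟨ν, fun i => ?_⟩
  rw [← hLa, hν]
  simp

theorem gk1_coe (z : Em K → ℍ) (f : (Em K → ℍ) → ℂ) (t : Em K → ℝ) :
    f (fun w => ofComplex (gk1_tr (fun w => ((z w : ℍ) : ℂ)) t w)) = f (trH t z) := by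
  congr 1
  funext w
  have h1 : gk1_tr (fun w => ((z w : ℍ) : ℂ)) t w = ((t w +ᵥ z w : ℍ) : ℂ) := by
    rw [UpperHalfPlane.coe_vadd]
    simp only [gk1_tr]
    ring
  rw [h1, ofComplex_apply]
  rfl

theorem fou (x : Id K) {f : (Em K → ℍ) → ℂ}
    (hf : DifferentiableOn ℂ (fun z : Em K → ℂ => f (fun w => ofComplex (z w))) (UH (Em K)))
    (hp : ∀ β ∈ x.m, ∀ z, f (trH (em β) z) = f z) :
    ∃ a : K → ℂ, (∀ ν, ν ∉ ((DD K)⁻¹ * x⁻¹).m → a ν = 0) ∧
      (∀ z, HasSum (fun ν => a ν * eT ν z) (f z)) ∧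
      ∀ (z : Em K → ℍ) (B : ℝ), (∀ t : Em K → ℝ, ‖f (trH t z)‖ ≤ B) →
        ∀ ν, ‖a ν * eT ν z‖ ≤ B := by
  have := gk1_nonempty (K := K)
  obtain ⟨e, he, hgen, hli, -⟩ := lat_basis x
  choose nu hnu using fun n => gk1_solve hli n
  have hinj : Function.Injective nu := by
    intro n n' h
    funext i
    have h1 := hnu n i
    rw [h, hnu n' i] at h1
    exact_mod_cast h1.symm
  have hv : ∀ n i, ∑ w, em (nu n) w * em (e i) w = n i := by
    intro n i
    rw [← hnu n i]
    refine Finset.sum_congr rfl fun w _ => ?_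
    simp [em, map_mul]
  have hdual : ∀ n, nu n ∈ ((DD K)⁻¹ * x⁻¹).m := by
    intro n
    rw [← dual_iff]
    intro y hy
    obtain ⟨c, rfl⟩ := hgen y hy
    refine ⟨∑ i, c i * n i, ?_⟩
    push_cast
    calc ∑ w : Em K, w (nu n * ∑ i, (c i : K) * e i) =
        ∑ w : Em K, ∑ i, (c i : ℝ) * (em (nu n) w * em (e i) w) := by
          refine Finset.sum_congr rfl fun w _ => ?_
          rw [map_mul, map_sum, Finset.mul_sum]
          refine Finset.sum_congr rfl fun i _ => ?_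
          rw [map_mul, map_intCast]
          simp only [em]
          ring
      _ = ∑ i, (c i : ℝ) * ∑ w : Em K, em (nu n) w * em (e i) w := by
          rw [Finset.sum_comm]
          refine Finset.sum_congr rfl fun i _ => ?_
          rw [Finset.mul_sum]
      _ = _ := by simp only [hv]
  have hper : ∀ n : Em K → ℤ, ∀ z ∈ UH (Em K),
      (fun z : Em K → ℂ => f (fun w => ofComplex (z w)))
        (gk1_tr z (gk1_T (fun i => em (e i)) (fun i => (n i : ℝ)))) =
      (fun z : Em K → ℂ => f (fun w => ofComplex (z w))) z := by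
    intro n z hz
    set β : K := ∑ i, (n i : K) * e i with hβ
    have hβm : β ∈ x.m := by
      refine Submodule.sum_mem _ fun i _ => ?_
      rw [← zsmul_eq_mul]
      exact zsmul_mem (he i) _
    have h1 : gk1_T (fun i => em (e i)) (fun i => (n i : ℝ)) = em β := by
      funext w
      simp only [gk1_T, em, hβ, map_sum, map_mul, map_intCast]
    have h2 : z = fun w => (((fun w => ofComplex (z w)) w : ℍ) : ℂ) := by
      funext w
      show z w = ((ofComplex (z w) : ℍ) : ℂ)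
      rw [ofComplex_apply_of_im_pos (hz w)]
    simp only []
    rw [h1]
    have h3 := gk1_coe (fun w => ofComplex (z w)) f (em β)
    rw [← h2] at h3
    rw [h3]
    exact hp β hβm _
  obtain ⟨M, hM⟩ := gk1_main (g := fun z : Em K → ℂ => f (fun w => ofComplex (z w)))
    (A := fun i => em (e i)) hf hper hli (v := fun n => em (nu n)) hv
  have hzU : ∀ z : Em K → ℍ, (fun w => ((z w : ℍ) : ℂ)) ∈ UH (Em K) := fun z w => (z w).im_pos
  have hfz : ∀ z : Em K → ℍ, f (fun w => ofComplex ((z w : ℍ) : ℂ)) = f z := by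
    intro z
    congr 1
    funext w
    rw [ofComplex_apply]
  refine ⟨Function.extend nu M 0, ?_, ?_, ?_⟩
  · intro ν hν
    rw [Function.extend_apply']
    · rfl
    · rintro ⟨n, rfl⟩
      exact hν (hdual n)
  · intro z
    rw [← hinj.hasSum_iff]
    · have h1 := (hM _ (hzU z)).1
      simp only [hfz] at h1
      refine h1.congr_fun fun n => ?_
      simp only [Function.comp_apply, hinj.extend_apply]
      rfl
    · intro ν hν
      rw [Function.extend_apply' _ _ _ (fun h => hν h)]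
      simp
  · intro z B hB ν
    by_cases hν : ∃ n, nu n = ν
    · obtain ⟨n, rfl⟩ := hν
      have h1 := (hM _ (hzU z)).2 B (fun t => by
        have h2 := gk1_coe z f t
        show ‖f (fun w => ofComplex (gk1_tr (fun w => ((z w : ℍ) : ℂ)) t w))‖ ≤ B
        rw [h2]
        exact hB t) n
      rw [hinj.extend_apply]
      exact h1
    · rw [Function.extend_apply' _ _ _ hν]
      simp only [Pi.zero_apply, zero_mul, norm_zero]
      exact (norm_nonneg _).trans (hB 0)

end gk1c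

end Pool.Agent.HSG
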