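import Pool.Agent.Lib_helper84.HSG.DefsB
import Pool.Agent.Lib_helper84.HSGF.GD1
import Pool.Agent.Lib_helper84.HSGF.GD2

/-! # Hilbert-Selberg, block GE1: cells -/

namespace Pool.Agent.HSG

open Complex MeasureTheory Filter Topology UpperHalfPlane NumberField IsDedekindDomain
open scoped nonZeroDivisors MatrixGroups ENNReal

variable {K : Type} [Field K] [NumberField K]

theorem ge1_em_add (x y : K) : em (x + y) = em x + em y := by
  funext w
  simp [em]

theorem ge1_em_sub (x y : K) : em (x - y) = em x - em y := by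
  funext w
  simp [em]

theorem ge1_em_neg (x : K) : em (-x) = -em x := by
  funext w
  simp [em]

theorem ge1_em_sum (e : Em K → K) (c : Em K → ℤ) :
    em (∑ i, (c i : K) * e i) = ∑ i, c i • em (e i) := by
  funext w
  simp [em, map_sum]

theorem ge1_mem_sum (x : Id K) (e : Em K → K) (he : ∀ i, e i ∈ x.m) (c : Em K → ℤ) :
    ∑ i, (c i : K) * e i ∈ x.m := by
  refine Submodule.sum_mem _ fun i _ => ?_
  have h1 : (c i : K) * e i = ((c i : 𝓞 K)) • e i := by
    rw [Algebra.smul_def]
    simp
  rw [h1]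
  exact x.m.smul_mem _ (he i)

section tr
variable [IsTotallyReal K]

/-- a real basis of the space of conjugates which generates the lattice of the ideal -/
theorem ge1_basis (x : Id K) : ∃ b : Module.Basis (Em K) ℝ (Em K → ℝ),
    (∀ t : Em K → ℝ, t ∈ Submodule.span ℤ (Set.range b) ↔ ∃ β ∈ x.m, em β = t) ∧
    volume (ZSpan.fundamentalDomain b) = ENNReal.ofReal (√(dK K) * nI x) := by
  classical
  obtain ⟨e, he, hs, hl, hd⟩ := lat_basis x
  have hc : Fintype.card (Em K) = Module.finrank ℝ (Em K → ℝ) := by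
    rw [Module.finrank_fintype_fun_eq_card]
  rcases isEmpty_or_nonempty (Em K) with hE | hE
  · exfalso
    have h1 : Fintype.card (Em K) = dg K := card_em
    have h2 : 1 ≤ dg K := dg_pos
    rw [Fintype.card_eq_zero] at h1
    omega
  let b : Module.Basis (Em K) ℝ (Em K → ℝ) := basisOfLinearIndependentOfCardEqFinrank hl hc
  have hb : ∀ i, b i = em (e i) := fun i => by
    simp [b]
  refine ⟨b, fun t => ⟨fun ht => ?_, ?_⟩, ?_⟩
  · induction ht using Submodule.span_induction with
    | mem t ht =>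
      obtain ⟨i, rfl⟩ := ht
      exact ⟨e i, he i, (hb i).symm⟩
    | zero => exact ⟨0, x.m.zero_mem, by funext w; simp [em]⟩
    | add u v _ _ hu hv =>
      obtain ⟨β, hβ, rfl⟩ := hu
      obtain ⟨γ, hγ, rfl⟩ := hv
      exact ⟨β + γ, x.m.add_mem hβ hγ, ge1_em_add β γ⟩
    | smul c u _ hu =>
      obtain ⟨β, hβ, rfl⟩ := hu
      refine ⟨(c : K) * β, ?_, ?_⟩
      · have h1 : (c : K) * β = ((c : 𝓞 K)) • β := by
          rw [Algebra.smul_def]
          simp
        rw [h1]
        exact x.m.smul_mem _ hβ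
      · funext w
        simp [em]
  · rintro ⟨β, hβ, rfl⟩
    obtain ⟨c, rfl⟩ := hs β hβ
    rw [ge1_em_sum]
    refine Submodule.sum_mem _ fun i _ => Submodule.smul_mem _ _ (Submodule.subset_span ⟨i, hb i⟩)
  · rw [ZSpan.volume_fundamentalDomain]
    congr 1
    rw [← hd]
    congr 2
    ext i w
    simp only [Matrix.of_apply]
    rw [hb i]
    rfl

theorem cell_exists (x : Id K) : ∃ C : Set (Em K → ℝ), IsCell x C := by
  classical
  obtain ⟨b, hb, -⟩ := ge1_basis x
  refine ⟨ZSpan.fundamentalDomain b, ZSpan.fundamentalDomain_measurableSet b, ?_, ?_, ?_⟩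
  · obtain ⟨R, hR⟩ := (ZSpan.fundamentalDomain_isBounded b).exists_norm_le
    refine ⟨R, fun t ht w => ?_⟩
    have h1 := norm_le_pi_norm t w
    rw [Real.norm_eq_abs] at h1
    exact h1.trans (hR t ht)
  · intro t
    obtain ⟨v, hv, -⟩ := ZSpan.exist_unique_vadd_mem_fundamentalDomain b t
    obtain ⟨β, hβ, h1⟩ := (hb v).mp v.2
    refine ⟨β, hβ, ?_⟩
    rw [h1, add_comm]
    exact hv
  · intro t β hβ h1 h2
    obtain ⟨v, hv, hu⟩ := ZSpan.exist_unique_vadd_mem_fundamentalDomain b t
    have h3 := hu 0 (by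
      show (0 : Em K → ℝ) + t ∈ _
      rw [zero_add]
      exact h1)
    have h4 := hu ⟨em β, (hb _).mpr ⟨β, hβ, rfl⟩⟩ (by
      show em β + t ∈ _
      rw [add_comm]
      exact h2)
    have h5 : em β = 0 := by
      have := h4.trans h3.symm
      exact congrArg Subtype.val this
    have hE : Nonempty (Em K) := by
      rw [← Fintype.card_pos_iff, card_em]
      exact dg_pos
    obtain ⟨w⟩ := hE
    have h6 := congrFun h5 w
    simpa [em] using h6

theorem cell_vol {x : Id K} {C : Set (Em K → ℝ)} (h : IsCell x C) :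
    volume C = ENNReal.ofReal (√(dK K) * nI x) := by
  classical
  obtain ⟨b, hb, hv⟩ := ge1_basis x
  rw [← hv]
  have hC : IsAddFundamentalDomain (Submodule.span ℤ (Set.range b)).toAddSubgroup C
      (volume : Measure (Em K → ℝ)) := by
    refine IsAddFundamentalDomain.mk' h.meas.nullMeasurableSet fun t => ?_
    obtain ⟨β, hβ, hβC⟩ := h.ex t
    refine ⟨⟨em β, (hb _).mpr ⟨β, hβ, rfl⟩⟩, ?_, ?_⟩
    · show em β + t ∈ C
      rw [add_comm]
      exact hβC
    · rintro ⟨u, hu⟩ huC
      obtain ⟨γ, hγ, rfl⟩ := (hb _).mp hu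
      have huC' : em γ + t ∈ C := huC
      have h1 : γ - β = 0 := by
        refine h.uni (t + em β) (γ - β) (x.m.sub_mem hγ hβ) hβC ?_
        rw [ge1_em_sub]
        have : t + em β + (em γ - em β) = em γ + t := by abel
        rw [this]
        exact huC'
      have h2 : γ = β := sub_eq_zero.mp h1
      subst h2
      rfl
  have hD := ZSpan.isAddFundamentalDomain' b (volume : Measure (Em K → ℝ))
  have hcount : Countable (Submodule.span ℤ (Set.range b)).toAddSubgroup :=
    inferInstanceAs (Countable (Submodule.span ℤ (Set.range b)))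
  exact hC.measure_eq hD


end tr

end Pool.Agent.HSG
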