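import Pool.Agent.Lib_helper84.HSG.DefsB
import Pool.Agent.Lib_helper84.HSGF.GA3
import Pool.Agent.Lib_helper84.HSGF.GD1
import Pool.Agent.Lib_helper84.HSGF.GE1

/-! # HSG, block GK2 (FPA): uniqueness and Parseval's formula for Fourier series -/

namespace Pool.Agent.HSG

open Complex MeasureTheory Filter Topology UpperHalfPlane NumberField IsDedekindDomain
open scoped nonZeroDivisors MatrixGroups ENNReal

variable {K : Type} [Field K] [NumberField K]

/-- the character `exp(2 π i ∑ w(ν) t_w)` -/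
noncomputable def gk2_e (ν : K) (t : Em K → ℝ) : ℂ :=
  cexp (2 * Real.pi * Complex.I * ((∑ w : Em K, w ν * t w : ℝ) : ℂ))

theorem gk2_e_norm (ν : K) (t : Em K → ℝ) : ‖gk2_e ν t‖ = 1 := by
  unfold gk2_e
  have h : (2 * Real.pi * Complex.I * ((∑ w : Em K, w ν * t w : ℝ) : ℂ)) =
      ((2 * Real.pi * (∑ w : Em K, w ν * t w) : ℝ) : ℂ) * Complex.I := by
    push_cast
    ring
  rw [h, Complex.norm_exp_ofReal_mul_I]

theorem gk2_e_add (ν : K) (t s : Em K → ℝ) : gk2_e ν (t + s) = gk2_e ν t * gk2_e ν s := by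
  unfold gk2_e
  rw [← Complex.exp_add]
  congr 1
  simp only [Pi.add_apply, mul_add, Finset.sum_add_distrib]
  push_cast
  ring

theorem gk2_e_sub (ν ν' : K) (t : Em K → ℝ) :
    gk2_e (ν - ν') t = gk2_e ν t * starRingEnd ℂ (gk2_e ν' t) := by
  unfold gk2_e
  rw [← Complex.exp_conj, ← Complex.exp_add]
  congr 1
  have h : (∑ w : Em K, w (ν - ν') * t w) = (∑ w : Em K, w ν * t w) - ∑ w : Em K, w ν' * t w := by
    rw [← Finset.sum_sub_distrib]
    refine Finset.sum_congr rfl fun w _ => ?_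
    rw [map_sub, _root_.sub_mul]
  rw [h]
  simp only [map_mul, Complex.conj_ofReal, Complex.conj_I, map_ofNat, Complex.ofReal_sub]
  ring

theorem gk2_e_zero (t : Em K → ℝ) : gk2_e (0 : K) t = 1 := by
  unfold gk2_e
  simp

theorem gk2_e_cont (ν : K) : Continuous (gk2_e ν) := by
  unfold gk2_e
  fun_prop

theorem gk2_eT (ν : K) (t : Em K → ℝ) (z : Em K → ℍ) :
    eT ν (trH t z) = gk2_e ν t * eT ν z := by
  unfold eT gk2_e
  rw [← Complex.exp_add]
  congr 1
  have h : ∀ w : Em K, ((trH t z w : ℍ) : ℂ) = ((t w : ℝ) : ℂ) + (z w : ℂ) := by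
    intro w
    unfold trH
    rw [UpperHalfPlane.coe_vadd]
  simp only [h, mul_add, Finset.sum_add_distrib]
  push_cast
  ring

section tr
variable [IsTotallyReal K]

/-- the lattice of an ideal -/
def gk2_lat (x : Id K) : AddSubgroup (Em K → ℝ) where
  carrier := {t | ∃ β ∈ x.m, em β = t}
  add_mem' := by
    rintro _ _ ⟨β, hβ, rfl⟩ ⟨γ, hγ, rfl⟩
    refine ⟨β + γ, x.m.add_mem hβ hγ, ?_⟩
    funext w
    simp [em]
  zero_mem' := ⟨0, x.m.zero_mem, by funext w; simp [em]⟩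
  neg_mem' := by
    rintro _ ⟨β, hβ, rfl⟩
    refine ⟨-β, x.m.neg_mem hβ, ?_⟩
    funext w
    simp [em]

instance gk2_count (x : Id K) : Countable (gk2_lat x) := by
  have := countK K
  have h : Function.Surjective (fun β : x.m => (⟨em β.1, β.1, β.2, rfl⟩ : gk2_lat x)) := by
    rintro ⟨_, β, hβ, rfl⟩
    exact ⟨⟨β, hβ⟩, rfl⟩
  exact h.countable

theorem gk2_fd (x : Id K) {C : Set (Em K → ℝ)} (hC : IsCell x C) (s : Em K → ℝ) :
    IsAddFundamentalDomain (gk2_lat x) ((fun t => t + s) ⁻¹' C) (volume : Measure (Em K → ℝ)) := by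
  refine IsAddFundamentalDomain.mk' ?_ ?_
  · exact ((measurable_id.add_const s) hC.meas).nullMeasurableSet
  · intro t
    obtain ⟨β, hβ, h⟩ := hC.ex (t + s)
    refine ⟨⟨em β, β, hβ, rfl⟩, ?_, ?_⟩
    · show em β + t + s ∈ C
      rwa [add_assoc, add_comm]
    · rintro ⟨_, γ, hγ, rfl⟩ h'
      have h2 : t + s + em γ ∈ C := by
        have : em γ + t + s ∈ C := h'
        rwa [add_assoc, add_comm] at this
      have h3 : t + s + em β + em (γ - β) ∈ C := by
        have : t + s + em β + em (γ - β) = t + s + em γ := by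
          funext w
          simp only [em, Pi.add_apply, map_sub]
          ring
        rwa [this]
      have h4 := hC.uni _ _ (x.m.sub_mem hγ hβ) h h3
      have h5 : γ = β := sub_eq_zero.mp h4
      subst h5
      rfl

theorem gk2_per (x : Id K) {ν : K} (hν : ν ∈ ((DD K)⁻¹ * x⁻¹).m) {β : K} (hβ : β ∈ x.m)
    (t : Em K → ℝ) : gk2_e ν (em β + t) = gk2_e ν t := by
  rw [gk2_e_add]
  obtain ⟨n, hn⟩ := (dual_iff x ν).mpr hν β hβ
  have h1 : gk2_e ν (em β) = 1 := by
    unfold gk2_e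
    have : ∑ w : Em K, w ν * em β w = (n : ℝ) := by
      rw [← hn]
      refine Finset.sum_congr rfl fun w _ => ?_
      rw [map_mul]
      rfl
    rw [this, Complex.exp_eq_one_iff]
    exact ⟨n, by push_cast; ring⟩
  rw [h1, one_mul]

theorem gk2_int0 (x : Id K) {C : Set (Em K → ℝ)} (hC : IsCell x C) {ν : K}
    (hν : ν ∈ ((DD K)⁻¹ * x⁻¹).m) (h0 : ν ≠ 0) : ∫ t in C, gk2_e ν t = 0 := by
  have hne : Nonempty (Em K) := by
    rw [← Fintype.card_pos_iff, card_em]
    exact dg_pos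
  obtain ⟨w0⟩ := hne
  classical
  have hw0 : w0 ν ≠ 0 := by
    rw [Ne, map_eq_zero]
    exact h0
  let s : Em K → ℝ := Pi.single w0 (1 / (2 * w0 ν))
  have hs : gk2_e ν s = -1 := by
    unfold gk2_e
    have h1 : ∑ w : Em K, w ν * s w = 1 / 2 := by
      rw [Finset.sum_eq_single w0]
      · simp only [s, Pi.single_eq_same]
        field_simp
      · intro w _ hw
        simp only [s, Pi.single_eq_of_ne hw, mul_zero]
      · intro h
        exact absurd (Finset.mem_univ _) h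
    rw [h1]
    have h2 : (2 * Real.pi * Complex.I * ((1 / 2 : ℝ) : ℂ)) = Real.pi * Complex.I := by
      push_cast
      ring
    rw [h2, Complex.exp_pi_mul_I]
  have h1 : ∫ t in C, gk2_e ν t = ∫ t in (fun t => t + s) ⁻¹' C, gk2_e ν t := by
    have h2 := gk2_fd x hC 0
    have h3 : (fun t : Em K → ℝ => t + 0) ⁻¹' C = C := by
      ext t
      simp
    rw [h3] at h2
    refine h2.setIntegral_eq (gk2_fd x hC s) (f := gk2_e ν) ?_
    rintro ⟨_, β, hβ, rfl⟩ t
    exact gk2_per x hν hβ t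
  have h2 : ∫ t in (fun t => t + s) ⁻¹' C, gk2_e ν (t + s) = ∫ t in C, gk2_e ν t := by
    have hmp : MeasurePreserving (fun t : Em K → ℝ => t + s) volume volume :=
      measurePreserving_add_right volume s
    exact hmp.setIntegral_preimage_emb (measurableEmbedding_addRight s) (gk2_e ν) C
  have h3 : ∫ t in (fun t => t + s) ⁻¹' C, gk2_e ν (t + s) =
      -∫ t in (fun t => t + s) ⁻¹' C, gk2_e ν t := by
    rw [← integral_neg]
    refine integral_congr_ae (Eventually.of_forall fun t => ?_)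
    show gk2_e ν (t + s) = -gk2_e ν t
    rw [gk2_e_add, hs]
    ring
  have h4 : ∫ t in C, gk2_e ν t = -∫ t in C, gk2_e ν t := by
    calc ∫ t in C, gk2_e ν t = ∫ t in (fun t => t + s) ⁻¹' C, gk2_e ν (t + s) := h2.symm
      _ = -∫ t in (fun t => t + s) ⁻¹' C, gk2_e ν t := h3
      _ = -∫ t in C, gk2_e ν t := by rw [h1]
  have h5 : (2 : ℂ) * ∫ t in C, gk2_e ν t = 0 := by
    rw [two_mul]
    nth_rewrite 1 [h4]
    ring
  simpa using h5

theorem gk2_swap {μ : Measure (Em K → ℝ)} [IsFiniteMeasure μ] {G : (Em K → ℝ) → ℂ}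
    (hG : Measurable G) {B : ℝ} (hB : ∀ t, ‖G t‖ ≤ B) {b : K → ℂ} (hb : Summable (fun ν => ‖b ν‖)) :
    ∫ t, G t * ∑' ν, b ν * gk2_e ν t ∂μ = ∑' ν, b ν * ∫ t, G t * gk2_e ν t ∂μ := by
  have := countK K
  have hB0 : 0 ≤ B := (norm_nonneg _).trans (hB 0)
  have hi : ∀ ν, Integrable (fun t => b ν * (G t * gk2_e ν t)) μ := by
    intro ν
    refine Integrable.const_mul ?_ _
    refine Integrable.of_bound (hG.mul (gk2_e_cont ν).measurable).aestronglyMeasurable B ?_
    refine Eventually.of_forall fun t => ?_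
    rw [norm_mul, gk2_e_norm, mul_one]
    exact hB t
  have hs : Summable (fun ν => ∫ t, ‖b ν * (G t * gk2_e ν t)‖ ∂μ) := by
    refine Summable.of_nonneg_of_le (fun ν => integral_nonneg fun t => norm_nonneg _) ?_
      ((hb.mul_right (B * (μ Set.univ).toReal)))
    intro ν
    calc ∫ t, ‖b ν * (G t * gk2_e ν t)‖ ∂μ ≤ ∫ t, ‖b ν‖ * B ∂μ := by
          refine integral_mono (hi ν).norm (integrable_const _) fun t => ?_
          show ‖b ν * (G t * gk2_e ν t)‖ ≤ ‖b ν‖ * B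
          rw [norm_mul, norm_mul, gk2_e_norm, mul_one]
          exact mul_le_mul_of_nonneg_left (hB t) (norm_nonneg _)
      _ = ‖b ν‖ * (B * (μ Set.univ).toReal) := by
          rw [integral_const, smul_eq_mul, Measure.real]
          ring
  have h := (hasSum_integral_of_summable_integral_norm hi hs).tsum_eq
  have h1 : ∀ t, ∑' ν, b ν * (G t * gk2_e ν t) = G t * ∑' ν, b ν * gk2_e ν t := by
    intro t
    rw [← tsum_mul_left]
    refine tsum_congr fun ν => ?_
    ring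
  simp only [h1] at h
  rw [← h]
  refine tsum_congr fun ν => ?_
  rw [integral_const_mul]

theorem gk2_main (x : Id K) {C : Set (Em K → ℝ)} (hC : IsCell x C) {b : K → ℂ}
    (hb0 : ∀ ν, ν ∉ ((DD K)⁻¹ * x⁻¹).m → b ν = 0) (hb : Summable (fun ν => ‖b ν‖)) :
    ∫⁻ t in C, ‖∑' ν, b ν * gk2_e ν t‖ₑ ^ 2 =
      ENNReal.ofReal (√(dK K) * nI x) * ∑' ν, ‖b ν‖ₑ ^ 2 := by
  classical
  have hv := cell_vol hC
  have hV : 0 ≤ √(dK K) * nI x := mul_nonneg (Real.sqrt_nonneg _) (nI_pos x).le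
  set V : ℝ := √(dK K) * nI x
  have hfin : IsFiniteMeasure ((volume : Measure (Em K → ℝ)).restrict C) := by
    refine ⟨?_⟩
    rw [Measure.restrict_apply_univ, hv]
    exact ENNReal.ofReal_lt_top
  have hvr : ((volume : Measure (Em K → ℝ)).restrict C).real Set.univ = V := by
    rw [Measure.real, Measure.restrict_apply_univ, hv, ENNReal.toReal_ofReal hV]
  set F : (Em K → ℝ) → ℂ := fun t => ∑' ν, b ν * gk2_e ν t with hF
  have hFc : Continuous F := by
    refine continuous_tsum (fun ν => continuous_const.mul (gk2_e_cont ν)) hb ?_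
    intro ν t
    rw [norm_mul, gk2_e_norm, mul_one]
  have hFb : ∀ t, ‖F t‖ ≤ ∑' ν, ‖b ν‖ := by
    intro t
    refine tsum_of_norm_bounded hb.hasSum fun ν => ?_
    rw [norm_mul, gk2_e_norm, mul_one]
  have hcoef : ∀ ν0, ν0 ∈ ((DD K)⁻¹ * x⁻¹).m →
      ∫ t in C, F t * starRingEnd ℂ (gk2_e ν0 t) = (V : ℂ) * b ν0 := by
    intro ν0 hν0
    have h1 := gk2_swap (μ := (volume : Measure (Em K → ℝ)).restrict C)
      (G := fun t => starRingEnd ℂ (gk2_e ν0 t)) (B := 1)
      (Complex.continuous_conj.comp (gk2_e_cont ν0)).measurable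
      (fun t => by rw [RCLike.norm_conj, gk2_e_norm]) hb
    have h2 : ∀ ν, b ν * ∫ t in C, starRingEnd ℂ (gk2_e ν0 t) * gk2_e ν t =
        if ν = ν0 then (V : ℂ) * b ν0 else 0 := by
      intro ν
      have h3 : ∀ t, starRingEnd ℂ (gk2_e ν0 t) * gk2_e ν t = gk2_e (ν - ν0) t := by
        intro t
        rw [gk2_e_sub, mul_comm]
      simp only [h3]
      split_ifs with h
      · subst h
        simp only [sub_self, gk2_e_zero]
        rw [integral_const, hvr, mul_comm]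
        simp
      · by_cases hν : ν ∈ ((DD K)⁻¹ * x⁻¹).m
        · rw [gk2_int0 x hC (Submodule.sub_mem _ hν hν0) (sub_ne_zero.mpr h), mul_zero]
        · rw [hb0 ν hν, zero_mul]
    simp only [h2] at h1
    rw [tsum_ite_eq] at h1
    rw [← h1]
    refine integral_congr_ae (Eventually.of_forall fun t => ?_)
    exact mul_comm _ _
  have hsum2 : ∫ t in C, starRingEnd ℂ (F t) * F t = ∑' ν, ((V * ‖b ν‖ ^ 2 : ℝ) : ℂ) := by
    have h1 := gk2_swap (μ := (volume : Measure (Em K → ℝ)).restrict C)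
      (G := fun t => starRingEnd ℂ (F t)) (B := ∑' ν, ‖b ν‖)
      (Complex.continuous_conj.comp hFc).measurable
      (fun t => by rw [RCLike.norm_conj]; exact hFb t) hb
    rw [show (∫ t in C, starRingEnd ℂ (F t) * F t) =
      ∫ t in C, starRingEnd ℂ (F t) * ∑' ν, b ν * gk2_e ν t from rfl, h1]
    refine tsum_congr fun ν => ?_
    by_cases hν : ν ∈ ((DD K)⁻¹ * x⁻¹).m
    · have h2 : ∫ t in C, starRingEnd ℂ (F t) * gk2_e ν t = starRingEnd ℂ ((V : ℂ) * b ν) := by
        rw [← hcoef ν hν, ← integral_conj]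
        refine integral_congr_ae (Eventually.of_forall fun t => ?_)
        show starRingEnd ℂ (F t) * gk2_e ν t = starRingEnd ℂ (F t * starRingEnd ℂ (gk2_e ν t))
        rw [map_mul, Complex.conj_conj]
      rw [h2, map_mul, Complex.conj_ofReal]
      have h3 : b ν * starRingEnd ℂ (b ν) = ((‖b ν‖ ^ 2 : ℝ) : ℂ) := by
        rw [Complex.mul_conj, Complex.normSq_eq_norm_sq]
      push_cast at h3 ⊢
      rw [← h3]
      ring
    · rw [hb0 ν hν]
      simp
  have hsq : Summable (fun ν => ‖b ν‖ ^ 2) := by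
    have h1 : ∀ ν, ‖b ν‖ ^ 2 ≤ (∑' ν', ‖b ν'‖) * ‖b ν‖ := by
      intro ν
      rw [sq]
      exact mul_le_mul_of_nonneg_right (hb.le_tsum ν fun _ _ => norm_nonneg _) (norm_nonneg _)
    exact Summable.of_nonneg_of_le (fun ν => sq_nonneg _) h1 (hb.mul_left _)
  have hreal : ∫ t in C, ‖F t‖ ^ 2 = V * ∑' ν, ‖b ν‖ ^ 2 := by
    have h1 : ((∫ t in C, ‖F t‖ ^ 2 : ℝ) : ℂ) = ((V * ∑' ν, ‖b ν‖ ^ 2 : ℝ) : ℂ) := by
      rw [← integral_complex_ofReal, ← tsum_mul_left, Complex.ofReal_tsum, ← hsum2]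
      refine integral_congr_ae (Eventually.of_forall fun t => ?_)
      show ((‖F t‖ ^ 2 : ℝ) : ℂ) = starRingEnd ℂ (F t) * F t
      rw [mul_comm, Complex.mul_conj, Complex.normSq_eq_norm_sq]
    exact_mod_cast h1
  have e1 : ∀ z : ℂ, ‖z‖ₑ ^ 2 = ENNReal.ofReal (‖z‖ ^ 2) := by
    intro z
    rw [ENNReal.ofReal_pow (norm_nonneg _), ofReal_norm]
  simp only [e1]
  rw [← ENNReal.ofReal_tsum_of_nonneg (fun ν => sq_nonneg _) hsq, ← ENNReal.ofReal_mul hV, ← hreal]
  symm
  refine ofReal_integral_eq_lintegral_ofReal ?_ (Eventually.of_forall fun t => sq_nonneg _)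
  refine Integrable.of_bound (hFc.norm.pow 2).measurable.aestronglyMeasurable
    ((∑' ν, ‖b ν‖) ^ 2) ?_
  refine Eventually.of_forall fun t => ?_
  rw [Real.norm_of_nonneg (sq_nonneg _)]
  exact pow_le_pow_left₀ (norm_nonneg _) (hFb t) 2

theorem fou_parseval (x : Id K) {C : Set (Em K → ℝ)} (hC : IsCell x C) {a : K → ℂ}
    (ha : ∀ ν, ν ∉ ((DD K)⁻¹ * x⁻¹).m → a ν = 0) (z : Em K → ℍ)
    (hs : Summable (fun ν => a ν * eT ν z)) :
    ∫⁻ t in C, ‖∑' ν, a ν * eT ν (trH t z)‖ₑ ^ 2 =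
      ENNReal.ofReal (√(dK K) * nI x) * ∑' ν, ‖a ν * eT ν z‖ₑ ^ 2 := by
  rw [← gk2_main x hC (b := fun ν => a ν * eT ν z)
    (fun ν hν => by rw [ha ν hν, zero_mul]) hs.norm]
  refine lintegral_congr fun t => ?_
  congr 3
  funext ν
  rw [gk2_eT]
  ring

theorem fou_unique (x : Id K) {a : K → ℂ} (ha : ∀ ν, ν ∉ ((DD K)⁻¹ * x⁻¹).m → a ν = 0)
    (h : ∀ z, HasSum (fun ν => a ν * eT ν z) 0) : a = 0 := by
  obtain ⟨C, hC⟩ := cell_exists x
  let z : Em K → ℍ := fun _ => UpperHalfPlane.I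
  have h1 := fou_parseval x hC ha z (h z).summable
  have h2 : ∀ t : Em K → ℝ, ∑' ν, a ν * eT ν (trH t z) = 0 := fun t => (h (trH t z)).tsum_eq
  simp only [h2, enorm_zero, ne_eq, OfNat.ofNat_ne_zero, not_false_eq_true, zero_pow,
    lintegral_zero] at h1
  have hV : 0 < √(dK K) * nI x :=
    mul_pos (Real.sqrt_pos.mpr (lt_of_lt_of_le one_pos dK_ge)) (nI_pos x)
  have h3 := mul_eq_zero.mp h1.symm
  rcases h3 with h3 | h3
  · rw [ENNReal.ofReal_eq_zero] at h3
    linarith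
  · rw [ENNReal.tsum_eq_zero] at h3
    funext ν
    have h4 := h3 ν
    rw [pow_eq_zero_iff two_ne_zero, enorm_eq_zero, mul_eq_zero] at h4
    rcases h4 with h4 | h4
    · exact h4
    · exact absurd h4 (Complex.exp_ne_zero _)

end tr

end Pool.Agent.HSG
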