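import Pool.Agent.Lib_helper84.HSG.DefsB
import Pool.Agent.Lib_helper84.HSGF.GA1
import Pool.Agent.Lib_helper84.HSGF.GA3
import Pool.Agent.Lib_helper84.HSGF.GB1
import Pool.Agent.Lib_helper84.HSGF.GB2
import Pool.Agent.Lib_helper84.HSGF.GD1
import Pool.Agent.Lib_helper84.HSGF.GJ2
import Pool.Agent.Lib_helper84.HSGF.GK1
import Pool.Agent.Lib_helper84.HSGF.GK2

/-! # Hilbert-Selberg, PART II: block GL1 (COE), by helper24 -/

namespace Pool.Agent.HSG

open Complex MeasureTheory Filter Topology UpperHalfPlane NumberField IsDedekindDomain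
open scoped nonZeroDivisors MatrixGroups ENNReal

variable {K : Type} [Field K] [NumberField K]

omit [NumberField K] in
theorem gl1_nm_coe (β : K) :
    ((nm β : SL(2, K)) : Matrix (Fin 2) (Fin 2) K) = !![1, β; 0, 1] := rfl

omit [NumberField K] in
theorem gl1_dgm_coe (α : Kˣ) :
    ((dgm α : GL (Fin 2) K) : Matrix (Fin 2) (Fin 2) K) = !![(α : K), 0; 0, 1] := rfl

omit [NumberField K] in
theorem gl1_nm_row (β : K) (z : Em K → ℍ) (w : Em K) :
    lz ((nm β : GL (Fin 2) K) 1) z w = 1 := by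
  simp [lz, gl1_nm_coe]

omit [NumberField K] in
theorem gl1_dgm_row (α : Kˣ) (z : Em K → ℍ) (w : Em K) :
    lz ((dgm α : GL (Fin 2) K) 1) z w = 1 := by
  simp [lz, gl1_dgm_coe]

omit [NumberField K] in
theorem gl1_nm_act (β : K) (z : Em K → ℍ) : (nm β : GL (Fin 2) K) • z = trH (em β) z := by
  funext w
  show (Matrix.GeneralLinearGroup.map (n := Fin 2) w (nm β : GL (Fin 2) K)) • z w =
    (em β w) +ᵥ z w
  ext1
  rw [UpperHalfPlane.coe_smul_of_det_pos]
  · simp [UpperHalfPlane.num, UpperHalfPlane.denom, gl1_nm_coe, em, add_comm]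
  · simp [Matrix.det_fin_two, gl1_nm_coe]

omit [NumberField K] in
theorem gl1_dgm_act {α : Kˣ} (hα : α ∈ Kp K) (z : Em K → ℍ) (w : Em K) :
    (((dgm α • z) w : ℍ) : ℂ) = ((w (α : K) : ℝ) : ℂ) * (z w : ℂ) := by
  show (((Matrix.GeneralLinearGroup.map (n := Fin 2) w (dgm α)) • z w : ℍ) : ℂ) = _
  rw [UpperHalfPlane.coe_smul_of_det_pos]
  · simp [UpperHalfPlane.num, UpperHalfPlane.denom, gl1_dgm_coe]
  · have := hα w
    simpa [Matrix.det_fin_two, gl1_dgm_coe] using this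

theorem gl1_eT_dgm {α : Kˣ} (hα : α ∈ Kp K) (ν : K) (z : Em K → ℍ) :
    eT ν (dgm α • z) = eT (ν * α) z := by
  unfold eT
  congr 2
  refine Finset.sum_congr rfl (fun w _ => ?_)
  rw [gl1_dgm_act hα, map_mul]
  push_cast
  ring

/-- the norm of the exponential -/
theorem gl1_eT_norm (ν : K) (z : Em K → ℍ) :
    ‖eT ν z‖ = Real.exp (-(2 * Real.pi * ∑ w : Em K, w ν * (z w).im)) := by
  unfold eT
  rw [Complex.norm_exp]
  congr 1
  have h1 : (2 * Real.pi * Complex.I * ∑ w : Em K, ((w ν : ℝ) : ℂ) * (z w : ℂ)) =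
      Complex.I * (((2 * Real.pi : ℝ) : ℂ) * ∑ w : Em K, ((w ν : ℝ) : ℂ) * (z w : ℂ)) := by
    push_cast
    ring
  rw [h1, Complex.I_mul_re, Complex.im_ofReal_mul, Complex.im_sum]
  simp only [Complex.im_ofReal_mul, UpperHalfPlane.coe_im]

theorem gl1_per {k : ℕ} {F : (Em K → ℍ) → Lat K → ℂ} (hF : IsForm k F) (b : Id K) {β : K}
    (hβ : β ∈ (b⁻¹).m) (z : Em K → ℍ) :
    F (trH (em β) z) (Lat.ds b 1) = F z (Lat.ds b 1) := by
  have h1 := hF.slash (nm β : GL (Fin 2) K) (fun w => by simp) z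
    (Lat.ds b 1)
  rw [gl1_nm_act, ds_nm b 1 (by rwa [one_div])] at h1
  rw [h1, Finset.prod_congr rfl (fun w _ => by rw [gl1_nm_row, one_pow]), Finset.prod_const_one,
    one_mul]

theorem gl1_dil {k : ℕ} {F : (Em K → ℍ) → Lat K → ℂ} (hF : IsForm k F) (b : Id K) {α : Kˣ}
    (hα : α ∈ Kp K) (z : Em K → ℍ) :
    F (dgm α • z) (Lat.ds b 1) = F z (Lat.ds (prI α * b) 1) := by
  have h1 := hF.slash (dgm α) (fun w => by
    have := hα w
    simpa [Matrix.det_fin_two, gl1_dgm_coe] using this) z (Lat.ds b 1)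
  rw [ds_dgm] at h1
  rw [h1, Finset.prod_congr rfl (fun w _ => by rw [gl1_dgm_row, one_pow]), Finset.prod_const_one,
    one_mul]

section tr
variable [IsTotallyReal K]

/-- the Fourier coefficients of one lattice -/
structure Gl1F (F : (Em K → ℍ) → Lat K → ℂ) (b : Id K) (a : K → ℂ) : Prop where
  supp : ∀ ν, ν ∉ ((DD K)⁻¹ * b).m → a ν = 0
  sum : ∀ z, HasSum (fun ν => a ν * eT ν z) (F z (Lat.ds b 1))
  bd : ∀ (z : Em K → ℍ) (B : ℝ), (∀ t : Em K → ℝ, ‖F (trH t z) (Lat.ds b 1)‖ ≤ B) →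
        ∀ ν, ‖a ν * eT ν z‖ ≤ B

theorem gl1_ex {k : ℕ} {F : (Em K → ℍ) → Lat K → ℂ} (hF : IsForm k F) (b : Id K) :
    ∃ a, Gl1F F b a := by
  obtain ⟨a, h1, h2, h3⟩ := fou b⁻¹ (f := fun z => F z (Lat.ds b 1)) (hF.holo _)
    (fun β hβ z => gl1_per hF b hβ z)
  rw [inv_inv] at h1
  exact ⟨a, h1, h2, h3⟩

omit [IsTotallyReal K] in
theorem gl1_NY_tr (t : Em K → ℝ) (z : Em K → ℍ) : NY (trH t z) = NY z := by
  unfold NY trH
  refine Finset.prod_congr rfl (fun w _ => ?_)
  simp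

omit [IsTotallyReal K] in
/-- the coefficients vanish outside the totally positive elements -/
theorem gl1_pos {k : ℕ} (hk : 1 ≤ k) {F : (Em K → ℍ) → Lat K → ℂ} (hF : IsForm k F) (b : Id K)
    {a : K → ℂ} (ha : Gl1F F b a) (ν : K) {w₀ : Em K} (hν : w₀ ν ≤ 0) : a ν = 0 := by
  classical
  obtain ⟨C, hC⟩ := hF.bdd (Lat.ds b 1)
  have hk0 : (0 : ℝ) < (k : ℝ) / 2 := by positivity
  -- the points
  let zT : ℝ → (Em K → ℍ) := fun T w => if h : w = w₀ ∧ 0 < T then
    ⟨T * Complex.I, by simpa using h.2⟩ else UpperHalfPlane.I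
  have hz0 : ∀ T, 0 < T → (zT T w₀).im = T := by
    intro T hT
    have : zT T w₀ = ⟨T * Complex.I, by simpa using hT⟩ := dif_pos ⟨rfl, hT⟩
    rw [this]
    simp [UpperHalfPlane.im]
  have hz1 : ∀ T w, w ≠ w₀ → (zT T w).im = 1 := by
    intro T w hw
    have : zT T w = UpperHalfPlane.I := dif_neg (fun h => hw h.1)
    rw [this]
    simp
  have h1 : ∀ T, 0 < T → NY (zT T) = T := by
    intro T hT
    unfold NY
    rw [Finset.prod_eq_single w₀ (fun w _ hw => hz1 T w hw) (by simp)]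
    exact hz0 T hT
  set c : ℝ := ∑ w ∈ Finset.univ.erase w₀, w ν with hc
  have h2 : ∀ T, 0 < T → ∑ w : Em K, w ν * (zT T w).im = w₀ ν * T + c := by
    intro T hT
    rw [← Finset.add_sum_erase _ _ (Finset.mem_univ w₀), hz0 T hT]
    congr 1
    refine Finset.sum_congr rfl (fun w hw => ?_)
    rw [hz1 T w (Finset.ne_of_mem_erase hw), mul_one]
  have h3 : ∀ T, 0 < T → ‖a ν‖ * Real.exp (-(2 * Real.pi * c)) ≤ C * T ^ (-((k : ℝ) / 2)) := by
    intro T hT
    have h4 := ha.bd (zT T) (C * T ^ (-((k : ℝ) / 2))) (fun t => by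
      have h5 := hC (trH t (zT T))
      rw [gl1_NY_tr, h1 T hT] at h5
      rw [Real.rpow_neg hT.le, ← div_eq_mul_inv, le_div_iff₀ (Real.rpow_pos_of_pos hT _)]
      exact h5) ν
    rw [norm_mul, gl1_eT_norm, h2 T hT] at h4
    refine le_trans ?_ h4
    refine mul_le_mul_of_nonneg_left (Real.exp_le_exp.mpr ?_) (norm_nonneg _)
    have h6 : w₀ ν * T ≤ 0 := mul_nonpos_of_nonpos_of_nonneg hν hT.le
    have := Real.pi_pos
    nlinarith
  have h4 : Tendsto (fun T : ℝ => C * T ^ (-((k : ℝ) / 2))) atTop (𝓝 (C * 0)) :=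
    (tendsto_rpow_neg_atTop hk0).const_mul C
  have h5 : ‖a ν‖ * Real.exp (-(2 * Real.pi * c)) ≤ C * 0 :=
    ge_of_tendsto h4 ((eventually_gt_atTop 0).mono (fun T hT => h3 T hT))
  rw [mul_zero] at h5
  have h6 := Real.exp_pos (-(2 * Real.pi * c))
  have h7 : ‖a ν‖ ≤ 0 := by
    by_contra h
    push Not at h
    nlinarith [mul_pos h h6]
  exact norm_le_zero_iff.mp h7

/-- the coefficients of `b` and of `α b` -/
theorem gl1_shift {k : ℕ} {F : (Em K → ℍ) → Lat K → ℂ} (hF : IsForm k F)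
    (b : Id K) {α : Kˣ} (hα : α ∈ Kp K) {a a' : K → ℂ} (ha : Gl1F F b a)
    (ha' : Gl1F F (prI α * b) a') (ν : K) : a' (ν * α) = a ν := by
  have h1 : (fun μ => a' μ - a (μ * ((α⁻¹ : Kˣ) : K))) = 0 := by
    refine fou_unique (prI α * b)⁻¹ (fun μ hμ => ?_) (fun z => ?_)
    · rw [inv_inv] at hμ
      show a' μ - a (μ * ((α⁻¹ : Kˣ) : K)) = 0
      rw [ha'.supp μ hμ, ha.supp, sub_zero]
      intro h
      apply hμ
      rw [mul_left_comm, mem_prI_mul, mul_comm _ μ]
      exact h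
    · have h2 := ha'.sum z
      have h3 := ha.sum (dgm α • z)
      rw [gl1_dil hF b hα] at h3
      have h4 : HasSum (fun μ => a (μ * ((α⁻¹ : Kˣ) : K)) * eT μ z)
          (F z (Lat.ds (prI α * b) 1)) := by
        rw [← (Equiv.mulRight₀ (α : K) α.ne_zero).hasSum_iff]
        have h5 : ((fun μ => a (μ * ((α⁻¹ : Kˣ) : K)) * eT μ z) ∘
            (Equiv.mulRight₀ (α : K) α.ne_zero)) = fun ν => a ν * eT ν (dgm α • z) := by
          funext μ
          simp [gl1_eT_dgm hα]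
        rw [h5]
        exact h3
      have h5 := h2.sub h4
      rw [sub_self] at h5
      have h6 : (fun μ => (a' μ - a (μ * ((α⁻¹ : Kˣ) : K))) * eT μ z) =
          fun μ => a' μ * eT μ z - a (μ * ((α⁻¹ : Kˣ) : K)) * eT μ z := by
        funext μ
        ring
      rw [h6]
      exact h5
  have h2 := congrFun h1 (ν * α)
  simpa [mul_assoc, sub_eq_zero] using h2

theorem co_exists {k : ℕ} (hk : 1 ≤ k) {F : (Em K → ℍ) → Lat K → ℂ} (hF : IsForm k F) :
    ∃ A, IsCo k F A := by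
  classical
  choose a ha using gl1_ex hF
  -- the coefficients
  have h1 : ∀ (b : Id K) (ν : Kp K), a b ((ν.1 : Kˣ) : K) = a (prI (ν.1)⁻¹ * b) 1 := by
    intro b ν
    rw [← gl1_shift hF b (inv_mem ν.2) (ha b) (ha (prI (ν.1)⁻¹ * b)) ((ν.1 : Kˣ) : K)]
    simp
  set A : Id K → ℂ := fun m => if IsInt m then a (DD K / m) 1 else 0 with hA
  have h2 : ∀ (b : Id K) (ν : Kp K), A (prI ν.1 * DD K * b⁻¹) = a b ((ν.1 : Kˣ) : K) := by
    intro b ν
    rw [h1]
    by_cases h : IsInt (prI ν.1 * DD K * b⁻¹)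
    · simp only [hA, if_pos h]
      congr 1
      rw [map_inv, div_eq_mul_inv, mul_inv_rev, mul_inv_rev, inv_inv, mul_comm (DD K),
        mul_assoc, mul_comm (DD K)⁻¹, mul_assoc, inv_mul_cancel, mul_one, mul_comm]
    · simp only [hA, if_neg h]
      rw [← h1]
      refine ((ha b).supp _ (fun h3 => h ?_)).symm
      have h4 : prI ν.1 * DD K * b⁻¹ = prI ν.1 / ((DD K)⁻¹ * b) := by
        rw [div_eq_mul_inv, mul_inv_rev, inv_inv, mul_assoc, mul_comm (DD K)]
      rw [h4, isInt_div]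
      intro y hy
      rw [← mul_one (prI ν.1), mem_prI_mul, mem_m_one] at hy
      obtain ⟨r, hr⟩ := hy
      have h5 : y = r • ((ν.1 : Kˣ) : K) := by
        rw [Algebra.smul_def]
        show y = (r : K) * _
        rw [hr, mul_comm, ← mul_assoc, Units.mul_inv, one_mul]
      rw [h5]
      exact Submodule.smul_mem _ _ h3
  obtain ⟨C, hC0, hC⟩ := pf_bdd hF
  refine ⟨A, fun m hm => if_neg hm, ⟨C * Real.exp (2 * Real.pi * dg K), fun m => ?_⟩, fun b z => ?_⟩
  · by_cases h : IsInt m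
    · simp only [hA, if_pos h]
      set z1 : Em K → ℍ := fun _ => UpperHalfPlane.I with hz1
      have h3 : NY z1 = 1 := by
        unfold NY
        simp [hz1]
      have hdK := dK_ge (K := K)
      have hm0 := nI_pos m
      have h4 := (ha (DD K / m)).bd z1 (C * nI m ^ ((k : ℝ) / 2)) (fun t => by
        have h5 := hC (trH t z1) (Lat.ds (DD K / m) 1)
        unfold PF at h5
        rw [gl1_NY_tr, h3, one_mul, det_ds, mul_one, nI_div, nI_DD, norm_mul, Complex.norm_real,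
          Real.norm_of_nonneg (Real.rpow_nonneg (by positivity) _),
          Real.div_rpow (by linarith) hm0.le, mul_div_assoc', div_le_iff₀
          (Real.rpow_pos_of_pos hm0 _)] at h5
        refine le_trans ?_ h5
        exact le_mul_of_one_le_right (norm_nonneg _) (Real.one_le_rpow hdK (by positivity))) 1
      rw [norm_mul, gl1_eT_norm] at h4
      have h5 : ∑ w : Em K, w (1 : K) * (z1 w).im = dg K := by
        simp [hz1, card_em]
      rw [h5, Real.exp_neg, ← div_eq_mul_inv, div_le_iff₀ (Real.exp_pos _)] at h4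
      calc _ ≤ _ := h4
        _ = _ := by ring
    · simp only [hA, if_neg h, norm_zero]
      have := Real.rpow_nonneg (nI_pos m).le ((k : ℝ) / 2)
      positivity
  · simp_rw [h2]
    have h3 := (ha b).sum z
    have h4 : Function.Injective (fun ν : Kp K => ((ν.1 : Kˣ) : K)) :=
      fun x y h => Subtype.ext (Units.ext h)
    rw [← h4.hasSum_iff] at h3
    · exact h3
    · intro ν hν
      by_cases h0 : ∃ w : Em K, w ν ≤ 0
      · obtain ⟨w, hw⟩ := h0
        rw [gl1_pos hk hF b (ha b) ν hw, zero_mul]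
      · exfalso
        push Not at h0
        have h5 : ν ≠ 0 := by
          have := card_em (K := K)
          have := dg_pos (K := K)
          have h6 : 0 < Fintype.card (Em K) := by omega
          obtain ⟨w⟩ := Fintype.card_pos_iff.mp h6
          rintro rfl
          have := h0 w
          simp at this
        exact hν ⟨⟨Units.mk0 ν h5, h0⟩, rfl⟩


end tr

end Pool.Agent.HSG
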