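import Pool.Agent.Lib_helper84.HSG.DefsB
import Pool.Agent.Lib_helper84.HSGF.GA1
import Pool.Agent.Lib_helper84.HSGF.GA3
import Pool.Agent.Lib_helper84.HSGF.GB1
import Pool.Agent.Lib_helper84.HSGF.GB2
import Pool.Agent.Lib_helper84.HSGF.GJ1
import Pool.Agent.Lib_helper84.HSGF.GK2

/-!
# HS Part II, block GL2: Fourier coefficients of a form
-/

namespace Pool.Agent.HSG

open Complex MeasureTheory Filter Topology UpperHalfPlane NumberField IsDedekindDomain
open scoped nonZeroDivisors MatrixGroups ENNReal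

variable {K : Type} [Field K] [NumberField K]

section tr
variable [IsTotallyReal K]

omit [NumberField K] [IsTotallyReal K] in
/-- extension by zero from the totally positive elements -/
theorem gl2_ext (a : Kp K → ℂ) : ∃ a' : K → ℂ, (∀ ν : Kp K, a' ((ν.1 : Kˣ) : K) = a ν) ∧
    (∀ x : K, x ∉ Set.range (fun ν : Kp K => ((ν.1 : Kˣ) : K)) → a' x = 0) := by
  classical
  have hinj : Function.Injective (fun ν : Kp K => ((ν.1 : Kˣ) : K)) := fun x y h =>
    Subtype.ext (Units.ext h)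
  refine ⟨fun x => if h : ∃ ν : Kp K, ((ν.1 : Kˣ) : K) = x then a h.choose else 0, ?_, ?_⟩
  · intro ν
    have h : ∃ μ : Kp K, ((μ.1 : Kˣ) : K) = ((ν.1 : Kˣ) : K) := ⟨ν, rfl⟩
    refine (dif_pos h).trans ?_
    congr 1
    exact hinj h.choose_spec
  · intro x hx
    refine dif_neg ?_
    rintro ⟨ν, hν⟩
    exact hx ⟨ν, hν⟩

omit [IsTotallyReal K] in
theorem gl2_supp {b : Id K} {ν : Kˣ} (h : IsInt (prI ν * DD K * b⁻¹)) :
    (ν : K) ∈ ((DD K)⁻¹ * (b⁻¹)⁻¹).m := by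
  have e : (DD K)⁻¹ * (b⁻¹)⁻¹ = b / DD K := by
    rw [inv_inv, mul_comm, div_eq_mul_inv]
  rw [e, mem_div_iff]
  rw [← div_eq_mul_inv, isInt_div] at h
  intro y hy
  apply h
  rw [mem_prI_mul]
  rwa [← mul_assoc, Units.inv_mul, one_mul]

theorem co_unique {k : ℕ} {F : (Em K → ℍ) → Lat K → ℂ} {A A' : Id K → ℂ} (hA : IsCo k F A)
    (hA' : IsCo k F A') : A = A' := by
  funext m
  set b : Id K := DD K / m with hb
  obtain ⟨a', ha1, ha2⟩ := gl2_ext (fun ν : Kp K =>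
    A (prI ν.1 * DD K * b⁻¹) - A' (prI ν.1 * DD K * b⁻¹))
  have hinj : Function.Injective (fun ν : Kp K => ((ν.1 : Kˣ) : K)) := fun x y h =>
    Subtype.ext (Units.ext h)
  have h0 : a' = 0 := by
    refine fou_unique b⁻¹ ?_ ?_
    · intro x hx
      by_cases hr : x ∈ Set.range (fun ν : Kp K => ((ν.1 : Kˣ) : K))
      · obtain ⟨ν, rfl⟩ := hr
        have hni : ¬ IsInt (prI ν.1 * DD K * b⁻¹) := fun h => hx (gl2_supp h)
        show a' ((ν.1 : Kˣ) : K) = 0
        rw [ha1 ν, hA.int _ hni, hA'.int _ hni, sub_self]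
      · exact ha2 x hr
    · intro z
      have h1 := (hA.exp b z).sub (hA'.exp b z)
      rw [sub_self] at h1
      refine (hinj.hasSum_iff (f := fun x : K => a' x * eT x z) ?_).1 ?_
      · intro x hx
        rw [ha2 x hx, zero_mul]
      · have e : ((fun x : K => a' x * eT x z) ∘ fun ν : Kp K => ((ν.1 : Kˣ) : K)) =
            fun ν : Kp K => A (prI ν.1 * DD K * b⁻¹) * eT ((ν.1 : Kˣ) : K) z -
              A' (prI ν.1 * DD K * b⁻¹) * eT ((ν.1 : Kˣ) : K) z := by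
          funext ν
          show a' ((ν.1 : Kˣ) : K) * eT ((ν.1 : Kˣ) : K) z = _
          rw [ha1 ν, _root_.sub_mul]
        rw [e]
        exact h1
  have h2 := ha1 1
  rw [h0] at h2
  have e : prI ((1 : Kp K).1) * DD K * b⁻¹ = m := by
    rw [hb]
    simp
  rw [e] at h2
  exact (sub_eq_zero.1 h2.symm)

/-- a form is determined by its coefficients -/
theorem co_inj {k : ℕ} {F : (Em K → ℍ) → Lat K → ℂ} (hF : IsForm k F) (hA : IsCo k F 0)
    (z : Em K → ℍ) (L : Lat K) : F z L = 0 := by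
  have h1 : ∀ (b : Id K) (z : Em K → ℍ), F z (Lat.ds b 1) = 0 := by
    intro b z
    have h2 := hA.exp b z
    simp only [Pi.zero_apply, zero_mul] at h2
    exact h2.unique hasSum_zero
  have h2 : ∀ (b a : Id K) (z : Em K → ℍ), F z (Lat.ds b a) = 0 := by
    intro b a z
    have e : Lat.ds b a = (Lat.ds (a⁻¹ * b) 1).sm a := by
      rw [ds_sm, mul_inv_cancel_left, mul_one]
    rw [e, hF.scal, h1, mul_zero]
  have hv : (![0, 1] : Fin 2 → K) ≠ 0 := by
    intro h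
    have := congrFun h 1
    simp at this
  obtain ⟨g, -, hg⟩ := split L hv
  have h3 : PF k F (g • z) (g • L) = 0 := by
    rw [hg, PF, h2, zero_mul]
  have h4 := pf_norm_act hF g z L
  rw [h3, norm_zero] at h4
  have h5 : PF k F z L = 0 := norm_eq_zero.1 h4.symm
  rw [PF, mul_eq_zero] at h5
  refine h5.resolve_right ?_
  have h6 : 0 < NY z * nI L.det := mul_pos (Finset.prod_pos fun w _ => (z w).im_pos) (nI_pos _)
  exact_mod_cast (Real.rpow_pos_of_pos h6 _).ne'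

theorem co_lin {k : ℕ} {ι : Type} (s : Finset ι) (c : ι → ℂ)
    {F : ι → (Em K → ℍ) → Lat K → ℂ} {A : ι → Id K → ℂ} (hA : ∀ i ∈ s, IsCo k (F i) (A i)) :
    IsCo k (fun z L => ∑ i ∈ s, c i * F i z L) (fun m => ∑ i ∈ s, c i * A i m) := by
  refine ⟨?_, ?_, ?_⟩
  · intro m hm
    refine Finset.sum_eq_zero fun i hi => ?_
    rw [(hA i hi).int m hm, mul_zero]
  · have h1 : ∀ i : s, ∃ C : ℝ, ∀ m, ‖A i.1 m‖ ≤ C * nI m ^ ((k : ℝ) / 2) := fun i =>
      (hA i.1 i.2).growth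
    choose C hC using h1
    refine ⟨∑ i : s, ‖c i.1‖ * C i, fun m => ?_⟩
    rw [← Finset.sum_coe_sort s, Finset.sum_mul]
    refine (norm_sum_le _ _).trans (Finset.sum_le_sum fun i _ => ?_)
    rw [norm_mul, mul_assoc]
    exact mul_le_mul_of_nonneg_left (hC i m) (norm_nonneg _)
  · intro b z
    simp only [Finset.sum_mul]
    refine hasSum_sum fun i hi => ?_
    have h2 := ((hA i hi).exp b z).mul_left (c i)
    simpa only [mul_assoc] using h2

theorem co_ds {k : ℕ} {F : (Em K → ℍ) → Lat K → ℂ} {A : Id K → ℂ} (hF : IsForm k F)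
    (hA : IsCo k F A) (b a : Id K) (z : Em K → ℍ) :
    HasSum (fun ν : Kp K => A (prI ν.1 * DD K * a / b) * eT ((ν.1 : Kˣ) : K) z)
      (((nI a ^ k : ℝ) : ℂ) * F z (Lat.ds b a)) := by
  have e : Lat.ds b a = (Lat.ds (b / a) 1).sm a := by
    rw [ds_sm, mul_div_cancel, mul_one]
  have hne : ((nI a ^ k : ℝ) : ℂ) ≠ 0 := by
    exact_mod_cast (pow_pos (nI_pos a) k).ne'
  rw [e, hF.scal, mul_inv_cancel_left₀ hne]
  have h1 := hA.exp (b / a) z
  have e2 : ∀ ν : Kp K, prI ν.1 * DD K * (b / a)⁻¹ = prI ν.1 * DD K * a / b := by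
    intro ν
    rw [inv_div, mul_div_assoc]
  simpa only [e2] using h1

/-- the same expansion for `P_F` on a vertical geodesic -/
theorem co_geo {k : ℕ} {F : (Em K → ℍ) → Lat K → ℂ} {A : Id K → ℂ} (hF : IsForm k F)
    (hA : IsCo k F A) (b a : Id K) (β : K) (u : Em K → ℝ) :
    HasSum (fun ν : Kp K => A (prI ν.1 * DD K * a / b) *
        cexp (2 * Real.pi * Complex.I * ((∑ w : Em K, w ((ν.1 : Kˣ) * β) : ℝ) : ℂ)) *
        ((nI (b / a) ^ ((k : ℝ) / 2) * ∏ w : Em K,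
          Real.exp (k * u w / 2 - 2 * Real.pi * w ((ν.1 : Kˣ) : K) * Real.exp (u w)) : ℝ) : ℂ))
      (PF k F (zb β u) (Lat.ds b a)) := by
  have h1 := co_ds hF hA b a (zb β u)
  have ha := nI_pos a
  have hb := nI_pos b
  have hNY : NY (zb β u) = ∏ w : Em K, Real.exp (u w) := rfl
  have hprod : (∏ w : Em K, Real.exp (u w)) ^ ((k : ℝ) / 2) =
      ∏ w : Em K, Real.exp (k * u w / 2) := by
    rw [← Real.finsetProd_rpow _ _ (fun w _ => (Real.exp_pos _).le)]
    refine Finset.prod_congr rfl fun w _ => ?_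
    rw [← Real.exp_mul]
    congr 1
    ring
  have hfac : (NY (zb β u) * nI (Lat.ds b a).det) ^ ((k : ℝ) / 2) =
      nI a ^ k * (nI (b / a) ^ ((k : ℝ) / 2) * ∏ w : Em K, Real.exp (k * u w / 2)) := by
    rw [det_ds, nI_mul, nI_div, hNY, Real.mul_rpow (Finset.prod_nonneg fun w _ =>
      (Real.exp_pos _).le) (mul_pos hb ha).le, hprod, Real.mul_rpow hb.le ha.le,
      Real.div_rpow hb.le ha.le]
    have e1 : nI a ^ k = nI a ^ ((k : ℝ) / 2) * nI a ^ ((k : ℝ) / 2) := by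
      rw [← Real.rpow_add ha, add_halves, Real.rpow_natCast]
    have e2 : nI a ^ ((k : ℝ) / 2) ≠ 0 := (Real.rpow_pos_of_pos ha _).ne'
    rw [e1]
    field_simp
  have h2 : PF k F (zb β u) (Lat.ds b a) = (((nI a ^ k : ℝ) : ℂ) * F (zb β u) (Lat.ds b a)) *
      ((nI (b / a) ^ ((k : ℝ) / 2) * ∏ w : Em K, Real.exp (k * u w / 2) : ℝ) : ℂ) := by
    rw [PF, hfac]
    push_cast
    ring
  rw [h2]
  have h3 : ∀ ν : Kp K, eT ((ν.1 : Kˣ) : K) (zb β u) =
      cexp (2 * Real.pi * Complex.I * ((∑ w : Em K, w ((ν.1 : Kˣ) * β) : ℝ) : ℂ)) *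
        ((∏ w : Em K, Real.exp (-(2 * Real.pi * w ((ν.1 : Kˣ) : K) * Real.exp (u w))) : ℝ) : ℂ) := by
    intro ν
    rw [eT, ← Real.exp_sum, Complex.ofReal_exp, ← Complex.exp_add]
    congr 1
    push_cast
    rw [Finset.mul_sum, Finset.mul_sum, ← Finset.sum_add_distrib]
    refine Finset.sum_congr rfl fun w _ => ?_
    have h4 : ((zb β u w : ℍ) : ℂ) = (w β : ℂ) + Complex.exp (u w) * Complex.I := by
      rw [← Complex.ofReal_exp]
      exact Complex.mk_eq_add_mul_I _ _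
    rw [h4, map_mul]
    push_cast
    linear_combination (2 * Real.pi * (w ((ν.1 : Kˣ) : K) : ℂ) * Complex.exp (u w)) *
      Complex.I_mul_I
  have h4 := h1.mul_right
    (((nI (b / a) ^ ((k : ℝ) / 2) * ∏ w : Em K, Real.exp (k * u w / 2) : ℝ) : ℂ))
  refine Eq.subst (motive := fun f => HasSum f _) (funext fun ν => ?_) h4
  have h5 : nI (b / a) ^ ((k : ℝ) / 2) * ∏ w : Em K,
      Real.exp (k * u w / 2 - 2 * Real.pi * w ((ν.1 : Kˣ) : K) * Real.exp (u w)) =
      (∏ w : Em K, Real.exp (-(2 * Real.pi * w ((ν.1 : Kˣ) : K) * Real.exp (u w)))) *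
        (nI (b / a) ^ ((k : ℝ) / 2) * ∏ w : Em K, Real.exp (k * u w / 2)) := by
    rw [mul_left_comm, ← Finset.prod_mul_distrib]
    congr 1
    refine Finset.prod_congr rfl fun w _ => ?_
    rw [← Real.exp_add]
    congr 1
    ring
  rw [h3 ν, h5, Complex.ofReal_mul (∏ w : Em K, Real.exp (-(2 * Real.pi * w ((ν.1 : Kˣ) : K) *
    Real.exp (u w))))]
  ring

end tr

end Pool.Agent.HSG
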