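import Pool.Agent.Lib_helper84.HSG.DefsB
import Pool.Agent.Lib_helper84.HSGF.GA3
import Pool.Agent.Lib_helper84.HSGF.GB1
import Pool.Agent.Lib_helper84.HSGF.GB2
import Pool.Agent.Lib_helper84.HSGF.GD1
import Pool.Agent.Lib_helper84.HSGF.GE1
import Pool.Agent.Lib_helper84.HSGF.GI1

/-! # HSG block GI3 (MNK): every point has a line of height `≥ c` (Minkowski) -/

namespace Pool.Agent.HSG

open Complex MeasureTheory Filter Topology UpperHalfPlane NumberField IsDedekindDomain
open scoped nonZeroDivisors MatrixGroups ENNReal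

variable {K : Type} [Field K] [NumberField K]

section tr2
variable [IsTotallyReal K]

theorem gi3_em_add (x y : K) : em (x + y) = em x + em y := by
  funext w; simp [em]

theorem gi3_em_neg (x : K) : em (-x) = -em x := by
  funext w; simp [em]

theorem gi3_em_zero : em (0 : K) = 0 := by
  funext w; simp [em]

theorem gi3_nonempty : Nonempty (Em K) := by
  have h := card_em (K := K)
  have h2 := dg_pos (K := K)
  exact Fintype.card_pos_iff.mp (by omega)

theorem gi3_em_inj : Function.Injective (em : K → Em K → ℝ) := by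
  obtain ⟨w⟩ := gi3_nonempty (K := K)
  intro x y h
  exact w.injective (congrFun h w)

/-- the lattice `b × a` -/
def gi3_L (b a : Id K) : AddSubgroup ((Em K → ℝ) × (Em K → ℝ)) where
  carrier := {t | ∃ x ∈ b.m, ∃ y ∈ a.m, t = (em x, em y)}
  zero_mem' := ⟨0, b.m.zero_mem, 0, a.m.zero_mem, by rw [gi3_em_zero]; rfl⟩
  add_mem' := by
    rintro _ _ ⟨x, hx, y, hy, rfl⟩ ⟨x', hx', y', hy', rfl⟩
    exact ⟨x + x', b.m.add_mem hx hx', y + y', a.m.add_mem hy hy', by
      rw [gi3_em_add, gi3_em_add]; rfl⟩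
  neg_mem' := by
    rintro _ ⟨x, hx, y, hy, rfl⟩
    exact ⟨-x, b.m.neg_mem hx, -y, a.m.neg_mem hy, by
      rw [gi3_em_neg, gi3_em_neg]; rfl⟩

theorem gi3_count (b a : Id K) : Countable (gi3_L b a) := by
  have := countK K
  have h : ((gi3_L b a : AddSubgroup ((Em K → ℝ) × (Em K → ℝ))) : Set _) ⊆
      Set.range (fun p : K × K => (em p.1, em p.2)) := by
    rintro _ ⟨x, _, y, _, rfl⟩
    exact ⟨(x, y), rfl⟩
  exact ((Set.countable_range _).mono h).to_subtype

theorem gi3_fund (b a : Id K) {Cb Ca : Set (Em K → ℝ)} (hb : IsCell b Cb) (ha : IsCell a Ca) :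
    IsAddFundamentalDomain (gi3_L b a) (Cb ×ˢ Ca)
      (volume : Measure ((Em K → ℝ) × (Em K → ℝ))) := by
  refine IsAddFundamentalDomain.mk' (hb.meas.prod ha.meas).nullMeasurableSet ?_
  rintro ⟨t, s⟩
  obtain ⟨x, hx, hxt⟩ := hb.ex t
  obtain ⟨y, hy, hys⟩ := ha.ex s
  refine ⟨⟨(em x, em y), ⟨x, hx, y, hy, rfl⟩⟩, ?_, ?_⟩
  · show (em x, em y) + (t, s) ∈ Cb ×ˢ Ca
    refine Set.mk_mem_prod ?_ ?_
    · rw [add_comm]; exact hxt
    · rw [add_comm]; exact hys
  · rintro ⟨_, ⟨x', hx', y', hy', rfl⟩⟩ hmem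
    have hmem' : (em x', em y') + (t, s) ∈ Cb ×ˢ Ca := hmem
    have h1 : em x' + t ∈ Cb := hmem'.1
    have h2 : em y' + s ∈ Ca := hmem'.2
    have e1 : x' - x = 0 := by
      refine hb.uni (t + em x) (x' - x) (b.m.sub_mem hx' hx) hxt ?_
      have : t + em x + em (x' - x) = em x' + t := by
        rw [add_assoc, ← gi3_em_add, add_comm]; congr 2; ring
      rw [this]; exact h1
    have e2 : y' - y = 0 := by
      refine ha.uni (s + em y) (y' - y) (a.m.sub_mem hy' hy) hys ?_
      have : s + em y + em (y' - y) = em y' + s := by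
        rw [add_assoc, ← gi3_em_add, add_comm]; congr 2; ring
      rw [this]; exact h2
    rw [sub_eq_zero] at e1 e2
    subst e1 e2
    rfl

/-- the convex body -/
def gi3_S {ι : Type} (x y : ι → ℝ) (t : ℝ) : Set ((ι → ℝ) × (ι → ℝ)) :=
  {p | ∀ w, |p.1 w| * y w ≤ t ∧ |p.1 w * x w + p.2 w| ≤ t}

theorem gi3_S_closed {ι : Type} [Fintype ι] (x y : ι → ℝ) (t : ℝ) : IsClosed (gi3_S x y t) := by
  have : gi3_S x y t = ⋂ w, ({p | |p.1 w| * y w ≤ t} ∩ {p | |p.1 w * x w + p.2 w| ≤ t}) := by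
    ext p; simp [gi3_S]
  rw [this]
  refine isClosed_iInter fun w => IsClosed.inter ?_ ?_
  · exact isClosed_le (by fun_prop) continuous_const
  · exact isClosed_le (by fun_prop) continuous_const

theorem gi3_S_conv {ι : Type} (x y : ι → ℝ) (hy : ∀ w, 0 < y w) (t : ℝ) :
    Convex ℝ (gi3_S x y t) := by
  intro p hp q hq α β hα hβ hαβ w
  obtain ⟨h1, h2⟩ := hp w
  obtain ⟨h3, h4⟩ := hq w
  have ht : t = α * t + β * t := by rw [← add_mul, hαβ, one_mul]
  constructor
  · show |α * p.1 w + β * q.1 w| * y w ≤ t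
    calc |α * p.1 w + β * q.1 w| * y w ≤ (α * |p.1 w| + β * |q.1 w|) * y w := by
          refine mul_le_mul_of_nonneg_right ?_ (hy w).le
          calc _ ≤ |α * p.1 w| + |β * q.1 w| := abs_add_le _ _
            _ = _ := by rw [abs_mul, abs_mul, abs_of_nonneg hα, abs_of_nonneg hβ]
      _ = α * (|p.1 w| * y w) + β * (|q.1 w| * y w) := by ring
      _ ≤ α * t + β * t := add_le_add (mul_le_mul_of_nonneg_left h1 hα)
          (mul_le_mul_of_nonneg_left h3 hβ)
      _ = t := ht.symm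
  · show |(α * p.1 w + β * q.1 w) * x w + (α * p.2 w + β * q.2 w)| ≤ t
    have e : (α * p.1 w + β * q.1 w) * x w + (α * p.2 w + β * q.2 w) =
        α * (p.1 w * x w + p.2 w) + β * (q.1 w * x w + q.2 w) := by ring
    rw [e]
    calc _ ≤ |α * (p.1 w * x w + p.2 w)| + |β * (q.1 w * x w + q.2 w)| := abs_add_le _ _
      _ = α * |p.1 w * x w + p.2 w| + β * |q.1 w * x w + q.2 w| := by
          rw [abs_mul, abs_mul, abs_of_nonneg hα, abs_of_nonneg hβ]
      _ ≤ α * t + β * t := add_le_add (mul_le_mul_of_nonneg_left h2 hα)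
          (mul_le_mul_of_nonneg_left h4 hβ)
      _ = t := ht.symm

theorem gi3_S_vol {ι : Type} [Fintype ι] (x y : ι → ℝ) (hy : ∀ w, 0 < y w) {t : ℝ} (ht : 0 ≤ t) :
    ENNReal.ofReal ((4 * t ^ 2) ^ Fintype.card ι / ∏ w, y w) ≤
      (volume : Measure ((ι → ℝ) × (ι → ℝ))) (gi3_S x y t) := by
  rw [Measure.volume_eq_prod, Measure.prod_apply (gi3_S_closed x y t).measurableSet]
  set B : Set (ι → ℝ) := Set.pi Set.univ (fun w => Set.Icc (-(t / y w)) (t / y w)) with hB
  have hBm : MeasurableSet B := MeasurableSet.univ_pi fun w => measurableSet_Icc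
  have h1 : ∀ m ∈ B, ENNReal.ofReal ((2 * t) ^ Fintype.card ι) ≤
      volume (Prod.mk m ⁻¹' gi3_S x y t) := by
    intro m hm
    have h2 : Prod.mk m ⁻¹' gi3_S x y t = Set.pi Set.univ
        (fun w => Set.Icc (-t - m w * x w) (t - m w * x w)) := by
      ext n
      simp only [Set.mem_preimage, gi3_S, Set.mem_setOf_eq, Set.mem_pi, Set.mem_univ,
        forall_true_left, Set.mem_Icc]
      constructor
      · intro h w
        have := abs_le.mp (h w).2
        constructor <;> linarith [this.1, this.2]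
      · intro h w
        refine ⟨?_, abs_le.mpr ⟨by linarith [(h w).1], by linarith [(h w).2]⟩⟩
        have h3 := hm w (Set.mem_univ w)
        have h4 : |m w| ≤ t / y w := abs_le.mpr ⟨h3.1, h3.2⟩
        calc |m w| * y w ≤ t / y w * y w := mul_le_mul_of_nonneg_right h4 (hy w).le
          _ = t := by field_simp [(hy w).ne']
    rw [h2, Set.pi_univ_Icc, Real.volume_Icc_pi]
    have h3 : ∀ w ∈ (Finset.univ : Finset ι), ENNReal.ofReal ((t - m w * x w) -
        (-t - m w * x w)) = ENNReal.ofReal (2 * t) := by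
      intro w _; congr 1; ring
    rw [Finset.prod_congr rfl h3, Finset.prod_const, Finset.card_univ,
      ENNReal.ofReal_pow (by positivity)]
  have h5 : volume B = ENNReal.ofReal ((2 * t) ^ Fintype.card ι / ∏ w, y w) := by
    rw [hB, Set.pi_univ_Icc, Real.volume_Icc_pi]
    have h3 : ∀ w ∈ (Finset.univ : Finset ι), ENNReal.ofReal (t / y w - -(t / y w)) =
        ENNReal.ofReal (2 * t / y w) := by
      intro w _; congr 1; ring
    rw [Finset.prod_congr rfl h3, ← ENNReal.ofReal_prod_of_nonneg, Finset.prod_div_distrib,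
      Finset.prod_const, Finset.card_univ]
    intro w _
    have := hy w
    positivity
  have hP : 0 < ∏ w, y w := Finset.prod_pos fun w _ => hy w
  calc ENNReal.ofReal ((4 * t ^ 2) ^ Fintype.card ι / ∏ w, y w)
      = ENNReal.ofReal ((2 * t) ^ Fintype.card ι) * volume B := by
        rw [h5, ← ENNReal.ofReal_mul (by positivity)]
        congr 1
        rw [← mul_div_assoc, ← mul_pow]
        congr 2
        ring
    _ = ∫⁻ m in B, ENNReal.ofReal ((2 * t) ^ Fintype.card ι) := by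
        rw [setLIntegral_const]
    _ ≤ ∫⁻ m in B, volume (Prod.mk m ⁻¹' gi3_S x y t) := setLIntegral_mono' hBm h1
    _ ≤ ∫⁻ m, volume (Prod.mk m ⁻¹' gi3_S x y t) := setLIntegral_le_lintegral _ _

/-- Minkowski's theorem for `b ⊕ a` -/
theorem gi3_ds (z : Em K → ℍ) (b a : Id K) : ∃ v : Fin 2 → K, v ≠ 0 ∧ v 0 ∈ b.m ∧ v 1 ∈ a.m ∧
    (∏ w, ‖lz v z w‖) ^ 2 ≤ 2 ^ (dg K + 1) * dK K * (nI b * nI a) * NY z := by
  obtain ⟨Cb, hCb⟩ := cell_exists b
  obtain ⟨Ca, hCa⟩ := cell_exists a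
  have hfund := gi3_fund b a hCb hCa
  have hcount := gi3_count b a
  have hy : ∀ w : Em K, 0 < (z w).im := fun w => (z w).im_pos
  have hNY : 0 < NY z := Finset.prod_pos fun w _ => hy w
  have hD : 1 ≤ dK K := dK_ge
  have hb := nI_pos b
  have ha := nI_pos a
  have hd := dg_pos (K := K)
  set X : ℝ := 2 * (dK K * (nI b * nI a) * NY z) with hX
  have hXpos : 0 < X := by positivity
  set t : ℝ := X ^ ((((2 * dg K : ℕ) : ℝ))⁻¹) with ht
  have htpos : 0 < t := Real.rpow_pos_of_pos hXpos _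
  have htX : t ^ (2 * dg K) = X := Real.rpow_inv_natCast_pow hXpos.le (by omega)
  have hvol := gi3_S_vol (fun w => (z w).re) (fun w => (z w).im) hy htpos.le
  have hlt : volume (Cb ×ˢ Ca) * 2 ^ Module.finrank ℝ ((Em K → ℝ) × (Em K → ℝ)) <
      (volume : Measure ((Em K → ℝ) × (Em K → ℝ)))
        (gi3_S (fun w => (z w).re) (fun w => (z w).im) t) := by
    refine lt_of_lt_of_le ?_ hvol
    rw [Measure.volume_eq_prod, Measure.prod_prod, cell_vol hCb, cell_vol hCa,
      Module.finrank_prod, Module.finrank_fintype_fun_eq_card, card_em,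
      ← ENNReal.ofReal_mul (by positivity), ← ENNReal.ofReal_ofNat 2,
      ← ENNReal.ofReal_pow (by norm_num), ← ENNReal.ofReal_mul (by positivity)]
    have h6 : (4 * t ^ 2) ^ dg K = 4 ^ dg K * X := by
      rw [mul_pow, ← pow_mul, htX]
    have h7 : √(dK K) * nI b * (√(dK K) * nI a) = dK K * (nI b * nI a) := by
      have := Real.mul_self_sqrt (show 0 ≤ dK K by linarith)
      calc _ = (√(dK K) * √(dK K)) * (nI b * nI a) := by ring
        _ = _ := by rw [this]
    have h8 : (2 : ℝ) ^ (dg K + dg K) = 4 ^ dg K := by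
      rw [← two_mul, pow_mul]; norm_num
    rw [h6, h7, h8]
    have hNY' : (∏ w : Em K, (z w).im) = NY z := rfl
    rw [hNY', hX]
    refine (ENNReal.ofReal_lt_ofReal_iff (by positivity)).mpr ?_
    rw [lt_div_iff₀ hNY]
    have : 0 < dK K * (nI b * nI a) * 4 ^ dg K * NY z := by positivity
    nlinarith
  have hHaar : (volume : Measure ((Em K → ℝ) × (Em K → ℝ))).IsAddHaarMeasure := by
    exact Measure.prod.instIsAddHaarMeasure _ _
  obtain ⟨⟨_, ⟨x, hx, y, hy', rfl⟩⟩, hne, hmem⟩ :=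
    exists_ne_zero_mem_lattice_of_measure_mul_two_pow_lt_measure hfund
      (s := gi3_S (fun w => (z w).re) (fun w => (z w).im) t)
      (by
        intro p hp w
        obtain ⟨h1, h2⟩ := hp w
        refine ⟨?_, ?_⟩
        · show |-(p.1 w)| * _ ≤ t
          rw [abs_neg]; exact h1
        · show |-(p.1 w) * _ + -(p.2 w)| ≤ t
          rw [neg_mul, ← neg_add, abs_neg]; exact h2)
      (gi3_S_conv _ _ hy t) hlt
  refine ⟨![x, y], ?_, by simpa using hx, by simpa using hy', ?_⟩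
  · intro h0
    apply hne
    have hx0 : x = 0 := congrFun h0 0
    have hy0 : y = 0 := congrFun h0 1
    subst hx0 hy0
    apply Subtype.ext
    show (em 0, em 0) = 0
    rw [gi3_em_zero]; rfl
  · have h9 : ∀ w : Em K, ‖lz ![x, y] z w‖ ^ 2 ≤ 2 * t ^ 2 := by
      intro w
      obtain ⟨h1, h2⟩ := hmem w
      have h1' : |w x| * (z w).im ≤ t := h1
      have h2' : |w x * (z w).re + w y| ≤ t := h2
      have e : ‖lz ![x, y] z w‖ ^ 2 = (w x * (z w).re + w y) ^ 2 + (w x * (z w).im) ^ 2 := by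
        rw [← Complex.normSq_eq_norm_sq, Complex.normSq_apply]
        simp [lz]
        ring
      rw [e]
      have h3 : (w x * (z w).re + w y) ^ 2 ≤ t ^ 2 := by
        rw [← sq_abs]; exact pow_le_pow_left₀ (abs_nonneg _) h2' 2
      have h4 : (w x * (z w).im) ^ 2 ≤ t ^ 2 := by
        rw [← sq_abs, abs_mul, abs_of_pos (hy w)]
        exact pow_le_pow_left₀ (mul_nonneg (abs_nonneg _) (hy w).le) h1' 2
      linarith
    calc (∏ w, ‖lz ![x, y] z w‖) ^ 2 = ∏ w, ‖lz ![x, y] z w‖ ^ 2 := by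
          rw [Finset.prod_pow]
      _ ≤ ∏ _w : Em K, 2 * t ^ 2 :=
          Finset.prod_le_prod (fun w _ => by positivity) fun w _ => h9 w
      _ = 2 ^ dg K * X := by
          rw [Finset.prod_const, Finset.card_univ, card_em, mul_pow, ← pow_mul, htX]
      _ = _ := by rw [hX]; ring

theorem mink : ∃ c : ℝ, 0 < c ∧ ∀ (z : Em K → ℍ) (L : Lat K), ∃ v : Fin 2 → K, v ≠ 0 ∧
    c ≤ ht v z L := by
  have hD : 1 ≤ dK K := dK_ge
  refine ⟨(2 ^ (dg K + 1) * dK K)⁻¹, by positivity, fun z L => ?_⟩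
  obtain ⟨g, -, hg⟩ := split L (v := ![0, 1]) (by
    intro h; have := congrFun h 1; simp at this)
  set b := L.det / L.av ![0, 1] with hb
  set a := L.av ![0, 1] with ha
  obtain ⟨u, hu0, hub, hua, hu⟩ := gi3_ds (g • z) b a
  have hdet : ∀ w : Em K, 0 < w (((g : GL (Fin 2) K) : GL (Fin 2) K) :
      Matrix (Fin 2) (Fin 2) K).det := by
    intro w
    have : ((g : GL (Fin 2) K) : Matrix (Fin 2) (Fin 2) K).det = 1 := by
      simp
    rw [this]; simp
  set v : Fin 2 → K := Matrix.vecMul u ((g : GL (Fin 2) K) : Matrix (Fin 2) (Fin 2) K) with hv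
  have hvu : Matrix.vecMul v (((g : GL (Fin 2) K)⁻¹ : GL (Fin 2) K) :
      Matrix (Fin 2) (Fin 2) K) = u := by
    rw [hv, Matrix.vecMul_vecMul, ← Units.val_mul, mul_inv_cancel]
    simp
  have hv0 : v ≠ 0 := by
    intro h
    apply hu0
    rw [← hvu, h]
    simp
  refine ⟨v, hv0, ?_⟩
  have h1 := ht_act (g : GL (Fin 2) K) hdet hv0 z L
  rw [hvu] at h1
  have h2 : (g : GL (Fin 2) K) • L = Lat.ds b a := hg
  rw [h2] at h1
  rw [← h1]
  show _ ≤ ht u (g • z) (Lat.ds b a)
  rw [ht, det_ds]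
  -- `1 ∈ a_u`
  have hav : nI ((Lat.ds b a).av u) ≤ 1 := by
    have h3 : (1 : K) ∈ ((Lat.ds b a).av u).m := by
      rw [av_m _ hu0]
      show (1 : K) • u ∈ (Lat.ds b a).M
      rw [one_smul]
      exact ⟨hub, hua⟩
    have h4 : ((1 : Kˣ) : K) ∈ ((Lat.ds b a).av u).m := by simpa using h3
    have h5 := nI_mem h4
    rw [map_one, nI_one] at h5
    exact h5
  have hav0 := nI_pos ((Lat.ds b a).av u)
  have hNY : 0 < NY (g • z) := Finset.prod_pos fun w _ => ((g • z) w).im_pos
  have hnb := nI_pos b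
  have hna := nI_pos a
  have hlz : 0 < (∏ w, ‖lz u (g • z) w‖) ^ 2 := by
    refine pow_pos (Finset.prod_pos fun w _ => ?_) 2
    exact norm_pos_iff.mpr (lz_ne hu0 _ w)
  rw [nI_mul, le_div_iff₀ (by positivity)]
  calc (2 ^ (dg K + 1) * dK K)⁻¹ * ((∏ w, ‖lz u (g • z) w‖) ^ 2 *
        nI ((Lat.ds b a).av u) ^ 2)
      ≤ (2 ^ (dg K + 1) * dK K)⁻¹ * ((2 ^ (dg K + 1) * dK K * (nI b * nI a) * NY (g • z)) *
        1) := by
        refine mul_le_mul_of_nonneg_left (mul_le_mul hu ?_ (by positivity) (by positivity))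
          (by positivity)
        exact pow_le_one₀ hav0.le hav
    _ = NY (g • z) * (nI b * nI a) := by
        field_simp


end tr2

end Pool.Agent.HSG
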