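import Pool.Agent.Lib_helper84.HSG.DefsB
import Pool.Agent.Lib_helper84.HSGF.GB1
import Pool.Agent.Lib_helper84.HSGF.GB2
import Pool.Agent.Lib_helper84.HSGF.GG

/-! # HSG, block GQ (MEA): the measure `mu0` -/

namespace Pool.Agent.HSG

open Complex MeasureTheory Filter Topology UpperHalfPlane NumberField IsDedekindDomain
open scoped nonZeroDivisors MatrixGroups ENNReal

variable {K : Type} [Field K] [NumberField K]

/-- counting measure is preserved by bijections of a discrete space -/
theorem gq_count {α : Type} [MeasurableSpace α] [DiscreteMeasurableSpace α] (f : α → α)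
    (hf : Function.Bijective f) :
    MeasurePreserving f (Measure.count : Measure α) (Measure.count : Measure α) := by
  have hm : Measurable f := fun s _ => MeasurableSet.of_discrete
  refine ⟨hm, ?_⟩
  ext s hs
  rw [Measure.map_apply hm hs,
    Measure.count_apply (MeasurableSet.of_discrete), Measure.count_apply hs]
  congr 1
  rw [Set.encard_preimage_of_bijective hf]

theorem gq_pi (g : GL (Fin 2) K) :
    MeasurePreserving (fun z : Em K → ℍ => g • z) (volume : Measure (Em K → ℍ)) volume := by
  exact measurePreserving_pi (fun _ => (volume : Measure ℍ)) (fun _ => (volume : Measure ℍ))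
    (f := fun w z => (Matrix.GeneralLinearGroup.map (n := Fin 2) w g) • z)
    (fun w => measurePreserving_smul (Matrix.GeneralLinearGroup.map (n := Fin 2) w g) volume)

theorem gq_mul_bij (g : GL (Fin 2) K) (a : Id K) :
    Function.Bijective (fun L : Lat K => (g • L).sm a) := by
  refine Function.bijective_iff_has_inverse.mpr ⟨fun L => g⁻¹ • (L.sm a⁻¹), ?_, ?_⟩
  · intro L
    show g⁻¹ • (((g • L).sm a).sm a⁻¹) = L
    rw [sm_sm, mul_inv_cancel, sm_one, inv_smul_smul]
  · intro L
    show (g • (g⁻¹ • (L.sm a⁻¹))).sm a = L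
    rw [smul_inv_smul, sm_sm, inv_mul_cancel, sm_one]

theorem gq_full (g : GL (Fin 2) K) (a : Id K) :
    MeasurePreserving (fun x : XX K => ((g • x.1, (g • x.2).sm a) : XX K)) (mu0 K) (mu0 K) := by
  have h1 := gq_pi g
  have h2 := gq_count _ (gq_mul_bij g a)
  exact h1.prod h2

theorem mu0_act (g : SL(2, K)) :
    MeasurePreserving (fun x : XX K => g • x) (mu0 K) (mu0 K) := by
  have h := gq_full (g : GL (Fin 2) K) 1
  have e : (fun x : XX K => (((g : GL (Fin 2) K) • x.1, ((g : GL (Fin 2) K) • x.2).sm 1) : XX K)) =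
      fun x : XX K => g • x := by
    funext x
    rw [sm_one]
    rfl
  rwa [e] at h

theorem gq_meas (r : Id K) : MeasurableSet {x : XX K | x.2.det = r} := by
  have h : Measurable fun x : XX K => x.2 := measurable_snd
  exact h (MeasurableSet.of_discrete (s := {L : Lat K | L.det = r}))

theorem mu0_restrict (g : SL(2, K)) (r : Id K) :
    MeasurePreserving (fun x : XX K => g • x) ((mu0 K).restrict {x | x.2.det = r})
      ((mu0 K).restrict {x | x.2.det = r}) := by
  have h := (mu0_act g).restrict_preimage (gq_meas r)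
  have e : (fun x : XX K => g • x) ⁻¹' {x | x.2.det = r} = {x | x.2.det = r} := by
    ext x
    show (g • x.2).det = r ↔ x.2.det = r
    rw [det_act]
  rwa [e] at h

theorem mu0_gl (g : GL (Fin 2) K) (a r : Id K) :
    MeasurePreserving (fun x : XX K => ((g • x.1, (g • x.2).sm a) : XX K))
      ((mu0 K).restrict {x | x.2.det = r}) ((mu0 K).restrict {x | x.2.det =
        (prI (Matrix.GeneralLinearGroup.det g))⁻¹ * a ^ 2 * r}) := by
  have h := (gq_full g a).restrict_preimage
    (gq_meas ((prI (Matrix.GeneralLinearGroup.det g))⁻¹ * a ^ 2 * r))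
  have e : (fun x : XX K => ((g • x.1, (g • x.2).sm a) : XX K)) ⁻¹'
      {x | x.2.det = (prI (Matrix.GeneralLinearGroup.det g))⁻¹ * a ^ 2 * r} =
      {x | x.2.det = r} := by
    ext x
    show ((x.2.mul g⁻¹).sm a).det = (prI (Matrix.GeneralLinearGroup.det g))⁻¹ * a ^ 2 * r ↔
      x.2.det = r
    rw [det_sm, det_mul, map_inv, map_inv, ← mul_assoc, mul_comm (a ^ 2)]
    exact mul_right_inj _
  rwa [e] at h

theorem mu0_lint {f : XX K → ℝ≥0∞} (hf : Measurable f) :
    ∫⁻ x, f x ∂(mu0 K) = ∑' L : Lat K, ∫⁻ z : Em K → ℍ, f (z, L) := by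
  unfold mu0
  rw [lintegral_prod_symm _ hf.aemeasurable, lintegral_count]

theorem mX_fin [IsTotallyReal K] (ω : ExW K) : IsFiniteMeasure (mX ω) := by
  have hG : Finite (Gen K) := gen_finite
  have : Fintype (Gen K) := Fintype.ofFinite _
  unfold mX
  refine ⟨?_⟩
  rw [Measure.sum_apply _ MeasurableSet.univ, tsum_fintype]
  refine ENNReal.sum_lt_top.mpr fun κ _ => ?_
  unfold mr
  rw [withDensity_apply _ MeasurableSet.univ, Measure.restrict_univ]
  exact ω.fin κ.out

theorem mX_lint [IsTotallyReal K] (ω : ExW K) {f : XX K → ℝ≥0∞} (hf : Measurable f) :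
    ∫⁻ x, f x ∂(mX ω) = ∑' κ : Gen K, ∫⁻ x in {x : XX K | x.2.det = κ.out},
      ENNReal.ofReal (ω.w x) * f x ∂(mu0 K) := by
  unfold mX
  rw [lintegral_sum_measure]
  refine tsum_congr fun κ => ?_
  unfold mr
  have hw : Measurable fun x : XX K => ENNReal.ofReal (ω.w x) :=
    ENNReal.measurable_ofReal.comp ω.meas
  rw [lintegral_withDensity_eq_lintegral_mul _ hw hf]
  rfl


end Pool.Agent.HSG
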