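import Pool.Agent.Lib_helper84.HSG.DefsB
import Pool.Agent.Lib_helper84.HSGF.GB1
import Pool.Agent.Lib_helper84.HSGF.GB2
import Pool.Agent.Lib_helper84.HSGF.GF1
import Pool.Agent.Lib_helper84.HSGF.GI1

namespace Pool.Agent.HSG

open Complex MeasureTheory Filter Topology UpperHalfPlane NumberField IsDedekindDomain
open scoped nonZeroDivisors MatrixGroups ENNReal

variable {K : Type} [Field K] [NumberField K]

section tr3
variable [IsTotallyReal K]

omit [NumberField K] [IsTotallyReal K] in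
theorem gr1_det (g : SL(2, K)) (w : Em K) :
    w (((g : GL (Fin 2) K)) : Matrix (Fin 2) (Fin 2) K).det = 1 := by
  have : (((g : GL (Fin 2) K)) : Matrix (Fin 2) (Fin 2) K).det = 1 := by
    simp
  rw [this, map_one]

omit [IsTotallyReal K] in
theorem gr1_im (g : SL(2, K)) (z : Em K → ℍ) (w : Em K) :
    ((g • z) w).im = (z w).im / ‖lz ((g : GL (Fin 2) K) 1) z w‖ ^ 2 := by
  have h := im_act (g : GL (Fin 2) K) (fun w => by rw [gr1_det]; exact one_pos) z w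
  rw [gr1_det, one_mul] at h
  exact h

omit [NumberField K] [IsTotallyReal K] in
theorem gr1_inv_row (g : SL(2, K)) :
    Matrix.vecMul ((g : Matrix (Fin 2) (Fin 2) K) 1)
      (((g : GL (Fin 2) K)⁻¹ : GL (Fin 2) K) : Matrix (Fin 2) (Fin 2) K) = ![0, 1] := by
  have h1 : Matrix.vecMul ((g : Matrix (Fin 2) (Fin 2) K) 1)
      (((g : GL (Fin 2) K)⁻¹ : GL (Fin 2) K) : Matrix (Fin 2) (Fin 2) K) =
      (((g : GL (Fin 2) K) * (g : GL (Fin 2) K)⁻¹ : GL (Fin 2) K) : Matrix (Fin 2) (Fin 2) K) 1 := by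
    rw [Units.val_mul]
    ext j
    rfl
  rw [h1, mul_inv_cancel]
  ext j
  fin_cases j <;> simp

omit [NumberField K] [IsTotallyReal K] in
theorem gr1_toGL (g : SL(2, K)) (i j : Fin 2) :
    (Matrix.SpecialLinearGroup.toGL g : GL (Fin 2) K) i j = (g : Matrix (Fin 2) (Fin 2) K) i j :=
  rfl

omit [IsTotallyReal K] in
theorem gr1_dsm_im (ε : Kˣ) (z : Em K → ℍ) (w : Em K) :
    ((dsm ε • z) w).im = (w (ε : K)) ^ 2 * (z w).im := by
  rw [gr1_im]
  have h1 : lz ((dsm ε : GL (Fin 2) K) 1) z w = ((w ((ε⁻¹ : Kˣ) : K) : ℝ) : ℂ) := by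
    simp only [lz, gr1_toGL]
    simp [dsm]
  have hw : w (ε : K) ≠ 0 := by
    rw [Ne, map_eq_zero]
    exact ε.ne_zero
  rw [h1, Units.val_inv_eq_inv_val, map_inv₀, Complex.norm_real, Real.norm_eq_abs, sq_abs]
  field_simp

omit [IsTotallyReal K] in
theorem gr1_dsm_lgy (ε : Kˣ) (z : Em K → ℍ) (w : Em K) :
    lgy (dsm ε • z) w = lgy z w + 2 * lg ε w := by
  have hw : w (ε : K) ≠ 0 := by
    rw [Ne, map_eq_zero]
    exact ε.ne_zero
  rw [lgy, gr1_dsm_im, lgy, lg, Real.log_mul (pow_ne_zero 2 hw) (z w).im_pos.ne', ← sq_abs,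
    Real.log_pow]
  push_cast
  ring

omit [IsTotallyReal K] in
theorem gr1_NY (z : Em K → ℍ) : NY z = Real.exp (∑ w, lgy z w) := by
  rw [Real.exp_sum, NY]
  exact Finset.prod_congr rfl fun w _ => by rw [lgy, Real.exp_log (z w).im_pos]

omit [NumberField K] [IsTotallyReal K] in
theorem gr1_nm_inv (β : K) : ((nm β)⁻¹ : SL(2, K)) = nm (-β) := by
  apply Subtype.ext
  rw [Matrix.SpecialLinearGroup.coe_inv]
  show Matrix.adjugate !![1, β; 0, 1] = !![1, -β; 0, 1]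
  rw [Matrix.adjugate_fin_two_of, neg_zero]

omit [NumberField K] [IsTotallyReal K] in
theorem gr1_nm_act (β : K) (z : Em K → ℍ) (w : Em K) :
    ((nm β • z) w : ℂ) = (z w : ℂ) + ((w β : ℝ) : ℂ) := by
  have h0 : (nm β • z) w = (Matrix.GeneralLinearGroup.map (n := Fin 2) w
    (nm β : GL (Fin 2) K)) • z w := rfl
  have hd : (Matrix.GeneralLinearGroup.map (n := Fin 2) w
    (nm β : GL (Fin 2) K) : Matrix (Fin 2) (Fin 2) ℝ) = !![1, w β; 0, 1] := by
    ext i j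
    show w ((Matrix.SpecialLinearGroup.toGL (nm β) : GL (Fin 2) K) i j) = _
    rw [gr1_toGL]
    fin_cases i <;> fin_cases j <;> simp [nm]
  rw [h0, UpperHalfPlane.coe_smul_of_det_pos]
  · simp only [UpperHalfPlane.num, UpperHalfPlane.denom]
    rw [hd]
    simp
  · show 0 < (Matrix.GeneralLinearGroup.map (n := Fin 2) w
      (nm β : GL (Fin 2) K) : Matrix (Fin 2) (Fin 2) ℝ).det
    rw [hd]
    simp

theorem reduce (A : Finset (Id K)) (hA : ∀ a : Id K, ∃ t : Kˣ, prI t * a ∈ A) {η : ℝ}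
    (hη : ∀ (z : Em K → ℍ) (L : Lat K), ∃ v : Fin 2 → K, v ≠ 0 ∧ η ≤ ht v z L) {R0 : ℝ}
    (hR : ∀ u : Em K → ℝ, ∃ ε ∈ Uu K, ∀ w, |u w + 2 * lg ε w - (∑ v, u v) / (dg K : ℝ)| ≤ R0)
    {C : Id K → Set (Em K → ℝ)} (hC : ∀ x, IsCell x (C x)) (z : Em K → ℍ) (L : Lat K) :
    ∃ g : SL(2, K), ∃ a ∈ A, g • L = Lat.ds (L.det / a) a ∧
      η ≤ NY (g • z) * nI (L.det / a / a) ∧ rev (g • z) ∈ C (a / (L.det / a)) ∧
      ∀ w, |lgy (g • z) w - (∑ v, lgy (g • z) v) / (dg K : ℝ)| ≤ R0 := by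
  obtain ⟨v, hv, hηv⟩ := hη z L
  obtain ⟨t, htA⟩ := hA (L.av v)
  set v' : Fin 2 → K := ((t⁻¹ : Kˣ) : K) • v with hv'
  have hv'0 : v' ≠ 0 := smul_ne_zero (Units.ne_zero _) hv
  have hav : L.av v' = prI t * L.av v := by
    rw [hv', av_scal L t⁻¹ hv, map_inv, inv_inv]
  have hht : ht v' z L = ht v z L := ht_scal t⁻¹ hv z L
  set a := L.av v' with ha
  have haA : a ∈ A := by rw [hav]; exact htA
  obtain ⟨g0, hg0, hg0L⟩ := split L hv'0
  rw [← ha] at hg0L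
  -- the height
  have h1 : ht ![0, 1] (g0 • z) (g0 • L) = ht v' z L := by
    have h2 := ht_act (g0 : GL (Fin 2) K) (fun w => by rw [gr1_det]; exact one_pos) hv'0 z L
    have h3 := gr1_inv_row g0
    rw [hg0] at h3
    rw [h3] at h2
    exact h2
  rw [hg0L, ht_ds] at h1
  -- the unit
  obtain ⟨ε, hε, hεR⟩ := hR (lgy (g0 • z))
  have h4 : ∑ w, lgy (dsm ε • g0 • z) w = ∑ w, lgy (g0 • z) w := by
    simp only [gr1_dsm_lgy, Finset.sum_add_distrib, ← Finset.mul_sum, lg_sum hε, mul_zero,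
      add_zero]
  -- the translation
  obtain ⟨β, hβ, hβC⟩ := (hC (a / (L.det / a))).ex (rev (dsm ε • g0 • z))
  have h5 : ∀ w, ((nm β • dsm ε • g0 • z) w).im = ((dsm ε • g0 • z) w).im := by
    intro w
    have := congrArg Complex.im (gr1_nm_act β (dsm ε • g0 • z) w)
    simpa using this
  have h6 : rev (nm β • dsm ε • g0 • z) = rev (dsm ε • g0 • z) + em β := by
    funext w
    have := congrArg Complex.re (gr1_nm_act β (dsm ε • g0 • z) w)
    simpa [rev, em] using this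
  have h7 : lgy (nm β • dsm ε • g0 • z) = lgy (dsm ε • g0 • z) := by
    funext w
    rw [lgy, lgy, h5]
  have h8 : nm β • Lat.ds (L.det / a) a = Lat.ds (L.det / a) a := by
    rw [act_eq]
    rw [gr1_nm_inv]
    exact ds_nm _ _ (Submodule.neg_mem _ hβ)
  refine ⟨nm β * dsm ε * g0, a, haA, ?_, ?_, ?_, ?_⟩
  · rw [mul_smul, mul_smul, hg0L, ds_dsm hε, h8]
  · rw [mul_smul, mul_smul, gr1_NY, h7, h4, ← gr1_NY, h1, hht]
    exact hηv
  · rw [mul_smul, mul_smul, h6]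
    exact hβC
  · intro w
    rw [mul_smul, mul_smul, h7, h4, gr1_dsm_lgy]
    exact hεR w


end tr3

end Pool.Agent.HSG
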