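import Pool.Agent.Lib_helper84.HSG.DefsB
import Pool.Agent.Lib_helper84.HSGF.GA1
import Pool.Agent.Lib_helper84.HSGF.GA3
import Pool.Agent.Lib_helper84.HSGF.GB2
import Pool.Agent.Lib_helper84.HSGF.GD1
import Pool.Agent.Lib_helper84.HSGF.GE2
import Pool.Agent.Lib_helper84.HSGF.GI1

namespace Pool.Agent.HSG

open Complex MeasureTheory Filter Topology UpperHalfPlane NumberField IsDedekindDomain
open scoped nonZeroDivisors MatrixGroups ENNReal

variable {K : Type} [Field K] [NumberField K]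

section tr3
variable [IsTotallyReal K]

omit [NumberField K] [IsTotallyReal K] in
theorem gr2_det (g : SL(2, K)) (w : Em K) :
    w (((g : GL (Fin 2) K)) : Matrix (Fin 2) (Fin 2) K).det = 1 := by
  have : (((g : GL (Fin 2) K)) : Matrix (Fin 2) (Fin 2) K).det = 1 := by
    simp
  rw [this, map_one]

omit [IsTotallyReal K] in
theorem gr2_im (g : SL(2, K)) (z : Em K → ℍ) (w : Em K) :
    ((g • z) w).im = (z w).im / ‖lz ((g : Matrix (Fin 2) (Fin 2) K) 1) z w‖ ^ 2 := by
  have h := im_act (g : GL (Fin 2) K) (fun w => by rw [gr2_det]; exact one_pos) z w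
  rw [gr2_det, one_mul] at h
  exact h

omit [NumberField K] [IsTotallyReal K] in
theorem gr2_inv_row (g h : SL(2, K))
    (hr : (h : Matrix (Fin 2) (Fin 2) K) 1 = (g : Matrix (Fin 2) (Fin 2) K) 1) :
    ((h * g⁻¹ : SL(2, K)) : Matrix (Fin 2) (Fin 2) K) 1 = ![0, 1] := by
  have h1 : ((h * g⁻¹ : SL(2, K)) : Matrix (Fin 2) (Fin 2) K) 1 =
      Matrix.vecMul ((h : Matrix (Fin 2) (Fin 2) K) 1)
        ((g⁻¹ : SL(2, K)) : Matrix (Fin 2) (Fin 2) K) := by
    rw [Matrix.SpecialLinearGroup.coe_mul]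
    ext j
    rfl
  have h2 : ((g * g⁻¹ : SL(2, K)) : Matrix (Fin 2) (Fin 2) K) 1 =
      Matrix.vecMul ((g : Matrix (Fin 2) (Fin 2) K) 1)
        ((g⁻¹ : SL(2, K)) : Matrix (Fin 2) (Fin 2) K) := by
    rw [Matrix.SpecialLinearGroup.coe_mul]
    ext j
    rfl
  rw [h1, hr, ← h2, mul_inv_cancel, Matrix.SpecialLinearGroup.coe_one]
  ext j
  fin_cases j
  · simp
  · exact Matrix.one_apply_eq 1

omit [NumberField K] [IsTotallyReal K] in
theorem gr2_nm_act (β : K) (z : Em K → ℍ) (w : Em K) :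
    ((nm β • z) w : ℂ) = (z w : ℂ) + ((w β : ℝ) : ℂ) := by
  have h0 : (nm β • z) w = (Matrix.GeneralLinearGroup.map (n := Fin 2) w
    (nm β : GL (Fin 2) K)) • z w := rfl
  have hd : (Matrix.GeneralLinearGroup.map (n := Fin 2) w
    (nm β : GL (Fin 2) K) : Matrix (Fin 2) (Fin 2) ℝ) = !![1, w β; 0, 1] := by
    ext i j
    show w ((nm β : Matrix (Fin 2) (Fin 2) K) i j) = _
    fin_cases i <;> fin_cases j <;> simp [nm]
  rw [h0, UpperHalfPlane.coe_smul_of_det_pos]
  · simp only [UpperHalfPlane.num, UpperHalfPlane.denom]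
    rw [hd]
    simp
  · show 0 < (Matrix.GeneralLinearGroup.map (n := Fin 2) w
      (nm β : GL (Fin 2) K) : Matrix (Fin 2) (Fin 2) ℝ).det
    rw [hd]
    simp

omit [IsTotallyReal K] in
/-- a common denominator of a lattice -/
theorem gr2_den (L : Lat K) : ∃ m : K, m ≠ 0 ∧ ∀ v ∈ L.M, ∀ i, m * v i ∈ (1 : Id K).m := by
  classical
  obtain ⟨S, hS⟩ := L.fg
  obtain ⟨m, hm⟩ := IsLocalization.exist_integer_multiples_of_finset (𝓞 K)⁰
    (S.image (fun v => v 0) ∪ S.image (fun v => v 1))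
  refine ⟨((m : 𝓞 K) : K), ?_, ?_⟩
  · intro h
    exact nonZeroDivisors.coe_ne_zero m (by exact_mod_cast h)
  · intro v hv
    rw [← hS] at hv
    induction hv using Submodule.span_induction with
    | mem x hx =>
      intro i
      have h1 : x i ∈ S.image (fun v => v 0) ∪ S.image (fun v => v 1) := by
        rw [Finset.mem_union, Finset.mem_image, Finset.mem_image]
        fin_cases i
        · exact Or.inl ⟨x, hx, rfl⟩
        · exact Or.inr ⟨x, hx, rfl⟩
      obtain ⟨y, hy⟩ := hm (x i) h1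
      rw [mem_m_one]
      refine ⟨y, ?_⟩
      rw [Algebra.smul_def] at hy
      exact hy
    | zero => intro i; simp
    | add x y _ _ hx hy =>
      intro i
      rw [Pi.add_apply, mul_add]
      exact Submodule.add_mem _ (hx i) (hy i)
    | smul c x _ hx =>
      intro i
      rw [Pi.smul_apply, mul_smul_comm]
      exact Submodule.smul_mem _ _ (hx i)

omit [IsTotallyReal K] in
theorem gr2_NY (z : Em K → ℍ) : Real.log (NY z) = ∑ w, lgy z w := by
  rw [NY, Real.log_prod (fun w _ => (z w).im_pos.ne')]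
  rfl

theorem reduce_fin (a : Id K) {η : ℝ} (hη : 0 < η) (R0 T : ℝ) (z : Em K → ℍ) (L : Lat K) :
    {g : SL(2, K) | g • L = Lat.ds (L.det / a) a ∧
      η ≤ NY (g • z) * nI (L.det / a / a) ∧ (∀ w, |rev (g • z) w| ≤ T) ∧
      ∀ w, |lgy (g • z) w - (∑ v, lgy (g • z) v) / (dg K : ℝ)| ≤ R0}.Finite := by
  classical
  set S := {g : SL(2, K) | g • L = Lat.ds (L.det / a) a ∧
      η ≤ NY (g • z) * nI (L.det / a / a) ∧ (∀ w, |rev (g • z) w| ≤ T) ∧
      ∀ w, |lgy (g • z) w - (∑ v, lgy (g • z) v) / (dg K : ℝ)| ≤ R0} with hS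
  have hd : (0 : ℝ) < dg K := by exact_mod_cast (dg_pos (K := K))
  -- the lower bound of the imaginary parts
  have hlow : ∃ y0 : ℝ, 0 < y0 ∧ ∀ g ∈ S, ∀ w, y0 ≤ ((g • z) w).im := by
    refine ⟨Real.exp (Real.log (η / nI (L.det / a / a)) / dg K - R0), Real.exp_pos _, ?_⟩
    intro g hg w
    have h1 := hg.2.1
    have hn : 0 < nI (L.det / a / a) := nI_pos _
    have h2 : Real.log (η / nI (L.det / a / a)) ≤ ∑ v, lgy (g • z) v := by
      rw [← gr2_NY]
      exact Real.log_le_log (div_pos hη hn) (by rw [div_le_iff₀ hn]; exact h1)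
    have h3 := (abs_le.mp (hg.2.2.2 w)).1
    have h4 : Real.log (η / nI (L.det / a / a)) / dg K ≤ (∑ v, lgy (g • z) v) / dg K :=
      div_le_div_of_nonneg_right h2 hd.le
    have h5 : Real.log (η / nI (L.det / a / a)) / dg K - R0 ≤ lgy (g • z) w := by linarith
    calc Real.exp (Real.log (η / nI (L.det / a / a)) / dg K - R0) ≤
        Real.exp (lgy (g • z) w) := Real.exp_le_exp.mpr h5
      _ = ((g • z) w).im := Real.exp_log ((g • z) w).im_pos
  obtain ⟨y0, hy0, hlow⟩ := hlow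
  -- the bound of the second rows
  have hB : ∃ B : ℝ, ∀ g ∈ S, ∀ i, ∀ w : Em K, |w ((g : Matrix (Fin 2) (Fin 2) K) 1 i)| ≤ B := by
    have hf : ∀ w : Em K, ∃ Bw : ℝ, ∀ g ∈ S, ∀ i,
        |w ((g : Matrix (Fin 2) (Fin 2) K) 1 i)| ≤ Bw := by
      intro w
      set y := (z w).im with hy
      have hyp : 0 < y := (z w).im_pos
      set q := √(y / y0) with hq
      refine ⟨max (q / y) (q + q / y * ‖(z w : ℂ)‖), ?_⟩
      intro g hg
      set v := (g : Matrix (Fin 2) (Fin 2) K) 1 with hv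
      have h1 := hlow g hg w
      rw [gr2_im, ← hv, ← hy] at h1
      have hne : lz v z w ≠ 0 := by
        intro h0
        rw [h0, norm_zero, zero_pow two_ne_zero, div_zero] at h1
        linarith
      have hp : 0 < ‖lz v z w‖ ^ 2 := pow_pos (norm_pos_iff.mpr hne) 2
      have h2 : ‖lz v z w‖ ^ 2 ≤ y / y0 := by
        rw [le_div_iff₀ hp] at h1
        rw [le_div_iff₀ hy0]
        linarith
      have h3 : ‖lz v z w‖ ≤ q := Real.le_sqrt_of_sq_le h2
      have h4 : |w (v 0)| * y ≤ ‖lz v z w‖ := by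
        have h5 : (lz v z w).im = w (v 0) * y := by
          simp [lz, hy]
        calc |w (v 0)| * y = |(lz v z w).im| := by rw [h5, abs_mul, abs_of_pos hyp]
          _ ≤ ‖lz v z w‖ := Complex.abs_im_le_norm _
      have h5 : |w (v 0)| ≤ q / y := by
        rw [le_div_iff₀ hyp]
        exact h4.trans h3
      have h6 : |w (v 1)| ≤ q + q / y * ‖(z w : ℂ)‖ := by
        have h7 : ((w (v 1) : ℝ) : ℂ) = lz v z w - ((w (v 0) : ℝ) : ℂ) * (z w : ℂ) := by
          simp [lz]
        have h8 : |w (v 1)| = ‖((w (v 1) : ℝ) : ℂ)‖ := by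
          rw [Complex.norm_real, Real.norm_eq_abs]
        rw [h8, h7]
        refine (norm_sub_le _ _).trans (add_le_add h3 ?_)
        rw [norm_mul, Complex.norm_real, Real.norm_eq_abs]
        exact mul_le_mul_of_nonneg_right h5 (norm_nonneg _)
      intro i
      fin_cases i
      · exact h5.trans (le_max_left _ _)
      · exact h6.trans (le_max_right _ _)
    choose Bw hBw using hf
    refine ⟨∑ w, |Bw w|, ?_⟩
    intro g hg i w
    calc |w ((g : Matrix (Fin 2) (Fin 2) K) 1 i)| ≤ |Bw w| := (hBw w g hg i).trans (le_abs_self _)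
      _ ≤ ∑ w, |Bw w| := Finset.single_le_sum (f := fun w => |Bw w|)
          (fun w _ => abs_nonneg _) (Finset.mem_univ w)
  obtain ⟨B, hB⟩ := hB
  -- the second rows lie in a fractional ideal
  obtain ⟨m, hm0, hm⟩ := gr2_den L
  obtain ⟨x0, hx00, hx0⟩ := a.exists_ne
  have hJ : ∃ J : Id K, ∀ g ∈ S, ∀ i, (g : Matrix (Fin 2) (Fin 2) K) 1 i ∈ J.m := by
    refine ⟨prI (Units.mk0 (m * x0) (mul_ne_zero hm0 hx00))⁻¹ * 1, ?_⟩
    intro g hg i
    rw [mem_prI_mul]
    have h1 : (![0, x0] : Fin 2 → K) ∈ (g • L).M := by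
      rw [hg.1]
      refine ⟨?_, ?_⟩
      · simp
      · simpa using hx0
    obtain ⟨u, hu, hue⟩ := h1
    have h2 : u = x0 • (g : Matrix (Fin 2) (Fin 2) K) 1 := by
      have h3 : Matrix.vecMul u ((g⁻¹ : SL(2, K)) : Matrix (Fin 2) (Fin 2) K) = ![0, x0] := hue
      have h4 : Matrix.vecMul (Matrix.vecMul u ((g⁻¹ : SL(2, K)) : Matrix (Fin 2) (Fin 2) K))
          (g : Matrix (Fin 2) (Fin 2) K) = u := by
        rw [Matrix.vecMul_vecMul, ← Matrix.SpecialLinearGroup.coe_mul, inv_mul_cancel,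
          Matrix.SpecialLinearGroup.coe_one, Matrix.vecMul_one]
      rw [← h4, h3]
      ext j
      simp [Matrix.vecMul, dotProduct, Fin.sum_univ_two]
    have h5 := hm u hu i
    rw [h2, Pi.smul_apply, smul_eq_mul, ← mul_assoc] at h5
    simpa using h5
  obtain ⟨J, hJ⟩ := hJ
  refine Set.Finite.of_finite_fibers (fun g : SL(2, K) => (g : Matrix (Fin 2) (Fin 2) K) 1)
    ?_ ?_
  · have hfin := box_finite J B
    refine (Set.Finite.pi' (ι := Fin 2) (κ := fun _ => K) (fun _ => hfin)).subset ?_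
    rintro _ ⟨g, hg, rfl⟩
    intro i
    exact ⟨hJ g hg i, fun w => hB g hg i w⟩
  · rintro _ ⟨g, hg, rfl⟩
    refine ((box_finite (a / (L.det / a)) (2 * T)).image (fun β => nm β * g)).subset ?_
    rintro h ⟨hh, hrow⟩
    have hrow' : (h : Matrix (Fin 2) (Fin 2) K) 1 = (g : Matrix (Fin 2) (Fin 2) K) 1 := hrow
    have h1 : (h * g⁻¹) • Lat.ds (L.det / a) a = Lat.ds (L.det / a) a := by
      conv_lhs => rw [← hg.1]
      rw [mul_smul, inv_smul_smul]
      exact hh.1
    obtain ⟨-, -, β, hβ, hβe⟩ := stab_ds (gr2_inv_row g h hrow') h1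
    have h2 : h = nm β * g := by
      rw [← hβe, inv_mul_cancel_right]
    refine ⟨β, ⟨hβ, ?_⟩, h2.symm⟩
    intro w
    have h3 := hh.2.2.1 w
    have h4 := hg.2.2.1 w
    have h5 : rev (h • z) w = rev (g • z) w + w β := by
      rw [h2, mul_smul]
      have := congrArg Complex.re (gr2_nm_act β (g • z) w)
      simpa [rev] using this
    rw [h5] at h3
    have h6 : w β = (rev (g • z) w + w β) - rev (g • z) w := by ring
    rw [h6]
    refine (abs_sub _ _).trans ?_
    linarith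


end tr3

end Pool.Agent.HSG
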