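import Pool.Agent.Lib_helper84.HSG.DefsB
import Pool.Agent.Lib_helper84.HSGF.GA3
import Pool.Agent.Lib_helper84.HSGF.GB1
import Pool.Agent.Lib_helper84.HSGF.GD1
import Pool.Agent.Lib_helper84.HSGF.GE1
import Pool.Agent.Lib_helper84.HSGF.GF1
import Pool.Agent.Lib_helper84.HSGF.GG
import Pool.Agent.Lib_helper84.HSGF.GI3
import Pool.Agent.Lib_helper84.HSGF.GQ
import Pool.Agent.Lib_helper84.HSGF.GR1
import Pool.Agent.Lib_helper84.HSGF.GR2

/-! # Block GR3: exact weights -/

namespace Pool.Agent.HSG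

open Complex MeasureTheory Filter Topology UpperHalfPlane NumberField IsDedekindDomain
open scoped nonZeroDivisors MatrixGroups ENNReal

variable {K : Type} [Field K] [NumberField K]

/-! ### The volume of a strip -/

theorem gr3_int {e : ℝ} (he : 0 < e) :
    ∫⁻ y in Set.Ici e, (((1 / ‖y‖₊) ^ 2 : NNReal) : ℝ≥0∞) < ∞ := by
  have h1 := integrableOn_Ioi_rpow_of_lt (show (-2 : ℝ) < -1 by norm_num) he
  have h2 : ∫⁻ y in Set.Ici e, (((1 / ‖y‖₊) ^ 2 : NNReal) : ℝ≥0∞) =
      ∫⁻ y in Set.Ioi e, ‖y ^ (-2 : ℝ)‖ₑ := by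
    rw [setLIntegral_congr (Ioi_ae_eq_Ici (a := e)).symm]
    apply setLIntegral_congr_fun measurableSet_Ioi
    intro y hy
    have hy0 : 0 < y := he.trans hy
    have h3 : y ^ (-2 : ℝ) = (y ^ 2)⁻¹ := by
      rw [Real.rpow_neg hy0.le, Real.rpow_two]
    beta_reduce
    rw [h3]
    have h4 : ‖(y ^ 2)⁻¹‖₊ = (1 / ‖y‖₊) ^ 2 := by
      rw [nnnorm_inv, nnnorm_pow, one_div, inv_pow]
    rw [← h4]
    rfl
  rw [h2]
  exact h1.2

theorem gr3_strip (T : ℝ) {e : ℝ} (he : 0 < e) :
    (volume : Measure ℍ) {z : ℍ | |z.re| ≤ T ∧ e ≤ z.im} < ∞ := by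
  rw [volume_eq_lintegral]
  have h1 : (UpperHalfPlane.coe '' {z : ℍ | |z.re| ≤ T ∧ e ≤ z.im}) ⊆
      {z : ℂ | |z.re| ≤ T ∧ e ≤ z.im} := by
    rintro _ ⟨z, hz, rfl⟩
    exact hz
  refine (lintegral_mono_set h1).trans_lt ?_
  rw [← (Complex.volume_preserving_equiv_real_prod.symm _).setLIntegral_comp_preimage_emb
      (Complex.measurableEquivRealProd.symm.measurableEmbedding)]
  have hpre : (Complex.measurableEquivRealProd.symm ⁻¹' {z : ℂ | |z.re| ≤ T ∧ e ≤ z.im}) =
      Set.Icc (-T) T ×ˢ Set.Ici e := by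
    ext p
    simp [Complex.measurableEquivRealProd_symm_apply, abs_le]
  rw [hpre, Measure.volume_eq_prod, ← Measure.prod_restrict]
  have h2 : ∀ p : ℝ × ℝ, (((1 / ‖(Complex.measurableEquivRealProd.symm p : ℂ).im‖₊) ^ 2 : NNReal) :
      ℝ≥0∞) = (((1 / ‖p.2‖₊) ^ 2 : NNReal) : ℝ≥0∞) := by
    intro p
    rw [Complex.measurableEquivRealProd_symm_apply]
  rw [lintegral_congr h2, lintegral_prod]
  · dsimp only
    rw [lintegral_const, Measure.restrict_apply_univ, Real.volume_Icc]
    exact ENNReal.mul_lt_top (gr3_int he) ENNReal.ofReal_lt_top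
  · apply Measurable.aemeasurable
    apply Measurable.coe_nnreal_ennreal
    apply Measurable.pow_const
    exact measurable_const.div measurable_snd.nnnorm

section tr3
variable [IsTotallyReal K]

/-- the conditions on the point of a reduced pair -/
def gr3_Z (η R0 : ℝ) (C : Id K → Set (Em K → ℝ)) (r a : Id K) : Set (Em K → ℍ) :=
  {z | η ≤ NY z * nI (r / a / a) ∧ rev z ∈ C (a / (r / a)) ∧
    ∀ w, |lgy z w - (∑ v, lgy z v) / (dg K : ℝ)| ≤ R0}

/-- the reduced pairs -/
def gr3_B (A : Finset (Id K)) (η R0 : ℝ) (C : Id K → Set (Em K → ℝ)) : Set (XX K) :=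
  {x | ∃ a ∈ A, x.2 = Lat.ds (x.2.det / a) a ∧ x.1 ∈ gr3_Z η R0 C x.2.det a}

omit [IsTotallyReal K] in
theorem gr3_im_meas (w : Em K) : Measurable fun z : Em K → ℍ => (z w).im :=
  Complex.measurable_im.comp (UpperHalfPlane.measurable_coe.comp (measurable_pi_apply w))

theorem gr3_Z_meas {η R0 : ℝ} {C : Id K → Set (Em K → ℝ)} (hC : ∀ x, IsCell x (C x))
    (r a : Id K) : MeasurableSet (gr3_Z η R0 C r a) := by
  have h1 : Measurable fun z : Em K → ℍ => NY z * nI (r / a / a) := by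
    unfold NY
    exact (Finset.measurable_prod _ fun w _ => gr3_im_meas w).mul_const _
  have h2 : Measurable fun z : Em K → ℍ => rev z := by
    apply measurable_pi_lambda
    intro w
    exact Complex.measurable_re.comp (UpperHalfPlane.measurable_coe.comp (measurable_pi_apply w))
  have h3 : ∀ w : Em K, Measurable fun z : Em K → ℍ => lgy z w := fun w =>
    Real.measurable_log.comp (gr3_im_meas w)
  have h4 : ∀ w : Em K, Measurable fun z : Em K → ℍ =>
      |lgy z w - (∑ v, lgy z v) / (dg K : ℝ)| := by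
    intro w
    apply Measurable.abs
    exact (h3 w).sub ((Finset.measurable_sum _ fun v _ => h3 v).div_const _)
  have h5 : gr3_Z η R0 C r a = {z | η ≤ NY z * nI (r / a / a)} ∩
      ((fun z : Em K → ℍ => rev z) ⁻¹' C (a / (r / a)) ∩
        ⋂ w : Em K, {z | |lgy z w - (∑ v, lgy z v) / (dg K : ℝ)| ≤ R0}) := by
    ext z
    simp only [gr3_Z, Set.mem_setOf_eq, Set.mem_inter_iff, Set.mem_preimage, Set.mem_iInter]
  rw [h5]
  refine (measurableSet_le measurable_const h1).inter ((h2 (hC _).meas).inter ?_)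
  exact MeasurableSet.iInter fun w => measurableSet_le (h4 w) measurable_const

theorem gr3_B_meas (A : Finset (Id K)) {η R0 : ℝ} {C : Id K → Set (Em K → ℝ)}
    (hC : ∀ x, IsCell x (C x)) : MeasurableSet (gr3_B A η R0 C) := by
  have h1 : gr3_B A η R0 C = ⋃ L : Lat K, ⋃ a ∈ A, ⋃ _ : L = Lat.ds (L.det / a) a,
      (gr3_Z η R0 C L.det a) ×ˢ {L} := by
    ext ⟨z, L⟩
    simp only [gr3_B, Set.mem_setOf_eq, Set.mem_iUnion, Set.mem_prod, Set.mem_singleton_iff]
    constructor
    · rintro ⟨a, ha, h2, h3⟩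
      exact ⟨L, a, ha, h2, h3, rfl⟩
    · rintro ⟨L', a, ha, h2, h3, rfl⟩
      exact ⟨a, ha, h2, h3⟩
  rw [h1]
  refine MeasurableSet.iUnion fun L => ?_
  refine A.measurableSet_biUnion fun a _ => ?_
  refine MeasurableSet.iUnion fun _ => ?_
  exact (gr3_Z_meas hC _ _).prod (measurableSet_singleton L)

/-- reduced points have imaginary parts bounded below and bounded real parts -/
theorem gr3_Z_vol {η R0 : ℝ} (hη : 0 < η) {C : Id K → Set (Em K → ℝ)}
    (hC : ∀ x, IsCell x (C x)) (r a : Id K) :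
    (volume : Measure (Em K → ℍ)) (gr3_Z η R0 C r a) < ∞ := by
  obtain ⟨T, hT⟩ := (hC (a / (r / a))).bdd
  obtain ⟨c, hc⟩ : ∃ c, c = nI (r / a / a) := ⟨_, rfl⟩
  have hc0 : 0 < c := by
    rw [hc]
    exact nI_pos _
  have hd : (0 : ℝ) < (dg K : ℝ) := by exact_mod_cast dg_pos (K := K)
  obtain ⟨e, he⟩ : ∃ e, e = Real.exp (Real.log (η / c) / (dg K : ℝ) - R0) := ⟨_, rfl⟩
  have he0 : 0 < e := by
    rw [he]
    exact Real.exp_pos _
  have h1 : gr3_Z η R0 C r a ⊆ Set.pi Set.univ fun _ : Em K => {z : ℍ | |z.re| ≤ T ∧ e ≤ z.im} := by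
    intro z hz
    obtain ⟨h2, h3, h4⟩ := hz
    intro w _
    refine ⟨hT _ h3 w, ?_⟩
    rw [← hc] at h2
    have hNY : 0 < NY z := Finset.prod_pos fun v _ => (z v).im_pos
    have h5 : ∑ v, lgy z v = Real.log (NY z) := by
      unfold lgy NY
      rw [Real.log_prod]
      intro v _
      exact (z v).im_pos.ne'
    have h6 : Real.log (η / c) ≤ Real.log (NY z) := by
      apply Real.log_le_log (by positivity)
      rw [div_le_iff₀ hc0]
      exact h2
    have h7 := abs_le.mp (h4 w)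
    rw [h5] at h7
    have h8 : Real.log (η / c) / (dg K : ℝ) ≤ Real.log (NY z) / (dg K : ℝ) :=
      div_le_div_of_nonneg_right h6 hd.le
    have h9 : Real.log (η / c) / (dg K : ℝ) - R0 ≤ lgy z w := by linarith [h7.1]
    rw [he]
    calc Real.exp (Real.log (η / c) / (dg K : ℝ) - R0) ≤ Real.exp (lgy z w) :=
          Real.exp_le_exp.mpr h9
      _ = (z w).im := by
          unfold lgy
          exact Real.exp_log (z w).im_pos
  refine (measure_mono h1).trans_lt ?_
  rw [volume_pi_pi]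
  exact ENNReal.prod_lt_top fun w _ => gr3_strip T he0

theorem exw_exists : Nonempty (ExW K) := by
  classical
  obtain ⟨A, hA⟩ := wide_reps (K := K)
  obtain ⟨η, hη0, hη⟩ := mink (K := K)
  obtain ⟨R0, hR⟩ := bal (K := K)
  choose C hC using cell_exists (K := K)
  set B := gr3_B A η R0 C with hB
  have hBm : MeasurableSet B := gr3_B_meas A hC
  obtain ⟨ind, hind⟩ : ∃ ind : XX K → ℝ≥0∞, ind = B.indicator (fun _ => 1) := ⟨_, rfl⟩
  have hindm : Measurable ind := by
    rw [hind]
    exact measurable_const.indicator hBm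
  have hind1 : ∀ x ∈ B, ind x = 1 := by
    intro x hx
    rw [hind, Set.indicator_of_mem hx]
  have hind0 : ∀ x, x ∉ B → ind x = 0 := by
    intro x hx
    rw [hind, Set.indicator_of_notMem hx]
  obtain ⟨n, hn⟩ : ∃ n : XX K → ℝ≥0∞, n = fun x => ∑' g : SL(2, K), ind (g • x) := ⟨_, rfl⟩
  have hnm : Measurable n := by
    rw [hn]
    exact Measurable.ennreal_tsum fun g => hindm.comp (mu0_act g).measurable
  have hninv : ∀ (h : SL(2, K)) (x : XX K), n (h • x) = n x := by
    intro h x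
    rw [hn]
    simp only [smul_smul]
    exact (Equiv.mulRight h).tsum_eq (fun g => ind (g • x))
  have hn0 : ∀ x, n x ≠ 0 := by
    rintro ⟨z, L⟩ h0
    obtain ⟨g, a, ha, h1, h2, h3, h4⟩ := reduce A hA hη hR hC z L
    have h5 : g • ((z, L) : XX K) ∈ B := by
      refine ⟨a, ha, ?_, ?_⟩
      · show g • L = Lat.ds ((g • L).det / a) a
        rw [det_act]
        exact h1
      · show g • z ∈ gr3_Z η R0 C (g • L).det a
        rw [det_act]
        exact ⟨h2, h3, h4⟩
    rw [hn] at h0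
    have h6 := (ENNReal.tsum_eq_zero.mp h0) g
    rw [hind1 _ h5] at h6
    exact one_ne_zero h6
  have hnt : ∀ x, n x ≠ ∞ := by
    rintro ⟨z, L⟩
    have hfin : {g : SL(2, K) | g • ((z, L) : XX K) ∈ B}.Finite := by
      have hT : ∀ a : Id K, ∃ T : ℝ, ∀ t ∈ C (a / (L.det / a)), ∀ w, |t w| ≤ T :=
        fun a => (hC _).bdd
      choose T hT using hT
      refine (A.finite_toSet.biUnion fun a _ => reduce_fin a hη0 R0 (T a) z L).subset ?_
      rintro g ⟨a, ha, h1, h2⟩
      have h3 : g • L = Lat.ds ((g • L).det / a) a := h1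
      have h4 : g • z ∈ gr3_Z η R0 C (g • L).det a := h2
      rw [det_act] at h3 h4
      simp only [Set.mem_iUnion]
      exact ⟨a, ha, h3, h4.1, fun w => hT a _ h4.2.1 w, h4.2.2⟩
    rw [hn]
    show ∑' g : SL(2, K), ind (g • ((z, L) : XX K)) ≠ ∞
    rw [tsum_eq_sum (s := hfin.toFinset)]
    · apply ENNReal.sum_ne_top.mpr
      intro g hg
      rw [Set.Finite.mem_toFinset] at hg
      rw [hind1 _ hg]
      exact ENNReal.one_ne_top
    · intro g hg
      rw [Set.Finite.mem_toFinset] at hg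
      exact hind0 _ hg
  have hle : ∀ x, ind x / n x ≤ ind x := by
    intro x
    by_cases hx : x ∈ B
    · rw [hind1 x hx]
      apply ENNReal.div_le_of_le_mul
      rw [one_mul, hn]
      calc (1 : ℝ≥0∞) = ind ((1 : SL(2, K)) • x) := by rw [one_smul, hind1 x hx]
        _ ≤ _ := ENNReal.le_tsum (f := fun g : SL(2, K) => ind (g • x)) 1
    · rw [hind0 x hx, ENNReal.zero_div]
  have hle1 : ∀ x, ind x ≠ ∞ := by
    intro x
    by_cases hx : x ∈ B
    · rw [hind1 x hx]
      exact ENNReal.one_ne_top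
    · rw [hind0 x hx]
      exact ENNReal.zero_ne_top
  have hnet : ∀ x, ind x / n x ≠ ∞ := fun x => ne_top_of_le_ne_top (hle1 x) (hle x)
  refine ⟨{ w := fun x => (ind x / n x).toReal
            meas := (hindm.div hnm).ennreal_toReal
            nn := fun x => ENNReal.toReal_nonneg
            ex := ?_
            fin := ?_ }⟩
  · intro x
    have h1 : ∑' g : SL(2, K), ind (g • x) / n (g • x) = 1 := by
      simp only [hninv, div_eq_mul_inv]
      rw [ENNReal.tsum_mul_right]
      have h2 : ∑' g : SL(2, K), ind (g • x) = n x := by rw [hn]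
      rw [h2]
      exact ENNReal.mul_inv_cancel (hn0 x) (hnt x)
    have h3 := ENNReal.hasSum_toReal (f := fun g : SL(2, K) => ind (g • x) / n (g • x)) (by
      rw [h1]
      exact ENNReal.one_ne_top)
    rw [← ENNReal.tsum_toReal_eq (fun g => hnet (g • x)), h1, ENNReal.toReal_one] at h3
    exact h3
  · intro r
    have hdm : MeasurableSet {x : XX K | x.2.det = r} :=
      measurable_snd (MeasurableSet.of_discrete (s := {L : Lat K | L.det = r}))
    have h1 : ∫⁻ x in {x : XX K | x.2.det = r}, ENNReal.ofReal ((ind x / n x).toReal) ∂(mu0 K) ≤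
        ∫⁻ x in {x : XX K | x.2.det = r}, ind x ∂(mu0 K) := by
      apply lintegral_mono
      intro x
      exact (ENNReal.ofReal_toReal (hnet x)).le.trans (hle x)
    refine h1.trans_lt ?_
    have h2 : ∫⁻ x in {x : XX K | x.2.det = r}, ind x ∂(mu0 K) =
        (mu0 K) (B ∩ {x : XX K | x.2.det = r}) := by
      rw [hind, lintegral_indicator hBm, setLIntegral_const, one_mul,
        Measure.restrict_apply hBm]
    rw [h2]
    have h3 : B ∩ {x : XX K | x.2.det = r} ⊆
        ⋃ a ∈ A, (gr3_Z η R0 C r a) ×ˢ {Lat.ds (r / a) a} := by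
      rintro ⟨z, L⟩ ⟨⟨a, ha, h4, h5⟩, h6⟩
      have h6' : L.det = r := h6
      have h4' : L = Lat.ds (L.det / a) a := h4
      have h5' : z ∈ gr3_Z η R0 C L.det a := h5
      rw [h6'] at h4' h5'
      simp only [Set.mem_iUnion, Set.mem_prod, Set.mem_singleton_iff]
      exact ⟨a, ha, h5', h4'⟩
    refine (measure_mono h3).trans_lt ?_
    refine (measure_biUnion_finset_le A _).trans_lt ?_
    apply ENNReal.sum_lt_top.mpr
    intro a _
    unfold mu0
    rw [Measure.prod_prod, Measure.count_singleton, mul_one]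
    exact gr3_Z_vol hη0 hC r a

end tr3


end Pool.Agent.HSG
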