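import Pool.Agent.Lib_helper84.HSG.DefsB
import Pool.Agent.Lib_helper84.HSGF.GJ1
import Pool.Agent.Lib_helper84.HSGF.GJ2
import Pool.Agent.Lib_helper84.HSGF.GQ

/-! # HSG, block GT (PET): the Petersson product, Bessel's inequality -/

namespace Pool.Agent.HSG

open Complex MeasureTheory Filter Topology UpperHalfPlane NumberField IsDedekindDomain
open scoped nonZeroDivisors MatrixGroups ENNReal

variable {K : Type} [Field K] [NumberField K] [IsTotallyReal K]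

theorem pn_nonneg (ω : ExW K) (k : ℕ) (F : (Em K → ℍ) → Lat K → ℂ) : 0 ≤ pn ω k F :=
  integral_nonneg fun _ => by positivity

theorem gt_int (ω : ExW K) {k : ℕ} {F F' : (Em K → ℍ) → Lat K → ℂ} (hF : IsForm k F)
    (hF' : IsForm k F') :
    Integrable (fun x : XX K => PF k F x.1 x.2 * starRingEnd ℂ (PF k F' x.1 x.2)) (mX ω) := by
  have hfin := mX_fin ω
  obtain ⟨C, hC0, hC⟩ := pf_bdd hF
  obtain ⟨C', hC0', hC'⟩ := pf_bdd hF'
  have hm : Measurable (fun x : XX K => PF k F x.1 x.2 * starRingEnd ℂ (PF k F' x.1 x.2)) :=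
    (pf_meas hF).mul (Complex.continuous_conj.measurable.comp (pf_meas hF'))
  refine Integrable.mono' (integrable_const (C * C')) hm.aestronglyMeasurable
    (ae_of_all _ fun x => ?_)
  rw [norm_mul, RCLike.norm_conj]
  exact mul_le_mul (hC _ _) (hC' _ _) (norm_nonneg _) hC0

theorem gt_pn (ω : ExW K) (k : ℕ) (F : (Em K → ℍ) → Lat K → ℂ) :
    ((pn ω k F : ℝ) : ℂ) = pet ω k F F := by
  unfold pn pet
  rw [← integral_complex_ofReal]
  refine integral_congr_ae (ae_of_all _ fun x => ?_)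
  show ((‖PF k F x.1 x.2‖ ^ 2 : ℝ) : ℂ) = PF k F x.1 x.2 * starRingEnd ℂ (PF k F x.1 x.2)
  rw [Complex.mul_conj, Complex.normSq_eq_norm_sq]

theorem gt_PF_sum {k : ℕ} {ι : Type} [Fintype ι] (c : ι → ℂ)
    (F : ι → (Em K → ℍ) → Lat K → ℂ) (z : Em K → ℍ) (L : Lat K) :
    PF k (fun z L => ∑ i, c i * F i z L) z L = ∑ i, c i * PF k (F i) z L := by
  unfold PF
  rw [Finset.sum_mul]
  exact Finset.sum_congr rfl fun i _ => by ring

theorem pn_lin (ω : ExW K) {k : ℕ} {ι : Type} [Fintype ι] (c : ι → ℂ)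
    {F : ι → (Em K → ℍ) → Lat K → ℂ} (hF : ∀ i, IsForm k (F i))
    (ho : ∀ i j, i ≠ j → pet ω k (F i) (F j) = 0) :
    pn ω k (fun z L => ∑ i, c i * F i z L) = ∑ i, ‖c i‖ ^ 2 * pn ω k (F i) := by
  classical
  have h : ((pn ω k (fun z L => ∑ i, c i * F i z L) : ℝ) : ℂ) =
      ((∑ i, ‖c i‖ ^ 2 * pn ω k (F i) : ℝ) : ℂ) := by
    rw [gt_pn]
    unfold pet
    have e : (fun x : XX K => PF k (fun z L => ∑ i, c i * F i z L) x.1 x.2 *
        starRingEnd ℂ (PF k (fun z L => ∑ i, c i * F i z L) x.1 x.2)) =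
        fun x => ∑ i, ∑ j, (c i * starRingEnd ℂ (c j)) *
          (PF k (F i) x.1 x.2 * starRingEnd ℂ (PF k (F j) x.1 x.2)) := by
      funext x
      rw [gt_PF_sum, map_sum, Finset.sum_mul_sum]
      refine Finset.sum_congr rfl fun i _ => Finset.sum_congr rfl fun j _ => ?_
      rw [map_mul]
      ring
    rw [e, integral_finsetSum]
    · push_cast
      refine Finset.sum_congr rfl fun i _ => ?_
      rw [integral_finsetSum]
      · rw [Finset.sum_eq_single i]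
        · rw [integral_const_mul, Complex.mul_conj, Complex.normSq_eq_norm_sq]
          have := gt_pn ω k (F i)
          unfold pet at this
          rw [← this]
          push_cast
          rfl
        · intro j _ hj
          rw [integral_const_mul]
          have := ho i j (Ne.symm hj)
          unfold pet at this
          rw [this, mul_zero]
        · intro hi
          exact absurd (Finset.mem_univ i) hi
      · intro j _
        exact (gt_int ω (hF i) (hF j)).const_mul _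
    · intro i _
      exact integrable_finsetSum _ fun j _ => (gt_int ω (hF i) (hF j)).const_mul _
  exact_mod_cast h

/-- duality -/
theorem bessel_dual (ω : ExW K) {k : ℕ} {ι τ : Type} [Fintype ι] (s : Finset τ)
    {F : ι → (Em K → ℍ) → Lat K → ℂ} (hF : ∀ i, IsForm k (F i))
    (ho : ∀ i j, i ≠ j → pet ω k (F i) (F j) = 0) (hp : ∀ i, 0 < pn ω k (F i))
    {B : ℝ} (hB : 0 ≤ B) (l : τ → ι → ℂ) (hl : ∀ c : ι → ℂ, ∑ m ∈ s, ‖∑ i, c i * l m i‖ ^ 2 ≤
      B * pn ω k (fun z L => ∑ i, c i * F i z L)) (y : τ → ℂ) :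
    ∑ i, ‖∑ m ∈ s, y m * l m i‖ ^ 2 / pn ω k (F i) ≤ B * ∑ m ∈ s, ‖y m‖ ^ 2 := by
  set Λ : ι → ℂ := fun i => ∑ m ∈ s, y m * l m i with hΛ
  set Q : ℝ := ∑ i, ‖Λ i‖ ^ 2 / pn ω k (F i) with hQ
  have hQ0 : 0 ≤ Q := Finset.sum_nonneg fun i _ => div_nonneg (by positivity) (hp i).le
  set c : ι → ℂ := fun i => starRingEnd ℂ (Λ i) / (pn ω k (F i) : ℂ) with hc
  have h1 := hl c
  rw [pn_lin ω c hF ho] at h1
  have h2 : ∑ i, ‖c i‖ ^ 2 * pn ω k (F i) = Q := by
    refine Finset.sum_congr rfl fun i _ => ?_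
    have hpi := hp i
    rw [hc]
    show ‖starRingEnd ℂ (Λ i) / (pn ω k (F i) : ℂ)‖ ^ 2 * pn ω k (F i) = _
    rw [norm_div, RCLike.norm_conj, Complex.norm_real, Real.norm_eq_abs, abs_of_pos hpi]
    field_simp
  rw [h2] at h1
  -- the value at `c`
  have h3 : ∑ m ∈ s, y m * ∑ i, c i * l m i = (Q : ℂ) := by
    have e1 : ∑ m ∈ s, y m * ∑ i, c i * l m i = ∑ i, c i * Λ i := by
      rw [hΛ]
      simp_rw [Finset.mul_sum]
      rw [Finset.sum_comm]
      refine Finset.sum_congr rfl fun i _ => Finset.sum_congr rfl fun m _ => ?_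
      ring
    rw [e1, hQ]
    push_cast
    refine Finset.sum_congr rfl fun i _ => ?_
    rw [hc]
    show starRingEnd ℂ (Λ i) / (pn ω k (F i) : ℂ) * Λ i = _
    rw [div_mul_eq_mul_div, mul_comm (starRingEnd ℂ (Λ i)), Complex.mul_conj,
      Complex.normSq_eq_norm_sq]
    push_cast
    rfl
  have h4 : Q ≤ ∑ m ∈ s, ‖y m‖ * ‖∑ i, c i * l m i‖ := by
    calc Q = ‖(Q : ℂ)‖ := by rw [Complex.norm_real, Real.norm_eq_abs, abs_of_nonneg hQ0]
      _ = ‖∑ m ∈ s, y m * ∑ i, c i * l m i‖ := by rw [h3]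
      _ ≤ ∑ m ∈ s, ‖y m * ∑ i, c i * l m i‖ := norm_sum_le _ _
      _ = ∑ m ∈ s, ‖y m‖ * ‖∑ i, c i * l m i‖ :=
          Finset.sum_congr rfl fun m _ => norm_mul _ _
  have h5 := Finset.sum_mul_sq_le_sq_mul_sq s (fun m => ‖y m‖) (fun m => ‖∑ i, c i * l m i‖)
  have h6 : Q ^ 2 ≤ (∑ m ∈ s, ‖y m‖ ^ 2) * (B * Q) := by
    calc Q ^ 2 ≤ (∑ m ∈ s, ‖y m‖ * ‖∑ i, c i * l m i‖) ^ 2 := by gcongr
      _ ≤ _ := h5
      _ ≤ (∑ m ∈ s, ‖y m‖ ^ 2) * (B * Q) :=
          mul_le_mul_of_nonneg_left h1 (Finset.sum_nonneg fun _ _ => by positivity)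
  rcases hQ0.eq_or_lt with h0 | h0
  · rw [← h0]
    exact mul_nonneg hB (Finset.sum_nonneg fun _ _ => by positivity)
  · have h7 : Q * Q ≤ (B * ∑ m ∈ s, ‖y m‖ ^ 2) * Q := by
      calc Q * Q = Q ^ 2 := by ring
        _ ≤ _ := h6
        _ = (B * ∑ m ∈ s, ‖y m‖ ^ 2) * Q := by ring
    exact le_of_mul_le_mul_right h7 h0

/-- Bessel's inequality for a functional which is bounded by the Petersson norm -/
theorem bessel (ω : ExW K) {k : ℕ} {ι : Type} [Fintype ι]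
    {F : ι → (Em K → ℍ) → Lat K → ℂ} (hF : ∀ i, IsForm k (F i))
    (ho : ∀ i j, i ≠ j → pet ω k (F i) (F j) = 0) (hp : ∀ i, 0 < pn ω k (F i))
    {B : ℝ} (hB : 0 ≤ B) (l : ι → ℂ) (hl : ∀ c : ι → ℂ,
      ‖∑ i, c i * l i‖ ^ 2 ≤ B * pn ω k (fun z L => ∑ i, c i * F i z L)) :
    ∑ i, ‖l i‖ ^ 2 / pn ω k (F i) ≤ B := by
  have h := bessel_dual ω (τ := Unit) {()} hF ho hp hB (fun _ => l)
    (fun c => by rw [Finset.sum_singleton]; exact hl c) (fun _ => 1)
  simpa using h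


end Pool.Agent.HSG
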