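import Pool.Agent.Lib_helper84.HSG.DefsB
import Pool.Agent.Lib_helper84.HSGF.GA1
import Pool.Agent.Lib_helper84.HSGF.GF1

/-! # Hilbert-Selberg, PART II: block GF2 (UNI-b), weights for the units -/

namespace Pool.Agent.HSG

open Complex MeasureTheory Filter Topology UpperHalfPlane NumberField IsDedekindDomain
open scoped nonZeroDivisors MatrixGroups ENNReal

variable {K : Type} [Field K] [NumberField K]

omit [NumberField K] in
theorem gf2_lg_mul (x y : Kˣ) : lg (x * y) = lg x + lg y := by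
  funext w
  have h1 : w (x : K) ≠ 0 := (map_ne_zero w).2 x.ne_zero
  have h2 : w (y : K) ≠ 0 := (map_ne_zero w).2 y.ne_zero
  show Real.log |w ((x * y : Kˣ) : K)| = Real.log |w (x : K)| + Real.log |w (y : K)|
  rw [Units.val_mul, map_mul, abs_mul, Real.log_mul (abs_ne_zero.2 h1) (abs_ne_zero.2 h2)]

omit [NumberField K] in
theorem gf2_lg_one : lg (1 : Kˣ) = 0 := by
  funext w
  show Real.log |w ((1 : Kˣ) : K)| = 0
  simp

theorem gf2_lg_div (x y : Kˣ) : lg (x / y) = lg x - lg y := by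
  have h := gf2_lg_mul (x / y) y
  rw [div_mul_cancel] at h
  rw [h, add_sub_cancel_right]

theorem gf2_lg_sq (x : Kˣ) : lg (x ^ 2) = 2 • lg x := by
  rw [pow_two, gf2_lg_mul, two_nsmul]

theorem gf2_sq_mem {ε : Kˣ} (hε : ε ∈ Uu K) : ε ^ 2 ∈ Up K := by
  refine ⟨fun w => ?_, pow_mem hε 2⟩
  have h1 : w (ε : K) ≠ 0 := (map_ne_zero w).2 ε.ne_zero
  rw [Units.val_pow_eq_pow_val, map_pow]
  positivity

theorem gf2_countable : Countable (Up K) := by
  have := countK K
  have h : Function.Injective (fun ε : Up K => ((ε.1 : Kˣ) : K)) := by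
    intro a b hab
    exact Subtype.ext (Units.ext hab)
  exact h.countable

/-- the balanced vectors -/
def gf2_B (K : Type) [Field K] [NumberField K] (R : ℝ) : Set (Em K → ℝ) :=
  {u | ∀ w, |u w - (∑ v, u v) / (dg K : ℝ)| ≤ R}

theorem gf2_meas (R : ℝ) : MeasurableSet (gf2_B K R) := by
  have h : gf2_B K R = ⋂ w : Em K, {u | |u w - (∑ v, u v) / (dg K : ℝ)| ≤ R} := by
    ext u
    simp [gf2_B]
  rw [h]
  refine MeasurableSet.iInter fun w => ?_
  have hc : Measurable (fun u : Em K → ℝ => |u w - (∑ v, u v) / (dg K : ℝ)|) :=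
    (Continuous.measurable (by fun_prop))
  exact hc measurableSet_Iic

/-- the number of totally positive units which balance `u` -/
noncomputable def gf2_N (K : Type) [Field K] [NumberField K] (R : ℝ) (u : Em K → ℝ) : ℝ≥0∞ :=
  ∑' ε : Up K, (gf2_B K R).indicator 1 (u + lg ε.1)

theorem gf2_N_meas (R : ℝ) : Measurable (gf2_N K R) := by
  have := gf2_countable (K := K)
  refine Measurable.ennreal_tsum fun ε => ?_
  exact (measurable_one.indicator (gf2_meas R)).comp (measurable_id.add_const _)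

theorem gf2_N_add (R : ℝ) (u : Em K → ℝ) (η : Up K) : gf2_N K R (u + lg η.1) = gf2_N K R u := by
  unfold gf2_N
  rw [← (Equiv.mulLeft η).tsum_eq (fun ε : Up K => (gf2_B K R).indicator 1 (u + lg ε.1))]
  refine tsum_congr fun ε => ?_
  rw [Equiv.coe_mulLeft, Subgroup.coe_mul, gf2_lg_mul, add_assoc]

section tr
variable [IsTotallyReal K]

theorem gf2_mean {ε : Kˣ} (hε : ε ∈ Uu K) (u : Em K → ℝ) :
    ∑ v, (u + lg ε) v = ∑ v, u v := by
  have h := lg_sum hε
  simp only [Pi.add_apply, Finset.sum_add_distrib]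
  rw [h, add_zero]

theorem gf2_mem {R : ℝ} {ε : Kˣ} (hε : ε ∈ Uu K) (u : Em K → ℝ) :
    u + lg ε ∈ gf2_B K R ↔ ∀ w, |u w + lg ε w - (∑ v, u v) / (dg K : ℝ)| ≤ R := by
  unfold gf2_B
  rw [Set.mem_setOf_eq, gf2_mean hε]
  rfl

open scoped Classical in
theorem gf2_le (R : ℝ) (u : Em K → ℝ) :
    gf2_N K R u ≤ ((uu_finite (K := K) (2 * R)).toFinset.card : ℝ≥0∞) := by
  unfold gf2_N
  rw [ENNReal.tsum_eq_iSup_sum]
  refine iSup_le fun s => ?_
  have h1 : ∑ ε ∈ s, (gf2_B K R).indicator (1 : (Em K → ℝ) → ℝ≥0∞) (u + lg ε.1) =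
      ((s.filter (fun ε => u + lg ε.1 ∈ gf2_B K R)).card : ℝ≥0∞) := by
    rw [Finset.card_filter, Nat.cast_sum]
    refine Finset.sum_congr rfl fun ε _ => ?_
    by_cases h : u + lg ε.1 ∈ gf2_B K R
    · rw [Set.indicator_of_mem h, if_pos h]
      simp
    · rw [Set.indicator_of_notMem h, if_neg h]
      simp
  rw [h1]
  norm_cast
  rcases (s.filter (fun ε => u + lg ε.1 ∈ gf2_B K R)).eq_empty_or_nonempty with h | ⟨ε₀, h₀⟩
  · rw [h]
    simp
  · refine Finset.card_le_card_of_injOn (fun ε => ε.1 / ε₀.1) ?_ ?_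
    · intro ε hε
      have h2 := (Finset.mem_filter.1 (Finset.mem_coe.1 hε)).2
      have h3 := (Finset.mem_filter.1 h₀).2
      rw [gf2_mem ε.2.2] at h2
      rw [gf2_mem ε₀.2.2] at h3
      rw [Finset.mem_coe, Set.Finite.mem_toFinset]
      refine ⟨div_mem ε.2.2 ε₀.2.2, fun w => ?_⟩
      have h4 := abs_le.1 (h2 w)
      have h5 := abs_le.1 (h3 w)
      rw [gf2_lg_div, Pi.sub_apply, abs_le]
      constructor <;> linarith
    · intro a _ b _ hab
      exact Subtype.ext (div_left_injective hab)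

theorem gf2_one_le {R R1 : ℝ} (hR : R1 ≤ R) (h : ∀ u : Em K → ℝ, ∃ ε ∈ Uu K, ∀ w,
    |u w + 2 * lg ε w - (∑ v, u v) / (dg K : ℝ)| ≤ R1) (u : Em K → ℝ) : 1 ≤ gf2_N K R u := by
  obtain ⟨ε, hε, h1⟩ := h u
  have h2 : u + lg (ε ^ 2) ∈ gf2_B K R := by
    rw [gf2_mem (pow_mem hε 2)]
    intro w
    refine le_trans ?_ ((h1 w).trans hR)
    rw [gf2_lg_sq]
    refine le_of_eq ?_
    congr 2
    simp
  have h3 : (gf2_B K R).indicator (1 : (Em K → ℝ) → ℝ≥0∞)
      (u + lg (⟨ε ^ 2, gf2_sq_mem hε⟩ : Up K).1) = 1 := by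
    rw [Set.indicator_of_mem h2]
    rfl
  rw [← h3]
  exact ENNReal.le_tsum (f := fun ε : Up K =>
    (gf2_B K R).indicator (1 : (Em K → ℝ) → ℝ≥0∞) (u + lg ε.1)) _

theorem uw_exists (R0 : ℝ) : Nonempty (UW K R0) := by
  classical
  obtain ⟨R1, hR1⟩ := bal (K := K)
  set R := max R0 R1 with hR
  set N₀ := (uu_finite (K := K) (2 * R)).toFinset.card with hN₀
  have hle : ∀ u, gf2_N K R u ≤ (N₀ : ℝ≥0∞) := gf2_le R
  have hge : ∀ u, 1 ≤ gf2_N K R u := gf2_one_le (le_max_right _ _) hR1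
  have hfin : ∀ u, gf2_N K R u ≠ ∞ := fun u => ((hle u).trans_lt (ENNReal.natCast_lt_top _)).ne
  have hne : ∀ u, gf2_N K R u ≠ 0 := fun u h => by
    have := hge u
    rw [h] at this
    simp at this
  have hind : ∀ u, (gf2_B K R).indicator (1 : (Em K → ℝ) → ℝ≥0∞) u ≤ 1 := fun u =>
    Set.indicator_le_self' (fun _ _ => zero_le_one) u
  refine ⟨⟨fun u => ((gf2_B K R).indicator (1 : (Em K → ℝ) → ℝ≥0∞) u / gf2_N K R u).toReal, R,
    1 / (N₀ + 1), by positivity, ?_, fun u => ENNReal.toReal_nonneg, ?_, ?_, ?_, ?_⟩⟩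
  · exact ((measurable_one.indicator (gf2_meas R)).div (gf2_N_meas R)).ennreal_toReal
  · intro u
    refine ENNReal.toReal_le_of_le_ofReal zero_le_one ?_
    rw [ENNReal.ofReal_one]
    exact ENNReal.div_le_of_le_mul (by rw [one_mul]; exact (hind u).trans (hge u))
  · intro u hu
    have h1 : u ∈ gf2_B K R := by
      by_contra h
      refine hu ?_
      rw [Set.indicator_of_notMem h]
      simp
    exact h1
  · intro u hu
    have h1 : u ∈ gf2_B K R := fun w => (hu w).trans (le_max_left _ _)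
    rw [Set.indicator_of_mem h1, Pi.one_apply, ENNReal.toReal_div, ENNReal.toReal_one]
    have h2 : (gf2_N K R u).toReal ≤ N₀ := by
      have := ENNReal.toReal_mono (ENNReal.natCast_ne_top _) (hle u)
      rwa [ENNReal.toReal_natCast] at this
    have h3 : 0 < (gf2_N K R u).toReal := ENNReal.toReal_pos (hne u) (hfin u)
    exact one_div_le_one_div_of_le h3 (by linarith)
  · intro u
    have h1 : ∑' ε : Up K, (gf2_B K R).indicator (1 : (Em K → ℝ) → ℝ≥0∞) (u + lg ε.1) /
        gf2_N K R (u + lg ε.1) = 1 := by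
      simp only [gf2_N_add, div_eq_mul_inv]
      rw [ENNReal.tsum_mul_right]
      exact ENNReal.mul_inv_cancel (hne u) (hfin u)
    have h2 := ENNReal.hasSum_toReal (f := fun ε : Up K =>
      (gf2_B K R).indicator (1 : (Em K → ℝ) → ℝ≥0∞) (u + lg ε.1) / gf2_N K R (u + lg ε.1))
      (by rw [h1]; exact ENNReal.one_ne_top)
    have h3 : ∑' ε : Up K, ((gf2_B K R).indicator (1 : (Em K → ℝ) → ℝ≥0∞) (u + lg ε.1) /
        gf2_N K R (u + lg ε.1)).toReal = 1 := by
      rw [← ENNReal.tsum_toReal_eq, h1, ENNReal.toReal_one]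
      intro ε
      refine ne_top_of_le_ne_top (b := 1) ENNReal.one_ne_top ?_
      exact ENNReal.div_le_of_le_mul (by rw [one_mul]; exact (hind _).trans (hge _))
    rw [h3] at h2
    exact h2

theorem uw_sq {R0 : ℝ} (ρ : UW K R0) (u : Em K → ℝ) :
    ∑' ε : Uu K, ENNReal.ofReal (ρ.ρ (u + 2 • lg ε.1)) ≤ 2 := by
  classical
  have h1 : ∑' ε : Up K, ENNReal.ofReal (ρ.ρ (u + lg ε.1)) = 1 := by
    rw [← ENNReal.ofReal_tsum_of_nonneg (fun ε => ρ.nn _) (ρ.sum u).summable, (ρ.sum u).tsum_eq,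
      ENNReal.ofReal_one]
  set f : Up K → ℝ≥0∞ := fun ε => ENNReal.ofReal (ρ.ρ (u + lg ε.1)) with hf
  set g : Uu K → Up K := fun ε => ⟨ε.1 ^ 2, gf2_sq_mem ε.2⟩ with hg
  have h2 : ∀ ε : Uu K, ENNReal.ofReal (ρ.ρ (u + 2 • lg ε.1)) = f (g ε) := by
    intro ε
    simp only [hf, hg]
    rw [gf2_lg_sq]
  simp only [h2]
  rw [ENNReal.tsum_eq_iSup_sum]
  refine iSup_le fun s => ?_
  rw [Finset.sum_comp]
  calc ∑ b ∈ s.image g, (s.filter (fun a => g a = b)).card • f b ≤
        ∑ b ∈ s.image g, 2 * f b := by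
        refine Finset.sum_le_sum fun b hb => ?_
        rw [nsmul_eq_mul]
        refine mul_le_mul' ?_ le_rfl
        obtain ⟨a, _, ha⟩ := Finset.mem_image.1 hb
        have h3 : s.filter (fun a => g a = b) ⊆
            {a, ⟨-a.1, by
              obtain ⟨v, hv⟩ := (mem_uu a.1).1 a.2
              exact (mem_uu (-a.1)).2 ⟨-v, by rw [Units.val_neg, Units.val_neg]; simp [hv]⟩⟩} := by
          intro x hx
          have h4 := (Finset.mem_filter.1 hx).2
          rw [← ha] at h4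
          have h5 : (x.1 : Kˣ) ^ 2 = a.1 ^ 2 := congrArg Subtype.val h4
          have h6 : ((x.1 : Kˣ) : K) ^ 2 = ((a.1 : Kˣ) : K) ^ 2 := by
            rw [← Units.val_pow_eq_pow_val, h5, Units.val_pow_eq_pow_val]
          rw [Finset.mem_insert, Finset.mem_singleton]
          rcases sq_eq_sq_iff_eq_or_eq_neg.1 h6 with h7 | h7
          · left
            exact Subtype.ext (Units.ext h7)
          · right
            refine Subtype.ext (Units.ext ?_)
            rw [Units.val_neg]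
            exact h7
        have h4 := (Finset.card_le_card h3).trans Finset.card_le_two
        exact_mod_cast h4
    _ = 2 * ∑ b ∈ s.image g, f b := by rw [Finset.mul_sum]
    _ ≤ 2 * ∑' b, f b := mul_le_mul' le_rfl (ENNReal.sum_le_tsum _)
    _ = 2 := by rw [h1, mul_one]

end tr

end Pool.Agent.HSG
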