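import Pool.Agent.Lib_helper84.HSG.DefsB
import Pool.Agent.Lib_helper98.WAF.A2
import Pool.Agent.Lib_helper84.HSGF.GA1
import Pool.Agent.Lib_helper84.HSGF.GA3
import Pool.Agent.Lib_helper84.HSGF.GB1
import Pool.Agent.Lib_helper84.HSGF.GD1
import Pool.Agent.Lib_helper84.HSGF.GJ1
import Pool.Agent.Lib_helper84.HSGF.GK2
import Pool.Agent.Lib_helper84.HSGF.GL2

/-!
# Block HC (PAR): the integral of `|P_F|²` over a cusp
-/

namespace Pool.Agent.HSG

open Complex MeasureTheory Filter Topology UpperHalfPlane NumberField IsDedekindDomain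
open scoped nonZeroDivisors MatrixGroups ENNReal

variable {K : Type} [Field K] [NumberField K]

/-! ### Products of measures -/

theorem hc_prod_fin (n : ℕ) (f : Fin n → ℝ → ℝ≥0∞) (hf : ∀ i, Measurable (f i)) :
    ∫⁻ x : Fin n → ℝ, ∏ i, f i (x i) = ∏ i, ∫⁻ t, f i t := by
  induction n with
  | zero =>
    simp only [Finset.univ_eq_empty, Finset.prod_empty, lintegral_const, one_mul]
    rw [volume_pi, Measure.pi_of_empty]
    simp
  | succ n ih =>
    have h1 := ((volume_preserving_piFinSuccAbove (fun _ : Fin (n + 1) => ℝ) 0).symm).lintegral_map_equiv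
      (fun x : Fin (n + 1) → ℝ => ∏ i, f i (x i))
    rw [h1]
    have h2 : ∀ p : ℝ × (Fin n → ℝ),
        (∏ i, f i ((MeasurableEquiv.piFinSuccAbove (fun _ : Fin (n + 1) => ℝ) 0).symm p i)) =
        f 0 p.1 * ∏ i : Fin n, f i.succ (p.2 i) := by
      intro p
      simp_rw [MeasurableEquiv.piFinSuccAbove_symm_apply, Fin.insertNthEquiv,
            Fin.prod_univ_succ, Fin.insertNth_zero, Equiv.coe_fn_mk, Fin.cons_succ,
            Fin.cons_zero]
      rfl
    simp only [h2]
    have h3 := lintegral_prod_mul (μ := (volume : Measure ℝ)) (ν := (volume : Measure (Fin n → ℝ)))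
      (f := f 0) (g := fun y => ∏ i : Fin n, f i.succ (y i)) (hf 0).aemeasurable
      (Measurable.aemeasurable (by
        refine Finset.measurable_fun_prod _ fun i _ => ?_
        exact (hf i.succ).comp (measurable_pi_apply i)))
    rw [Fin.prod_univ_succ, ← ih (fun i => f i.succ) (fun i => hf i.succ)]
    exact h3

theorem hc_prod {ι : Type} [Fintype ι] (f : ι → ℝ → ℝ≥0∞) (hf : ∀ i, Measurable (f i)) :
    ∫⁻ x : ι → ℝ, ∏ i, f i (x i) = ∏ i, ∫⁻ t, f i t := by
  let e := (Fintype.equivFin ι).symm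
  have h1 := (volume_measurePreserving_piCongrLeft (fun _ : ι => ℝ) e).lintegral_map_equiv
    (fun x : ι → ℝ => ∏ i, f i (x i))
  rw [h1, ← e.prod_comp (fun i => ∫⁻ t, f i t), ← hc_prod_fin _ _ (fun i => hf (e i))]
  refine lintegral_congr fun x => ?_
  rw [← e.prod_comp]
  simp_rw [MeasurableEquiv.coe_piCongrLeft, Equiv.piCongrLeft_apply_apply]

theorem hc_pi_dens {ι : Type} [Fintype ι] {f : ℝ → ℝ≥0∞} (hf : Measurable f)
    [SigmaFinite ((volume : Measure ℝ).withDensity f)] :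
    Measure.pi (fun _ : ι => (volume : Measure ℝ).withDensity f) =
      (volume : Measure (ι → ℝ)).withDensity (fun u => ∏ i, f (u i)) := by
  refine Measure.pi_eq fun s hs => ?_
  rw [withDensity_apply _ (MeasurableSet.univ_pi hs), ← lintegral_indicator (MeasurableSet.univ_pi hs)]
  have h1 : ∀ x : ι → ℝ, (Set.univ.pi s).indicator (fun u => ∏ i, f (u i)) x =
      ∏ i, (s i).indicator f (x i) := by
    intro x
    by_cases hx : x ∈ Set.univ.pi s
    · rw [Set.indicator_of_mem hx]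
      refine Finset.prod_congr rfl fun i _ => ?_
      rw [Set.indicator_of_mem (hx i (Set.mem_univ i))]
    · rw [Set.indicator_of_notMem hx]
      rw [Set.mem_univ_pi] at hx
      push Not at hx
      obtain ⟨i, hi⟩ := hx
      symm
      exact Finset.prod_eq_zero (Finset.mem_univ i) (Set.indicator_of_notMem hi f)
  simp only [h1]
  rw [hc_prod (fun i => (s i).indicator f) (fun i => hf.indicator (hs i))]
  refine Finset.prod_congr rfl fun i _ => ?_
  rw [withDensity_apply _ (hs i), lintegral_indicator (hs i)]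

/-- one-dimensional substitution `t = c e^v` -/
theorem hc_exp1 {c : ℝ} (hc : 0 < c) (g : ℝ → ℝ≥0∞) :
    ∫⁻ t in Set.Ioi (0 : ℝ), g t = ∫⁻ v : ℝ, ENNReal.ofReal (c * Real.exp v) * g (c * Real.exp v) := by
  have h1 : (fun v : ℝ => c * Real.exp v) '' Set.univ = Set.Ioi 0 := by
    ext t
    constructor
    · rintro ⟨v, _, rfl⟩
      exact mul_pos hc (Real.exp_pos v)
    · intro ht
      have ht' : 0 < t := ht
      refine ⟨Real.log (t / c), Set.mem_univ _, ?_⟩
      simp only []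
      rw [Real.exp_log (div_pos ht' hc), mul_div_cancel₀ _ hc.ne']
  rw [← h1, lintegral_image_eq_lintegral_abs_deriv_mul (f' := fun v => c * Real.exp v)
    MeasurableSet.univ]
  · rw [Measure.restrict_univ]
    refine lintegral_congr fun v => ?_
    rw [abs_of_pos (mul_pos hc (Real.exp_pos v))]
  · intro v _
    exact ((Real.hasDerivAt_exp v).const_mul c).hasDerivWithinAt
  · intro v _ v' _ h
    exact Real.exp_injective (mul_left_cancel₀ hc.ne' h)

theorem hc_mp1 {c : ℝ} (hc : 0 < c) :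
    MeasurePreserving (fun v : ℝ => c * Real.exp v)
      ((volume : Measure ℝ).withDensity (fun v => ENNReal.ofReal (c * Real.exp v)))
      ((volume : Measure ℝ).restrict (Set.Ioi 0)) := by
  have hm : Measurable (fun v : ℝ => c * Real.exp v) := by fun_prop
  refine ⟨hm, ?_⟩
  ext s hs
  rw [Measure.map_apply hm hs, withDensity_apply _ (hm hs), Measure.restrict_apply hs,
    ← lintegral_indicator (hm hs), ← lintegral_indicator_one (hs.inter measurableSet_Ioi)]
  have h1 := hc_exp1 hc (s.indicator 1)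
  rw [← lintegral_indicator measurableSet_Ioi] at h1
  have h2 : ∀ t : ℝ, (s ∩ Set.Ioi 0).indicator (1 : ℝ → ℝ≥0∞) t =
      (Set.Ioi (0 : ℝ)).indicator (s.indicator 1) t := by
    intro t
    rw [Set.indicator_indicator, Set.inter_comm]
  simp only [h2]
  rw [h1]
  refine lintegral_congr fun v => ?_
  by_cases hv : c * Real.exp v ∈ s
  · rw [Set.indicator_of_mem (show v ∈ (fun v : ℝ => c * Real.exp v) ⁻¹' s from hv), Set.indicator_of_mem hv]
    simp
  · rw [Set.indicator_of_notMem (show v ∉ (fun v : ℝ => c * Real.exp v) ⁻¹' s from hv), Set.indicator_of_notMem hv, mul_zero]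

/-- substitution `t = c e^v` in several variables -/
theorem hc_expn {ι : Type} [Fintype ι] {c : ℝ} (hc : 0 < c) {g : (ι → ℝ) → ℝ≥0∞}
    (hg : Measurable g) :
    ∫⁻ t in {t : ι → ℝ | ∀ w, 0 < t w}, g t = ∫⁻ v : ι → ℝ,
      ENNReal.ofReal (∏ w, c * Real.exp (v w)) * g (fun w => c * Real.exp (v w)) := by
  have hcont : Continuous (fun v : ℝ => c * Real.exp v) := by fun_prop
  have h1 := measurePreserving_pi (ι := ι)
    (fun _ => (volume : Measure ℝ).withDensity (fun v => ENNReal.ofReal (c * Real.exp v)))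
    (fun _ => (volume : Measure ℝ).restrict (Set.Ioi 0)) (fun _ => hc_mp1 hc)
  rw [hc_pi_dens hcont.measurable.ennreal_ofReal, ← Measure.restrict_pi_pi, ← volume_pi] at h1
  have h2 : {t : ι → ℝ | ∀ w, 0 < t w} = Set.univ.pi (fun _ : ι => Set.Ioi (0 : ℝ)) := by
    ext t
    simp [Set.mem_pi]
  rw [h2, ← h1.lintegral_comp hg, lintegral_withDensity_eq_lintegral_mul]
  · refine lintegral_congr fun v => ?_
    rw [Pi.mul_apply, ENNReal.ofReal_prod_of_nonneg]
    intro w _
    exact (mul_pos hc (Real.exp_pos _)).le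
  · refine Finset.measurable_fun_prod _ fun i _ => ?_
    exact hcont.measurable.ennreal_ofReal.comp (measurable_pi_apply i)
  · exact hg.comp h1.measurable


/-! ### Coordinates on the upper half plane -/

theorem hc_H {f : ℍ → ℝ≥0∞} (hf : Measurable f) :
    ∫⁻ z, f z = ∫⁻ x : ℝ, ∫⁻ u : ℝ, ENNReal.ofReal (Real.exp (-u)) * f (WA.vz x u) := by
  set F : ℂ → ℝ≥0∞ := fun z => ENNReal.ofReal (1 / z.im ^ 2) * Function.extend UpperHalfPlane.coe f
    (fun _ => 0) z with hF
  have hext : Measurable (Function.extend UpperHalfPlane.coe f (fun _ => 0)) :=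
    measurableEmbedding_coe.measurable_extend hf measurable_const
  have hinj : Function.Injective UpperHalfPlane.coe := measurableEmbedding_coe.injective
  have hFm : Measurable F := by
    refine Measurable.mul ?_ hext
    exact (measurable_const.div (Complex.measurable_im.pow_const 2)).ennreal_ofReal
  have hS : MeasurableSet {z : ℂ | 0 < z.im} := measurableSet_lt measurable_const Complex.measurable_im
  have h1 : ∫⁻ z, f z = ∫⁻ z in {z : ℂ | 0 < z.im}, F z := by
    rw [volume_def, lintegral_withDensity_eq_lintegral_mul _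
      WA.A2_dens_meas.coe_nnreal_ennreal hf, ← WA.A2_range,
      ← measurableEmbedding_coe.map_comap, measurableEmbedding_coe.lintegral_map]
    refine lintegral_congr fun z => ?_
    rw [Pi.mul_apply, hF]
    simp only [hinj.extend_apply]
    congr 1
    rw [ENNReal.ofReal, ENNReal.coe_inj]
    apply NNReal.eq
    rw [Real.coe_toNNReal _ (by positivity)]
    push_cast
    rw [div_pow, one_pow]
    rfl
  have h2 : ∫⁻ z in {z : ℂ | 0 < z.im}, F z =
      ∫⁻ x : ℝ, ∫⁻ y in Set.Ioi (0 : ℝ), F ⟨x, y⟩ := by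
    rw [← lintegral_indicator hS]
    have h3 := (Complex.volume_preserving_equiv_real_prod.symm).lintegral_map_equiv
      ({z : ℂ | 0 < z.im}.indicator F)
    rw [h3, Measure.volume_eq_prod, lintegral_prod]
    · refine lintegral_congr fun x => ?_
      rw [← lintegral_indicator measurableSet_Ioi]
      refine lintegral_congr fun y => ?_
      rfl
    · exact ((hFm.indicator hS).comp Complex.measurableEquivRealProd.symm.measurable).aemeasurable
  rw [h1, h2]
  refine lintegral_congr fun x => ?_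
  rw [hc_exp1 one_pos]
  refine lintegral_congr fun u => ?_
  have e1 : (⟨x, 1 * Real.exp u⟩ : ℂ) = ((WA.vz x u : ℍ) : ℂ) := by
    rw [one_mul]; rfl
  rw [e1]
  simp only [hF, hinj.extend_apply]
  rw [← mul_assoc, one_mul, ← ENNReal.ofReal_mul (Real.exp_pos _).le]
  congr 2
  have e2 : ((WA.vz x u : ℍ) : ℂ).im = Real.exp u := rfl
  rw [e2, Real.exp_neg]
  field_simp

theorem hc_vz_meas : Measurable (fun p : ℝ × ℝ => WA.vz p.1 p.2) := by
  rw [← measurableEmbedding_coe.measurable_comp_iff]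
  have h1 : Continuous (fun p : ℝ × ℝ => ((p.1 : ℂ) + (Real.exp p.2 : ℂ) * Complex.I)) := by
    fun_prop
  have h2 : (UpperHalfPlane.coe ∘ fun p : ℝ × ℝ => WA.vz p.1 p.2) =
      (fun p : ℝ × ℝ => ((p.1 : ℂ) + (Real.exp p.2 : ℂ) * Complex.I)) := by
    funext p
    apply Complex.ext
    · simp [WA.vz, Complex.exp_ofReal_re]
    · simp [WA.vz, Complex.exp_ofReal_re]
  rw [h2]
  exact h1.measurable

theorem hc_mpH : MeasurePreserving (fun p : ℝ × ℝ => WA.vz p.1 p.2)
    ((volume : Measure ℝ).prod ((volume : Measure ℝ).withDensity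
      (fun u => ENNReal.ofReal (Real.exp (-u))))) (volume : Measure ℍ) := by
  refine ⟨hc_vz_meas, ?_⟩
  have hm : Measurable (fun u : ℝ => ENNReal.ofReal (Real.exp (-u))) := by
    have : Continuous (fun u : ℝ => Real.exp (-u)) := by fun_prop
    exact this.measurable.ennreal_ofReal
  ext s hs
  rw [Measure.map_apply hc_vz_meas hs, ← lintegral_indicator_one hs,
    hc_H (measurable_one.indicator hs), ← lintegral_indicator_one (hc_vz_meas hs), lintegral_prod]
  · refine lintegral_congr fun x => ?_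
    rw [lintegral_withDensity_eq_lintegral_mul _ hm]
    · rfl
    · exact (measurable_one.indicator (hc_vz_meas hs)).comp (by fun_prop)
  · exact (measurable_one.indicator (hc_vz_meas hs)).aemeasurable

/-- coordinates on products of upper half planes -/
theorem hc_coord {ι : Type} [Fintype ι] {f : (ι → ℍ) → ℝ≥0∞} (hf : Measurable f) :
    ∫⁻ z, f z = ∫⁻ u : ι → ℝ, ENNReal.ofReal (∏ w, Real.exp (-(u w))) *
      ∫⁻ x : ι → ℝ, f (fun w => WA.vz (x w) (u w)) := by
  have hcont : Continuous (fun u : ℝ => Real.exp (-u)) := by fun_prop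
  have hm : Measurable (fun u : ℝ => ENNReal.ofReal (Real.exp (-u))) :=
    hcont.measurable.ennreal_ofReal
  have h1 := measurePreserving_pi (ι := ι)
    (fun _ => (volume : Measure ℝ).prod ((volume : Measure ℝ).withDensity
      (fun u => ENNReal.ofReal (Real.exp (-u))))) (fun _ => (volume : Measure ℍ)) (fun _ => hc_mpH)
  have h2 := measurePreserving_arrowProdEquivProdArrow ℝ ℝ ι (fun _ => (volume : Measure ℝ))
    (fun _ => (volume : Measure ℝ).withDensity (fun u => ENNReal.ofReal (Real.exp (-u))))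
  have h3 := h1.comp h2.symm
  rw [hc_pi_dens hm, ← volume_pi, ← volume_pi] at h3
  have h4 := h3.lintegral_comp hf
  rw [← h4, lintegral_prod_symm]
  · rw [lintegral_withDensity_eq_lintegral_mul]
    · refine lintegral_congr fun u => ?_
      rw [Pi.mul_apply, ENNReal.ofReal_prod_of_nonneg fun w _ => (Real.exp_pos _).le]
      rfl
    · exact Finset.measurable_fun_prod _ fun i _ => hm.comp (measurable_pi_apply i)
    · exact Measurable.lintegral_prod_left' (hf.comp h3.measurable)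
  · exact (hf.comp h3.measurable).aemeasurable


/-! ### The Gamma integral -/

theorem hc_Hint (ι : Type) [Fintype ι] {k : ℕ} (hk : 3 ≤ k) (x : ℝ) :
    ∫⁻ v : ι → ℝ, {v : ι → ℝ | x < ∏ w, Real.exp (v w)}.indicator (fun v => ENNReal.ofReal
        (∏ w, Real.exp (((k : ℝ) - 1) * v w - 4 * Real.pi * Real.exp (v w)))) v =
      ENNReal.ofReal (WA.omk k ^ Fintype.card ι) *
        PT ι k (x * (4 * Real.pi) ^ Fintype.card ι) := by
  have hpi : (0 : ℝ) < 4 * Real.pi := by positivity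
  set X := x * (4 * Real.pi) ^ Fintype.card ι with hX
  set J := ∫⁻ v : ι → ℝ, {v : ι → ℝ | x < ∏ w, Real.exp (v w)}.indicator (fun v => ENNReal.ofReal
        (∏ w, Real.exp (((k : ℝ) - 1) * v w - 4 * Real.pi * Real.exp (v w)))) v with hJ
  set G : (ι → ℝ) → ℝ≥0∞ := fun t => ENNReal.ofReal (∏ w, (t w) ^ (k - 2) * Real.exp (-(t w)))
    with hG
  have hGc : Continuous fun t : ι → ℝ => ∏ w, (t w) ^ (k - 2) * Real.exp (-(t w)) := by
    fun_prop
  have hpc : Continuous fun t : ι → ℝ => ∏ w, t w := by fun_prop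
  have hGm : Measurable G := hGc.measurable.ennreal_ofReal
  have hSm : MeasurableSet {t : ι → ℝ | X < ∏ w, t w} := measurableSet_lt measurable_const hpc.measurable
  have h1 : ∫⁻ t in {t : ι → ℝ | (∀ w, 0 < t w) ∧ X < ∏ w, t w}, G t =
      ENNReal.ofReal (((4 * Real.pi) ^ (k - 1)) ^ Fintype.card ι) * J := by
    have e0 : {t : ι → ℝ | (∀ w, 0 < t w) ∧ X < ∏ w, t w} =
        {t : ι → ℝ | X < ∏ w, t w} ∩ {t : ι → ℝ | ∀ w, 0 < t w} := by
      ext t; exact and_comm
    rw [e0, ← Measure.restrict_restrict hSm, ← lintegral_indicator hSm,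
      hc_expn hpi (hGm.indicator hSm), hJ, ← lintegral_const_mul']
    swap
    · exact ENNReal.ofReal_ne_top
    refine lintegral_congr fun v => ?_
    have e1 : ∏ w, 4 * Real.pi * Real.exp (v w) =
        (∏ w, Real.exp (v w)) * (4 * Real.pi) ^ Fintype.card ι := by
      rw [Finset.prod_mul_distrib, Finset.prod_const, Finset.card_univ, mul_comm]
    have e2 : (X < ∏ w, 4 * Real.pi * Real.exp (v w)) ↔ x < ∏ w, Real.exp (v w) := by
      rw [e1, hX]
      exact mul_lt_mul_iff_left₀ (by positivity)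
    by_cases hv : x < ∏ w, Real.exp (v w)
    · rw [Set.indicator_of_mem (show v ∈ {v : ι → ℝ | x < ∏ w, Real.exp (v w)} from hv),
        Set.indicator_of_mem (show (fun w => 4 * Real.pi * Real.exp (v w)) ∈
          {t : ι → ℝ | X < ∏ w, t w} from e2.2 hv), hG]
      simp only []
      rw [← ENNReal.ofReal_mul (by positivity), ← ENNReal.ofReal_mul (by positivity)]
      congr 1
      rw [← Finset.card_univ, ← Finset.prod_const, ← Finset.prod_mul_distrib,
        ← Finset.prod_mul_distrib]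
      refine Finset.prod_congr rfl fun w _ => ?_
      obtain ⟨n, rfl⟩ : ∃ n, k = n + 2 := ⟨k - 2, by omega⟩
      have e3 : n + 2 - 2 = n := by omega
      have e4 : n + 2 - 1 = n + 1 := by omega
      rw [e3, e4]
      have e5 : Real.exp ((((n + 2 : ℕ) : ℝ) - 1) * v w - 4 * Real.pi * Real.exp (v w)) =
          Real.exp (v w) ^ (n + 1) * Real.exp (-(4 * Real.pi * Real.exp (v w))) := by
        rw [← Real.exp_nat_mul, ← Real.exp_add]
        congr 1
        push_cast
        ring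
      rw [e5]
      ring
    · rw [Set.indicator_of_notMem (show v ∉ {v : ι → ℝ | x < ∏ w, Real.exp (v w)} from hv),
        Set.indicator_of_notMem (show (fun w => 4 * Real.pi * Real.exp (v w)) ∉
          {t : ι → ℝ | X < ∏ w, t w} from fun h => hv (e2.1 h)), mul_zero, mul_zero]
  have hΓ : 0 < Real.Gamma ((k : ℝ) - 1) := by
    apply Real.Gamma_pos_of_pos
    have : (3 : ℝ) ≤ k := by exact_mod_cast hk
    linarith
  rw [PT, h1, ENNReal.div_eq_inv_mul, ← ENNReal.ofReal_inv_of_pos (by positivity), ← mul_assoc,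
    ← mul_assoc, ← ENNReal.ofReal_mul (by rw [WA.omk]; positivity),
    ← ENNReal.ofReal_mul (by rw [WA.omk]; positivity)]
  have e6 : WA.omk k ^ Fintype.card ι * (Real.Gamma ((k : ℝ) - 1) ^ Fintype.card ι)⁻¹ *
      ((4 * Real.pi) ^ (k - 1)) ^ Fintype.card ι = 1 := by
    rw [WA.omk, div_pow]
    field_simp
  rw [e6, ENNReal.ofReal_one, one_mul]


/-! ### Folding over the totally positive units -/

theorem hc_countU (K : Type) [Field K] [NumberField K] : Countable Kˣ := by
  have := countK K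
  exact (Units.val_injective (α := K)).countable

theorem hc_countUp (K : Type) [Field K] [NumberField K] : Countable (Up K) := by
  have := hc_countU K
  exact Subtype.countable

theorem hc_rep (r m : Id K) (h : (QuotientGroup.mk m : NCl K) = QuotientGroup.mk r) :
    ∃ ν : Kp K, prI ν.1 * r = m := by
  have h1 : r⁻¹ * m ∈ Pp K := QuotientGroup.eq.1 h.symm
  obtain ⟨t, ht, ht'⟩ := h1
  refine ⟨⟨t, ht⟩, ?_⟩
  show prI t * r = m
  rw [ht', mul_comm, mul_inv_cancel_left]

/-- a chosen totally positive element -/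
noncomputable def hc_nu (r : Id K)
    (m : {m : Id K // (QuotientGroup.mk m : NCl K) = QuotientGroup.mk r}) : Kp K :=
  (hc_rep r m.1 m.2).choose

theorem hc_nu_spec (r : Id K)
    (m : {m : Id K // (QuotientGroup.mk m : NCl K) = QuotientGroup.mk r}) :
    prI (hc_nu r m).1 * r = m.1 := (hc_rep r m.1 m.2).choose_spec

/-- the elements of a narrow class and the totally positive units -/
noncomputable def hc_f (r : Id K)
    (x : {m : Id K // (QuotientGroup.mk m : NCl K) = QuotientGroup.mk r} × Up K) : Kp K :=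
  hc_nu r x.1 * ⟨x.2.1, x.2.2.1⟩

theorem hc_f_prI (r : Id K)
    (x : {m : Id K // (QuotientGroup.mk m : NCl K) = QuotientGroup.mk r} × Up K) :
    prI (hc_f r x).1 * r = x.1.1 := by
  have hε : prI x.2.1 = 1 := x.2.2.2
  have h1 : prI (hc_f r x).1 = prI (hc_nu r x.1).1 := by
    show prI ((hc_nu r x.1).1 * x.2.1) = _
    rw [map_mul, hε, mul_one]
  rw [h1]
  exact hc_nu_spec r x.1

theorem hc_bij (r : Id K) : Function.Bijective (hc_f r) := by
  constructor
  · rintro ⟨m, ε⟩ ⟨m', ε'⟩ h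
    have h1 := hc_f_prI r (m, ε)
    rw [h, hc_f_prI] at h1
    have hm : m = m' := Subtype.ext h1.symm
    subst hm
    have h2 : (⟨ε.1, ε.2.1⟩ : Kp K) = ⟨ε'.1, ε'.2.1⟩ := mul_left_cancel h
    have h3 : ε = ε' := Subtype.ext (congrArg (fun x : Kp K => x.1) h2)
    rw [h3]
  · intro ν
    have hcl : (QuotientGroup.mk (prI ν.1 * r) : NCl K) = QuotientGroup.mk r := by
      symm
      rw [QuotientGroup.eq]
      refine ⟨ν.1, ν.2, ?_⟩
      rw [mul_comm (prI ν.1) r, inv_mul_cancel_left]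
    set m : {m : Id K // (QuotientGroup.mk m : NCl K) = QuotientGroup.mk r} := ⟨_, hcl⟩ with hm
    have hpr : prI (hc_nu r m).1 = prI ν.1 := mul_right_cancel (hc_nu_spec r m)
    refine ⟨(m, ⟨((hc_nu r m)⁻¹ * ν : Kp K).1, ((hc_nu r m)⁻¹ * ν : Kp K).2, ?_⟩), ?_⟩
    · show prI _ = 1
      rw [Subgroup.coe_mul, map_mul, Subgroup.coe_inv, map_inv, hpr, inv_mul_cancel]
    · show hc_nu r m * ((hc_nu r m)⁻¹ * ν) = ν
      rw [mul_inv_cancel_left]

/-- the equivalence -/
noncomputable def hc_e (r : Id K) :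
    {m : Id K // (QuotientGroup.mk m : NCl K) = QuotientGroup.mk r} × Up K ≃ Kp K :=
  Equiv.ofBijective _ (hc_bij r)

omit [NumberField K] in
theorem hc_lg_mul (x y : Kˣ) : lg (x * y) = lg x + lg y := by
  funext w
  show Real.log |w ((x * y : Kˣ) : K)| = Real.log |w (x : K)| + Real.log |w (y : K)|
  rw [Units.val_mul, map_mul, abs_mul, Real.log_mul]
  · exact abs_ne_zero.2 ((map_ne_zero w).2 x.ne_zero)
  · exact abs_ne_zero.2 ((map_ne_zero w).2 y.ne_zero)

omit [NumberField K] in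
theorem hc_lg_inv (x : Kˣ) : lg x⁻¹ = - lg x := by
  funext w
  show Real.log |w ((x⁻¹ : Kˣ) : K)| = - Real.log |w (x : K)|
  rw [Units.val_inv_eq_inv_val, map_inv₀, abs_inv, Real.log_inv]

omit [NumberField K] in
/-- `e^{lg ν} = ν` for totally positive elements -/
theorem hc_exp (ν : Kp K) (w : Em K) : Real.exp (lg ν.1 w) = w ((ν.1 : Kˣ) : K) := by
  have h := ν.2 w
  rw [lg, abs_of_pos h, Real.exp_log h]

section tr
variable [IsTotallyReal K]

theorem hc_norm (ν : Kp K) : nI (prI ν.1) = ∏ w : Em K, w ((ν.1 : Kˣ) : K) := by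
  rw [nI_prI]
  exact Finset.prod_congr rfl fun w _ => abs_of_pos (ν.2 w)

theorem hc_sum_lg (ν : Kp K) : ∑ w, lg ν.1 w = Real.log (nI (prI ν.1)) := by
  rw [hc_norm, Real.log_prod (fun w _ => (ν.2 w).ne')]
  refine Finset.sum_congr rfl fun w _ => ?_
  rw [lg, abs_of_pos (ν.2 w)]

omit [IsTotallyReal K] in
/-- the unit weights sum to one -/
theorem hc_rho {R0 : ℝ} (ρ : UW K R0) (ν : Kp K) (v : Em K → ℝ) :
    HasSum (fun ε : Up K => ρ.ρ (v - lg (ν.1 * ε.1))) 1 := by
  have h := ρ.sum (v - lg ν.1)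
  have h2 := (Equiv.inv (Up K)).hasSum_iff.2 h
  refine h2.congr_fun ?_
  intro ε
  show ρ.ρ (v - lg (ν.1 * ε.1)) = ρ.ρ (v - lg ν.1 + lg ((ε⁻¹ : Up K).1))
  rw [Subgroup.coe_inv, hc_lg_inv, hc_lg_mul]
  congr 1
  abel

omit [IsTotallyReal K] in
/-- `t ∈ q⁻¹` iff `t q` is integral -/
theorem hc_mem (t : Kˣ) (q : Id K) : (t : K) ∈ (q⁻¹).m ↔ IsInt (prI t * q) := by
  have h1 := mem_prI_mul t⁻¹ q⁻¹ 1
  rw [inv_inv, mul_one] at h1
  rw [← h1, map_inv, ← mul_inv]
  have h2 : IsInt (prI t * q) ↔ (1 : Id K).m ≤ ((prI t * q)⁻¹).m := by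
    rw [← isInt_div, one_div, inv_inv]
  rw [h2]
  constructor
  · intro h x hx
    obtain ⟨y, rfl⟩ := (mem_m_one x).1 hx
    have := Submodule.smul_mem ((prI t * q)⁻¹).m y h
    rwa [Algebra.smul_def, mul_one] at this
  · intro h
    exact h ((mem_m_one 1).2 ⟨1, by simp⟩)


omit [IsTotallyReal K] in
/-- folding: the version for nonnegative functions -/
theorem hc_fold {R0 : ℝ} (ρ : UW K R0) (ν : Kp K) {G : (Em K → ℝ) → ℝ≥0∞} (hG : Measurable G) :
    ∑' ε : Up K, ∫⁻ u, ENNReal.ofReal (ρ.ρ u) * G (u + lg (ν.1 * ε.1)) = ∫⁻ v, G v := by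
  have := hc_countUp K
  have h1 : ∀ ε : Up K, ∫⁻ u, ENNReal.ofReal (ρ.ρ u) * G (u + lg (ν.1 * ε.1)) =
      ∫⁻ v, ENNReal.ofReal (ρ.ρ (v - lg (ν.1 * ε.1))) * G v := by
    intro ε
    rw [← lintegral_add_right_eq_self (fun v => ENNReal.ofReal (ρ.ρ (v - lg (ν.1 * ε.1))) * G v)
      (lg (ν.1 * ε.1))]
    refine lintegral_congr fun u => ?_
    simp only [add_sub_cancel_right]
  have hm : ∀ ε : Up K, Measurable fun v : Em K → ℝ => ENNReal.ofReal (ρ.ρ (v - lg (ν.1 * ε.1))) :=
    fun ε => (ρ.meas.comp (measurable_id.sub_const _)).ennreal_ofReal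
  simp only [h1]
  rw [← lintegral_tsum (f := fun (ε : Up K) v => ENNReal.ofReal (ρ.ρ (v - lg (ν.1 * ε.1))) * G v)
    fun ε => ((hm ε).mul hG).aemeasurable]
  refine lintegral_congr fun v => ?_
  rw [ENNReal.tsum_mul_right]
  have h2 := hc_rho ρ ν v
  rw [← ENNReal.ofReal_tsum_of_nonneg (fun ε => ρ.nn _) h2.summable, h2.tsum_eq,
    ENNReal.ofReal_one, one_mul]

/-! ### The Fourier series -/

omit [NumberField K] [IsTotallyReal K] in
theorem hc_inj : Function.Injective (fun ν : Kp K => ((ν.1 : Kˣ) : K)) :=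
  Units.val_injective.comp Subtype.val_injective

omit [IsTotallyReal K] in
/-- the coefficients as a function on `K` -/
noncomputable def hc_a (A : Id K → ℂ) (b a : Id K) : K → ℂ :=
  Function.extend (fun ν : Kp K => ((ν.1 : Kˣ) : K)) (fun ν => A (prI ν.1 * DD K * a / b))
    (fun _ => 0)

omit [IsTotallyReal K] in
theorem hc_ext {M : Type} [Zero M] (A : Id K → ℂ) (b a : Id K) (G : ℂ → K → M)
    (hG : ∀ x, G 0 x = 0) :
    (fun x => G (hc_a A b a x) x) = Function.extend (fun ν : Kp K => ((ν.1 : Kˣ) : K))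
      (fun ν => G (A (prI ν.1 * DD K * a / b)) ((ν.1 : Kˣ) : K)) 0 := by
  funext x
  by_cases h : ∃ ν : Kp K, ((ν.1 : Kˣ) : K) = x
  · obtain ⟨ν, rfl⟩ := h
    rw [hc_inj.extend_apply (fun ν => G (A (prI ν.1 * DD K * a / b)) ((ν.1 : Kˣ) : K)) 0 ν, hc_a,
      hc_inj.extend_apply (fun ν => A (prI ν.1 * DD K * a / b)) (fun _ => 0) ν]
  · rw [Function.extend_apply' _ _ _ h, hc_a, Function.extend_apply' _ _ _ h]
    exact hG x

theorem hc_enorm (x : ℂ) : ‖x‖ₑ ^ 2 = ENNReal.ofReal (‖x‖ ^ 2) := by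
  rw [← ofReal_norm, ENNReal.ofReal_pow (norm_nonneg _)]

omit [IsTotallyReal K] in
theorem hc_eT (ν : K) (u : Em K → ℝ) : ‖eT ν (zb (0 : K) u)‖ₑ ^ 2 =
    ENNReal.ofReal (∏ w : Em K, Real.exp (-(4 * Real.pi * w ν * Real.exp (u w)))) := by
  rw [hc_enorm]
  congr 1
  rw [eT, Complex.norm_exp, ← Real.exp_nat_mul, ← Real.exp_sum]
  congr 1
  have h1 : (2 * Real.pi * Complex.I * ∑ w : Em K, ((w ν : ℝ) : ℂ) * ((zb (0 : K) u w : ℍ) : ℂ)).re =
      ∑ w : Em K, (2 * Real.pi * Complex.I * (((w ν : ℝ) : ℂ) * ((zb (0 : K) u w : ℍ) : ℂ))).re := by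
    rw [Finset.mul_sum, Complex.re_sum]
  rw [h1, Finset.mul_sum]
  refine Finset.sum_congr rfl fun w _ => ?_
  have h2 : ((zb (0 : K) u w : ℍ) : ℂ) = (Real.exp (u w) : ℂ) * Complex.I := by
    apply Complex.ext
    · simp [zb, WA.vz, Complex.exp_ofReal_re]
    · simp [zb, WA.vz, Complex.exp_ofReal_re]
  have h3 : 2 * Real.pi * Complex.I * (((w ν : ℝ) : ℂ) * ((Real.exp (u w) : ℂ) * Complex.I)) =
      ((-(2 * Real.pi * w ν * Real.exp (u w)) : ℝ) : ℂ) := by
    push_cast
    linear_combination (2 * Real.pi * ((w ν : ℝ) : ℂ) * cexp (u w)) * Complex.I_mul_I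
  rw [h2, h3, Complex.ofReal_re]
  push_cast
  ring

/-- the integral over the cell -/
theorem hc_x {k : ℕ} {F : (Em K → ℍ) → Lat K → ℂ} {A : Id K → ℂ}
    (hF : IsForm k F) (hA : IsCo k F A) (b a : Id K)
    {C : Set (Em K → ℝ)} (hC : IsCell (a / b) C) (u : Em K → ℝ) :
    ∫⁻ x in C, ‖PF k F (fun w => WA.vz (x w) (u w)) (Lat.ds b a)‖ₑ ^ 2 =
      ENNReal.ofReal ((nI (b / a) * ∏ w, Real.exp (u w)) ^ k * (√(dK K) * nI (a / b))) *
        ∑' ν : Kp K, ‖A (prI ν.1 * DD K * a / b)‖ₑ ^ 2 *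
          ENNReal.ofReal (∏ w : Em K, Real.exp (-(4 * Real.pi * w ((ν.1 : Kˣ) : K) *
            Real.exp (u w)))) := by
  have hz : ∀ x : Em K → ℝ, (fun w => WA.vz (x w) (u w) : Em K → ℍ) = trH x (zb (0 : K) u) := by
    intro x
    funext w
    apply UpperHalfPlane.ext
    apply Complex.ext
    · simp [zb, WA.vz, trH]
    · simp [zb, WA.vz, trH]
  have hHS : ∀ z : Em K → ℍ, HasSum (fun ν : K => hc_a A b a ν * eT ν z)
      (((nI a ^ k : ℝ) : ℂ) * F z (Lat.ds b a)) := by
    intro z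
    have h1 := hc_ext A b a (fun c ν => c * eT ν z) (fun x => zero_mul _)
    rw [h1, hasSum_extend_zero hc_inj]
    exact co_ds hF hA b a z
  have hsupp : ∀ ν, ν ∉ ((DD K)⁻¹ * (a / b)⁻¹).m → hc_a A b a ν = 0 := by
    intro x hx
    by_cases h : ∃ ν : Kp K, ((ν.1 : Kˣ) : K) = x
    · obtain ⟨ν, rfl⟩ := h
      rw [hc_a, hc_inj.extend_apply (fun ν => A (prI ν.1 * DD K * a / b)) (fun _ => 0) ν]
      apply hA.int
      intro hI
      apply hx
      rw [← mul_inv, hc_mem]
      have : prI ν.1 * (DD K * (a / b)) = prI ν.1 * DD K * a / b := by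
        rw [mul_div_assoc, mul_assoc]
      rw [this]
      exact hI
    · rw [hc_a, Function.extend_apply' _ _ _ h]
  have hP := fou_parseval (a / b) hC hsupp (zb (0 : K) u) (hHS (zb (0 : K) u)).summable
  have hb := nI_pos b
  have ha := nI_pos a
  have hE : 0 < ∏ w : Em K, Real.exp (u w) := Finset.prod_pos fun w _ => Real.exp_pos _
  have hpt : ∀ x : Em K → ℝ, ‖PF k F (fun w => WA.vz (x w) (u w)) (Lat.ds b a)‖ₑ ^ 2 =
      ENNReal.ofReal ((nI (b / a) * ∏ w, Real.exp (u w)) ^ k) *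
        ‖∑' ν, hc_a A b a ν * eT ν (trH x (zb (0 : K) u))‖ₑ ^ 2 := by
    intro x
    rw [(hHS (trH x (zb (0 : K) u))).tsum_eq, ← hz x, hc_enorm, hc_enorm,
      ← ENNReal.ofReal_mul (by have := nI_pos (b / a); positivity)]
    congr 1
    have hNY : NY (fun w => WA.vz (x w) (u w) : Em K → ℍ) = ∏ w : Em K, Real.exp (u w) := rfl
    rw [PF, norm_mul, norm_mul, Complex.norm_real, Complex.norm_real, hNY, det_ds, nI_mul, nI_div]
    set E := ∏ w : Em K, Real.exp (u w)
    have h1 : (0 : ℝ) ≤ E * (nI b * nI a) := by positivity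
    rw [Real.norm_of_nonneg (Real.rpow_nonneg h1 _), Real.norm_of_nonneg (by positivity), mul_pow,
      ← Real.rpow_natCast ((E * (nI b * nI a)) ^ ((k : ℝ) / 2)) 2, ← Real.rpow_mul h1]
    have h2 : (k : ℝ) / 2 * ((2 : ℕ) : ℝ) = (k : ℝ) := by push_cast; ring
    rw [h2, Real.rpow_natCast]
    have h3 : (E * (nI b * nI a)) ^ k = (nI b / nI a * E) ^ k * (nI a ^ k) ^ 2 := by
      rw [← pow_mul, mul_comm k 2, pow_mul (nI a) 2 k, ← mul_pow]
      congr 1
      field_simp
    rw [h3]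
    ring
  simp only [hpt]
  rw [lintegral_const_mul' _ _ ENNReal.ofReal_ne_top, hP, ← mul_assoc, ← ENNReal.ofReal_mul
    (by have := nI_pos (b / a); positivity)]
  congr 1
  have h4 := hc_ext A b a (fun c ν => ‖c * eT ν (zb (0 : K) u)‖ₑ ^ 2) (fun x => by simp)
  rw [h4, tsum_extend_zero hc_inj]
  refine tsum_congr fun ν => ?_
  rw [enorm_mul, mul_pow, hc_eT]



/-! ### The integral over the cusp -/

theorem hc_prodH (k : ℕ) (ν : Kp K) (u : Em K → ℝ) :
    (∏ w, Real.exp (((k : ℝ) - 1) * (u w + lg ν.1 w) - 4 * Real.pi * Real.exp (u w + lg ν.1 w))) =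
      nI (prI ν.1) ^ ((k : ℝ) - 1) *
        ∏ w : Em K, Real.exp (((k : ℝ) - 1) * u w -
          4 * Real.pi * w ((ν.1 : Kˣ) : K) * Real.exp (u w)) := by
  have h1 : nI (prI ν.1) ^ ((k : ℝ) - 1) = ∏ w : Em K, Real.exp (((k : ℝ) - 1) * lg ν.1 w) := by
    rw [← Real.exp_sum, Real.rpow_def_of_pos (nI_pos _), ← hc_sum_lg]
    congr 1
    rw [Finset.sum_mul]
    exact Finset.sum_congr rfl fun w _ => by ring
  rw [h1, ← Finset.prod_mul_distrib]
  refine Finset.prod_congr rfl fun w _ => ?_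
  rw [← Real.exp_add, Real.exp_add (u w), hc_exp]
  congr 1
  ring

/-- the function which is integrated -/
noncomputable def hc_Hf (k : ℕ) (x : ℝ) (v : Em K → ℝ) : ℝ≥0∞ :=
  {v : Em K → ℝ | x < ∏ w, Real.exp (v w)}.indicator (fun v => ENNReal.ofReal
    (∏ w, Real.exp (((k : ℝ) - 1) * v w - 4 * Real.pi * Real.exp (v w)))) v

omit [IsTotallyReal K] in
theorem hc_Hf_meas (k : ℕ) (x : ℝ) : Measurable (hc_Hf (K := K) k x) := by
  have h1 : Continuous fun v : Em K → ℝ =>
      (∏ w, Real.exp (((k : ℝ) - 1) * v w - 4 * Real.pi * Real.exp (v w))) := by fun_prop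
  have h2 : Continuous fun v : Em K → ℝ => ∏ w, Real.exp (v w) := by fun_prop
  exact h1.measurable.ennreal_ofReal.indicator (measurableSet_lt measurable_const h2.measurable)

/-- the term of one frequency -/
theorem hc_term (k : ℕ) (b a : Id K) (η : ℝ) (ν : Kp K) (u : Em K → ℝ)
    (hu : η < (∏ w, Real.exp (u w)) * nI (b / a)) :
    ENNReal.ofReal (∏ w, Real.exp (-(u w))) *
      (ENNReal.ofReal ((nI (b / a) * ∏ w, Real.exp (u w)) ^ k * (√(dK K) * nI (a / b))) *
        ENNReal.ofReal (∏ w : Em K, Real.exp (-(4 * Real.pi * w ((ν.1 : Kˣ) : K) *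
            Real.exp (u w))))) =
    ENNReal.ofReal (√(dK K) * nI (a / b) * nI (b / a) ^ k * nI (prI ν.1) ^ (-((k : ℝ) - 1))) *
      hc_Hf k (η * nI (prI ν.1) / nI (b / a)) (u + lg ν.1) := by
  have hba := nI_pos (b / a)
  have hab := nI_pos (a / b)
  have hν := nI_pos (prI ν.1)
  have hE : 0 < ∏ w : Em K, Real.exp (u w) := Finset.prod_pos fun w _ => Real.exp_pos _
  have h1 : ∏ w, Real.exp ((u + lg ν.1) w) = (∏ w, Real.exp (u w)) * nI (prI ν.1) := by
    rw [hc_norm, ← Finset.prod_mul_distrib]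
    refine Finset.prod_congr rfl fun w _ => ?_
    rw [Pi.add_apply, Real.exp_add, hc_exp]
  have h2 : (u + lg ν.1) ∈ {v : Em K → ℝ | η * nI (prI ν.1) / nI (b / a) <
      ∏ w, Real.exp (v w)} := by
    show η * nI (prI ν.1) / nI (b / a) < ∏ w, Real.exp ((u + lg ν.1) w)
    rw [h1, div_lt_iff₀ hba]
    nlinarith
  rw [hc_Hf, Set.indicator_of_mem h2, ← ENNReal.ofReal_mul (by positivity),
    ← ENNReal.ofReal_mul (by positivity), ← ENNReal.ofReal_mul (by positivity)]
  congr 1
  have h3 := hc_prodH k ν u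
  simp only [Pi.add_apply]
  rw [h3]
  have h4 : nI (prI ν.1) ^ (-((k : ℝ) - 1)) * nI (prI ν.1) ^ ((k : ℝ) - 1) = 1 := by
    rw [← Real.rpow_add hν, neg_add_cancel, Real.rpow_zero]
  have h5 : (∏ w, Real.exp (-(u w))) * ((∏ w, Real.exp (u w)) ^ k *
      (∏ w : Em K, Real.exp (-(4 * Real.pi * w ((ν.1 : Kˣ) : K) * Real.exp (u w))))) =
      ∏ w : Em K, Real.exp (((k : ℝ) - 1) * u w -
          4 * Real.pi * w ((ν.1 : Kˣ) : K) * Real.exp (u w)) := by
    rw [← Finset.prod_pow, ← Finset.prod_mul_distrib, ← Finset.prod_mul_distrib]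
    refine Finset.prod_congr rfl fun w _ => ?_
    rw [← Real.exp_nat_mul, ← Real.exp_add, ← Real.exp_add]
    congr 1
    ring
  rw [← h5, mul_pow]
  linear_combination (-(√(dK K) * nI (a / b) * nI (b / a) ^ k) * ((∏ w, Real.exp (-(u w))) *
    ((∏ w, Real.exp (u w)) ^ k * (∏ w : Em K, Real.exp (-(4 * Real.pi * w ((ν.1 : Kˣ) : K) *
      Real.exp (u w))))))) * h4

theorem hc_term0 (k : ℕ) (b a : Id K) (η : ℝ) (ν : Kp K) (u : Em K → ℝ)
    (hu : ¬ η < (∏ w, Real.exp (u w)) * nI (b / a)) :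
    hc_Hf k (η * nI (prI ν.1) / nI (b / a)) (u + lg ν.1) = 0 := by
  have hba := nI_pos (b / a)
  have hν := nI_pos (prI ν.1)
  have h1 : ∏ w, Real.exp ((u + lg ν.1) w) = (∏ w, Real.exp (u w)) * nI (prI ν.1) := by
    rw [hc_norm, ← Finset.prod_mul_distrib]
    refine Finset.prod_congr rfl fun w _ => ?_
    rw [Pi.add_apply, Real.exp_add, hc_exp]
  rw [hc_Hf]
  apply Set.indicator_of_notMem
  show ¬ (η * nI (prI ν.1) / nI (b / a) < ∏ w, Real.exp ((u + lg ν.1) w))
  rw [h1, div_lt_iff₀ hba]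
  intro h
  apply hu
  have h2 : η * nI (prI ν.1) < ((∏ w, Real.exp (u w)) * nI (b / a)) * nI (prI ν.1) := by
    linarith
  exact lt_of_mul_lt_mul_right h2 hν.le

theorem par_int {k : ℕ} (hk : 3 ≤ k) {F : (Em K → ℍ) → Lat K → ℂ} {A : Id K → ℂ}
    (hF : IsForm k F) (hA : IsCo k F A) (b a : Id K) {R0 : ℝ} (ρ : UW K R0)
    {C : Set (Em K → ℝ)} (hC : IsCell (a / b) C) {η : ℝ} (hη : 0 ≤ η) :
    ∫⁻ z in {z : Em K → ℍ | η < NY z * nI (b / a) ∧ rev z ∈ C},
        ENNReal.ofReal (ρ.ρ (lgy z)) * ‖PF k F z (Lat.ds b a)‖ₑ ^ 2 =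
      ENNReal.ofReal (dK K ^ ((k : ℝ) - 1 / 2) * WA.omk k ^ dg K) *
        ∑' m : {m : Id K // (QuotientGroup.mk m : NCl K) = QuotientGroup.mk (DD K * a / b)},
          ‖A m.1‖ₑ ^ 2 * ENNReal.ofReal (nI m.1 ^ (-((k : ℝ) - 1))) *
            PT (Em K) k (η * (4 * Real.pi) ^ dg K * nI m.1 / dK K) := by
  have hcu := hc_countU K
  have : Countable (Kp K) := Subtype.countable
  have hba := nI_pos (b / a)
  have hab := nI_pos (a / b)
  have hdK : 0 < dK K := lt_of_lt_of_le one_pos dK_ge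
  set S : Set (Em K → ℍ) := {z : Em K → ℍ | η < NY z * nI (b / a) ∧ rev z ∈ C} with hS
  set g : (Em K → ℍ) → ℝ≥0∞ :=
    fun z => ENNReal.ofReal (ρ.ρ (lgy z)) * ‖PF k F z (Lat.ds b a)‖ₑ ^ 2 with hg
  -- measurability
  have him : ∀ w : Em K, Measurable fun z : Em K → ℍ => (z w).im := fun w =>
    (UpperHalfPlane.continuous_im.measurable).comp (measurable_pi_apply w)
  have hre : Measurable fun z : Em K → ℍ => rev z := measurable_pi_lambda _ fun w =>
    (UpperHalfPlane.continuous_re.measurable).comp (measurable_pi_apply w)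
  have hNY : Measurable fun z : Em K → ℍ => NY z :=
    Finset.measurable_fun_prod _ fun w _ => him w
  have hlg : Measurable fun z : Em K → ℍ => lgy z := measurable_pi_lambda _ fun w =>
    Real.measurable_log.comp (him w)
  have hSm : MeasurableSet S := by
    have h1 : S = {z : Em K → ℍ | η < NY z * nI (b / a)} ∩ rev ⁻¹' C := rfl
    rw [h1]
    exact (measurableSet_lt measurable_const (hNY.mul_const _)).inter (hre hC.meas)
  have hgm : Measurable g := by
    have h1 : Measurable fun z : Em K → ℍ => ENNReal.ofReal (ρ.ρ (lgy z)) :=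
      (ρ.meas.comp hlg).ennreal_ofReal
    have h2 : Measurable fun z : Em K → ℍ => ‖PF k F z (Lat.ds b a)‖ₑ ^ 2 :=
      ((pf_cont hF (Lat.ds b a)).measurable.enorm).pow_const 2
    exact h1.mul h2
  -- coordinates
  have hl : ∀ x u : Em K → ℝ, lgy (fun w => WA.vz (x w) (u w) : Em K → ℍ) = u := by
    intro x u
    funext w
    exact Real.log_exp (u w)
  have hr : ∀ x u : Em K → ℝ, rev (fun w => WA.vz (x w) (u w) : Em K → ℍ) = x := fun x u => rfl
  have hN : ∀ x u : Em K → ℝ, NY (fun w => WA.vz (x w) (u w) : Em K → ℍ) =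
      ∏ w : Em K, Real.exp (u w) := fun x u => rfl
  set T : Kp K → (Em K → ℝ) → ℝ≥0∞ := fun ν u => ENNReal.ofReal (ρ.ρ u) *
    (‖A (prI ν.1 * DD K * a / b)‖ₑ ^ 2 * (ENNReal.ofReal (√(dK K) * nI (a / b) *
      nI (b / a) ^ k * nI (prI ν.1) ^ (-((k : ℝ) - 1))) *
        hc_Hf k (η * nI (prI ν.1) / nI (b / a)) (u + lg ν.1))) with hT
  have hTm : ∀ ν, Measurable (T ν) := by
    intro ν
    have h1 : Measurable fun u : Em K → ℝ =>
        hc_Hf k (η * nI (prI ν.1) / nI (b / a)) (u + lg ν.1) :=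
      (hc_Hf_meas k _).comp (measurable_id.add_const _)
    exact (ρ.meas.ennreal_ofReal).mul ((h1.const_mul _).const_mul _)
  have hin : ∀ u : Em K → ℝ, ENNReal.ofReal (∏ w, Real.exp (-(u w))) *
      ∫⁻ x : Em K → ℝ, S.indicator g (fun w => WA.vz (x w) (u w)) = ∑' ν : Kp K, T ν u := by
    intro u
    by_cases hu : η < (∏ w, Real.exp (u w)) * nI (b / a)
    · have h1 : ∀ x : Em K → ℝ, S.indicator g (fun w => WA.vz (x w) (u w)) =
          C.indicator (fun x => ENNReal.ofReal (ρ.ρ u) *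
            ‖PF k F (fun w => WA.vz (x w) (u w)) (Lat.ds b a)‖ₑ ^ 2) x := by
        intro x
        by_cases hx : x ∈ C
        · rw [Set.indicator_of_mem hx, Set.indicator_of_mem (show (fun w => WA.vz (x w) (u w)) ∈ S
            from ⟨by rw [hN]; exact hu, by rw [hr]; exact hx⟩), hg]
          simp only []
          rw [hl]
        · rw [Set.indicator_of_notMem hx, Set.indicator_of_notMem (show (fun w =>
            WA.vz (x w) (u w)) ∉ S from fun h => hx (by have := h.2; rwa [hr] at this))]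
      simp only [h1]
      rw [lintegral_indicator hC.meas, lintegral_const_mul' _ _ ENNReal.ofReal_ne_top,
        hc_x hF hA b a hC u, ← ENNReal.tsum_mul_left, ← ENNReal.tsum_mul_left,
        ← ENNReal.tsum_mul_left]
      refine tsum_congr fun ν => ?_
      simp only [hT]
      rw [← hc_term k b a η ν u hu]
      ring
    · have h1 : ∀ x : Em K → ℝ, S.indicator g (fun w => WA.vz (x w) (u w)) = 0 := by
        intro x
        exact Set.indicator_of_notMem (show (fun w => WA.vz (x w) (u w)) ∉ S from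
          fun h => hu (by have := h.1; rwa [hN] at this)) g
      simp only [h1, lintegral_zero, mul_zero]
      symm
      rw [ENNReal.tsum_eq_zero]
      intro ν
      simp only [hT]
      rw [hc_term0 k b a η ν u hu, mul_zero, mul_zero, mul_zero]
  rw [← lintegral_indicator hSm, hc_coord (hgm.indicator hSm)]
  simp only [hin]
  rw [lintegral_tsum fun ν => (hTm ν).aemeasurable,
    ← (hc_e (DD K * a / b)).tsum_eq, ENNReal.tsum_prod', ← ENNReal.tsum_mul_left]
  refine tsum_congr fun m => ?_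
  -- the frequencies of one ideal
  set ν := hc_nu (DD K * a / b) m with hν
  have hNm := nI_pos m.1
  have hpr : ∀ ε : Up K, prI (hc_f (DD K * a / b) (m, ε)).1 = prI ν.1 := by
    intro ε
    have h1 := hc_f_prI (DD K * a / b) (m, ε)
    have h2 := hc_nu_spec (DD K * a / b) m
    exact mul_right_cancel (h1.trans h2.symm)
  have hNν := nI_pos (prI ν.1)
  have hrel : nI (prI ν.1) = nI m.1 * nI (b / a) / dK K := by
    rw [← hc_nu_spec (DD K * a / b) m, nI_mul, nI_div, nI_mul, nI_DD, nI_div, ← hν]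
    have := nI_pos a
    have := nI_pos b
    field_simp
  have hAm : prI ν.1 * DD K * a / b = m.1 := by
    rw [← hc_nu_spec (DD K * a / b) m, mul_assoc, mul_div_assoc]
  have hcst : √(dK K) * nI (a / b) * nI (b / a) ^ k * nI (prI ν.1) ^ (-((k : ℝ) - 1)) =
      dK K ^ ((k : ℝ) - 1 / 2) * nI m.1 ^ (-((k : ℝ) - 1)) := by
    have h1 : nI (a / b) = (nI (b / a))⁻¹ := by
      rw [← nI_inv, inv_div]
    have h2 : nI (b / a) ^ k = nI (b / a) ^ ((k : ℝ) - 1) * nI (b / a) := by
      rw [← Real.rpow_natCast, ← Real.rpow_add_one hba.ne']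
      congr 1
      ring
    have h3 : nI (prI ν.1) ^ (-((k : ℝ) - 1)) = nI m.1 ^ (-((k : ℝ) - 1)) *
        (nI (b / a) ^ ((k : ℝ) - 1))⁻¹ * dK K ^ ((k : ℝ) - 1) := by
      rw [hrel, Real.div_rpow (by positivity) hdK.le, Real.mul_rpow hNm.le hba.le,
        Real.rpow_neg hba.le, Real.rpow_neg hdK.le, div_inv_eq_mul]
    have h4 : dK K ^ ((k : ℝ) - 1 / 2) = dK K ^ ((k : ℝ) - 1) * √(dK K) := by
      rw [Real.sqrt_eq_rpow, ← Real.rpow_add hdK]
      congr 1
      ring
    have h5 : 0 < nI (b / a) ^ ((k : ℝ) - 1) := Real.rpow_pos_of_pos hba _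
    rw [h1, h2, h3, h4]
    field_simp
  have hTe : ∀ ε : Up K, ∫⁻ u, T (hc_e (DD K * a / b) (m, ε)) u =
      (‖A m.1‖ₑ ^ 2 * ENNReal.ofReal (dK K ^ ((k : ℝ) - 1 / 2) * nI m.1 ^ (-((k : ℝ) - 1)))) *
        ∫⁻ u, ENNReal.ofReal (ρ.ρ u) *
          hc_Hf k (η * nI m.1 / dK K) (u + lg (ν.1 * ε.1)) := by
    intro ε
    have hlgε : lg (hc_e (DD K * a / b) (m, ε)).1 = lg (ν.1 * ε.1) := rfl
    have hprε : prI (hc_e (DD K * a / b) (m, ε)).1 = prI ν.1 := hpr ε
    have hxε : η * nI (prI ν.1) / nI (b / a) = η * nI m.1 / dK K := by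
      rw [hrel]
      field_simp
    rw [← lintegral_const_mul]
    · refine lintegral_congr fun u => ?_
      simp only [hT]
      rw [hlgε, hprε, hAm, hcst, hxε]
      ring
    · have h1 : Measurable fun u : Em K → ℝ =>
          hc_Hf k (η * nI m.1 / dK K) (u + lg (ν.1 * ε.1)) :=
        (hc_Hf_meas k _).comp (measurable_id.add_const _)
      exact (ρ.meas.ennreal_ofReal).mul h1
  simp only [hTe]
  rw [ENNReal.tsum_mul_left, hc_fold ρ ν (hc_Hf_meas k _)]
  have hI := hc_Hint (Em K) hk (η * nI m.1 / dK K)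
  have hI' : ∫⁻ v, hc_Hf (K := K) k (η * nI m.1 / dK K) v =
      ENNReal.ofReal (WA.omk k ^ dg K) *
        PT (Em K) k (η * (4 * Real.pi) ^ dg K * nI m.1 / dK K) := by
    have h6 : η * (4 * Real.pi) ^ dg K * nI m.1 / dK K =
        η * nI m.1 / dK K * (4 * Real.pi) ^ Fintype.card (Em K) := by
      rw [card_em]; ring
    rw [h6, ← card_em]
    exact hI
  rw [hI', ENNReal.ofReal_mul (by positivity), ENNReal.ofReal_mul (by positivity)]
  ring

end tr

end Pool.Agent.HSG
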