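import Pool.Agent.Lib_helper84.HSG.DefsB
import Pool.Agent.Lib_helper98.WAF.B4

/-! # Hilbert-Selberg, PART II, block HD: the Gamma variables (helper35) -/

namespace Pool.Agent.HSG

open Complex MeasureTheory Filter Topology UpperHalfPlane NumberField IsDedekindDomain
open scoped nonZeroDivisors MatrixGroups ENNReal

/-- the product formula for a nonnegative integrable function -/
theorem hd_prod {ι : Type} [Fintype ι] {g : ℝ → ℝ} (hg : Integrable g) (h0 : ∀ t, 0 ≤ g t) :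
    ∫⁻ t : ι → ℝ, ENNReal.ofReal (∏ w, g (t w)) =
      ENNReal.ofReal ((∫ t, g t) ^ Fintype.card ι) := by
  have h1 : Integrable (fun t : ι → ℝ => ∏ w, g (t w)) :=
    Integrable.fintype_prod (fun _ => hg)
  rw [← ofReal_integral_eq_lintegral_ofReal h1
    (Eventually.of_forall fun t => Finset.prod_nonneg fun w _ => h0 _)]
  rw [integral_fintype_prod_volume_eq_pow]

/-- the one dimensional density cut at `a` -/
noncomputable def hd_g (p : ℕ) (a : ℝ) : ℝ → ℝ :=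
  (Set.Ioi a).indicator (fun t => t ^ p * Real.exp (-t))

theorem hd_g_nonneg {p : ℕ} {a : ℝ} (ha : 0 ≤ a) (t : ℝ) : 0 ≤ hd_g p a t := by
  unfold hd_g
  refine Set.indicator_nonneg (fun t ht => ?_) t
  have : 0 < t := lt_of_le_of_lt ha ht
  positivity

theorem hd_g_int {k : ℕ} (hk : 2 ≤ k) {a : ℝ} (ha : 0 ≤ a) : Integrable (hd_g (k - 2) a) := by
  have h := (WA.b4_gamma_int hk).1
  have h2 : IntegrableOn (fun t : ℝ => t ^ (k - 2) * Real.exp (-t)) (Set.Ioi a) :=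
    h.mono_set (Set.Ioi_subset_Ioi ha)
  exact h2.integrable_indicator measurableSet_Ioi

theorem hd_g_zero {k : ℕ} (hk : 2 ≤ k) : ∫ t, hd_g (k - 2) 0 t = Real.Gamma ((k : ℝ) - 1) := by
  unfold hd_g
  rw [integral_indicator measurableSet_Ioi]
  exact (WA.b4_gamma_int hk).2

theorem hd_prod_eq {ι : Type} [Fintype ι] {p : ℕ} {a : ℝ} {t : ι → ℝ} (h : ∀ w, a < t w) :
    ∏ w, hd_g p a (t w) = ∏ w, (t w) ^ p * Real.exp (-(t w)) := by
  refine Finset.prod_congr rfl fun w _ => ?_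
  unfold hd_g
  rw [Set.indicator_of_mem (show t w ∈ Set.Ioi a from h w)]

theorem hd_prod_zero {ι : Type} [Fintype ι] {p : ℕ} {a : ℝ} {t : ι → ℝ} {w : ι}
    (h : ¬ a < t w) : ∏ w, hd_g p a (t w) = 0 := by
  refine Finset.prod_eq_zero (Finset.mem_univ w) ?_
  unfold hd_g
  rw [Set.indicator_of_notMem (by simpa using h)]

theorem hd_meas {ι : Type} [Fintype ι] (x : ℝ) :
    MeasurableSet {t : ι → ℝ | (∀ w, 0 < t w) ∧ x < ∏ w, t w} := by
  have h1 : MeasurableSet {t : ι → ℝ | ∀ w, 0 < t w} := by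
    have : {t : ι → ℝ | ∀ w, 0 < t w} = ⋂ w, {t : ι → ℝ | 0 < t w} := by
      ext t; simp
    rw [this]
    exact MeasurableSet.iInter fun w => measurableSet_lt measurable_const (measurable_pi_apply w)
  have h2 : MeasurableSet {t : ι → ℝ | x < ∏ w, t w} :=
    measurableSet_lt measurable_const
      (Finset.measurable_prod _ fun w _ => measurable_pi_apply w)
  exact h1.inter h2

theorem hd_gam2 {y : ℝ} (hy : 0 < y) : Real.Gamma (y + 2) = (y + 1) * y * Real.Gamma y := by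
  rw [show y + 2 = (y + 1) + 1 by ring, Real.Gamma_add_one (by linarith),
    Real.Gamma_add_one hy.ne']
  ring

/-- half of the mass lies beyond `k/2` -/
theorem hd_tail {k : ℕ} (hk : 9 ≤ k) :
    1 / 2 * Real.Gamma ((k : ℝ) - 1) ≤ ∫ t, hd_g (k - 2) ((k : ℝ) / 2) t := by
  have hk' : (9 : ℝ) ≤ k := by exact_mod_cast hk
  have i1 : Integrable (hd_g (k - 2) 0) := hd_g_int (by omega) le_rfl
  have i2 : Integrable (hd_g (k - 2) ((k : ℝ) / 2)) := hd_g_int (by omega) (by positivity)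
  have i3 : Integrable (hd_g ((k - 2) - 2) 0) := hd_g_int (by omega) le_rfl
  have e1 : ∫ t, hd_g (k - 2) 0 t = Real.Gamma ((k : ℝ) - 1) := hd_g_zero (by omega)
  have e3 : ∫ t, hd_g ((k - 2) - 2) 0 t = Real.Gamma ((k : ℝ) - 3) := by
    rw [hd_g_zero (by omega)]
    congr 1
    rw [Nat.cast_sub (by omega)]
    push_cast
    ring
  have hp : ∀ t, hd_g (k - 2) 0 t ≤
      hd_g (k - 2) ((k : ℝ) / 2) t + ((k : ℝ) / 2) ^ 2 * hd_g ((k - 2) - 2) 0 t := by
    intro t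
    by_cases h0 : 0 < t
    · have a1 : hd_g (k - 2) 0 t = t ^ (k - 2) * Real.exp (-t) := by
        unfold hd_g; rw [Set.indicator_of_mem (by simpa using h0)]
      have a3 : hd_g ((k - 2) - 2) 0 t = t ^ (k - 2 - 2) * Real.exp (-t) := by
        unfold hd_g; rw [Set.indicator_of_mem (by simpa using h0)]
      by_cases h1 : (k : ℝ) / 2 < t
      · have a2 : hd_g (k - 2) ((k : ℝ) / 2) t = t ^ (k - 2) * Real.exp (-t) := by
          unfold hd_g; rw [Set.indicator_of_mem (by simpa using h1)]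
        rw [a1, a2]
        have := hd_g_nonneg (p := (k - 2) - 2) (le_refl (0 : ℝ)) t
        nlinarith [mul_nonneg (sq_nonneg ((k : ℝ) / 2)) this]
      · have a2 : hd_g (k - 2) ((k : ℝ) / 2) t = 0 := by
          unfold hd_g; rw [Set.indicator_of_notMem (by simpa using h1)]
        rw [a1, a2, a3, zero_add]
        have h2 : t ^ (k - 2) = t ^ 2 * t ^ (k - 2 - 2) := by
          rw [← pow_add]; congr 1; omega
        rw [h2, ← mul_assoc]
        have h3 : t ^ 2 ≤ ((k : ℝ) / 2) ^ 2 :=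
          pow_le_pow_left₀ h0.le (not_lt.mp h1) 2
        have h4 : 0 ≤ t ^ (k - 2 - 2) := by positivity
        have h5 := Real.exp_pos (-t)
        exact mul_le_mul_of_nonneg_right (mul_le_mul_of_nonneg_right h3 h4) h5.le
    · have a1 : hd_g (k - 2) 0 t = 0 := by
        unfold hd_g; rw [Set.indicator_of_notMem (by simpa using h0)]
      rw [a1]
      have b1 := hd_g_nonneg (p := k - 2) (a := (k : ℝ) / 2) (by positivity) t
      have b2 := hd_g_nonneg (p := (k - 2) - 2) (le_refl (0 : ℝ)) t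
      nlinarith [mul_nonneg (sq_nonneg ((k : ℝ) / 2)) b2]
  have hi := integral_mono i1 (i2.add (i3.const_mul (((k : ℝ) / 2) ^ 2))) hp
  simp only [Pi.add_apply] at hi
  rw [integral_add i2 (i3.const_mul _), integral_const_mul, e1, e3] at hi
  have g1 : Real.Gamma ((k : ℝ) - 1) = ((k : ℝ) - 2) * ((k : ℝ) - 3) * Real.Gamma ((k : ℝ) - 3) := by
    have := hd_gam2 (y := (k : ℝ) - 3) (by linarith)
    rw [show (k : ℝ) - 3 + 2 = (k : ℝ) - 1 by ring, show (k : ℝ) - 3 + 1 = (k : ℝ) - 2 by ring]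
      at this
    exact this
  have g0 : 0 < Real.Gamma ((k : ℝ) - 3) := Real.Gamma_pos_of_pos (by linarith)
  have g2 : ((k : ℝ) / 2) ^ 2 * Real.Gamma ((k : ℝ) - 3) ≤ 1 / 2 * Real.Gamma ((k : ℝ) - 1) := by
    rw [g1]
    have : ((k : ℝ) / 2) ^ 2 ≤ 1 / 2 * (((k : ℝ) - 2) * ((k : ℝ) - 3)) := by nlinarith
    nlinarith
  linarith

theorem pt_low {ι : Type} [Fintype ι] [Nonempty ι] : ∃ k₀ : ℕ, ∀ k : ℕ, k₀ ≤ k → ∀ x : ℝ,
    x ≤ ((k : ℝ) / 2) ^ Fintype.card ι →
    ENNReal.ofReal ((1 / 2) ^ Fintype.card ι) ≤ PT ι k x := by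
  refine ⟨9, fun k hk x hx => ?_⟩
  have hk' : (9 : ℝ) ≤ k := by exact_mod_cast hk
  have hG : 0 < Real.Gamma ((k : ℝ) - 1) := Real.Gamma_pos_of_pos (by linarith)
  have hGn : 0 < Real.Gamma ((k : ℝ) - 1) ^ Fintype.card ι := pow_pos hG _
  unfold PT
  rw [ENNReal.le_div_iff_mul_le (Or.inl (by simpa using hGn)) (Or.inl ENNReal.ofReal_ne_top),
    ← ENNReal.ofReal_mul (by positivity), ← mul_pow]
  have h1 : ENNReal.ofReal ((1 / 2 * Real.Gamma ((k : ℝ) - 1)) ^ Fintype.card ι) ≤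
      ENNReal.ofReal ((∫ t, hd_g (k - 2) ((k : ℝ) / 2) t) ^ Fintype.card ι) :=
    ENNReal.ofReal_le_ofReal (pow_le_pow_left₀ (by positivity) (hd_tail hk) _)
  refine h1.trans ?_
  rw [← hd_prod (hd_g_int (by omega) (by positivity))
    (fun t => hd_g_nonneg (by positivity) t), ← lintegral_indicator (hd_meas x)]
  refine lintegral_mono fun t => ?_
  by_cases h : ∀ w, (k : ℝ) / 2 < t w
  · have hm : t ∈ {t : ι → ℝ | (∀ w, 0 < t w) ∧ x < ∏ w, t w} := by
      refine ⟨fun w => lt_trans (by positivity) (h w), lt_of_le_of_lt hx ?_⟩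
      have : ((k : ℝ) / 2) ^ Fintype.card ι = ∏ _w : ι, (k : ℝ) / 2 := by
        rw [Finset.prod_const, Finset.card_univ]
      rw [this]
      exact Finset.prod_lt_prod_of_nonempty (fun i _ => by positivity) (fun i _ => h i)
        Finset.univ_nonempty
    rw [Set.indicator_of_mem hm, hd_prod_eq h]
  · push Not at h
    obtain ⟨w, hw⟩ := h
    rw [hd_prod_zero (not_lt.mpr hw), ENNReal.ofReal_zero]
    exact zero_le

theorem hd_gam6 {k : ℕ} (hk : 8 ≤ k) :
    Real.Gamma (((k + 6 : ℕ) : ℝ) - 1) ≤ (2 * (k : ℝ)) ^ 6 * Real.Gamma ((k : ℝ) - 1) := by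
  have hk' : (8 : ℝ) ≤ k := by exact_mod_cast hk
  have e : ((k + 6 : ℕ) : ℝ) - 1 = (((k : ℝ) - 1) + 2 + 2) + 2 := by push_cast; ring
  rw [e, hd_gam2 (by linarith), hd_gam2 (by linarith), hd_gam2 (by linarith)]
  have hG : 0 < Real.Gamma ((k : ℝ) - 1) := Real.Gamma_pos_of_pos (by linarith)
  have b : ((k : ℝ) - 1 + 2 + 2 + 1) * ((k : ℝ) - 1 + 2 + 2) ≤ (2 * (k : ℝ)) ^ 2 := by nlinarith
  have c : ((k : ℝ) - 1 + 2 + 1) * ((k : ℝ) - 1 + 2) ≤ (2 * (k : ℝ)) ^ 2 := by nlinarith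
  have d : ((k : ℝ) - 1 + 1) * ((k : ℝ) - 1) ≤ (2 * (k : ℝ)) ^ 2 := by nlinarith
  have b0 : 0 ≤ ((k : ℝ) - 1 + 2 + 2 + 1) * ((k : ℝ) - 1 + 2 + 2) := by nlinarith
  have c0 : 0 ≤ ((k : ℝ) - 1 + 2 + 1) * ((k : ℝ) - 1 + 2) := by nlinarith
  have d0 : 0 ≤ ((k : ℝ) - 1 + 1) * ((k : ℝ) - 1) := by nlinarith
  have q0 : 0 ≤ (2 * (k : ℝ)) ^ 2 := by positivity
  have m1 := mul_le_mul_of_nonneg_right d hG.le
  have m2 := mul_le_mul c m1 (by positivity) q0
  have m3 := mul_le_mul b m2 (by positivity) q0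
  refine m3.trans (le_of_eq ?_)
  ring

theorem pt_up {ι : Type} [Fintype ι] {k : ℕ} (hk : 8 ≤ k) {x : ℝ} (hx : 0 < x) :
    PT ι k x ≤ 1 ∧
      PT ι k x ≤ ENNReal.ofReal (((2 * (k : ℝ)) ^ Fintype.card ι / x) ^ 6) := by
  have hk' : (8 : ℝ) ≤ k := by exact_mod_cast hk
  have hG : 0 < Real.Gamma ((k : ℝ) - 1) := Real.Gamma_pos_of_pos (by linarith)
  have hGn : 0 < Real.Gamma ((k : ℝ) - 1) ^ Fintype.card ι := pow_pos hG _
  constructor
  · unfold PT
    refine ENNReal.div_le_of_le_mul ?_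
    rw [one_mul, ← hd_g_zero (show 2 ≤ k by omega),
      ← hd_prod (hd_g_int (by omega) le_rfl) (fun t => hd_g_nonneg le_rfl t),
      ← lintegral_indicator (hd_meas x)]
    refine lintegral_mono fun t => ?_
    by_cases h : t ∈ {t : ι → ℝ | (∀ w, 0 < t w) ∧ x < ∏ w, t w}
    · rw [Set.indicator_of_mem h, hd_prod_eq h.1]
    · rw [Set.indicator_of_notMem h]
      exact zero_le
  · unfold PT
    refine ENNReal.div_le_of_le_mul ?_
    rw [← ENNReal.ofReal_mul (by positivity)]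
    have h1 : ENNReal.ofReal ((1 / x) ^ 6 * (∫ t, hd_g (k + 6 - 2) 0 t) ^ Fintype.card ι) ≤
        ENNReal.ofReal (((2 * (k : ℝ)) ^ Fintype.card ι / x) ^ 6 *
          Real.Gamma ((k : ℝ) - 1) ^ Fintype.card ι) := by
      refine ENNReal.ofReal_le_ofReal ?_
      rw [hd_g_zero (show 2 ≤ k + 6 by omega)]
      have hG6 : 0 < Real.Gamma (((k + 6 : ℕ) : ℝ) - 1) := Real.Gamma_pos_of_pos (by
        push_cast; linarith)
      have h2 := pow_le_pow_left₀ hG6.le (hd_gam6 hk) (Fintype.card ι)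
      have h3 : (0 : ℝ) ≤ (1 / x) ^ 6 := by positivity
      refine (mul_le_mul_of_nonneg_left h2 h3).trans (le_of_eq ?_)
      rw [mul_pow, div_pow, div_pow, ← pow_mul, ← pow_mul, mul_comm 6 (Fintype.card ι)]
      ring
    refine le_trans ?_ h1
    rw [ENNReal.ofReal_mul (by positivity),
      ← hd_prod (hd_g_int (by omega) le_rfl) (fun t => hd_g_nonneg le_rfl t),
      ← lintegral_const_mul' _ _ ENNReal.ofReal_ne_top, ← lintegral_indicator (hd_meas x)]
    refine lintegral_mono fun t => ?_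
    by_cases h : t ∈ {t : ι → ℝ | (∀ w, 0 < t w) ∧ x < ∏ w, t w}
    · rw [Set.indicator_of_mem h, hd_prod_eq h.1, ← ENNReal.ofReal_mul (by positivity)]
      refine ENNReal.ofReal_le_ofReal ?_
      have e1 : ∏ w, (t w) ^ (k + 6 - 2) * Real.exp (-(t w)) =
          (∏ w, t w) ^ 6 * ∏ w, (t w) ^ (k - 2) * Real.exp (-(t w)) := by
        rw [← Finset.prod_pow, ← Finset.prod_mul_distrib]
        refine Finset.prod_congr rfl fun w _ => ?_
        rw [← mul_assoc, ← pow_add]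
        congr 2
        omega
      rw [e1, ← mul_assoc, ← mul_pow]
      have e2 : 1 ≤ (1 / x * ∏ w, t w) ^ 6 := by
        refine one_le_pow₀ ?_
        rw [one_div, inv_mul_eq_div, le_div_iff₀ hx, one_mul]
        exact h.2.le
      have e3 : 0 ≤ ∏ w, (t w) ^ (k - 2) * Real.exp (-(t w)) :=
        Finset.prod_nonneg fun w _ => by
          have := h.1 w
          positivity
      nlinarith
    · rw [Set.indicator_of_notMem h]
      exact zero_le

theorem omk_gk : ∃ C : ℝ, 0 < C ∧ ∀ k : ℕ, 2 ≤ k → WA.omk k * √(k : ℝ) ≤ C * WA.gk k ^ 2 := by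
  refine ⟨4 * Real.pi, by positivity, fun k hk => ?_⟩
  have hk' : (2 : ℝ) ≤ k := by exact_mod_cast hk
  have hpi := Real.pi_pos
  set x : ℝ := (k : ℝ) / 2 with hx
  have hx0 : 0 < x := by positivity
  have hG : 0 < Real.Gamma x := Real.Gamma_pos_of_pos hx0
  -- the duplication formula
  have d1 := Real.Gamma_mul_Gamma_add_half x
  have d2 : Real.Gamma (2 * x) = ((k : ℝ) - 1) * Real.Gamma ((k : ℝ) - 1) := by
    rw [show 2 * x = ((k : ℝ) - 1) + 1 by rw [hx]; ring, Real.Gamma_add_one (by linarith)]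
  -- Wendel
  have d3 : Real.Gamma (x + 1 / 2) ≤ Real.Gamma x * √x := by
    have := Real.Gamma_mul_add_mul_le_rpow_Gamma_mul_rpow_Gamma (s := x) (t := x + 1)
      (a := 1 / 2) (b := 1 / 2) hx0 (by linarith) (by norm_num) (by norm_num) (by norm_num)
    rw [show 1 / 2 * x + 1 / 2 * (x + 1) = x + 1 / 2 by ring, Real.Gamma_add_one hx0.ne',
      ← Real.sqrt_eq_rpow, ← Real.sqrt_eq_rpow, Real.sqrt_mul hx0.le] at this
    calc Real.Gamma (x + 1 / 2) ≤ √(Real.Gamma x) * (√x * √(Real.Gamma x)) := this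
      _ = (√(Real.Gamma x) * √(Real.Gamma x)) * √x := by ring
      _ = Real.Gamma x * √x := by rw [Real.mul_self_sqrt hG.le]
  set A : ℝ := Real.Gamma ((k : ℝ) - 1) / 2 ^ (k - 1) with hA
  have hA0 : 0 < A := div_pos (Real.Gamma_pos_of_pos (by linarith)) (by positivity)
  have d4 : ((k : ℝ) - 1) * A * √Real.pi = Real.Gamma x * Real.Gamma (x + 1 / 2) := by
    rw [d1, d2, hA]
    have : (2 : ℝ) ^ (1 - 2 * x) = 1 / 2 ^ (k - 1) := by
      rw [show 1 - 2 * x = -(((k - 1 : ℕ) : ℝ)) by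
        rw [hx, Nat.cast_sub (by omega)]; push_cast; ring, Real.rpow_neg (by norm_num),
        Real.rpow_natCast, one_div]
    rw [this]
    ring
  have p1 : 1 ≤ √Real.pi := by
    rw [Real.one_le_sqrt]
    linarith [Real.pi_gt_three]
  have s1 : √x * √(k : ℝ) ≤ k := by
    have h1 : √x ≤ √(k : ℝ) := Real.sqrt_le_sqrt (by rw [hx]; linarith)
    have h2 : √(k : ℝ) * √(k : ℝ) = k := Real.mul_self_sqrt (by linarith)
    have h3 := mul_le_mul_of_nonneg_right h1 (Real.sqrt_nonneg (k : ℝ))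
    linarith
  have d5 : ((k : ℝ) - 1) * (A * √(k : ℝ)) ≤ ((k : ℝ) - 1) * (2 * Real.Gamma x ^ 2) := by
    have h1 : ((k : ℝ) - 1) * A ≤ Real.Gamma x ^ 2 * √x := by
      have h2 : ((k : ℝ) - 1) * A * 1 ≤ ((k : ℝ) - 1) * A * √Real.pi :=
        mul_le_mul_of_nonneg_left p1 (mul_nonneg (by linarith) hA0.le)
      have h3 := mul_le_mul_of_nonneg_left d3 hG.le
      rw [d4] at h2
      nlinarith
    have h4 := mul_le_mul_of_nonneg_right h1 (Real.sqrt_nonneg (k : ℝ))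
    have h5 : Real.Gamma x ^ 2 * (√x * √(k : ℝ)) ≤ Real.Gamma x ^ 2 * k :=
      mul_le_mul_of_nonneg_left s1 (by positivity)
    have h6 : Real.Gamma x ^ 2 * k ≤ Real.Gamma x ^ 2 * (2 * ((k : ℝ) - 1)) :=
      mul_le_mul_of_nonneg_left (by linarith) (by positivity)
    nlinarith
  have d6 : A * √(k : ℝ) ≤ 2 * Real.Gamma x ^ 2 := le_of_mul_le_mul_left d5 (by linarith)
  have o1 : WA.omk k = A / (2 * Real.pi) ^ (k - 1) := by
    unfold WA.omk
    rw [hA, div_div, ← mul_pow]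
    congr 2
    ring
  have o2 : WA.gk k ^ 2 = Real.Gamma x ^ 2 / ((2 * Real.pi) * (2 * Real.pi) ^ (k - 1)) := by
    unfold WA.gk
    have r1 : ((2 * Real.pi) ^ (-(k : ℝ) / 2)) ^ 2 = ((2 * Real.pi) ^ k)⁻¹ := by
      rw [← Real.rpow_natCast ((2 * Real.pi) ^ (-(k : ℝ) / 2)) 2,
        ← Real.rpow_mul (by positivity), ← Real.rpow_natCast (2 * Real.pi) k,
        ← Real.rpow_neg (by positivity)]
      congr 1
      push_cast
      ring
    rw [mul_pow, r1, ← pow_succ', show k - 1 + 1 = k by omega, ← hx, div_eq_mul_inv]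
  rw [o1, o2]
  have q : 0 < (2 * Real.pi) ^ (k - 1) := by positivity
  have e1 : A / (2 * Real.pi) ^ (k - 1) * √(k : ℝ) = (A * √(k : ℝ)) / (2 * Real.pi) ^ (k - 1) := by
    ring
  have e2 : 4 * Real.pi * (Real.Gamma x ^ 2 / ((2 * Real.pi) * (2 * Real.pi) ^ (k - 1))) =
      (2 * Real.Gamma x ^ 2) / (2 * Real.pi) ^ (k - 1) := by
    field_simp
    ring
  rw [e1, e2]
  exact div_le_div_of_nonneg_right d6 q.le

end Pool.Agent.HSG
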