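import Pool.Agent.Lib_helper84.HSG.DefsB
import Pool.Agent.Lib_helper84.HSGF.GA1
import Pool.Agent.Lib_helper84.HSGF.GA3
import Pool.Agent.Lib_helper84.HSGF.GB1
import Pool.Agent.Lib_helper84.HSGF.GD1
import Pool.Agent.Lib_helper84.HSGF.GE1
import Pool.Agent.Lib_helper84.HSGF.GE2
import Pool.Agent.Lib_helper84.HSGF.GF1
import Pool.Agent.Lib_helper84.HSGF.GG
import Pool.Agent.Lib_helper84.HSGF.GI1
import Pool.Agent.Lib_helper84.HSGF.GI3
import Pool.Agent.Lib_helper84.HSGF.GR1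

/-!
# HSG, block GI2: the number of lines of height `> η`
-/

namespace Pool.Agent.HSG

open Complex MeasureTheory Filter Topology UpperHalfPlane NumberField IsDedekindDomain
open scoped nonZeroDivisors MatrixGroups ENNReal

set_option linter.unusedSectionVars false

variable {K : Type} [Field K] [NumberField K]

theorem gi2_dt_mul (u v : Fin 2 → K) (M : Matrix (Fin 2) (Fin 2) K) :
    dt (Matrix.vecMul u M) (Matrix.vecMul v M) = dt u v * M.det := by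
  unfold dt
  simp only [Matrix.vecMul, dotProduct, Fin.sum_univ_two, Matrix.det_fin_two]
  ring

theorem gi2_det_inv (G : GL (Fin 2) K) : ((G⁻¹ : GL (Fin 2) K) : Matrix (Fin 2) (Fin 2) K).det ≠ 0 := by
  have h := (Matrix.GeneralLinearGroup.det G⁻¹).ne_zero
  exact h

theorem gi2_lz_smul (t : K) (v : Fin 2 → K) (z : Em K → ℍ) (w : Em K) :
    lz (t • v) z w = ((w t : ℝ) : ℂ) * lz v z w := by
  unfold lz
  simp only [Pi.smul_apply, smul_eq_mul, map_mul]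
  push_cast
  ring

theorem gi2_em_ne (w : Em K) {x : K} (hx : x ≠ 0) : w x ≠ 0 :=
  (map_ne_zero w).2 hx

/-- real and imaginary part of the linear form -/
theorem gi2_parts (v : Fin 2 → K) (z : Em K → ℍ) (w : Em K) :
    |w (v 0)| * (z w).im ≤ ‖lz v z w‖ ∧ |w (v 1) - -(w (v 0) * (z w).re)| ≤ ‖lz v z w‖ := by
  have him : (lz v z w).im = w (v 0) * (z w).im := by
    unfold lz
    simp [Complex.add_im, Complex.mul_im]
  have hre : (lz v z w).re = w (v 1) - -(w (v 0) * (z w).re) := by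
    unfold lz
    simp [Complex.add_re, Complex.mul_re]
    ring
  constructor
  · have h := Complex.abs_im_le_norm (lz v z w)
    rwa [him, abs_mul, abs_of_pos (z w).im_pos] at h
  · have h := Complex.abs_re_le_norm (lz v z w)
    rwa [hre] at h

section tr
variable [IsTotallyReal K]

/-- normalisation of a vector: `a_v` in the list and the linear forms balanced -/
theorem gi2_norm {A : Finset (Id K)} (hA : ∀ a : Id K, ∃ t : Kˣ, prI t * a ∈ A) {R0 : ℝ}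
    (hR : ∀ u : Em K → ℝ, ∃ ε ∈ Uu K, ∀ w, |u w + 2 * lg ε w - (∑ v, u v) / (dg K : ℝ)| ≤ R0)
    (z : Em K → ℍ) (L : Lat K) {v : Fin 2 → K} (hv : v ≠ 0) :
    ∃ t : Kˣ, L.av ((t : K) • v) ∈ A ∧ ∀ w, Real.log ‖lz ((t : K) • v) z w‖ ≤
      (∑ w', Real.log ‖lz ((t : K) • v) z w'‖) / (dg K : ℝ) + R0 / 2 := by
  obtain ⟨t0, ht0⟩ := hA (L.av v)
  set v0 : Fin 2 → K := ((t0⁻¹ : Kˣ) : K) • v with hv0
  have hv0ne : v0 ≠ 0 := by
    rw [hv0]
    exact smul_ne_zero (t0⁻¹).ne_zero hv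
  obtain ⟨ε, hε, hb⟩ := hR (fun w => 2 * Real.log ‖lz v0 z w‖)
  have hlog : ∀ w, Real.log ‖lz (((ε * t0⁻¹ : Kˣ) : K) • v) z w‖ =
      lg ε w + Real.log ‖lz v0 z w‖ := by
    intro w
    have e : (((ε * t0⁻¹ : Kˣ) : K) • v) = ((ε : Kˣ) : K) • v0 := by
      rw [hv0, smul_smul, Units.val_mul]
    rw [e, gi2_lz_smul, norm_mul, Complex.norm_real, Real.norm_eq_abs, Real.log_mul]
    · rfl
    · exact abs_ne_zero.2 (gi2_em_ne w ε.ne_zero)
    · exact norm_ne_zero_iff.2 (lz_ne hv0ne z w)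
  refine ⟨ε * t0⁻¹, ?_, ?_⟩
  · rw [av_scal L _ hv]
    have e1 : prI ε = 1 := hε
    have e2 : (prI (ε * t0⁻¹))⁻¹ = prI t0 := by
      rw [map_mul, map_inv, e1, one_mul, inv_inv]
    rw [e2]
    exact ht0
  · intro w
    simp only [hlog, Finset.sum_add_distrib, lg_sum hε, zero_add]
    have h1 := (abs_le.1 (hb w)).2
    rw [← Finset.mul_sum] at h1
    have h2 : 2 * (∑ v, Real.log ‖lz v0 z v‖) / (dg K : ℝ) =
        2 * ((∑ v, Real.log ‖lz v0 z v‖) / (dg K : ℝ)) := by ring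
    rw [h2] at h1
    linarith

theorem gi2_mem (b a : Id K) {v : Fin 2 → K} (hv : v ≠ 0) :
    v 0 ∈ (b / (Lat.ds b a).av v).m ∧ v 1 ∈ (a / (Lat.ds b a).av v).m := by
  have key : ∀ y ∈ ((Lat.ds b a).av v).m, y • v ∈ (Lat.ds b a).M := by
    intro y hy
    rw [av_m _ hv] at hy
    exact hy
  constructor
  · rw [mem_div_iff]
    intro y hy
    have h := (key y hy).1
    rw [mul_comm]
    exact h
  · rw [mem_div_iff]
    intro y hy
    have h := (key y hy).2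
    rw [mul_comm]
    exact h

theorem gi2_one_add {T ν : ℝ} (hT : 0 < T) (hν : 0 < ν) (d : ℕ) (h : ν ≤ T ^ d) :
    (1 + T) ^ d ≤ 2 ^ (d - 1) * (ν⁻¹ + 1) * T ^ d := by
  have h1 := add_pow_le (zero_le_one : (0 : ℝ) ≤ 1) hT.le d
  rw [one_pow] at h1
  have h2 : 1 ≤ ν⁻¹ * T ^ d := by
    rw [← div_eq_inv_mul, le_div_iff₀ hν, one_mul]
    exact h
  calc (1 + T) ^ d ≤ 2 ^ (d - 1) * (1 + T ^ d) := h1
    _ ≤ 2 ^ (d - 1) * (ν⁻¹ * T ^ d + T ^ d) := by gcongr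
    _ = 2 ^ (d - 1) * (ν⁻¹ + 1) * T ^ d := by ring

open scoped Classical in
theorem gi2_count (m1 m2 : Id K) {ν : ℝ} (hν : 0 < ν) : ∃ C : ℝ, 0 < C ∧
    ∀ (x : Em K → ℝ) (T1 T2 : ℝ), 0 < T1 → 0 < T2 → ν ≤ T2 ^ dg K →
      ∀ s : Finset (Fin 2 → K), (∀ v ∈ s, v 0 ≠ 0 ∧ v 0 ∈ m1.m ∧ v 1 ∈ m2.m ∧
        ∀ w : Em K, |w (v 0)| ≤ T1 ∧ |w (v 1) - -(w (v 0) * x w)| ≤ T2) →
      (s.card : ℝ) ≤ C * (T1 ^ dg K * T2 ^ dg K) := by
  obtain ⟨C1, hC1, h1⟩ := cnt_box m1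
  obtain ⟨C2, hC2, h2⟩ := cnt_box m2
  have hn := nI_pos m1
  refine ⟨C1 * (2 ^ (dg K - 1) * ((nI m1)⁻¹ + 1)) * (C2 * (2 ^ (dg K - 1) * (ν⁻¹ + 1))),
    by positivity, ?_⟩
  intro x T1 T2 hT1 hT2 hνT s hs
  rcases s.eq_empty_or_nonempty with rfl | ⟨v, hv⟩
  · simp only [Finset.card_empty, Nat.cast_zero]
    positivity
  have hT1n : nI m1 ≤ T1 ^ dg K := by
    obtain ⟨h0, hm, -, hw⟩ := hs v hv
    have h3 : nI m1 ≤ nI (prI (Units.mk0 (v 0) h0)) := nI_mem hm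
    refine h3.trans ?_
    rw [nI_prI, ← card_em (K := K), ← Finset.card_univ, ← Finset.prod_const]
    exact Finset.prod_le_prod (fun _ _ => abs_nonneg _) fun w _ => (hw w).1
  have himg : ((s.image fun v => v 0).card : ℝ) ≤ C1 * (1 + T1) ^ dg K := by
    refine h1 (fun _ => 0) T1 hT1.le _ ?_
    intro y hy
    obtain ⟨v, hv, rfl⟩ := Finset.mem_image.1 hy
    refine ⟨(hs v hv).2.1, fun w => ?_⟩
    rw [sub_zero]
    exact ((hs v hv).2.2.2 w).1
  have hfib : ∀ y ∈ s.image (fun v => v 0), ((s.filter fun v => v 0 = y).card : ℝ) ≤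
      C2 * (1 + T2) ^ dg K := by
    intro y _
    have hinj : Set.InjOn (fun v : Fin 2 → K => v 1) (s.filter fun v => v 0 = y) := by
      intro u hu v hv huv
      rw [Finset.mem_coe, Finset.mem_filter] at hu hv
      funext i
      fin_cases i
      · exact hu.2.trans hv.2.symm
      · exact huv
    rw [← Finset.card_image_of_injOn hinj]
    refine h2 (fun w => -(w y * x w)) T2 hT2.le _ ?_
    intro r hr
    obtain ⟨v, hv, rfl⟩ := Finset.mem_image.1 hr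
    rw [Finset.mem_filter] at hv
    refine ⟨(hs v hv.1).2.2.1, fun w => ?_⟩
    have h := ((hs v hv.1).2.2.2 w).2
    rw [hv.2] at h
    exact h
  have hcard : (s.card : ℝ) ≤ ((s.image fun v => v 0).card : ℝ) * (C2 * (1 + T2) ^ dg K) := by
    rw [Finset.card_eq_sum_card_image (fun v : Fin 2 → K => v 0) s]
    push_cast
    calc ∑ y ∈ s.image (fun v => v 0), ((s.filter fun v => v 0 = y).card : ℝ)
        ≤ ∑ y ∈ s.image (fun v => v 0), C2 * (1 + T2) ^ dg K := Finset.sum_le_sum hfib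
      _ = _ := by rw [Finset.sum_const, nsmul_eq_mul]
  have e1 := gi2_one_add hT1 hn (dg K) hT1n
  have e2 := gi2_one_add hT2 hν (dg K) hνT
  calc (s.card : ℝ) ≤ ((s.image fun v => v 0).card : ℝ) * (C2 * (1 + T2) ^ dg K) := hcard
    _ ≤ (C1 * (1 + T1) ^ dg K) * (C2 * (1 + T2) ^ dg K) := by gcongr
    _ ≤ (C1 * (2 ^ (dg K - 1) * ((nI m1)⁻¹ + 1) * T1 ^ dg K)) *
        (C2 * (2 ^ (dg K - 1) * (ν⁻¹ + 1) * T2 ^ dg K)) := by gcongr
    _ = _ := by ring

theorem gi2_lgsum (z : Em K → ℍ) : ∑ w, lgy z w = Real.log (NY z) := by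
  unfold lgy NY
  rw [Real.log_prod]
  intro w _
  exact (z w).im_pos.ne'

/-- the height in logarithmic form -/
theorem gi2_ht {b a : Id K} {v : Fin 2 → K} (hv : v ≠ 0) (z : Em K → ℍ) {η : ℝ} (hη : 0 < η)
    (h : η < ht v z (Lat.ds b a)) :
    2 * ∑ w, Real.log ‖lz v z w‖ ≤ (∑ w, lgy z w) + (Real.log (nI (b * a)) -
      2 * Real.log (nI ((Lat.ds b a).av v))) - Real.log η := by
  have hlz : ∀ w : Em K, ‖lz v z w‖ ≠ 0 := fun w => norm_ne_zero_iff.2 (lz_ne hv z w)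
  have hp : (∏ w : Em K, ‖lz v z w‖) ≠ 0 := Finset.prod_ne_zero_iff.2 fun w _ => hlz w
  have hNY : NY z ≠ 0 := Finset.prod_ne_zero_iff.2 fun w _ => (z w).im_pos.ne'
  have hn1 := (nI_pos (b * a)).ne'
  have hn2 := (nI_pos ((Lat.ds b a).av v)).ne'
  have h1 := Real.log_lt_log hη h
  unfold ht at h1
  rw [det_ds, Real.log_div (mul_ne_zero hNY hn1) (mul_ne_zero (pow_ne_zero 2 hp) (pow_ne_zero 2 hn2)),
    Real.log_mul hNY hn1, Real.log_mul (pow_ne_zero 2 hp) (pow_ne_zero 2 hn2), Real.log_pow,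
    Real.log_pow, Real.log_prod (fun w _ => hlz w)] at h1
  rw [gi2_lgsum]
  push_cast at h1
  linarith

/-- the box -/
theorem gi2_box {R0 c2 : ℝ} {z : Em K → ℍ}
    (hz : ∀ w, |lgy z w - (∑ v, lgy z v) / (dg K : ℝ)| ≤ R0) {v : Fin 2 → K} (hv : v ≠ 0)
    {η : ℝ} (h1 : 2 * ∑ w, Real.log ‖lz v z w‖ ≤ (∑ w, lgy z w) + c2 - Real.log η)
    (h2 : ∀ w, Real.log ‖lz v z w‖ ≤ (∑ w', Real.log ‖lz v z w'‖) / (dg K : ℝ) + R0 / 2)
    (w : Em K) :
    |w (v 0)| ≤ Real.exp ((-(∑ w, lgy z w) + c2 - Real.log η) / (2 * dg K) + 3 * R0 / 2) ∧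
    |w (v 1) - -(w (v 0) * (z w).re)| ≤
      Real.exp (((∑ w, lgy z w) + c2 - Real.log η) / (2 * dg K) + R0 / 2) := by
  have hd : (0 : ℝ) < dg K := by
    have := dg_pos (K := K)
    exact_mod_cast this
  set Y := ∑ w, lgy z w with hY
  have hn : 0 < ‖lz v z w‖ := norm_pos_iff.2 (lz_ne hv z w)
  have h3 : Real.log ‖lz v z w‖ ≤ (Y + c2 - Real.log η) / (2 * dg K) + R0 / 2 := by
    refine (h2 w).trans ?_
    have : (∑ w', Real.log ‖lz v z w'‖) / (dg K : ℝ) ≤ (Y + c2 - Real.log η) / (2 * dg K) := by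
      rw [div_le_div_iff₀ hd (by positivity)]
      nlinarith
    linarith
  have h4 : ‖lz v z w‖ ≤ Real.exp ((Y + c2 - Real.log η) / (2 * dg K) + R0 / 2) := by
    rw [← Real.exp_log hn]
    exact Real.exp_le_exp.2 h3
  obtain ⟨p1, p2⟩ := gi2_parts v z w
  refine ⟨?_, p2.trans h4⟩
  have him := (z w).im_pos
  have h5 : |w (v 0)| ≤ Real.exp ((Y + c2 - Real.log η) / (2 * dg K) + R0 / 2) / (z w).im := by
    rw [le_div_iff₀ him]
    exact p1.trans h4
  refine h5.trans ?_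
  rw [div_le_iff₀ him]
  have h6 : Real.exp (Y / dg K - R0) ≤ (z w).im := by
    rw [← Real.exp_log him]
    refine Real.exp_le_exp.2 ?_
    have h7 := (abs_le.1 (hz w)).1
    have h8 : lgy z w = Real.log (z w).im := rfl
    rw [h8] at h7
    linarith
  calc Real.exp ((Y + c2 - Real.log η) / (2 * dg K) + R0 / 2)
      = Real.exp ((-Y + c2 - Real.log η) / (2 * dg K) + 3 * R0 / 2) *
        Real.exp (Y / dg K - R0) := by
        rw [← Real.exp_add]
        congr 1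
        field_simp
        ring
    _ ≤ _ := by gcongr

theorem gi2_dt_smul (a b : K) (u v : Fin 2 → K) : dt (a • u) (b • v) = a * b * dt u v := by
  unfold dt
  simp only [Pi.smul_apply, smul_eq_mul]
  ring

open scoped Classical in
/-- a fixed lattice and reduced points -/
theorem gi2_fixed {A : Finset (Id K)} (hA : ∀ a : Id K, ∃ t : Kˣ, prI t * a ∈ A) {R0 : ℝ}
    (hR : ∀ u : Em K → ℝ, ∃ ε ∈ Uu K, ∀ w, |u w + 2 * lg ε w - (∑ v, u v) / (dg K : ℝ)| ≤ R0)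
    (b a : Id K) {c0 : ℝ} (hc0 : 0 < c0) : ∃ C : ℝ, 0 < C ∧ ∀ z : Em K → ℍ,
      c0 ≤ NY z * nI (b / a) → (∀ w, |lgy z w - (∑ v, lgy z v) / (dg K : ℝ)| ≤ R0) →
      ∀ η : ℝ, 0 < η → η ≤ 1 → ∀ s : Finset (Fin 2 → K),
      (∀ v ∈ s, v ≠ 0 ∧ η < ht v z (Lat.ds b a)) →
      (∀ v ∈ s, ∀ v' ∈ s, v ≠ v' → dt v v' ≠ 0) → (s.card : ℝ) ≤ C / η := by
  have hd : (0 : ℝ) < dg K := by
    have := dg_pos (K := K)
    exact_mod_cast this
  set c2 : ℝ := ∑ a' ∈ A, |Real.log (nI (b * a)) - 2 * Real.log (nI a')| with hc2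
  set lam : ℝ := Real.log c0 - Real.log (nI (b / a)) with hlam
  set ν : ℝ := Real.exp ((lam + c2) / 2 + dg K * R0 / 2) with hν
  have hνpos : 0 < ν := Real.exp_pos _
  choose C hC hcount using fun a' : Id K => gi2_count (b / a') (a / a') hνpos
  refine ⟨1 + (∑ a' ∈ A, C a') * Real.exp (c2 + 2 * dg K * R0), by
    have : 0 ≤ ∑ a' ∈ A, C a' := Finset.sum_nonneg fun a' _ => (hC a').le
    positivity, ?_⟩
  intro z hz1 hz2 η hη hη1 s hs hdt
  -- normalised representatives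
  have hex : ∀ v : Fin 2 → K, ∃ t : Kˣ, v ≠ 0 → ((Lat.ds b a).av ((t : K) • v) ∈ A ∧
      ∀ w, Real.log ‖lz ((t : K) • v) z w‖ ≤
        (∑ w', Real.log ‖lz ((t : K) • v) z w'‖) / (dg K : ℝ) + R0 / 2) := by
    intro v
    by_cases hv : v = 0
    · exact ⟨1, fun h => absurd hv h⟩
    · obtain ⟨t, ht⟩ := gi2_norm hA hR z (Lat.ds b a) hv
      exact ⟨t, fun _ => ht⟩
  choose t ht' using hex
  set φ : (Fin 2 → K) → (Fin 2 → K) := fun v => ((t v : Kˣ) : K) • v with hφ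
  have hφdt : ∀ u ∈ s, ∀ v ∈ s, u ≠ v → dt (φ u) (φ v) ≠ 0 := by
    intro u hu v hv huv
    rw [hφ]
    simp only
    rw [gi2_dt_smul]
    exact mul_ne_zero (mul_ne_zero (t u).ne_zero (t v).ne_zero) (hdt u hu v hv huv)
  have hinj : Set.InjOn φ s := by
    intro u hu v hv huv
    by_contra hne
    apply hφdt u hu v hv hne
    rw [huv]
    unfold dt
    ring
  rw [← Finset.card_image_of_injOn hinj]
  set s' := s.image φ with hs'
  set Y := ∑ w, lgy z w with hY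
  set T1 : ℝ := Real.exp ((-Y + c2 - Real.log η) / (2 * dg K) + 3 * R0 / 2) with hT1
  set T2 : ℝ := Real.exp ((Y + c2 - Real.log η) / (2 * dg K) + R0 / 2) with hT2
  have hlogη : Real.log η ≤ 0 := Real.log_nonpos hη.le hη1
  have hYlam : lam ≤ Y := by
    have hn := nI_pos (b / a)
    have hNY : 0 < NY z := Finset.prod_pos fun w _ => (z w).im_pos
    have h1 := Real.log_le_log hc0 hz1
    rw [Real.log_mul hNY.ne' hn.ne'] at h1
    rw [hlam, hY, gi2_lgsum]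
    linarith
  have hT2d : T2 ^ dg K = Real.exp ((Y + c2 - Real.log η) / 2 + dg K * R0 / 2) := by
    rw [hT2, ← Real.exp_nat_mul]
    congr 1
    field_simp
  have hT1d : T1 ^ dg K = Real.exp ((-Y + c2 - Real.log η) / 2 + dg K * (3 * R0) / 2) := by
    rw [hT1, ← Real.exp_nat_mul]
    congr 1
    field_simp
  have hνT : ν ≤ T2 ^ dg K := by
    rw [hT2d, hν]
    refine Real.exp_le_exp.2 ?_
    linarith
  have hTT : T1 ^ dg K * T2 ^ dg K = Real.exp (c2 + 2 * dg K * R0) / η := by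
    rw [hT1d, hT2d, ← Real.exp_add]
    have e : (-Y + c2 - Real.log η) / 2 + dg K * (3 * R0) / 2 + ((Y + c2 - Real.log η) / 2 +
        dg K * R0 / 2) = (c2 + 2 * dg K * R0) - Real.log η := by ring
    rw [e, Real.exp_sub, Real.exp_log hη]
  -- the two kinds of elements
  have hkey : ∀ v' ∈ s', v' ≠ 0 ∧ (Lat.ds b a).av v' ∈ A ∧ ∀ w : Em K,
      |w (v' 0)| ≤ T1 ∧ |w (v' 1) - -(w (v' 0) * (z w).re)| ≤ T2 := by
    intro v' hv'
    obtain ⟨v, hv, rfl⟩ := Finset.mem_image.1 hv'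
    obtain ⟨hv0, hvη⟩ := hs v hv
    obtain ⟨hA1, hA2⟩ := ht' v hv0
    have hne : φ v ≠ 0 := smul_ne_zero (t v).ne_zero hv0
    refine ⟨hne, hA1, ?_⟩
    have h1 : η < ht (φ v) z (Lat.ds b a) := by
      rw [hφ]
      simp only
      rw [ht_scal _ hv0]
      exact hvη
    have h2 := gi2_ht hne z hη h1
    have h3 : Real.log (nI (b * a)) - 2 * Real.log (nI ((Lat.ds b a).av (φ v))) ≤ c2 := by
      refine (le_abs_self _).trans ?_
      exact Finset.single_le_sum (f := fun a' => |Real.log (nI (b * a)) - 2 * Real.log (nI a')|)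
        (fun _ _ => abs_nonneg _) hA1
    exact gi2_box hz2 hne (by linarith) hA2
  have hcard0 : (s'.filter fun v => v 0 = 0).card ≤ 1 := by
    rw [Finset.card_le_one]
    intro x hx y hy
    rw [Finset.mem_filter] at hx hy
    obtain ⟨u, hu, rfl⟩ := Finset.mem_image.1 hx.1
    obtain ⟨v, hv, rfl⟩ := Finset.mem_image.1 hy.1
    by_contra hne
    have huv : u ≠ v := fun h => hne (by rw [h])
    apply hφdt u hu v hv huv
    unfold dt
    rw [hx.2, hy.2]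
    ring
  have hcard1 : ∀ a' ∈ A, ((s'.filter fun v => v 0 ≠ 0 ∧ (Lat.ds b a).av v = a').card : ℝ) ≤
      C a' * (T1 ^ dg K * T2 ^ dg K) := by
    intro a' _
    refine hcount a' (fun w => (z w).re) T1 T2 (Real.exp_pos _) (Real.exp_pos _) hνT _ ?_
    intro v hv
    rw [Finset.mem_filter] at hv
    obtain ⟨hv0, -, hvb⟩ := hkey v hv.1
    have hm := gi2_mem b a hv0
    rw [hv.2.2] at hm
    exact ⟨hv.2.1, hm.1, hm.2, hvb⟩
  have hsub : s' ⊆ (s'.filter fun v => v 0 = 0) ∪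
      A.biUnion fun a' => s'.filter fun v => v 0 ≠ 0 ∧ (Lat.ds b a).av v = a' := by
    intro v hv
    rw [Finset.mem_union, Finset.mem_filter, Finset.mem_biUnion]
    by_cases h0 : v 0 = 0
    · exact Or.inl ⟨hv, h0⟩
    · exact Or.inr ⟨_, (hkey v hv).2.1, Finset.mem_filter.2 ⟨hv, h0, rfl⟩⟩
  have hle : (s'.card : ℝ) ≤ 1 + ∑ a' ∈ A, C a' * (T1 ^ dg K * T2 ^ dg K) := by
    have h1 := (Finset.card_le_card hsub).trans (Finset.card_union_le _ _)
    have h2 := h1.trans (Nat.add_le_add hcard0 Finset.card_biUnion_le)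
    have h3 : (s'.card : ℝ) ≤ ((1 + ∑ a' ∈ A,
        (s'.filter fun v => v 0 ≠ 0 ∧ (Lat.ds b a).av v = a').card : ℕ) : ℝ) := by
      exact_mod_cast h2
    push_cast at h3
    exact h3.trans (by
      gcongr with a' ha'
      exact hcard1 a' ha')
  refine hle.trans ?_
  rw [← Finset.sum_mul, hTT, le_div_iff₀ hη, add_mul, mul_assoc, div_mul_cancel₀ _ hη.ne']
  linarith

/-- moving a set of vectors by a matrix of totally positive determinant -/
theorem gi2_move (G : GL (Fin 2) K) (hG : ∀ w : Em K, 0 < w (G : Matrix (Fin 2) (Fin 2) K).det)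
    (z : Em K → ℍ) (L : Lat K) {η : ℝ} (s : Finset (Fin 2 → K))
    (hs : ∀ v ∈ s, v ≠ 0 ∧ η < ht v z L) (hdt : ∀ v ∈ s, ∀ v' ∈ s, v ≠ v' → dt v v' ≠ 0) :
    ∃ s' : Finset (Fin 2 → K), s'.card = s.card ∧ (∀ v ∈ s', v ≠ 0 ∧ η < ht v (G • z) (G • L)) ∧
      (∀ v ∈ s', ∀ v' ∈ s', v ≠ v' → dt v v' ≠ 0) := by
  classical
  set φ : (Fin 2 → K) → (Fin 2 → K) := fun v =>
    Matrix.vecMul v ((G⁻¹ : GL (Fin 2) K) : Matrix (Fin 2) (Fin 2) K) with hφ
  have hφdt : ∀ u v, dt u v ≠ 0 → dt (φ u) (φ v) ≠ 0 := by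
    intro u v h
    show dt (Matrix.vecMul u _) (Matrix.vecMul v _) ≠ 0
    rw [gi2_dt_mul]
    exact mul_ne_zero h (gi2_det_inv G)
  have hback : ∀ v, Matrix.vecMul (φ v) (G : Matrix (Fin 2) (Fin 2) K) = v := by
    intro v
    show Matrix.vecMul (Matrix.vecMul v _) _ = v
    rw [Matrix.vecMul_vecMul, ← Units.val_mul, inv_mul_cancel]
    simp
  have hinj : Function.Injective φ := by
    intro u v h
    rw [← hback u, ← hback v, h]
  refine ⟨s.image φ, Finset.card_image_of_injective s hinj, ?_, ?_⟩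
  · intro v' hv'
    obtain ⟨v, hv, rfl⟩ := Finset.mem_image.1 hv'
    refine ⟨fun h0 => (hs v hv).1 ?_, ?_⟩
    · rw [← hback v, h0, Matrix.zero_vecMul]
    · show η < ht (Matrix.vecMul v _) _ _
      rw [ht_act G hG (hs v hv).1]
      exact (hs v hv).2
  · intro x hx y hy hxy
    obtain ⟨u, hu, rfl⟩ := Finset.mem_image.1 hx
    obtain ⟨v, hv, rfl⟩ := Finset.mem_image.1 hy
    exact hφdt u v (hdt u hu v hv fun h => hxy (by rw [h]))

theorem lines : ∃ C : ℝ, 0 < C ∧ ∀ (z : Em K → ℍ) (L : Lat K) (η : ℝ), 0 < η → η ≤ 1 →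
    ∀ s : Finset (Fin 2 → K), (∀ v ∈ s, v ≠ 0 ∧ η < ht v z L) →
      (∀ v ∈ s, ∀ v' ∈ s, v ≠ v' → dt v v' ≠ 0) → (s.card : ℝ) ≤ C / η := by
  classical
  obtain ⟨A, hA⟩ := wide_reps (K := K)
  obtain ⟨R0, hR⟩ := bal (K := K)
  obtain ⟨c0, hc0, hmink⟩ := mink (K := K)
  choose Cl hCl using fun x : Id K => cell_exists x
  have : Finite (NCl K) := ncl_finite
  have : Fintype (NCl K) := Fintype.ofFinite _
  choose C hC hfix using fun (κ : NCl K) (a : Id K) => gi2_fixed hA hR (κ.out / a) a hc0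
  have hnn : ∀ κ : NCl K, 0 ≤ ∑ a ∈ A, C κ a := fun κ => Finset.sum_nonneg fun a _ => (hC κ a).le
  refine ⟨1 + ∑ κ : NCl K, ∑ a ∈ A, C κ a, by
    have : 0 ≤ ∑ κ : NCl K, ∑ a ∈ A, C κ a := Finset.sum_nonneg fun κ _ => hnn κ
    positivity, ?_⟩
  intro z L η hη hη1 s hs hdt
  set κ : NCl K := QuotientGroup.mk L.det with hκ
  have hrel : κ.out / L.det ∈ Pp K := by
    have h1 : (QuotientGroup.mk L.det : NCl K) = QuotientGroup.mk κ.out := by
      rw [QuotientGroup.out_eq']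
    have h2 := QuotientGroup.eq.1 h1
    rwa [← div_eq_inv_mul] at h2
  obtain ⟨t, htp, ht'⟩ := (pp_iff _).1 hrel
  set h : GL (Fin 2) K := (dgm t)⁻¹ with hh
  have hdgdet : (Matrix.GeneralLinearGroup.det (dgm t) : Kˣ) = t := by
    ext
    simp [dgm, Matrix.det_fin_two]
  have hdet : (h • L).det = κ.out := by
    have e : h • L = L.mul (dgm t) := by
      show L.mul ((dgm t)⁻¹)⁻¹ = _
      rw [inv_inv]
    rw [e, det_mul, hdgdet, ht', div_mul_cancel]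
  have hhpos : ∀ w : Em K, 0 < w (h : Matrix (Fin 2) (Fin 2) K).det := by
    intro w
    have e : (h : Matrix (Fin 2) (Fin 2) K).det = ((t⁻¹ : Kˣ) : K) := by
      have e1 : ((Matrix.GeneralLinearGroup.det h : Kˣ) : K) = (h : Matrix (Fin 2) (Fin 2) K).det := rfl
      rw [← e1, hh, map_inv, hdgdet]
    rw [e]
    exact (Kp K).inv_mem htp w
  obtain ⟨g, a, ha, h1, h2, -, h4⟩ := reduce A hA hmink hR hCl (h • z) (h • L)
  rw [hdet] at h1 h2
  set G : GL (Fin 2) K := (g : GL (Fin 2) K) * h with hG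
  have hGz : G • z = g • (h • z) := by
    rw [hG, mul_smul]
    rfl
  have hGL : G • L = g • (h • L) := by
    rw [hG, mul_smul]
    rfl
  have hGpos : ∀ w : Em K, 0 < w (G : Matrix (Fin 2) (Fin 2) K).det := by
    intro w
    have e : (G : Matrix (Fin 2) (Fin 2) K).det = (h : Matrix (Fin 2) (Fin 2) K).det := by
      rw [hG, Units.val_mul, Matrix.det_mul]
      have e2 : ((g : GL (Fin 2) K) : Matrix (Fin 2) (Fin 2) K).det = 1 := g.2
      rw [e2, one_mul]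
    rw [e]
    exact hhpos w
  obtain ⟨s', hcard, hs', hdt'⟩ := gi2_move G hGpos z L s hs hdt
  rw [hGz, hGL, h1] at hs'
  rw [← hcard]
  refine (hfix κ a (g • (h • z)) h2 h4 η hη hη1 s' hs' hdt').trans ?_
  have h5 : C κ a ≤ 1 + ∑ κ : NCl K, ∑ a ∈ A, C κ a := by
    have h6 : C κ a ≤ ∑ a ∈ A, C κ a :=
      Finset.single_le_sum (f := fun a => C κ a) (fun a _ => (hC κ a).le) ha
    have h7 : ∑ a ∈ A, C κ a ≤ ∑ κ : NCl K, ∑ a ∈ A, C κ a :=
      Finset.single_le_sum (f := fun κ => ∑ a ∈ A, C κ a) (fun κ _ => hnn κ) (Finset.mem_univ κ)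
    linarith
  gcongr

end tr

end Pool.Agent.HSG
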