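import Pool.Agent.Lib_helper84.HSG.DefsB
import Pool.Agent.Lib_helper84.HSGF.GA1
import Pool.Agent.Lib_helper84.HSGF.GB1
import Pool.Agent.Lib_helper84.HSGF.GB2
import Pool.Agent.Lib_helper84.HSGF.GF2
import Pool.Agent.Lib_helper84.HSGF.GG
import Pool.Agent.Lib_helper84.HSGF.GI1
import Pool.Agent.Lib_helper84.HSGF.GI2

/-!
# Block HE (CHI): the cusp weights
-/

namespace Pool.Agent.HSG

open Complex MeasureTheory Filter Topology UpperHalfPlane NumberField IsDedekindDomain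
open scoped nonZeroDivisors MatrixGroups ENNReal

variable {K : Type} [Field K] [NumberField K]

theorem he_meas_im {ι : Type} (w : ι) : Measurable (fun z : ι → ℍ => (z w).im) :=
  (UpperHalfPlane.continuous_im.measurable).comp (measurable_pi_apply w)

theorem he_meas_re {ι : Type} (w : ι) : Measurable (fun z : ι → ℍ => (z w).re) :=
  (UpperHalfPlane.continuous_re.measurable).comp (measurable_pi_apply w)

theorem he_meas_NY : Measurable (fun z : Em K → ℍ => NY z) :=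
  Finset.measurable_prod _ fun w _ => he_meas_im w

theorem he_meas_rev {ι : Type} : Measurable (fun z : ι → ℍ => rev z) :=
  measurable_pi_lambda _ fun w => he_meas_re w

theorem he_meas_lgy {ι : Type} : Measurable (fun z : ι → ℍ => lgy z) :=
  measurable_pi_lambda _ fun w => Real.measurable_log.comp (he_meas_im w)

omit [NumberField K] in
/-- the action of a matrix of determinant 1 -/
theorem he_act (g : SL(2, K)) (z : Em K → ℍ) (w : Em K) :
    ((g • z) w : ℂ) = ((w (g 0 0) : ℝ) * (z w : ℂ) + (w (g 0 1) : ℝ)) /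
      ((w (g 1 0) : ℝ) * (z w : ℂ) + (w (g 1 1) : ℝ)) := by
  have h1 : (g • z) w = (Matrix.GeneralLinearGroup.map (n := Fin 2) w (g : GL (Fin 2) K)) • z w :=
    rfl
  have hd : 0 < (Matrix.GeneralLinearGroup.map (n := Fin 2) w (g : GL (Fin 2) K)).det.val := by
    show 0 < ((g : Matrix (Fin 2) (Fin 2) K).map w).det
    have h2 : ((g : Matrix (Fin 2) (Fin 2) K).map w).det = w (g : Matrix (Fin 2) (Fin 2) K).det :=
      (RingHom.map_det w _).symm
    rw [h2, g.2, map_one]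
    exact one_pos
  rw [h1, coe_smul_of_det_pos hd]
  simp [num, denom]

omit [NumberField K] in
theorem he_dsm (ε : Kˣ) (z : Em K → ℍ) (w : Em K) :
    ((dsm ε • z) w : ℂ) = ((w (ε : K) ^ 2 : ℝ) : ℂ) * (z w : ℂ) := by
  rw [he_act]
  have h1 : w (ε : K) ≠ 0 := by
    rw [Ne, map_eq_zero]
    exact ε.ne_zero
  have h2 : ((w (ε : K) : ℝ) : ℂ) ≠ 0 := Complex.ofReal_ne_zero.mpr h1
  simp only [dsm, Matrix.SpecialLinearGroup.coe_mk, Matrix.cons_val', Matrix.cons_val_zero,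
    Matrix.cons_val_one, Matrix.cons_val_fin_one, Matrix.of_apply, map_zero, Complex.ofReal_zero,
    zero_mul, zero_add, add_zero, Units.val_inv_eq_inv_val, map_inv₀, Complex.ofReal_inv,
    Complex.ofReal_pow]
  field_simp

omit [NumberField K] in
theorem he_nm (β : K) (z : Em K → ℍ) (w : Em K) :
    ((nm β • z) w : ℂ) = (z w : ℂ) + ((w β : ℝ) : ℂ) := by
  rw [he_act]
  simp [nm]

theorem he_rev (ε : Kˣ) (β : K) (z : Em K → ℍ) :
    rev ((dsm ε * nm β) • z) = fun w => w (ε : K) ^ 2 * rev z w + em ((ε : K) ^ 2 * β) w := by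
  funext w
  have h1 : ((((dsm ε * nm β) • z) w : ℍ) : ℂ) =
      ((w (ε : K) ^ 2 : ℝ) : ℂ) * ((z w : ℂ) + ((w β : ℝ) : ℂ)) := by
    rw [mul_smul, he_dsm, he_nm]
  have h2 := congrArg Complex.re h1
  rw [Complex.re_ofReal_mul, Complex.add_re, Complex.ofReal_re] at h2
  simp only [rev, em, map_mul, map_pow]
  rw [← mul_add]
  exact h2

theorem he_lgy (ε : Kˣ) (β : K) (z : Em K → ℍ) :
    lgy ((dsm ε * nm β) • z) = lgy z + 2 • lg ε := by
  funext w
  have h1 : ((((dsm ε * nm β) • z) w : ℍ) : ℂ) =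
      ((w (ε : K) ^ 2 : ℝ) : ℂ) * ((z w : ℂ) + ((w β : ℝ) : ℂ)) := by
    rw [mul_smul, he_dsm, he_nm]
  have h2 := congrArg Complex.im h1
  rw [Complex.im_ofReal_mul, Complex.add_im, Complex.ofReal_im, add_zero] at h2
  have h3 : w (ε : K) ≠ 0 := by
    rw [Ne, map_eq_zero]
    exact ε.ne_zero
  have h4 : (((dsm ε * nm β) • z) w).im = w (ε : K) ^ 2 * (z w).im := h2
  have h5 : (2 • lg ε) w = 2 * Real.log |w (ε : K)| := by
    rw [Pi.smul_apply, nsmul_eq_mul]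
    rfl
  rw [Pi.add_apply, h5]
  simp only [lgy]
  rw [h4, Real.log_mul (pow_ne_zero _ h3) (z w).im_pos.ne', ← sq_abs, Real.log_pow]
  push_cast
  ring

/-- the second row is not zero -/
theorem he_row (g : SL(2, K)) : (g : Matrix (Fin 2) (Fin 2) K) 1 ≠ 0 := by
  intro h
  have h1 := g.2
  rw [Matrix.det_fin_two] at h1
  have h2 : (g : Matrix (Fin 2) (Fin 2) K) 1 0 = 0 := congrFun h 0
  have h3 : (g : Matrix (Fin 2) (Fin 2) K) 1 1 = 0 := congrFun h 1
  change (g : Matrix (Fin 2) (Fin 2) K) 0 0 * (g : Matrix (Fin 2) (Fin 2) K) 1 1 -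
    (g : Matrix (Fin 2) (Fin 2) K) 0 1 * (g : Matrix (Fin 2) (Fin 2) K) 1 0 = 1 at h1
  rw [h2, h3, mul_zero, mul_zero, sub_zero] at h1
  exact zero_ne_one h1

omit [NumberField K] in
theorem he_vm (g : SL(2, K)) :
    Matrix.vecMul ((g : Matrix (Fin 2) (Fin 2) K) 1)
      ((((g : GL (Fin 2) K))⁻¹ : GL (Fin 2) K) : Matrix (Fin 2) (Fin 2) K) = ![0, 1] := by
  have h0 : (g : Matrix (Fin 2) (Fin 2) K) * ((((g : GL (Fin 2) K))⁻¹ : GL (Fin 2) K) :
      Matrix (Fin 2) (Fin 2) K) = 1 := by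
    have := Units.mul_inv (g : GL (Fin 2) K)
    exact this
  have h1 : Matrix.vecMul ((g : Matrix (Fin 2) (Fin 2) K) 1)
      ((((g : GL (Fin 2) K))⁻¹ : GL (Fin 2) K) : Matrix (Fin 2) (Fin 2) K) =
      ((g : Matrix (Fin 2) (Fin 2) K) * ((((g : GL (Fin 2) K))⁻¹ : GL (Fin 2) K) :
      Matrix (Fin 2) (Fin 2) K)) 1 := by
    ext i
    rfl
  rw [h1, h0]
  ext i
  fin_cases i
  · exact Matrix.one_apply_ne (by decide)
  · exact Matrix.one_apply_eq 1

theorem he_av {g : SL(2, K)} {L : Lat K} {b a : Id K} (h : g • L = Lat.ds b a) :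
    L.av ((g : Matrix (Fin 2) (Fin 2) K) 1) = a := by
  have h1 := av_act (g : GL (Fin 2) K) L (he_row g)
  rw [he_vm] at h1
  rw [← h1]
  have h2 : (g : GL (Fin 2) K) • L = Lat.ds b a := h
  rw [h2, av_ds]

/-- two elements with proportional second rows -/
theorem he_fac {g g₀ : SL(2, K)} {L : Lat K} {b a : Id K} (h : g • L = Lat.ds b a)
    (h₀ : g₀ • L = Lat.ds b a) {t : Kˣ}
    (ht : (g : Matrix (Fin 2) (Fin 2) K) 1 = (t : K) • (g₀ : Matrix (Fin 2) (Fin 2) K) 1) :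
    ∃ ε : Uu K, ∃ β ∈ (a / b).m, g = dsm ε.1 * nm β * g₀ := by
  have h1 := av_scal L t (he_row g₀)
  rw [← ht, he_av h, he_av h₀] at h1
  have h2 : t⁻¹ ∈ Uu K := by
    have h3 : (prI t)⁻¹ = 1 := right_eq_mul.mp h1
    show prI t⁻¹ = 1
    rw [map_inv, h3]
  have h2' : t ∈ Uu K := by
    have := inv_mem h2
    rwa [inv_inv] at this
  have k1 : (dsm t * g * g₀⁻¹) • Lat.ds b a = Lat.ds b a := by
    rw [mul_smul, ← h₀, inv_smul_smul, mul_smul, h, ds_dsm h2', h₀]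
  have k2 : ((dsm t * g * g₀⁻¹ : SL(2, K)) : Matrix (Fin 2) (Fin 2) K) 1 = ![0, 1] := by
    have e1 : ((dsm t * g : SL(2, K)) : Matrix (Fin 2) (Fin 2) K) 1 =
        (g₀ : Matrix (Fin 2) (Fin 2) K) 1 := by
      have e2 : ((dsm t * g : SL(2, K)) : Matrix (Fin 2) (Fin 2) K) 1 =
          ((t⁻¹ : Kˣ) : K) • (g : Matrix (Fin 2) (Fin 2) K) 1 := by
        ext i
        rw [Matrix.SpecialLinearGroup.coe_mul, Matrix.mul_apply, Fin.sum_univ_two]
        simp [dsm]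
      rw [e2, ht, smul_smul, ← Units.val_mul, inv_mul_cancel, Units.val_one, one_smul]
    have e3 : ((dsm t * g * g₀⁻¹ : SL(2, K)) : Matrix (Fin 2) (Fin 2) K) 1 =
        Matrix.vecMul (((dsm t * g : SL(2, K)) : Matrix (Fin 2) (Fin 2) K) 1)
          ((((g₀ : GL (Fin 2) K))⁻¹ : GL (Fin 2) K) : Matrix (Fin 2) (Fin 2) K) := by
      rw [← map_inv]
      ext i
      rfl
    rw [e3, e1, he_vm]
  obtain ⟨-, -, β, hβ, hk⟩ := stab_ds k2 k1
  refine ⟨⟨t⁻¹, h2⟩, β, hβ, ?_⟩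
  have k3 : dsm t * g = nm β * g₀ := by
    rw [← hk, inv_mul_cancel_right]
  have k4 : dsm t⁻¹ * dsm t = (1 : SL(2, K)) := by
    ext i j
    fin_cases i <;> fin_cases j <;> simp [dsm]
  show g = dsm t⁻¹ * nm β * g₀
  rw [mul_assoc, ← k3, ← mul_assoc, k4, one_mul]

section tr4
variable [IsTotallyReal K]

theorem chi_meas (cu : Cusps K) {R0 : ℝ} (ρ : UW K R0) {C : Id K → Set (Em K → ℝ)}
    (hC : ∀ x, IsCell x (C x)) (η : ℝ) : Measurable (chi cu ρ C η) := by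
  classical
  have : Finite (NCl K) := ncl_finite
  have : Countable (NCl K) := Finite.to_countable
  unfold chi
  refine Measurable.tsum fun κ => ?_
  refine Measurable.ite ?_ ?_ measurable_const
  · refine ((measurable_snd (measurableSet_singleton (cu.L κ))).inter
      ((measurableSet_lt measurable_const
        ((he_meas_NY.comp measurable_fst).mul_const _)).inter
        ((he_meas_rev.comp measurable_fst) (hC (cu.x κ)).meas)))
  · exact (ρ.meas.comp (he_meas_lgy.comp measurable_fst)).ennreal_ofReal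

/-- the elements with a given line -/
theorem he_line {R0 : ℝ} (ρ : UW K R0) {b a : Id K} {C : Set (Em K → ℝ)} (hC : IsCell (a / b) C)
    (z : Em K → ℍ) (L : Lat K) (S : Finset SL(2, K)) (h1 : ∀ g ∈ S, g • L = Lat.ds b a)
    (h2 : ∀ g ∈ S, rev (g • z) ∈ C) (h3 : ∀ g ∈ S, ∀ g' ∈ S, ∃ t : Kˣ,
      (g : Matrix (Fin 2) (Fin 2) K) 1 = (t : K) • (g' : Matrix (Fin 2) (Fin 2) K) 1) :
    ∑ g ∈ S, ENNReal.ofReal (ρ.ρ (lgy (g • z))) ≤ 2 := by
  classical
  rcases S.eq_empty_or_nonempty with rfl | ⟨g₀, hg₀⟩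
  · simp
  have h4 : ∀ g ∈ S, ∃ (ε : Uu K) (β : K), β ∈ (a / b).m ∧ g = dsm ε.1 * nm β * g₀ := by
    intro g hg
    obtain ⟨t, ht⟩ := h3 g hg g₀ hg₀
    obtain ⟨ε, β, hβ, he⟩ := he_fac (h1 g hg) (h1 g₀ hg₀) ht
    exact ⟨ε, β, hβ, he⟩
  choose! e β hβ he using h4
  have h5 : ∀ g ∈ S, lgy (g • z) = lgy (g₀ • z) + 2 • lg (e g).1 := by
    intro g hg
    conv_lhs => rw [he g hg]
    rw [mul_smul, he_lgy]
  have h6 : Set.InjOn e S := by
    intro g hg g' hg' hee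
    have k1 := h2 g hg
    have k2 := h2 g' hg'
    rw [he g hg, mul_smul, he_rev] at k1
    rw [he g' hg', mul_smul, he_rev, ← hee] at k2
    obtain ⟨u, hu⟩ := (mem_uu (e g).1).mp (e g).2
    have k3 : (((e g).1 : Kˣ) : K) ^ 2 * (β g' - β g) ∈ (a / b).m := by
      have k4 := (a / b).m.smul_mem ((u : 𝓞 K) ^ 2) ((a / b).m.sub_mem (hβ g' hg') (hβ g hg))
      rw [Algebra.smul_def, map_pow] at k4
      rw [← hu]
      exact k4
    have k5 : (fun w => w (((e g).1 : Kˣ) : K) ^ 2 * rev (g₀ • z) w +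
        em ((((e g).1 : Kˣ) : K) ^ 2 * β g) w) + em ((((e g).1 : Kˣ) : K) ^ 2 * (β g' - β g)) ∈ C := by
      convert k2 using 1
      funext w
      simp only [Pi.add_apply, em, map_mul, map_sub]
      ring
    have k6 := hC.uni _ _ k3 k1 k5
    have k7 : β g' = β g := by
      have := (mul_eq_zero.mp k6).resolve_left (pow_ne_zero 2 (e g).1.ne_zero)
      exact sub_eq_zero.mp this
    rw [he g hg, he g' hg', hee, k7]
  calc ∑ g ∈ S, ENNReal.ofReal (ρ.ρ (lgy (g • z)))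
      = ∑ g ∈ S, (fun ε : Uu K => ENNReal.ofReal (ρ.ρ (lgy (g₀ • z) + 2 • lg ε.1))) (e g) := by
        refine Finset.sum_congr rfl fun g hg => ?_
        rw [h5 g hg]
    _ = ∑ ε ∈ S.image e, ENNReal.ofReal (ρ.ρ (lgy (g₀ • z) + 2 • lg ε.1)) :=
        (Finset.sum_image (f := fun ε : Uu K =>
          ENNReal.ofReal (ρ.ρ (lgy (g₀ • z) + 2 • lg ε.1))) h6).symm
    _ ≤ ∑' ε : Uu K, ENNReal.ofReal (ρ.ρ (lgy (g₀ • z) + 2 • lg ε.1)) := ENNReal.sum_le_tsum _
    _ ≤ 2 := uw_sq ρ _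

omit [NumberField K] [IsTotallyReal K] in
/-- the normalized vector of a line -/
theorem he_nrm_exists : ∃ N : (Fin 2 → K) → (Fin 2 → K), (∀ v, v ≠ 0 → ∃ t : Kˣ, N v = (t : K) • v) ∧
    ∀ u v, u ≠ 0 → v ≠ 0 → dt (N u) (N v) = 0 → N u = N v := by
  classical
  refine ⟨fun v => if v 0 = 0 then ![0, 1] else ![1, v 1 / v 0], fun v hv => ?_,
    fun u v hu hv h => ?_⟩
  · by_cases h0 : v 0 = 0
    · have h1 : v 1 ≠ 0 := by
        intro h1
        apply hv
        ext i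
        fin_cases i
        · exact h0
        · exact h1
      refine ⟨(Units.mk0 _ h1)⁻¹, ?_⟩
      ext i
      fin_cases i <;> simp [h0, h1]
    · refine ⟨(Units.mk0 _ h0)⁻¹, ?_⟩
      ext i
      fin_cases i
      · simp [h0]
      · simp [h0, div_eq_inv_mul]
  · by_cases h0 : u 0 = 0 <;> by_cases h1 : v 0 = 0
    · simp [h0, h1]
    · simp [h0, h1, dt] at h
    · simp [h0, h1, dt] at h
    · simp only [h0, h1, dt, if_false, Matrix.cons_val_zero, Matrix.cons_val_one,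
        Matrix.cons_val_fin_one] at h ⊢
      have h2 : v 1 / v 0 = u 1 / u 0 := by linear_combination h
      rw [h2]

theorem he_ht {g : SL(2, K)} {L : Lat K} {b a : Id K} (h : g • L = Lat.ds b a) (z : Em K → ℍ) :
    ht ((g : Matrix (Fin 2) (Fin 2) K) 1) z L = NY (g • z) * nI (b / a) := by
  have hd : ∀ w : Em K, 0 < w ((g : GL (Fin 2) K) : Matrix (Fin 2) (Fin 2) K).det := by
    intro w
    have h2 : ((g : GL (Fin 2) K) : Matrix (Fin 2) (Fin 2) K).det = 1 := g.2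
    rw [h2, map_one]
    exact one_pos
  have h1 := ht_act (g : GL (Fin 2) K) hd (he_row g) z L
  rw [he_vm] at h1
  have h2 : (g : GL (Fin 2) K) • L = Lat.ds b a := h
  rw [h2, ht_ds] at h1
  exact h1.symm

open scoped Classical in
/-- the sum for one lattice -/
theorem he_one {R0 : ℝ} (ρ : UW K R0) {b a : Id K} {C : Set (Em K → ℝ)} (hC : IsCell (a / b) C)
    (z : Em K → ℍ) (L : Lat K) {η B : ℝ} (hB : ∀ s : Finset (Fin 2 → K),
      (∀ v ∈ s, v ≠ 0 ∧ η < ht v z L) → (∀ v ∈ s, ∀ v' ∈ s, v ≠ v' → dt v v' ≠ 0) →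
        (s.card : ℝ) ≤ B) :
    ∑' g : SL(2, K), (if g • L = Lat.ds b a ∧ η < NY (g • z) * nI (b / a) ∧ rev (g • z) ∈ C then
      ENNReal.ofReal (ρ.ρ (lgy (g • z))) else 0) ≤ ENNReal.ofReal (2 * B) := by
  obtain ⟨N, hN1, hN2⟩ := he_nrm_exists (K := K)
  rw [ENNReal.tsum_eq_iSup_sum]
  refine iSup_le fun F => ?_
  rw [← Finset.sum_filter]
  set F' := F.filter (fun g : SL(2, K) => g • L = Lat.ds b a ∧ η < NY (g • z) * nI (b / a) ∧
    rev (g • z) ∈ C) with hF'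
  have hF : ∀ g ∈ F', g • L = Lat.ds b a ∧ η < NY (g • z) * nI (b / a) ∧ rev (g • z) ∈ C :=
    fun g hg => (Finset.mem_filter.mp hg).2
  set φ : SL(2, K) → (Fin 2 → K) := fun g => N ((g : Matrix (Fin 2) (Fin 2) K) 1) with hφ
  have h1 : ∑ g ∈ F', ENNReal.ofReal (ρ.ρ (lgy (g • z))) =
      ∑ v ∈ F'.image φ, ∑ g ∈ F'.filter (fun g => φ g = v),
        ENNReal.ofReal (ρ.ρ (lgy (g • z))) :=
    (Finset.sum_fiberwise_of_maps_to (fun g hg => Finset.mem_image_of_mem φ hg) _).symm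
  have h2 : ∀ v ∈ F'.image φ, ∑ g ∈ F'.filter (fun g => φ g = v),
      ENNReal.ofReal (ρ.ρ (lgy (g • z))) ≤ 2 := by
    intro v _
    refine he_line ρ hC z L _ (fun g hg => (hF g (Finset.mem_filter.mp hg).1).1)
      (fun g hg => (hF g (Finset.mem_filter.mp hg).1).2.2) fun g hg g' hg' => ?_
    have e1 : φ g = φ g' := (Finset.mem_filter.mp hg).2.trans (Finset.mem_filter.mp hg').2.symm
    obtain ⟨t, ht⟩ := hN1 _ (he_row g)
    obtain ⟨t', ht'⟩ := hN1 _ (he_row g')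
    refine ⟨t⁻¹ * t', ?_⟩
    have e2 : (t : K) • (g : Matrix (Fin 2) (Fin 2) K) 1 =
        (t' : K) • (g' : Matrix (Fin 2) (Fin 2) K) 1 := by
      rw [← ht, ← ht']
      exact e1
    rw [Units.val_mul, mul_smul, ← e2, smul_smul, ← Units.val_mul, inv_mul_cancel, Units.val_one,
      one_smul]
  have h3 : ((F'.image φ).card : ℝ) ≤ B := by
    refine hB _ ?_ ?_
    · intro v hv
      obtain ⟨g, hg, rfl⟩ := Finset.mem_image.mp hv
      obtain ⟨t, ht⟩ := hN1 _ (he_row g)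
      have hg' := hF g hg
      simp only [hφ]
      rw [ht]
      refine ⟨smul_ne_zero t.ne_zero (he_row g), ?_⟩
      rw [ht_scal t (he_row g), he_ht hg'.1]
      exact hg'.2.1
    · intro v hv v' hv' hne h0
      obtain ⟨g, hg, rfl⟩ := Finset.mem_image.mp hv
      obtain ⟨g', hg', rfl⟩ := Finset.mem_image.mp hv'
      exact hne (hN2 _ _ (he_row g) (he_row g') h0)
  rw [h1]
  refine (Finset.sum_le_sum h2).trans ?_
  rw [Finset.sum_const, nsmul_eq_mul]
  have h4 : (((F'.image φ).card : ℕ) : ℝ≥0∞) * 2 = ENNReal.ofReal (2 * ((F'.image φ).card : ℝ)) := by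
    rw [ENNReal.ofReal_mul (by norm_num), ENNReal.ofReal_natCast, mul_comm]
    norm_num
  rw [h4]
  exact ENNReal.ofReal_le_ofReal (by linarith)

theorem chi_sum (cu : Cusps K) {R0 : ℝ} (ρ : UW K R0) {C : Id K → Set (Em K → ℝ)}
    (hC : ∀ x, IsCell x (C x)) : ∃ C₁ : ℝ, 0 < C₁ ∧ ∀ (η : ℝ), 0 < η → η ≤ 1 → ∀ x : XX K,
    ∑' g : SL(2, K), chi cu ρ C η (g • x) ≤ ENNReal.ofReal (C₁ / η) := by
  classical
  have hfin : Finite (NCl K) := ncl_finite
  obtain ⟨C₀, hC₀, hlin⟩ := lines (K := K)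
  have hcard : 0 < (Nat.card (NCl K) : ℝ) := by
    exact_mod_cast Nat.card_pos
  refine ⟨Nat.card (NCl K) * (2 * C₀), by positivity, fun η hη hη1 x => ?_⟩
  have h1 : ∀ κ : NCl K, ∑' g : SL(2, K), (if (g • x).2 = cu.L κ ∧
      η < NY (g • x).1 * nI (cu.b κ / cu.a κ) ∧ rev (g • x).1 ∈ C (cu.x κ) then
        ENNReal.ofReal (ρ.ρ (lgy (g • x).1)) else 0) ≤ ENNReal.ofReal (2 * (C₀ / η)) := by
    intro κ
    refine he_one ρ (hC (cu.a κ / cu.b κ)) x.1 x.2 ?_
    intro s hs1 hs2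
    exact hlin x.1 x.2 η hη hη1 s hs1 hs2
  unfold chi
  rw [ENNReal.tsum_comm]
  let _ : Fintype (NCl K) := Fintype.ofFinite _
  rw [tsum_fintype]
  refine (Finset.sum_le_sum fun κ _ => h1 κ).trans ?_
  rw [Finset.sum_const, nsmul_eq_mul, Finset.card_univ, ← Nat.card_eq_fintype_card,
    ← ENNReal.ofReal_natCast, ← ENNReal.ofReal_mul (by positivity)]
  refine le_of_eq ?_
  congr 1
  ring

end tr4

end Pool.Agent.HSG
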