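import Pool.Agent.Lib_helper84.HSG.DefsB
import Pool.Agent.Lib_helper84.HSGF.GA3
import Pool.Agent.Lib_helper84.HSGF.GB1
import Pool.Agent.Lib_helper84.HSGF.GD1
import Pool.Agent.Lib_helper84.HSGF.GE1
import Pool.Agent.Lib_helper84.HSGF.GF2
import Pool.Agent.Lib_helper84.HSGF.GG
import Pool.Agent.Lib_helper84.HSGF.GJ1
import Pool.Agent.Lib_helper84.HSGF.GJ2
import Pool.Agent.Lib_helper84.HSGF.GL1
import Pool.Agent.Lib_helper84.HSGF.GL2
import Pool.Agent.Lib_helper84.HSGF.GP1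
import Pool.Agent.Lib_helper84.HSGF.GQ
import Pool.Agent.Lib_helper84.HSGF.GT
import Pool.Agent.Lib_helper84.HSGF.HC
import Pool.Agent.Lib_helper84.HSGF.HD
import Pool.Agent.Lib_helper84.HSGF.HE

/-! # Hilbert-Selberg, PART II, block HF: the large sieve for the coefficients of one form -/

set_option autoImplicit false

namespace Pool.Agent.HSG

open Complex MeasureTheory Filter Topology UpperHalfPlane NumberField IsDedekindDomain
open scoped nonZeroDivisors MatrixGroups ENNReal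

variable {K : Type} [Field K] [NumberField K]

section tr4
variable [IsTotallyReal K]

/-- the Petersson norm as a lower integral -/
theorem hf_pn (ω : ExW K) {k : ℕ} {F : (Em K → ℍ) → Lat K → ℂ} (hF : IsForm k F) :
    ENNReal.ofReal (pn ω k F) = ∑' κ : Gen K, ∫⁻ x in {x : XX K | x.2.det = κ.out},
      ENNReal.ofReal (ω.w x) * ‖PF k F x.1 x.2‖ₑ ^ 2 ∂(mu0 K) := by
  have hm := pf_meas hF
  obtain ⟨C, hC0, hC⟩ := pf_bdd hF
  have := mX_fin ω
  have h1 : Measurable (fun x : XX K => ‖PF k F x.1 x.2‖ₑ ^ 2) := hm.enorm.pow_const 2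
  rw [← mX_lint ω h1]
  unfold pn
  have hi : Integrable (fun x : XX K => ‖PF k F x.1 x.2‖ ^ 2) (mX ω) := by
    refine Integrable.mono' (integrable_const (C ^ 2)) (hm.norm.pow_const 2).aestronglyMeasurable
      (Eventually.of_forall fun x => ?_)
    rw [Real.norm_of_nonneg (by positivity)]
    exact pow_le_pow_left₀ (norm_nonneg _) (hC _ _) 2
  rw [ofReal_integral_eq_lintegral_ofReal hi (Eventually.of_forall fun x => by positivity)]
  refine lintegral_congr fun x => ?_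
  rw [ENNReal.ofReal_pow (norm_nonneg _), ofReal_norm]

omit [IsTotallyReal K] in
/-- exact weights as extended reals -/
theorem hf_ex (ω : ExW K) (x : XX K) : ∑' g : SL(2, K), ENNReal.ofReal (ω.w (g • x)) = 1 := by
  have h := ω.ex x
  rw [← ENNReal.ofReal_tsum_of_nonneg (fun g => ω.nn _) h.summable, h.tsum_eq, ENNReal.ofReal_one]

omit [IsTotallyReal K] in
theorem hf_detm (r : Id K) : MeasurableSet {x : XX K | x.2.det = r} :=
  measurable_snd (MeasurableSet.of_discrete (s := {L : Lat K | L.det = r}))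

/-- the upper bound: unfolding -/
theorem hf_up (cu : Cusps K) {R0 : ℝ} (ρ : UW K R0) {C : Id K → Set (Em K → ℝ)}
    (hC : ∀ x, IsCell x (C x)) (ω : ExW K) {k : ℕ} {F : (Em K → ℍ) → Lat K → ℂ}
    (hF : IsForm k F) {η B : ℝ}
    (hB : ∀ x : XX K, ∑' g : SL(2, K), chi cu ρ C η (g • x) ≤ ENNReal.ofReal B) :
    ∫⁻ x, chi cu ρ C η x * ‖PF k F x.1 x.2‖ₑ ^ 2 ∂(mu0 K) ≤
      ENNReal.ofReal B * ENNReal.ofReal (pn ω k F) := by
  have hcm := chi_meas cu ρ hC η
  have hpm : Measurable (fun x : XX K => ‖PF k F x.1 x.2‖ₑ ^ 2) := (pf_meas hF).enorm.pow_const 2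
  have hcp : Measurable (fun x : XX K => chi cu ρ C η x * ‖PF k F x.1 x.2‖ₑ ^ 2) := hcm.mul hpm
  have hfin : Finite (Gen K) := gen_finite
  have h1 : ∀ x : XX K, chi cu ρ C η x * ‖PF k F x.1 x.2‖ₑ ^ 2 ≤ ∑' g : Gen K,
      Set.indicator {x : XX K | x.2.det = g.out}
        (fun x => chi cu ρ C η x * ‖PF k F x.1 x.2‖ₑ ^ 2) x := by
    intro x
    by_cases h0 : chi cu ρ C η x = 0
    · rw [h0, zero_mul]
      exact zero_le
    · have h2 : ∃ κ, x.2 = cu.L κ := by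
        by_contra hcon
        push Not at hcon
        apply h0
        unfold chi
        rw [ENNReal.tsum_eq_zero]
        intro κ
        rw [if_neg]
        rintro ⟨h3, -⟩
        exact hcon κ h3
      obtain ⟨κ, hκ⟩ := h2
      obtain ⟨g, hg⟩ := cu.rr κ
      have h3 : x ∈ {x : XX K | x.2.det = g.out} := by
        show x.2.det = g.out
        rw [hκ, ← hg]
        exact det_ds _ _
      refine le_trans ?_ (ENNReal.le_tsum g)
      rw [Set.indicator_of_mem h3]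
  refine (lintegral_mono h1).trans ?_
  rw [lintegral_tsum (fun g => (hcp.indicator (hf_detm _)).aemeasurable), hf_pn ω hF,
    ← ENNReal.tsum_mul_left]
  refine ENNReal.tsum_le_tsum fun g => ?_
  rw [lintegral_indicator (hf_detm _)]
  have hwm : Measurable (fun x : XX K => ENNReal.ofReal (ω.w x)) := ω.meas.ennreal_ofReal
  rw [unf ((mu0 K).restrict {x | x.2.det = g.out}) (fun γ => mu0_restrict γ g.out) hpm hcm hwm
    (fun γ x => by
      have := pf_norm_act hF γ x.1 x.2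
      have h4 : ‖PF k F (γ • x).1 (γ • x).2‖ₑ = ‖PF k F x.1 x.2‖ₑ := by
        rw [← ofReal_norm, ← ofReal_norm]
        congr 1
      simp only [h4]) (fun x => hf_ex ω x)]
  have hwp : Measurable (fun x : XX K => ENNReal.ofReal (ω.w x) * ‖PF k F x.1 x.2‖ₑ ^ 2) :=
    hwm.mul hpm
  rw [← lintegral_const_mul _ hwp]
  refine lintegral_mono fun x => ?_
  rw [mul_comm (ENNReal.ofReal B)]
  exact mul_le_mul_right (hB x) _

omit [IsTotallyReal K] [NumberField K] in
theorem hf_slice {g : XX K → ℝ≥0∞} (hg : Measurable g) (L : Lat K) :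
    Measurable (fun z : Em K → ℍ => g (z, L)) := hg.comp (measurable_prodMk_right (y := L))

omit [IsTotallyReal K] in
theorem hf_mNY : Measurable (fun z : Em K → ℍ => NY z) := by
  unfold NY
  exact Finset.measurable_prod _ fun w _ => UpperHalfPlane.continuous_im.measurable.comp
    (measurable_pi_apply w)

omit [IsTotallyReal K] [NumberField K] in
theorem hf_mrev : Measurable (fun z : Em K → ℍ => rev z) :=
  measurable_pi_lambda _ fun w => UpperHalfPlane.continuous_re.measurable.comp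
    (measurable_pi_apply w)

omit [IsTotallyReal K] [NumberField K] in
theorem hf_mlgy : Measurable (fun z : Em K → ℍ => lgy z) :=
  measurable_pi_lambda _ fun w => (UpperHalfPlane.continuous_im.measurable.comp
    (measurable_pi_apply w)).log

omit [IsTotallyReal K] [NumberField K] [Field K] in
theorem hf_grp {G : Type} [Group G] (a m κ : G) : m = a * κ⁻¹ ↔ m⁻¹ * a = κ := by
  constructor
  · rintro rfl
    group
  · rintro rfl
    group

/-- the lower bound: Parseval -/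
theorem hf_low (cu : Cusps K) {R0 : ℝ} (ρ : UW K R0) {C : Id K → Set (Em K → ℝ)}
    (hC : ∀ x, IsCell x (C x)) {k : ℕ} (hk : 3 ≤ k) {F : (Em K → ℍ) → Lat K → ℂ} {A : Id K → ℂ}
    (hF : IsForm k F) (hA : IsCo k F A) {η : ℝ} (hη : 0 ≤ η) (s : Finset (Id K)) {c : ℝ≥0∞}
    (hc : ∀ m ∈ s, c ≤ PT (Em K) k (η * (4 * Real.pi) ^ dg K * nI m / dK K)) :
    ENNReal.ofReal (dK K ^ ((k : ℝ) - 1 / 2) * WA.omk k ^ dg K) *
      ∑ m ∈ s, ‖A m‖ₑ ^ 2 * ENNReal.ofReal (nI m ^ (-((k : ℝ) - 1))) * c ≤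
    ∫⁻ x, chi cu ρ C η x * ‖PF k F x.1 x.2‖ₑ ^ 2 ∂(mu0 K) := by
  classical
  have hcm := chi_meas cu ρ hC η
  have hpm : Measurable (fun x : XX K => ‖PF k F x.1 x.2‖ₑ ^ 2) := (pf_meas hF).enorm.pow_const 2
  have hcp : Measurable (fun x : XX K => chi cu ρ C η x * ‖PF k F x.1 x.2‖ₑ ^ 2) := hcm.mul hpm
  have hfin : Finite (NCl K) := ncl_finite
  -- the integral over one cusp
  have hsm : ∀ κ : NCl K, MeasurableSet {z : Em K → ℍ | η < NY z * nI (cu.b κ / cu.a κ) ∧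
      rev z ∈ C (cu.x κ)} := fun κ =>
    (measurableSet_lt measurable_const (hf_mNY.mul_const _)).inter (hf_mrev (hC _).meas)
  set Iκ : NCl K → ℝ≥0∞ := fun κ => ∫⁻ z in {z : Em K → ℍ | η < NY z * nI (cu.b κ / cu.a κ) ∧
      rev z ∈ C (cu.x κ)}, ENNReal.ofReal (ρ.ρ (lgy z)) * ‖PF k F z (cu.L κ)‖ₑ ^ 2 with hI
  have h1 : ∑' κ, Iκ κ ≤ ∫⁻ x, chi cu ρ C η x * ‖PF k F x.1 x.2‖ₑ ^ 2 ∂(mu0 K) := by
    rw [mu0_lint hcp]
    have hmt : ∀ (L : Lat K) (κ : NCl K), Measurable (fun z : Em K → ℍ =>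
        (if L = cu.L κ ∧ η < NY z * nI (cu.b κ / cu.a κ) ∧ rev z ∈ C (cu.x κ) then
          ENNReal.ofReal (ρ.ρ (lgy z)) else 0) * ‖PF k F z L‖ₑ ^ 2) := by
      intro L κ
      have hpz : Measurable (fun z : Em K → ℍ => ‖PF k F z L‖ₑ ^ 2) := hf_slice hpm L
      have hρz : Measurable (fun z : Em K → ℍ => ENNReal.ofReal (ρ.ρ (lgy z))) :=
        (ρ.meas.comp hf_mlgy).ennreal_ofReal
      have hset : MeasurableSet {z : Em K → ℍ | L = cu.L κ ∧
          η < NY z * nI (cu.b κ / cu.a κ) ∧ rev z ∈ C (cu.x κ)} := by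
        by_cases hL : L = cu.L κ
        · simpa only [hL, true_and] using hsm κ
        · simp only [hL, false_and]
          exact MeasurableSet.const False
      exact (Measurable.ite hset hρz measurable_const).mul hpz
    have h2 : ∀ L : Lat K, ∫⁻ z : Em K → ℍ, chi cu ρ C η (z, L) * ‖PF k F z L‖ₑ ^ 2 =
        ∑' κ : NCl K, ∫⁻ z : Em K → ℍ, (if L = cu.L κ ∧ η < NY z * nI (cu.b κ / cu.a κ) ∧
          rev z ∈ C (cu.x κ) then ENNReal.ofReal (ρ.ρ (lgy z)) else 0) * ‖PF k F z L‖ₑ ^ 2 := by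
      intro L
      rw [← lintegral_tsum (fun κ => (hmt L κ).aemeasurable)]
      refine lintegral_congr fun z => ?_
      rw [ENNReal.tsum_mul_right]
      rfl
    simp_rw [h2]
    rw [ENNReal.tsum_comm]
    refine ENNReal.tsum_le_tsum fun κ => ?_
    refine le_trans ?_ (ENNReal.le_tsum (cu.L κ))
    rw [hI]
    simp only
    rw [← lintegral_indicator (hsm κ)]
    refine lintegral_mono fun z => ?_
    by_cases hz : z ∈ {z : Em K → ℍ | η < NY z * nI (cu.b κ / cu.a κ) ∧ rev z ∈ C (cu.x κ)}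
    · rw [Set.indicator_of_mem hz, if_pos ⟨trivial, hz⟩]
    · rw [Set.indicator_of_notMem hz]
      exact zero_le
  refine le_trans ?_ h1
  set g : Id K → ℝ≥0∞ := fun m => ‖A m‖ₑ ^ 2 * ENNReal.ofReal (nI m ^ (-((k : ℝ) - 1))) *
    PT (Em K) k (η * (4 * Real.pi) ^ dg K * nI m / dK K) with hg
  have h3 : ∀ κ, Iκ κ = ENNReal.ofReal (dK K ^ ((k : ℝ) - 1 / 2) * WA.omk k ^ dg K) *
      ∑' m : {m : Id K // (QuotientGroup.mk m : NCl K) =
        QuotientGroup.mk (DD K * cu.a κ / cu.b κ)}, g m.1 := by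
    intro κ
    exact par_int hk hF hA (cu.b κ) (cu.a κ) ρ (hC (cu.x κ)) hη
  simp_rw [h3]
  rw [ENNReal.tsum_mul_left]
  refine mul_le_mul' le_rfl ?_
  set f : Id K → NCl K := fun m => (QuotientGroup.mk m)⁻¹ * QuotientGroup.mk (DD K) with hf
  have h4 : ∀ κ (m : Id K), (QuotientGroup.mk m : NCl K) =
      QuotientGroup.mk (DD K * cu.a κ / cu.b κ) ↔ f m = κ := by
    intro κ m
    have h5 : (QuotientGroup.mk (DD K * cu.a κ / cu.b κ) : NCl K) =
        QuotientGroup.mk (DD K) * κ⁻¹ := by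
      conv_rhs => rw [← cu.cls κ]
      rw [← QuotientGroup.mk_inv, ← QuotientGroup.mk_mul]
      congr 1
      rw [inv_div, mul_div_assoc]
    rw [h5]
    exact hf_grp _ _ _
  have h5 : ∑' κ, ∑' m : {m : Id K // (QuotientGroup.mk m : NCl K) =
        QuotientGroup.mk (DD K * cu.a κ / cu.b κ)}, g m.1 = ∑' m, g m := by
    rw [← (Equiv.sigmaFiberEquiv f).tsum_eq g, ENNReal.tsum_sigma']
    refine tsum_congr fun κ => ?_
    rw [← (Equiv.subtypeEquivRight (fun m => h4 κ m)).tsum_eq]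
    rfl
  rw [h5]
  refine le_trans (Finset.sum_le_sum fun m hm => ?_) (ENNReal.sum_le_tsum s)
  exact mul_le_mul_right (hc m hm) _

omit [IsTotallyReal K] [NumberField K] [Field K] in
theorem hf_omk {k : ℕ} (hk : 2 ≤ k) : 0 < WA.omk k := by
  unfold WA.omk
  have h1 : (1 : ℝ) ≤ (k : ℝ) - 1 := by
    have : (2 : ℝ) ≤ k := by exact_mod_cast hk
    linarith
  exact div_pos (Real.Gamma_pos_of_pos (by linarith)) (by positivity)

theorem ls_form (ω : ExW K) : ∃ (C : ℝ) (k₀ : ℕ), 0 < C ∧ ∀ k : ℕ, k₀ ≤ k →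
    ∀ {F : (Em K → ℍ) → Lat K → ℂ} {A : Id K → ℂ}, IsForm k F → IsCo k F A →
    ∀ (Y : ℝ) (s : Finset (Id K)), 0 ≤ Y → (∀ m ∈ s, IsInt m ∧ nI m ≤ Y) →
    ∑ m ∈ s, ‖A m‖ ^ 2 * nI m ^ (-((k : ℝ) - 1)) * (dK K ^ k * WA.omk k ^ dg K) ≤
      C * (1 + Y / (k : ℝ) ^ dg K) * pn ω k F := by
  classical
  obtain ⟨cu⟩ := cusps_exists (K := K)
  obtain ⟨ρ⟩ := uw_exists (K := K) 1
  choose C hC using fun x : Id K => cell_exists (K := K) x
  obtain ⟨C₁, hC₁, hsum⟩ := chi_sum cu ρ hC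
  have hcard : Fintype.card (Em K) = dg K := card_em
  have hdg := dg_pos (K := K)
  have hne : Nonempty (Em K) := by
    rw [← Fintype.card_pos_iff, hcard]
    omega
  obtain ⟨k₁, hk₁⟩ := pt_low (ι := Em K)
  have hD1 := dK_ge (K := K)
  have hD0 : 0 < dK K := by linarith
  set κ₀ : ℝ := dK K / (8 * Real.pi) ^ dg K with hκ₀
  have hκ0 : 0 < κ₀ := by positivity
  refine ⟨2 ^ dg K * dK K * C₁ * (1 + 1 / κ₀), max 3 k₁, by positivity,
    fun k hk F A hF hA Y s hY hs => ?_⟩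
  have hk3 : 3 ≤ k := (le_max_left _ _).trans hk
  have hkr : (3 : ℝ) ≤ k := by exact_mod_cast hk3
  have hkd : 1 ≤ (k : ℝ) ^ dg K := one_le_pow₀ (by linarith)
  set η : ℝ := min 1 (κ₀ * (k : ℝ) ^ dg K / (1 + Y)) with hη
  have hη0 : 0 < η := lt_min one_pos (by positivity)
  have hη1 : η ≤ 1 := min_le_left _ _
  have hη2 : η * (1 + Y) ≤ κ₀ * (k : ℝ) ^ dg K := by
    have h1 : η ≤ κ₀ * (k : ℝ) ^ dg K / (1 + Y) := min_le_right _ _
    rwa [le_div_iff₀ (by linarith)] at h1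
  have hηi : 1 / η ≤ (1 + 1 / κ₀) * (1 + Y / (k : ℝ) ^ dg K) := by
    have hY' : 0 ≤ Y / (k : ℝ) ^ dg K := by positivity
    have hκi : 0 ≤ 1 / κ₀ := by positivity
    rcases min_choice 1 (κ₀ * (k : ℝ) ^ dg K / (1 + Y)) with h | h
    · rw [hη, h]
      nlinarith
    · rw [hη, h, one_div_div]
      have h1 : (1 + Y) / (κ₀ * (k : ℝ) ^ dg K) = 1 / κ₀ * (1 / (k : ℝ) ^ dg K +
          Y / (k : ℝ) ^ dg K) := by
        field_simp
      rw [h1]
      have h2 : 1 / (k : ℝ) ^ dg K ≤ 1 := by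
        rw [div_le_one (by linarith)]
        exact hkd
      have h3 : 1 / κ₀ * (1 / (k : ℝ) ^ dg K + Y / (k : ℝ) ^ dg K) ≤
          1 / κ₀ * (1 + Y / (k : ℝ) ^ dg K) := by gcongr
      nlinarith
  have hup := hf_up cu ρ hC ω hF (fun x => hsum η hη0 hη1 x)
  have hlow := hf_low cu ρ hC hk3 hF hA hη0.le s (c := ENNReal.ofReal ((1 / 2) ^ dg K))
    (fun m hm => by
      have h1 := hk₁ k ((le_max_right _ _).trans hk)
        (η * (4 * Real.pi) ^ dg K * nI m / dK K) (by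
          rw [hcard, div_le_iff₀ hD0]
          have h2 : η * nI m ≤ κ₀ * (k : ℝ) ^ dg K := by
            have h3 : η * nI m ≤ η * (1 + Y) := by
              have := (hs m hm).2
              gcongr
              linarith
            exact h3.trans hη2
          have h4 : κ₀ * (k : ℝ) ^ dg K * (4 * Real.pi) ^ dg K =
              ((k : ℝ) / 2) ^ dg K * dK K := by
            rw [hκ₀, show (8 : ℝ) * Real.pi = 2 * (4 * Real.pi) by ring, mul_pow, div_pow]
            have : (4 * Real.pi) ^ dg K ≠ 0 := by positivity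
            field_simp
          have h5 : η * nI m * (4 * Real.pi) ^ dg K ≤
              κ₀ * (k : ℝ) ^ dg K * (4 * Real.pi) ^ dg K := by gcongr
          rw [h4] at h5
          linarith)
      rw [hcard] at h1
      exact h1)
  have hall := hlow.trans hup
  have hom : 0 < WA.omk k ^ dg K := pow_pos (hf_omk (k := k) (by omega)) _
  have hpn := pn_nonneg ω k F
  -- to real numbers
  have h6 : ENNReal.ofReal (dK K ^ ((k : ℝ) - 1 / 2) * WA.omk k ^ dg K) *
      ∑ m ∈ s, ‖A m‖ₑ ^ 2 * ENNReal.ofReal (nI m ^ (-((k : ℝ) - 1))) *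
        ENNReal.ofReal ((1 / 2) ^ dg K) =
      ENNReal.ofReal (dK K ^ ((k : ℝ) - 1 / 2) * WA.omk k ^ dg K *
        ∑ m ∈ s, ‖A m‖ ^ 2 * nI m ^ (-((k : ℝ) - 1)) * (1 / 2) ^ dg K) := by
    conv_rhs => rw [ENNReal.ofReal_mul (by positivity), ENNReal.ofReal_sum_of_nonneg (fun m _ => by
      have := nI_pos m
      positivity)]
    congr 1
    refine Finset.sum_congr rfl fun m _ => ?_
    have := nI_pos m
    rw [ENNReal.ofReal_mul (by positivity), ENNReal.ofReal_mul (by positivity),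
      ENNReal.ofReal_pow (norm_nonneg _), ofReal_norm]
  rw [h6, ← ENNReal.ofReal_mul (by positivity), ENNReal.ofReal_le_ofReal_iff (by positivity)]
    at hall
  -- the powers of the discriminant
  have h7 : dK K ^ k ≤ dK K * dK K ^ ((k : ℝ) - 1 / 2) := by
    have h8 : dK K * dK K ^ ((k : ℝ) - 1 / 2) = dK K ^ ((k : ℝ) + 1 / 2) := by
      nth_rw 1 [← Real.rpow_one (dK K)]
      rw [← Real.rpow_add hD0]
      congr 1
      ring
    rw [h8, ← Real.rpow_natCast]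
    exact Real.rpow_le_rpow_of_exponent_le hD1 (by linarith)
  set S := ∑ m ∈ s, ‖A m‖ ^ 2 * nI m ^ (-((k : ℝ) - 1)) with hS
  have hS0 : 0 ≤ S := Finset.sum_nonneg fun m _ => by
    have := nI_pos m
    positivity
  have h9 : ∑ m ∈ s, ‖A m‖ ^ 2 * nI m ^ (-((k : ℝ) - 1)) * (1 / 2) ^ dg K = S * (1 / 2) ^ dg K := by
    rw [hS, Finset.sum_mul]
  rw [h9] at hall
  rw [← Finset.sum_mul, ← hS]
  have h10 : S * (dK K ^ k * WA.omk k ^ dg K) ≤
      2 ^ dg K * dK K * (dK K ^ ((k : ℝ) - 1 / 2) * WA.omk k ^ dg K * (S * (1 / 2) ^ dg K)) := by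
    have h11 : (2 : ℝ) ^ dg K * (1 / 2) ^ dg K = 1 := by
      rw [← mul_pow]
      norm_num
    calc S * (dK K ^ k * WA.omk k ^ dg K) ≤
          S * (dK K * dK K ^ ((k : ℝ) - 1 / 2) * WA.omk k ^ dg K) := by gcongr
      _ = (2 ^ dg K * (1 / 2) ^ dg K) * (S * (dK K * dK K ^ ((k : ℝ) - 1 / 2) *
            WA.omk k ^ dg K)) := by rw [h11, one_mul]
      _ = _ := by ring
  have h12 : C₁ / η ≤ C₁ * ((1 + 1 / κ₀) * (1 + Y / (k : ℝ) ^ dg K)) := by
    rw [div_eq_mul_one_div]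
    exact mul_le_mul_of_nonneg_left hηi hC₁.le
  calc S * (dK K ^ k * WA.omk k ^ dg K) ≤
        2 ^ dg K * dK K * (dK K ^ ((k : ℝ) - 1 / 2) * WA.omk k ^ dg K *
          (S * (1 / 2) ^ dg K)) := h10
    _ ≤ 2 ^ dg K * dK K * (C₁ / η * pn ω k F) := by gcongr
    _ ≤ 2 ^ dg K * dK K * (C₁ * ((1 + 1 / κ₀) * (1 + Y / (k : ℝ) ^ dg K)) * pn ω k F) := by
        gcongr
    _ = _ := by ring

theorem pn_pos (ω : ExW K) : ∃ k₀ : ℕ, ∀ k : ℕ, k₀ ≤ k → ∀ {F : (Em K → ℍ) → Lat K → ℂ},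
    IsForm k F → (∃ z L, F z L ≠ 0) → 0 < pn ω k F := by
  obtain ⟨C, k₀, hC, h⟩ := ls_form ω
  refine ⟨max 2 k₀, fun k hk F hF hne => ?_⟩
  have hk2 : 2 ≤ k := (le_max_left _ _).trans hk
  obtain ⟨A, hA⟩ := co_exists (by omega) hF
  obtain ⟨z, L, hzL⟩ := hne
  have h1 : ∃ m, A m ≠ 0 := by
    by_contra hcon
    push Not at hcon
    have h2 : A = 0 := funext hcon
    rw [h2] at hA
    exact hzL (co_inj hF hA z L)
  obtain ⟨m, hm⟩ := h1
  have hint : IsInt m := by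
    by_contra hcon
    exact hm (hA.int m hcon)
  have hn := nI_pos m
  have h3 := h k ((le_max_right _ _).trans hk) hF hA (nI m) {m} hn.le
    (fun m' hm' => by
      rw [Finset.mem_singleton] at hm'
      rw [hm']
      exact ⟨hint, le_rfl⟩)
  rw [Finset.sum_singleton] at h3
  have hD1 := dK_ge (K := K)
  have hD0 : 0 < dK K := by linarith
  have hom : 0 < WA.omk k ^ dg K := pow_pos (hf_omk hk2) _
  have hA0 : 0 < ‖A m‖ := norm_pos_iff.2 hm
  have hkp : (0 : ℝ) < k := by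
    have : (2 : ℝ) ≤ k := by exact_mod_cast hk2
    linarith
  have h4 : 0 < ‖A m‖ ^ 2 * nI m ^ (-((k : ℝ) - 1)) * (dK K ^ k * WA.omk k ^ dg K) := by
    positivity
  by_contra hcon
  push Not at hcon
  have h5 : C * (1 + nI m / (k : ℝ) ^ dg K) * pn ω k F ≤ 0 :=
    mul_nonpos_of_nonneg_of_nonpos (by positivity) hcon
  linarith


end tr4

end Pool.Agent.HSG
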