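import Pool.Agent.Lib_helper84.HSG.DefsB
import Pool.Agent.Lib_helper84.HSGF.GA3
import Pool.Agent.Lib_helper84.HSGF.GB1
import Pool.Agent.Lib_helper84.HSGF.GD1
import Pool.Agent.Lib_helper84.HSGF.GE1
import Pool.Agent.Lib_helper84.HSGF.GF1
import Pool.Agent.Lib_helper84.HSGF.GF2
import Pool.Agent.Lib_helper84.HSGF.GG
import Pool.Agent.Lib_helper84.HSGF.GH
import Pool.Agent.Lib_helper84.HSGF.GI3
import Pool.Agent.Lib_helper84.HSGF.GJ1
import Pool.Agent.Lib_helper84.HSGF.GP1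
import Pool.Agent.Lib_helper84.HSGF.GQ
import Pool.Agent.Lib_helper84.HSGF.GR1
import Pool.Agent.Lib_helper84.HSGF.HC
import Pool.Agent.Lib_helper84.HSGF.HD
import Pool.Agent.Lib_helper45.HSF.KI
import Pool.Agent.Lib_helper45.HSF.P1

/-! # HSG block HG (PNF): the upper bound for the norm -/

namespace Pool.Agent.HSG

open Complex MeasureTheory Filter Topology UpperHalfPlane NumberField IsDedekindDomain
open scoped nonZeroDivisors MatrixGroups ENNReal

variable {K : Type} [Field K] [NumberField K]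

section tr4

/-- the terms of the sum -/
noncomputable def hg_t (k : ℕ) (A : Id K → ℂ) (m : Id K) : ℝ :=
  ‖A m‖ ^ 2 * nI m ^ (-((k : ℝ) - 1)) * min 1 (((k : ℝ) ^ dg K / nI m) ^ 6)

theorem hg_t_nonneg (k : ℕ) (A : Id K → ℂ) (m : Id K) : 0 ≤ hg_t k A m := by
  have := nI_pos m
  unfold hg_t
  positivity

open scoped Classical in
theorem hg_sum5 : Summable (fun m : Id K => if IsInt m then nI m ^ (-(5 : ℝ)) else 0) := by
  have h1 := HS.sum_nrm (HS.PK K) (s := 5) (by norm_num)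
  have h2 : (fun m : Id K => if IsInt m then nI m ^ (-(5 : ℝ)) else 0) ∘ (HS.idl (K := K)) =
      fun m : Pr K →₀ ℕ => ((HS.PK K).nrm m : ℝ) ^ (-(5 : ℝ)) := by
    funext m
    simp only [Function.comp_apply, if_pos (idl_int m), nI_idl]
  rw [← h2] at h1
  refine (HS.idl_inj.summable_iff ?_).mp h1
  intro m hm
  rw [if_neg]
  intro hi
  obtain ⟨f, hf⟩ := idl_sur hi
  exact hm ⟨f, hf⟩

theorem hg_summable {k : ℕ} {F : (Em K → ℍ) → Lat K → ℂ} {A : Id K → ℂ}
    (hA : IsCo k F A) : Summable (hg_t k A) := by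
  classical
  obtain ⟨C, hC⟩ := hA.growth
  refine Summable.of_nonneg_of_le (hg_t_nonneg k A) (fun m => ?_)
    ((hg_sum5 (K := K)).mul_left (C ^ 2 * ((k : ℝ) ^ dg K) ^ 6))
  have hN := nI_pos m
  by_cases hm : IsInt m
  · rw [if_pos hm]
    have h1 : ‖A m‖ ^ 2 ≤ C ^ 2 * nI m ^ (k : ℝ) := by
      calc ‖A m‖ ^ 2 ≤ (C * nI m ^ ((k : ℝ) / 2)) ^ 2 :=
            pow_le_pow_left₀ (norm_nonneg _) (hC m) 2
        _ = C ^ 2 * nI m ^ (k : ℝ) := by
            rw [mul_pow, ← Real.rpow_natCast (nI m ^ ((k : ℝ) / 2)) 2, ← Real.rpow_mul hN.le]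
            congr 2
            push_cast
            ring
    have h2 : nI m ^ (k : ℝ) * nI m ^ (-((k : ℝ) - 1)) = nI m := by
      rw [← Real.rpow_add hN]
      conv_rhs => rw [← Real.rpow_one (nI m)]
      congr 1
      ring
    have h3 : nI m * (nI m ^ 6)⁻¹ = nI m ^ (-(5 : ℝ)) := by
      rw [Real.rpow_neg hN.le, show (5 : ℝ) = ((5 : ℕ) : ℝ) by norm_num, Real.rpow_natCast]
      field_simp
    unfold hg_t
    calc ‖A m‖ ^ 2 * nI m ^ (-((k : ℝ) - 1)) * min 1 (((k : ℝ) ^ dg K / nI m) ^ 6)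
        ≤ (C ^ 2 * nI m ^ (k : ℝ)) * nI m ^ (-((k : ℝ) - 1)) *
          (((k : ℝ) ^ dg K / nI m) ^ 6) := by
          refine mul_le_mul (mul_le_mul_of_nonneg_right h1 (by positivity)) (min_le_right _ _)
            (by positivity) (by positivity)
      _ = C ^ 2 * ((k : ℝ) ^ dg K) ^ 6 *
          ((nI m ^ (k : ℝ) * nI m ^ (-((k : ℝ) - 1))) * (nI m ^ 6)⁻¹) := by
          rw [div_pow, div_eq_mul_inv]; ring
      _ = _ := by rw [h2, h3]
  · rw [if_neg hm, mul_zero]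
    unfold hg_t
    rw [hA.int m hm]
    simp

/-- the reduced points -/
def hg_B (η R0 : ℝ) (C : Id K → Set (Em K → ℝ)) (a : Id K) : Set (XX K) :=
  {x | x.2 = Lat.ds (x.2.det / a) a ∧ η ≤ NY x.1 * nI (x.2.det / a / a) ∧
    rev x.1 ∈ C (a / (x.2.det / a)) ∧
    ∀ w, |lgy x.1 w - (∑ v, lgy x.1 v) / (dg K : ℝ)| ≤ R0}

/-- the same for a fixed lattice -/
def hg_R (η R0 : ℝ) (C : Id K → Set (Em K → ℝ)) (a b : Id K) : Set (Em K → ℍ) :=
  {z | η ≤ NY z * nI (b / a) ∧ rev z ∈ C (a / b) ∧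
    ∀ w, |lgy z w - (∑ v, lgy z v) / (dg K : ℝ)| ≤ R0}

theorem hg_meas_NY : Measurable (NY : (Em K → ℍ) → ℝ) := by
  unfold NY
  refine Finset.measurable_fun_prod _ fun w _ => ?_
  exact UpperHalfPlane.continuous_im.measurable.comp (measurable_pi_apply w)

theorem hg_meas_rev : Measurable (rev : (Em K → ℍ) → Em K → ℝ) := by
  refine measurable_pi_lambda _ fun w => ?_
  exact UpperHalfPlane.continuous_re.measurable.comp (measurable_pi_apply w)

theorem hg_meas_lgy (w : Em K) : Measurable (fun z : Em K → ℍ => lgy z w) := by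
  exact Real.measurable_log.comp
    (UpperHalfPlane.continuous_im.measurable.comp (measurable_pi_apply w))

theorem hg_R_meas (η R0 : ℝ) {C : Id K → Set (Em K → ℝ)} (hC : ∀ x, IsCell x (C x))
    (a b : Id K) : MeasurableSet (hg_R η R0 C a b) := by
  refine MeasurableSet.inter ?_ (MeasurableSet.inter ?_ ?_)
  · exact measurableSet_le measurable_const (hg_meas_NY.mul_const _)
  · exact hg_meas_rev (hC _).meas
  · have : {z : Em K → ℍ | ∀ w, |lgy z w - (∑ v, lgy z v) / (dg K : ℝ)| ≤ R0} =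
        ⋂ w, {z : Em K → ℍ | |lgy z w - (∑ v, lgy z v) / (dg K : ℝ)| ≤ R0} := by
      ext z; simp
    have h2 : MeasurableSet {z : Em K → ℍ | ∀ w, |lgy z w - (∑ v, lgy z v) / (dg K : ℝ)| ≤
        R0} := by
      rw [this]
      refine MeasurableSet.iInter fun w => measurableSet_le ?_ measurable_const
      exact ((hg_meas_lgy w).sub ((Finset.measurable_fun_sum _ fun v _ =>
        hg_meas_lgy v).div_const _)).abs
    exact h2

theorem hg_B_eq (η R0 : ℝ) (C : Id K → Set (Em K → ℝ)) (a : Id K) :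
    hg_B η R0 C a = ⋃ L : Lat K, {z | L = Lat.ds (L.det / a) a ∧
      z ∈ hg_R η R0 C a (L.det / a)} ×ˢ {L} := by
  ext ⟨z, L⟩
  simp only [hg_B, hg_R, Set.mem_iUnion, Set.mem_prod, Set.mem_singleton_iff, Set.mem_setOf_eq]
  constructor
  · intro h
    exact ⟨L, h, rfl⟩
  · rintro ⟨L', h, rfl⟩
    exact h

theorem hg_B_meas (η R0 : ℝ) {C : Id K → Set (Em K → ℝ)} (hC : ∀ x, IsCell x (C x))
    (a : Id K) : MeasurableSet (hg_B η R0 C a) := by
  rw [hg_B_eq]
  refine MeasurableSet.iUnion fun L => MeasurableSet.prod ?_ (measurableSet_singleton L)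
  by_cases h : L = Lat.ds (L.det / a) a
  · have : {z | L = Lat.ds (L.det / a) a ∧ z ∈ hg_R η R0 C a (L.det / a)} =
        hg_R η R0 C a (L.det / a) := by
      ext z
      exact ⟨fun h1 => h1.2, fun h1 => ⟨h, h1⟩⟩
    rw [this]
    exact hg_R_meas η R0 hC a _
  · have : {z | L = Lat.ds (L.det / a) a ∧ z ∈ hg_R η R0 C a (L.det / a)} = ∅ := by
      ext z
      exact ⟨fun h1 => (h h1.1).elim, fun h1 => h1.elim⟩
    rw [this]
    exact MeasurableSet.empty

theorem hg_det_meas (r : Id K) : MeasurableSet {x : XX K | x.2.det = r} :=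
  measurable_snd (show MeasurableSet {L : Lat K | L.det = r} from trivial)

variable [IsTotallyReal K]

/-- `PT` in terms of `min` -/
theorem hg_PT {η : ℝ} (hη : 0 < η) {k : ℕ} (hk : 8 ≤ k) (m : Id K) :
    PT (Em K) k (η / 2 * (4 * Real.pi) ^ dg K * nI m / dK K) ≤
      ENNReal.ofReal ((1 + (2 ^ dg K * dK K / (η / 2 * (4 * Real.pi) ^ dg K)) ^ 6) *
        min 1 (((k : ℝ) ^ dg K / nI m) ^ 6)) := by
  have hN := nI_pos m
  have hD : 1 ≤ dK K := dK_ge
  have hpi := Real.pi_pos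
  have hx : 0 < η / 2 * (4 * Real.pi) ^ dg K * nI m / dK K := by positivity
  obtain ⟨h1, h2⟩ := pt_up (ι := Em K) hk hx
  rcases le_total 1 (((k : ℝ) ^ dg K / nI m) ^ 6) with h | h
  · rw [min_eq_left h]
    refine h1.trans ?_
    rw [← ENNReal.ofReal_one]
    refine ENNReal.ofReal_le_ofReal ?_
    have : 0 ≤ (2 ^ dg K * dK K / (η / 2 * (4 * Real.pi) ^ dg K)) ^ 6 := by positivity
    linarith
  · rw [min_eq_right h]
    refine h2.trans (ENNReal.ofReal_le_ofReal ?_)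
    rw [card_em]
    have e : ((2 * (k : ℝ)) ^ dg K / (η / 2 * (4 * Real.pi) ^ dg K * nI m / dK K)) ^ 6 =
        (2 ^ dg K * dK K / (η / 2 * (4 * Real.pi) ^ dg K)) ^ 6 *
          ((k : ℝ) ^ dg K / nI m) ^ 6 := by
      rw [← mul_pow, mul_pow 2 (k : ℝ)]
      congr 1
      field_simp
    rw [e]
    refine mul_le_mul_of_nonneg_right ?_ (by positivity)
    linarith

/-- the contribution of one cusp -/
theorem hg_cusp {η : ℝ} (hη : 0 < η) {R0 : ℝ} (ρ : UW K R0) {C : Id K → Set (Em K → ℝ)}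
    (hC : ∀ x, IsCell x (C x)) {k : ℕ} (hk : 8 ≤ k) {F : (Em K → ℍ) → Lat K → ℂ}
    {A : Id K → ℂ} (hF : IsForm k F) (hA : IsCo k F A) (a b : Id K) :
    ∫⁻ z in hg_R η R0 C a b, ‖PF k F z (Lat.ds b a)‖ₑ ^ 2 ≤
      ENNReal.ofReal (ρ.c⁻¹ * (dK K ^ k * WA.omk k ^ dg K) *
        ((1 + (2 ^ dg K * dK K / (η / 2 * (4 * Real.pi) ^ dg K)) ^ 6) *
          ∑' m : Id K, hg_t k A m)) := by
  have hD : 1 ≤ dK K := dK_ge
  have hc := ρ.cpos
  have homk : 0 < WA.omk k := by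
    unfold WA.omk
    have : (8 : ℝ) ≤ k := by exact_mod_cast hk
    have h1 : 0 < Real.Gamma ((k : ℝ) - 1) := Real.Gamma_pos_of_pos (by linarith)
    have := Real.pi_pos
    positivity
  set c2 : ℝ := 1 + (2 ^ dg K * dK K / (η / 2 * (4 * Real.pi) ^ dg K)) ^ 6 with hc2
  have hpi := Real.pi_pos
  have hc2pos : 0 < c2 := by positivity
  -- step 1
  have h1 : ∫⁻ z in hg_R η R0 C a b, ‖PF k F z (Lat.ds b a)‖ₑ ^ 2 ≤
      ENNReal.ofReal ρ.c⁻¹ * ∫⁻ z in {z : Em K → ℍ | η / 2 < NY z * nI (b / a) ∧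
        rev z ∈ C (a / b)}, ENNReal.ofReal (ρ.ρ (lgy z)) * ‖PF k F z (Lat.ds b a)‖ₑ ^ 2 := by
    rw [← lintegral_const_mul' _ _ ENNReal.ofReal_ne_top]
    refine (setLIntegral_mono' (hg_R_meas η R0 hC a b) (g := fun z => ENNReal.ofReal ρ.c⁻¹ *
      (ENNReal.ofReal (ρ.ρ (lgy z)) * ‖PF k F z (Lat.ds b a)‖ₑ ^ 2)) ?_).trans ?_
    · intro z hz
      rw [← mul_assoc, ← ENNReal.ofReal_mul (by positivity)]
      have h2 : 1 ≤ ENNReal.ofReal (ρ.c⁻¹ * ρ.ρ (lgy z)) := by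
        rw [← ENNReal.ofReal_one]
        refine ENNReal.ofReal_le_ofReal ?_
        have h3 := ρ.low (lgy z) hz.2.2
        rw [← div_eq_inv_mul, le_div_iff₀ hc]
        linarith
      calc ‖PF k F z (Lat.ds b a)‖ₑ ^ 2 = 1 * ‖PF k F z (Lat.ds b a)‖ₑ ^ 2 := (one_mul _).symm
        _ ≤ _ := mul_le_mul_left h2 _
    · refine lintegral_mono_set ?_
      intro z hz
      exact ⟨lt_of_lt_of_le (by linarith) hz.1, hz.2.1⟩
  -- step 2
  have h2 := par_int (by omega) hF hA b a ρ (hC (a / b)) (η := η / 2) (by linarith)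
  rw [h2] at h1
  refine h1.trans ?_
  -- step 3
  have h3 : ∑' m : {m : Id K // (QuotientGroup.mk m : NCl K) = QuotientGroup.mk (DD K * a / b)},
      ‖A m.1‖ₑ ^ 2 * ENNReal.ofReal (nI m.1 ^ (-((k : ℝ) - 1))) *
        PT (Em K) k (η / 2 * (4 * Real.pi) ^ dg K * nI m.1 / dK K) ≤
      ENNReal.ofReal (c2 * ∑' m : Id K, hg_t k A m) := by
    calc _ ≤ ∑' m : {m : Id K // (QuotientGroup.mk m : NCl K) =
          QuotientGroup.mk (DD K * a / b)}, ENNReal.ofReal (c2 * hg_t k A m.1) := by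
          refine ENNReal.tsum_le_tsum fun m => ?_
          have hN := nI_pos m.1
          calc ‖A m.1‖ₑ ^ 2 * ENNReal.ofReal (nI m.1 ^ (-((k : ℝ) - 1))) *
                PT (Em K) k (η / 2 * (4 * Real.pi) ^ dg K * nI m.1 / dK K)
              ≤ ‖A m.1‖ₑ ^ 2 * ENNReal.ofReal (nI m.1 ^ (-((k : ℝ) - 1))) *
                ENNReal.ofReal (c2 * min 1 (((k : ℝ) ^ dg K / nI m.1) ^ 6)) :=
                mul_le_mul_right (hg_PT hη hk m.1) _
            _ = ENNReal.ofReal (c2 * hg_t k A m.1) := by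
                rw [← ofReal_norm, ← ENNReal.ofReal_pow (norm_nonneg _),
                  ← ENNReal.ofReal_mul (by positivity), ← ENNReal.ofReal_mul (by positivity)]
                congr 1
                unfold hg_t
                ring
      _ ≤ ∑' m : Id K, ENNReal.ofReal (c2 * hg_t k A m) :=
          ENNReal.tsum_comp_le_tsum_of_injective Subtype.val_injective
            (fun m : Id K => ENNReal.ofReal (c2 * hg_t k A m))
      _ = ENNReal.ofReal (∑' m : Id K, c2 * hg_t k A m) := by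
          rw [ENNReal.ofReal_tsum_of_nonneg (fun m => mul_nonneg hc2pos.le (hg_t_nonneg k A m))
            ((hg_summable hA).mul_left c2)]
      _ = _ := by rw [tsum_mul_left]
  have hS : 0 ≤ ∑' m : Id K, hg_t k A m := tsum_nonneg (hg_t_nonneg k A)
  calc ENNReal.ofReal ρ.c⁻¹ * (ENNReal.ofReal (dK K ^ ((k : ℝ) - 1 / 2) * WA.omk k ^ dg K) *
        ∑' m : {m : Id K // (QuotientGroup.mk m : NCl K) = QuotientGroup.mk (DD K * a / b)},
          ‖A m.1‖ₑ ^ 2 * ENNReal.ofReal (nI m.1 ^ (-((k : ℝ) - 1))) *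
            PT (Em K) k (η / 2 * (4 * Real.pi) ^ dg K * nI m.1 / dK K))
      ≤ ENNReal.ofReal ρ.c⁻¹ * (ENNReal.ofReal (dK K ^ k * WA.omk k ^ dg K) *
        ENNReal.ofReal (c2 * ∑' m : Id K, hg_t k A m)) := by
        refine mul_le_mul_right (mul_le_mul' (ENNReal.ofReal_le_ofReal ?_) h3) _
        refine mul_le_mul_of_nonneg_right ?_ (by positivity)
        rw [← Real.rpow_natCast (dK K) k]
        exact Real.rpow_le_rpow_of_exponent_le hD (by linarith)
    _ = _ := by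
        rw [← ENNReal.ofReal_mul (by positivity), ← ENNReal.ofReal_mul (by positivity)]
        congr 1
        ring

/-- the contribution of the lattices of determinant `r` -/
theorem hg_det (ω : ExW K) {η : ℝ} {R0 : ℝ} {C : Id K → Set (Em K → ℝ)}
    (hC : ∀ x, IsCell x (C x)) (Al : Finset (Id K)) {k : ℕ}
    (hred : ∀ (z : Em K → ℍ) (L : Lat K), ∃ g : SL(2, K), ∃ a ∈ Al,
      g • L = Lat.ds (L.det / a) a ∧
      η ≤ NY (g • z) * nI (L.det / a / a) ∧ rev (g • z) ∈ C (a / (L.det / a)) ∧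
      ∀ w, |lgy (g • z) w - (∑ v, lgy (g • z) v) / (dg K : ℝ)| ≤ R0)
    {F : (Em K → ℍ) → Lat K → ℂ} (hF : IsForm k F) {B : ℝ≥0∞}
    (hB : ∀ a ∈ Al, ∀ b : Id K,
      ∫⁻ z in hg_R η R0 C a b, ‖PF k F z (Lat.ds b a)‖ₑ ^ 2 ≤ B) (r : Id K) :
    ∫⁻ x in {x : XX K | x.2.det = r},
      ENNReal.ofReal (ω.w x) * ‖PF k F x.1 x.2‖ₑ ^ 2 ∂(mu0 K) ≤ Al.card * B := by
  classical
  set h : XX K → ℝ≥0∞ := fun x => ‖PF k F x.1 x.2‖ₑ ^ 2 with hh
  have hhm : Measurable h := (pf_meas hF).enorm.pow_const 2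
  set χ : XX K → ℝ≥0∞ := fun x => ∑ a ∈ Al, (hg_B η R0 C a).indicator 1 x with hχ
  have hχm : Measurable χ := Finset.measurable_fun_sum _ fun a _ =>
    (measurable_one).indicator (hg_B_meas η R0 hC a)
  have hwm : Measurable (fun x => ENNReal.ofReal (ω.w x)) := ω.meas.ennreal_ofReal
  have hunf := unf ((mu0 K).restrict {x | x.2.det = r}) (fun g => mu0_restrict g r) hhm hχm hwm
    (by
      intro g x
      show ‖PF k F (g • x.1) (g • x.2)‖ₑ ^ 2 = ‖PF k F x.1 x.2‖ₑ ^ 2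
      rw [← ofReal_norm, pf_norm_act hF, ofReal_norm])
    (by
      intro x
      have h1 := ω.ex x
      rw [← ENNReal.ofReal_tsum_of_nonneg (fun g => ω.nn _) h1.summable, h1.tsum_eq,
        ENNReal.ofReal_one])
  have h1 : ∫⁻ x in {x : XX K | x.2.det = r}, ENNReal.ofReal (ω.w x) * h x ∂(mu0 K) ≤
      ∫⁻ x in {x : XX K | x.2.det = r}, χ x * h x ∂(mu0 K) := by
    rw [hunf]
    refine lintegral_mono fun x => ?_
    obtain ⟨g, a, ha, e1, e2, e3, e4⟩ := hred x.1 x.2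
    have h2 : g • x ∈ hg_B η R0 C a := by
      have hd : (g • x.2).det = x.2.det := det_act g x.2
      refine ⟨?_, ?_, ?_, ?_⟩
      · show g • x.2 = Lat.ds ((g • x.2).det / a) a
        rw [hd]; exact e1
      · show η ≤ NY (g • x.1) * nI ((g • x.2).det / a / a)
        rw [hd]; exact e2
      · show rev (g • x.1) ∈ C (a / ((g • x.2).det / a))
        rw [hd]; exact e3
      · exact e4
    have h3 : 1 ≤ χ (g • x) := by
      calc (1 : ℝ≥0∞) = (hg_B η R0 C a).indicator 1 (g • x) := by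
            rw [Set.indicator_of_mem h2]; rfl
        _ ≤ χ (g • x) := Finset.single_le_sum (f := fun a => (hg_B η R0 C a).indicator
            (1 : XX K → ℝ≥0∞) (g • x)) (fun _ _ => zero_le) ha
    have h4 : 1 ≤ ∑' g : SL(2, K), χ (g • x) := h3.trans (ENNReal.le_tsum g)
    calc ENNReal.ofReal (ω.w x) * h x = ENNReal.ofReal (ω.w x) * h x * 1 := (mul_one _).symm
      _ ≤ _ := mul_le_mul_right h4 _
  refine h1.trans ?_
  have h5 : ∀ x, χ x * h x = ∑ a ∈ Al, (hg_B η R0 C a).indicator h x := by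
    intro x
    rw [hχ]
    simp only [Finset.sum_mul]
    refine Finset.sum_congr rfl fun a _ => ?_
    by_cases hx : x ∈ hg_B η R0 C a
    · rw [Set.indicator_of_mem hx, Set.indicator_of_mem hx]; simp
    · rw [Set.indicator_of_notMem hx, Set.indicator_of_notMem hx]; simp
  simp only [h5]
  rw [lintegral_finsetSum' _ (fun a _ => (hhm.indicator (hg_B_meas η R0 hC a)).aemeasurable)]
  rw [← nsmul_eq_mul]
  refine Finset.sum_le_card_nsmul _ _ _ fun a ha => ?_
  -- one `a`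
  rw [← lintegral_indicator (hg_det_meas r)]
  rw [mu0_lint ((hhm.indicator (hg_B_meas η R0 hC a)).indicator (hg_det_meas r))]
  rw [tsum_eq_single (Lat.ds (r / a) a)]
  · refine le_trans ?_ (hB a ha (r / a))
    rw [← lintegral_indicator (hg_R_meas η R0 hC a (r / a))]
    refine lintegral_mono fun z => ?_
    by_cases hx : ((z, Lat.ds (r / a) a) : XX K) ∈ {x : XX K | x.2.det = r}
    · rw [Set.indicator_of_mem hx]
      by_cases hx2 : ((z, Lat.ds (r / a) a) : XX K) ∈ hg_B η R0 C a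
      · rw [Set.indicator_of_mem hx2]
        have hx' : (Lat.ds (r / a) a).det = r := hx
        obtain ⟨-, e2, e3, e4⟩ := hx2
        have e2' : η ≤ NY z * nI ((Lat.ds (r / a) a).det / a / a) := e2
        have e3' : rev z ∈ C (a / ((Lat.ds (r / a) a).det / a)) := e3
        rw [hx'] at e2' e3'
        rw [Set.indicator_of_mem (show z ∈ hg_R η R0 C a (r / a) from ⟨e2', e3', e4⟩)]
      · rw [Set.indicator_of_notMem hx2]; exact zero_le
    · rw [Set.indicator_of_notMem hx]; exact zero_le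
  · intro L hL
    rw [lintegral_eq_zero_iff']
    · refine Eventually.of_forall fun z => ?_
      show Set.indicator _ _ ((z, L) : XX K) = 0
      by_cases hx : ((z, L) : XX K) ∈ {x : XX K | x.2.det = r}
      · rw [Set.indicator_of_mem hx]
        rw [Set.indicator_of_notMem]
        rintro ⟨e1, -⟩
        apply hL
        have hx' : L.det = r := hx
        have e1' : L = Lat.ds (L.det / a) a := e1
        rw [hx'] at e1'
        exact e1'
      · rw [Set.indicator_of_notMem hx]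
    · exact (((hhm.indicator (hg_B_meas η R0 hC a)).indicator (hg_det_meas r)).comp
        (measurable_id.prodMk measurable_const)).aemeasurable

theorem pn_form (ω : ExW K) : ∃ (C : ℝ) (k₀ : ℕ), 0 < C ∧ ∀ k : ℕ, k₀ ≤ k →
    ∀ {F : (Em K → ℍ) → Lat K → ℂ} {A : Id K → ℂ}, IsForm k F → IsCo k F A →
    Summable (fun m : Id K => ‖A m‖ ^ 2 * nI m ^ (-((k : ℝ) - 1)) *
      min 1 (((k : ℝ) ^ dg K / nI m) ^ 6)) ∧
    pn ω k F ≤ C * (dK K ^ k * WA.omk k ^ dg K) * ∑' m : Id K,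
      ‖A m‖ ^ 2 * nI m ^ (-((k : ℝ) - 1)) * min 1 (((k : ℝ) ^ dg K / nI m) ^ 6) := by
  classical
  obtain ⟨Al, hAl⟩ := wide_reps (K := K)
  obtain ⟨η, hη, hmink⟩ := mink (K := K)
  obtain ⟨R0, hR0⟩ := bal (K := K)
  obtain ⟨ρ⟩ := uw_exists (K := K) R0
  choose C hC using cell_exists (K := K)
  have hgen : Finite (Gen K) := gen_finite
  have hgf : Fintype (Gen K) := Fintype.ofFinite _
  have hD : 1 ≤ dK K := dK_ge
  have hc := ρ.cpos
  have hpi := Real.pi_pos
  set c2 : ℝ := 1 + (2 ^ dg K * dK K / (η / 2 * (4 * Real.pi) ^ dg K)) ^ 6 with hc2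
  have hc2pos : 0 < c2 := by positivity
  refine ⟨(Fintype.card (Gen K) : ℝ) * Al.card * (ρ.c⁻¹ * c2) + 1, 8, by positivity, ?_⟩
  intro k hk F A hF hA
  refine ⟨hg_summable hA, ?_⟩
  show pn ω k F ≤ _ * (dK K ^ k * WA.omk k ^ dg K) * ∑' m : Id K, hg_t k A m
  have homk : 0 < WA.omk k := by
    unfold WA.omk
    have : (8 : ℝ) ≤ k := by exact_mod_cast hk
    have h1 : 0 < Real.Gamma ((k : ℝ) - 1) := Real.Gamma_pos_of_pos (by linarith)
    positivity
  have hS : 0 ≤ ∑' m : Id K, hg_t k A m := tsum_nonneg (hg_t_nonneg k A)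
  have hred := fun z L => reduce Al hAl hmink hR0 hC z L
  have hdet := hg_det ω hC Al hred hF (fun a _ b => hg_cusp hη ρ hC hk hF hA a b)
  have hhm : Measurable (fun x : XX K => ‖PF k F x.1 x.2‖ₑ ^ 2) :=
    (pf_meas hF).enorm.pow_const 2
  have h1 : ∫⁻ x, ‖PF k F x.1 x.2‖ₑ ^ 2 ∂(mX ω) ≤ (Fintype.card (Gen K) : ℝ≥0∞) *
      (Al.card * ENNReal.ofReal (ρ.c⁻¹ * (dK K ^ k * WA.omk k ^ dg K) *
        (c2 * ∑' m : Id K, hg_t k A m))) := by
    rw [mX_lint ω hhm, tsum_fintype, ← nsmul_eq_mul]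
    refine Finset.sum_le_card_nsmul _ _ _ fun κ _ => hdet κ.out
  have h2 : pn ω k F = (∫⁻ x, ‖PF k F x.1 x.2‖ₑ ^ 2 ∂(mX ω)).toReal := by
    unfold pn
    rw [integral_eq_lintegral_of_nonneg_ae (Eventually.of_forall fun x => by positivity)
      (((pf_meas hF).norm.pow_const 2).aestronglyMeasurable)]
    congr 1
    refine lintegral_congr fun x => ?_
    rw [← ofReal_norm, ENNReal.ofReal_pow (norm_nonneg _)]
  rw [h2]
  have h3 : ((Fintype.card (Gen K) : ℝ≥0∞) * (Al.card * ENNReal.ofReal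
      (ρ.c⁻¹ * (dK K ^ k * WA.omk k ^ dg K) * (c2 * ∑' m : Id K, hg_t k A m)))) =
      ENNReal.ofReal ((Fintype.card (Gen K) : ℝ) * (Al.card *
      (ρ.c⁻¹ * (dK K ^ k * WA.omk k ^ dg K) * (c2 * ∑' m : Id K, hg_t k A m)))) := by
    rw [ENNReal.ofReal_mul (p := (Fintype.card (Gen K) : ℝ)) (Nat.cast_nonneg _),
      ENNReal.ofReal_mul (p := (Al.card : ℝ)) (Nat.cast_nonneg _),
      ENNReal.ofReal_natCast, ENNReal.ofReal_natCast]
  rw [h3] at h1
  refine (ENNReal.toReal_le_of_le_ofReal (by positivity) h1).trans ?_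
  have h4 : 0 ≤ (dK K ^ k * WA.omk k ^ dg K) * ∑' m : Id K, hg_t k A m := by positivity
  nlinarith


end tr4

end Pool.Agent.HSG
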