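import Pool.Agent.Lib_helper84.HSG.DefsB
import Pool.Agent.Lib_helper84.HSGF.GA1
import Pool.Agent.Lib_helper84.HSGF.GA3
import Pool.Agent.Lib_helper84.HSGF.GC2
import Pool.Agent.Lib_helper84.HSGF.GD2
import Pool.Agent.Lib_helper84.HSGF.GH
import Pool.Agent.Lib_helper84.HSGF.GL2
import Pool.Agent.Lib_helper45.HSF.KI
import Pool.Agent.Lib_helper45.HSF.KJ

/-! # HSG block GM: Hecke operators and coefficients -/

namespace Pool.Agent.HSG

open Complex MeasureTheory Filter Topology UpperHalfPlane NumberField IsDedekindDomain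
open scoped nonZeroDivisors MatrixGroups ENNReal

variable {K : Type} [Field K] [NumberField K]

/-! ### Ideals -/

theorem gm_one_mem (c : Id K) : (1 : K) ∈ c.m ↔ IsInt c⁻¹ := by
  have h : IsInt c⁻¹ ↔ (1 : Id K).m ≤ c.m := by
    rw [← isInt_div, one_div]
  rw [h]
  constructor
  · intro h1 x hx
    obtain ⟨y, hy⟩ := (mem_m_one x).1 hx
    have h2 := c.m.smul_mem y h1
    rw [← hy]
    have h3 : y • (1 : K) = (y : K) := by
      rw [Algebra.smul_def, mul_one]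
    rwa [h3] at h2
  · intro h1
    exact h1 ((mem_m_one 1).2 ⟨1, by simp⟩)

theorem gm_mem (x : Kˣ) (a : Id K) : (x : K) ∈ a.m ↔ IsInt (prI x * a⁻¹) := by
  have h1 := mem_prI_mul x⁻¹ a 1
  rw [inv_inv, mul_one] at h1
  rw [← h1, gm_one_mem, mul_inv, map_inv, inv_inv]

theorem gm_fr (p : Pr K) : IsInt (HS.frP p) := (pI_facts p).2.1

theorem gm_q (p : Pr K) : nI (HS.frP p) = qP p := (pI_facts p).2.2.1

theorem gm_q_pos (p : Pr K) : (0 : ℝ) < qP p := by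
  have := (pI_facts p).2.2.2
  exact_mod_cast lt_of_lt_of_le (by norm_num) this

/-- divisibility by a prime -/
theorem gm_div_int {a : Id K} (p : Pr K) (h : IsInt (a / HS.frP p)) : IsInt a := by
  have := isInt_mul h (gm_fr p)
  rwa [div_mul_cancel] at this

/-! ### The matrices `n(β)` -/

theorem gm_ent (β : K) : (((nm β : SL(2, K)) : GL (Fin 2) K) : Matrix (Fin 2) (Fin 2) K) 0 0 = 1 ∧
    (((nm β : SL(2, K)) : GL (Fin 2) K) : Matrix (Fin 2) (Fin 2) K) 0 1 = β ∧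
    (((nm β : SL(2, K)) : GL (Fin 2) K) : Matrix (Fin 2) (Fin 2) K) 1 0 = 0 ∧
    (((nm β : SL(2, K)) : GL (Fin 2) K) : Matrix (Fin 2) (Fin 2) K) 1 1 = 1 := ⟨rfl, rfl, rfl, rfl⟩

theorem gm_nm_act (β : K) (z : Em K → ℍ) : ((nm β : SL(2, K)) : GL (Fin 2) K) • z = trH (em β) z := by
  funext w
  show (Matrix.GeneralLinearGroup.map (n := Fin 2) w ((nm β : SL(2, K)) : GL (Fin 2) K)) • z w =
    w β +ᵥ z w
  have hd : 0 < (Matrix.GeneralLinearGroup.map (n := Fin 2) w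
      ((nm β : SL(2, K)) : GL (Fin 2) K)).det.val := by
    show 0 < (Matrix.map (((nm β : SL(2, K)) : GL (Fin 2) K) : Matrix (Fin 2) (Fin 2) K) w).det
    rw [Matrix.det_fin_two]
    simp only [Matrix.map_apply, (gm_ent β).1, (gm_ent β).2.1, (gm_ent β).2.2.1, (gm_ent β).2.2.2]
    simp
  obtain ⟨e00, e01, e10, e11⟩ := gm_ent β
  apply UpperHalfPlane.ext
  rw [coe_smul_of_det_pos hd, coe_vadd]
  have n1 : num (Matrix.GeneralLinearGroup.map (n := Fin 2) w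
      ((nm β : SL(2, K)) : GL (Fin 2) K)) (z w : ℂ) = (z w : ℂ) + ((w β : ℝ) : ℂ) := by
    show (((w ((((nm β : SL(2, K)) : GL (Fin 2) K) : Matrix (Fin 2) (Fin 2) K) 0 0) : ℝ) : ℂ) * (z w : ℂ) +
      ((w ((((nm β : SL(2, K)) : GL (Fin 2) K) : Matrix (Fin 2) (Fin 2) K) 0 1) : ℝ) : ℂ)) = _
    rw [e00, e01]
    simp
  have n2 : denom (Matrix.GeneralLinearGroup.map (n := Fin 2) w
      ((nm β : SL(2, K)) : GL (Fin 2) K)) (z w : ℂ) = 1 := by
    show (((w ((((nm β : SL(2, K)) : GL (Fin 2) K) : Matrix (Fin 2) (Fin 2) K) 1 0) : ℝ) : ℂ) * (z w : ℂ) +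
      ((w ((((nm β : SL(2, K)) : GL (Fin 2) K) : Matrix (Fin 2) (Fin 2) K) 1 1) : ℝ) : ℂ)) = _
    rw [e10, e11]
    simp
  rw [n1, n2, div_one, add_comm]

theorem gm_lz (β : K) (z : Em K → ℍ) (w : Em K) :
    lz (((nm β : SL(2, K)) : GL (Fin 2) K) 1) z w = 1 := by
  show ((w ((((nm β : SL(2, K)) : GL (Fin 2) K) : Matrix (Fin 2) (Fin 2) K) 1 0) : ℝ) : ℂ) * (z w : ℂ) +
      ((w ((((nm β : SL(2, K)) : GL (Fin 2) K) : Matrix (Fin 2) (Fin 2) K) 1 1) : ℝ) : ℂ) = 1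
  rw [(gm_ent β).2.2.1, (gm_ent β).2.2.2]
  simp

theorem gm_F_nm {k : ℕ} {F : (Em K → ℍ) → Lat K → ℂ} (hF : IsForm k F) (β : K) (z : Em K → ℍ)
    (L : Lat K) : F z (L.mul ((nm β : SL(2, K)) : GL (Fin 2) K)) = F (trH (em β) z) L := by
  have h := hF.slash ((nm β : SL(2, K)) : GL (Fin 2) K) (fun w => by simp) z L
  rw [gm_nm_act] at h
  rw [h, Finset.prod_congr rfl (fun w _ => by rw [gm_lz β z w, one_pow]), Finset.prod_const_one,
    one_mul]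

theorem gm_eT (ν β : K) (z : Em K → ℍ) : eT ν (trH (em β) z) =
    cexp (2 * Real.pi * Complex.I * ((∑ w : Em K, w (ν * β) : ℝ) : ℂ)) * eT ν z := by
  unfold eT
  rw [← Complex.exp_add]
  congr 1
  have h : ∀ w : Em K, ((trH (em β) z w : ℍ) : ℂ) = ((w β : ℝ) : ℂ) + (z w : ℂ) := by
    intro w
    show ((w β +ᵥ z w : ℍ) : ℂ) = _
    rw [coe_vadd]
  simp only [h]
  rw [← mul_add]
  congr 1
  push_cast
  rw [← Finset.sum_add_distrib]
  refine Finset.sum_congr rfl fun w _ => ?_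
  rw [map_mul]
  push_cast
  ring

open Classical in
/-- the coefficients of the image under a Hecke operator -/
noncomputable def gm_A (k : ℕ) (A : Id K → ℂ) (p : Pr K) (m : Id K) : ℂ :=
  if IsInt m then A (m / HS.frP p) + (((qP p : ℝ) ^ (1 - (k : ℝ)) : ℝ) : ℂ) * A (m * HS.frP p)
  else 0

section tr
variable [IsTotallyReal K]

theorem gm_exp {k : ℕ} {F : (Em K → ℍ) → Lat K → ℂ} {A : Id K → ℂ} (hF : IsForm k F)
    (hA : IsCo k F A) (p : Pr K) (b : Id K) (z : Em K → ℍ) :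
    HasSum (fun ν : Kp K => gm_A k A p (prI ν.1 * DD K * b⁻¹) * eT ((ν.1 : Kˣ) : K) z)
      (TT p F z (Lat.ds b 1)) := by
  classical
  have hle : Id.m (HS.frP p * b⁻¹) ≤ Id.m b⁻¹ := by
    rw [← isInt_div, mul_div_assoc, div_self', mul_one]
    exact gm_fr p
  obtain ⟨S, hS⟩ := repq_exists hle
  have hqp := gm_q_pos p
  have h1 := hA.exp (HS.frP p * b) z
  have hq : ((nI (HS.frP p) ^ k : ℝ) : ℂ) ≠ 0 := by
    rw [gm_q]
    exact_mod_cast (pow_pos hqp k).ne'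
  have h2 : ∀ β ∈ S, HasSum (fun ν : Kp K => ((nI (HS.frP p) ^ k : ℝ) : ℂ)⁻¹ *
      (A (prI ν.1 * DD K * HS.frP p / b) * eT ((ν.1 : Kˣ) : K) (trH (em β) z)))
      (F z ((Lat.ds b (HS.frP p)).mul ((nm β : SL(2, K)) : GL (Fin 2) K))) := by
    intro β _
    have h := (co_ds hF hA b (HS.frP p) (trH (em β) z)).mul_left
      (((nI (HS.frP p) ^ k : ℝ) : ℂ)⁻¹)
    rw [inv_mul_cancel_left₀ hq] at h
    rw [gm_F_nm hF]
    exact h
  have h3 := h1.add (hasSum_sum h2)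
  have h4 : TT p F z (Lat.ds b 1) = F z (Lat.ds (HS.frP p * b) 1) +
      ∑ β ∈ S, F z ((Lat.ds b (HS.frP p)).mul ((nm β : SL(2, K)) : GL (Fin 2) K)) :=
    sub_ds p b hS (F z)
  have h5 : (fun ν : Kp K => gm_A k A p (prI ν.1 * DD K * b⁻¹) * eT ((ν.1 : Kˣ) : K) z) =
      fun ν : Kp K => A (prI ν.1 * DD K * (HS.frP p * b)⁻¹) * eT ((ν.1 : Kˣ) : K) z +
        ∑ β ∈ S, ((nI (HS.frP p) ^ k : ℝ) : ℂ)⁻¹ *
      (A (prI ν.1 * DD K * HS.frP p / b) * eT ((ν.1 : Kˣ) : K) (trH (em β) z)) := by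
    funext ν
    obtain ⟨M, hM⟩ : ∃ M : Id K, M = prI ν.1 * DD K * b⁻¹ := ⟨_, rfl⟩
    have e1 : prI ν.1 * DD K * (HS.frP p * b)⁻¹ = M / HS.frP p := by
      rw [hM, mul_inv, div_eq_mul_inv, mul_comm (HS.frP p)⁻¹, ← mul_assoc]
    have e2 : prI ν.1 * DD K * HS.frP p / b = M * HS.frP p := by
      rw [hM, div_eq_mul_inv, mul_assoc, mul_comm (HS.frP p), ← mul_assoc]
    have e3 : ((ν.1 : Kˣ) : K) ∈ Id.m ((DD K)⁻¹ * (b⁻¹)⁻¹) ↔ IsInt M := by
      rw [gm_mem, hM]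
      have : prI ν.1 * ((DD K)⁻¹ * (b⁻¹)⁻¹)⁻¹ = prI ν.1 * DD K * b⁻¹ := by
        rw [mul_inv, inv_inv, inv_inv, mul_assoc]
      rw [this]
    have e4 : ((ν.1 : Kˣ) : K) ∈ Id.m ((DD K)⁻¹ * (HS.frP p * b⁻¹)⁻¹) ↔ IsInt (M * HS.frP p) := by
      rw [gm_mem, hM]
      have : prI ν.1 * ((DD K)⁻¹ * (HS.frP p * b⁻¹)⁻¹)⁻¹ = prI ν.1 * DD K * b⁻¹ * HS.frP p := by
        rw [mul_inv, inv_inv, inv_inv, mul_comm (HS.frP p), ← mul_assoc, ← mul_assoc]
      rw [this]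
    rw [← hM, e1, e2]
    have e5 : ∑ β ∈ S, ((nI (HS.frP p) ^ k : ℝ) : ℂ)⁻¹ *
        (A (M * HS.frP p) * eT ((ν.1 : Kˣ) : K) (trH (em β) z)) =
        ((nI (HS.frP p) ^ k : ℝ) : ℂ)⁻¹ * A (M * HS.frP p) * eT ((ν.1 : Kˣ) : K) z *
          ∑ β ∈ S, cexp (2 * Real.pi * Complex.I *
            ((∑ w : Em K, w (((ν.1 : Kˣ) : K) * β) : ℝ) : ℂ)) := by
      rw [Finset.mul_sum]
      refine Finset.sum_congr rfl fun β _ => ?_
      rw [gm_eT]
      ring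
    rw [e5]
    by_cases hMi : IsInt M
    · have hMp : IsInt (M * HS.frP p) := isInt_mul hMi (gm_fr p)
      have h6 := (char_sum hle hS (e4.2 hMp)).1 (e3.2 hMi)
      rw [Finset.sum_congr rfl h6, Finset.sum_const, nsmul_eq_mul, mul_one]
      have h7 : ((S.card : ℕ) : ℂ) = ((qP p : ℝ) : ℂ) := by
        have h8 := repq_card hle hS
        rw [nI_mul, mul_div_cancel_right₀ _ (nI_pos _).ne', gm_q] at h8
        exact_mod_cast h8
      rw [h7, gm_A, if_pos hMi, gm_q]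
      have h9 : (((qP p : ℝ) ^ (1 - (k : ℝ)) : ℝ) : ℂ) =
          (((qP p : ℝ) ^ k : ℝ) : ℂ)⁻¹ * ((qP p : ℝ) : ℂ) := by
        rw [Real.rpow_sub hqp, Real.rpow_one, Real.rpow_natCast]
        push_cast
        rw [div_eq_mul_inv, mul_comm]
      rw [h9]
      ring
    · rw [gm_A, if_neg hMi, hA.int (M / HS.frP p) (fun h => hMi (gm_div_int p h))]
      by_cases hMp : IsInt (M * HS.frP p)
      · rw [(char_sum hle hS (e4.2 hMp)).2 (fun h => hMi (e3.1 h))]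
        ring
      · rw [hA.int _ hMp]
        ring
  rw [h4, h5]
  exact h3

theorem gm_co {k : ℕ} {F : (Em K → ℍ) → Lat K → ℂ} {A : Id K → ℂ} (hF : IsForm k F)
    (hA : IsCo k F A) (p : Pr K) : IsCo k (TT p F) (gm_A k A p) := by
  have hqp := gm_q_pos p
  refine ⟨fun m hm => by rw [gm_A, if_neg hm], ?_, fun b z => gm_exp hF hA p b z⟩
  obtain ⟨C, hC⟩ := hA.growth
  have hC0 : 0 ≤ C := by
    have h1 := (norm_nonneg _).trans (hC 1)
    rw [nI_one, Real.one_rpow, mul_one] at h1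
    exact h1
  refine ⟨C * ((qP p : ℝ) ^ ((k : ℝ) / 2))⁻¹ +
    (qP p : ℝ) ^ (1 - (k : ℝ)) * (C * (qP p : ℝ) ^ ((k : ℝ) / 2)), fun m => ?_⟩
  have hm := nI_pos m
  by_cases hmi : IsInt m
  · rw [gm_A, if_pos hmi]
    refine (norm_add_le _ _).trans ?_
    rw [norm_mul, Complex.norm_real, Real.norm_of_nonneg (Real.rpow_nonneg hqp.le _)]
    have h1 := hC (m / HS.frP p)
    have h2 := hC (m * HS.frP p)
    rw [nI_div, gm_q, Real.div_rpow hm.le hqp.le] at h1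
    rw [nI_mul, gm_q, Real.mul_rpow hm.le hqp.le] at h2
    have h3 : (qP p : ℝ) ^ (1 - (k : ℝ)) * ‖A (m * HS.frP p)‖ ≤ (qP p : ℝ) ^ (1 - (k : ℝ)) *
        (C * (nI m ^ ((k : ℝ) / 2) * (qP p : ℝ) ^ ((k : ℝ) / 2))) :=
      mul_le_mul_of_nonneg_left h2 (Real.rpow_nonneg hqp.le _)
    refine (add_le_add h1 h3).trans (le_of_eq ?_)
    rw [div_eq_mul_inv]
    ring
  · rw [gm_A, if_neg hmi, norm_zero]
    positivity

theorem co_TT {k : ℕ} {F : (Em K → ℍ) → Lat K → ℂ} {A : Id K → ℂ} (hF : IsForm k F)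
    (hA : IsCo k F A) (p : Pr K) (m : Id K) (hm : IsInt m) {A' : Id K → ℂ}
    (hA' : IsCo k (TT p F) A') :
    A' m = A (m / HS.frP p) + (((qP p : ℝ) ^ (1 - (k : ℝ)) : ℝ) : ℂ) * A (m * HS.frP p) := by
  rw [co_unique hA' (gm_co hF hA p), gm_A, if_pos hm]

theorem eig_co {k : ℕ}
    {F : (Em K → ℍ) → Lat K → ℂ} {lam : Pr K → ℝ} (h : IsEig k F lam) {A : Id K → ℂ}
    (hA : IsCo k F A) :
    A 1 ≠ 0 ∧ ∀ m : Pr K →₀ ℕ,
      A (HS.idl m) = A 1 * ((HS.hs lam m * ((HS.PK K).nrm m : ℝ) ^ (((k : ℝ) - 1) / 2) : ℝ) : ℂ) := by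
  classical
  -- the coefficients of the image
  have hT : ∀ p : Pr K, IsCo k (TT p F)
      (fun m => (((qP p : ℝ) ^ ((1 - (k : ℝ)) / 2) * lam p : ℝ) : ℂ) * A m) := by
    intro p
    refine ⟨fun m hm => by rw [hA.int m hm, mul_zero], ?_, fun b z => ?_⟩
    · obtain ⟨C, hC⟩ := hA.growth
      refine ⟨‖(((qP p : ℝ) ^ ((1 - (k : ℝ)) / 2) * lam p : ℝ) : ℂ)‖ * C, fun m => ?_⟩
      rw [norm_mul, mul_assoc]
      exact mul_le_mul_of_nonneg_left (hC m) (norm_nonneg _)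
    · rw [h.eig]
      have h1 := (hA.exp b z).mul_left (((qP p : ℝ) ^ ((1 - (k : ℝ)) / 2) * lam p : ℝ) : ℂ)
      have h2 : (fun ν : Kp K => (((qP p : ℝ) ^ ((1 - (k : ℝ)) / 2) * lam p : ℝ) : ℂ) *
          A (prI ν.1 * DD K * b⁻¹) * eT ((ν.1 : Kˣ) : K) z) =
          fun ν : Kp K => (((qP p : ℝ) ^ ((1 - (k : ℝ)) / 2) * lam p : ℝ) : ℂ) *
          (A (prI ν.1 * DD K * b⁻¹) * eT ((ν.1 : Kˣ) : K) z) := by
        funext ν
        rw [mul_assoc]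
      rw [h2]
      exact h1
  have hrec : ∀ (p : Pr K) (m : Id K), IsInt m →
      (((qP p : ℝ) ^ ((1 - (k : ℝ)) / 2) * lam p : ℝ) : ℂ) * A m =
      A (m / HS.frP p) + (((qP p : ℝ) ^ (1 - (k : ℝ)) : ℝ) : ℂ) * A (m * HS.frP p) :=
    fun p m hm => co_TT h.form hA p m hm (hT p)
  -- normalisation
  obtain ⟨B, hB⟩ : ∃ B : Id K → ℂ, ∀ m, B m = A m * (((nI m) ^ ((1 - (k : ℝ)) / 2) : ℝ) : ℂ) :=
    ⟨_, fun m => rfl⟩
  have hBrec : ∀ (m : Pr K →₀ ℕ) (p : Pr K), B (HS.idl m * HS.frP p) = (lam p : ℂ) * B (HS.idl m) -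
      if m p = 0 then 0 else B (HS.idl m * (HS.frP p)⁻¹) := by
    intro m p
    have hqp := gm_q_pos p
    have hm := nI_pos (HS.idl m)
    have h1 := hrec p (HS.idl m) (idl_int m)
    have h2 : B (HS.idl m * HS.frP p) = (lam p : ℂ) * B (HS.idl m) - B (HS.idl m / HS.frP p) := by
      rw [hB, hB, hB, nI_mul, nI_div, gm_q, Real.mul_rpow hm.le hqp.le,
        Real.div_rpow hm.le hqp.le]
      obtain ⟨s, hs⟩ : ∃ s : ℝ, s = (qP p : ℝ) ^ ((1 - (k : ℝ)) / 2) := ⟨_, rfl⟩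
      have hs0 : 0 < s := by rw [hs]; exact Real.rpow_pos_of_pos hqp _
      have hs2 : (qP p : ℝ) ^ (1 - (k : ℝ)) = s * s := by
        rw [hs, ← Real.rpow_add hqp]
        congr 1
        ring
      rw [hs2, ← hs] at h1
      rw [← hs]
      have hsC : (s : ℂ) ≠ 0 := by exact_mod_cast hs0.ne'
      have h3 : A (HS.idl m * HS.frP p) =
          ((s : ℂ) * (s : ℂ))⁻¹ * ((s : ℂ) * (lam p : ℂ) * A (HS.idl m) - A (HS.idl m / HS.frP p)) := by
        rw [eq_inv_mul_iff_mul_eq₀ (mul_ne_zero hsC hsC)]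
        push_cast at h1
        linear_combination -h1
      rw [h3]
      push_cast
      field_simp
    rw [h2, ← div_eq_mul_inv]
    split_ifs with h0
    · have h4 : ¬ IsInt (HS.idl m / HS.frP p) := by
        intro h5
        have h6 : HS.frP p = HS.idl (Finsupp.single p 1) := by
          rw [HS.idl_single, pow_one]
        rw [h6, idl_dvd] at h5
        have h7 := h5 p
        rw [Finsupp.single_eq_same, h0] at h7
        exact absurd h7 (by norm_num)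
      rw [hB (HS.idl m / HS.frP p), hA.int _ h4, zero_mul]
    · rfl
  have hBm := fun m => HS.hs_of_rec (A := B) (θ := lam) hBrec m
  have hB1 : B 1 = A 1 := by
    rw [hB, nI_one, Real.one_rpow]
    simp
  have hAm : ∀ m : Pr K →₀ ℕ,
      A (HS.idl m) = A 1 * ((HS.hs lam m * ((HS.PK K).nrm m : ℝ) ^ (((k : ℝ) - 1) / 2) : ℝ) : ℂ) := by
    intro m
    have h1 := hBm m
    rw [hB1, hB] at h1
    have hm := nI_pos (HS.idl m)
    have h2 : (((nI (HS.idl m)) ^ ((1 - (k : ℝ)) / 2) : ℝ) : ℂ) *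
        (((nI (HS.idl m)) ^ (((k : ℝ) - 1) / 2) : ℝ) : ℂ) = 1 := by
      rw [← Complex.ofReal_mul, ← Real.rpow_add hm]
      have : (1 - (k : ℝ)) / 2 + ((k : ℝ) - 1) / 2 = 0 := by ring
      rw [this, Real.rpow_zero, Complex.ofReal_one]
    rw [← nI_idl]
    push_cast at h1 h2 ⊢
    linear_combination (((nI (HS.idl m)) ^ (((k : ℝ) - 1) / 2) : ℝ) : ℂ) * h1 - A (HS.idl m) * h2
  refine ⟨fun hA1 => ?_, hAm⟩
  have hA0 : A = 0 := by
    funext m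
    by_cases hm : IsInt m
    · obtain ⟨f, rfl⟩ := idl_sur hm
      rw [hAm, hA1, zero_mul]
      rfl
    · exact hA.int m hm
  obtain ⟨z, L, hne⟩ := h.ne
  rw [hA0] at hA
  exact hne (co_inj h.form hA z L)

end tr

end Pool.Agent.HSG

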