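import Pool.Agent.Lib_helper84.HSG.DefsB

/-! # Hilbert-Selberg, PART II, block GP1: unfolding -/

namespace Pool.Agent.HSG

open Complex MeasureTheory Filter Topology UpperHalfPlane NumberField IsDedekindDomain
open scoped nonZeroDivisors MatrixGroups ENNReal

theorem unf {G X : Type} [Group G] [Countable G] [MeasurableSpace X] [MulAction G X]
    (μ : Measure X) (hg : ∀ g : G, MeasurePreserving (fun x : X => g • x) μ μ)
    {h χ w : X → ℝ≥0∞} (hh : Measurable h) (hχ : Measurable χ) (hw : Measurable w)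
    (hinv : ∀ (g : G) x, h (g • x) = h x) (hex : ∀ x, ∑' g : G, w (g • x) = 1) :
    ∫⁻ x, χ x * h x ∂μ = ∫⁻ x, w x * h x * ∑' g : G, χ (g • x) ∂μ := by
  have hm : ∀ g : G, Measurable (fun x : X => g • x) := fun g => (hg g).measurable
  have e1 : ∀ x, χ x * h x = ∑' g : G, χ x * h x * w (g • x) := by
    intro x
    rw [ENNReal.tsum_mul_left, hex, mul_one]
  have e2 : ∀ x, w x * h x * ∑' g : G, χ (g • x) = ∑' g : G, w x * h x * χ (g • x) := by
    intro x
    rw [ENNReal.tsum_mul_left]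
  simp_rw [e2]
  calc ∫⁻ x, χ x * h x ∂μ = ∫⁻ x, ∑' g : G, χ x * h x * w (g • x) ∂μ := by
        exact lintegral_congr e1
    _ = ∑' g : G, ∫⁻ x, χ x * h x * w (g • x) ∂μ := by
        refine lintegral_tsum fun g => ?_
        exact ((hχ.mul hh).mul (hw.comp (hm g))).aemeasurable
    _ = ∑' g : G, ∫⁻ x, w x * h x * χ (g⁻¹ • x) ∂μ := by
        refine tsum_congr fun g => ?_
        have hmm : Measurable (fun x => χ x * h x * w (g • x)) :=
          (hχ.mul hh).mul (hw.comp (hm g))
        rw [← (hg g⁻¹).lintegral_comp hmm]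
        refine lintegral_congr fun x => ?_
        rw [smul_inv_smul, hinv]
        ring
    _ = ∑' g : G, ∫⁻ x, w x * h x * χ (g • x) ∂μ := by
        rw [← (Equiv.inv G).tsum_eq]
        simp
    _ = ∫⁻ x, ∑' g : G, w x * h x * χ (g • x) ∂μ := by
        refine (lintegral_tsum fun g => ?_).symm
        exact ((hw.mul hh).mul (hχ.comp (hm g))).aemeasurable

/-- sum of a product with the translates of a weight -/
private theorem gp1_aux {G X : Type} [Group G] [Countable G] [MeasurableSpace X] [MulAction G X]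
    (μ : Measure X) (hm : ∀ g : G, Measurable (fun x : X => g • x))
    {w w' : X → ℝ} (hw : Measurable w) (hw' : Measurable w')
    (h0' : ∀ x, 0 ≤ w' x)
    (hex' : ∀ x, HasSum (fun g : G => w' (g • x)) 1) (hi : Integrable w μ)
    {H : X → ℂ} {C : ℝ} (hH : Measurable H) (hb : ∀ x, ‖H x‖ ≤ C) :
    ∫ x, (w x : ℂ) * H x ∂μ = ∑' g : G, ∫ x, (w x : ℂ) * H x * (w' (g • x) : ℂ) ∂μ := by
  have hwH : Integrable (fun x => (w x : ℂ) * H x) μ := by
    have h1 : Integrable (fun x => (w x : ℂ)) μ := hi.ofReal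
    refine Integrable.mul_bdd (c := C) h1 hH.aestronglyMeasurable (Eventually.of_forall hb)
  have hms : ∀ g : G, Measurable (fun x => (w x : ℂ) * H x * (w' (g • x) : ℂ)) := fun g =>
    ((Complex.measurable_ofReal.comp hw).mul hH).mul
      (Complex.measurable_ofReal.comp (hw'.comp (hm g)))
  rw [← integral_tsum]
  · refine integral_congr_ae (Eventually.of_forall fun x => ?_)
    have h1 : HasSum (fun g : G => (w' (g • x) : ℂ)) ((1 : ℝ) : ℂ) :=
      Complex.hasSum_ofReal.mpr (hex' x)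
    have h2 := h1.mul_left ((w x : ℂ) * H x)
    simp only
    rw [h2.tsum_eq]
    simp
  · intro g
    exact (hms g).aestronglyMeasurable
  · rw [← lintegral_tsum fun g => (hms g).enorm.aemeasurable]
    have h3 : ∀ x, ∑' g : G, ‖(w x : ℂ) * H x * (w' (g • x) : ℂ)‖ₑ = ‖(w x : ℂ) * H x‖ₑ := by
      intro x
      have h4 : ∀ g : G, ‖(w x : ℂ) * H x * (w' (g • x) : ℂ)‖ₑ =
          ‖(w x : ℂ) * H x‖ₑ * ENNReal.ofReal (w' (g • x)) := by
        intro g
        rw [enorm_mul]
        congr 1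
        rw [← ofReal_norm, Complex.norm_real, Real.norm_of_nonneg (h0' _)]
      simp_rw [h4]
      rw [ENNReal.tsum_mul_left,
        ← ENNReal.ofReal_tsum_of_nonneg (fun g => h0' _) (hex' x).summable, (hex' x).tsum_eq]
      simp
    simp_rw [h3]
    exact hwH.2.ne

theorem unf_c {G X : Type} [Group G] [Countable G] [MeasurableSpace X] [MulAction G X]
    (μ : Measure X) (hg : ∀ g : G, MeasurePreserving (fun x : X => g • x) μ μ)
    {w w' : X → ℝ} (hw : Measurable w) (hw' : Measurable w') (h0 : ∀ x, 0 ≤ w x)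
    (h0' : ∀ x, 0 ≤ w' x) (hex : ∀ x, HasSum (fun g : G => w (g • x)) 1)
    (hex' : ∀ x, HasSum (fun g : G => w' (g • x)) 1) (hi : Integrable w μ) (hi' : Integrable w' μ)
    {H : X → ℂ} {C : ℝ} (hH : Measurable H) (hb : ∀ x, ‖H x‖ ≤ C)
    (hinv : ∀ (g : G) x, H (g • x) = H x) :
    ∫ x, (w x : ℂ) * H x ∂μ = ∫ x, (w' x : ℂ) * H x ∂μ := by
  have hm : ∀ g : G, Measurable (fun x : X => g • x) := fun g => (hg g).measurable
  rw [gp1_aux μ hm hw hw' h0' hex' hi hH hb, gp1_aux μ hm hw' hw h0 hex hi' hH hb]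
  rw [← (Equiv.inv G).tsum_eq]
  refine tsum_congr fun g => ?_
  simp only [Equiv.inv_apply]
  have he : MeasurableEmbedding (fun x : X => g • x) := by
    refine MeasurableEquiv.measurableEmbedding (⟨⟨fun x : X => g • x, fun x => g⁻¹ • x, ?_, ?_⟩,
      hm g, hm g⁻¹⟩ : X ≃ᵐ X)
    · intro x; simp
    · intro x; simp
  rw [← (hg g).integral_comp he]
  refine integral_congr_ae (Eventually.of_forall fun x => ?_)
  simp only [inv_smul_smul, hinv]
  ring

end Pool.Agent.HSG
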