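import Pool.Agent.Lib_helper84.HSG.DefsB
import Pool.Agent.Lib_helper84.HSGF.GA3
import Pool.Agent.Lib_helper84.HSGF.GB1
import Pool.Agent.Lib_helper84.HSGF.GB2
import Pool.Agent.Lib_helper84.HSGF.GC1
import Pool.Agent.Lib_helper84.HSGF.GC2
import Pool.Agent.Lib_helper84.HSGF.GG
import Pool.Agent.Lib_helper84.HSGF.GJ1
import Pool.Agent.Lib_helper84.HSGF.GJ2
import Pool.Agent.Lib_helper84.HSGF.GP1
import Pool.Agent.Lib_helper84.HSGF.GQ

/-! # HSG block GS (ADJ): the Hecke operators are self-adjoint -/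

namespace Pool.Agent.HSG

open Complex MeasureTheory Filter Topology UpperHalfPlane NumberField IsDedekindDomain
open scoped nonZeroDivisors MatrixGroups ENNReal

variable {K : Type} [Field K] [NumberField K]

section

/-! ### the space of pairs -/

variable (K) in
/-- the measure on the pairs -/
noncomputable def gs_m : Measure (XX K × Lat K) := (mu0 K).prod Measure.count

instance gs_sf : SigmaFinite (mu0 K) := by
  unfold mu0
  infer_instance

theorem gs_count (g : SL(2, K)) :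
    MeasurePreserving (fun L : Lat K => g • L) Measure.count Measure.count := by
  have hm : Measurable (fun L : Lat K => g • L) := fun s _ => trivial
  refine ⟨hm, ?_⟩
  ext s hs
  rw [Measure.map_apply hm hs, Measure.count_apply (hm hs), Measure.count_apply hs]
  have h1 : (fun L : Lat K => g • L) ⁻¹' s = (fun L : Lat K => g⁻¹ • L) '' s := by
    ext L
    constructor
    · intro h
      exact ⟨g • L, h, by simp⟩
    · rintro ⟨L', h', rfl⟩
      show g • g⁻¹ • L' ∈ s
      rwa [smul_inv_smul]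
  rw [h1, Function.Injective.encard_image (MulAction.injective g⁻¹)]

theorem gs_m_act (g : SL(2, K)) :
    MeasurePreserving (fun x : XX K × Lat K => g • x) (gs_m K) (gs_m K) :=
  (mu0_act g).prod (gs_count g)

/-- the pairs -/
def gs_S (p : Pr K) (r : Id K) : Set (XX K × Lat K) := {x | x.1.2.det = r ∧ x.1.2.Sub p x.2}

theorem gs_S_meas (p : Pr K) (r : Id K) : MeasurableSet (gs_S p r) := by
  have h1 : MeasurableSet {y : Lat K × Lat K | y.1.det = r ∧ y.1.Sub p y.2} :=
    MeasurableSet.of_discrete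
  exact ((measurable_snd.comp measurable_fst).prodMk measurable_snd) h1

/-- the measure on the pairs -/
noncomputable def gs_mr (p : Pr K) (r : Id K) : Measure (XX K × Lat K) :=
  (gs_m K).restrict (gs_S p r)

theorem gs_mr_act (p : Pr K) (r : Id K) (g : SL(2, K)) :
    MeasurePreserving (fun x : XX K × Lat K => g • x) (gs_mr p r) (gs_mr p r) := by
  have h1 := (gs_m_act g).restrict_preimage (gs_S_meas p r)
  have h2 : (fun x : XX K × Lat K => g • x) ⁻¹' (gs_S p r) = gs_S p r := by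
    ext x
    simp only [gs_S, Set.mem_preimage, Set.mem_ofPred_eq, Prod.smul_snd, Prod.smul_fst, det_act,
      sub_act]
  rw [h2] at h1
  exact h1

/-- exchange of the two lattices -/
def gs_sw (x : XX K × Lat K) : XX K × Lat K := ((x.1.1, x.2), x.1.2)

omit [NumberField K] in
theorem gs_sw_sw (x : XX K × Lat K) : gs_sw (gs_sw x) = x := rfl

theorem gs_sw_meas : Measurable (gs_sw (K := K)) := by
  unfold gs_sw
  fun_prop

theorem gs_sw_mp : MeasurePreserving (gs_sw (K := K)) (gs_m K) (gs_m K) := by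
  have h1 := measurePreserving_prodAssoc (volume : Measure (Em K → ℍ))
    (Measure.count : Measure (Lat K)) (Measure.count : Measure (Lat K))
  have h2 := (MeasurePreserving.id (volume : Measure (Em K → ℍ))).prod
    (Measure.measurePreserving_swap (μ := (Measure.count : Measure (Lat K)))
      (ν := (Measure.count : Measure (Lat K))))
  exact (h1.symm _).comp (h2.comp h1)

theorem gs_sw_emb : MeasurableEmbedding (gs_sw (K := K)) := by
  exact (⟨⟨gs_sw, gs_sw, gs_sw_sw, gs_sw_sw⟩, gs_sw_meas, gs_sw_meas⟩ :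
    MeasurableEquiv (XX K × Lat K) (XX K × Lat K)).measurableEmbedding

/-- a finite sum as an integral -/
theorem gs_cnt {T : Set (Lat K)} (hT : Finite T) (g : Lat K → ℂ) :
    ∫ L, T.indicator g L ∂Measure.count = ∑ᶠ L : T, g L := by
  have hf : T.Finite := hT
  have h1 : Integrable (T.indicator g) (Measure.count : Measure (Lat K)) := by
    rw [integrable_count_iff]
    apply summable_of_hasFiniteSupport
    apply hf.subset
    intro x hx
    by_contra h
    exact hx (by simp [Set.indicator_of_notMem h])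
  rw [integral_countable h1]
  simp only [count_real_singleton, one_smul]
  rw [← tsum_subtype T g, tsum_eq_finsum]
  exact Set.toFinite _

theorem gs_cnt_lint {T : Set (Lat K)} (c : ℝ≥0∞) :
    ∫⁻ L, T.indicator (fun _ => c) L ∂Measure.count = c * ENat.toENNReal T.encard := by
  have hT : MeasurableSet T := MeasurableSet.of_discrete
  rw [lintegral_indicator hT, lintegral_const, Measure.restrict_apply MeasurableSet.univ,
    Set.univ_inter, Measure.count_apply hT]

/-- integrals over the pairs, the first lattice outside -/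
theorem gs_int (p : Pr K) (r : Id K) {f : XX K × Lat K → ℂ} (hf : Integrable f (gs_mr p r)) :
    ∫ x, f x ∂(gs_mr p r) = ∫ x in {x : XX K | x.2.det = r},
      ∑ᶠ L' : {L' : Lat K // x.2.Sub p L'}, f (x, L'.1) ∂(mu0 K) := by
  have hS := gs_S_meas p r
  have hdet : MeasurableSet {x : XX K | x.2.det = r} := by
    have h1 : MeasurableSet {L : Lat K | L.det = r} := trivial
    exact measurable_snd h1
  have h1 : Integrable ((gs_S p r).indicator f) (gs_m K) := (integrable_indicator_iff hS).mpr hf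
  rw [gs_mr, ← integral_indicator hS, gs_m, integral_prod _ h1, ← integral_indicator hdet]
  apply integral_congr_ae
  apply Filter.Eventually.of_forall
  intro x
  show ∫ L', (gs_S p r).indicator f (x, L') ∂Measure.count = _
  by_cases hx : x.2.det = r
  · rw [Set.indicator_of_mem (show x ∈ {x : XX K | x.2.det = r} from hx)]
    have h2 := gs_cnt (T := {L' : Lat K | x.2.Sub p L'}) (sub_fin p x.2) (fun L' => f (x, L'))
    refine Eq.trans ?_ h2
    congr 1
    ext L'
    by_cases h : x.2.Sub p L'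
    · rw [Set.indicator_of_mem (show (x, L') ∈ gs_S p r from ⟨hx, h⟩),
        Set.indicator_of_mem (show L' ∈ {L' : Lat K | x.2.Sub p L'} from h)]
    · rw [Set.indicator_of_notMem (fun h' : (x, L') ∈ gs_S p r => h h'.2),
        Set.indicator_of_notMem (fun h' : L' ∈ {L' : Lat K | x.2.Sub p L'} => h h')]
  · rw [Set.indicator_of_notMem (fun h' : x ∈ {x : XX K | x.2.det = r} => hx h')]
    have h2 : ∀ L', (gs_S p r).indicator f (x, L') = 0 := by
      intro L'
      exact Set.indicator_of_notMem (fun h' : (x, L') ∈ gs_S p r => hx h'.1) _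
    simp only [h2, integral_zero]

/-- integrals over the pairs, the second lattice outside -/
theorem gs_int' (p : Pr K) (r : Id K) {f : XX K × Lat K → ℂ} (hf : Integrable f (gs_mr p r)) :
    ∫ x, f x ∂(gs_mr p r) = ∫ y in {y : XX K | y.2.det = HS.frP p * r},
      ∑ᶠ L : {L : Lat K // L.Sub p y.2}, f ((y.1, L.1), y.2) ∂(mu0 K) := by
  have hS := gs_S_meas p r
  have hdet : MeasurableSet {x : XX K | x.2.det = HS.frP p * r} := by
    have h1 : MeasurableSet {L : Lat K | L.det = HS.frP p * r} := trivial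
    exact measurable_snd h1
  have h1 : Integrable ((gs_S p r).indicator f) (gs_m K) := (integrable_indicator_iff hS).mpr hf
  have h1' : Integrable (fun x => (gs_S p r).indicator f (gs_sw x)) (gs_m K) :=
    (gs_sw_mp.integrable_comp_emb gs_sw_emb).mpr h1
  rw [gs_mr, ← integral_indicator hS, ← gs_sw_mp.integral_comp gs_sw_emb, gs_m,
    integral_prod _ h1', ← integral_indicator hdet]
  apply integral_congr_ae
  apply Filter.Eventually.of_forall
  intro y
  show ∫ L, (gs_S p r).indicator f (gs_sw (y, L)) ∂Measure.count = _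
  have hiff : ∀ L : Lat K, gs_sw (y, L) ∈ gs_S p r ↔ (y.2.det = HS.frP p * r ∧ L.Sub p y.2) := by
    intro L
    show (L.det = r ∧ L.Sub p y.2) ↔ _
    constructor
    · rintro ⟨h2, h3⟩
      exact ⟨by rw [sub_det h3, h2], h3⟩
    · rintro ⟨h2, h3⟩
      refine ⟨?_, h3⟩
      rw [sub_det h3] at h2
      exact mul_left_cancel h2
  by_cases hx : y.2.det = HS.frP p * r
  · rw [Set.indicator_of_mem (show y ∈ {x : XX K | x.2.det = HS.frP p * r} from hx)]
    have hfin : Finite {L : Lat K | L.Sub p y.2} := by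
      have h3 := sub_fin p y.2
      apply Finite.of_injective (β := {L' : Lat K // y.2.Sub p L'})
        (fun L => ⟨L.1.sm (HS.frP p), sub_dual.mp L.2⟩)
      intro L1 L2 h4
      have h5 : L1.1.sm (HS.frP p) = L2.1.sm (HS.frP p) := congrArg Subtype.val h4
      have h6 := congrArg (Lat.sm (HS.frP p)⁻¹) h5
      rw [sm_sm, sm_sm, mul_inv_cancel, sm_one, sm_one] at h6
      exact Subtype.ext h6
    have h2 := gs_cnt (T := {L : Lat K | L.Sub p y.2}) hfin (fun L => f ((y.1, L), y.2))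
    refine Eq.trans ?_ h2
    congr 1
    ext L
    by_cases h : L.Sub p y.2
    · rw [Set.indicator_of_mem ((hiff L).mpr ⟨hx, h⟩),
        Set.indicator_of_mem (show L ∈ {L : Lat K | L.Sub p y.2} from h)]
      rfl
    · rw [Set.indicator_of_notMem (fun h' => h ((hiff L).mp h').2),
        Set.indicator_of_notMem (fun h' : L ∈ {L : Lat K | L.Sub p y.2} => h h')]
  · rw [Set.indicator_of_notMem (fun h' : y ∈ {x : XX K | x.2.det = HS.frP p * r} => hx h')]
    have h2 : ∀ L, (gs_S p r).indicator f (gs_sw (y, L)) = 0 := by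
      intro L
      exact Set.indicator_of_notMem (fun h' => hx ((hiff L).mp h').1) _
    simp only [h2, integral_zero]

theorem gs_w_meas (ω : ExW K) : Measurable (fun x => ENNReal.ofReal (ω.w x)) :=
  ENNReal.measurable_ofReal.comp ω.meas

/-- the weight of the first lattice is integrable -/
theorem gs_w1 (ω : ExW K) (p : Pr K) (r : Id K) :
    Integrable (fun x : XX K × Lat K => ω.w x.1) (gs_mr p r) := by
  have hS := gs_S_meas p r
  have hdet : MeasurableSet {x : XX K | x.2.det = r} := by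
    have h1 : MeasurableSet {L : Lat K | L.det = r} := trivial
    exact measurable_snd h1
  have hm : Measurable (fun x : XX K × Lat K => ω.w x.1) := ω.meas.comp measurable_fst
  refine ⟨hm.aestronglyMeasurable, ?_⟩
  rw [HasFiniteIntegral, gs_mr, ← lintegral_indicator hS, gs_m,
    lintegral_prod _ (hm.enorm.indicator hS).aemeasurable]
  have h1 : ∀ x : XX K, ∫⁻ L', (gs_S p r).indicator (fun x => ‖ω.w x.1‖ₑ) (x, L') ∂Measure.count ≤
      ({x : XX K | x.2.det = r}).indicator (fun x => ENNReal.ofReal (ω.w x)) x *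
        ENat.toENNReal ((qP p + 1 : ℕ) : ℕ∞) := by
    intro x
    by_cases hx : x.2.det = r
    · rw [Set.indicator_of_mem (show x ∈ {x : XX K | x.2.det = r} from hx)]
      have hc : {L' : Lat K | x.2.Sub p L'}.encard = ((qP p + 1 : ℕ) : ℕ∞) := by
        have h3 := sub_fin p x.2
        have h4 : {L' : Lat K | x.2.Sub p L'}.Finite := h3
        rw [← Set.Finite.cast_ncard_eq h4, ← sub_card p x.2]
        rfl
      rw [← hc, ← gs_cnt_lint]
      apply le_of_eq
      congr 1
      ext L'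
      by_cases h : x.2.Sub p L'
      · rw [Set.indicator_of_mem (show (x, L') ∈ gs_S p r from ⟨hx, h⟩),
          Set.indicator_of_mem (show L' ∈ {L' : Lat K | x.2.Sub p L'} from h),
          ← ofReal_norm, Real.norm_of_nonneg (ω.nn x)]
      · rw [Set.indicator_of_notMem (fun h' : (x, L') ∈ gs_S p r => h h'.2),
          Set.indicator_of_notMem (fun h' : L' ∈ {L' : Lat K | x.2.Sub p L'} => h h')]
    · have h2 : ∀ L', (gs_S p r).indicator (fun x => ‖ω.w x.1‖ₑ) (x, L') = 0 := by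
        intro L'
        exact Set.indicator_of_notMem (fun h' : (x, L') ∈ gs_S p r => hx h'.1) _
      simp only [h2, lintegral_zero]
      exact zero_le
  refine (lintegral_mono h1).trans_lt ?_
  rw [lintegral_mul_const _ ((gs_w_meas ω).indicator hdet),
    lintegral_indicator hdet]
  exact ENNReal.mul_lt_top (ω.fin r) (by simp)

/-- the weight of the second lattice is integrable -/
theorem gs_w2 (ω : ExW K) (p : Pr K) (r : Id K) :
    Integrable (fun x : XX K × Lat K => ω.w (x.1.1, x.2)) (gs_mr p r) := by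
  have hS := gs_S_meas p r
  have hdet : MeasurableSet {x : XX K | x.2.det = HS.frP p * r} := by
    have h1 : MeasurableSet {L : Lat K | L.det = HS.frP p * r} := trivial
    exact measurable_snd h1
  have hm1 : Measurable (fun x : XX K × Lat K => ω.w x.1) := ω.meas.comp measurable_fst
  have hm : Measurable (fun x : XX K × Lat K => ω.w (x.1.1, x.2)) := hm1.comp gs_sw_meas
  have hm3 : Measurable (fun x : XX K × Lat K => (gs_S p r).indicator
      (fun x : XX K × Lat K => ‖ω.w (x.1.1, x.2)‖ₑ) (gs_sw x)) :=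
    (hm.enorm.indicator hS).comp gs_sw_meas
  refine ⟨hm.aestronglyMeasurable, ?_⟩
  rw [HasFiniteIntegral, gs_mr, ← lintegral_indicator hS, ← gs_sw_mp.lintegral_comp
    (hm.enorm.indicator hS), gs_m, lintegral_prod _ hm3.aemeasurable]
  have h1 : ∀ x : XX K, ∫⁻ L, (gs_S p r).indicator (fun x : XX K × Lat K => ‖ω.w (x.1.1, x.2)‖ₑ)
      (gs_sw (x, L)) ∂Measure.count ≤
      ({x : XX K | x.2.det = HS.frP p * r}).indicator (fun x => ENNReal.ofReal (ω.w x)) x *
        ENat.toENNReal ((qP p + 1 : ℕ) : ℕ∞) := by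
    intro x
    have hiff : ∀ L : Lat K, gs_sw (x, L) ∈ gs_S p r ↔ (x.2.det = HS.frP p * r ∧ L.Sub p x.2) := by
      intro L
      show (L.det = r ∧ L.Sub p x.2) ↔ _
      constructor
      · rintro ⟨h2, h3⟩
        exact ⟨by rw [sub_det h3, h2], h3⟩
      · rintro ⟨h2, h3⟩
        refine ⟨?_, h3⟩
        rw [sub_det h3] at h2
        exact mul_left_cancel h2
    by_cases hx : x.2.det = HS.frP p * r
    · rw [Set.indicator_of_mem (show x ∈ {x : XX K | x.2.det = HS.frP p * r} from hx)]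
      have hc : {L : Lat K | L.Sub p x.2}.encard ≤ ((qP p + 1 : ℕ) : ℕ∞) := by
        have h3 := sub_fin p x.2
        have h4 : {L' : Lat K | x.2.Sub p L'}.Finite := h3
        have h5 : {L' : Lat K | x.2.Sub p L'}.encard = ((qP p + 1 : ℕ) : ℕ∞) := by
          rw [← Set.Finite.cast_ncard_eq h4, ← sub_card p x.2]
          rfl
        rw [← h5]
        have hinj : Function.Injective (fun L : Lat K => L.sm (HS.frP p)) := by
          intro L1 L2 h5
          have h6 := congrArg (Lat.sm (HS.frP p)⁻¹) h5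
          simp only [sm_sm, mul_inv_cancel, sm_one] at h6
          exact h6
        rw [← hinj.encard_image]
        apply Set.encard_le_encard
        rintro _ ⟨L, hL, rfl⟩
        exact sub_dual.mp hL
      have h2 : ∫⁻ L, (gs_S p r).indicator (fun x : XX K × Lat K => ‖ω.w (x.1.1, x.2)‖ₑ)
          (gs_sw (x, L)) ∂Measure.count =
          ∫⁻ L, ({L : Lat K | L.Sub p x.2}).indicator (fun _ => ENNReal.ofReal (ω.w x)) L
            ∂Measure.count := by
        congr 1
        ext L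
        by_cases h : L.Sub p x.2
        · rw [Set.indicator_of_mem ((hiff L).mpr ⟨hx, h⟩),
            Set.indicator_of_mem (show L ∈ {L : Lat K | L.Sub p x.2} from h),
            ← ofReal_norm, Real.norm_of_nonneg (ω.nn _)]
          rfl
        · rw [Set.indicator_of_notMem (fun h' => h ((hiff L).mp h').2),
            Set.indicator_of_notMem (fun h' : L ∈ {L : Lat K | L.Sub p x.2} => h h')]
      rw [h2, gs_cnt_lint]
      exact mul_le_mul_right (ENat.toENNReal_mono hc) _
    · have h2 : ∀ L, (gs_S p r).indicator (fun x : XX K × Lat K => ‖ω.w (x.1.1, x.2)‖ₑ)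
          (gs_sw (x, L)) = 0 := by
        intro L
        exact Set.indicator_of_notMem (fun h' => hx ((hiff L).mp h').1) _
      simp only [h2, lintegral_zero]
      exact zero_le
  refine (lintegral_mono h1).trans_lt ?_
  rw [lintegral_mul_const _ ((gs_w_meas ω).indicator hdet),
    lintegral_indicator hdet]
  exact ENNReal.mul_lt_top (ω.fin _) (by simp)

end

section

variable [IsTotallyReal K]

theorem gs_det_one (g : SL(2, K)) (w : Em K) :
    0 < w (((g : GL (Fin 2) K)) : Matrix (Fin 2) (Fin 2) K).det := by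
  have : (((g : GL (Fin 2) K)) : Matrix (Fin 2) (Fin 2) K).det = 1 := g.2
  rw [this, map_one]
  exact one_pos

theorem gs_inv {k : ℕ} {F F' : (Em K → ℍ) → Lat K → ℂ} (hF : IsForm k F)
    (hF' : IsForm k F') (g : SL(2, K)) (x : XX K × Lat K) :
    PF k F (g • x).1.1 (g • x).2 * starRingEnd ℂ (PF k F' (g • x).1.1 (g • x).1.2) =
      PF k F x.1.1 x.2 * starRingEnd ℂ (PF k F' x.1.1 x.1.2) :=
  pf_gl hF hF' (g : GL (Fin 2) K) (gs_det_one g) x.1.1 x.2 x.1.2

theorem gs_bij {k : ℕ} {F' : (Em K → ℍ) → Lat K → ℂ} (hF' : IsForm k F') (p : Pr K)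
    (z : Em K → ℍ) (L' : Lat K) :
    ∑ᶠ L : {L : Lat K // L.Sub p L'}, PF k F' z L.1 =
      ∑ᶠ L : {L : Lat K // L'.Sub p L}, PF k F' z L.1 := by
  apply finsum_eq_of_bijective (fun L : {L : Lat K // L.Sub p L'} =>
    (⟨L.1.sm (HS.frP p), sub_dual.mp L.2⟩ : {L : Lat K // L'.Sub p L}))
  · constructor
    · intro L1 L2 h4
      have h5 : L1.1.sm (HS.frP p) = L2.1.sm (HS.frP p) := congrArg Subtype.val h4
      have h6 := congrArg (Lat.sm (HS.frP p)⁻¹) h5
      rw [sm_sm, sm_sm, mul_inv_cancel, sm_one, sm_one] at h6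
      exact Subtype.ext h6
    · intro L2
      have h1 : (L2.1.sm (HS.frP p)⁻¹).sm (HS.frP p) = L2.1 := by
        rw [sm_sm, inv_mul_cancel, sm_one]
      refine ⟨⟨L2.1.sm (HS.frP p)⁻¹, ?_⟩, Subtype.ext h1⟩
      rw [sub_dual, h1]
      exact L2.2
  · intro L
    exact (pf_sm hF' (HS.frP p) z L.1).symm

/-- exchange of the weights -/
theorem gs_A (ω : ExW K) {k : ℕ} {F F' : (Em K → ℍ) → Lat K → ℂ} (hF : IsForm k F)
    (hF' : IsForm k F') (p : Pr K) (r : Id K) :
    ∫ x in {x : XX K | x.2.det = r}, (ω.w x : ℂ) *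
      ((∑ᶠ L' : {L' : Lat K // x.2.Sub p L'}, PF k F x.1 L'.1) *
        starRingEnd ℂ (PF k F' x.1 x.2)) ∂(mu0 K) =
    ∫ x in {x : XX K | x.2.det = HS.frP p * r}, (ω.w x : ℂ) * (PF k F x.1 x.2 *
        starRingEnd ℂ (∑ᶠ L' : {L' : Lat K // x.2.Sub p L'}, PF k F' x.1 L'.1)) ∂(mu0 K) := by
  obtain ⟨C, hC0, hC⟩ := pf_bdd hF
  obtain ⟨C', hC0', hC'⟩ := pf_bdd hF'
  set H : XX K × Lat K → ℂ := fun x => PF k F x.1.1 x.2 * starRingEnd ℂ (PF k F' x.1.1 x.1.2) with hH
  have hHm : Measurable H := by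
    have h1 : Measurable (fun x : XX K × Lat K => PF k F x.1.1 x.2) :=
      ((pf_meas hF).comp measurable_fst).comp gs_sw_meas
    have h2 : Measurable (fun x : XX K × Lat K => starRingEnd ℂ (PF k F' x.1.1 x.1.2)) :=
      Complex.continuous_conj.measurable.comp ((pf_meas hF').comp measurable_fst)
    exact h1.mul h2
  have hHb : ∀ x, ‖H x‖ ≤ C * C' := by
    intro x
    simp only [hH]
    rw [norm_mul, RCLike.norm_conj]
    exact mul_le_mul (hC _ _) (hC' _ _) (norm_nonneg _) hC0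
  have hw2 : Measurable (fun x : XX K × Lat K => ω.w (x.1.1, x.2)) :=
    (ω.meas.comp measurable_fst).comp gs_sw_meas
  have h1 := unf_c (gs_mr p r) (gs_mr_act p r) (w := fun x => ω.w x.1)
    (w' := fun x => ω.w (x.1.1, x.2)) (ω.meas.comp measurable_fst) hw2 (fun x => ω.nn _)
    (fun x => ω.nn _) (fun x => ω.ex x.1) (fun x => ω.ex (x.1.1, x.2)) (gs_w1 ω p r) (gs_w2 ω p r)
    hHm hHb (gs_inv hF hF')
  have hi1 : Integrable (fun x : XX K × Lat K => (ω.w x.1 : ℂ) * H x) (gs_mr p r) :=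
    (gs_w1 ω p r).ofReal.mul_bdd hHm.aestronglyMeasurable (Filter.Eventually.of_forall hHb)
  have hi2 : Integrable (fun x : XX K × Lat K => (ω.w (x.1.1, x.2) : ℂ) * H x) (gs_mr p r) :=
    (gs_w2 ω p r).ofReal.mul_bdd hHm.aestronglyMeasurable (Filter.Eventually.of_forall hHb)
  rw [gs_int p r hi1, gs_int' p r hi2] at h1
  have h2 : ∀ x : XX K, (ω.w x : ℂ) * ((∑ᶠ L' : {L' : Lat K // x.2.Sub p L'}, PF k F x.1 L'.1) *
      starRingEnd ℂ (PF k F' x.1 x.2)) =
      ∑ᶠ L' : {L' : Lat K // x.2.Sub p L'}, (ω.w x : ℂ) * H (x, L'.1) := by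
    intro x
    rw [finsum_mul, mul_finsum]
  have h3 : ∀ x : XX K, (ω.w x : ℂ) * (PF k F x.1 x.2 *
      starRingEnd ℂ (∑ᶠ L' : {L' : Lat K // x.2.Sub p L'}, PF k F' x.1 L'.1)) =
      ∑ᶠ L : {L : Lat K // L.Sub p x.2}, (ω.w (x.1, x.2) : ℂ) * H ((x.1, L.1), x.2) := by
    intro x
    rw [← gs_bij hF' p x.1 x.2]
    have hfin : Finite {L : Lat K // L.Sub p x.2} := by
      have h3 := sub_fin p x.2
      apply Finite.of_injective (β := {L' : Lat K // x.2.Sub p L'})
        (fun L => ⟨L.1.sm (HS.frP p), sub_dual.mp L.2⟩)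
      intro L1 L2 h4
      have h5 : L1.1.sm (HS.frP p) = L2.1.sm (HS.frP p) := congrArg Subtype.val h4
      have h6 := congrArg (Lat.sm (HS.frP p)⁻¹) h5
      rw [sm_sm, sm_sm, mul_inv_cancel, sm_one, sm_one] at h6
      exact Subtype.ext h6
    rw [map_finsum _ (Set.toFinite _), mul_finsum, mul_finsum]
  simp_rw [h2, h3]
  exact h1

/-! ### change of the determinant -/

/-- conjugation by a matrix -/
noncomputable def gs_cj (g : GL (Fin 2) K) (γ : SL(2, K)) : SL(2, K) :=
  ⟨(g : Matrix (Fin 2) (Fin 2) K) * (γ : Matrix (Fin 2) (Fin 2) K) *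
    ((g⁻¹ : GL (Fin 2) K) : Matrix (Fin 2) (Fin 2) K), by
      have h1 : (g : Matrix (Fin 2) (Fin 2) K) * ((g⁻¹ : GL (Fin 2) K) : Matrix (Fin 2) (Fin 2) K) = 1 := by
        rw [← Units.val_mul, mul_inv_cancel]
        rfl
      have h2 := congrArg Matrix.det h1
      rw [Matrix.det_mul, Matrix.det_one] at h2
      rw [Matrix.det_mul, Matrix.det_mul, γ.2, mul_one]
      exact h2⟩

omit [NumberField K] [IsTotallyReal K] in
theorem gs_cj_gl (g : GL (Fin 2) K) (γ : SL(2, K)) :
    ((gs_cj g γ : SL(2, K)) : GL (Fin 2) K) = g * (γ : GL (Fin 2) K) * g⁻¹ := by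
  apply Units.ext
  rfl

omit [NumberField K] [IsTotallyReal K] in
theorem gs_gl_inj {γ γ' : SL(2, K)} (h : (γ : GL (Fin 2) K) = (γ' : GL (Fin 2) K)) : γ = γ' := by
  apply Subtype.ext
  exact congrArg (fun g : GL (Fin 2) K => (g : Matrix (Fin 2) (Fin 2) K)) h

/-- conjugation as an equivalence -/
noncomputable def gs_ce (g : GL (Fin 2) K) : SL(2, K) ≃ SL(2, K) where
  toFun := gs_cj g
  invFun := gs_cj g⁻¹
  left_inv γ := by
    apply gs_gl_inj
    rw [gs_cj_gl, gs_cj_gl]
    group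
  right_inv γ := by
    apply gs_gl_inj
    rw [gs_cj_gl, gs_cj_gl]
    group

/-- the transformation -/
noncomputable def gs_T (g : GL (Fin 2) K) (a : Id K) (x : XX K) : XX K :=
  ((g • x.1, (g • x.2).sm a) : XX K)

omit [IsTotallyReal K] in
theorem gs_T_act (g : GL (Fin 2) K) (a : Id K) (γ : SL(2, K)) (x : XX K) :
    gs_T g a (γ • x) = gs_cj g γ • gs_T g a x := by
  apply Prod.ext
  · show g • ((γ : GL (Fin 2) K) • x.1) = ((gs_cj g γ : SL(2, K)) : GL (Fin 2) K) • (g • x.1)
    rw [gs_cj_gl, ← mul_smul, ← mul_smul, inv_mul_cancel_right]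
  · show (g • ((γ : GL (Fin 2) K) • x.2)).sm a = gs_cj g γ • ((g • x.2).sm a)
    rw [act_sm]
    congr 1
    show g • ((γ : GL (Fin 2) K) • x.2) = ((gs_cj g γ : SL(2, K)) : GL (Fin 2) K) • (g • x.2)
    rw [gs_cj_gl, ← mul_smul, ← mul_smul, inv_mul_cancel_right]

/-- the integral depends only on the genus -/
theorem gs_B (ω : ExW K) {k : ℕ} {F F' : (Em K → ℍ) → Lat K → ℂ} (hF : IsForm k F)
    (hF' : IsForm k F') {t : Kˣ} (ht : t ∈ Kp K) (c r : Id K) :
    ∫ x in {x : XX K | x.2.det = prI t * c ^ 2 * r}, (ω.w x : ℂ) * (PF k F x.1 x.2 *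
        starRingEnd ℂ (PF k F' x.1 x.2)) ∂(mu0 K) =
    ∫ x in {x : XX K | x.2.det = r}, (ω.w x : ℂ) * (PF k F x.1 x.2 *
        starRingEnd ℂ (PF k F' x.1 x.2)) ∂(mu0 K) := by
  obtain ⟨C, hC0, hC⟩ := pf_bdd hF
  obtain ⟨C', hC0', hC'⟩ := pf_bdd hF'
  have hdet : Matrix.GeneralLinearGroup.det (dgm t⁻¹) = t⁻¹ := by
    apply Units.ext
    simp [dgm]
  have hpos : ∀ w : Em K, 0 < w (((dgm t⁻¹ : GL (Fin 2) K)) : Matrix (Fin 2) (Fin 2) K).det := by
    intro w
    have h1 : (((dgm t⁻¹ : GL (Fin 2) K)) : Matrix (Fin 2) (Fin 2) K).det = ((t⁻¹ : Kˣ) : K) := by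
      simp [dgm]
    rw [h1]
    exact (Kp K).inv_mem ht w
  have hT := mu0_gl (dgm t⁻¹) c r
  rw [hdet, map_inv, inv_inv] at hT
  have hTm : Measurable (gs_T (dgm t⁻¹) c) := hT.measurable
  have hHm : Measurable (fun x : XX K => PF k F x.1 x.2 * starRingEnd ℂ (PF k F' x.1 x.2)) :=
    (pf_meas hF).mul (Complex.continuous_conj.measurable.comp (pf_meas hF'))
  have hHb : ∀ x : XX K, ‖PF k F x.1 x.2 * starRingEnd ℂ (PF k F' x.1 x.2)‖ ≤ C * C' := by
    intro x
    rw [norm_mul, RCLike.norm_conj]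
    exact mul_le_mul (hC _ _) (hC' _ _) (norm_nonneg _) hC0
  have hwi : ∀ r, Integrable ω.w ((mu0 K).restrict {x : XX K | x.2.det = r}) := by
    intro r
    refine ⟨ω.meas.aestronglyMeasurable, ?_⟩
    refine lt_of_le_of_lt (lintegral_mono fun x => ?_) (ω.fin r)
    show ‖ω.w x‖ₑ ≤ _
    rw [← ofReal_norm, Real.norm_of_nonneg (ω.nn x)]
  rw [← hT.map_eq, integral_map hT.measurable.aemeasurable]
  · have h1 : ∀ x : XX K, (ω.w (gs_T (dgm t⁻¹) c x) : ℂ) *
        (PF k F (gs_T (dgm t⁻¹) c x).1 (gs_T (dgm t⁻¹) c x).2 *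
          starRingEnd ℂ (PF k F' (gs_T (dgm t⁻¹) c x).1 (gs_T (dgm t⁻¹) c x).2)) =
        (ω.w (gs_T (dgm t⁻¹) c x) : ℂ) *
          (PF k F x.1 x.2 * starRingEnd ℂ (PF k F' x.1 x.2)) := by
      intro x
      congr 1
      rw [← pf_gl hF hF' (dgm t⁻¹) hpos x.1 x.2 x.2]
      simp only [gs_T]
      rw [pf_sm hF, pf_sm hF']
    have hex : ∀ x : XX K, HasSum (fun γ : SL(2, K) => ω.w (gs_T (dgm t⁻¹) c (γ • x))) 1 := by
      intro x
      have h3 : HasSum ((fun γ => ω.w (γ • gs_T (dgm t⁻¹) c x)) ∘ (gs_ce (dgm t⁻¹))) 1 :=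
        (gs_ce (dgm t⁻¹)).hasSum_iff.mpr (ω.ex (gs_T (dgm t⁻¹) c x))
      have h4 : (fun γ : SL(2, K) => ω.w (gs_T (dgm t⁻¹) c (γ • x))) =
          (fun γ => ω.w (γ • gs_T (dgm t⁻¹) c x)) ∘ (gs_ce (dgm t⁻¹)) := by
        funext γ
        rw [gs_T_act]
        rfl
      rw [h4]
      exact h3
    have hi : Integrable (fun x => ω.w (gs_T (dgm t⁻¹) c x))
        ((mu0 K).restrict {x : XX K | x.2.det = r}) :=
      hT.integrable_comp_of_integrable (hwi _)
    have h2 := unf_c ((mu0 K).restrict {x : XX K | x.2.det = r}) (fun g => mu0_restrict g r)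
      (w := fun x => ω.w (gs_T (dgm t⁻¹) c x)) (w' := ω.w) (ω.meas.comp hTm) ω.meas
      (fun x => ω.nn _) ω.nn hex ω.ex hi (hwi r) hHm hHb
      (fun g x => gs_inv hF hF' g (x, x.2))
    refine Eq.trans ?_ h2
    apply integral_congr_ae
    exact Filter.Eventually.of_forall h1
  · exact ((Complex.measurable_ofReal.comp ω.meas).mul hHm).aestronglyMeasurable

/-! ### the Petersson product -/

/-- the product over the lattices of a given determinant -/
noncomputable def gs_C (ω : ExW K) (k : ℕ) (F F' : (Em K → ℍ) → Lat K → ℂ) (r : Id K) : ℂ :=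
  ∫ x in {x : XX K | x.2.det = r}, (ω.w x : ℂ) * (PF k F x.1 x.2 *
        starRingEnd ℂ (PF k F' x.1 x.2)) ∂(mu0 K)

theorem gs_pet [Fintype (Gen K)] (ω : ExW K) {k : ℕ} {F F' : (Em K → ℍ) → Lat K → ℂ}
    (hF : IsForm k F) (hF' : IsForm k F') :
    pet ω k F F' = ∑ κ : Gen K, gs_C ω k F F' κ.out := by
  obtain ⟨C, hC0, hC⟩ := pf_bdd hF
  obtain ⟨C', hC0', hC'⟩ := pf_bdd hF'
  have hfin : IsFiniteMeasure (mX ω) := mX_fin ω
  have hHm : Measurable (fun x : XX K => PF k F x.1 x.2 * starRingEnd ℂ (PF k F' x.1 x.2)) :=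
    (pf_meas hF).mul (Complex.continuous_conj.measurable.comp (pf_meas hF'))
  have hHb : ∀ x : XX K, ‖PF k F x.1 x.2 * starRingEnd ℂ (PF k F' x.1 x.2)‖ ≤ C * C' := by
    intro x
    rw [norm_mul, RCLike.norm_conj]
    exact mul_le_mul (hC _ _) (hC' _ _) (norm_nonneg _) hC0
  have hi : Integrable (fun x : XX K => PF k F x.1 x.2 * starRingEnd ℂ (PF k F' x.1 x.2)) (mX ω) :=
    Integrable.of_bound hHm.aestronglyMeasurable (C * C') (Filter.Eventually.of_forall hHb)
  rw [pet, mX, integral_sum_measure hi, tsum_fintype]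
  apply Finset.sum_congr rfl
  intro κ _
  rw [mr, integral_withDensity_eq_integral_toReal_smul (gs_w_meas ω)
    (Filter.Eventually.of_forall (fun x => ENNReal.ofReal_lt_top)), gs_C]
  congr 1
  ext x
  rw [ENNReal.toReal_ofReal (ω.nn x), Complex.real_smul]

/-- the adjoint of the Hecke operator -/
theorem gs_adj (ω : ExW K) {k : ℕ} {F F' : (Em K → ℍ) → Lat K → ℂ} (hF : IsForm k F)
    (hF' : IsForm k F') (p : Pr K) (r : Id K) :
    gs_C ω k (TT p F) F' r = gs_C ω k F (TT p F') (HS.frP p * r) := by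
  rw [gs_C, gs_C]
  have h1 := gs_A ω hF hF' p r
  have h2 : ∀ x : XX K, (ω.w x : ℂ) * (PF k (TT p F) x.1 x.2 *
      starRingEnd ℂ (PF k F' x.1 x.2)) = (((qP p : ℝ) ^ (-(k : ℝ) / 2) : ℝ) : ℂ) *
      ((ω.w x : ℂ) * ((∑ᶠ L' : {L' : Lat K // x.2.Sub p L'}, PF k F x.1 L'.1) *
        starRingEnd ℂ (PF k F' x.1 x.2))) := by
    intro x
    rw [pf_TT]
    ring
  have h3 : ∀ x : XX K, (ω.w x : ℂ) * (PF k F x.1 x.2 *
      starRingEnd ℂ (PF k (TT p F') x.1 x.2)) = (((qP p : ℝ) ^ (-(k : ℝ) / 2) : ℝ) : ℂ) *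
      ((ω.w x : ℂ) * (PF k F x.1 x.2 *
        starRingEnd ℂ (∑ᶠ L' : {L' : Lat K // x.2.Sub p L'}, PF k F' x.1 L'.1))) := by
    intro x
    rw [pf_TT, map_mul, Complex.conj_ofReal]
    ring
  simp_rw [h2, h3]
  rw [integral_const_mul, integral_const_mul, h1]

theorem gs_gen (ω : ExW K) {k : ℕ} {F F' : (Em K → ℍ) → Lat K → ℂ} (hF : IsForm k F)
    (hF' : IsForm k F') (p r : Id K) :
    gs_C ω k F F' (p * r) = gs_C ω k F F' ((QuotientGroup.mk (p * r) : Gen K).out) := by
  obtain ⟨t, c, ht, h⟩ := gen_shift p r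
  rw [h]
  exact (gs_B ω hF hF' ht c (p * r)).symm

theorem pet_TT (ω : ExW K) {k : ℕ} {F F' : (Em K → ℍ) → Lat K → ℂ} (hF : IsForm k F)
    (hF' : IsForm k F') (p : Pr K) : pet ω k (TT p F) F' = pet ω k F (TT p F') := by
  classical
  have := gen_finite (K := K)
  have := Fintype.ofFinite (Gen K)
  rw [gs_pet ω (form_TT hF p) hF', gs_pet ω hF (form_TT hF' p)]
  have h1 : ∀ κ : Gen K, gs_C ω k (TT p F) F' κ.out =
      gs_C ω k F (TT p F') (((QuotientGroup.mk (HS.frP p) : Gen K) * κ).out) := by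
    intro κ
    rw [gs_adj ω hF hF' p, gs_gen ω hF (form_TT hF' p), QuotientGroup.mk_mul, QuotientGroup.out_eq']
  rw [Finset.sum_congr rfl (fun κ _ => h1 κ)]
  exact Equiv.sum_comp (Equiv.mulLeft (QuotientGroup.mk (HS.frP p) : Gen K))
    (fun κ => gs_C ω k F (TT p F') κ.out)

theorem eig_orth (ω : ExW K) {k : ℕ} {F F' : (Em K → ℍ) → Lat K → ℂ} {lam lam' : Pr K → ℝ}
    (h : IsEig k F lam) (h' : IsEig k F' lam') (hne : lam ≠ lam') : pet ω k F F' = 0 := by
  obtain ⟨p, hp⟩ := Function.ne_iff.mp hne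
  have h1 := pet_TT ω h.form h'.form p
  have h2 : TT p F = fun z L => (((qP p : ℝ) ^ ((1 - (k : ℝ)) / 2) * lam p : ℝ) : ℂ) * F z L := by
    funext z L
    exact h.eig p z L
  have h3 : TT p F' = fun z L => (((qP p : ℝ) ^ ((1 - (k : ℝ)) / 2) * lam' p : ℝ) : ℂ) * F' z L := by
    funext z L
    exact h'.eig p z L
  have h4 : pet ω k (TT p F) F' =
      (((qP p : ℝ) ^ ((1 - (k : ℝ)) / 2) * lam p : ℝ) : ℂ) * pet ω k F F' := by
    rw [h2, pet, pet, ← integral_const_mul]
    congr 1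
    ext x
    simp only [PF]
    ring
  have h5 : pet ω k F (TT p F') =
      (((qP p : ℝ) ^ ((1 - (k : ℝ)) / 2) * lam' p : ℝ) : ℂ) * pet ω k F F' := by
    rw [h3, pet, pet, ← integral_const_mul]
    congr 1
    ext x
    simp only [PF, map_mul, Complex.conj_ofReal]
    ring
  rw [h4, h5] at h1
  have hq : (0 : ℝ) < (qP p : ℝ) ^ ((1 - (k : ℝ)) / 2) := by
    apply Real.rpow_pos_of_pos
    have := (pI_facts p).2.2.2
    exact_mod_cast lt_of_lt_of_le two_pos this
  have h6 : (((qP p : ℝ) ^ ((1 - (k : ℝ)) / 2) * lam p : ℝ) : ℂ) -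
      (((qP p : ℝ) ^ ((1 - (k : ℝ)) / 2) * lam' p : ℝ) : ℂ) ≠ 0 := by
    rw [← Complex.ofReal_sub, ← mul_sub]
    exact_mod_cast mul_ne_zero hq.ne' (sub_ne_zero.mpr hp)
  have h7 : ((((qP p : ℝ) ^ ((1 - (k : ℝ)) / 2) * lam p : ℝ) : ℂ) -
      (((qP p : ℝ) ^ ((1 - (k : ℝ)) / 2) * lam' p : ℝ) : ℂ)) * pet ω k F F' = 0 := by
    rw [_root_.sub_mul, h1, sub_self]
  exact (mul_eq_zero.mp h7).resolve_left h6


end

end Pool.Agent.HSG
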