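import Pool.Agent.Lib_helper84.HSG.DefsB
import Pool.Agent.Lib_helper45.HSF.G0

namespace Pool.Agent.HSG

open Complex MeasureTheory Filter Topology UpperHalfPlane NumberField IsDedekindDomain
open scoped nonZeroDivisors MatrixGroups ENNReal

theorem gn1_gd_nonneg (k n : ℕ) (u : ℝ) : 0 ≤ WA.gd k n u := (Real.exp_pos _).le

theorem gn1_gd_cont (k n : ℕ) : Continuous (WA.gd k n) := by
  unfold WA.gd
  fun_prop

theorem gn1_gd_int {k : ℕ} (hk : 1 ≤ k) : Integrable (WA.gd k 1) := by
  have h := (HS.GD_mellin (k := k) (n := 1) hk le_rfl (z := 0) (by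
    have : (1 : ℝ) ≤ k := by exact_mod_cast hk
    simp only [Complex.zero_re]
    linarith)).1
  have h2 : Integrable (fun u : ℝ => (WA.gd k 1 u : ℂ)) := by
    simpa [HS.GD] using h
  exact h2.re.congr (Filter.Eventually.of_forall fun u => by simp)

theorem gn1_int {k n : ℕ} (hk : 1 ≤ k) (v : ℝ) :
    Integrable (fun u : ℝ => HS.GD k n (v - u) * WA.gd k 1 u) := by
  obtain ⟨C, hC, hb⟩ := HS.GD_up (k := k) (n := n) hk 0 le_rfl
  have hc : Continuous (fun u : ℝ => HS.GD k n (v - u)) :=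
    (HS.GD_cont (k := k) (n := n) hk).comp (continuous_const.sub continuous_id)
  refine Integrable.bdd_mul (c := C) (gn1_gd_int hk) hc.aestronglyMeasurable ?_
  refine Filter.Eventually.of_forall fun u => ?_
  have h1 := hb (v - u)
  simp only [zero_mul, neg_zero, Real.exp_zero, mul_one] at h1
  rw [Real.norm_eq_abs, abs_of_nonneg (HS.GD_nonneg k n _)]
  exact h1

theorem gn1_fin {k : ℕ} (hk : 1 ≤ k) (n : ℕ) : ∀ {f : ℝ → ℝ≥0∞}, Measurable f →
    ∫⁻ u : Fin (n + 1) → ℝ, f (∑ w, u w) * ENNReal.ofReal (∏ w, WA.gd k 1 (u w)) =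
      ∫⁻ v : ℝ, f v * ENNReal.ofReal (HS.GD k (n + 1) v) := by
  induction n with
  | zero =>
    intro f hf
    show ∫⁻ u : Fin 1 → ℝ, f (∑ w, u w) * ENNReal.ofReal (∏ w, WA.gd k 1 (u w)) =
      ∫⁻ v : ℝ, f v * ENNReal.ofReal (HS.GD k 1 v)
    have hmp : MeasurePreserving (MeasurableEquiv.funUnique (Fin 1) ℝ)
        (volume : Measure (Fin 1 → ℝ)) volume := by
      have h := MeasureTheory.volume_preserving_funUnique (Fin 1) ℝ
      have e : (Unique.fintype : Fintype (Fin 1)) = Fin.fintype 1 := Subsingleton.elim _ _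
      rw [e] at h
      exact h
    rw [← hmp.symm.lintegral_comp_emb (MeasurableEquiv.measurableEmbedding _)]
    refine lintegral_congr fun v => ?_
    simp [HS.GD, MeasurableEquiv.funUnique]
  | succ n ih =>
    intro f hf
    have hmp := MeasureTheory.volume_preserving_piFinSuccAbove (fun _ : Fin (n + 2) => ℝ) 0
    have hgdm : Measurable (WA.gd k 1) := (gn1_gd_cont k 1).measurable
    have hGDm : Measurable (HS.GD k (n + 1)) := (HS.GD_cont (k := k) (n := n + 1) hk).measurable
    rw [← hmp.symm.lintegral_comp_emb (MeasurableEquiv.measurableEmbedding _)]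
    have e1 : ∀ p : ℝ × (Fin (n + 1) → ℝ),
        f (∑ w, ((MeasurableEquiv.piFinSuccAbove (fun _ : Fin (n + 2) => ℝ) 0).symm p) w) *
          ENNReal.ofReal (∏ w, WA.gd k 1
            (((MeasurableEquiv.piFinSuccAbove (fun _ : Fin (n + 2) => ℝ) 0).symm p) w)) =
        ENNReal.ofReal (WA.gd k 1 p.1) * (f (p.1 + ∑ w, p.2 w) *
          ENNReal.ofReal (∏ w, WA.gd k 1 (p.2 w))) := by
      intro p
      have h1 : ∀ g : ℝ → ℝ, True := fun _ => trivial
      rw [Fin.sum_univ_succ, Fin.prod_univ_succ]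
      have h2 : ((MeasurableEquiv.piFinSuccAbove (fun _ : Fin (n + 2) => ℝ) 0).symm p) 0 = p.1 := by
        simp [MeasurableEquiv.piFinSuccAbove]
      have h3 : ∀ i : Fin (n + 1),
          ((MeasurableEquiv.piFinSuccAbove (fun _ : Fin (n + 2) => ℝ) 0).symm p) i.succ = p.2 i := by
        intro i
        simp [MeasurableEquiv.piFinSuccAbove]
      simp only [h2, h3]
      rw [ENNReal.ofReal_mul (gn1_gd_nonneg k 1 _)]
      ring
    simp_rw [e1]
    have hm : Measurable (fun p : ℝ × (Fin (n + 1) → ℝ) => ENNReal.ofReal (WA.gd k 1 p.1) *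
        (f (p.1 + ∑ w, p.2 w) * ENNReal.ofReal (∏ w, WA.gd k 1 (p.2 w)))) := by
      have ha : Measurable (fun p : ℝ × (Fin (n + 1) → ℝ) => p.1 + ∑ w, p.2 w) :=
        measurable_fst.add (Finset.measurable_sum _ fun w _ =>
          (measurable_pi_apply w).comp measurable_snd)
      have hb : Measurable (fun p : ℝ × (Fin (n + 1) → ℝ) => ∏ w, WA.gd k 1 (p.2 w)) :=
        Finset.measurable_prod _ fun w _ => hgdm.comp ((measurable_pi_apply w).comp measurable_snd)
      exact (hgdm.comp measurable_fst).ennreal_ofReal.mul ((hf.comp ha).mul hb.ennreal_ofReal)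
    rw [Measure.volume_eq_prod, lintegral_prod _ hm.aemeasurable]
    have e2 : ∀ x : ℝ, ∫⁻ u : Fin (n + 1) → ℝ, ENNReal.ofReal (WA.gd k 1 x) *
        (f (x + ∑ w, u w) * ENNReal.ofReal (∏ w, WA.gd k 1 (u w))) =
        ∫⁻ v : ℝ, f v * (ENNReal.ofReal (HS.GD k (n + 1) (v - x)) *
          ENNReal.ofReal (WA.gd k 1 x)) := by
      intro x
      have hfx : Measurable (fun v : ℝ => f (x + v)) := hf.comp (measurable_const_add x)
      rw [lintegral_const_mul' _ _ ENNReal.ofReal_ne_top, ih hfx,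
        ← lintegral_const_mul' _ _ ENNReal.ofReal_ne_top]
      rw [← lintegral_sub_right_eq_self (μ := volume)
        (fun v : ℝ => ENNReal.ofReal (WA.gd k 1 x) *
          (f (x + v) * ENNReal.ofReal (HS.GD k (n + 1) v))) x]
      refine lintegral_congr fun v => ?_
      rw [show x + (v - x) = v by ring]
      ring
    simp_rw [e2]
    rw [lintegral_lintegral_swap]
    · refine lintegral_congr fun v => ?_
      have hme : Measurable (fun x : ℝ => ENNReal.ofReal (HS.GD k (n + 1) (v - x)) *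
          ENNReal.ofReal (WA.gd k 1 x)) :=
        (hGDm.comp (measurable_const.sub measurable_id)).ennreal_ofReal.mul hgdm.ennreal_ofReal
      rw [lintegral_const_mul _ hme]
      congr 1
      have e3 : ∀ x : ℝ, ENNReal.ofReal (HS.GD k (n + 1) (v - x)) *
          ENNReal.ofReal (WA.gd k 1 x) =
          ENNReal.ofReal (HS.GD k (n + 1) (v - x) * WA.gd k 1 x) := fun x =>
        (ENNReal.ofReal_mul (HS.GD_nonneg k (n + 1) _)).symm
      simp_rw [e3]
      rw [← ofReal_integral_eq_lintegral_ofReal (gn1_int hk v)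
        (Filter.Eventually.of_forall fun x =>
          mul_nonneg (HS.GD_nonneg k (n + 1) _) (gn1_gd_nonneg k 1 _))]
      rfl
    · have hA : Measurable (fun p : ℝ × ℝ => HS.GD k (n + 1) (p.2 - p.1)) :=
        hGDm.comp (measurable_snd.sub measurable_fst)
      exact ((hf.comp measurable_snd).mul (hA.ennreal_ofReal.mul
        (hgdm.comp measurable_fst).ennreal_ofReal)).aemeasurable

theorem GD_pi (ι : Type) [Fintype ι] [Nonempty ι] {k : ℕ} (hk : 1 ≤ k) {f : ℝ → ℝ≥0∞}
    (hf : Measurable f) :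
    ∫⁻ u : ι → ℝ, f (∑ w, u w) * ENNReal.ofReal (∏ w, WA.gd k 1 (u w)) =
      ∫⁻ v : ℝ, f v * ENNReal.ofReal (HS.GD k (Fintype.card ι) v) := by
  obtain ⟨n, hn⟩ : ∃ n, Fintype.card ι = n + 1 :=
    ⟨Fintype.card ι - 1, (Nat.succ_pred_eq_of_pos Fintype.card_pos).symm⟩
  rw [hn, ← gn1_fin hk n hf]
  let e : Fin (n + 1) ≃ ι := (Fintype.equivFinOfCardEq hn).symm
  have hmp := MeasureTheory.volume_measurePreserving_piCongrLeft (fun _ : ι => ℝ) e
  rw [← hmp.lintegral_comp_emb (MeasurableEquiv.measurableEmbedding _)]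
  refine lintegral_congr fun u => ?_
  have h1 : ∀ i : Fin (n + 1), (MeasurableEquiv.piCongrLeft (fun _ : ι => ℝ) e) u (e i) = u i := by
    intro i
    simp [MeasurableEquiv.piCongrLeft, Equiv.piCongrLeft_apply_apply]
  rw [← Equiv.sum_comp e, ← Equiv.prod_comp e]
  simp only [h1]

end Pool.Agent.HSG
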