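import Pool.Agent.Lib_helper84.HSG.DefsB
import Pool.Agent.Lib_helper98.WAF.B5a
import Pool.Agent.Lib_helper84.HSGF.GA1
import Pool.Agent.Lib_helper84.HSGF.GA3
import Pool.Agent.Lib_helper84.HSGF.GD1
import Pool.Agent.Lib_helper84.HSGF.GD2
import Pool.Agent.Lib_helper84.HSGF.GL2
import Pool.Agent.Lib_helper84.HSGF.GN1
import Pool.Agent.Lib_helper45.HSF.G0

/-!
# Block GN2 (GEO): coefficients as integrals over geodesics
-/

namespace Pool.Agent.HSG

open Complex MeasureTheory Filter Topology UpperHalfPlane NumberField IsDedekindDomain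
open scoped nonZeroDivisors MatrixGroups ENNReal

variable {K : Type} [Field K] [NumberField K]

/-! ### Folding over the totally positive units -/

theorem gn2_countU (K : Type) [Field K] [NumberField K] : Countable Kˣ := by
  have := countK K
  exact (Units.val_injective (α := K)).countable

theorem gn2_countUp (K : Type) [Field K] [NumberField K] : Countable (Up K) := by
  have := gn2_countU K
  exact Subtype.countable

theorem gn2_rep (r m : Id K) (h : (QuotientGroup.mk m : NCl K) = QuotientGroup.mk r) :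
    ∃ ν : Kp K, prI ν.1 * r = m := by
  have h1 : r⁻¹ * m ∈ Pp K := QuotientGroup.eq.1 h.symm
  obtain ⟨t, ht, ht'⟩ := h1
  refine ⟨⟨t, ht⟩, ?_⟩
  show prI t * r = m
  rw [ht', mul_comm, mul_inv_cancel_left]

/-- a chosen totally positive element -/
noncomputable def gn2_nu (r : Id K)
    (m : {m : Id K // (QuotientGroup.mk m : NCl K) = QuotientGroup.mk r}) : Kp K :=
  (gn2_rep r m.1 m.2).choose

theorem gn2_nu_spec (r : Id K)
    (m : {m : Id K // (QuotientGroup.mk m : NCl K) = QuotientGroup.mk r}) :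
    prI (gn2_nu r m).1 * r = m.1 := (gn2_rep r m.1 m.2).choose_spec

/-- the elements of a narrow class and the totally positive units -/
noncomputable def gn2_f (r : Id K)
    (x : {m : Id K // (QuotientGroup.mk m : NCl K) = QuotientGroup.mk r} × Up K) : Kp K :=
  gn2_nu r x.1 * ⟨x.2.1, x.2.2.1⟩

theorem gn2_f_prI (r : Id K)
    (x : {m : Id K // (QuotientGroup.mk m : NCl K) = QuotientGroup.mk r} × Up K) :
    prI (gn2_f r x).1 * r = x.1.1 := by
  have hε : prI x.2.1 = 1 := x.2.2.2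
  have h1 : prI (gn2_f r x).1 = prI (gn2_nu r x.1).1 := by
    show prI ((gn2_nu r x.1).1 * x.2.1) = _
    rw [map_mul, hε, mul_one]
  rw [h1]
  exact gn2_nu_spec r x.1

theorem gn2_bij (r : Id K) : Function.Bijective (gn2_f r) := by
  constructor
  · rintro ⟨m, ε⟩ ⟨m', ε'⟩ h
    have h1 := gn2_f_prI r (m, ε)
    rw [h, gn2_f_prI] at h1
    have hm : m = m' := Subtype.ext h1.symm
    subst hm
    have h2 : (⟨ε.1, ε.2.1⟩ : Kp K) = ⟨ε'.1, ε'.2.1⟩ := mul_left_cancel h
    have h3 : ε = ε' := Subtype.ext (congrArg (fun x : Kp K => x.1) h2)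
    rw [h3]
  · intro ν
    have hcl : (QuotientGroup.mk (prI ν.1 * r) : NCl K) = QuotientGroup.mk r := by
      symm
      rw [QuotientGroup.eq]
      refine ⟨ν.1, ν.2, ?_⟩
      rw [mul_comm (prI ν.1) r, inv_mul_cancel_left]
    set m : {m : Id K // (QuotientGroup.mk m : NCl K) = QuotientGroup.mk r} := ⟨_, hcl⟩ with hm
    have hpr : prI (gn2_nu r m).1 = prI ν.1 := mul_right_cancel (gn2_nu_spec r m)
    refine ⟨(m, ⟨((gn2_nu r m)⁻¹ * ν : Kp K).1, ((gn2_nu r m)⁻¹ * ν : Kp K).2, ?_⟩), ?_⟩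
    · show prI _ = 1
      rw [Subgroup.coe_mul, map_mul, Subgroup.coe_inv, map_inv, hpr, inv_mul_cancel]
    · show gn2_nu r m * ((gn2_nu r m)⁻¹ * ν) = ν
      rw [mul_inv_cancel_left]

/-- the equivalence -/
noncomputable def gn2_e (r : Id K) :
    {m : Id K // (QuotientGroup.mk m : NCl K) = QuotientGroup.mk r} × Up K ≃ Kp K :=
  Equiv.ofBijective _ (gn2_bij r)

omit [NumberField K] in
theorem gn2_lg_mul (x y : Kˣ) : lg (x * y) = lg x + lg y := by
  funext w
  show Real.log |w ((x * y : Kˣ) : K)| = Real.log |w (x : K)| + Real.log |w (y : K)|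
  rw [Units.val_mul, map_mul, abs_mul, Real.log_mul]
  · exact abs_ne_zero.2 ((map_ne_zero w).2 x.ne_zero)
  · exact abs_ne_zero.2 ((map_ne_zero w).2 y.ne_zero)

omit [NumberField K] in
theorem gn2_lg_inv (x : Kˣ) : lg x⁻¹ = - lg x := by
  funext w
  show Real.log |w ((x⁻¹ : Kˣ) : K)| = - Real.log |w (x : K)|
  rw [Units.val_inv_eq_inv_val, map_inv₀, abs_inv, Real.log_inv]

omit [NumberField K] in
/-- `e^{lg ν} = ν` for totally positive elements -/
theorem gn2_exp (ν : Kp K) (w : Em K) : Real.exp (lg ν.1 w) = w ((ν.1 : Kˣ) : K) := by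
  have h := ν.2 w
  rw [lg, abs_of_pos h, Real.exp_log h]

section tr
variable [IsTotallyReal K]

theorem gn2_norm (ν : Kp K) : nI (prI ν.1) = ∏ w : Em K, w ((ν.1 : Kˣ) : K) := by
  rw [nI_prI]
  exact Finset.prod_congr rfl fun w _ => abs_of_pos (ν.2 w)

theorem gn2_sum_lg (ν : Kp K) : ∑ w, lg ν.1 w = Real.log (nI (prI ν.1)) := by
  rw [gn2_norm, Real.log_prod (fun w _ => (ν.2 w).ne')]
  refine Finset.sum_congr rfl fun w _ => ?_
  rw [lg, abs_of_pos (ν.2 w)]

omit [IsTotallyReal K] in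
/-- the unit weights sum to one -/
theorem gn2_rho {R0 : ℝ} (ρ : UW K R0) (ν : Kp K) (v : Em K → ℝ) :
    HasSum (fun ε : Up K => ρ.ρ (v - lg (ν.1 * ε.1))) 1 := by
  have h := ρ.sum (v - lg ν.1)
  have h2 := (Equiv.inv (Up K)).hasSum_iff.2 h
  refine h2.congr_fun ?_
  intro ε
  show ρ.ρ (v - lg (ν.1 * ε.1)) = ρ.ρ (v - lg ν.1 + lg ((ε⁻¹ : Up K).1))
  rw [Subgroup.coe_inv, gn2_lg_inv, gn2_lg_mul]
  congr 1
  abel

omit [IsTotallyReal K] in
/-- folding: the complex version -/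
theorem gn2_fold {R0 : ℝ} (ρ : UW K R0) (ν : Kp K) {G : (Em K → ℝ) → ℂ} (hG : Integrable G) :
    HasSum (fun ε : Up K => ∫ u, (ρ.ρ u : ℂ) * G (u + lg (ν.1 * ε.1))) (∫ v, G v) := by
  have := gn2_countUp K
  have h1 : ∀ ε : Up K, ∫ u, (ρ.ρ u : ℂ) * G (u + lg (ν.1 * ε.1)) =
      ∫ v, (ρ.ρ (v - lg (ν.1 * ε.1)) : ℂ) * G v := by
    intro ε
    rw [← integral_add_right_eq_self (fun v => (ρ.ρ (v - lg (ν.1 * ε.1)) : ℂ) * G v)
      (lg (ν.1 * ε.1))]
    refine integral_congr_ae (Eventually.of_forall fun u => ?_)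
    simp only [add_sub_cancel_right]
  simp only [h1]
  refine hasSum_integral_of_dominated_convergence
    (fun ε v => ρ.ρ (v - lg (ν.1 * ε.1)) * ‖G v‖) ?_ ?_ ?_ ?_ ?_
  · intro ε
    refine AEStronglyMeasurable.mul ?_ hG.aestronglyMeasurable
    have hm : Measurable fun v : Em K → ℝ => ρ.ρ (v - lg (ν.1 * ε.1)) :=
      ρ.meas.comp (measurable_id.sub_const _)
    exact (Complex.measurable_ofReal.comp hm).aestronglyMeasurable
  · intro ε
    refine Eventually.of_forall fun v => ?_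
    rw [norm_mul, Complex.norm_real, Real.norm_of_nonneg (ρ.nn _)]
  · refine Eventually.of_forall fun v => ?_
    exact ((gn2_rho ρ ν v).summable).mul_right _
  · have h2 : (fun v => ∑' ε : Up K, ρ.ρ (v - lg (ν.1 * ε.1)) * ‖G v‖) = fun v => ‖G v‖ := by
      funext v
      rw [tsum_mul_right, (gn2_rho ρ ν v).tsum_eq, one_mul]
    rw [h2]
    exact hG.norm
  · refine Eventually.of_forall fun v => ?_
    have h3 := (Complex.hasSum_ofReal.2 (gn2_rho ρ ν v)).mul_right (G v)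
    rw [Complex.ofReal_one, one_mul] at h3
    exact h3

theorem gn2_nonempty (K : Type) [Field K] [NumberField K] [IsTotallyReal K] :
    Nonempty (Em K) := by
  rw [← Fintype.card_pos_iff, card_em]
  exact dg_pos

/-- complex version of `GD_pi` -/
theorem gn2_pi {k : ℕ} (hk : 1 ≤ k) {f : ℝ → ℂ} (hf : Measurable f) :
    ∫ u : Em K → ℝ, f (∑ w, u w) * ((∏ w, WA.gd k 1 (u w) : ℝ) : ℂ) =
      ∫ v, f v * (HS.GD k (dg K) v : ℂ) := by
  have := gn2_nonempty K
  have hgc : Continuous fun u : Em K → ℝ => ∏ w, WA.gd k 1 (u w) := by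
    unfold WA.gd
    fun_prop
  have hG0 : ∀ v, 0 ≤ HS.GD k (Fintype.card (Em K)) v := HS.GD_nonneg k _
  have hGc : Continuous (HS.GD k (Fintype.card (Em K))) := HS.GD_cont hk
  have hSm : Measurable fun u : Em K → ℝ => ∑ w, u w := by fun_prop
  set μ1 : Measure (Em K → ℝ) :=
    volume.withDensity (fun u => ENNReal.ofReal (∏ w, WA.gd k 1 (u w))) with hμ1
  set μ2 : Measure ℝ :=
    volume.withDensity (fun v => ENNReal.ofReal (HS.GD k (Fintype.card (Em K)) v)) with hμ2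
  have hmap : μ1.map (fun u => ∑ w, u w) = μ2 := by
    ext s hs
    rw [Measure.map_apply hSm hs, hμ1, hμ2, withDensity_apply _ (hSm hs), withDensity_apply _ hs,
      ← lintegral_indicator (hSm hs), ← lintegral_indicator hs]
    have h := GD_pi (Em K) hk (f := s.indicator (fun _ => 1)) (measurable_const.indicator hs)
    have e1 : ∀ u : Em K → ℝ, ((fun u : Em K → ℝ => ∑ w, u w) ⁻¹' s).indicator
        (fun u => ENNReal.ofReal (∏ w, WA.gd k 1 (u w))) u =
        s.indicator (fun _ => 1) (∑ w, u w) * ENNReal.ofReal (∏ w, WA.gd k 1 (u w)) := by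
      intro u
      by_cases hu : (∑ w, u w) ∈ s
      · rw [Set.indicator_of_mem hu, one_mul, Set.indicator_of_mem (show u ∈ _ ⁻¹' s from hu)]
      · rw [Set.indicator_of_notMem hu, zero_mul,
          Set.indicator_of_notMem (show u ∉ _ ⁻¹' s from hu)]
    have e2 : ∀ v : ℝ, s.indicator
        (fun v => ENNReal.ofReal (HS.GD k (Fintype.card (Em K)) v)) v =
        s.indicator (fun _ => 1) v * ENNReal.ofReal (HS.GD k (Fintype.card (Em K)) v) := by
      intro v
      by_cases hv : v ∈ s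
      · rw [Set.indicator_of_mem hv, Set.indicator_of_mem hv, one_mul]
      · rw [Set.indicator_of_notMem hv, Set.indicator_of_notMem hv, zero_mul]
    simp only [e1, e2]
    exact h
  have h1 : ∫ u : Em K → ℝ, f (∑ w, u w) * ((∏ w, WA.gd k 1 (u w) : ℝ) : ℂ) =
      ∫ u, f (∑ w, u w) ∂μ1 := by
    rw [hμ1, integral_withDensity_eq_integral_toReal_smul hgc.measurable.ennreal_ofReal
      (Eventually.of_forall fun _ => ENNReal.ofReal_lt_top)]
    refine integral_congr_ae (Eventually.of_forall fun u => ?_)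
    have h0 : 0 ≤ ∏ w, WA.gd k 1 (u w) := Finset.prod_nonneg fun w _ => (Real.exp_pos _).le
    simp only [ENNReal.toReal_ofReal h0, Complex.real_smul]
    rw [mul_comm]
  have h2 : ∫ v, f v * (HS.GD k (dg K) v : ℂ) = ∫ v, f v ∂μ2 := by
    rw [hμ2, integral_withDensity_eq_integral_toReal_smul hGc.measurable.ennreal_ofReal
      (Eventually.of_forall fun _ => ENNReal.ofReal_lt_top)]
    refine integral_congr_ae (Eventually.of_forall fun v => ?_)
    simp only [ENNReal.toReal_ofReal (hG0 v), Complex.real_smul]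
    rw [mul_comm, card_em]
  rw [h1, h2, ← hmap, integral_map hSm.aemeasurable hf.aestronglyMeasurable]

omit [IsTotallyReal K] in
/-- `t ∈ q⁻¹` iff `t q` is integral -/
theorem gn2_mem (t : Kˣ) (q : Id K) : (t : K) ∈ (q⁻¹).m ↔ IsInt (prI t * q) := by
  have h1 := mem_prI_mul t⁻¹ q⁻¹ 1
  rw [inv_inv, mul_one] at h1
  rw [← h1, map_inv, ← mul_inv]
  have h2 : IsInt (prI t * q) ↔ (1 : Id K).m ≤ ((prI t * q)⁻¹).m := by
    rw [← isInt_div, one_div, inv_inv]
  rw [h2]
  constructor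
  · intro h x hx
    obtain ⟨y, rfl⟩ := (mem_m_one x).1 hx
    have := Submodule.smul_mem ((prI t * q)⁻¹).m y h
    rwa [Algebra.smul_def, mul_one] at this
  · intro h
    exact h ((mem_m_one 1).2 ⟨1, by simp⟩)

theorem gn2_prod_gd (k : ℕ) (ν : Kp K) (u : Em K → ℝ) :
    (∏ w, WA.gd k 1 (u w + lg ν.1 w)) = nI (prI ν.1) ^ ((k : ℝ) / 2) *
      ∏ w : Em K, Real.exp (k * u w / 2 - 2 * Real.pi * w ((ν.1 : Kˣ) : K) * Real.exp (u w)) := by
  have h1 : nI (prI ν.1) ^ ((k : ℝ) / 2) = ∏ w : Em K, Real.exp (k * lg ν.1 w / 2) := by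
    rw [← Real.exp_sum, Real.rpow_def_of_pos (nI_pos _), ← gn2_sum_lg]
    congr 1
    rw [Finset.sum_mul]
    exact Finset.sum_congr rfl fun w _ => by ring
  rw [h1, ← Finset.prod_mul_distrib]
  refine Finset.prod_congr rfl fun w _ => ?_
  rw [WA.gd, ← Real.exp_add, Real.exp_add, gn2_exp]
  congr 1
  push_cast
  ring

/-- the integral over the geodesic for one frequency -/
noncomputable def gn2_J (k : ℕ) {R0 : ℝ} (ρ : UW K R0) (Ψ : ℝ → ℂ) (b a : Id K) (ν : Kp K) : ℂ :=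
  ∫ u : Em K → ℝ, (ρ.ρ u : ℂ) * Ψ (∑ w, u w + Real.log (nI (b / a))) *
    ((nI (b / a) ^ ((k : ℝ) / 2) * ∏ w : Em K,
      Real.exp (k * u w / 2 - 2 * Real.pi * w ((ν.1 : Kˣ) : K) * Real.exp (u w)) : ℝ) : ℂ)

theorem gn2_J_fold {k : ℕ} (hk : 1 ≤ k) {R0 : ℝ} (ρ : UW K R0) {Ψ : ℝ → ℂ} {M : ℝ}
    (hm : Measurable Ψ) (hb : ∀ v, ‖Ψ v‖ ≤ M) (b a : Id K)
    (m : {m : Id K // (QuotientGroup.mk m : NCl K) = QuotientGroup.mk (DD K * a / b)}) :
    HasSum (fun ε : Up K => gn2_J k ρ Ψ b a (gn2_f (DD K * a / b) (m, ε)))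
      ((((dK K / nI m.1) ^ ((k : ℝ) / 2) : ℝ) : ℂ) *
        ∫ v, Ψ v * (HS.GD k (dg K) (v + Real.log (nI m.1) - Real.log (dK K)) : ℂ)) := by
  set ν := gn2_nu (DD K * a / b) m with hν
  have hN : ∀ ε : Up K, nI (prI (gn2_f (DD K * a / b) (m, ε)).1) = nI (prI ν.1) := by
    intro ε
    have h1 := gn2_f_prI (DD K * a / b) (m, ε)
    have h2 := gn2_nu_spec (DD K * a / b) m
    rw [mul_right_cancel (h1.trans h2.symm)]
  have hdK : 0 < dK K := lt_of_lt_of_le one_pos dK_ge
  have hba := nI_pos (b / a)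
  have hNν := nI_pos (prI ν.1)
  have hNm := nI_pos m.1
  have hrel : nI m.1 = nI (prI ν.1) * (dK K / nI (b / a)) := by
    rw [← gn2_nu_spec (DD K * a / b) m, nI_mul, nI_div, nI_mul, nI_DD, nI_div, ← hν]
    have := nI_pos a
    have := nI_pos b
    field_simp
  set G : (Em K → ℝ) → ℂ := fun v =>
    Ψ (∑ w, v w - Real.log (nI (prI ν.1)) + Real.log (nI (b / a))) *
      ((nI (b / a) ^ ((k : ℝ) / 2) * nI (prI ν.1) ^ (-((k : ℝ) / 2)) *
        ∏ w, WA.gd k 1 (v w) : ℝ) : ℂ) with hG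
  have hGi : Integrable G := by
    have h1 : Integrable (fun v : Em K → ℝ => ∏ w, WA.gd k 1 (v w)) := by
      rw [volume_pi]
      exact Integrable.fintype_prod (fun _ => (WA.gd_int hk le_rfl).1)
    have h2 : Integrable (fun v : Em K → ℝ => ((nI (b / a) ^ ((k : ℝ) / 2) *
        nI (prI ν.1) ^ (-((k : ℝ) / 2)) * ∏ w, WA.gd k 1 (v w) : ℝ) : ℂ)) :=
      (h1.const_mul _).ofReal
    refine Integrable.bdd_mul (c := M) h2 ?_ (Eventually.of_forall fun v => hb _)
    refine (hm.comp ?_).aestronglyMeasurable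
    fun_prop
  have hfold := gn2_fold ρ ν hGi
  have hE : ∀ ε : Up K, gn2_J k ρ Ψ b a (gn2_f (DD K * a / b) (m, ε)) =
      ∫ u, (ρ.ρ u : ℂ) * G (u + lg (ν.1 * ε.1)) := by
    intro ε
    have hlg : lg (ν.1 * ε.1) = lg (gn2_f (DD K * a / b) (m, ε)).1 := rfl
    rw [hlg, gn2_J]
    refine integral_congr_ae (Eventually.of_forall fun u => ?_)
    simp only [hG, Pi.add_apply]
    rw [mul_assoc]
    congr 1
    congr 1
    · congr 1
      rw [Finset.sum_add_distrib, gn2_sum_lg, hN]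
      ring
    · congr 1
      rw [gn2_prod_gd, hN, ← mul_assoc, mul_assoc (nI (b / a) ^ ((k : ℝ) / 2)),
        ← Real.rpow_add hNν]
      norm_num
  simp only [hE]
  convert hfold using 1
  -- evaluate the integral
  have h3 : ∫ v, G v = ((nI (b / a) ^ ((k : ℝ) / 2) * nI (prI ν.1) ^ (-((k : ℝ) / 2)) : ℝ) : ℂ) *
      ∫ s, Ψ (s - Real.log (nI (prI ν.1)) + Real.log (nI (b / a))) * (HS.GD k (dg K) s : ℂ) := by
    rw [← gn2_pi hk (f := fun s => Ψ (s - Real.log (nI (prI ν.1)) + Real.log (nI (b / a))))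
      (hm.comp (by fun_prop)), ← integral_const_mul]
    refine integral_congr_ae (Eventually.of_forall fun v => ?_)
    simp only [hG]
    push_cast
    ring
  rw [h3]
  congr 1
  · congr 1
    rw [hrel, Real.rpow_neg hNν.le, ← Real.inv_rpow hNν.le, ← Real.mul_rpow hba.le (by positivity)]
    congr 1
    field_simp
  · have hlog : Real.log (nI m.1) - Real.log (dK K) =
        Real.log (nI (prI ν.1)) - Real.log (nI (b / a)) := by
      rw [hrel, Real.log_mul hNν.ne' (by positivity), Real.log_div hdK.ne' hba.ne']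
      ring
    rw [← integral_add_right_eq_self (fun s : ℝ => Ψ (s - Real.log (nI (prI ν.1)) +
      Real.log (nI (b / a))) * (HS.GD k (dg K) s : ℂ))
      (Real.log (nI (prI ν.1)) - Real.log (nI (b / a)))]
    refine integral_congr_ae (Eventually.of_forall fun v => ?_)
    simp only []
    have e1 : v + (Real.log (nI (prI ν.1)) - Real.log (nI (b / a))) - Real.log (nI (prI ν.1)) +
        Real.log (nI (b / a)) = v := by ring
    have e2 : v + Real.log (nI m.1) - Real.log (dK K) =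
        v + (Real.log (nI (prI ν.1)) - Real.log (nI (b / a))) := by
      rw [← hlog]; ring
    rw [e1, e2]

/-- termwise integration over one geodesic -/
theorem gn2_term {k : ℕ} {F : (Em K → ℍ) → Lat K → ℂ}
    {A : Id K → ℂ} (hF : IsForm k F) (hA : IsCo k F A) (b a : Id K) {R0 : ℝ} (ρ : UW K R0)
    {Ψ : ℝ → ℂ} {M V : ℝ} (hm : Measurable Ψ) (hb : ∀ v, ‖Ψ v‖ ≤ M)
    (hs : ∀ v, V < |v| → Ψ v = 0) (β : K) :
    HasSum (fun ν : Kp K => A (prI ν.1 * DD K * a / b) *
        cexp (2 * Real.pi * Complex.I * ((∑ w : Em K, w ((ν.1 : Kˣ) * β) : ℝ) : ℂ)) *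
          gn2_J k ρ Ψ b a ν)
      (∫ u : Em K → ℝ, (ρ.ρ u : ℂ) * Ψ (∑ w, u w + Real.log (nI (b / a))) *
        PF k F (zb β u) (Lat.ds b a)) := by
  have hcu := gn2_countU K
  have : Countable (Kp K) := Subtype.countable
  set t := Real.log (nI (b / a)) with ht
  set V' : ℝ := ρ.R + V + |t| with hV'
  have hM0 : 0 ≤ M := (norm_nonneg _).trans (hb 0)
  have hdg : (1 : ℝ) ≤ (dg K : ℝ) := by exact_mod_cast dg_pos
  -- the region
  have hreg : ∀ u : Em K → ℝ, ρ.ρ u ≠ 0 → Ψ (∑ w, u w + t) ≠ 0 → ∀ w, |u w| ≤ V' := by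
    intro u h1 h2 w
    have h3 := ρ.supp u h1 w
    have h4 : |∑ w, u w + t| ≤ V := by
      by_contra hcon
      push Not at hcon
      exact h2 (hs _ hcon)
    have h5 : |∑ w, u w| ≤ V + |t| := by
      have := abs_sub (∑ w, u w + t) t
      rw [add_sub_cancel_right] at this
      linarith
    have h6 : |(∑ v, u v) / (dg K : ℝ)| ≤ V + |t| := by
      rw [abs_div, abs_of_pos (by linarith : (0 : ℝ) < dg K), div_le_iff₀ (by linarith)]
      have : 0 ≤ V + |t| := (abs_nonneg _).trans h5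
      nlinarith
    have h7 := abs_add_le (u w - (∑ v, u v) / (dg K : ℝ)) ((∑ v, u v) / (dg K : ℝ))
    rw [sub_add_cancel] at h7
    linarith
  -- the summable bound
  set S : Kp K → ℝ := fun ν => ‖A (prI ν.1 * DD K * a / b)‖ *
    (nI (b / a) ^ ((k : ℝ) / 2) * ∏ w : Em K,
      Real.exp (k * (-V') / 2 - 2 * Real.pi * w ((ν.1 : Kˣ) : K) * Real.exp (-V'))) with hS
  have hSs : Summable S := by
    have h := (co_geo hF hA b a 0 (fun _ => -V')).summable.norm
    refine h.congr fun ν => ?_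
    rw [norm_mul, norm_mul, Complex.norm_real, Real.norm_of_nonneg]
    · have h1 : ‖cexp (2 * Real.pi * Complex.I *
          ((∑ w : Em K, w ((ν.1 : Kˣ) * 0) : ℝ) : ℂ))‖ = 1 := by simp
      rw [h1, mul_one]
    · have := (nI_pos (b / a)).le
      exact mul_nonneg (Real.rpow_nonneg this _)
        (Finset.prod_nonneg fun w _ => (Real.exp_pos _).le)
  have hS0 : ∀ ν, 0 ≤ S ν := fun ν => mul_nonneg (norm_nonneg _)
    (mul_nonneg (Real.rpow_nonneg (nI_pos _).le _)
      (Finset.prod_nonneg fun w _ => (Real.exp_pos _).le))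
  set cc : ℝ := Real.exp (k * V') ^ Fintype.card (Em K) with hcc
  have hcc0 : 0 ≤ cc := by positivity
  set Bx : Set (Em K → ℝ) := Set.Icc (fun _ => -V') (fun _ => V') with hBx
  have hBm : MeasurableSet Bx := measurableSet_Icc
  have hint : ∀ ν : Kp K, A (prI ν.1 * DD K * a / b) *
        cexp (2 * Real.pi * Complex.I * ((∑ w : Em K, w ((ν.1 : Kˣ) * β) : ℝ) : ℂ)) *
          gn2_J k ρ Ψ b a ν =
      ∫ u : Em K → ℝ, (ρ.ρ u : ℂ) * Ψ (∑ w, u w + t) * (A (prI ν.1 * DD K * a / b) *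
        cexp (2 * Real.pi * Complex.I * ((∑ w : Em K, w ((ν.1 : Kˣ) * β) : ℝ) : ℂ)) *
        ((nI (b / a) ^ ((k : ℝ) / 2) * ∏ w : Em K,
          Real.exp (k * u w / 2 - 2 * Real.pi * w ((ν.1 : Kˣ) : K) * Real.exp (u w)) : ℝ) : ℂ)) := by
    intro ν
    rw [gn2_J, ← integral_const_mul]
    refine integral_congr_ae (Eventually.of_forall fun u => ?_)
    simp only [← ht]
    ring
  simp only [hint]
  refine hasSum_integral_of_dominated_convergence
    (fun ν u => Bx.indicator (fun _ => M * (S ν * cc)) u) ?_ ?_ ?_ ?_ ?_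
  · intro ν
    have h1 : Measurable fun u : Em K → ℝ => (ρ.ρ u : ℂ) := Complex.measurable_ofReal.comp ρ.meas
    have h2 : Measurable fun u : Em K → ℝ => Ψ (∑ w, u w + t) := hm.comp (by fun_prop)
    have h3 : Continuous fun u : Em K → ℝ => ((nI (b / a) ^ ((k : ℝ) / 2) * ∏ w : Em K,
          Real.exp (k * u w / 2 - 2 * Real.pi * w ((ν.1 : Kˣ) : K) * Real.exp (u w)) : ℝ) : ℂ) := by
      fun_prop
    exact ((h1.mul h2).mul (measurable_const.mul h3.measurable)).aestronglyMeasurable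
  · intro ν
    refine Eventually.of_forall fun u => ?_
    have hBn : 0 ≤ Bx.indicator (fun _ => M * (S ν * cc)) u :=
      Set.indicator_nonneg (fun _ _ => mul_nonneg hM0 (mul_nonneg (hS0 ν) hcc0)) u
    by_cases h1 : ρ.ρ u = 0
    · rw [h1]; simpa using hBn
    by_cases h2 : Ψ (∑ w, u w + t) = 0
    · rw [h2]; simpa using hBn
    have hu := hreg u h1 h2
    have huB : u ∈ Bx := ⟨fun w => (abs_le.1 (hu w)).1, fun w => (abs_le.1 (hu w)).2⟩
    rw [Set.indicator_of_mem huB, norm_mul, norm_mul]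
    have h3 : ‖(ρ.ρ u : ℂ)‖ * ‖Ψ (∑ w, u w + t)‖ ≤ M := by
      rw [Complex.norm_real, Real.norm_of_nonneg (ρ.nn u)]
      calc ρ.ρ u * ‖Ψ (∑ w, u w + t)‖ ≤ 1 * M :=
            mul_le_mul (ρ.le u) (hb _) (norm_nonneg _) zero_le_one
        _ = M := one_mul M
    refine mul_le_mul h3 ?_ (norm_nonneg _) hM0
    rw [norm_mul, norm_mul, Complex.norm_real, Real.norm_of_nonneg]
    swap
    · exact mul_nonneg (Real.rpow_nonneg (nI_pos _).le _)
        (Finset.prod_nonneg fun w _ => (Real.exp_pos _).le)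
    have h4 : ‖cexp (2 * Real.pi * Complex.I *
        ((∑ w : Em K, w ((ν.1 : Kˣ) * β) : ℝ) : ℂ))‖ = 1 := by
      have e : 2 * Real.pi * Complex.I * ((∑ w : Em K, w ((ν.1 : Kˣ) * β) : ℝ) : ℂ) =
          ((2 * Real.pi * ∑ w : Em K, w ((ν.1 : Kˣ) * β) : ℝ) : ℂ) * Complex.I := by
        push_cast; ring
      rw [e, Complex.norm_exp_ofReal_mul_I]
    rw [h4, mul_one]
    have hSc : S ν * cc = ‖A (prI ν.1 * DD K * a / b)‖ * (nI (b / a) ^ ((k : ℝ) / 2) *
        ((∏ w : Em K, Real.exp (k * (-V') / 2 - 2 * Real.pi * w ((ν.1 : Kˣ) : K) *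
          Real.exp (-V'))) * cc)) := by
      simp only [hS]; ring
    rw [hSc]
    refine mul_le_mul_of_nonneg_left ?_ (norm_nonneg _)
    refine mul_le_mul_of_nonneg_left ?_ (Real.rpow_nonneg (nI_pos (b / a)).le _)
    rw [hcc, ← Finset.card_univ, ← Finset.prod_const, ← Finset.prod_mul_distrib]
    refine Finset.prod_le_prod (fun w _ => (Real.exp_pos _).le) fun w _ => ?_
    rw [← Real.exp_add]
    apply Real.exp_le_exp.2
    have h5 := abs_le.1 (hu w)
    have h6 : Real.exp (-V') ≤ Real.exp (u w) := Real.exp_le_exp.2 h5.1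
    have h7 : (0 : ℝ) < w ((ν.1 : Kˣ) : K) := ν.2 w
    have h8 : 2 * Real.pi * w ((ν.1 : Kˣ) : K) * Real.exp (-V') ≤
        2 * Real.pi * w ((ν.1 : Kˣ) : K) * Real.exp (u w) :=
      mul_le_mul_of_nonneg_left h6 (by positivity)
    have h9 : (k : ℝ) * u w ≤ k * V' := mul_le_mul_of_nonneg_left h5.2 (Nat.cast_nonneg k)
    linarith
  · refine Eventually.of_forall fun u => ?_
    by_cases hu : u ∈ Bx
    · simp only [Set.indicator_of_mem hu]
      exact (hSs.mul_right cc).mul_left M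
    · simp only [Set.indicator_of_notMem hu]
      exact summable_zero
  · have h1 : (fun u => ∑' ν : Kp K, Bx.indicator (fun _ => M * (S ν * cc)) u) =
        Bx.indicator (fun _ => ∑' ν : Kp K, M * (S ν * cc)) := by
      funext u
      by_cases hu : u ∈ Bx
      · simp only [Set.indicator_of_mem hu]
      · simp only [Set.indicator_of_notMem hu, tsum_zero]
    rw [h1, integrable_indicator_iff hBm]
    exact integrableOn_const (isCompact_Icc.measure_lt_top.ne)
  · refine Eventually.of_forall fun u => ?_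
    exact (co_geo hF hA b a β u).mul_left _

/-- the sum over the representatives -/
theorem gn2_kappa {k : ℕ} {F : (Em K → ℍ) → Lat K → ℂ}
    {A : Id K → ℂ} (hF : IsForm k F) (hA : IsCo k F A) (b a : Id K) {R0 : ℝ} (ρ : UW K R0)
    {c : Id K} (hc : IsInt c) {T : Finset K} (hT : IsRepQ (a / b / c) (a / b) T)
    {Ψ : ℝ → ℂ} {M V : ℝ} (hm : Measurable Ψ) (hb : ∀ v, ‖Ψ v‖ ≤ M)
    (hs : ∀ v, V < |v| → Ψ v = 0) [∀ m : Id K, Decidable (IsInt m)] :
    HasSum (fun ν : Kp K => (if IsInt (prI ν.1 * (DD K * a / b) / c) then (nI c : ℂ) else 0) *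
        A (prI ν.1 * (DD K * a / b)) * gn2_J k ρ Ψ b a ν)
      (∑ β ∈ T, ∫ u : Em K → ℝ, (ρ.ρ u : ℂ) * Ψ (∑ w, u w + Real.log (nI (b / a))) *
        PF k F (zb β u) (Lat.ds b a)) := by
  have h := hasSum_sum (s := T) fun β _ => gn2_term hF hA b a ρ hm hb hs β
  refine h.congr_fun fun ν => ?_
  have hmul : prI ν.1 * DD K * a / b = prI ν.1 * (DD K * a / b) := by
    rw [mul_assoc, mul_div_assoc]
  rw [← hmul, ← Finset.sum_mul, ← Finset.mul_sum]
  congr 1
  by_cases hA0 : A (prI ν.1 * DD K * a / b) = 0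
  · rw [hA0]; simp
  have hI : IsInt (prI ν.1 * DD K * a / b) := by
    by_contra hcon
    exact hA0 (hA.int _ hcon)
  have hle : (a / b).m ≤ (a / b / c).m := by
    rw [← isInt_div]
    have : a / b / (a / b / c) = c := div_div_cancel _ _
    rw [this]
    exact hc
  have hν : ((ν.1 : Kˣ) : K) ∈ ((DD K)⁻¹ * (a / b)⁻¹).m := by
    rw [← mul_inv, gn2_mem]
    have : prI ν.1 * (DD K * (a / b)) = prI ν.1 * DD K * a / b := by
      rw [mul_div_assoc, mul_assoc]
    rw [this]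
    exact hI
  have hx : ((ν.1 : Kˣ) : K) ∈ ((DD K)⁻¹ * (a / b / c)⁻¹).m ↔
      IsInt (prI ν.1 * DD K * a / b / c) := by
    rw [← mul_inv, gn2_mem]
    have : prI ν.1 * (DD K * (a / b / c)) = prI ν.1 * DD K * a / b / c := by
      rw [← mul_div_assoc, ← mul_div_assoc, ← mul_div_assoc, ← mul_div_assoc, ← mul_assoc]
    rw [this]
  obtain ⟨h1, h2⟩ := char_sum hle hT hν
  rw [mul_comm]
  congr 1
  by_cases hxc : IsInt (prI ν.1 * DD K * a / b / c)
  · rw [if_pos hxc, Finset.sum_congr rfl (h1 (hx.2 hxc)), Finset.sum_const, nsmul_eq_mul, mul_one]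
    have h3 := repq_card hle hT
    have h4 : nI (a / b) / nI (a / b / c) = nI c := by
      rw [nI_div (a / b) c]
      have := nI_pos (a / b)
      have := nI_pos c
      field_simp
    rw [h4] at h3
    exact_mod_cast congrArg (fun x : ℝ => (x : ℂ)) h3.symm
  · rw [if_neg hxc, h2 (fun h => hxc (hx.1 h))]

open scoped Classical in
theorem geo_id [Fintype (NCl K)] {k : ℕ} (hk : 1 ≤ k) {F : (Em K → ℍ) → Lat K → ℂ}
    {A : Id K → ℂ} (hF : IsForm k F) (hA : IsCo k F A) {b a : NCl K → Id K}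
    (hcls : ∀ κ, (QuotientGroup.mk (b κ / a κ) : NCl K) = κ) {R0 : ℝ} (ρ : UW K R0) {c : Id K}
    (hc : IsInt c) {T : NCl K → Finset K}
    (hT : ∀ κ, IsRepQ (a κ / b κ / c) (a κ / b κ) (T κ)) {Ψ : ℝ → ℂ} {M V : ℝ}
    (hm : Measurable Ψ) (hb : ∀ v, ‖Ψ v‖ ≤ M) (hs : ∀ v, V < |v| → Ψ v = 0) :
    HasSum (fun m : Id K => if IsInt (m / c) then
        ((nI c * (dK K / nI m) ^ ((k : ℝ) / 2) : ℝ) : ℂ) * A m *
          ∫ v, Ψ v * (HS.GD k (dg K) (v + Real.log (nI m) - Real.log (dK K)) : ℂ) else 0)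
      (∑ κ, ∑ β ∈ T κ, ∫ u : Em K → ℝ, (ρ.ρ u : ℂ) *
        Ψ (∑ w, u w + Real.log (nI (b κ / a κ))) * PF k F (zb β u) (Lat.ds (b κ) (a κ))) := by
  set g : Id K → ℂ := fun m => if IsInt (m / c) then
        ((nI c * (dK K / nI m) ^ ((k : ℝ) / 2) : ℝ) : ℂ) * A m *
          ∫ v, Ψ v * (HS.GD k (dg K) (v + Real.log (nI m) - Real.log (dK K)) : ℂ) else 0 with hg
  have hκ : ∀ κ : NCl K, HasSum
      (Set.indicator {m : Id K | (QuotientGroup.mk m : NCl K) =
        QuotientGroup.mk (DD K * a κ / b κ)} g)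
      (∑ β ∈ T κ, ∫ u : Em K → ℝ, (ρ.ρ u : ℂ) *
        Ψ (∑ w, u w + Real.log (nI (b κ / a κ))) * PF k F (zb β u) (Lat.ds (b κ) (a κ))) := by
    intro κ
    have h1 := gn2_kappa hF hA (b κ) (a κ) ρ hc (hT κ) hm hb hs
    have h2 := (gn2_e (DD K * a κ / b κ)).hasSum_iff.2 h1
    have h3 := h2.prod_fiberwise (g := fun m => g m.1) (fun m => by
      have h4 := gn2_J_fold hk ρ hm hb (b κ) (a κ) m
      have h5 := h4.mul_left ((if IsInt (m.1 / c) then (nI c : ℂ) else 0) * A m.1)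
      have hgm : g m.1 = (if IsInt (m.1 / c) then (nI c : ℂ) else 0) * A m.1 *
          ((((dK K / nI m.1) ^ ((k : ℝ) / 2) : ℝ) : ℂ) *
            ∫ v, Ψ v * (HS.GD k (dg K) (v + Real.log (nI m.1) - Real.log (dK K)) : ℂ)) := by
        simp only [hg]
        split_ifs
        · push_cast
          ring
        · simp
      rw [hgm]
      refine h5.congr_fun fun ε => ?_
      have h6 : prI (gn2_e (DD K * a κ / b κ) (m, ε)).1 * (DD K * a κ / b κ) = m.1 :=
        gn2_f_prI _ (m, ε)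
      simp only [Function.comp_apply]
      rw [h6]
      rfl)
    exact hasSum_subtype_iff_indicator.1 h3
  have hsum := hasSum_sum (s := Finset.univ) fun κ _ => hκ κ
  refine hsum.congr_fun fun m => ?_
  have h7 : ∀ κ : NCl K, ((QuotientGroup.mk m : NCl K) =
      QuotientGroup.mk (DD K * a κ / b κ)) ↔ κ = QuotientGroup.mk (DD K / m) := by
    intro κ
    have e1 : (QuotientGroup.mk (DD K * a κ / b κ) : NCl K) =
        QuotientGroup.mk (DD K) / κ := by
      rw [← hcls κ, ← QuotientGroup.mk_div]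
      congr 1
      rw [hcls κ, mul_div_assoc, div_eq_mul_inv (DD K), inv_div]
    rw [e1, QuotientGroup.mk_div]
    constructor
    · intro h; rw [h]; exact (div_div_cancel (G := NCl K) _ _).symm
    · intro h; rw [h]; exact (div_div_cancel (G := NCl K) _ _).symm
  rw [Finset.sum_eq_single (QuotientGroup.mk (DD K / m) : NCl K)]
  · rw [Set.indicator_of_mem (show m ∈ {m' : Id K | (QuotientGroup.mk m' : NCl K) =
      QuotientGroup.mk (DD K * a (QuotientGroup.mk (DD K / m)) /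
        b (QuotientGroup.mk (DD K / m)))} from (h7 _).2 rfl)]
  · intro κ _ hne
    rw [Set.indicator_of_notMem (show m ∉ {m' : Id K | (QuotientGroup.mk m' : NCl K) =
      QuotientGroup.mk (DD K * a κ / b κ)} from fun h => hne ((h7 κ).1 h))]
  · intro h
    exact absurd (Finset.mem_univ _) h

end tr

end Pool.Agent.HSG
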