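import Pool.Agent.Lib_helper84.HSG.DefsB
import Pool.Agent.Lib_helper84.HSGF.GD1
import Pool.Agent.Lib_helper84.HSGF.GH
import Pool.Agent.Lib_helper84.HSGF.GJ2
import Pool.Agent.Lib_helper84.HSGF.GM
import Pool.Agent.Lib_helper84.HSGF.GN2
import Pool.Agent.Lib_helper45.HSF.G0
import Pool.Agent.Lib_helper45.HSF.H1C
import Pool.Agent.Lib_helper45.HSF.KI
import Pool.Agent.Lib_helper45.HSF.P0
import Pool.Agent.Lib_helper45.HSF.P1

/-! # Hilbert-Selberg, block GN3: the geodesic integrals of an eigenform -/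

namespace Pool.Agent.HSG

open Complex MeasureTheory Filter Topology UpperHalfPlane NumberField IsDedekindDomain
open scoped nonZeroDivisors MatrixGroups ENNReal

variable {K : Type} [Field K] [NumberField K]

/-- the term of the series of `Db` -/
noncomputable def gn3_W (k : ℕ) (Δ : ℝ) (lam : Pr K → ℝ) (c m : Pr K →₀ ℕ) (v : ℝ) : ℝ :=
  ((HS.PK K).nrm c : ℝ) * (HS.hs lam (c + m) / √((HS.PK K).nrm (c + m) : ℝ) *
    HS.GD k (HS.PK K).d (v + Real.log ((HS.PK K).nrm (c + m)) - Δ))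

theorem gn3_Db (k : ℕ) (Δ : ℝ) (lam : Pr K → ℝ) (c : Pr K →₀ ℕ) (v : ℝ) :
    HS.Db (HS.PK K) k Δ lam c v = ∑' m, gn3_W k Δ lam c m v := by
  unfold HS.Db gn3_W
  rw [tsum_mul_left]

theorem gn3_real {d n x : ℝ} (k : ℕ) (hd : 0 ≤ d) (hn : 0 < n) :
    (d / n) ^ ((k : ℝ) / 2) * (x * n ^ (((k : ℝ) - 1) / 2)) = d ^ ((k : ℝ) / 2) * (x / √n) := by
  rw [Real.div_rpow hd hn.le, Real.sqrt_eq_rpow]
  have h1 : n ^ (((k : ℝ) - 1) / 2) = n ^ ((k : ℝ) / 2) / n ^ (1 / 2 : ℝ) := by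
    rw [← Real.rpow_sub hn]
    congr 1
    ring
  rw [h1]
  have h2 : n ^ ((k : ℝ) / 2) ≠ 0 := (Real.rpow_pos_of_pos hn _).ne'
  have h3 : n ^ (1 / 2 : ℝ) ≠ 0 := (Real.rpow_pos_of_pos hn _).ne'
  field_simp

/-- the uniform bound of the terms -/
theorem gn3_bd {k : ℕ} (hk : 1 ≤ k) (Δ : ℝ) {lam : Pr K → ℝ}
    (hl : ∀ p, |lam p| ≤ √((HS.PK K).q p : ℝ) + 1 / √((HS.PK K).q p : ℝ)) (c : Pr K →₀ ℕ)
    (V : ℝ) : ∃ g : (Pr K →₀ ℕ) → ℝ, Summable g ∧ ∀ m v, |v| ≤ V →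
      |gn3_W k Δ lam c m v| ≤ g m := by
  obtain ⟨C, hC, hG⟩ := HS.GD_up (k := k) (n := (HS.PK K).d) hk 3 (by norm_num)
  have hnp : ∀ m : Pr K →₀ ℕ, (0 : ℝ) < (HS.PK K).nrm m := fun m => by
    exact_mod_cast HS.nrm_pos (HS.PK K) m
  refine ⟨fun m => ((HS.PK K).nrm c : ℝ) * (C * Real.exp (3 * (|Δ| + V))) *
    ((HS.PK K).nrm (c + m) : ℝ) ^ (-(2 : ℝ)), ?_, ?_⟩
  · refine Summable.mul_left _ ?_
    have h1 : Summable (fun m : Pr K →₀ ℕ => ((HS.PK K).nrm m : ℝ) ^ (-(2 : ℝ))) :=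
      HS.sum_nrm (HS.PK K) (by norm_num)
    exact h1.comp_injective (add_right_injective c)
  · intro m v hv
    have hn := hnp (c + m)
    set n : ℝ := ((HS.PK K).nrm (c + m) : ℝ) with hn_def
    have ht := (HS.triv (HS.PK K) hl (c + m)).1
    rw [← hn_def] at ht
    have hG0 := HS.GD_nonneg k (HS.PK K).d (v + Real.log n - Δ)
    have hG1 := hG (v + Real.log n - Δ)
    unfold gn3_W
    rw [← hn_def, abs_mul, abs_mul, abs_div, abs_of_nonneg hG0, abs_of_nonneg (Real.sqrt_nonneg n),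
      abs_of_pos (hnp c)]
    have h2 : |HS.hs lam (c + m)| / √n ≤ n := by
      rw [div_le_iff₀ (Real.sqrt_pos.mpr hn)]
      refine ht.trans (le_of_eq ?_)
      rw [Real.sqrt_eq_rpow]
      nth_rewrite 2 [← Real.rpow_one n]
      rw [← Real.rpow_add hn]
      norm_num
    have h3 : HS.GD k (HS.PK K).d (v + Real.log n - Δ) ≤
        C * Real.exp (3 * (|Δ| + V)) * n ^ (-(3 : ℝ)) := by
      refine hG1.trans ?_
      rw [mul_assoc]
      refine mul_le_mul_of_nonneg_left ?_ hC.le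
      rw [Real.rpow_def_of_pos hn, ← Real.exp_add]
      apply Real.exp_le_exp.mpr
      have h4 := neg_abs_le v
      have h5 := le_abs_self Δ
      nlinarith
    have h6 : n * n ^ (-(3 : ℝ)) = n ^ (-(2 : ℝ)) := by
      nth_rewrite 1 [← Real.rpow_one n]
      rw [← Real.rpow_add hn]
      norm_num
    calc ((HS.PK K).nrm c : ℝ) * (|HS.hs lam (c + m)| / √n *
          HS.GD k (HS.PK K).d (v + Real.log n - Δ))
        ≤ ((HS.PK K).nrm c : ℝ) * (n * (C * Real.exp (3 * (|Δ| + V)) * n ^ (-(3 : ℝ)))) := by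
          refine mul_le_mul_of_nonneg_left ?_ (hnp c).le
          exact mul_le_mul h2 h3 hG0 hn.le
      _ = ((HS.PK K).nrm c : ℝ) * (C * Real.exp (3 * (|Δ| + V))) * (n * n ^ (-(3 : ℝ))) := by
          ring
      _ = _ := by rw [h6]

theorem gn3_cont {k : ℕ} (hk : 1 ≤ k) (Δ : ℝ) (lam : Pr K → ℝ) (c m : Pr K →₀ ℕ) :
    Continuous (gn3_W k Δ lam c m) := by
  unfold gn3_W
  have h1 : Continuous (HS.GD k (HS.PK K).d) := HS.GD_cont hk
  fun_prop

theorem gn3_sum {k : ℕ} (hk : 1 ≤ k) (Δ : ℝ) {lam : Pr K → ℝ}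
    (hl : ∀ p, |lam p| ≤ √((HS.PK K).q p : ℝ) + 1 / √((HS.PK K).q p : ℝ)) (c : Pr K →₀ ℕ)
    {Ψ : ℝ → ℂ} {M V : ℝ}
    (hm : Measurable Ψ) (hb : ∀ v, ‖Ψ v‖ ≤ M) (hs : ∀ v, V < |v| → Ψ v = 0) :
    HasSum (fun m : Pr K →₀ ℕ => ∫ v, Ψ v * (gn3_W k Δ lam c m v : ℂ))
      (∫ v, Ψ v * (HS.Db (HS.PK K) k Δ lam c v : ℂ)) := by
  have hM : 0 ≤ M := (norm_nonneg _).trans (hb 0)
  have hP : Countable (Pr K →₀ ℕ) := by
    have h1 := (HS.sum_nrm (HS.PK K) (by norm_num : (1 : ℝ) < 2)).countable_support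
    rw [← Set.countable_univ_iff]
    refine h1.mono fun m _ => ?_
    rw [Function.mem_support]
    exact (Real.rpow_pos_of_pos (by exact_mod_cast HS.nrm_pos (HS.PK K) m) _).ne'
  obtain ⟨g, hg, hgb⟩ := gn3_bd hk Δ hl c V
  have hdom : ∀ m v, ‖Ψ v * (gn3_W k Δ lam c m v : ℂ)‖ ≤
      Set.indicator (Set.Icc (-V) V) (fun _ => M * g m) v := by
    intro m v
    by_cases hv : |v| ≤ V
    · rw [Set.indicator_of_mem (Set.mem_Icc.mpr (abs_le.mp hv)), norm_mul, Complex.norm_real,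
        Real.norm_eq_abs]
      exact mul_le_mul (hb v) (hgb m v hv) (abs_nonneg _) hM
    · rw [hs v (not_le.mp hv), zero_mul, norm_zero, Set.indicator_of_notMem]
      intro h
      exact hv (abs_le.mpr (Set.mem_Icc.mp h))
  have hmeas : ∀ m, AEStronglyMeasurable (fun v => Ψ v * (gn3_W k Δ lam c m v : ℂ)) volume := by
    intro m
    refine (hm.mul ?_).aestronglyMeasurable
    exact Complex.measurable_ofReal.comp (gn3_cont hk Δ lam c m).measurable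
  have hgi : ∀ m, Integrable (Set.indicator (Set.Icc (-V) V) (fun _ : ℝ => M * g m)) volume := by
    intro m
    rw [integrable_indicator_iff measurableSet_Icc]
    exact integrableOn_const (by simp) enorm_ne_top
  have hint : ∀ m, Integrable (fun v => Ψ v * (gn3_W k Δ lam c m v : ℂ)) volume := fun m =>
    (hgi m).mono' (hmeas m) (Eventually.of_forall (hdom m))
  have hsum : Summable (fun m => ∫ v, ‖Ψ v * (gn3_W k Δ lam c m v : ℂ)‖) := by
    refine Summable.of_nonneg_of_le (fun m => integral_nonneg fun v => norm_nonneg _)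
      (fun m => integral_mono (hint m).norm (hgi m) (hdom m)) ?_
    have h1 : (fun m : Pr K →₀ ℕ => ∫ v, Set.indicator (Set.Icc (-V) V) (fun _ : ℝ => M * g m) v) =
        fun m => (volume.real (Set.Icc (-V) V) * M) * g m := by
      funext m
      rw [integral_indicator measurableSet_Icc, setIntegral_const, smul_eq_mul, mul_assoc]
    rw [h1]
    exact hg.mul_left _
  have h2 := hasSum_integral_of_summable_integral_norm hint hsum
  have h3 : (fun v => ∑' m, Ψ v * (gn3_W k Δ lam c m v : ℂ)) =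
      fun v => Ψ v * (HS.Db (HS.PK K) k Δ lam c v : ℂ) := by
    funext v
    rw [tsum_mul_left, gn3_Db, Complex.ofReal_tsum]
  rw [h3] at h2
  exact h2

section tr
variable [IsTotallyReal K]

theorem geo_eig [Fintype (NCl K)] {k : ℕ} (hk : 1 ≤ k) {F : (Em K → ℍ) → Lat K → ℂ} {lam : Pr K → ℝ}
    (h : IsEig k F lam) {A : Id K → ℂ} (hA : IsCo k F A) {b a : NCl K → Id K}
    (hcls : ∀ κ, (QuotientGroup.mk (b κ / a κ) : NCl K) = κ) {R0 : ℝ} (ρ : UW K R0)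
    (c : Pr K →₀ ℕ) {T : NCl K → Finset K}
    (hT : ∀ κ, IsRepQ (a κ / b κ / HS.idl c) (a κ / b κ) (T κ)) {Ψ : ℝ → ℂ} {M V : ℝ}
    (hm : Measurable Ψ) (hb : ∀ v, ‖Ψ v‖ ≤ M) (hs : ∀ v, V < |v| → Ψ v = 0) :
    ∑ κ, ∑ β ∈ T κ, ∫ u : Em K → ℝ, (ρ.ρ u : ℂ) *
        Ψ (∑ w, u w + Real.log (nI (b κ / a κ))) * PF k F (zb β u) (Lat.ds (b κ) (a κ)) =
      A 1 * ((dK K ^ ((k : ℝ) / 2) : ℝ) : ℂ) *
        ∫ v, Ψ v * (HS.Db (HS.PK K) k (Real.log (dK K)) lam c v : ℂ) := by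
  classical
  have hl : ∀ p, |lam p| ≤ √((HS.PK K).q p : ℝ) + 1 / √((HS.PK K).q p : ℝ) := fun p =>
    eig_triv h p
  have hd0 : 0 ≤ dK K := zero_le_one.trans dK_ge
  have hg := geo_id hk h.form hA hcls ρ (idl_int c) hT hm hb hs
  have hinj : Function.Injective (fun m : Pr K →₀ ℕ => (HS.idl (c + m) : Id K)) := by
    intro m m' hmm
    exact add_left_cancel (HS.idl_inj hmm)
  have hrange : ∀ m : Id K, m ∉ Set.range (fun m : Pr K →₀ ℕ => (HS.idl (c + m) : Id K)) →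
      ¬ IsInt (m / HS.idl c) := by
    intro m hmr hi
    obtain ⟨f, hf⟩ := idl_sur hi
    apply hmr
    refine ⟨f, ?_⟩
    show HS.idl (c + f) = m
    rw [HS.idl_add, hf, mul_div_cancel]
  rw [← hinj.hasSum_iff (fun m hmr => if_neg (hrange m hmr))] at hg
  have hR := (gn3_sum hk (Real.log (dK K)) hl c hm hb hs).mul_left
    (A 1 * ((dK K ^ ((k : ℝ) / 2) : ℝ) : ℂ))
  refine hg.unique ?_
  have key : ∀ f₁ f₂ : (Pr K →₀ ℕ) → ℂ, (∀ m, f₁ m = f₂ m) → ∀ s : ℂ, HasSum f₂ s →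
      HasSum f₁ s := by
    intro f₁ f₂ h12 s h2
    rw [funext h12]
    exact h2
  refine key _ _ (fun m => ?_) _ hR
  have hi : IsInt (HS.idl (c + m) / HS.idl c : Id K) := (idl_dvd _ _).mpr le_self_add
  simp only [Function.comp_apply]
  rw [if_pos hi, (eig_co h hA).2 (c + m), nI_idl, nI_idl]
  have hn : (0 : ℝ) < (HS.PK K).nrm (c + m) := by
    exact_mod_cast HS.nrm_pos (HS.PK K) (c + m)
  have hr := gn3_real (x := HS.hs lam (c + m)) k hd0 hn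
  have h1 : ∀ v, Ψ v * (gn3_W k (Real.log (dK K)) lam c m v : ℂ) =
      ((((HS.PK K).nrm c : ℝ) * (HS.hs lam (c + m) / √((HS.PK K).nrm (c + m) : ℝ)) : ℝ) : ℂ) *
        (Ψ v * (HS.GD k (dg K) (v + Real.log ((HS.PK K).nrm (c + m)) -
          Real.log (dK K)) : ℂ)) := by
    intro v
    unfold gn3_W
    have : (HS.PK K).d = dg K := rfl
    rw [this]
    push_cast
    ring
  simp only [h1]
  rw [integral_const_mul]
  have h2 : ((((HS.PK K).nrm c : ℝ) * (dK K / ((HS.PK K).nrm (c + m) : ℝ)) ^ ((k : ℝ) / 2) : ℝ) : ℂ)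
      * (A 1 * ((HS.hs lam (c + m) * ((HS.PK K).nrm (c + m) : ℝ) ^ (((k : ℝ) - 1) / 2) : ℝ) : ℂ)) =
      A 1 * ((dK K ^ ((k : ℝ) / 2) : ℝ) : ℂ) *
      ((((HS.PK K).nrm c : ℝ) * (HS.hs lam (c + m) / √((HS.PK K).nrm (c + m) : ℝ)) : ℝ) : ℂ) := by
    have h3 : ((HS.PK K).nrm c : ℝ) * (dK K / ((HS.PK K).nrm (c + m) : ℝ)) ^ ((k : ℝ) / 2) *
        (HS.hs lam (c + m) * ((HS.PK K).nrm (c + m) : ℝ) ^ (((k : ℝ) - 1) / 2)) =
        dK K ^ ((k : ℝ) / 2) *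
        (((HS.PK K).nrm c : ℝ) * (HS.hs lam (c + m) / √((HS.PK K).nrm (c + m) : ℝ))) := by
      rw [mul_assoc, hr]
      ring
    have h4 := congrArg (fun x : ℝ => (x : ℂ)) h3
    simp only [Complex.ofReal_mul] at h4 ⊢
    linear_combination (A 1) * h4
  rw [h2, mul_assoc]


end tr

end Pool.Agent.HSG
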