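import Pool.Agent.Lib_helper84.HSG.DefsB
import Pool.Agent.Lib_helper84.HSGF.GA3
import Pool.Agent.Lib_helper84.HSGF.GB2
import Pool.Agent.Lib_helper84.HSGF.GD1
import Pool.Agent.Lib_helper84.HSGF.GF2
import Pool.Agent.Lib_helper84.HSGF.GG
import Pool.Agent.Lib_helper84.HSGF.GJ1
import Pool.Agent.Lib_helper84.HSGF.GJ2
import Pool.Agent.Lib_helper84.HSGF.GL1
import Pool.Agent.Lib_helper84.HSGF.GM
import Pool.Agent.Lib_helper84.HSGF.GN3
import Pool.Agent.Lib_helper45.HSF.T2

/-! # Block GO: the functional equation -/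

namespace Pool.Agent.HSG

open Complex MeasureTheory Filter Topology UpperHalfPlane NumberField IsDedekindDomain
open scoped nonZeroDivisors MatrixGroups ENNReal

variable {K : Type} [Field K] [NumberField K]

section tr
variable [IsTotallyReal K]

theorem go_lg_inv (x : Kˣ) : lg (x⁻¹) = -lg x := by
  funext w
  unfold lg
  rw [Pi.neg_apply, Units.val_inv_eq_inv_val, map_inv₀, abs_inv, Real.log_inv]

/-- the reflected weight -/
noncomputable def go_uw {R0 : ℝ} (ρ : UW K R0) : UW K R0 where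
  ρ := fun u => ρ.ρ (-u)
  R := ρ.R
  c := ρ.c
  cpos := ρ.cpos
  meas := ρ.meas.comp measurable_neg
  nn := fun u => ρ.nn _
  le := fun u => ρ.le _
  supp := fun u hu w => by
    have h := ρ.supp (-u) hu w
    simp only [Pi.neg_apply, Finset.sum_neg_distrib, neg_div] at h
    rw [← abs_neg]
    convert h using 2
    ring
  low := fun u hu => by
    apply ρ.low
    intro w
    have h := hu w
    simp only [Pi.neg_apply, Finset.sum_neg_distrib, neg_div]
    rw [← abs_neg]
    convert h using 2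
    ring
  sum := fun u => by
    have h := ρ.sum (-u)
    rw [← (Equiv.inv (Up K)).hasSum_iff] at h
    convert h using 1
    funext ε
    simp only [Function.comp_apply, Equiv.inv_apply, InvMemClass.coe_inv, go_lg_inv]
    congr 1
    rw [neg_add]

theorem go_pt (u : Em K → ℝ) : (wm K) • (zb (0 : K) u) = zb (0 : K) (-u) := by
  funext w
  apply UpperHalfPlane.ext
  have hdet : 0 < ((Matrix.GeneralLinearGroup.map (n := Fin 2) w
      (wm K : GL (Fin 2) K)).det : ℝ) := by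
    rw [Matrix.GeneralLinearGroup.map_det]
    simp
  have h1 : ((wm K • zb (0 : K) u) w : ℍ) =
      (Matrix.GeneralLinearGroup.map (n := Fin 2) w (wm K : GL (Fin 2) K)) • (zb (0 : K) u w) := rfl
  rw [h1, UpperHalfPlane.coe_smul_of_det_pos hdet]
  have hz : ∀ v : Em K → ℝ, ((zb (0 : K) v w : ℍ) : ℂ) = Complex.I * ((Real.exp (v w) : ℝ) : ℂ) := by
    intro v
    have h0 : ((zb (0 : K) v w : ℍ) : ℂ) = ⟨w 0, Real.exp (v w)⟩ := rfl
    rw [h0, map_zero]
    apply Complex.ext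
    · simp only [Complex.mul_re, Complex.I_re, Complex.I_im, Complex.ofReal_re, Complex.ofReal_im]
      ring
    · simp only [Complex.mul_im, Complex.I_re, Complex.I_im, Complex.ofReal_re, Complex.ofReal_im]
      ring
  rw [hz, hz]
  have h4 : ((Real.exp (u w) : ℝ) : ℂ) ≠ 0 := by
    exact_mod_cast (Real.exp_pos (u w)).ne'
  simp only [UpperHalfPlane.num, UpperHalfPlane.denom]
  have e00 : ((Matrix.GeneralLinearGroup.map (n := Fin 2) w (wm K : GL (Fin 2) K)) 0 0 : ℝ) = 0 := by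
    show w ((!![0, -1; 1, 0] : Matrix (Fin 2) (Fin 2) K) 0 0) = 0
    simp
  have e01 : ((Matrix.GeneralLinearGroup.map (n := Fin 2) w (wm K : GL (Fin 2) K)) 0 1 : ℝ) = -1 := by
    show w ((!![0, -1; 1, 0] : Matrix (Fin 2) (Fin 2) K) 0 1) = -1
    simp
  have e10 : ((Matrix.GeneralLinearGroup.map (n := Fin 2) w (wm K : GL (Fin 2) K)) 1 0 : ℝ) = 1 := by
    show w ((!![0, -1; 1, 0] : Matrix (Fin 2) (Fin 2) K) 1 0) = 1
    simp
  have e11 : ((Matrix.GeneralLinearGroup.map (n := Fin 2) w (wm K : GL (Fin 2) K)) 1 1 : ℝ) = 0 := by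
    show w ((!![0, -1; 1, 0] : Matrix (Fin 2) (Fin 2) K) 1 1) = 0
    simp
  rw [e00, e01, e10, e11]
  have h6 : ((Real.exp ((-u) w) : ℝ) : ℂ) = ((Real.exp (u w) : ℝ) : ℂ)⁻¹ := by
    rw [Pi.neg_apply, Real.exp_neg]
    push_cast
    rfl
  rw [h6]
  have h5 : Complex.I * ((Real.exp (u w) : ℝ) : ℂ) ≠ 0 := mul_ne_zero Complex.I_ne_zero h4
  have h7 : Complex.I * ((Real.exp (u w) : ℝ) : ℂ)⁻¹ * (Complex.I * ((Real.exp (u w) : ℝ) : ℂ)) =
      -1 := by
    have h8 : Complex.I * ((Real.exp (u w) : ℝ) : ℂ)⁻¹ * (Complex.I * ((Real.exp (u w) : ℝ) : ℂ)) =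
        (Complex.I * Complex.I) * (((Real.exp (u w) : ℝ) : ℂ)⁻¹ * ((Real.exp (u w) : ℝ) : ℂ)) := by
      ring
    rw [h8, Complex.I_mul_I, inv_mul_cancel₀ h4, mul_one]
  rw [Complex.ofReal_zero, Complex.ofReal_one, Complex.ofReal_neg, Complex.ofReal_one, zero_mul,
    zero_add, one_mul, add_zero, div_eq_iff h5, h7]

theorem go_slash {k : ℕ} {F : (Em K → ℍ) → Lat K → ℂ} (hF : IsForm k F) (b a : Id K)
    (u : Em K → ℝ) :
    PF k F (zb 0 (-u)) (Lat.ds b a) =
      (Complex.I ^ k) ^ dg K * PF k F (zb 0 u) (Lat.ds a b) := by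
  have h1 := form_act hF (wm K) (zb (0 : K) u) (Lat.ds a b)
  have h2 : (wm K) • Lat.ds a b = Lat.ds b a := by
    have h3 : (wm K)⁻¹ • Lat.ds b a = Lat.ds a b := by
      rw [act_eq, inv_inv, ds_wm]
    rw [← h3, smul_inv_smul]
  rw [h2, go_pt] at h1
  rw [h1]
  congr 1
  have h4 : ∀ w : Em K, (lz (((wm K : GL (Fin 2) K)) 1) (zb (0 : K) u) w /
      (‖lz (((wm K : GL (Fin 2) K)) 1) (zb (0 : K) u) w‖ : ℂ)) ^ k = Complex.I ^ k := by
    intro w
    have h5 : lz (((wm K : GL (Fin 2) K)) 1) (zb (0 : K) u) w =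
        Complex.I * ((Real.exp (u w) : ℝ) : ℂ) := by
      have h6 : ((zb (0 : K) u w : ℍ) : ℂ) = ⟨w 0, Real.exp (u w)⟩ := rfl
      have e10 : ((wm K : GL (Fin 2) K)) 1 0 = 1 := by
        show ((!![0, -1; 1, 0] : Matrix (Fin 2) (Fin 2) K) 1 0) = 1
        simp
      have e11 : ((wm K : GL (Fin 2) K)) 1 1 = 0 := by
        show ((!![0, -1; 1, 0] : Matrix (Fin 2) (Fin 2) K) 1 1) = 0
        simp
      unfold lz
      rw [e10, e11, h6, map_zero, map_one]
      apply Complex.ext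
      · simp only [Complex.add_re, Complex.mul_re, Complex.I_re, Complex.I_im, Complex.ofReal_re,
          Complex.ofReal_im]
        ring
      · simp only [Complex.add_im, Complex.mul_im, Complex.I_re, Complex.I_im, Complex.ofReal_re,
          Complex.ofReal_im]
        ring
    rw [h5]
    have h6 : ‖Complex.I * ((Real.exp (u w) : ℝ) : ℂ)‖ = Real.exp (u w) := by
      rw [norm_mul, Complex.norm_I, one_mul, Complex.norm_real, Real.norm_eq_abs,
        abs_of_pos (Real.exp_pos _)]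
    rw [h6, mul_div_assoc, div_self, mul_one]
    exact_mod_cast (Real.exp_pos (u w)).ne'
  rw [Finset.prod_congr rfl (fun w _ => h4 w), Finset.prod_const, Finset.card_univ, card_em]

theorem td_eig {k : ℕ}
    (hk : 1 ≤ k) (he : Even k) {F : (Em K → ℍ) → Lat K → ℂ} {lam : Pr K → ℝ}
    (h : IsEig k F lam) : HS.TD (HS.PK K) k (Real.log (dK K)) lam := by
  classical
  have htriv : ∀ p, |lam p| ≤ √((HS.PK K).q p : ℝ) + 1 / √((HS.PK K).q p : ℝ) :=
    fun p => eig_triv h p
  refine ⟨htriv, ?_⟩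
  have := ncl_finite (K := K)
  let _ := Fintype.ofFinite (NCl K)
  obtain ⟨cu⟩ := cusps_exists (K := K)
  obtain ⟨ρ⟩ := uw_exists (K := K) 0
  obtain ⟨A, hA⟩ := co_exists hk h.form
  have hA1 := (eig_co h hA).1
  obtain ⟨D, hD⟩ : ∃ D, D = HS.Db (HS.PK K) k (Real.log (dK K)) lam 0 := ⟨_, rfl⟩
  have hDc : Continuous D := by
    rw [hD]
    exact (HS.Db_facts (HS.PK K) hk (Real.log (dK K)) htriv 0).2
  -- the sign
  obtain ⟨ε, hε, hεI⟩ : ∃ ε : ℝ, (ε = 1 ∨ ε = -1) ∧ (Complex.I ^ k) ^ dg K = (ε : ℂ) := by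
    obtain ⟨m, hm⟩ := he
    have h1 : Complex.I ^ k = ((-1 : ℝ) : ℂ) ^ m := by
      rw [hm, ← two_mul, pow_mul, Complex.I_sq]
      push_cast
      rfl
    refine ⟨((-1 : ℝ) ^ m) ^ dg K, ?_, ?_⟩
    · rw [← pow_mul]
      exact neg_one_pow_eq_or ℝ _
    · rw [h1]
      push_cast
      rfl
  refine ⟨ε, hε, ?_⟩
  have hε2 : ε * ε = 1 := by rcases hε with rfl | rfl <;> norm_num
  have hrep : ∀ x : Id K, IsRepQ (x / HS.idl 0) x {0} := by
    intro x
    have h1 : x / HS.idl (K := K) 0 = x := by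
      unfold HS.idl
      rw [Finsupp.prod_zero_index, div_one]
    rw [h1]
    refine ⟨?_, ?_, ?_⟩
    · intro β hβ
      rw [Finset.mem_singleton] at hβ
      rw [hβ]
      exact Submodule.zero_mem _
    · intro β hβ
      exact ⟨0, Finset.mem_singleton_self _, by rw [sub_zero]; exact hβ⟩
    · intro β hβ β' hβ' _
      rw [Finset.mem_singleton] at hβ hβ'
      rw [hβ, hβ']
  have hdK : ((dK K ^ ((k : ℝ) / 2) : ℝ) : ℂ) ≠ 0 := by
    have h1 := dK_ge (K := K)
    have h2 : 0 < dK K ^ ((k : ℝ) / 2) := Real.rpow_pos_of_pos (by linarith) _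
    exact_mod_cast h2.ne'
  have key : ∀ (Ψ : ℝ → ℂ) (M V : ℝ), Measurable Ψ → (∀ v, ‖Ψ v‖ ≤ M) →
      (∀ v, V < |v| → Ψ v = 0) →
      ∫ v, Ψ v * (D v : ℂ) = (ε : ℂ) * ∫ v, Ψ v * (D (-v) : ℂ) := by
    intro Ψ M V hm hb hs
    have e1 := geo_eig hk h hA cu.cls ρ 0 (T := fun _ => {0}) (fun κ => hrep _)
      (Ψ := fun v => Ψ (-v)) (M := M) (V := V) (hm.comp measurable_neg) (fun v => hb _)
      (fun v hv => hs _ (by rw [abs_neg]; exact hv))
    have e2 := geo_eig hk h hA (b := fun κ => cu.a κ⁻¹) (a := fun κ => cu.b κ⁻¹) (by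
        intro κ
        have h1 := cu.cls κ⁻¹
        have h2 : ((cu.a κ⁻¹ / cu.b κ⁻¹ : Id K) : NCl K) = ((cu.b κ⁻¹ / cu.a κ⁻¹ : Id K) : NCl K)⁻¹ := by
          rw [← QuotientGroup.mk_inv, inv_div]
        rw [h2, h1]
        exact inv_inv κ) (go_uw ρ) 0 (T := fun _ => {0}) (fun κ => hrep _)
      (Ψ := Ψ) (M := M) (V := V) hm hb hs
    rw [← hD] at e1 e2
    simp only [Finset.sum_singleton] at e1 e2
    have e3 : ∫ v, Ψ (-v) * (D v : ℂ) = ∫ v, Ψ v * (D (-v) : ℂ) := by
      rw [← integral_neg_eq_self (fun v => Ψ v * (D (-v) : ℂ))]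
      simp only [neg_neg]
    rw [e3] at e1
    -- reindexing
    have e4 : (∑ κ : NCl K, ∫ u : Em K → ℝ, ((go_uw ρ).ρ u : ℂ) *
        Ψ (∑ w, u w + Real.log (nI (cu.a κ⁻¹ / cu.b κ⁻¹))) *
          PF k F (zb 0 u) (Lat.ds (cu.a κ⁻¹) (cu.b κ⁻¹))) =
        ∑ κ : NCl K, ∫ u : Em K → ℝ, ((go_uw ρ).ρ u : ℂ) *
        Ψ (∑ w, u w + Real.log (nI (cu.a κ / cu.b κ))) *
          PF k F (zb 0 u) (Lat.ds (cu.a κ) (cu.b κ)) :=
      Equiv.sum_comp (Equiv.inv (NCl K)) (fun κ => ∫ u : Em K → ℝ, ((go_uw ρ).ρ u : ℂ) *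
        Ψ (∑ w, u w + Real.log (nI (cu.a κ / cu.b κ))) *
          PF k F (zb 0 u) (Lat.ds (cu.a κ) (cu.b κ)))
    rw [e4] at e2
    have e5 : ∀ κ : NCl K, (∫ u : Em K → ℝ, ((go_uw ρ).ρ u : ℂ) *
        Ψ (∑ w, u w + Real.log (nI (cu.a κ / cu.b κ))) *
          PF k F (zb 0 u) (Lat.ds (cu.a κ) (cu.b κ))) =
        (ε : ℂ) * ∫ u : Em K → ℝ, (ρ.ρ u : ℂ) *
        Ψ (-(∑ w, u w + Real.log (nI (cu.b κ / cu.a κ)))) *
          PF k F (zb 0 u) (Lat.ds (cu.b κ) (cu.a κ)) := by
      intro κ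
      rw [← integral_neg_eq_self, ← integral_const_mul]
      apply integral_congr_ae
      filter_upwards with u
      have h1 : (go_uw ρ).ρ (-u) = ρ.ρ u := by
        show ρ.ρ (- -u) = ρ.ρ u
        rw [neg_neg]
      have h2 : ∑ w, (-u) w + Real.log (nI (cu.a κ / cu.b κ)) =
          -(∑ w, u w + Real.log (nI (cu.b κ / cu.a κ))) := by
        have h3 : nI (cu.a κ / cu.b κ) = (nI (cu.b κ / cu.a κ))⁻¹ := by
          rw [nI_div, nI_div, inv_div]
        rw [h3, Real.log_inv]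
        simp only [Pi.neg_apply, Finset.sum_neg_distrib]
        ring
      rw [h1, h2, go_slash h.form, hεI]
      ring
    rw [Finset.sum_congr rfl (fun κ _ => e5 κ), ← Finset.mul_sum, e1] at e2
    have h6 : A 1 * ((dK K ^ ((k : ℝ) / 2) : ℝ) : ℂ) ≠ 0 := mul_ne_zero hA1 hdK
    apply mul_left_cancel₀ h6
    rw [← e2]
    ring
  -- conclusion
  have hg0 : ∀ v0 : ℝ, D v0 - ε * D (-v0) = 0 := by
    intro v0
    obtain ⟨g, hg⟩ : ∃ g : ℝ → ℝ, g = fun v => D v - ε * D (-v) := ⟨_, rfl⟩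
    have hDn : Continuous fun v => D (-v) := hDc.comp continuous_neg
    have hgc : Continuous g := by
      rw [hg]
      exact hDc.sub (continuous_const.mul hDn)
    obtain ⟨V, hV⟩ : ∃ V : ℝ, V = |v0| + 1 := ⟨_, rfl⟩
    have hV0 : 0 < V := by
      rw [hV]
      positivity
    obtain ⟨M, hM⟩ := (isCompact_Icc (a := -V) (b := V)).exists_bound_of_continuousOn
      hgc.continuousOn
    have hM0 : 0 ≤ M := (norm_nonneg _).trans (hM 0 ⟨by linarith, hV0.le⟩)
    have h1 := key (Set.indicator (Set.Icc (-V) V) fun v => (g v : ℂ)) M V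
      ((Complex.measurable_ofReal.comp hgc.measurable).indicator measurableSet_Icc)
      (by
        intro v
        by_cases hv : v ∈ Set.Icc (-V) V
        · rw [Set.indicator_of_mem hv, Complex.norm_real]
          exact hM v hv
        · rw [Set.indicator_of_notMem hv, norm_zero]
          exact hM0)
      (by
        intro v hv
        apply Set.indicator_of_notMem
        intro hv2
        have := abs_le.mpr hv2
        linarith)
    have h2 : ∀ E : ℝ → ℝ, ∫ v, (Set.indicator (Set.Icc (-V) V) (fun v => (g v : ℂ)) v) * (E v : ℂ) =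
        ((∫ v in Set.Icc (-V) V, g v * E v : ℝ) : ℂ) := by
      intro E
      have h3 : (fun v => (Set.indicator (Set.Icc (-V) V) (fun v => (g v : ℂ)) v) * (E v : ℂ)) =
          Set.indicator (Set.Icc (-V) V) (fun v => ((g v * E v : ℝ) : ℂ)) := by
        funext v
        by_cases hv : v ∈ Set.Icc (-V) V
        · rw [Set.indicator_of_mem hv, Set.indicator_of_mem hv]
          push_cast
          rfl
        · rw [Set.indicator_of_notMem hv, Set.indicator_of_notMem hv, zero_mul]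
      rw [h3, integral_indicator measurableSet_Icc]
      exact integral_ofReal
    rw [h2, h2 (fun v => D (-v))] at h1
    have h4 : ∫ v in Set.Icc (-V) V, g v * D v = ε * ∫ v in Set.Icc (-V) V, g v * D (-v) := by
      exact_mod_cast h1
    have h5 : ∫ v in Set.Icc (-V) V, g v * g v = 0 := by
      have h6 : (fun v => g v * g v) = fun v => g v * D v - ε * (g v * D (-v)) := by
        funext v
        conv_lhs => rw [show g v * g v = g v * (D v - ε * D (-v)) by rw [hg]]
        ring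
      rw [h6, integral_sub, integral_const_mul, h4, sub_self]
      · exact (hgc.mul hDc).continuousOn.integrableOn_Icc
      · exact (continuous_const.mul (hgc.mul hDn)).continuousOn.integrableOn_Icc
    have h5' := (setIntegral_eq_zero_iff_of_nonneg_ae (f := fun v => g v * g v) (by
        filter_upwards with v
        exact mul_self_nonneg (g v)) (hgc.mul hgc).continuousOn.integrableOn_Icc).mp h5
    have h7 := Measure.eqOn_Icc_of_ae_eq volume (show -V ≠ V by linarith) h5'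
      (hgc.mul hgc).continuousOn continuousOn_const
    have h8 : v0 ∈ Set.Icc (-V) V := by
      rw [Set.mem_Icc, ← abs_le]
      linarith
    have h9 := h7 h8
    have h10 : g v0 = 0 := mul_self_eq_zero.mp h9
    rw [hg] at h10
    exact h10
  intro v
  rw [HS.Dd_eq, ← hD]
  have h1 := hg0 (-v)
  rw [neg_neg] at h1
  linarith

end tr


end Pool.Agent.HSG
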