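import Pool.Agent.Lib_helper84.HSG.DefsB

/-! # HSG block GP2 (UNF-b): unfolding of a function with a unitary cocycle -/

namespace Pool.Agent.HSG

open Complex MeasureTheory Filter Topology UpperHalfPlane NumberField IsDedekindDomain
open scoped nonZeroDivisors MatrixGroups ENNReal

theorem gp2_comp {X : Type} [MeasurableSpace X] {μ : Measure X} {T : X → X}
    (hT : MeasurePreserving T μ μ) {E : Type} [NormedAddCommGroup E] [NormedSpace ℝ E]
    {f : X → E} (hf : AEStronglyMeasurable f μ) : ∫ x, f (T x) ∂μ = ∫ x, f x ∂μ := by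
  have h1 : AEStronglyMeasurable f (Measure.map T μ) := by rw [hT.map_eq]; exact hf
  rw [← integral_map hT.measurable.aemeasurable h1, hT.map_eq]

theorem unf_k {G X : Type} [Group G] [Countable G] [MeasurableSpace X] [MulAction G X]
    (μ : Measure X) (hg : ∀ g : G, MeasurePreserving (fun x : X => g • x) μ μ)
    {w : X → ℝ} (hw : Measurable w) (h0 : ∀ x, 0 ≤ w x)
    (hex : ∀ x, HasSum (fun g : G => w (g • x)) 1)
    {P κ : X → ℂ} (hP : Measurable P) (hκ : Measurable κ) (hi : Integrable (fun x => P x *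
      starRingEnd ℂ (κ x)) μ) {j : G → X → ℂ} (hj : ∀ g, Measurable (j g))
    (hj1 : ∀ g x, ‖j g x‖ = 1) (hPj : ∀ g x, P (g • x) = j g x * P x) :
    (∀ᵐ x ∂μ, w x ≠ 0 → Summable (fun g : G => P x * starRingEnd ℂ (starRingEnd ℂ (j g x) *
      κ (g • x)))) ∧
    ∫ x, P x * starRingEnd ℂ (κ x) ∂μ =
      ∫ x, (w x : ℂ) * (∑' g : G, P x * starRingEnd ℂ (starRingEnd ℂ (j g x) * κ (g • x))) ∂μ := by
  set H : X → ℂ := fun x => P x * starRingEnd ℂ (κ x) with hH
  have hterm : ∀ (g : G) (x : X), P x * starRingEnd ℂ (starRingEnd ℂ (j g x) * κ (g • x)) =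
      H (g • x) := by
    intro g x
    rw [hH]
    simp only []
    rw [hPj, map_mul, Complex.conj_conj]
    ring
  simp only [hterm]
  have hHm : Measurable H := hP.mul (Complex.continuous_conj.measurable.comp hκ)
  have hle : ∀ (g : G) (x : X), w (g • x) ≤ 1 := fun g x =>
    le_hasSum (hex x) g (fun g' _ => h0 _)
  have hwg : ∀ g : G, Measurable (fun x => w (g • x)) := fun g => hw.comp (hg g).measurable
  -- the terms before the change of variables
  have hA : ∀ g : G, Integrable (fun x => ((w (g • x) : ℝ) : ℂ) * H x) μ := by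
    intro g
    refine hi.bdd_mul (c := 1) (Complex.measurable_ofReal.comp (hwg g)).aestronglyMeasurable
      (Eventually.of_forall fun x => ?_)
    rw [Complex.norm_real, Real.norm_of_nonneg (h0 _)]
    exact hle g x
  have hAn : ∀ (g : G) (x : X), ‖((w (g • x) : ℝ) : ℂ) * H x‖ = w (g • x) * ‖H x‖ := by
    intro g x
    rw [norm_mul, Complex.norm_real, Real.norm_of_nonneg (h0 _)]
  have hAs : Summable (fun g : G => ∫ x, ‖((w (g • x) : ℝ) : ℂ) * H x‖ ∂μ) := by
    refine summable_of_sum_le (c := ∫ x, ‖H x‖ ∂μ) (fun g => integral_nonneg fun x => norm_nonneg _)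
      (fun s => ?_)
    rw [← integral_finsetSum s (fun g _ => (hA g).norm)]
    refine integral_mono (integrable_finsetSum _ fun g _ => (hA g).norm) hi.norm (fun x => ?_)
    simp only [hAn]
    rw [← Finset.sum_mul]
    have h1 : ∑ g ∈ s, w (g • x) ≤ 1 := sum_le_hasSum s (fun g _ => h0 _) (hex x)
    calc (∑ g ∈ s, w (g • x)) * ‖H x‖ ≤ 1 * ‖H x‖ :=
          mul_le_mul_of_nonneg_right h1 (norm_nonneg _)
      _ = ‖H x‖ := one_mul _
  -- the terms after the change of variables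
  have hBe : ∀ g : G, (fun x => (fun y => (w y : ℂ) * H (g⁻¹ • y)) (g • x)) =
      fun x => ((w (g • x) : ℝ) : ℂ) * H x := by
    intro g
    funext x
    simp only [inv_smul_smul]
  have hBm : ∀ g : G, Measurable (fun y => (w y : ℂ) * H (g⁻¹ • y)) := fun g =>
    (Complex.measurable_ofReal.comp hw).mul (hHm.comp (hg g⁻¹).measurable)
  have hB : ∀ g : G, Integrable (fun y => (w y : ℂ) * H (g⁻¹ • y)) μ := by
    intro g
    have h1 := hA g
    rw [← hBe g] at h1
    have h2 := (hg g).integrable_comp (g := fun y => (w y : ℂ) * H (g⁻¹ • y))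
      (hBm g).aestronglyMeasurable
    exact h2.1 h1
  have hBi : ∀ g : G, ∫ y, (w y : ℂ) * H (g⁻¹ • y) ∂μ = ∫ x, ((w (g • x) : ℝ) : ℂ) * H x ∂μ := by
    intro g
    rw [← hBe g]
    exact (gp2_comp (hg g) (hBm g).aestronglyMeasurable).symm
  have hBn : ∀ g : G, ∫ y, ‖(w y : ℂ) * H (g⁻¹ • y)‖ ∂μ =
      ∫ x, ‖((w (g • x) : ℝ) : ℂ) * H x‖ ∂μ := by
    intro g
    have h1 : (fun x => ‖((w (g • x) : ℝ) : ℂ) * H x‖) =
        fun x => (fun y => ‖(w y : ℂ) * H (g⁻¹ • y)‖) (g • x) := by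
      funext x
      simp only [inv_smul_smul]
    rw [h1]
    exact (gp2_comp (hg g) (hBm g).norm.aestronglyMeasurable).symm
  have hBs : Summable (fun g : G => ∫ y, ‖(w y : ℂ) * H (g⁻¹ • y)‖ ∂μ) := by
    simp only [hBn]
    exact hAs
  -- almost everywhere summability
  have hae : ∀ᵐ y ∂μ, Summable (fun g : G => ‖(w y : ℂ) * H (g⁻¹ • y)‖) := by
    have h1 : ∫⁻ y, ∑' g : G, ‖(w y : ℂ) * H (g⁻¹ • y)‖ₑ ∂μ ≠ ∞ := by
      rw [lintegral_tsum (fun g => (hBm g).enorm.aemeasurable)]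
      have h2 : ∀ g : G, ∫⁻ y, ‖(w y : ℂ) * H (g⁻¹ • y)‖ₑ ∂μ =
          ENNReal.ofReal (∫ y, ‖(w y : ℂ) * H (g⁻¹ • y)‖ ∂μ) := fun g =>
        (ofReal_integral_norm_eq_lintegral_enorm (hB g)).symm
      simp only [h2]
      rw [← ENNReal.ofReal_tsum_of_nonneg (fun g => integral_nonneg fun x => norm_nonneg _) hBs]
      exact ENNReal.ofReal_ne_top
    have h3 := ae_lt_top' (AEMeasurable.tsum fun g => (hBm g).enorm.aemeasurable) h1
    filter_upwards [h3] with y hy
    have h4 : ∀ g : G, ‖(w y : ℂ) * H (g⁻¹ • y)‖ₑ = ((‖(w y : ℂ) * H (g⁻¹ • y)‖₊ : NNReal) : ℝ≥0∞) :=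
      fun g => rfl
    simp only [h4] at hy
    have h5 := ENNReal.tsum_coe_ne_top_iff_summable.1 hy.ne
    exact NNReal.summable_coe.2 h5
  refine ⟨?_, ?_⟩
  · filter_upwards [hae] with y hy hwy
    have h1 : Summable (fun g : G => (w y : ℂ) * H (g⁻¹ • y)) := hy.of_norm
    have h2 : Summable (fun g : G => H (g⁻¹ • y)) := by
      have h3 := h1.mul_left ((w y : ℂ)⁻¹)
      have h4 : (w y : ℂ) ≠ 0 := by exact_mod_cast hwy
      refine h3.congr fun g => ?_
      rw [← mul_assoc, inv_mul_cancel₀ h4, one_mul]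
    exact (Equiv.inv G).summable_iff.1 h2
  · have k1 := hasSum_integral_of_summable_integral_norm hA hAs
    have k2 := hasSum_integral_of_summable_integral_norm hB hBs
    simp only [hBi] at k2
    have k3 := k1.unique k2
    have k4 : ∀ x, ∑' g : G, ((w (g • x) : ℝ) : ℂ) * H x = H x := by
      intro x
      rw [tsum_mul_right, ← Complex.ofReal_tsum, (hex x).tsum_eq, Complex.ofReal_one, one_mul]
    have k5 : ∀ y, ∑' g : G, (w y : ℂ) * H (g⁻¹ • y) = (w y : ℂ) * ∑' g : G, H (g • y) := by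
      intro y
      rw [tsum_mul_left, ← (Equiv.inv G).tsum_eq (fun g : G => H (g • y))]
      rfl
    simp only [k4, k5] at k3
    exact k3


end Pool.Agent.HSG
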