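import Pool.Agent.Lib_helper84.HSG.DefsB

/-! # Hilbert-Selberg, Part II, block GW1: the kernel in coordinates -/

namespace Pool.Agent.HSG

open Complex MeasureTheory Filter Topology UpperHalfPlane NumberField IsDedekindDomain
open scoped nonZeroDivisors MatrixGroups ENNReal

variable {K : Type} [Field K] [NumberField K]

section tr
variable [IsTotallyReal K]

/-- the real computation -/
theorem gw1_real (a b c d β β' y y' : ℝ) (hy : 0 < y) (hy' : 0 < y') (hdet : a * d - b * c = 1) :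
    ‖((a : ℂ) * ((⟨β', y'⟩ : ℂ)) + b) - starRingEnd ℂ (⟨β, y⟩ : ℂ) * ((c : ℂ) * (⟨β', y'⟩ : ℂ) + d)‖
      ^ 2 / (4 * y * y') =
    (((a - β * c) * β' + (b - β * d)) ^ 2 * (y * y')⁻¹ + c ^ 2 * (y * y') +
      (a - β * c) ^ 2 * (y' / y) + (c * β' + d) ^ 2 * (y / y') + 2) / 4 := by
  have h1 : ‖((a : ℂ) * ((⟨β', y'⟩ : ℂ)) + b) -
      starRingEnd ℂ (⟨β, y⟩ : ℂ) * ((c : ℂ) * (⟨β', y'⟩ : ℂ) + d)‖ ^ 2 =
      ((a - β * c) * β' + (b - β * d) - c * y * y') ^ 2 +
        ((a - β * c) * y' + y * (c * β' + d)) ^ 2 := by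
    rw [← Complex.normSq_eq_norm_sq, Complex.normSq_apply]
    simp only [Complex.sub_re, Complex.sub_im, Complex.add_re, Complex.add_im, Complex.mul_re,
      Complex.mul_im, Complex.ofReal_re, Complex.ofReal_im, Complex.conj_re, Complex.conj_im]
    ring
  rw [h1]
  have hy0 := hy.ne'
  have hy0' := hy'.ne'
  field_simp
  linear_combination (2 * y * y') * hdet

theorem gw1_ch (β β' : K) (g : SL(2, K)) (u u' : Em K → ℝ) (w : Em K) :
    WA.ch ((g • zb β' u') w) (zb β u w) = chm (mm β g β') u u' w := by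
  have hdet : w (g 0 0) * w (g 1 1) - w (g 0 1) * w (g 1 0) = 1 := by
    have h := g.det_coe
    rw [Matrix.det_fin_two] at h
    rw [← map_mul, ← map_mul, ← map_sub, h, map_one]
  set G : GL (Fin 2) ℝ := Matrix.GeneralLinearGroup.map (n := Fin 2) w
    (Matrix.SpecialLinearGroup.toGL (n := Fin 2) (R := K) g) with hG
  have hact : (g • zb β' u') w = G • WA.vz (w β') (u' w) := rfl
  have hG00 : G 0 0 = w (g 0 0) := rfl
  have hG01 : G 0 1 = w (g 0 1) := rfl
  have hG10 : G 1 0 = w (g 1 0) := rfl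
  have hG11 : G 1 1 = w (g 1 1) := rfl
  have hGdet : G.det.val = 1 := by
    rw [Matrix.GeneralLinearGroup.val_det_apply, Matrix.det_fin_two, hG00, hG01, hG10, hG11]
    exact hdet
  have hGp : 0 < G.det.val := by rw [hGdet]; exact one_pos
  set z' := WA.vz (w β') (u' w) with hz'
  have hz'c : (z' : ℂ) = ⟨w β', Real.exp (u' w)⟩ := rfl
  have hz'i : z'.im = Real.exp (u' w) := rfl
  have hzc : ((zb β u w : ℍ) : ℂ) = ⟨w β, Real.exp (u w)⟩ := rfl
  have hzi : (zb β u w).im = Real.exp (u w) := rfl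
  have hden : denom G z' ≠ 0 := denom_ne_zero G z'
  have hnum : num G z' = (w (g 0 0) : ℂ) * (⟨w β', Real.exp (u' w)⟩ : ℂ) + (w (g 0 1) : ℂ) := rfl
  have hdeq : denom G z' = (w (g 1 0) : ℂ) * (⟨w β', Real.exp (u' w)⟩ : ℂ) + (w (g 1 1) : ℂ) := rfl
  have him : (G • z').im = Real.exp (u' w) / Complex.normSq (denom G z') := by
    rw [im_smul_eq_div_normSq, hGdet, abs_one, one_mul, hz'i]
  have hco : ((G • z' : ℍ) : ℂ) = num G z' / denom G z' := coe_smul_of_det_pos hGp z'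
  have hns : Complex.normSq (denom G z') ≠ 0 := by
    rw [Ne, Complex.normSq_eq_zero]; exact hden
  have key : WA.ch (G • z') (zb β u w) =
      ‖num G z' - starRingEnd ℂ ((zb β u w : ℍ) : ℂ) * denom G z'‖ ^ 2 /
        (4 * Real.exp (u w) * Real.exp (u' w)) := by
    unfold WA.ch
    rw [him, hco, hzi]
    have e1 : num G z' / denom G z' - starRingEnd ℂ ((zb β u w : ℍ) : ℂ) =
        (num G z' - starRingEnd ℂ ((zb β u w : ℍ) : ℂ) * denom G z') / denom G z' := by
      field_simp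
    rw [e1, norm_div, div_pow, ← Complex.normSq_eq_norm_sq (denom G z')]
    have := Real.exp_pos (u w)
    have := Real.exp_pos (u' w)
    field_simp
  rw [hact, key, hnum, hdeq, hzc,
    gw1_real _ _ _ _ _ _ _ _ (Real.exp_pos _) (Real.exp_pos _) hdet]
  have hm00 : mm β g β' 0 0 = g 0 0 - β * g 1 0 := by
    simp [mm, nm, Matrix.mul_apply, Matrix.vecMul, dotProduct, Fin.sum_univ_two]
    ring
  have hm10 : mm β g β' 1 0 = g 1 0 := by
    simp [mm, nm, Matrix.mul_apply, Matrix.vecMul, dotProduct, Fin.sum_univ_two]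
  have hm01 : mm β g β' 0 1 = (g 0 0 - β * g 1 0) * β' + (g 0 1 - β * g 1 1) := by
    simp [mm, nm, Matrix.mul_apply, Matrix.vecMul, dotProduct, Fin.sum_univ_two]
    ring
  have hm11 : mm β g β' 1 1 = g 1 0 * β' + g 1 1 := by
    simp [mm, nm, Matrix.mul_apply, Matrix.vecMul, dotProduct, Fin.sum_univ_two]
  unfold chm
  rw [hm00, hm10, hm01, hm11]
  simp only [map_add, map_sub, map_mul, Real.exp_neg, Real.exp_add, Real.exp_sub]

theorem chW_mm (β β' : K) (g : SL(2, K)) (u u' : Em K → ℝ) :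
    chW (g • zb β' u') (zb β u) = ∏ w, chm (mm β g β') u u' w := by
  unfold chW
  exact Finset.prod_congr rfl fun w _ => gw1_ch β β' g u u' w

theorem chm_ge (m : Matrix (Fin 2) (Fin 2) K) (hm : m.det = 1) (u u' : Em K → ℝ) (w : Em K) :
    1 ≤ chm m u u' w := by
  have hdet : w (m 0 0) * w (m 1 1) - w (m 0 1) * w (m 1 0) = 1 := by
    rw [← map_mul, ← map_mul, ← map_sub, ← Matrix.det_fin_two, hm, map_one]
  unfold chm
  set s := Real.exp (u w + u' w) with hs
  have hs0 : 0 < s := Real.exp_pos _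
  have hs1 : Real.exp (-(u w + u' w)) = s⁻¹ := Real.exp_neg _
  set t := Real.exp (u' w - u w) with ht
  have ht0 : 0 < t := Real.exp_pos _
  have ht1 : Real.exp (u w - u' w) = t⁻¹ := by
    rw [ht, ← Real.exp_neg]
    congr 1
    ring
  rw [hs1, ht1]
  set p := w (m 0 0)
  set q := w (m 1 1)
  set X := w (m 0 1)
  set c := w (m 1 0)
  have e1 : X ^ 2 * s⁻¹ + c ^ 2 * s = (X + c * s) ^ 2 * s⁻¹ - 2 * (X * c) := by
    field_simp
    ring
  have e2 : p ^ 2 * t + q ^ 2 * t⁻¹ = (p * t - q) ^ 2 * t⁻¹ + 2 * (p * q) := by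
    field_simp
    ring
  have h1 : 0 ≤ (X + c * s) ^ 2 * s⁻¹ := by positivity
  have h2 : 0 ≤ (p * t - q) ^ 2 * t⁻¹ := by positivity
  nlinarith [e1, e2, h1, h2, hdet]

end tr

end Pool.Agent.HSG
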