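import Pool.Agent.Lib_helper84.HSG.DefsB
import Pool.Agent.Lib_helper84.HSGF.GA1
import Pool.Agent.Lib_helper84.HSGF.GA2
import Pool.Agent.Lib_helper84.HSGF.GA3
import Pool.Agent.Lib_helper84.HSGF.GB1
import Pool.Agent.Lib_helper84.HSGF.GB2
import Pool.Agent.Lib_helper84.HSGF.GG

/-! # Hilbert-Selberg, PART II: block GW2 (DEN), bounded denominators -/

namespace Pool.Agent.HSG

open Complex MeasureTheory Filter Topology UpperHalfPlane NumberField IsDedekindDomain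
open scoped nonZeroDivisors MatrixGroups ENNReal

variable {K : Type} [Field K] [NumberField K]

/-- every fractional ideal contains a positive natural number -/
theorem gw2_nat (a : Id K) : ∃ n : ℕ, 1 ≤ n ∧ (n : K) ∈ a.m := by
  obtain ⟨x, hx0, hx⟩ := FractionalIdeal.exists_ne_zero_mem_isInteger
    (I := (a : FractionalIdeal (𝓞 K)⁰ K)) a.ne_zero
  refine ⟨Ideal.absNorm (Ideal.span {x}), ?_, ?_⟩
  · rw [Nat.one_le_iff_ne_zero]
    intro h
    rw [Ideal.absNorm_eq_zero_iff, Ideal.span_singleton_eq_bot] at h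
    exact hx0 h
  · have h1 := Ideal.absNorm_mem (Ideal.span {x})
    rw [Ideal.mem_span_singleton'] at h1
    obtain ⟨y, hy⟩ := h1
    have h2 : ((Ideal.absNorm (Ideal.span {x}) : ℕ) : K) = y • (algebraMap (𝓞 K) K x) := by
      rw [Algebra.smul_def, ← map_mul, hy, map_natCast]
    rw [h2]
    exact a.m.smul_mem y hx

/-- a natural number which moves `a` into the ring of integers -/
theorem gw2_natinv (a : Id K) : ∃ n : ℕ, 1 ≤ n ∧ ∀ x ∈ a.m, (n : K) * x ∈ (1 : Id K).m := by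
  obtain ⟨n, hn, h⟩ := gw2_nat a⁻¹
  refine ⟨n, hn, fun x hx => ?_⟩
  have := mem_mul_of h hx
  rwa [inv_mul_cancel] at this

theorem gw2_nsmul (a : Id K) (n : ℕ) {x : K} (hx : x ∈ a.m) : (n : K) * x ∈ a.m := by
  have := a.m.smul_mem ((n : ℕ) : 𝓞 K) hx
  rwa [Algebra.smul_def, map_natCast] at this

theorem gw2_dvd (a : Id K) {n N : ℕ} (h : n ∣ N) {x : K} (hx : (n : K) * x ∈ a.m) :
    (N : K) * x ∈ a.m := by
  obtain ⟨t, rfl⟩ := h
  have := gw2_nsmul a t hx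
  rw [Nat.cast_mul, mul_comm (n : K), mul_assoc]
  exact this

/-- the coordinates of a lattice have bounded denominators -/
theorem gw2_coord (L : Lat K) : ∃ Q : ℕ, 1 ≤ Q ∧ ∀ v ∈ L.M, ∀ j,
    (Q : K) * v j ∈ (1 : Id K).m := by
  have key : ∀ j : Fin 2, ∃ Q : ℕ, 1 ≤ Q ∧ ∀ v ∈ L.M, (Q : K) * v j ∈ (1 : Id K).m := by
    intro j
    set N : Submodule (𝓞 K) K :=
      L.M.map ((LinearMap.proj j : (Fin 2 → K) →ₗ[K] K).restrictScalars (𝓞 K)) with hN
    have h1 : N ≠ ⊥ := by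
      intro h
      have h2 : ∀ v ∈ L.M, v j = 0 := by
        intro v hv
        have : v j ∈ N := ⟨v, hv, rfl⟩
        rwa [h, Submodule.mem_bot] at this
      have h3 : Submodule.span K (L.M : Set (Fin 2 → K)) ≤
          LinearMap.ker (LinearMap.proj j : (Fin 2 → K) →ₗ[K] K) := by
        rw [Submodule.span_le]
        intro v hv
        exact h2 v hv
      rw [L.top] at h3
      have h4 := h3 (Submodule.mem_top (x := (Pi.single j 1 : Fin 2 → K)))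
      rw [LinearMap.mem_ker] at h4
      simp at h4
    have h2 : (toId N).m = N := toId_m h1 (L.fg.map _)
    obtain ⟨Q, hQ, h⟩ := gw2_natinv (toId N)
    refine ⟨Q, hQ, fun v hv => h _ ?_⟩
    rw [h2]
    exact ⟨v, hv, rfl⟩
  choose Q hQ h using key
  refine ⟨Q 0 * Q 1, Nat.mul_pos (hQ 0) (hQ 1), fun v hv j => ?_⟩
  apply gw2_dvd 1 (n := Q j)
  · fin_cases j
    · exact Dvd.intro _ rfl
    · exact Dvd.intro_left _ rfl
  · exact h j v hv

/-- a lattice contains multiples of the unit vectors -/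
theorem gw2_unit (L : Lat K) : ∃ Q : ℕ, 1 ≤ Q ∧ ∀ i : Fin 2,
    (Q : K) • (Pi.single i 1 : Fin 2 → K) ∈ L.M := by
  have key : ∀ i : Fin 2, ∃ Q : ℕ, 1 ≤ Q ∧ (Q : K) • (Pi.single i 1 : Fin 2 → K) ∈ L.M := by
    intro i
    have hv : (Pi.single i 1 : Fin 2 → K) ≠ 0 := by
      intro h
      have := congrFun h i
      simp at this
    obtain ⟨Q, hQ, h⟩ := gw2_nat (L.av (Pi.single i 1))
    rw [av_m L hv] at h
    exact ⟨Q, hQ, h⟩
  choose Q hQ h using key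
  refine ⟨Q 0 * Q 1, Nat.mul_pos (hQ 0) (hQ 1), fun i => ?_⟩
  have h1 : ∃ t : ℕ, Q 0 * Q 1 = t * Q i := by
    fin_cases i
    · exact ⟨Q 1, mul_comm _ _⟩
    · exact ⟨Q 0, rfl⟩
  obtain ⟨t, ht⟩ := h1
  rw [ht, Nat.cast_mul, mul_smul]
  have := L.M.smul_mem ((t : ℕ) : 𝓞 K) (h i)
  rwa [algebra_compatible_smul K, map_natCast] at this

theorem gw2_act_mem {L L' : Lat K} {g : SL(2, K)} (h : g • L' = L) {v : Fin 2 → K}
    (hv : v ∈ L.M) : Matrix.vecMul v (g : Matrix (Fin 2) (Fin 2) K) ∈ L'.M := by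
  rw [← h] at hv
  obtain ⟨x, hx, rfl⟩ := hv
  have h1 : Matrix.vecMul (Matrix.vecMul x
      (((((g : GL (Fin 2) K))⁻¹ : GL (Fin 2) K)) : Matrix (Fin 2) (Fin 2) K))
      (g : Matrix (Fin 2) (Fin 2) K) = x := by
    rw [Matrix.vecMul_vecMul]
    have h2 : (((((g : GL (Fin 2) K))⁻¹ : GL (Fin 2) K)) : Matrix (Fin 2) (Fin 2) K) *
        (g : Matrix (Fin 2) (Fin 2) K) = 1 := by
      have := congrArg (fun u : GL (Fin 2) K => (u : Matrix (Fin 2) (Fin 2) K))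
        (inv_mul_cancel (g : GL (Fin 2) K))
      exact this
    rw [h2, Matrix.vecMul_one]
  have h3 : Matrix.vecMul (Matrix.vecMul x
      (((((g : GL (Fin 2) K))⁻¹ : GL (Fin 2) K)) : Matrix (Fin 2) (Fin 2) K))
      (g : Matrix (Fin 2) (Fin 2) K) ∈ L'.M := by
    rw [h1]
    exact hx
  exact h3

section tr
variable [IsTotallyReal K]

/-- the elements mapping one lattice to another have bounded denominators -/
theorem act_den (L L' : Lat K) : ∃ Q : ℕ, 1 ≤ Q ∧ ∀ g : SL(2, K), g • L' = L →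
    (g : Matrix (Fin 2) (Fin 2) K) ∈ MQ K Q := by
  obtain ⟨q, hq, h1⟩ := gw2_unit L
  obtain ⟨q', hq', h2⟩ := gw2_coord L'
  refine ⟨q' * q, Nat.mul_pos hq' hq, fun g hg => ⟨g.2, fun i j => ?_⟩⟩
  have h3 := gw2_act_mem hg (h1 i)
  have h4 := h2 _ h3 j
  rw [Matrix.smul_vecMul, Matrix.single_one_vecMul, Pi.smul_apply, smul_eq_mul,
    ← mul_assoc, ← Nat.cast_mul] at h4
  exact h4

/-- the entries of `m` have bounded denominators -/
theorem mm_den (cu : Cusps K) : ∃ C₀ : ℕ, 1 ≤ C₀ ∧ ∀ (κ κ' : NCl K) (c c' : Id K) (β β' : K)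
    (n n' : ℕ) (g : SL(2, K)), ExD (cu.x κ) c β → ExD (cu.x κ') c' β' → nI c = n → nI c' = n' →
    g • cu.L κ' = cu.L κ → mm β g β' ∈ MQ K (C₀ * n * n') := by
  have := ncl_finite (K := K)
  have := Fintype.ofFinite (NCl K)
  have h1 : ∀ κ, ∃ n : ℕ, 1 ≤ n ∧ (n : K) ∈ (cu.b κ).m := fun κ => gw2_nat _
  have h2 : ∀ κ, ∃ n : ℕ, 1 ≤ n ∧ (n : K) ∈ (cu.a κ).m := fun κ => gw2_nat _
  have h3 : ∀ κ, ∃ n : ℕ, 1 ≤ n ∧ ∀ x ∈ (cu.b κ).m, (n : K) * x ∈ (1 : Id K).m :=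
    fun κ => gw2_natinv _
  have h4 : ∀ κ, ∃ n : ℕ, 1 ≤ n ∧ ∀ x ∈ (cu.a κ).m, (n : K) * x ∈ (1 : Id K).m :=
    fun κ => gw2_natinv _
  choose N1 hN1 h1 using h1
  choose N2 hN2 h2 using h2
  choose N3 hN3 h3 using h3
  choose N4 hN4 h4 using h4
  set P : ℕ := ∏ κ, (N1 κ * N2 κ) with hP
  set R : ℕ := ∏ κ, (N3 κ * N4 κ) with hR
  have hP0 : 0 < P := Finset.prod_pos fun κ _ => Nat.mul_pos (hN1 κ) (hN2 κ)
  have hR0 : 0 < R := Finset.prod_pos fun κ _ => Nat.mul_pos (hN3 κ) (hN4 κ)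
  have d1 : ∀ κ, N1 κ ∣ P := fun κ =>
    (Dvd.intro _ rfl).trans (Finset.dvd_prod_of_mem (fun κ => N1 κ * N2 κ) (Finset.mem_univ κ))
  have d2 : ∀ κ, N2 κ ∣ P := fun κ =>
    (Dvd.intro_left _ rfl).trans
      (Finset.dvd_prod_of_mem (fun κ => N1 κ * N2 κ) (Finset.mem_univ κ))
  have d3 : ∀ κ, N3 κ ∣ R := fun κ =>
    (Dvd.intro _ rfl).trans (Finset.dvd_prod_of_mem (fun κ => N3 κ * N4 κ) (Finset.mem_univ κ))
  have d4 : ∀ κ, N4 κ ∣ R := fun κ =>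
    (Dvd.intro_left _ rfl).trans
      (Finset.dvd_prod_of_mem (fun κ => N3 κ * N4 κ) (Finset.mem_univ κ))
  refine ⟨P * R, Nat.mul_pos hP0 hR0, fun κ κ' c c' β β' n n' g hc hc' hn hn' hg => ?_⟩
  obtain ⟨n1, hn1, hn2, hn3⟩ := nI_int (exd_int hc)
  obtain ⟨n1', hn1', hn2', hn3'⟩ := nI_int (exd_int hc')
  have e1 : n1 = n := by
    have : (n1 : ℝ) = n := by rw [← hn2, hn]
    exact_mod_cast this
  have e1' : n1' = n' := by
    have : (n1' : ℝ) = n' := by rw [← hn2', hn']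
    exact_mod_cast this
  subst e1 e1'
  have p1 := exd_parts (a := cu.a κ) (b := cu.b κ) hc
  have p2 := exd_parts (a := cu.a κ') (b := cu.b κ') hc'
  -- the main property
  have hm : mm β g β' = !![1, -β; 0, 1] * (g : Matrix (Fin 2) (Fin 2) K) * !![1, β'; 0, 1] :=
    rfl
  have key : ∀ v : Fin 2 → K, v ∈ ((cu.L κ).mul (nm β : GL (Fin 2) K)).M →
      Matrix.vecMul v (mm β g β') ∈ ((cu.L κ').mul (nm β' : GL (Fin 2) K)).M := by
    rintro _ ⟨x, hx, rfl⟩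
    have h5 := gw2_act_mem hg hx
    refine ⟨_, h5, ?_⟩
    rw [hm]
    show Matrix.vecMul (Matrix.vecMul x (g : Matrix (Fin 2) (Fin 2) K)) !![1, β'; 0, 1] =
      Matrix.vecMul (Matrix.vecMul x !![1, β; 0, 1]) _
    rw [Matrix.vecMul_vecMul, Matrix.vecMul_vecMul]
    congr 1
    rw [← mul_assoc, ← mul_assoc]
    have : (!![1, β; 0, 1] : Matrix (Fin 2) (Fin 2) K) * !![1, -β; 0, 1] = 1 := by
      ext i j
      fin_cases i <;> fin_cases j <;> simp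
    rw [this, one_mul]
  -- the vectors in M
  have row0 : ∀ t ∈ (cu.b κ * c).m,
      t * mm β g β' 0 0 ∈ (cu.b κ').m ∧ t * mm β g β' 0 1 ∈ (cu.a κ' / c').m := by
    intro t ht
    have h5 := (p1.1 t).mpr ht
    have h6 : (![t, 0] : Fin 2 → K) ∈ ((cu.L κ).mul (nm β : GL (Fin 2) K)).M := by
      rw [Cusps.L, mem_ds_nm]
      refine ⟨h5.1, ?_⟩
      have := (cu.a κ).m.neg_mem h5.2
      simpa using this
    have h7 := key _ h6
    rw [Cusps.L, mem_ds_nm] at h7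
    have h8 : Matrix.vecMul ![t, 0] (mm β g β') 0 = t * mm β g β' 0 0 := by
      simp [Matrix.vecMul, dotProduct, Fin.sum_univ_two]
    have h9 : Matrix.vecMul ![t, 0] (mm β g β') 1 = t * mm β g β' 0 1 := by
      simp [Matrix.vecMul, dotProduct, Fin.sum_univ_two]
    rw [h8, h9] at h7
    refine ⟨h7.1, (p2.2 _).mp ⟨_, h7.1, _, h7.2, by ring⟩⟩
  have row1 : ∀ t ∈ (cu.a κ).m,
      t * mm β g β' 1 0 ∈ (cu.b κ').m ∧ t * mm β g β' 1 1 ∈ (cu.a κ' / c').m := by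
    intro t ht
    have h6 : (![0, t] : Fin 2 → K) ∈ ((cu.L κ).mul (nm β : GL (Fin 2) K)).M := by
      rw [Cusps.L, mem_ds_nm]
      refine ⟨(cu.b κ).m.zero_mem, ?_⟩
      simpa using ht
    have h7 := key _ h6
    rw [Cusps.L, mem_ds_nm] at h7
    have h8 : Matrix.vecMul ![0, t] (mm β g β') 0 = t * mm β g β' 1 0 := by
      simp [Matrix.vecMul, dotProduct, Fin.sum_univ_two]
    have h9 : Matrix.vecMul ![0, t] (mm β g β') 1 = t * mm β g β' 1 1 := by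
      simp [Matrix.vecMul, dotProduct, Fin.sum_univ_two]
    rw [h8, h9] at h7
    refine ⟨h7.1, (p2.2 _).mp ⟨_, h7.1, _, h7.2, by ring⟩⟩
  have hc0 : ((N1 κ : K) * (n1 : K)) ∈ (cu.b κ * c).m := mem_mul_of (h1 κ) hn3
  have down : ∀ x ∈ (cu.a κ' / c').m, (N4 κ' : K) * ((n1' : K) * x) ∈ (1 : Id K).m := by
    intro x hx
    apply h4
    rw [mem_div_iff] at hx
    rw [mul_comm]
    exact hx _ hn3'
  refine ⟨?_, fun i j => ?_⟩
  · exact (nm (-β) * g * nm β' : SL(2, K)).2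
  · have r0 := row0 _ hc0
    have r1 := row1 _ (h2 κ)
    fin_cases i <;> fin_cases j
    · have h5 := h3 κ' _ r0.1
      have h6 : ((N3 κ' * (N1 κ * n1) : ℕ) : K) * mm β g β' 0 0 ∈ (1 : Id K).m := by
        push_cast
        rwa [mul_assoc]
      refine gw2_dvd 1 ?_ h6
      calc N3 κ' * (N1 κ * n1) ∣ R * (P * n1) :=
            Nat.mul_dvd_mul (d3 κ') (Nat.mul_dvd_mul (d1 κ) dvd_rfl)
        _ ∣ P * R * n1 * n1' := ⟨n1', by ring⟩
    · have h5 := down _ r0.2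
      have h6 : ((N4 κ' * (n1' * (N1 κ * n1)) : ℕ) : K) * mm β g β' 0 1 ∈ (1 : Id K).m := by
        push_cast
        have e : (N4 κ' : K) * ((n1' : K) * ((N1 κ : K) * (n1 : K))) * mm β g β' 0 1 =
          (N4 κ' : K) * ((n1' : K) * ((N1 κ : K) * (n1 : K) * mm β g β' 0 1)) := by ring
        rwa [e]
      refine gw2_dvd 1 ?_ h6
      calc N4 κ' * (n1' * (N1 κ * n1)) ∣ R * (n1' * (P * n1)) :=
            Nat.mul_dvd_mul (d4 κ') (Nat.mul_dvd_mul dvd_rfl (Nat.mul_dvd_mul (d1 κ) dvd_rfl))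
        _ ∣ P * R * n1 * n1' := ⟨1, by ring⟩
    · have h5 := h3 κ' _ r1.1
      have h6 : ((N3 κ' * N2 κ : ℕ) : K) * mm β g β' 1 0 ∈ (1 : Id K).m := by
        push_cast
        rwa [mul_assoc]
      refine gw2_dvd 1 ?_ h6
      calc N3 κ' * N2 κ ∣ R * P := Nat.mul_dvd_mul (d3 κ') (d2 κ)
        _ ∣ P * R * n1 * n1' := ⟨n1 * n1', by ring⟩
    · have h5 := down _ r1.2
      have h6 : ((N4 κ' * (n1' * N2 κ) : ℕ) : K) * mm β g β' 1 1 ∈ (1 : Id K).m := by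
        push_cast
        have e : (N4 κ' : K) * ((n1' : K) * (N2 κ : K)) * mm β g β' 1 1 =
          (N4 κ' : K) * ((n1' : K) * ((N2 κ : K) * mm β g β' 1 1)) := by ring
        rwa [e]
      refine gw2_dvd 1 ?_ h6
      calc N4 κ' * (n1' * N2 κ) ∣ R * (n1' * P) :=
            Nat.mul_dvd_mul (d4 κ') (Nat.mul_dvd_mul dvd_rfl (d2 κ))
        _ ∣ P * R * n1 * n1' := ⟨n1, by ring⟩

end tr


end Pool.Agent.HSG
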