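import Pool.Agent.Lib_helper84.HSG.DefsB
import Pool.Agent.Lib_helper84.HSGF.GD1
import Pool.Agent.Lib_helper84.HSGF.GD2

/-! # Hilbert-Selberg, PART II, block GX: convergence of the kernel sum -/

namespace Pool.Agent.HSG

open Complex MeasureTheory Filter Topology UpperHalfPlane NumberField IsDedekindDomain
open scoped nonZeroDivisors MatrixGroups ENNReal

variable {K : Type} [Field K] [NumberField K]

section tr4
variable [IsTotallyReal K]

private theorem gx_nonempty : Nonempty (Em K) := by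
  rw [← Fintype.card_pos_iff, card_em]
  exact dg_pos

/-- the lattice of integers -/
private theorem gx_lat : ∃ L : Submodule ℤ (Em K → ℝ), (∀ x ∈ (1 : Id K).m, em x ∈ L) ∧
    Summable (fun y : L => ((1 + ‖(y : Em K → ℝ)‖ ^ 2) ^ (dg K))⁻¹) := by
  classical
  obtain ⟨e, he1, he2, he3, -⟩ := lat_basis (1 : Id K)
  haveI := gx_nonempty (K := K)
  have hc : Fintype.card (Em K) = Module.finrank ℝ (Em K → ℝ) := by simp
  let b : Module.Basis (Em K) ℝ (Em K → ℝ) := basisOfLinearIndependentOfCardEqFinrank he3 hc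
  have hb : ∀ i, b i = em (e i) := by
    intro i
    simp [b]
  refine ⟨Submodule.span ℤ (Set.range b), ?_, ?_⟩
  · intro x hx
    obtain ⟨c, rfl⟩ := he2 x hx
    have h1 : em (∑ i, (c i : K) * e i) = ∑ i, c i • b i := by
      funext w
      simp only [em, map_sum, map_mul, map_intCast, Finset.sum_apply, hb,
        zsmul_eq_mul, Pi.mul_apply, Pi.intCast_apply]
    rw [h1]
    exact Submodule.sum_mem _ fun i _ =>
      Submodule.smul_mem _ _ (Submodule.subset_span ⟨i, rfl⟩)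
  · have hd : 1 ≤ dg K := dg_pos
    have hrk : Module.finrank ℤ (Submodule.span ℤ (Set.range b)) = dg K := by
      rw [ZLattice.rank ℝ (Submodule.span ℤ (Set.range b)), ← hc, card_em]
    have h2 := ZLattice.summable_norm_pow_inv (Submodule.span ℤ (Set.range b)) (2 * dg K)
      (by rw [hrk]; omega)
    refine Summable.of_norm_bounded_eventually h2 ?_
    have h3 : {y : Submodule.span ℤ (Set.range b) |
        ¬ ‖((1 + ‖(y : Em K → ℝ)‖ ^ 2) ^ (dg K))⁻¹‖ ≤ ‖y‖⁻¹ ^ (2 * dg K)} ⊆ {0} := by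
      intro y hy
      by_contra h0
      apply hy
      have h4 : 0 < ‖y‖ := norm_pos_iff.mpr h0
      have h5 : ‖y‖ = ‖(y : Em K → ℝ)‖ := rfl
      rw [Real.norm_of_nonneg (by positivity), inv_pow, pow_mul, ← h5]
      apply inv_anti₀ (by positivity)
      apply pow_le_pow_left₀ (by positivity)
      linarith [sq_nonneg ‖y‖]
    exact (Set.finite_singleton _).subset h3

/-- lower bound of the product for one matrix -/
private theorem gx_pt {Q : ℕ} {V : ℝ} {u u' : Em K → ℝ} (hQ : 1 ≤ Q) (hV : 0 ≤ V)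
    (hu : ∀ w, |u w| ≤ V) (hu' : ∀ w, |u' w| ≤ V) (m : Matrix (Fin 2) (Fin 2) K) :
    ∀ i j, (Real.exp (-(2 * V)) / (4 * (Q : ℝ) ^ 2)) ^ dg K * (1 + ‖em ((Q : K) * m i j)‖ ^ 2) ≤
      ∏ w, chm m u u' w := by
  have hQ' : (1 : ℝ) ≤ (Q : ℝ) := by exact_mod_cast hQ
  -- the local bound
  have hloc : ∀ w : Em K, ∀ i j, Real.exp (-(2 * V)) / (4 * (Q : ℝ) ^ 2) *
      (1 + (w ((Q : K) * m i j)) ^ 2) ≤ chm m u u' w := by
    intro w i j
    have hu1 := abs_le.mp (hu w)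
    have hu2 := abs_le.mp (hu' w)
    have e1 : Real.exp (-(2 * V)) ≤ Real.exp (-(u w + u' w)) := Real.exp_le_exp.mpr (by linarith)
    have e2 : Real.exp (-(2 * V)) ≤ Real.exp (u w + u' w) := Real.exp_le_exp.mpr (by linarith)
    have e3 : Real.exp (-(2 * V)) ≤ Real.exp (u' w - u w) := Real.exp_le_exp.mpr (by linarith)
    have e4 : Real.exp (-(2 * V)) ≤ Real.exp (u w - u' w) := Real.exp_le_exp.mpr (by linarith)
    have e5 : Real.exp (-(2 * V)) ≤ 1 := by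
      rw [Real.exp_le_one_iff]; linarith
    have e0 : 0 < Real.exp (-(2 * V)) := Real.exp_pos _
    set a := Real.exp (-(2 * V)) with ha
    have h1 : a / 4 * (1 + (w (m 0 1)) ^ 2 + (w (m 1 0)) ^ 2 + (w (m 0 0)) ^ 2 +
        (w (m 1 1)) ^ 2) ≤ chm m u u' w := by
      unfold chm
      nlinarith [mul_le_mul_of_nonneg_left e1 (sq_nonneg (w (m 0 1))),
        mul_le_mul_of_nonneg_left e2 (sq_nonneg (w (m 1 0))),
        mul_le_mul_of_nonneg_left e3 (sq_nonneg (w (m 0 0))),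
        mul_le_mul_of_nonneg_left e4 (sq_nonneg (w (m 1 1)))]
    have h2 : (w (m i j)) ^ 2 ≤ (w (m 0 1)) ^ 2 + (w (m 1 0)) ^ 2 + (w (m 0 0)) ^ 2 +
        (w (m 1 1)) ^ 2 := by
      fin_cases i <;> fin_cases j <;> simp <;> nlinarith [sq_nonneg (w (m 0 1)),
        sq_nonneg (w (m 1 0)), sq_nonneg (w (m 0 0)), sq_nonneg (w (m 1 1))]
    refine le_trans ?_ h1
    have h3 : a / (4 * (Q : ℝ) ^ 2) * (1 + (w ((Q : K) * m i j)) ^ 2) ≤
        a / 4 * (1 + (w (m i j)) ^ 2) := by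
      rw [map_mul, map_natCast]
      have h4 : a / (4 * (Q : ℝ) ^ 2) * (1 + ((Q : ℝ) * w (m i j)) ^ 2) =
          a / 4 * (1 / (Q : ℝ) ^ 2 + (w (m i j)) ^ 2) := by
        field_simp
      rw [h4]
      have h5 : 1 / (Q : ℝ) ^ 2 ≤ 1 := by
        rw [div_le_one (by positivity)]
        exact one_le_pow₀ hQ'
      gcongr
    refine h3.trans ?_
    exact mul_le_mul_of_nonneg_left (by linarith) (by positivity)
  have hchm : ∀ w : Em K, Real.exp (-(2 * V)) / (4 * (Q : ℝ) ^ 2) ≤ chm m u u' w := by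
    intro w
    refine le_trans ?_ (hloc w 0 0)
    have : 0 < Real.exp (-(2 * V)) / (4 * (Q : ℝ) ^ 2) := by positivity
    nlinarith [sq_nonneg (w ((Q : K) * m 0 0))]
  intro i j
  set c1 := Real.exp (-(2 * V)) / (4 * (Q : ℝ) ^ 2) with hc1
  have hc1p : 0 < c1 := by positivity
  -- for every w
  have hw : ∀ w : Em K, c1 ^ dg K * (1 + (w ((Q : K) * m i j)) ^ 2) ≤ ∏ w, chm m u u' w := by
    classical
    intro w
    rw [← Finset.mul_prod_erase Finset.univ (fun w => chm m u u' w) (Finset.mem_univ w)]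
    have h1 : c1 ^ dg K = c1 * ∏ w' ∈ Finset.univ.erase w, c1 := by
      rw [Finset.prod_const, Finset.card_erase_of_mem (Finset.mem_univ w), Finset.card_univ,
        card_em, ← pow_succ']
      congr 1
      have := dg_pos (K := K)
      omega
    rw [h1]
    have h2 : ∏ w' ∈ Finset.univ.erase w, c1 ≤ ∏ w' ∈ Finset.univ.erase w, chm m u u' w' :=
      Finset.prod_le_prod (fun _ _ => hc1p.le) fun w' _ => hchm w'
    have h3 : 0 ≤ ∏ w' ∈ Finset.univ.erase w, c1 := by positivity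
    calc c1 * (∏ w' ∈ Finset.univ.erase w, c1) * (1 + (w ((Q : K) * m i j)) ^ 2)
        = c1 * (1 + (w ((Q : K) * m i j)) ^ 2) * ∏ w' ∈ Finset.univ.erase w, c1 := by ring
      _ ≤ chm m u u' w * ∏ w' ∈ Finset.univ.erase w, chm m u u' w' := by
        refine mul_le_mul (hloc w i j) h2 h3 ?_
        exact hc1p.le.trans (hchm w)
  have hb : 1 + ‖em ((Q : K) * m i j)‖ ^ 2 ≤ (∏ w, chm m u u' w) / c1 ^ dg K := by
    obtain ⟨w0⟩ := gx_nonempty (K := K)
    have h0 : ∀ w : Em K, 1 + (w ((Q : K) * m i j)) ^ 2 ≤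
        (∏ w, chm m u u' w) / c1 ^ dg K := by
      intro w
      rw [le_div_iff₀ (by positivity)]
      linarith [hw w, mul_comm (c1 ^ dg K) (1 + (w ((Q : K) * m i j)) ^ 2)]
    set B := (∏ w, chm m u u' w) / c1 ^ dg K with hB
    have hB1 : 0 ≤ B - 1 := by
      have := h0 w0
      nlinarith [sq_nonneg (w0 ((Q : K) * m i j))]
    have h5 : ‖em ((Q : K) * m i j)‖ ≤ Real.sqrt (B - 1) := by
      rw [pi_norm_le_iff_of_nonneg (Real.sqrt_nonneg _)]
      intro w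
      rw [Real.norm_eq_abs]
      apply Real.abs_le_sqrt
      simp only [em]
      linarith [h0 w]
    have h6 : ‖em ((Q : K) * m i j)‖ ^ 2 ≤ B - 1 := by
      have := pow_le_pow_left₀ (norm_nonneg _) h5 2
      rwa [Real.sq_sqrt hB1] at this
    linarith
  rw [le_div_iff₀ (by positivity)] at hb
  linarith [mul_comm (c1 ^ dg K) (1 + ‖em ((Q : K) * m i j)‖ ^ 2)]

private theorem gx_four {α : Type} (f : α → ℝ≥0∞) :
    ∑' p : α × α × α × α, f p.1 * (f p.2.1 * (f p.2.2.1 * f p.2.2.2)) = (∑' a, f a) ^ 4 := by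
  rw [ENNReal.tsum_prod' (f := fun p : α × α × α × α => f p.1 * (f p.2.1 * (f p.2.2.1 * f p.2.2.2)))]
  simp only [ENNReal.tsum_mul_left]
  rw [ENNReal.tsum_mul_right]
  rw [ENNReal.tsum_prod' (f := fun p : α × α × α => f p.1 * (f p.2.1 * f p.2.2))]
  simp only [ENNReal.tsum_mul_left]
  rw [ENNReal.tsum_mul_right]
  rw [ENNReal.tsum_prod' (f := fun p : α × α => f p.1 * f p.2)]
  simp only [ENNReal.tsum_mul_left]
  rw [ENNReal.tsum_mul_right]
  ring

theorem ksum : ∃ C E : ℝ, 0 < C ∧ 0 < E ∧ ∀ (Q : ℕ) (V : ℝ) (u u' : Em K → ℝ), 1 ≤ Q → 0 ≤ V →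
    (∀ w, |u w| ≤ V) → (∀ w, |u' w| ≤ V) →
    ∑' m : MQ K Q, ENNReal.ofReal ((∏ w, chm m.1 u u' w) ^ (-(4 * (dg K : ℝ)))) ≤
      ENNReal.ofReal (C * (Q : ℝ) ^ E * Real.exp (E * V)) := by
  obtain ⟨L, hL, hS⟩ := gx_lat (K := K)
  have hd : 1 ≤ dg K := dg_pos
  have hd' : (1 : ℝ) ≤ (dg K : ℝ) := by exact_mod_cast hd
  set d := dg K with hdd
  set F : L → ℝ := fun y => ((1 + ‖(y : Em K → ℝ)‖ ^ 2) ^ d)⁻¹ with hF
  have hF0 : ∀ y, 0 ≤ F y := fun y => by positivity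
  have hS0 : 0 ≤ ∑' y, F y := tsum_nonneg hF0
  refine ⟨4 ^ (4 * d ^ 2) * ((∑' y, F y) ^ 4 + 1), 8 * (d : ℝ) ^ 2, by positivity, by positivity,
    ?_⟩
  intro Q V u u' hQ hV hu hu'
  have hQ' : (1 : ℝ) ≤ (Q : ℝ) := by exact_mod_cast hQ
  set A : ℝ := 4 ^ (4 * d ^ 2) * (Q : ℝ) ^ (8 * (d : ℝ) ^ 2) * Real.exp (8 * (d : ℝ) ^ 2 * V)
    with hA
  have hA0 : 0 ≤ A := by positivity
  let y : MQ K Q → Fin 2 → Fin 2 → L := fun m i j => ⟨em ((Q : K) * m.1 i j), hL _ (m.2.2 i j)⟩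
  have hpt : ∀ m : MQ K Q, (∏ w, chm m.1 u u' w) ^ (-(4 * (d : ℝ))) ≤
      A * (F (y m 0 0) * (F (y m 0 1) * (F (y m 1 0) * F (y m 1 1)))) := by
    intro m
    have hb := gx_pt hQ hV hu hu' m.1
    set c1 := Real.exp (-(2 * V)) / (4 * (Q : ℝ) ^ 2) with hc1
    have hc1p : 0 < c1 := by positivity
    set P := ∏ w, chm m.1 u u' w with hP
    have hP0 : 0 < P := lt_of_lt_of_le (by positivity) (hb 0 0)
    have h1 : P ^ (-(4 * (d : ℝ))) = (P ^ (4 * d))⁻¹ := by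
      rw [Real.rpow_neg hP0.le]
      congr 1
      rw [← Real.rpow_natCast]
      push_cast
      rfl
    have h2 : A = (c1 ^ (4 * d ^ 2))⁻¹ := by
      rw [hA, hc1, div_pow, inv_div, mul_pow, ← pow_mul, ← Real.exp_nat_mul]
      have e1 : Real.exp (((4 * d ^ 2 : ℕ) : ℝ) * -(2 * V)) =
          (Real.exp (8 * (d : ℝ) ^ 2 * V))⁻¹ := by
        rw [← Real.exp_neg]
        congr 1
        push_cast
        ring
      have e2 : (Q : ℝ) ^ (8 * (d : ℝ) ^ 2) = (Q : ℝ) ^ (2 * (4 * d ^ 2)) := by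
        rw [← Real.rpow_natCast (Q : ℝ) (2 * (4 * d ^ 2))]
        congr 1
        push_cast
        ring
      rw [e1, e2, div_inv_eq_mul]
    rw [h1, h2]
    have h3 : (c1 ^ d * (1 + ‖em ((Q : K) * m.1 0 0)‖ ^ 2)) ^ d *
        ((c1 ^ d * (1 + ‖em ((Q : K) * m.1 0 1)‖ ^ 2)) ^ d *
        ((c1 ^ d * (1 + ‖em ((Q : K) * m.1 1 0)‖ ^ 2)) ^ d *
        (c1 ^ d * (1 + ‖em ((Q : K) * m.1 1 1)‖ ^ 2)) ^ d)) ≤ P ^ (4 * d) := by
      have e0 : P ^ (4 * d) = P ^ d * (P ^ d * (P ^ d * P ^ d)) := by ring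
      rw [e0]
      have hp : ∀ i j, (c1 ^ d * (1 + ‖em ((Q : K) * m.1 i j)‖ ^ 2)) ^ d ≤ P ^ d := fun i j =>
        pow_le_pow_left₀ (by positivity) (hb i j) d
      gcongr <;> exact hb _ _
    have h4 : (c1 ^ (4 * d ^ 2))⁻¹ * (F (y m 0 0) * (F (y m 0 1) * (F (y m 1 0) * F (y m 1 1)))) =
        ((c1 ^ d * (1 + ‖em ((Q : K) * m.1 0 0)‖ ^ 2)) ^ d *
        ((c1 ^ d * (1 + ‖em ((Q : K) * m.1 0 1)‖ ^ 2)) ^ d *
        ((c1 ^ d * (1 + ‖em ((Q : K) * m.1 1 0)‖ ^ 2)) ^ d *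
        (c1 ^ d * (1 + ‖em ((Q : K) * m.1 1 1)‖ ^ 2)) ^ d)))⁻¹ := by
      have e1 : c1 ^ (4 * d ^ 2) = (c1 ^ d) ^ d * ((c1 ^ d) ^ d * ((c1 ^ d) ^ d * (c1 ^ d) ^ d)) := by
        rw [← pow_mul, ← pow_add, ← pow_add, ← pow_add]
        congr 1
        ring
      simp only [hF, y]
      rw [e1]
      simp only [mul_pow, mul_inv]
      ring
    rw [h4]
    exact inv_anti₀ (by positivity) h3
  -- summation
  have hinj : Function.Injective (fun m : MQ K Q => (y m 0 0, y m 0 1, y m 1 0, y m 1 1)) := by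
    obtain ⟨w0⟩ := gx_nonempty (K := K)
    have hQ0 : (Q : K) ≠ 0 := by
      rw [Nat.cast_ne_zero]; omega
    have key : ∀ (m m' : MQ K Q) (i j : Fin 2), y m i j = y m' i j → m.1 i j = m'.1 i j := by
      intro m m' i j h
      have h1 : em ((Q : K) * m.1 i j) = em ((Q : K) * m'.1 i j) := congrArg Subtype.val h
      have h2 := congrFun h1 w0
      simp only [em] at h2
      have h3 := w0.injective h2
      exact mul_left_cancel₀ hQ0 h3
    intro m m' h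
    simp only [Prod.mk.injEq] at h
    obtain ⟨h1, h2, h3, h4⟩ := h
    apply Subtype.ext
    ext i j
    fin_cases i <;> fin_cases j
    · exact key m m' 0 0 h1
    · exact key m m' 0 1 h2
    · exact key m m' 1 0 h3
    · exact key m m' 1 1 h4
  calc ∑' m : MQ K Q, ENNReal.ofReal ((∏ w, chm m.1 u u' w) ^ (-(4 * (d : ℝ))))
      ≤ ∑' m : MQ K Q, ENNReal.ofReal A * (ENNReal.ofReal (F (y m 0 0)) *
        (ENNReal.ofReal (F (y m 0 1)) * (ENNReal.ofReal (F (y m 1 0)) *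
          ENNReal.ofReal (F (y m 1 1))))) := by
        refine ENNReal.tsum_le_tsum fun m => ?_
        rw [← ENNReal.ofReal_mul (hF0 _), ← ENNReal.ofReal_mul (hF0 _),
          ← ENNReal.ofReal_mul (hF0 _), ← ENNReal.ofReal_mul hA0]
        exact ENNReal.ofReal_le_ofReal (hpt m)
    _ = ENNReal.ofReal A * ∑' m : MQ K Q, (ENNReal.ofReal (F (y m 0 0)) *
        (ENNReal.ofReal (F (y m 0 1)) * (ENNReal.ofReal (F (y m 1 0)) *
          ENNReal.ofReal (F (y m 1 1))))) := ENNReal.tsum_mul_left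
    _ ≤ ENNReal.ofReal A * ∑' p : L × L × L × L, (ENNReal.ofReal (F p.1) *
        (ENNReal.ofReal (F p.2.1) * (ENNReal.ofReal (F p.2.2.1) *
          ENNReal.ofReal (F p.2.2.2)))) := by
        gcongr
        exact ENNReal.tsum_comp_le_tsum_of_injective hinj
          (fun p : L × L × L × L => (ENNReal.ofReal (F p.1) *
            (ENNReal.ofReal (F p.2.1) * (ENNReal.ofReal (F p.2.2.1) *
              ENNReal.ofReal (F p.2.2.2)))))
    _ = ENNReal.ofReal A * (∑' a : L, ENNReal.ofReal (F a)) ^ 4 := by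
        rw [gx_four (fun a : L => ENNReal.ofReal (F a))]
    _ ≤ ENNReal.ofReal (4 ^ (4 * d ^ 2) * ((∑' y, F y) ^ 4 + 1) * (Q : ℝ) ^ (8 * (d : ℝ) ^ 2) *
          Real.exp (8 * (d : ℝ) ^ 2 * V)) := by
        rw [← ENNReal.ofReal_tsum_of_nonneg hF0 hS, ← ENNReal.ofReal_pow hS0,
          ← ENNReal.ofReal_mul hA0]
        apply ENNReal.ofReal_le_ofReal
        rw [hA]
        have e1 : 4 ^ (4 * d ^ 2) * ((∑' y, F y) ^ 4 + 1) * (Q : ℝ) ^ (8 * (d : ℝ) ^ 2) *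
          Real.exp (8 * (d : ℝ) ^ 2 * V) = 4 ^ (4 * d ^ 2) * (Q : ℝ) ^ (8 * (d : ℝ) ^ 2) *
          Real.exp (8 * (d : ℝ) ^ 2 * V) * ((∑' y, F y) ^ 4 + 1) := by ring
        rw [e1]
        gcongr
        linarith

end tr4

end Pool.Agent.HSG
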