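import Pool.Agent.Lib_helper98.WAF.A1
import Pool.Agent.Lib_helper84.HSG.DefsB
import Pool.Agent.Lib_helper84.HSGF.GD1
import Pool.Agent.Lib_helper84.HSGF.GI1
import Pool.Agent.Lib_helper84.HSGF.GQ
import Pool.Agent.Lib_helper84.HSGF.GU2
import Pool.Agent.Lib_helper84.HSGF.GW1
import Pool.Agent.Lib_helper84.HSGF.GW2
import Pool.Agent.Lib_helper84.HSGF.GX

/-! # Hilbert-Selberg, PART II: block GV1 (KAP), the kernel function of the functional -/

namespace Pool.Agent.HSG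

open Complex MeasureTheory Filter Topology UpperHalfPlane NumberField IsDedekindDomain
open scoped nonZeroDivisors MatrixGroups ENNReal

variable {K : Type} [Field K] [NumberField K]

/-! ### the product kernel -/

/-- the kernel in `[0,∞]` -/
noncomputable def gv1_A (k : ℕ) (z w : Em K → ℍ) : ℝ≥0∞ :=
  ENNReal.ofReal (chW z w ^ (-(k : ℝ) / 2))

theorem gv1_A_def (k : ℕ) (z w : Em K → ℍ) :
    gv1_A k z w = ENNReal.ofReal (chW z w ^ (-(k : ℝ) / 2)) := rfl

theorem gv1_enorm (k : ℕ) (z w : Em K → ℍ) : ‖EW k z w‖ₑ = gv1_A k z w := by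
  rw [← ofReal_norm, ew_norm]
  rfl

theorem gv1_meas (k : ℕ) :
    Measurable (fun p : (Em K → ℍ) × (Em K → ℍ) => gv1_A k p.1 p.2) := by
  have h : (fun p : (Em K → ℍ) × (Em K → ℍ) => gv1_A k p.1 p.2) =
      fun p => ‖EW k p.1 p.2‖ₑ := funext fun p => (gv1_enorm k p.1 p.2).symm
  rw [h]
  exact (ew_cont k).measurable.enorm

attribute [irreducible] gv1_A

theorem gv1_zb_cont (β : K) : Continuous (zb β) := by
  refine continuous_pi fun w => ?_
  exact (WA.vz_cont (w β)).comp (continuous_apply w)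

theorem gv1_one_le (z w : Em K → ℍ) : 1 ≤ chW z w := by
  have h : ∏ _v : Em K, (1 : ℝ) ≤ ∏ v, WA.ch (z v) (w v) :=
    Finset.prod_le_prod (fun _ _ => zero_le_one) fun v _ => WA.one_le_ch _ _
  rwa [Finset.prod_const_one] at h

theorem gv1_comm (z w : Em K → ℍ) : chW z w = chW w z :=
  Finset.prod_congr rfl fun _ _ => WA.ch_comm _ _

theorem gv1_tri (z w v : Em K → ℍ) :
    chW z v ≤ 4 ^ Fintype.card (Em K) * (chW z w * chW w v) := by
  have h : ∏ i : Em K, WA.ch (z i) (v i) ≤ ∏ i : Em K, (4 * (WA.ch (z i) (w i) * WA.ch (w i) (v i))) := by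
    refine Finset.prod_le_prod (fun i _ => ?_) fun i _ => ?_
    · linarith [WA.one_le_ch (z i) (v i)]
    · have := WA.ch_tri (z i) (w i) (v i)
      linarith
  rw [Finset.prod_mul_distrib, Finset.prod_mul_distrib, Finset.prod_const, Finset.card_univ] at h
  exact h

/-- the pointwise estimate -/
theorem gv1_pt {k : ℕ} (hk : 16 * dg K ≤ k) {X Y Z D : ℝ} (hX : 1 ≤ X) (hY : 1 ≤ Y) (hZ : 1 ≤ Z)
    (hD : 1 ≤ D) (h : Z ≤ D * (X * Y)) (hXY : X ≤ Y) :
    Y ^ (-(k : ℝ) / 2) ≤ D ^ ((k : ℝ) / 4) * Z ^ (-(4 * (dg K : ℝ))) := by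
  have hk' : 16 * (dg K : ℝ) ≤ k := by exact_mod_cast hk
  have hX0 : 0 < X := by linarith
  have hY0 : 0 < Y := by linarith
  have hZ0 : 0 < Z := by linarith
  have hD0 : 0 < D := by linarith
  have h1 : Z / D ≤ Y ^ (2 : ℝ) := by
    rw [div_le_iff₀ hD0, Real.rpow_two]
    nlinarith
  have h2 : (Y ^ (2 : ℝ)) ^ (-(k : ℝ) / 4) = Y ^ (-(k : ℝ) / 2) := by
    rw [← Real.rpow_mul hY0.le]
    congr 1
    ring
  rw [← h2]
  calc (Y ^ (2 : ℝ)) ^ (-(k : ℝ) / 4) ≤ (Z / D) ^ (-(k : ℝ) / 4) :=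
        Real.rpow_le_rpow_of_nonpos (by positivity) h1 (by
          have : (0 : ℝ) ≤ k := Nat.cast_nonneg k
          linarith)
    _ = D ^ ((k : ℝ) / 4) * Z ^ (-(k : ℝ) / 4) := by
        rw [Real.div_rpow hZ0.le hD0.le, neg_div, Real.rpow_neg hD0.le, div_inv_eq_mul, mul_comm]
    _ ≤ D ^ ((k : ℝ) / 4) * Z ^ (-(4 * (dg K : ℝ))) := by
        refine mul_le_mul_of_nonneg_left ?_ (by positivity)
        exact Real.rpow_le_rpow_of_exponent_le hZ (by linarith)

theorem gv1_pt2 {k : ℕ} (hk : 16 * dg K ≤ k) (z z' w : Em K → ℍ) :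
    gv1_A k z w * gv1_A k z' w ≤ ENNReal.ofReal
      (((4 : ℝ) ^ Fintype.card (Em K)) ^ ((k : ℝ) / 4) * chW z z' ^ (-(4 * (dg K : ℝ)))) *
        (gv1_A k z w + gv1_A k z' w) := by
  have hX := gv1_one_le z w
  have hY := gv1_one_le z' w
  have hZ := gv1_one_le z z'
  have hD : (1 : ℝ) ≤ 4 ^ Fintype.card (Em K) := one_le_pow₀ (by norm_num)
  have ht := gv1_tri z w z'
  rw [gv1_comm w z'] at ht
  rcases le_total (chW z w) (chW z' w) with h | h
  · have h1 := gv1_pt hk hX hY hZ hD ht h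
    calc gv1_A k z w * gv1_A k z' w ≤ gv1_A k z w * ENNReal.ofReal
          (((4 : ℝ) ^ Fintype.card (Em K)) ^ ((k : ℝ) / 4) * chW z z' ^ (-(4 * (dg K : ℝ)))) := by
          rw [gv1_A_def k z' w]
          exact mul_le_mul' le_rfl (ENNReal.ofReal_le_ofReal h1)
      _ ≤ _ := by
          rw [mul_comm]
          exact mul_le_mul' le_rfl le_self_add
  · rw [mul_comm (chW z w)] at ht
    have h1 := gv1_pt hk hY hX hZ hD ht h
    calc gv1_A k z w * gv1_A k z' w ≤ ENNReal.ofReal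
          (((4 : ℝ) ^ Fintype.card (Em K)) ^ ((k : ℝ) / 4) * chW z z' ^ (-(4 * (dg K : ℝ)))) *
            gv1_A k z' w := by
          rw [gv1_A_def k z w]
          exact mul_le_mul' (ENNReal.ofReal_le_ofReal h1) le_rfl
      _ ≤ _ := mul_le_mul' le_rfl le_add_self

/-! ### measurability -/

theorem gv1_meas_right (k : ℕ) (z : Em K → ℍ) : Measurable (fun w : Em K → ℍ => gv1_A k z w) := by
  have h : Measurable (fun w : Em K → ℍ => ((z, w) : (Em K → ℍ) × (Em K → ℍ))) :=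
    measurable_prodMk_left
  exact (gv1_meas k).comp h

theorem gv1_meas_zb (k : ℕ) (β : K) :
    Measurable (fun p : (Em K → ℍ) × (Em K → ℝ) => gv1_A k (zb β p.2) p.1) := by
  have h : Measurable (fun p : (Em K → ℍ) × (Em K → ℝ) =>
      ((zb β p.2, p.1) : (Em K → ℍ) × (Em K → ℍ))) :=
    ((gv1_zb_cont β).measurable.comp measurable_snd).prodMk measurable_fst
  exact (gv1_meas k).comp h

theorem gv1_meas_zb' (k : ℕ) (β : K) (w : Em K → ℍ) :
    Measurable (fun u : Em K → ℝ => gv1_A k (zb β u) w) := by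
  have h : Measurable (fun u : Em K → ℝ => ((zb β u, w) : (Em K → ℍ) × (Em K → ℍ))) :=
    (gv1_zb_cont β).measurable.prodMk measurable_const
  exact (gv1_meas k).comp h

theorem gv1_act_meas (g : SL(2, K)) : Measurable (fun z : Em K → ℍ => g • z) := by
  have h1 : Measurable (fun x : XX K => g • x) := (mu0_act g).measurable
  have h2 : Measurable (fun z : Em K → ℍ => ((z, Lat.ds 1 1) : XX K)) := measurable_prodMk_right
  have h3 : Measurable (fun z : Em K → ℍ => g • ((z, Lat.ds 1 1) : XX K)) := h1.comp h2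
  have h4 : (fun z : Em K → ℍ => g • z) = fun z => (g • ((z, Lat.ds 1 1) : XX K)).1 := by
    funext z
    rw [Prod.smul_fst]
  rw [h4]
  exact h3.fst

theorem gv1_sm (F : (Em K → ℍ) × (Em K → ℍ) → ℂ) (hF : Continuous F) (ψ : (Em K → ℝ) → ℂ)
    (hψ : Measurable ψ) (v : (Em K → ℝ) → (Em K → ℍ)) (hv : Continuous v) :
    StronglyMeasurable (fun w : Em K → ℍ => ∫ u : Em K → ℝ, starRingEnd ℂ (ψ u) * F (v u, w)) := by
  have h1 : Measurable (fun p : (Em K → ℍ) × (Em K → ℝ) => starRingEnd ℂ (ψ p.2)) :=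
    (Complex.continuous_conj.measurable.comp hψ).comp measurable_snd
  have h3 : Continuous (fun p : (Em K → ℍ) × (Em K → ℝ) =>
      ((v p.2, p.1) : (Em K → ℍ) × (Em K → ℍ))) :=
    (hv.comp continuous_snd).prodMk continuous_fst
  have h2 : Continuous (fun p : (Em K → ℍ) × (Em K → ℝ) => F (v p.2, p.1)) := hF.comp h3
  have h4 : StronglyMeasurable (fun p : (Em K → ℍ) × (Em K → ℝ) =>
      starRingEnd ℂ (ψ p.2) * F (v p.2, p.1)) := (h1.mul h2.measurable).stronglyMeasurable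
  exact h4.integral_prod_right'

/-- the sum over the group of the translates of the kernel -/
noncomputable def gv1_S (k : ℕ) (β : K) (L L' : Lat K) (z : Em K → ℍ) (u : Em K → ℝ) : ℝ≥0∞ :=
  open Classical in
  ∑' g : SL(2, K), if g • L = L' then gv1_A k (zb β u) (g • z) else 0

theorem gv1_S_def (k : ℕ) (β : K) (L L' : Lat K) (z : Em K → ℍ) (u : Em K → ℝ) :
    gv1_S k β L L' z u = open Classical in
      ∑' g : SL(2, K), if g • L = L' then gv1_A k (zb β u) (g • z) else 0 := rfl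

theorem gv1_S_term (k : ℕ) (β : K) (c : Prop) [Decidable c] (g : SL(2, K)) :
    Measurable (fun p : (Em K → ℍ) × (Em K → ℝ) =>
      if c then gv1_A k (zb β p.2) (g • p.1) else 0) := by
  by_cases h : c
  · simp only [if_pos h]
    have h1 : Measurable (fun p : (Em K → ℍ) × (Em K → ℝ) =>
        ((g • p.1, p.2) : (Em K → ℍ) × (Em K → ℝ))) :=
      ((gv1_act_meas g).comp measurable_fst).prodMk measurable_snd
    exact (gv1_meas_zb k β).comp h1
  · simp only [if_neg h]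
    exact measurable_const

theorem gv1_S_meas (k : ℕ) (β : K) (L L' : Lat K) :
    Measurable (fun p : (Em K → ℍ) × (Em K → ℝ) => gv1_S k β L L' p.1 p.2) := by
  classical
  simp only [gv1_S_def]
  exact Measurable.tsum fun g => gv1_S_term k β _ g

attribute [irreducible] gv1_S

theorem gv1_lint_one (L₀ : Lat K) {h : (Em K → ℍ) → ℝ≥0∞} (hh : Measurable h)
    [DecidableEq (Lat K)] :
    ∫⁻ x : XX K, (if x.2 = L₀ then h x.1 else 0) ∂(mu0 K) = ∫⁻ z, h z := by
  rw [mu0_lint]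
  · rw [tsum_eq_single L₀]
    · simp
    · intro L hL
      simp [hL]
  · exact Measurable.ite (measurable_snd (MeasurableSet.of_discrete (s := {L' : Lat K | L' = L₀})))
      (hh.comp measurable_fst) measurable_const

theorem gv1_Psi {J : Type} {Ψ : J → (Em K → ℝ) → ℂ} {M V : ℝ} (hΨ : PsB Ψ M V) (j : J) :
    ∫⁻ u : Em K → ℝ, ‖Ψ j u‖ₑ < ∞ := by
  set B : Set (Em K → ℝ) := Metric.closedBall 0 (max V 0) with hB
  have hBm : MeasurableSet B := Metric.isClosed_closedBall.measurableSet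
  have h1 : ∫⁻ u : Em K → ℝ, ‖Ψ j u‖ₑ ≤ ∫⁻ _u : Em K → ℝ in B, ENNReal.ofReal M := by
    rw [← lintegral_indicator hBm]
    refine lintegral_mono fun u => ?_
    by_cases hu : u ∈ B
    · rw [Set.indicator_of_mem hu, ← ofReal_norm]
      exact ENNReal.ofReal_le_ofReal (hΨ.bdd j u)
    · rw [Set.indicator_of_notMem hu]
      have h2 : Ψ j u = 0 := by
        by_contra h3
        refine hu ?_
        rw [hB, mem_closedBall_zero_iff, pi_norm_le_iff_of_nonneg (le_max_right _ _)]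
        intro w
        rw [Real.norm_eq_abs]
        exact (hΨ.supp j u h3 w).trans (le_max_left _ _)
      rw [h2]
      simp
  refine h1.trans_lt ?_
  rw [lintegral_const, Measure.restrict_apply MeasurableSet.univ, Set.univ_inter]
  exact ENNReal.mul_lt_top ENNReal.ofReal_lt_top measure_closedBall_lt_top

open scoped Classical in
theorem gv1_kap_le {J : Type} [Fintype J] (k : ℕ) (β : J → K) (L : J → Lat K)
    (Ψ : J → (Em K → ℝ) → ℂ) (x : XX K) :
    ‖kapX k β L Ψ x‖ₑ ≤ ∑ j, if x.2 = L j then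
      ∫⁻ u : Em K → ℝ, ‖Ψ j u‖ₑ * gv1_A k (zb (β j) u) x.1 else 0 := by
  unfold kapX
  refine (enorm_sum_le _ _).trans (Finset.sum_le_sum fun j _ => ?_)
  by_cases h : x.2 = L j
  · rw [if_pos h, if_pos h]
    refine (enorm_integral_le_lintegral_enorm _).trans (lintegral_mono fun u => ?_)
    show ‖starRingEnd ℂ (Ψ j u) * EW k (zb (β j) u) x.1‖ₑ ≤ _
    rw [enorm_mul, gv1_enorm]
    refine mul_le_mul' ?_ le_rfl
    rw [← ofReal_norm, ← ofReal_norm, RCLike.norm_conj]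
  · rw [if_neg h, if_neg h]
    simp

theorem gv1_P_meas {J : Type} {Ψ : J → (Em K → ℝ) → ℂ} {M V : ℝ} (hΨ : PsB Ψ M V) (k : ℕ)
    (β : K) (j : J) :
    Measurable (fun p : (Em K → ℍ) × (Em K → ℝ) => ‖Ψ j p.2‖ₑ * gv1_A k (zb β p.2) p.1) :=
  ((hΨ.meas j).enorm.comp measurable_snd).mul (gv1_meas_zb k β)

theorem gv1_lint : ∃ C : ℝ, ∀ k : ℕ, 16 ≤ k → ∀ z : Em K → ℍ,
    ∫⁻ w : Em K → ℍ, gv1_A k z w ≤ ENNReal.ofReal C := by
  obtain ⟨C, hC⟩ := ew_lint (ι := Em K)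
  refine ⟨C, fun k hk z => ?_⟩
  have h := hC k hk z
  simp only [gv1_enorm] at h
  exact h

theorem gv1_row (g : SL(2, K)) : ((g : GL (Fin 2) K)) 1 ≠ 0 := by
  intro h
  have h1 := Matrix.det_fin_two (g : Matrix (Fin 2) (Fin 2) K)
  have h2 : (g : Matrix (Fin 2) (Fin 2) K) 1 0 = 0 := congrFun h 0
  have h3 : (g : Matrix (Fin 2) (Fin 2) K) 1 1 = 0 := congrFun h 1
  rw [h2, h3, Matrix.SpecialLinearGroup.det_coe] at h1
  simp at h1

theorem gv1_unit (k : ℕ) (g : SL(2, K)) (z : Em K → ℍ) :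
    ‖(∏ v, (lz (((g : GL (Fin 2) K)) 1) z v /
      (‖lz (((g : GL (Fin 2) K)) 1) z v‖ : ℂ)) ^ k : ℂ)‖ = 1 := by
  rw [norm_prod]
  refine Finset.prod_eq_one fun v _ => ?_
  have h := lz_ne (gv1_row g) z v
  rw [norm_pow, norm_div, Complex.norm_real, norm_norm, div_self (norm_ne_zero_iff.2 h), one_pow]

section tr4
variable [IsTotallyReal K]

theorem gv1_smul (k : ℕ) (h : SL(2, K)) (z w : Em K → ℍ) :
    gv1_A k z (h • w) = gv1_A k (h⁻¹ • z) w := by
  have h1 := ew_act k h⁻¹ z (h • w)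
  rw [inv_smul_smul] at h1
  rw [← gv1_enorm, ← gv1_enorm, ← ofReal_norm, ← ofReal_norm, h1, norm_mul, norm_mul,
    RCLike.norm_conj, gv1_unit, gv1_unit, one_mul, one_mul]

theorem gv1_cross {k : ℕ} (hk : 16 * dg K ≤ k) : ∃ C : ℝ, 0 ≤ C ∧ ∀ z z' : Em K → ℍ,
    ∫⁻ w : Em K → ℍ, gv1_A k z w * gv1_A k z' w ≤
      ENNReal.ofReal C * ENNReal.ofReal (chW z z' ^ (-(4 * (dg K : ℝ)))) := by
  obtain ⟨C, hC⟩ := gv1_lint (K := K)
  have hd := dg_pos (K := K)
  have hk16 : 16 ≤ k := by omega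
  set D : ℝ := ((4 : ℝ) ^ Fintype.card (Em K)) ^ ((k : ℝ) / 4) with hD
  have hD0 : 0 ≤ D := by positivity
  refine ⟨D * (|C| + |C|), by positivity, fun z z' => ?_⟩
  have hZ : 0 ≤ chW z z' ^ (-(4 * (dg K : ℝ))) :=
    Real.rpow_nonneg (zero_le_one.trans (gv1_one_le z z')) _
  calc ∫⁻ w : Em K → ℍ, gv1_A k z w * gv1_A k z' w ≤ ∫⁻ w : Em K → ℍ,
          ENNReal.ofReal (D * chW z z' ^ (-(4 * (dg K : ℝ)))) * (gv1_A k z w + gv1_A k z' w) :=
        lintegral_mono fun w => gv1_pt2 hk z z' w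
    _ = ENNReal.ofReal (D * chW z z' ^ (-(4 * (dg K : ℝ)))) *
          ((∫⁻ w : Em K → ℍ, gv1_A k z w) + (∫⁻ w : Em K → ℍ, gv1_A k z' w)) := by
        rw [lintegral_const_mul' _ _ ENNReal.ofReal_ne_top, lintegral_add_left (gv1_meas_right k z)]
    _ ≤ ENNReal.ofReal (D * chW z z' ^ (-(4 * (dg K : ℝ)))) *
          (ENNReal.ofReal |C| + ENNReal.ofReal |C|) := by
        refine mul_le_mul' le_rfl (add_le_add ?_ ?_)
        · exact (hC k hk16 z).trans (ENNReal.ofReal_le_ofReal (le_abs_self C))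
        · exact (hC k hk16 z').trans (ENNReal.ofReal_le_ofReal (le_abs_self C))
    _ = ENNReal.ofReal (D * (|C| + |C|)) * ENNReal.ofReal (chW z z' ^ (-(4 * (dg K : ℝ)))) := by
        rw [← ENNReal.ofReal_add (abs_nonneg C) (abs_nonneg C), ← ENNReal.ofReal_mul (by positivity),
          ← ENNReal.ofReal_mul (by positivity)]
        congr 1
        ring

/-- `m = n(-β) g n(β')` has bounded denominators if `g L' = L` -/
theorem gv1_den (β β' : K) (L L' : Lat K) : ∃ Q : ℕ, 1 ≤ Q ∧ ∀ g : SL(2, K), g • L' = L →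
    mm β g β' ∈ MQ K Q := by
  obtain ⟨Q, hQ, h⟩ := act_den (nm (-β) • L) (nm (-β') • L')
  refine ⟨Q, hQ, fun g hg => h (nm (-β) * g * nm β') ?_⟩
  have h1 : nm β' * nm (-β') = (1 : SL(2, K)) := by
    refine Subtype.ext ?_
    show (!![1, β'; 0, 1] * !![1, -β'; 0, 1] : Matrix (Fin 2) (Fin 2) K) = 1
    rw [Matrix.mul_fin_two, Matrix.one_fin_two]
    simp
  rw [mul_smul, mul_smul, ← mul_smul (nm β'), h1, one_smul, hg]

theorem gv1_mm_inj (β β' : K) : Function.Injective (fun g : SL(2, K) => mm β g β') := by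
  intro g g' h
  have h1 : (nm (-β) * g * nm β' : SL(2, K)) = nm (-β) * g' * nm β' := Subtype.ext h
  exact mul_left_cancel (mul_right_cancel h1)

open scoped Classical in
theorem gv1_sum {k : ℕ} (hk : 16 * dg K ≤ k) (β β' : K) (L L' : Lat K) (V : ℝ) :
    ∃ B : ℝ≥0∞, B < ∞ ∧ ∀ u u' : Em K → ℝ, (∀ w, |u w| ≤ V) → (∀ w, |u' w| ≤ V) →
      ∫⁻ z, gv1_A k (zb β u) z * gv1_S k β' L L' z u' ≤ B := by
  obtain ⟨C, hC0, hC⟩ := gv1_cross (K := K) hk
  obtain ⟨Q, hQ, hmm⟩ := gv1_den β β' L L'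
  obtain ⟨C₁, E, hC₁, hE, hsum⟩ := ksum (K := K)
  refine ⟨ENNReal.ofReal C * ENNReal.ofReal (C₁ * (Q : ℝ) ^ E * Real.exp (E * max V 0)),
    ENNReal.mul_lt_top ENNReal.ofReal_lt_top ENNReal.ofReal_lt_top, fun u u' hu hu' => ?_⟩
  have h1 : ∫⁻ z, gv1_A k (zb β u) z * gv1_S k β' L L' z u' = ∑' g : SL(2, K),
      if g • L = L' then ∫⁻ z, gv1_A k (zb β u) z * gv1_A k (g⁻¹ • zb β' u') z else 0 := by
    simp only [gv1_S_def, ← ENNReal.tsum_mul_left]
    rw [lintegral_tsum]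
    · refine tsum_congr fun g => ?_
      by_cases h : g • L = L'
      · simp only [if_pos h, gv1_smul]
      · simp only [if_neg h, mul_zero, lintegral_zero]
    · intro g
      refine ((gv1_meas_right k _).mul ?_).aemeasurable
      exact (gv1_S_term k β' _ g).comp measurable_prodMk_right
  rw [h1]
  have h2 : ∀ g : SL(2, K), (if g • L = L' then
      ∫⁻ z, gv1_A k (zb β u) z * gv1_A k (g⁻¹ • zb β' u') z else 0) ≤
      ENNReal.ofReal C * (if g • L = L' then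
        ENNReal.ofReal (chW (g⁻¹ • zb β' u') (zb β u) ^ (-(4 * (dg K : ℝ)))) else 0) := by
    intro g
    by_cases h : g • L = L'
    · rw [if_pos h, if_pos h, gv1_comm]
      exact hC _ _
    · rw [if_neg h, if_neg h, mul_zero]
  refine (ENNReal.tsum_le_tsum h2).trans ?_
  rw [ENNReal.tsum_mul_left]
  refine mul_le_mul' le_rfl ?_
  have h3 := (Equiv.inv SL(2, K)).tsum_eq (fun g : SL(2, K) => if g⁻¹ • L = L' then
        ENNReal.ofReal (chW (g • zb β' u') (zb β u) ^ (-(4 * (dg K : ℝ)))) else 0)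
  simp only [Equiv.inv_apply, inv_inv] at h3
  rw [h3]
  have h4 : ∀ g : SL(2, K), (if g⁻¹ • L = L' then
      ENNReal.ofReal (chW (g • zb β' u') (zb β u) ^ (-(4 * (dg K : ℝ)))) else 0) =
      Set.indicator {g : SL(2, K) | g • L' = L} (fun g => ENNReal.ofReal
        ((∏ w, chm (mm β g β') u u' w) ^ (-(4 * (dg K : ℝ))))) g := by
    intro g
    have h5 : g⁻¹ • L = L' ↔ g • L' = L := by
      rw [inv_smul_eq_iff, eq_comm]
    by_cases h : g • L' = L
    · rw [if_pos (h5.2 h), Set.indicator_of_mem (by exact h), chW_mm]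
    · rw [if_neg (fun h6 => h (h5.1 h6)), Set.indicator_of_notMem (by exact h)]
  simp only [h4]
  rw [← tsum_subtype]
  refine le_trans ?_ (hsum Q (max V 0) u u' hQ (le_max_right _ _)
    (fun w => (hu w).trans (le_max_left _ _)) fun w => (hu' w).trans (le_max_left _ _))
  set F : {g : SL(2, K) | g • L' = L} → MQ K Q := fun g => ⟨mm β g.1 β', hmm g.1 g.2⟩ with hF
  have hFi : Function.Injective F := by
    intro a b hab
    have h6 : mm β a.1 β' = mm β b.1 β' := congrArg (fun x : MQ K Q => x.1) hab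
    exact Subtype.ext (gv1_mm_inj β β' h6)
  exact ENNReal.tsum_comp_le_tsum_of_injective hFi (fun m : MQ K Q =>
    ENNReal.ofReal ((∏ w, chm m.1 u u' w) ^ (-(4 * (dg K : ℝ)))))

theorem kap_meas {J : Type} [Fintype J] (k : ℕ) (β : J → K) (L : J → Lat K)
    {Ψ : J → (Em K → ℝ) → ℂ} {M V : ℝ} (hΨ : PsB Ψ M V) : Measurable (kapX k β L Ψ) := by
  classical
  unfold kapX
  refine Finset.measurable_fun_sum _ fun j _ => ?_
  refine Measurable.ite ?_ ?_ measurable_const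
  · exact measurable_snd (MeasurableSet.of_discrete (s := {L' : Lat K | L' = L j}))
  · have h := (gv1_sm (fun p => EW k p.1 p.2) (ew_cont k) (Ψ j) (hΨ.meas j) (zb (β j))
      (gv1_zb_cont (β j))).measurable
    exact h.comp measurable_fst

theorem kap_int {J : Type} [Fintype J] {k : ℕ} (hk : 16 ≤ k) (β : J → K) (L : J → Lat K)
    {Ψ : J → (Em K → ℝ) → ℂ} {M V : ℝ} (hΨ : PsB Ψ M V) :
    ∫⁻ x, ‖kapX k β L Ψ x‖ₑ ∂(mu0 K) < ∞ := by
  classical
  obtain ⟨C, hC⟩ := gv1_lint (K := K)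
  have hPm : ∀ j, Measurable (fun z : Em K → ℍ =>
      ∫⁻ u : Em K → ℝ, ‖Ψ j u‖ₑ * gv1_A k (zb (β j) u) z) := fun j =>
    (gv1_P_meas hΨ k (β j) j).lintegral_prod_right'
  refine (lintegral_mono (gv1_kap_le k β L Ψ)).trans_lt ?_
  rw [lintegral_finsetSum]
  · refine ENNReal.sum_lt_top.2 fun j _ => ?_
    rw [gv1_lint_one (L j) (hPm j), lintegral_lintegral_swap (gv1_P_meas hΨ k (β j) j).aemeasurable]
    have h1 : ∫⁻ u : Em K → ℝ, ∫⁻ z : Em K → ℍ, ‖Ψ j u‖ₑ * gv1_A k (zb (β j) u) z ≤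
        ∫⁻ u : Em K → ℝ, ‖Ψ j u‖ₑ * ENNReal.ofReal C := by
      refine lintegral_mono fun u => ?_
      rw [lintegral_const_mul _ (gv1_meas_right k _)]
      exact mul_le_mul' le_rfl (hC k hk _)
    refine h1.trans_lt ?_
    rw [lintegral_mul_const _ (hΨ.meas j).enorm]
    exact ENNReal.mul_lt_top (gv1_Psi hΨ j) ENNReal.ofReal_lt_top
  · intro j _
    exact Measurable.ite (measurable_snd (MeasurableSet.of_discrete (s := {L' : Lat K | L' = L j})))
      ((hPm j).comp measurable_fst) measurable_const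

/-- the square of the functional for two indices -/
theorem gv1_two {J : Type} {k : ℕ} (hk : 16 * dg K ≤ k) (β β' : K) (L L' : Lat K)
    {Ψ : J → (Em K → ℝ) → ℂ} {M V : ℝ} (hΨ : PsB Ψ M V) (j j' : J) :
    ∫⁻ z : Em K → ℍ, (∫⁻ u : Em K → ℝ, ‖Ψ j u‖ₑ * gv1_A k (zb β u) z) *
      (∫⁻ u : Em K → ℝ, ‖Ψ j' u‖ₑ * gv1_S k β' L L' z u) < ∞ := by
  obtain ⟨B, hB, hb⟩ := gv1_sum (K := K) hk β β' L L' V
  have hA : Measurable (fun p : (Em K → ℍ) × (Em K → ℝ) => ‖Ψ j p.2‖ₑ * gv1_A k (zb β p.2) p.1) :=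
    gv1_P_meas hΨ k β j
  have hS : Measurable (fun p : (Em K → ℍ) × (Em K → ℝ) =>
      ‖Ψ j' p.2‖ₑ * gv1_S k β' L L' p.1 p.2) :=
    ((hΨ.meas j').enorm.comp measurable_snd).mul (gv1_S_meas k β' L L')
  have h1 : ∀ z : Em K → ℍ, (∫⁻ u : Em K → ℝ, ‖Ψ j u‖ₑ * gv1_A k (zb β u) z) *
      (∫⁻ u : Em K → ℝ, ‖Ψ j' u‖ₑ * gv1_S k β' L L' z u) =
      ∫⁻ p : (Em K → ℝ) × (Em K → ℝ), (‖Ψ j p.1‖ₑ * gv1_A k (zb β p.1) z) *
        (‖Ψ j' p.2‖ₑ * gv1_S k β' L L' z p.2) := by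
    intro z
    rw [Measure.volume_eq_prod]
    symm
    refine lintegral_prod_mul (f := fun u => ‖Ψ j u‖ₑ * gv1_A k (zb β u) z)
      (g := fun u => ‖Ψ j' u‖ₑ * gv1_S k β' L L' z u) ?_ ?_
    · exact (hA.comp measurable_prodMk_left).aemeasurable
    · exact (hS.comp measurable_prodMk_left).aemeasurable
  simp only [h1]
  have hG : Measurable (fun q : (Em K → ℍ) × ((Em K → ℝ) × (Em K → ℝ)) =>
      (‖Ψ j q.2.1‖ₑ * gv1_A k (zb β q.2.1) q.1) *
        (‖Ψ j' q.2.2‖ₑ * gv1_S k β' L L' q.1 q.2.2)) := by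
    have m1 : Measurable (fun q : (Em K → ℍ) × ((Em K → ℝ) × (Em K → ℝ)) =>
        ((q.1, q.2.1) : (Em K → ℍ) × (Em K → ℝ))) :=
      measurable_fst.prodMk (measurable_fst.comp measurable_snd)
    have m2 : Measurable (fun q : (Em K → ℍ) × ((Em K → ℝ) × (Em K → ℝ)) =>
        ((q.1, q.2.2) : (Em K → ℍ) × (Em K → ℝ))) :=
      measurable_fst.prodMk (measurable_snd.comp measurable_snd)
    exact (hA.comp m1).mul (hS.comp m2)
  rw [lintegral_lintegral_swap hG.aemeasurable]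
  have h2 : ∀ p : (Em K → ℝ) × (Em K → ℝ), ∫⁻ z : Em K → ℍ,
      (‖Ψ j p.1‖ₑ * gv1_A k (zb β p.1) z) * (‖Ψ j' p.2‖ₑ * gv1_S k β' L L' z p.2) ≤
      ‖Ψ j p.1‖ₑ * ‖Ψ j' p.2‖ₑ * B := by
    intro p
    have h3 : ∀ z : Em K → ℍ, (‖Ψ j p.1‖ₑ * gv1_A k (zb β p.1) z) *
        (‖Ψ j' p.2‖ₑ * gv1_S k β' L L' z p.2) =
        ‖Ψ j p.1‖ₑ * ‖Ψ j' p.2‖ₑ * (gv1_A k (zb β p.1) z * gv1_S k β' L L' z p.2) := by
      intro z
      ring
    simp only [h3]
    have hm : Measurable (fun z : Em K → ℍ => gv1_A k (zb β p.1) z * gv1_S k β' L L' z p.2) :=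
      (gv1_meas_right k _).mul ((gv1_S_meas k β' L L').comp measurable_prodMk_right)
    rw [lintegral_const_mul _ hm]
    by_cases hu : Ψ j p.1 = 0
    · rw [hu]
      simp
    by_cases hu' : Ψ j' p.2 = 0
    · rw [hu']
      simp
    exact mul_le_mul' le_rfl (hb p.1 p.2 (hΨ.supp j p.1 hu) (hΨ.supp j' p.2 hu'))
  refine (lintegral_mono h2).trans_lt ?_
  rw [lintegral_mul_const' _ _ hB.ne, Measure.volume_eq_prod,
    lintegral_prod_mul (hΨ.meas j).enorm.aemeasurable (hΨ.meas j').enorm.aemeasurable]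
  exact ENNReal.mul_lt_top (ENNReal.mul_lt_top (gv1_Psi hΨ j) (gv1_Psi hΨ j')) hB

theorem kap_two {J : Type} [Fintype J] {k : ℕ} (hk : 16 * dg K ≤ k) (β : J → K)
    (L : J → Lat K) {Ψ : J → (Em K → ℝ) → ℂ} {M V : ℝ} (hΨ : PsB Ψ M V) :
    ∫⁻ x, ‖kapX k β L Ψ x‖ₑ * ∑' g : SL(2, K), ‖kapX k β L Ψ (g • x)‖ₑ ∂(mu0 K) < ∞ := by
  classical
  set P : J → (Em K → ℍ) → ℝ≥0∞ := fun j z =>
    ∫⁻ u : Em K → ℝ, ‖Ψ j u‖ₑ * gv1_A k (zb (β j) u) z with hP
  set H : J → J → (Em K → ℍ) → ℝ≥0∞ := fun j j' z => P j z *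
    (∫⁻ u : Em K → ℝ, ‖Ψ j' u‖ₑ * gv1_S k (β j') (L j) (L j') z u) with hH
  have hPm : ∀ j, Measurable (P j) := fun j => (gv1_P_meas hΨ k (β j) j).lintegral_prod_right'
  have hHm : ∀ j j', Measurable (H j j') := by
    intro j j'
    have hS : Measurable (fun p : (Em K → ℍ) × (Em K → ℝ) =>
        ‖Ψ j' p.2‖ₑ * gv1_S k (β j') (L j) (L j') p.1 p.2) :=
      ((hΨ.meas j').enorm.comp measurable_snd).mul (gv1_S_meas k (β j') (L j) (L j'))
    exact (hPm j).mul hS.lintegral_prod_right'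
  have h1 : ∀ x : XX K, ‖kapX k β L Ψ x‖ₑ * ∑' g : SL(2, K), ‖kapX k β L Ψ (g • x)‖ₑ ≤
      ∑ j, ∑ j', if x.2 = L j then H j j' x.1 else 0 := by
    intro x
    have h2 : ∑' g : SL(2, K), ‖kapX k β L Ψ (g • x)‖ₑ ≤
        ∑ j', ∑' g : SL(2, K), if g • x.2 = L j' then P j' (g • x.1) else 0 := by
      rw [← Summable.tsum_finsetSum (fun _ _ => ENNReal.summable)]
      refine ENNReal.tsum_le_tsum fun g => ?_
      have h3 := gv1_kap_le k β L Ψ (g • x)
      rw [Prod.smul_fst, Prod.smul_snd] at h3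
      exact h3
    refine (mul_le_mul' (gv1_kap_le k β L Ψ x) h2).trans ?_
    rw [Finset.sum_mul_sum]
    refine Finset.sum_le_sum fun j _ => Finset.sum_le_sum fun j' _ => ?_
    by_cases h : x.2 = L j
    · rw [if_pos h, if_pos h, h]
      refine mul_le_mul' le_rfl (le_of_eq ?_)
      have h4 : ∀ u : Em K → ℝ, ‖Ψ j' u‖ₑ * gv1_S k (β j') (L j) (L j') x.1 u =
          ∑' g : SL(2, K), (if g • L j = L j' then
            ‖Ψ j' u‖ₑ * gv1_A k (zb (β j') u) (g • x.1) else 0) := by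
        intro u
        rw [gv1_S_def, ← ENNReal.tsum_mul_left]
        refine tsum_congr fun g => ?_
        by_cases h5 : g • L j = L j'
        · rw [if_pos h5, if_pos h5]
        · rw [if_neg h5, if_neg h5, mul_zero]
      simp only [h4]
      rw [lintegral_tsum]
      · refine tsum_congr fun g => ?_
        by_cases h5 : g • L j = L j'
        · simp only [if_pos h5]
          rfl
        · simp only [if_neg h5, lintegral_zero]
      · intro g
        by_cases h5 : g • L j = L j'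
        · simp only [if_pos h5]
          exact ((gv1_P_meas hΨ k (β j') j').comp measurable_prodMk_left).aemeasurable
        · simp only [if_neg h5]
          exact aemeasurable_const
    · rw [if_neg h, if_neg h, zero_mul]
  refine (lintegral_mono h1).trans_lt ?_
  have hite : ∀ j j', Measurable (fun x : XX K => if x.2 = L j then H j j' x.1 else 0) := by
    intro j j'
    exact Measurable.ite (measurable_snd (MeasurableSet.of_discrete (s := {L' : Lat K | L' = L j})))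
      ((hHm j j').comp measurable_fst) measurable_const
  rw [lintegral_finsetSum _ fun j _ => Finset.measurable_fun_sum _ fun j' _ => hite j j']
  refine ENNReal.sum_lt_top.2 fun j _ => ?_
  rw [lintegral_finsetSum _ fun j' _ => hite j j']
  refine ENNReal.sum_lt_top.2 fun j' _ => ?_
  rw [gv1_lint_one (L j) (hHm j j')]
  exact gv1_two hk (β j) (β j') (L j) (L j') hΨ j j'

end tr4

end Pool.Agent.HSG
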