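import Pool.Agent.Lib_helper98.WAF.A1
import Pool.Agent.Lib_helper84.HSG.DefsB
import Pool.Agent.Lib_helper84.HSGF.GA3
import Pool.Agent.Lib_helper84.HSGF.GB1
import Pool.Agent.Lib_helper84.HSGF.GD1
import Pool.Agent.Lib_helper84.HSGF.GG
import Pool.Agent.Lib_helper84.HSGF.GI1
import Pool.Agent.Lib_helper84.HSGF.GJ1
import Pool.Agent.Lib_helper84.HSGF.GJ2
import Pool.Agent.Lib_helper84.HSGF.GP1
import Pool.Agent.Lib_helper84.HSGF.GP2
import Pool.Agent.Lib_helper84.HSGF.GQ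
import Pool.Agent.Lib_helper84.HSGF.GU1
import Pool.Agent.Lib_helper84.HSGF.GU2
import Pool.Agent.Lib_helper84.HSGF.GV1

/-! # HSG block GV2 (PTR): the pre-trace inequality -/

namespace Pool.Agent.HSG

open Complex MeasureTheory Filter Topology UpperHalfPlane NumberField IsDedekindDomain
open scoped nonZeroDivisors MatrixGroups ENNReal

variable {K : Type} [Field K] [NumberField K]

section

/-! ### the automorphy factor -/

/-- the automorphy factor -/
noncomputable def gv2_J (k : ℕ) (g : SL(2, K)) (z : Em K → ℍ) : ℂ :=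
  ∏ w, (lz (((g : GL (Fin 2) K)) 1) z w / (‖lz (((g : GL (Fin 2) K)) 1) z w‖ : ℂ)) ^ k

omit [NumberField K] in
theorem gv2_row (g : SL(2, K)) : ((g : GL (Fin 2) K)) 1 ≠ 0 := by
  intro h
  have h1 : (g : Matrix (Fin 2) (Fin 2) K).det = 1 := g.2
  rw [Matrix.det_fin_two] at h1
  have h2 : (g : Matrix (Fin 2) (Fin 2) K) 1 = 0 := h
  rw [h2] at h1
  simp at h1

theorem gv2_J_norm (k : ℕ) (g : SL(2, K)) (z : Em K → ℍ) : ‖gv2_J k g z‖ = 1 := by
  rw [gv2_J, norm_prod]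
  apply Finset.prod_eq_one
  intro w _
  rw [norm_pow, norm_div]
  have h1 := lz_ne (gv2_row g) z w
  have h2 : ‖lz (((g : GL (Fin 2) K)) 1) z w‖ ≠ 0 := norm_ne_zero_iff.mpr h1
  rw [Complex.norm_real, Real.norm_eq_abs, abs_of_nonneg (norm_nonneg _), div_self h2, one_pow]

theorem gv2_lz_mul (g h : SL(2, K)) (z : Em K → ℍ) (w : Em K) :
    lz (((g * h : SL(2, K)) : GL (Fin 2) K) 1) z w =
      lz ((g : GL (Fin 2) K) 1) (h • z) w * lz ((h : GL (Fin 2) K) 1) z w := by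
  have hd : ∀ w : Em K, 0 < w (((h : GL (Fin 2) K)) : Matrix (Fin 2) (Fin 2) K).det := by
    intro w
    have : (((h : GL (Fin 2) K)) : Matrix (Fin 2) (Fin 2) K).det = 1 := h.2
    rw [this, map_one]
    exact one_pos
  have h1 := lz_act (h : GL (Fin 2) K) hd (((g * h : SL(2, K)) : GL (Fin 2) K) 1) z w
  rw [← h1]
  congr 2
  have h2 : ((((g * h : SL(2, K)) : GL (Fin 2) K)) : Matrix (Fin 2) (Fin 2) K) =
      (g : Matrix (Fin 2) (Fin 2) K) * (h : Matrix (Fin 2) (Fin 2) K) := by simp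
  have h3 : (((h : GL (Fin 2) K) : Matrix (Fin 2) (Fin 2) K)) *
      ((((h : GL (Fin 2) K))⁻¹ : GL (Fin 2) K) : Matrix (Fin 2) (Fin 2) K) = 1 := by
    rw [← Units.val_mul, mul_inv_cancel]
    rfl
  have h4 : ((((g * h : SL(2, K)) : GL (Fin 2) K)) : Matrix (Fin 2) (Fin 2) K) *
      ((((h : GL (Fin 2) K))⁻¹ : GL (Fin 2) K) : Matrix (Fin 2) (Fin 2) K) =
      (g : Matrix (Fin 2) (Fin 2) K) := by
    rw [h2, Matrix.mul_assoc]
    erw [h3]
    rw [Matrix.mul_one]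
  exact congrFun h4 1

theorem gv2_J_mul (k : ℕ) (g h : SL(2, K)) (z : Em K → ℍ) :
    gv2_J k (g * h) z = gv2_J k g (h • z) * gv2_J k h z := by
  rw [gv2_J, gv2_J, gv2_J, ← Finset.prod_mul_distrib]
  apply Finset.prod_congr rfl
  intro w _
  rw [← mul_pow, gv2_lz_mul, norm_mul]
  congr 1
  push_cast
  rw [mul_div_mul_comm]

omit [NumberField K] in
theorem gv2_lz_cont (v : Fin 2 → K) (w : Em K) : Continuous (fun z : Em K → ℍ => lz v z w) := by
  unfold lz
  fun_prop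

theorem gv2_J_cont (k : ℕ) (g : SL(2, K)) : Continuous (gv2_J (K := K) k g) := by
  unfold gv2_J
  apply continuous_finsetProd
  intro w _
  apply Continuous.pow
  apply Continuous.div (gv2_lz_cont _ w)
  · exact Complex.continuous_ofReal.comp (gv2_lz_cont _ w).norm
  · intro z
    have h1 := lz_ne (gv2_row g) z w
    exact_mod_cast norm_ne_zero_iff.mpr h1

theorem gv2_J_pf [IsTotallyReal K] {k : ℕ} {F : (Em K → ℍ) → Lat K → ℂ} (hF : IsForm k F) (g : SL(2, K))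
    (z : Em K → ℍ) (L : Lat K) :
    PF k F (g • z) (g • L) = gv2_J k g z * PF k F z L := form_act hF g z L

theorem gv2_J_ew [IsTotallyReal K] (k : ℕ) (g : SL(2, K)) (z w : Em K → ℍ) :
    EW k (g • z) (g • w) = gv2_J k g w * starRingEnd ℂ (gv2_J k g z) * EW k z w := ew_act k g z w

attribute [irreducible] gv2_J

/-! ### the measure -/

variable (K) in
/-- the space of the representatives of the genera -/
def gv2_X : Set (XX K) := ⋃ κ : Gen K, {x | x.2.det = κ.out}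

variable (K) in
/-- the measure on it -/
noncomputable def gv2_nu : Measure (XX K) := (mu0 K).restrict (gv2_X K)

theorem gv2_det_meas (r : Id K) : MeasurableSet {x : XX K | x.2.det = r} := by
  have h1 : MeasurableSet {L : Lat K | L.det = r} := trivial
  exact measurable_snd h1

variable [IsTotallyReal K]

theorem gv2_X_meas : MeasurableSet (gv2_X K) := by
  have := gen_finite (K := K)
  exact MeasurableSet.iUnion (fun κ => gv2_det_meas _)

theorem gv2_nu_act (g : SL(2, K)) :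
    MeasurePreserving (fun x : XX K => g • x) (gv2_nu K) (gv2_nu K) := by
  have h1 := (mu0_act g).restrict_preimage (gv2_X_meas (K := K))
  have h2 : (fun x : XX K => g • x) ⁻¹' (gv2_X K) = gv2_X K := by
    ext x
    simp only [gv2_X, Set.mem_preimage, Set.mem_iUnion, Set.mem_ofPred_eq, Prod.smul_snd, det_act]
  rw [h2] at h1
  exact h1

theorem gv2_mX (ω : ExW K) :
    mX ω = (gv2_nu K).withDensity (fun x => ENNReal.ofReal (ω.w x)) := by
  have := gen_finite (K := K)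
  have h1 : gv2_nu K = Measure.sum (fun κ : Gen K => (mu0 K).restrict {x | x.2.det = κ.out}) := by
    apply Measure.restrict_iUnion
    · intro κ κ' hne
      rw [Function.onFun, Set.disjoint_left]
      intro x hx hx'
      apply hne
      have h2 : κ.out = κ'.out := by
        rw [← (show x.2.det = κ.out from hx), ← (show x.2.det = κ'.out from hx')]
      rw [← Quotient.out_eq κ, ← Quotient.out_eq κ', h2]
    · exact fun κ => gv2_det_meas _
  rw [h1, withDensity_sum]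
  rfl

omit [IsTotallyReal K] in
theorem gv2_pm (L₀ : Lat K) : Measurable (fun z : Em K → ℍ => ((z, L₀) : XX K)) :=
  measurable_id.prodMk measurable_const

theorem gv2_slice (L₀ : Lat K) (hL : ∃ g : Gen K, L₀.det = g.out) :
    (gv2_nu K).restrict {x | x.2 = L₀} =
      (volume : Measure (Em K → ℍ)).map (fun z => (z, L₀)) := by
  have hm : MeasurableSet {x : XX K | x.2 = L₀} := by
    have h1 : MeasurableSet {L : Lat K | L = L₀} := trivial
    exact measurable_snd h1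
  ext s hs
  rw [Measure.restrict_apply hs, gv2_nu, Measure.restrict_apply (hs.inter hm),
    Measure.map_apply (gv2_pm L₀) hs]
  have h1 : s ∩ {x : XX K | x.2 = L₀} ∩ gv2_X K = s ∩ {x : XX K | x.2 = L₀} := by
    apply Set.inter_eq_left.mpr
    rintro x ⟨_, hx⟩
    obtain ⟨g, hg⟩ := hL
    refine Set.mem_iUnion.mpr ⟨g, ?_⟩
    show x.2.det = g.out
    rw [show x.2 = L₀ from hx, hg]
  rw [h1, ← lintegral_indicator_one (hs.inter hm), mu0_lint (measurable_one.indicator (hs.inter hm)),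
    tsum_eq_single L₀]
  · rw [← lintegral_indicator_one (gv2_pm L₀ hs)]
    apply lintegral_congr
    intro z
    by_cases hz : ((z, L₀) : XX K) ∈ s
    · rw [Set.indicator_of_mem (show ((z, L₀) : XX K) ∈ s ∩ {x : XX K | x.2 = L₀} from ⟨hz, rfl⟩),
        Set.indicator_of_mem (show z ∈ (fun z => (z, L₀)) ⁻¹' s from hz)]
      rfl
    · rw [Set.indicator_of_notMem (fun h => hz h.1), Set.indicator_of_notMem
        (show z ∉ (fun z => ((z, L₀) : XX K)) ⁻¹' s from hz)]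
  · intro L hne
    have h2 : ∀ z : Em K → ℍ, (s ∩ {x : XX K | x.2 = L₀}).indicator (1 : XX K → ℝ≥0∞) (z, L) = 0 := by
      intro z
      exact Set.indicator_of_notMem (fun h => hne h.2) _
    simp only [h2, lintegral_zero]

omit [IsTotallyReal K] in
theorem gv2_emb (L₀ : Lat K) : MeasurableEmbedding (fun z : Em K → ℍ => ((z, L₀) : XX K)) :=
  measurableEmbedding_prod_mk_right L₀

/-- integration of a function which is supported on one lattice -/
theorem gv2_int (L₀ : Lat K) (hL : ∃ g : Gen K, L₀.det = g.out) (f : XX K → ℂ)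
    (hf : ∀ x, x.2 ≠ L₀ → f x = 0) : ∫ x, f x ∂(gv2_nu K) = ∫ z : Em K → ℍ, f (z, L₀) := by
  rw [← setIntegral_eq_integral_of_forall_compl_eq_zero (s := {x : XX K | x.2 = L₀})
    (fun x hx => hf x hx), gv2_slice L₀ hL, (gv2_emb L₀).integral_map]

theorem gv2_intble (L₀ : Lat K) (hL : ∃ g : Gen K, L₀.det = g.out) (f : XX K → ℂ)
    (hf : ∀ x, x.2 ≠ L₀ → f x = 0) (hi : Integrable (fun z : Em K → ℍ => f (z, L₀))) :
    Integrable f (gv2_nu K) := by
  have h1 : IntegrableOn f {x : XX K | x.2 = L₀} (gv2_nu K) := by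
    rw [IntegrableOn, gv2_slice L₀ hL, (gv2_emb L₀).integrable_map_iff]
    exact hi
  have h2 : Integrable (({x : XX K | x.2 = L₀}).indicator f) (gv2_nu K) := by
    rw [integrable_indicator_iff]
    · exact h1
    · have h1 : MeasurableSet {L : Lat K | L = L₀} := trivial
      exact measurable_snd h1
  apply h2.congr
  apply Filter.Eventually.of_forall
  intro x
  by_cases hx : x.2 = L₀
  · exact Set.indicator_of_mem (s := {x : XX K | x.2 = L₀}) hx f
  · rw [hf x hx]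
    exact Set.indicator_of_notMem (s := {x : XX K | x.2 = L₀}) hx f

end

section

/-! ### the geodesics and the kernel -/

theorem gv2_zb_cont (β : K) : Continuous (fun u : Em K → ℝ => zb β u) := by
  unfold zb
  apply continuous_pi
  intro w
  exact (WA.vz_cont (w β)).comp (continuous_apply w)

theorem gv2_ew_c {α : Type} [TopologicalSpace α] (k : ℕ) {f g : α → Em K → ℍ} (hf : Continuous f)
    (hg : Continuous g) : Continuous (fun a => EW k (f a) (g a)) := by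
  have h := (ew_cont (ι := Em K) k)
  have h2 := h.comp (hf.prodMk hg)
  simpa [Function.comp_def] using h2

theorem gv2_chW_one (z z' : Em K → ℍ) : 1 ≤ ∏ w, WA.ch (z w) (z' w) :=
  Finset.one_le_prod (fun w _ => WA.one_le_ch _ _)

theorem gv2_ew_le (k : ℕ) (z z' : Em K → ℍ) : ‖EW k z z'‖ₑ ≤ 1 := by
  rw [← ofReal_norm, ew_norm]
  have h1 : (∏ i, WA.ch (z i) (z' i)) ^ (-(k : ℝ) / 2) ≤ 1 := by
    apply Real.rpow_le_one_of_one_le_of_nonpos (gv2_chW_one z z')
    have : (0 : ℝ) ≤ k := Nat.cast_nonneg k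
    linarith
  calc ENNReal.ofReal _ ≤ ENNReal.ofReal 1 := ENNReal.ofReal_le_ofReal h1
    _ = 1 := ENNReal.ofReal_one

theorem gv2_psi {J : Type} {Ψ : J → (Em K → ℝ) → ℂ} {M V : ℝ} (hΨ : PsB Ψ M V) (j : J) :
    ∫⁻ u : Em K → ℝ, ‖Ψ j u‖ₑ < ∞ := by
  have hS : MeasurableSet (Set.pi Set.univ (fun _ : Em K => Set.Icc (-V) V)) :=
    MeasurableSet.univ_pi (fun _ => measurableSet_Icc)
  have h1 : ∫⁻ u : Em K → ℝ, ‖Ψ j u‖ₑ ≤
      ∫⁻ u : Em K → ℝ in Set.pi Set.univ (fun _ : Em K => Set.Icc (-V) V), ENNReal.ofReal M := by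
    rw [← lintegral_indicator hS]
    apply lintegral_mono
    intro u
    by_cases hu : u ∈ Set.pi Set.univ (fun _ : Em K => Set.Icc (-V) V)
    · simp only [Set.indicator_of_mem hu]
      rw [← ofReal_norm]
      exact ENNReal.ofReal_le_ofReal (hΨ.bdd j u)
    · have h2 : Ψ j u = 0 := by
        by_contra h3
        apply hu
        intro w _
        exact abs_le.mp (hΨ.supp j u h3 w)
      simp only [Set.indicator_of_notMem hu, h2]
      simp
  refine h1.trans_lt ?_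
  rw [lintegral_const]
  apply ENNReal.mul_lt_top ENNReal.ofReal_lt_top
  rw [Measure.restrict_apply MeasurableSet.univ, Set.univ_inter, volume_pi_pi]
  exact ENNReal.prod_lt_top (fun w _ => by rw [Real.volume_Icc]; exact ENNReal.ofReal_lt_top)

/-- the double integral -/
theorem gv2_fub {U U' Z : Type} [MeasurableSpace U] [MeasurableSpace U'] [MeasurableSpace Z]
    {μ : Measure U} {μ' : Measure U'} {ν : Measure Z} [SigmaFinite μ] [SigmaFinite μ'] [SigmaFinite ν]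
    {A : U → Z → ℂ} {B : U' → Z → ℂ} (hA : Measurable (fun p : U × Z => A p.1 p.2))
    (hB : Measurable (fun p : U' × Z => B p.1 p.2))
    {a : U → ℝ≥0∞} (ha : Measurable a) (ha1 : ∫⁻ u, a u ∂μ < ∞) (haA : ∀ u z, ‖A u z‖ₑ ≤ a u)
    (hBi : ∫⁻ u, ∫⁻ z, ‖B u z‖ₑ ∂ν ∂μ' < ∞) :
    Integrable (fun z => (∫ u, A u z ∂μ) * (∫ u', B u' z ∂μ')) ν ∧
    ‖∫ z, (∫ u, A u z ∂μ) * (∫ u', B u' z ∂μ') ∂ν‖ₑ ≤
      ∫⁻ u, ∫⁻ u', ‖∫ z, A u z * B u' z ∂ν‖ₑ ∂μ' ∂μ := by
  have hm : Measurable (fun p : (U × U') × Z => A p.1.1 p.2 * B p.1.2 p.2) := by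
    apply Measurable.mul
    · exact hA.comp ((measurable_fst.comp measurable_fst).prodMk measurable_snd)
    · exact hB.comp ((measurable_snd.comp measurable_fst).prodMk measurable_snd)
  have hI : Integrable (fun p : (U × U') × Z => A p.1.1 p.2 * B p.1.2 p.2) ((μ.prod μ').prod ν) := by
    refine ⟨hm.aestronglyMeasurable, ?_⟩
    rw [HasFiniteIntegral, lintegral_prod _ hm.enorm.aemeasurable]
    have hBm : Measurable (fun u' : U' => ∫⁻ z, ‖B u' z‖ₑ ∂ν) := hB.enorm.lintegral_prod_right'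
    have h1 : ∀ p : U × U', ∫⁻ z, ‖A p.1 z * B p.2 z‖ₑ ∂ν ≤ a p.1 * ∫⁻ z, ‖B p.2 z‖ₑ ∂ν := by
      intro p
      have h2 : Measurable (fun z => ‖B p.2 z‖ₑ) :=
        (hB.comp (measurable_const.prodMk measurable_id)).enorm
      rw [← lintegral_const_mul _ h2]
      apply lintegral_mono
      intro z
      show ‖A p.1 z * B p.2 z‖ₑ ≤ _
      rw [enorm_mul]
      exact mul_le_mul' (haA _ _) le_rfl
    refine (lintegral_mono h1).trans_lt ?_
    rw [lintegral_prod_mul ha.aemeasurable hBm.aemeasurable]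
    exact ENNReal.mul_lt_top ha1 hBi
  have h2 : ∀ z, (∫ u, A u z ∂μ) * (∫ u', B u' z ∂μ') =
      ∫ p : U × U', A p.1 z * B p.2 z ∂(μ.prod μ') := by
    intro z
    exact (integral_prod_mul (fun u => A u z) (fun u' => B u' z)).symm
  simp_rw [h2]
  refine ⟨hI.integral_prod_right, ?_⟩
  rw [integral_integral_swap (f := fun (z : Z) (p : U × U') => A p.1 z * B p.2 z) hI.swap]
  refine (enorm_integral_le_lintegral_enorm _).trans ?_
  have hsm : StronglyMeasurable (fun p : U × U' => ∫ z, A p.1 z * B p.2 z ∂ν) :=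
    hm.stronglyMeasurable.integral_prod_right
  rw [lintegral_prod _ hsm.measurable.enorm.aemeasurable]

end

section

/-- the terms of the kernel -/
noncomputable def gv2_T (k : ℕ) (β : K) (ψ : (Em K → ℝ) → ℂ) (z : Em K → ℍ) : ℂ :=
  ∫ u : Em K → ℝ, starRingEnd ℂ (ψ u) * EW k (zb β u) z

open scoped Classical in
theorem gv2_kap {J : Type} [Fintype J] (k : ℕ) (β : J → K) (L : J → Lat K)
    (Ψ : J → (Em K → ℝ) → ℂ) (x : XX K) :
    kapX k β L Ψ x = ∑ j, if x.2 = L j then gv2_T k (β j) (Ψ j) x.1 else 0 := rfl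

theorem gv2_T_conj (k : ℕ) (β : K) (ψ : (Em K → ℝ) → ℂ) (z : Em K → ℍ) :
    starRingEnd ℂ (gv2_T k β ψ z) = ∫ u : Em K → ℝ, ψ u * starRingEnd ℂ (EW k (zb β u) z) := by
  rw [gv2_T, ← integral_conj]
  congr 1
  ext u
  rw [map_mul, Complex.conj_conj]

variable [IsTotallyReal K]

theorem gv2_k1 {k : ℕ} (hk : 16 ≤ k) : 0 < (k : ℝ) - 1 := by
  have : (16 : ℝ) ≤ k := by exact_mod_cast hk
  linarith

/-- the reproducing formula for forms -/
theorem gv2_rep1 {k : ℕ} (hk : 16 ≤ k) {F : (Em K → ℍ) → Lat K → ℂ} (hF : IsForm k F)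
    (L₀ : Lat K) (z : Em K → ℍ) :
    PF k F z L₀ = (((((k : ℝ) - 1) / (4 * Real.pi)) ^ dg K : ℝ) : ℂ) *
      ∫ w : Em K → ℍ, PF k F w L₀ * starRingEnd ℂ (EW k z w) := by
  obtain ⟨C, hC0, hC⟩ := pf_bdd hF
  have ha : 0 < nI L₀.det ^ ((k : ℝ) / 2) := Real.rpow_pos_of_pos (nI_pos _) _
  have hph : ∀ z, ‖phW k (fun y : Em K → ℂ => F (fun w => ofComplex (y w)) L₀) z‖ ≤
      C / nI L₀.det ^ ((k : ℝ) / 2) := by
    intro z
    have h1 := hC z L₀
    rw [pf_phW, norm_mul, Complex.norm_real, Real.norm_eq_abs, abs_of_pos ha] at h1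
    rw [le_div_iff₀ ha]
    linarith
  obtain ⟨_, h2⟩ := rep_pi hk (hF.holo L₀) hph z
  rw [card_em] at h2
  have h3 : ∀ w : Em K → ℍ, PF k F w L₀ * starRingEnd ℂ (EW k z w) =
      ((nI L₀.det ^ ((k : ℝ) / 2) : ℝ) : ℂ) *
        (phW k (fun y : Em K → ℂ => F (fun w => ofComplex (y w)) L₀) w *
          starRingEnd ℂ (EW k z w)) := by
    intro w
    rw [pf_phW]
    ring
  simp_rw [h3]
  rw [integral_const_mul, pf_phW, h2]
  ring

/-- integrability on the product -/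
theorem gv2_prod {k : ℕ} (hk : 16 ≤ k) (β : K) {J : Type} {Ψ : J → (Em K → ℝ) → ℂ}
    {M V : ℝ} (hΨ : PsB Ψ M V) (j : J) {F : (Em K → ℍ) → Lat K → ℂ} (hF : IsForm k F) (L₀ : Lat K) :
    Integrable (fun p : (Em K → ℝ) × (Em K → ℍ) => Ψ j p.1 *
      (PF k F p.2 L₀ * starRingEnd ℂ (EW k (zb β p.1) p.2))) (volume.prod volume) := by
  obtain ⟨C, hC0, hC⟩ := pf_bdd hF
  obtain ⟨C', hC'⟩ := ew_lint (ι := Em K)
  have hE : Continuous (fun p : (Em K → ℝ) × (Em K → ℍ) => EW k (zb β p.1) p.2) :=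
    gv2_ew_c k ((gv2_zb_cont β).comp continuous_fst) continuous_snd
  have hm : Measurable (fun p : (Em K → ℝ) × (Em K → ℍ) => Ψ j p.1 *
      (PF k F p.2 L₀ * starRingEnd ℂ (EW k (zb β p.1) p.2))) := by
    apply ((hΨ.meas j).comp measurable_fst).mul
    apply ((pf_cont hF L₀).measurable.comp measurable_snd).mul
    exact Complex.continuous_conj.measurable.comp hE.measurable
  refine ⟨hm.aestronglyMeasurable, ?_⟩
  rw [HasFiniteIntegral, lintegral_prod _ hm.enorm.aemeasurable]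
  have h1 : ∀ u : Em K → ℝ, ∫⁻ w : Em K → ℍ, ‖Ψ j u *
      (PF k F w L₀ * starRingEnd ℂ (EW k (zb β u) w))‖ₑ ≤
      ‖Ψ j u‖ₑ * (ENNReal.ofReal C * ENNReal.ofReal C') := by
    intro u
    have h2 : ∀ w : Em K → ℍ, ‖Ψ j u * (PF k F w L₀ * starRingEnd ℂ (EW k (zb β u) w))‖ₑ ≤
        ‖Ψ j u‖ₑ * (ENNReal.ofReal C * ‖EW k (zb β u) w‖ₑ) := by
      intro w
      rw [enorm_mul, enorm_mul]
      apply mul_le_mul_right
      apply mul_le_mul'
      · rw [← ofReal_norm]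
        exact ENNReal.ofReal_le_ofReal (hC w L₀)
      · rw [← ofReal_norm, ← ofReal_norm, RCLike.norm_conj]
    refine (lintegral_mono h2).trans ?_
    have hm2 : Measurable (fun w : Em K → ℍ => ‖EW k (zb β u) w‖ₑ) :=
      (gv2_ew_c k continuous_const continuous_id).measurable.enorm
    rw [lintegral_const_mul _ (hm2.const_mul _), lintegral_const_mul _ hm2]
    apply mul_le_mul_right
    apply mul_le_mul_right
    exact hC' k hk _
  refine (lintegral_mono h1).trans_lt ?_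
  rw [lintegral_mul_const _ (hΨ.meas j).enorm]
  exact ENNReal.mul_lt_top (gv2_psi hΨ j)
    (ENNReal.mul_lt_top ENNReal.ofReal_lt_top ENNReal.ofReal_lt_top)

/-- one term of the functional -/
theorem gv2_term {k : ℕ} (hk : 16 ≤ k) (β : K) {J : Type} {Ψ : J → (Em K → ℝ) → ℂ}
    {M V : ℝ} (hΨ : PsB Ψ M V) (j : J) {F : (Em K → ℍ) → Lat K → ℂ} (hF : IsForm k F) (L₀ : Lat K) :
    Integrable (fun z : Em K → ℍ => PF k F z L₀ * starRingEnd ℂ (gv2_T k β (Ψ j) z)) ∧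
    ∫ u, Ψ j u * PF k F (zb β u) L₀ = (((((k : ℝ) - 1) / (4 * Real.pi)) ^ dg K : ℝ) : ℂ) *
      ∫ z : Em K → ℍ, PF k F z L₀ * starRingEnd ℂ (gv2_T k β (Ψ j) z) := by
  have hint := gv2_prod hk β hΨ j hF L₀
  have h1 : ∀ z : Em K → ℍ, PF k F z L₀ * starRingEnd ℂ (gv2_T k β (Ψ j) z) =
      ∫ u, Ψ j u * (PF k F z L₀ * starRingEnd ℂ (EW k (zb β u) z)) := by
    intro z
    rw [gv2_T_conj, ← integral_const_mul]
    congr 1
    ext u
    ring
  simp_rw [h1]
  refine ⟨hint.integral_prod_right, ?_⟩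
  rw [integral_integral_swap (f := fun (w : Em K → ℍ) (u : Em K → ℝ) =>
    Ψ j u * (PF k F w L₀ * starRingEnd ℂ (EW k (zb β u) w))) hint.swap, ← integral_const_mul]
  congr 1
  ext u
  rw [integral_const_mul, gv2_rep1 hk hF L₀ (zb β u)]
  ring

/-- the functional as an inner product -/
theorem gv2_step1 {k : ℕ} (hk : 16 ≤ k) {F : (Em K → ℍ) → Lat K → ℂ}
    (hF : IsForm k F) {J : Type} [Fintype J] (β : J → K) (L : J → Lat K)
    (hL : ∀ j, ∃ g : Gen K, (L j).det = g.out) {Ψ : J → (Em K → ℝ) → ℂ} {M V : ℝ}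
    (hΨ : PsB Ψ M V) :
    Integrable (fun x : XX K => PF k F x.1 x.2 * starRingEnd ℂ (kapX k β L Ψ x)) (gv2_nu K) ∧
    Lf k β L Ψ F = (((((k : ℝ) - 1) / (4 * Real.pi)) ^ dg K : ℝ) : ℂ) *
      ∫ x, PF k F x.1 x.2 * starRingEnd ℂ (kapX k β L Ψ x) ∂(gv2_nu K) := by
  classical
  have h1 : ∀ x : XX K, PF k F x.1 x.2 * starRingEnd ℂ (kapX k β L Ψ x) =
      ∑ j, if x.2 = L j then PF k F x.1 (L j) * starRingEnd ℂ (gv2_T k (β j) (Ψ j) x.1) else 0 := by
    intro x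
    rw [gv2_kap, map_sum, Finset.mul_sum]
    apply Finset.sum_congr rfl
    intro j _
    by_cases h : x.2 = L j
    · rw [if_pos h, if_pos h, h]
    · rw [if_neg h, if_neg h, map_zero, mul_zero]
  have hz : ∀ j, ∀ x : XX K, x.2 ≠ L j → (if x.2 = L j then PF k F x.1 (L j) *
      starRingEnd ℂ (gv2_T k (β j) (Ψ j) x.1) else 0) = 0 := fun j x h => if_neg h
  have h2 : ∀ j, Integrable (fun x : XX K => if x.2 = L j then PF k F x.1 (L j) *
      starRingEnd ℂ (gv2_T k (β j) (Ψ j) x.1) else 0) (gv2_nu K) := by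
    intro j
    apply gv2_intble (L j) (hL j) _ (hz j)
    simp only [if_true]
    exact (gv2_term hk (β j) hΨ j hF (L j)).1
  simp_rw [h1]
  refine ⟨integrable_finsetSum _ (fun j _ => h2 j), ?_⟩
  rw [integral_finsetSum _ (fun j _ => h2 j), Finset.mul_sum, Lf]
  apply Finset.sum_congr rfl
  intro j _
  rw [gv2_int (L j) (hL j) _ (hz j), (gv2_term hk (β j) hΨ j hF (L j)).2]
  simp only [if_true]

end

section

/-- the absolute sum over the group -/
noncomputable def gv2_S {J : Type} [Fintype J] (k : ℕ) (β : J → K) (L : J → Lat K)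
    (Ψ : J → (Em K → ℝ) → ℂ) (x : XX K) : ℝ≥0∞ := ∑' g : SL(2, K), ‖kapX k β L Ψ (g • x)‖ₑ

/-- the sum over the group -/
noncomputable def gv2_K {J : Type} [Fintype J] (k : ℕ) (β : J → K) (L : J → Lat K)
    (Ψ : J → (Em K → ℝ) → ℂ) (x : XX K) : ℂ :=
  ∑' g : SL(2, K), starRingEnd ℂ (gv2_J k g x.1) * kapX k β L Ψ (g • x)

theorem gv2_S_inv {J : Type} [Fintype J] (k : ℕ) (β : J → K) (L : J → Lat K)
    (Ψ : J → (Em K → ℝ) → ℂ) (h : SL(2, K)) (x : XX K) :
    gv2_S k β L Ψ (h • x) = gv2_S k β L Ψ x := by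
  unfold gv2_S
  rw [← (Equiv.mulRight h).tsum_eq (fun g : SL(2, K) => ‖kapX k β L Ψ (g • x)‖ₑ)]
  apply tsum_congr
  intro g
  rw [Equiv.coe_mulRight, mul_smul]

theorem gv2_conj_one (k : ℕ) (g : SL(2, K)) (z : Em K → ℍ) :
    ‖starRingEnd ℂ (gv2_J k g z)‖ₑ = 1 := by
  rw [← ofReal_norm, RCLike.norm_conj, gv2_J_norm]
  simp

theorem gv2_JJ (k : ℕ) (g : SL(2, K)) (z : Em K → ℍ) :
    gv2_J k g z * starRingEnd ℂ (gv2_J k g z) = 1 := by
  rw [Complex.mul_conj, Complex.normSq_eq_norm_sq, gv2_J_norm]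
  simp

theorem gv2_K_act {J : Type} [Fintype J] (k : ℕ) (β : J → K) (L : J → Lat K)
    (Ψ : J → (Em K → ℝ) → ℂ) (h : SL(2, K)) (x : XX K) :
    gv2_K k β L Ψ (h • x) = gv2_J k h x.1 * gv2_K k β L Ψ x := by
  unfold gv2_K
  rw [← (Equiv.mulRight h).tsum_eq (fun g : SL(2, K) =>
    starRingEnd ℂ (gv2_J k g x.1) * kapX k β L Ψ (g • x)), ← tsum_mul_left]
  apply tsum_congr
  intro g
  rw [Equiv.coe_mulRight, mul_smul, gv2_J_mul, map_mul]
  have h1 := gv2_JJ k h x.1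
  rw [Prod.smul_fst]
  linear_combination (-(starRingEnd ℂ (gv2_J k g (h • x.1)) * kapX k β L Ψ (g • h • x))) * h1

theorem gv2_K_le {J : Type} [Fintype J] (k : ℕ) (β : J → K) (L : J → Lat K)
    (Ψ : J → (Em K → ℝ) → ℂ) (x : XX K) : ‖gv2_K k β L Ψ x‖ₑ ≤ gv2_S k β L Ψ x := by
  unfold gv2_K gv2_S
  refine enorm_tsum_le_tsum_enorm.trans (le_of_eq ?_)
  apply tsum_congr
  intro g
  rw [enorm_mul, gv2_conj_one, one_mul]

variable [IsTotallyReal K]

omit [IsTotallyReal K] in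
theorem gv2_smul_meas (g : SL(2, K)) : Measurable (fun x : XX K => g • x) := (mu0_act g).measurable

theorem gv2_S_meas {J : Type} [Fintype J] (k : ℕ) (β : J → K) (L : J → Lat K)
    {Ψ : J → (Em K → ℝ) → ℂ} {M V : ℝ} (hΨ : PsB Ψ M V) : Measurable (gv2_S k β L Ψ) := by
  apply Measurable.tsum
  intro g
  exact ((kap_meas k β L hΨ).comp (gv2_smul_meas g)).enorm

theorem gv2_K_meas {J : Type} [Fintype J] (k : ℕ) (β : J → K) (L : J → Lat K)
    {Ψ : J → (Em K → ℝ) → ℂ} {M V : ℝ} (hΨ : PsB Ψ M V) : Measurable (gv2_K k β L Ψ) := by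
  classical
  have hSm := gv2_S_meas k β L hΨ
  have hset : MeasurableSet {x : XX K | gv2_S k β L Ψ x ≠ ∞} :=
    (hSm (measurableSet_singleton ∞)).compl
  have hsum : ∀ x, gv2_S k β L Ψ x ≠ ∞ → Summable (fun g : SL(2, K) =>
      starRingEnd ℂ (gv2_J k g x.1) * kapX k β L Ψ (g • x)) := by
    intro x hx
    apply Summable.of_norm
    have h4 := ENNReal.summable_toReal hx
    apply h4.congr
    intro g
    rw [norm_mul, RCLike.norm_conj, gv2_J_norm, one_mul]
    simp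
  have hns : ∀ x, gv2_S k β L Ψ x = ∞ → gv2_K k β L Ψ x = 0 := by
    intro x hx
    apply tsum_eq_zero_of_not_summable
    intro hs
    have h1 := hs.norm
    have h2 : gv2_S k β L Ψ x ≠ ∞ := by
      have h3 : ∀ g : SL(2, K), ‖kapX k β L Ψ (g • x)‖ₑ = ENNReal.ofReal
          ‖starRingEnd ℂ (gv2_J k g x.1) * kapX k β L Ψ (g • x)‖ := by
        intro g
        rw [norm_mul, RCLike.norm_conj, gv2_J_norm, one_mul, ofReal_norm]
      unfold gv2_S
      simp_rw [h3]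
      rw [← ENNReal.ofReal_tsum_of_nonneg (fun _ => norm_nonneg _) h1]
      exact ENNReal.ofReal_ne_top
    exact h2 hx
  apply measurable_of_tendsto_metrizable' (atTop : Filter (Finset SL(2, K)))
    (f := fun s x => ∑ g ∈ s, ({x : XX K | gv2_S k β L Ψ x ≠ ∞}).indicator (fun x =>
      starRingEnd ℂ (gv2_J k g x.1) * kapX k β L Ψ (g • x)) x)
  · intro s
    apply Finset.measurable_fun_sum
    intro g _
    apply Measurable.indicator _ hset
    apply Measurable.mul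
    · exact Complex.continuous_conj.measurable.comp ((gv2_J_cont k g).measurable.comp measurable_fst)
    · exact (kap_meas k β L hΨ).comp (gv2_smul_meas g)
  · rw [tendsto_pi_nhds]
    intro x
    by_cases hx : gv2_S k β L Ψ x = ∞
    · rw [hns x hx]
      have h1 : ∀ s : Finset SL(2, K), ∑ g ∈ s, ({x : XX K | gv2_S k β L Ψ x ≠ ∞}).indicator (fun x =>
          starRingEnd ℂ (gv2_J k g x.1) * kapX k β L Ψ (g • x)) x = 0 := by
        intro s
        apply Finset.sum_eq_zero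
        intro g _
        exact Set.indicator_of_notMem (fun h : x ∈ {x : XX K | gv2_S k β L Ψ x ≠ ∞} => h hx) _
      simp only [h1]
      exact tendsto_const_nhds
    · have h1 : ∀ g : SL(2, K), ({x : XX K | gv2_S k β L Ψ x ≠ ∞}).indicator (fun x =>
          starRingEnd ℂ (gv2_J k g x.1) * kapX k β L Ψ (g • x)) x =
          starRingEnd ℂ (gv2_J k g x.1) * kapX k β L Ψ (g • x) := by
        intro g
        exact Set.indicator_of_mem (show x ∈ {x : XX K | gv2_S k β L Ψ x ≠ ∞} from hx) _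
      simp only [h1]
      exact (hsum x hx).hasSum

omit [IsTotallyReal K] in
theorem gv2_w_meas (ω : ExW K) : Measurable (fun x => ENNReal.ofReal (ω.w x)) :=
  ENNReal.measurable_ofReal.comp ω.meas

omit [IsTotallyReal K] in
/-- the weights sum to one -/
theorem gv2_w_ex (ω : ExW K) (x : XX K) : ∑' g : SL(2, K), ENNReal.ofReal (ω.w (g • x)) = 1 := by
  rw [← ENNReal.ofReal_tsum_of_nonneg (fun g => ω.nn _) (ω.ex x).summable, (ω.ex x).tsum_eq,
    ENNReal.ofReal_one]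

theorem gv2_two {J : Type} [Fintype J] {k : ℕ} (hk : 16 * dg K ≤ k) (β : J → K)
    (L : J → Lat K) {Ψ : J → (Em K → ℝ) → ℂ} {M V : ℝ} (hΨ : PsB Ψ M V) :
    ∫⁻ x, ‖kapX k β L Ψ x‖ₑ * gv2_S k β L Ψ x ∂(gv2_nu K) < ∞ :=
  (lintegral_mono' Measure.restrict_le_self le_rfl).trans_lt (kap_two hk β L hΨ)

theorem gv2_sq (ω : ExW K) {J : Type} [Fintype J] {k : ℕ} (hk : 16 * dg K ≤ k) (β : J → K)
    (L : J → Lat K) {Ψ : J → (Em K → ℝ) → ℂ} {M V : ℝ} (hΨ : PsB Ψ M V) :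
    ∫⁻ x, gv2_S k β L Ψ x ^ 2 ∂(mX ω) < ∞ := by
  have h1 := unf (gv2_nu K) gv2_nu_act (gv2_S_meas k β L hΨ) (kap_meas k β L hΨ).enorm
    (gv2_w_meas ω) (gv2_S_inv k β L Ψ) (gv2_w_ex ω)
  have h2 := gv2_two hk β L hΨ
  rw [h1] at h2
  rw [gv2_mX, lintegral_withDensity_eq_lintegral_mul _ (gv2_w_meas ω)
    ((gv2_S_meas k β L hΨ).pow_const 2)]
  refine lt_of_le_of_lt (le_of_eq ?_) h2
  apply lintegral_congr
  intro x
  show ENNReal.ofReal (ω.w x) * gv2_S k β L Ψ x ^ 2 =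
    ENNReal.ofReal (ω.w x) * gv2_S k β L Ψ x * gv2_S k β L Ψ x
  rw [sq, mul_assoc]

/-- integration against the measure of the forms -/
theorem gv2_mX_int (ω : ExW K) (f : XX K → ℂ) :
    ∫ x, f x ∂(mX ω) = ∫ x, (ω.w x : ℂ) * f x ∂(gv2_nu K) := by
  rw [gv2_mX, integral_withDensity_eq_integral_toReal_smul (gv2_w_meas ω)
    (Filter.Eventually.of_forall (fun x => ENNReal.ofReal_lt_top))]
  congr 1
  ext x
  rw [ENNReal.toReal_ofReal (ω.nn x), Complex.real_smul]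

end

section

theorem gv2_act_cont (g : SL(2, K)) : Continuous (fun z : Em K → ℍ => g • z) := by
  apply continuous_pi
  intro w
  have h1 : Continuous (fun x : ℍ => (Matrix.GeneralLinearGroup.map (n := Fin 2) w (g : GL (Fin 2) K)) • x) :=
    continuous_const_smul _
  exact h1.comp (continuous_apply w)

variable [IsTotallyReal K]

/-- the kernel function at a translated point -/
theorem gv2_ew_tr (k : ℕ) (g : SL(2, K)) (a z : Em K → ℍ) :
    starRingEnd ℂ (gv2_J k g z) * EW k a (g • z) =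
      starRingEnd ℂ (gv2_J k g (g⁻¹ • a)) * EW k (g⁻¹ • a) z := by
  have h1 := gv2_J_ew k g (g⁻¹ • a) z
  rw [smul_inv_smul] at h1
  rw [h1]
  have h2 := gv2_JJ k g z
  linear_combination (starRingEnd ℂ (gv2_J k g (g⁻¹ • a)) * EW k (g⁻¹ • a) z) * h2

/-- the distance of translated points -/
theorem gv2_ch_tr (k : ℕ) (g : SL(2, K)) (a b : Em K → ℍ) :
    (∏ i, WA.ch ((g⁻¹ • a) i) (b i)) ^ (-(k : ℝ) / 2) = chW (g • b) a ^ (-(k : ℝ) / 2) := by
  have h1 := gv2_J_ew k g (g⁻¹ • a) b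
  rw [smul_inv_smul] at h1
  have h2 := congrArg norm h1
  rw [norm_mul, norm_mul, RCLike.norm_conj, gv2_J_norm, gv2_J_norm, one_mul, one_mul, ew_norm,
    ew_norm] at h2
  rw [← h2, chW]
  congr 1
  apply Finset.prod_congr rfl
  intro i _
  exact WA.ch_comm _ _

/-- one pair of geodesics -/
theorem gv2_pair {k : ℕ} (hk : 16 ≤ k) (g : SL(2, K)) (β β' : K) {J : Type}
    {Ψ : J → (Em K → ℝ) → ℂ} {M V : ℝ} (hΨ : PsB Ψ M V) (j j' : J) :
    Integrable (fun z : Em K → ℍ => starRingEnd ℂ (gv2_J k g z) * gv2_T k β (Ψ j) (g • z) *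
      starRingEnd ℂ (gv2_T k β' (Ψ j') z)) ∧
    ‖∫ z : Em K → ℍ, starRingEnd ℂ (gv2_J k g z) * gv2_T k β (Ψ j) (g • z) *
      starRingEnd ℂ (gv2_T k β' (Ψ j') z)‖ₑ ≤
      ENNReal.ofReal ((4 * Real.pi / ((k : ℝ) - 1)) ^ dg K) *
        ∫⁻ u, ∫⁻ u', ‖Ψ j u‖ₑ * ‖Ψ j' u'‖ₑ *
          ENNReal.ofReal (chW (g • zb β' u') (zb β u) ^ (-(k : ℝ) / 2)) := by
  have hg : Continuous (fun u : Em K → ℝ => g⁻¹ • zb β u) :=
    (gv2_act_cont g⁻¹).comp (gv2_zb_cont β)
  have hA : Measurable (fun p : (Em K → ℝ) × (Em K → ℍ) => (starRingEnd ℂ (Ψ j p.1) *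
      starRingEnd ℂ (gv2_J k g (g⁻¹ • zb β p.1))) * EW k (g⁻¹ • zb β p.1) p.2) := by
    apply Measurable.mul
    · apply Measurable.mul
      · exact Complex.continuous_conj.measurable.comp ((hΨ.meas j).comp measurable_fst)
      · exact Complex.continuous_conj.measurable.comp
          (((gv2_J_cont k g).comp hg).measurable.comp measurable_fst)
    · exact (gv2_ew_c k (hg.comp continuous_fst) continuous_snd).measurable
  have hB : Measurable (fun p : (Em K → ℝ) × (Em K → ℍ) => Ψ j' p.1 *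
      starRingEnd ℂ (EW k (zb β' p.1) p.2)) := by
    apply ((hΨ.meas j').comp measurable_fst).mul
    exact Complex.continuous_conj.measurable.comp
      (gv2_ew_c k ((gv2_zb_cont β').comp continuous_fst) continuous_snd).measurable
  obtain ⟨C', hC'⟩ := ew_lint (ι := Em K)
  have hBi : ∫⁻ u' : Em K → ℝ, ∫⁻ z : Em K → ℍ, ‖Ψ j' u' * starRingEnd ℂ (EW k (zb β' u') z)‖ₑ < ∞ := by
    have h1 : ∀ u' : Em K → ℝ, ∫⁻ z : Em K → ℍ, ‖Ψ j' u' * starRingEnd ℂ (EW k (zb β' u') z)‖ₑ ≤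
        ‖Ψ j' u'‖ₑ * ENNReal.ofReal C' := by
      intro u'
      have h2 : ∀ z : Em K → ℍ, ‖Ψ j' u' * starRingEnd ℂ (EW k (zb β' u') z)‖ₑ =
          ‖Ψ j' u'‖ₑ * ‖EW k (zb β' u') z‖ₑ := by
        intro z
        rw [enorm_mul]
        congr 1
        rw [← ofReal_norm, ← ofReal_norm, RCLike.norm_conj]
      simp_rw [h2]
      have hm2 : Measurable (fun w : Em K → ℍ => ‖EW k (zb β' u') w‖ₑ) :=
        (gv2_ew_c k continuous_const continuous_id).measurable.enorm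
      rw [lintegral_const_mul _ hm2]
      exact mul_le_mul_right (hC' k hk _) _
    refine (lintegral_mono h1).trans_lt ?_
    rw [lintegral_mul_const _ (hΨ.meas j').enorm]
    exact ENNReal.mul_lt_top (gv2_psi hΨ j') ENNReal.ofReal_lt_top
  have hfub := gv2_fub (μ := (volume : Measure (Em K → ℝ))) (μ' := (volume : Measure (Em K → ℝ)))
    (ν := (volume : Measure (Em K → ℍ)))
    (A := fun u z => (starRingEnd ℂ (Ψ j u) *
      starRingEnd ℂ (gv2_J k g (g⁻¹ • zb β u))) * EW k (g⁻¹ • zb β u) z)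
    (B := fun u' z => Ψ j' u' * starRingEnd ℂ (EW k (zb β' u') z))
    hA hB (a := fun u => ‖Ψ j u‖ₑ) (hΨ.meas j).enorm (gv2_psi hΨ j) (by
      intro u z
      rw [enorm_mul, enorm_mul, gv2_conj_one, mul_one]
      calc ‖starRingEnd ℂ (Ψ j u)‖ₑ * ‖EW k (g⁻¹ • zb β u) z‖ₑ ≤ ‖starRingEnd ℂ (Ψ j u)‖ₑ * 1 :=
            mul_le_mul_right (gv2_ew_le k _ _) _
        _ = ‖Ψ j u‖ₑ := by rw [mul_one, ← ofReal_norm, ← ofReal_norm, RCLike.norm_conj]) hBi
  have h3 : ∀ z : Em K → ℍ, starRingEnd ℂ (gv2_J k g z) * gv2_T k β (Ψ j) (g • z) *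
      starRingEnd ℂ (gv2_T k β' (Ψ j') z) =
      (∫ u, (starRingEnd ℂ (Ψ j u) *
        starRingEnd ℂ (gv2_J k g (g⁻¹ • zb β u))) * EW k (g⁻¹ • zb β u) z) *
      (∫ u', Ψ j' u' * starRingEnd ℂ (EW k (zb β' u') z)) := by
    intro z
    rw [gv2_T_conj]
    congr 1
    rw [gv2_T, ← integral_const_mul]
    congr 1
    ext u
    have h4 := gv2_ew_tr k g (zb β u) z
    linear_combination (starRingEnd ℂ (Ψ j u)) * h4
  simp_rw [h3]
  refine ⟨hfub.1, hfub.2.trans ?_⟩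
  rw [← lintegral_const_mul']
  · apply lintegral_mono
    intro u
    show _ ≤ _ * ∫⁻ u', _
    rw [← lintegral_const_mul']
    · apply lintegral_mono
      intro u'
      show ‖∫ z, _‖ₑ ≤ _
      have h5 : ∀ z : Em K → ℍ, (starRingEnd ℂ (Ψ j u) *
          starRingEnd ℂ (gv2_J k g (g⁻¹ • zb β u))) * EW k (g⁻¹ • zb β u) z *
          (Ψ j' u' * starRingEnd ℂ (EW k (zb β' u') z)) =
          ((starRingEnd ℂ (Ψ j u) * starRingEnd ℂ (gv2_J k g (g⁻¹ • zb β u))) * Ψ j' u') *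
            (EW k (g⁻¹ • zb β u) z * starRingEnd ℂ (EW k (zb β' u') z)) := by
        intro z
        ring
      simp_rw [h5]
      rw [integral_const_mul, enorm_mul, enorm_mul, enorm_mul, gv2_conj_one, mul_one,
        ← ofReal_norm (∫ z, _), (ew_inner hk _ _).2, gv2_ch_tr, card_em,
        ENNReal.ofReal_mul (pow_nonneg (div_nonneg (by positivity) (gv2_k1 hk).le) _),
        ← ofReal_norm (starRingEnd ℂ (Ψ j u)), RCLike.norm_conj, ofReal_norm]
      apply le_of_eq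
      ring
    · exact ENNReal.ofReal_ne_top
  · exact ENNReal.ofReal_ne_top

end

section

variable [IsTotallyReal K]

open scoped Classical in
/-- one element of the group -/
theorem gv2_Ig {k : ℕ} (hk : 16 ≤ k) (g : SL(2, K)) {J : Type} [Fintype J] (β : J → K)
    (L : J → Lat K) (hL : ∀ j, ∃ g : Gen K, (L j).det = g.out) {Ψ : J → (Em K → ℝ) → ℂ} {M V : ℝ}
    (hΨ : PsB Ψ M V) :
    ‖∫ x : XX K, starRingEnd ℂ (gv2_J k g x.1) * kapX k β L Ψ (g • x) *
      starRingEnd ℂ (kapX k β L Ψ x) ∂(gv2_nu K)‖ₑ ≤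
    ENNReal.ofReal ((4 * Real.pi / ((k : ℝ) - 1)) ^ dg K) *
      ∑ j, ∑ j', if g • L j' = L j then ∫⁻ u, ∫⁻ u', ‖Ψ j u‖ₑ * ‖Ψ j' u'‖ₑ *
          ENNReal.ofReal (chW (g • zb (β j') u') (zb (β j) u) ^ (-(k : ℝ) / 2)) else 0 := by
  set f : J → J → XX K → ℂ := fun j j' x => if x.2 = L j' then (if g • L j' = L j then
    starRingEnd ℂ (gv2_J k g x.1) * gv2_T k (β j) (Ψ j) (g • x.1) *
      starRingEnd ℂ (gv2_T k (β j') (Ψ j') x.1) else 0) else 0 with hf
  have h1 : ∀ x : XX K, starRingEnd ℂ (gv2_J k g x.1) * kapX k β L Ψ (g • x) *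
      starRingEnd ℂ (kapX k β L Ψ x) = ∑ j, ∑ j', f j j' x := by
    intro x
    rw [gv2_kap, gv2_kap, map_sum, mul_assoc, Finset.sum_mul_sum, Finset.mul_sum]
    apply Finset.sum_congr rfl
    intro j _
    rw [Finset.mul_sum]
    apply Finset.sum_congr rfl
    intro j' _
    rw [← mul_assoc]
    simp only [hf, Prod.smul_snd, Prod.smul_fst]
    by_cases h : x.2 = L j'
    · rw [if_pos h, if_pos h, h]
      by_cases h' : g • L j' = L j
      · rw [if_pos h', if_pos h']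
      · rw [if_neg h', if_neg h', mul_zero, zero_mul]
    · rw [if_neg h, if_neg h, map_zero, mul_zero]
  have hz : ∀ j j', ∀ x : XX K, x.2 ≠ L j' → f j j' x = 0 := fun j j' x h => if_neg h
  have h2 : ∀ j j', Integrable (f j j') (gv2_nu K) ∧ ‖∫ x, f j j' x ∂(gv2_nu K)‖ₑ ≤
      ENNReal.ofReal ((4 * Real.pi / ((k : ℝ) - 1)) ^ dg K) *
      (if g • L j' = L j then ∫⁻ u, ∫⁻ u', ‖Ψ j u‖ₑ * ‖Ψ j' u'‖ₑ *
          ENNReal.ofReal (chW (g • zb (β j') u') (zb (β j) u) ^ (-(k : ℝ) / 2)) else 0) := by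
    intro j j'
    obtain ⟨p1, p2⟩ := gv2_pair hk g (β j) (β j') hΨ j j'
    by_cases h' : g • L j' = L j
    · have h3 : ∀ z : Em K → ℍ, f j j' (z, L j') = starRingEnd ℂ (gv2_J k g z) *
          gv2_T k (β j) (Ψ j) (g • z) * starRingEnd ℂ (gv2_T k (β j') (Ψ j') z) := by
        intro z
        simp only [hf, if_true]
        rw [if_pos h']
      constructor
      · apply gv2_intble (L j') (hL j') _ (hz j j')
        simp_rw [h3]
        exact p1
      · rw [gv2_int (L j') (hL j') _ (hz j j'), if_pos h']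
        simp_rw [h3]
        exact p2
    · have h3 : f j j' = fun _ => 0 := by
        ext x
        simp only [hf]
        rw [if_neg h']
        split_ifs <;> rfl
      rw [h3, if_neg h']
      exact ⟨integrable_zero _ _ _, by simp⟩
  simp_rw [h1]
  rw [integral_finsetSum _ (fun j _ => integrable_finsetSum _ (fun j' _ => (h2 j j').1)),
    Finset.mul_sum]
  refine (enorm_sum_le _ _).trans (Finset.sum_le_sum fun j _ => ?_)
  rw [integral_finsetSum _ (fun j' _ => (h2 j j').1), Finset.mul_sum]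
  exact (enorm_sum_le _ _).trans (Finset.sum_le_sum fun j' _ => (h2 j j').2)

open scoped Classical in
/-- the sum over the group -/
theorem gv2_KS (k : ℕ) {J : Type} [Fintype J] (β : J → K)
    (L : J → Lat K) {Ψ : J → (Em K → ℝ) → ℂ} {M V : ℝ} (hΨ : PsB Ψ M V) :
    ∑' g : SL(2, K), (∑ j, ∑ j', if g • L j' = L j then ∫⁻ u, ∫⁻ u', ‖Ψ j u‖ₑ * ‖Ψ j' u'‖ₑ *
          ENNReal.ofReal (chW (g • zb (β j') u') (zb (β j) u) ^ (-(k : ℝ) / 2)) else 0) =
      KS k β L Ψ := by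
  rw [Summable.tsum_finsetSum (fun _ _ => ENNReal.summable), KS]
  apply Finset.sum_congr rfl
  intro j _
  rw [Summable.tsum_finsetSum (fun _ _ => ENNReal.summable)]
  apply Finset.sum_congr rfl
  intro j' _
  have hm : ∀ g : SL(2, K), Measurable (fun p : (Em K → ℝ) × (Em K → ℝ) =>
      ‖Ψ j p.1‖ₑ * ‖Ψ j' p.2‖ₑ *
        ENNReal.ofReal (chW (g • zb (β j') p.2) (zb (β j) p.1) ^ (-(k : ℝ) / 2))) := by
    intro g
    have h1 : (fun p : (Em K → ℝ) × (Em K → ℝ) =>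
        ENNReal.ofReal (chW (g • zb (β j') p.2) (zb (β j) p.1) ^ (-(k : ℝ) / 2))) =
        fun p : (Em K → ℝ) × (Em K → ℝ) => ‖EW k (g • zb (β j') p.2) (zb (β j) p.1)‖ₑ := by
      ext p
      rw [← ofReal_norm, ew_norm]
      rfl
    have h5 : Measurable (fun p : (Em K → ℝ) × (Em K → ℝ) =>
        ENNReal.ofReal (chW (g • zb (β j') p.2) (zb (β j) p.1) ^ (-(k : ℝ) / 2))) := by
      rw [h1]
      apply Measurable.enorm
      apply Continuous.measurable
      exact gv2_ew_c k (((gv2_act_cont g).comp (gv2_zb_cont _)).comp continuous_snd)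
        ((gv2_zb_cont _).comp continuous_fst)
    exact (((hΨ.meas j).comp measurable_fst).enorm.mul
      ((hΨ.meas j').comp measurable_snd).enorm).mul h5
  have h2 : ∑' g : SL(2, K), (if g • L j' = L j then ∫⁻ u, ∫⁻ u', ‖Ψ j u‖ₑ * ‖Ψ j' u'‖ₑ *
      ENNReal.ofReal (chW (g • zb (β j') u') (zb (β j) u) ^ (-(k : ℝ) / 2)) else 0) =
      ∑' g : {g : SL(2, K) // g • L j' = L j}, ∫⁻ u, ∫⁻ u', ‖Ψ j u‖ₑ * ‖Ψ j' u'‖ₑ *
      ENNReal.ofReal (chW (g.1 • zb (β j') u') (zb (β j) u) ^ (-(k : ℝ) / 2)) := by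
    have h3 := tsum_subtype {g : SL(2, K) | g • L j' = L j} (fun g => ∫⁻ u, ∫⁻ u', ‖Ψ j u‖ₑ * ‖Ψ j' u'‖ₑ *
      ENNReal.ofReal (chW (g • zb (β j') u') (zb (β j) u) ^ (-(k : ℝ) / 2)))
    refine Eq.trans ?_ h3.symm
    apply tsum_congr
    intro g
    by_cases h : g • L j' = L j
    · rw [if_pos h, Set.indicator_of_mem (show g ∈ {g : SL(2, K) | g • L j' = L j} from h)]
    · rw [if_neg h, Set.indicator_of_notMem (show g ∉ {g : SL(2, K) | g • L j' = L j} from h)]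
  rw [h2]
  have h4 : ∀ u : Em K → ℝ, ∫⁻ u', ‖Ψ j u‖ₑ * ‖Ψ j' u'‖ₑ *
      ∑' g : {g : SL(2, K) // g • L j' = L j},
        ENNReal.ofReal (chW (g.1 • zb (β j') u') (zb (β j) u) ^ (-(k : ℝ) / 2)) =
      ∑' g : {g : SL(2, K) // g • L j' = L j}, ∫⁻ u', ‖Ψ j u‖ₑ * ‖Ψ j' u'‖ₑ *
        ENNReal.ofReal (chW (g.1 • zb (β j') u') (zb (β j) u) ^ (-(k : ℝ) / 2)) := by
    intro u
    rw [← lintegral_tsum]
    · apply lintegral_congr
      intro u'
      rw [ENNReal.tsum_mul_left]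
    · intro g
      exact ((hm g.1).comp (measurable_const.prodMk measurable_id)).aemeasurable
  simp_rw [h4]
  rw [lintegral_tsum]
  intro g
  exact (hm g.1).lintegral_prod_right'.aemeasurable

/-- the bound for the square of the kernel -/
theorem gv2_main {k : ℕ} (hk : 16 * dg K ≤ k) {J : Type} [Fintype J] (β : J → K)
    (L : J → Lat K) (hL : ∀ j, ∃ g : Gen K, (L j).det = g.out) {Ψ : J → (Em K → ℝ) → ℂ} {M V : ℝ}
    (hΨ : PsB Ψ M V) :
    ‖∫ x : XX K, gv2_K k β L Ψ x * starRingEnd ℂ (kapX k β L Ψ x) ∂(gv2_nu K)‖ₑ ≤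
      ENNReal.ofReal ((4 * Real.pi / ((k : ℝ) - 1)) ^ dg K) * KS k β L Ψ := by
  classical
  have hk16 : 16 ≤ k := by
    have := dg_pos (K := K)
    nlinarith
  have hκ := kap_meas k β L hΨ
  have hm : ∀ g : SL(2, K), Measurable (fun x : XX K => starRingEnd ℂ (gv2_J k g x.1) *
      kapX k β L Ψ (g • x) * starRingEnd ℂ (kapX k β L Ψ x)) := by
    intro g
    apply Measurable.mul
    · apply Measurable.mul
      · exact Complex.continuous_conj.measurable.comp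
          ((gv2_J_cont k g).measurable.comp measurable_fst)
      · exact hκ.comp (gv2_smul_meas g)
    · exact Complex.continuous_conj.measurable.comp hκ
  have h1 : ∀ x : XX K, gv2_K k β L Ψ x * starRingEnd ℂ (kapX k β L Ψ x) =
      ∑' g : SL(2, K), starRingEnd ℂ (gv2_J k g x.1) * kapX k β L Ψ (g • x) *
        starRingEnd ℂ (kapX k β L Ψ x) := by
    intro x
    rw [tsum_mul_right, gv2_K]
  simp_rw [h1]
  rw [integral_tsum (fun g => (hm g).aestronglyMeasurable)]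
  · refine enorm_tsum_le_tsum_enorm.trans ?_
    refine (ENNReal.tsum_le_tsum fun g => gv2_Ig hk16 g β L hL hΨ).trans ?_
    rw [ENNReal.tsum_mul_left, gv2_KS k β L hΨ]
  · rw [← lintegral_tsum (fun g => (hm g).enorm.aemeasurable)]
    refine ne_of_lt (lt_of_le_of_lt (lintegral_mono fun x => ?_) (gv2_two hk β L hΨ))
    apply le_of_eq
    show ∑' g : SL(2, K), _ = _
    rw [gv2_S, ← ENNReal.tsum_mul_left]
    apply tsum_congr
    intro g
    rw [enorm_mul, enorm_mul, gv2_conj_one, one_mul, mul_comm]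
    congr 1
    rw [← ofReal_norm, RCLike.norm_conj, ofReal_norm]

theorem gv2_bdd_L2 {X : Type} [MeasurableSpace X] {μ : Measure X} {f g : X → ℂ}
    (hf : MemLp f 2 μ) (hg : MemLp g 2 μ) :
    ‖∫ x, f x * starRingEnd ℂ (g x) ∂μ‖ ^ 2 ≤ (∫ x, ‖f x‖ ^ 2 ∂μ) * ∫ x, ‖g x‖ ^ 2 ∂μ := by
  have h3 := integral_mul_norm_le_Lp_mul_Lq (μ := μ) (f := f)
    (g := g) Real.HolderConjugate.two_two (by simpa using hf) (by simpa using hg)
  have h4 : ‖∫ w, f w * starRingEnd ℂ (g w) ∂μ‖ ≤ ∫ w, ‖f w‖ * ‖g w‖ ∂μ := by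
    refine (norm_integral_le_integral_norm _).trans (le_of_eq ?_)
    congr 1
    ext w
    rw [norm_mul, RCLike.norm_conj]
  have h5 := h4.trans h3
  have hA : 0 ≤ ∫ w, ‖f w‖ ^ 2 ∂μ := integral_nonneg (fun w => by positivity)
  have hB : 0 ≤ ∫ w, ‖g w‖ ^ 2 ∂μ := integral_nonneg (fun w => by positivity)
  have h6 := pow_le_pow_left₀ (norm_nonneg _) h5 2
  refine h6.trans (le_of_eq ?_)
  rw [mul_pow]
  simp only [Real.rpow_two]
  rw [← Real.rpow_natCast, ← Real.rpow_natCast, ← Real.rpow_mul hA, ← Real.rpow_mul hB]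
  norm_num

theorem pretrace (ω : ExW K) {k : ℕ} (hk : 16 * dg K ≤ k) {F : (Em K → ℍ) → Lat K → ℂ}
    (hF : IsForm k F) {J : Type} [Fintype J] (β : J → K) (L : J → Lat K)
    (hL : ∀ j, ∃ g : Gen K, (L j).det = g.out) {Ψ : J → (Em K → ℝ) → ℂ} {M V : ℝ}
    (hΨ : PsB Ψ M V) (hfin : KS k β L Ψ < ∞) :
    ‖Lf k β L Ψ F‖ ^ 2 ≤ (((k : ℝ) - 1) / (4 * Real.pi)) ^ dg K * (KS k β L Ψ).toReal *
      pn ω k F := by
  have hk16 : 16 ≤ k := by
    have := dg_pos (K := K)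
    nlinarith
  have hfinM : IsFiniteMeasure (mX ω) := mX_fin ω
  have hκ := kap_meas k β L hΨ
  have hKm := gv2_K_meas k β L hΨ
  obtain ⟨hI, hLf⟩ := gv2_step1 hk16 hF β L hL hΨ
  obtain ⟨C, hC0, hC⟩ := pf_bdd hF
  have hPm := pf_meas hF
  have hJm : ∀ g : SL(2, K), Measurable (fun x : XX K => gv2_J k g x.1) :=
    fun g => (gv2_J_cont k g).measurable.comp measurable_fst
  -- unfolding for the form
  have hu1 := (unf_k (gv2_nu K) gv2_nu_act ω.meas ω.nn ω.ex hPm hκ hI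
    (j := fun g x => gv2_J k g x.1) hJm (fun g x => gv2_J_norm k g x.1)
    (fun g x => gv2_J_pf hF g x.1 x.2)).2
  have hconjK : ∀ (P : ℂ) (x : XX K), ∑' g : SL(2, K), P * starRingEnd ℂ
      (starRingEnd ℂ (gv2_J k g x.1) * kapX k β L Ψ (g • x)) =
      P * starRingEnd ℂ (gv2_K k β L Ψ x) := by
    intro P x
    rw [tsum_mul_left, gv2_K, Complex.conj_tsum]
  simp only [hconjK] at hu1
  -- unfolding for the kernel
  have hKI : Integrable (fun x : XX K => gv2_K k β L Ψ x * starRingEnd ℂ (kapX k β L Ψ x))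
      (gv2_nu K) := by
    refine ⟨(hKm.mul (Complex.continuous_conj.measurable.comp hκ)).aestronglyMeasurable, ?_⟩
    refine lt_of_le_of_lt (lintegral_mono fun x => ?_) (gv2_two hk β L hΨ)
    show ‖gv2_K k β L Ψ x * starRingEnd ℂ (kapX k β L Ψ x)‖ₑ ≤ _
    rw [enorm_mul, mul_comm]
    apply mul_le_mul' _ (gv2_K_le k β L Ψ x)
    rw [← ofReal_norm, RCLike.norm_conj, ofReal_norm]
  have hu2 := (unf_k (gv2_nu K) gv2_nu_act ω.meas ω.nn ω.ex hKm hκ hKI
    (j := fun g x => gv2_J k g x.1) hJm (fun g x => gv2_J_norm k g x.1)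
    (fun g x => gv2_K_act k β L Ψ g x)).2
  simp only [hconjK] at hu2
  -- Cauchy-Schwarz
  have hP2 : MemLp (fun x : XX K => PF k F x.1 x.2) 2 (mX ω) :=
    MemLp.of_bound hPm.aestronglyMeasurable C (Filter.Eventually.of_forall fun x => hC x.1 x.2)
  have hK2 : MemLp (gv2_K k β L Ψ) 2 (mX ω) := by
    refine ⟨hKm.aestronglyMeasurable, ?_⟩
    rw [eLpNorm_lt_top_iff_lintegral_rpow_enorm_lt_top (by norm_num) (by norm_num)]
    refine lt_of_le_of_lt (lintegral_mono fun x => ?_) (gv2_sq ω hk β L hΨ)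
    have h1 : (2 : ℝ≥0∞).toReal = 2 := by norm_num
    rw [h1, ENNReal.rpow_two]
    exact pow_le_pow_left₀ (by simp) (gv2_K_le k β L Ψ x) 2
  have hcs := gv2_bdd_L2 hP2 hK2
  rw [← gv2_mX_int ω (fun x => PF k F x.1 x.2 * starRingEnd ℂ (gv2_K k β L Ψ x))] at hu1
  rw [← gv2_mX_int ω (fun x => gv2_K k β L Ψ x * starRingEnd ℂ (gv2_K k β L Ψ x))] at hu2
  have hKK : ((∫ x, ‖gv2_K k β L Ψ x‖ ^ 2 ∂(mX ω) : ℝ) : ℂ) =
      ∫ x, gv2_K k β L Ψ x * starRingEnd ℂ (kapX k β L Ψ x) ∂(gv2_nu K) := by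
    rw [hu2, ← integral_complex_ofReal]
    congr 1
    ext x
    rw [Complex.mul_conj, Complex.normSq_eq_norm_sq]
  have hmain := gv2_main hk β L hL hΨ
  rw [← hKK] at hmain
  have hcst : 0 ≤ (4 * Real.pi / ((k : ℝ) - 1)) ^ dg K :=
    pow_nonneg (div_nonneg (by positivity) (gv2_k1 hk16).le) _
  have hK0 : 0 ≤ ∫ x, ‖gv2_K k β L Ψ x‖ ^ 2 ∂(mX ω) := integral_nonneg (fun w => by positivity)
  have hKb : ∫ x, ‖gv2_K k β L Ψ x‖ ^ 2 ∂(mX ω) ≤
      (4 * Real.pi / ((k : ℝ) - 1)) ^ dg K * (KS k β L Ψ).toReal := by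
    have h1 : ENNReal.ofReal (∫ x, ‖gv2_K k β L Ψ x‖ ^ 2 ∂(mX ω)) ≤
        ENNReal.ofReal ((4 * Real.pi / ((k : ℝ) - 1)) ^ dg K) * KS k β L Ψ := by
      rw [← ofReal_norm, Complex.norm_real, Real.norm_eq_abs, abs_of_nonneg hK0] at hmain
      exact hmain
    have h2 := ENNReal.toReal_mono (ENNReal.mul_ne_top ENNReal.ofReal_ne_top hfin.ne) h1
    rwa [ENNReal.toReal_ofReal hK0, ENNReal.toReal_mul, ENNReal.toReal_ofReal hcst] at h2
  have hpn : 0 ≤ pn ω k F := integral_nonneg (fun w => by positivity)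
  rw [hLf, norm_mul, mul_pow, Complex.norm_real, Real.norm_eq_abs, sq_abs, hu1]
  have hc0 : 0 ≤ ((k : ℝ) - 1) / (4 * Real.pi) := div_nonneg (gv2_k1 hk16).le (by positivity)
  have hcc : ((((k : ℝ) - 1) / (4 * Real.pi)) ^ dg K) *
      (4 * Real.pi / ((k : ℝ) - 1)) ^ dg K = 1 := by
    rw [← mul_pow]
    have h1 := (gv2_k1 hk16).ne'
    have h2 := Real.pi_ne_zero
    rw [show ((k : ℝ) - 1) / (4 * Real.pi) * (4 * Real.pi / ((k : ℝ) - 1)) = 1 by field_simp,
      one_pow]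
  calc ((((k : ℝ) - 1) / (4 * Real.pi)) ^ dg K) ^ 2 *
        ‖∫ x, PF k F x.1 x.2 * starRingEnd ℂ (gv2_K k β L Ψ x) ∂(mX ω)‖ ^ 2
      ≤ ((((k : ℝ) - 1) / (4 * Real.pi)) ^ dg K) ^ 2 *
        (pn ω k F * ((4 * Real.pi / ((k : ℝ) - 1)) ^ dg K * (KS k β L Ψ).toReal)) := by
        apply mul_le_mul_of_nonneg_left _ (by positivity)
        exact hcs.trans (mul_le_mul_of_nonneg_left hKb hpn)
    _ = ((((k : ℝ) - 1) / (4 * Real.pi)) ^ dg K) * (KS k β L Ψ).toReal * pn ω k F := by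
        linear_combination ((((k : ℝ) - 1) / (4 * Real.pi)) ^ dg K *
          (KS k β L Ψ).toReal * pn ω k F) * hcc


end

end Pool.Agent.HSG
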