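import Pool.Agent.Lib_helper84.HSG.DefsB
import Pool.Agent.Lib_helper84.HSGF.GA1
import Pool.Agent.Lib_helper84.HSGF.GA2
import Pool.Agent.Lib_helper84.HSGF.GB1
import Pool.Agent.Lib_helper84.HSGF.GB2
import Pool.Agent.Lib_helper84.HSGF.GD1
import Pool.Agent.Lib_helper84.HSGF.GH
import Pool.Agent.Lib_helper84.HSGF.GJ1
import Pool.Agent.Lib_helper84.HSGF.GJ2
import Pool.Agent.Lib_helper84.HSGF.GT
import Pool.Agent.Lib_helper84.HSGF.GV2
import Pool.Agent.Lib_helper84.HSGF.HA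
import Pool.Agent.Lib_helper45.HSF.KA
import Pool.Agent.Lib_helper45.HSF.KI
import Pool.Agent.Lib_helper45.HSF.P0

/-! # Block HB (RFM): the large sieve over geodesics, for one form -/

namespace Pool.Agent.HSG

open Complex MeasureTheory Filter Topology UpperHalfPlane NumberField IsDedekindDomain
open scoped nonZeroDivisors MatrixGroups ENNReal

variable {K : Type} [Field K] [NumberField K]

section tr4
variable [IsTotallyReal K]

omit [IsTotallyReal K] in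
theorem hb_shift (γ β : K) (u : Em K → ℝ) : nm γ • zb β u = zb (β + γ) u := by
  funext w
  show (Matrix.GeneralLinearGroup.map (n := Fin 2) w ((nm γ : SL(2, K)) : GL (Fin 2) K)) •
    (zb β u w) = zb (β + γ) u w
  have hdet : 0 < (Matrix.GeneralLinearGroup.map (n := Fin 2) w
      ((nm γ : SL(2, K)) : GL (Fin 2) K)).det.val := by
    simp [nm, Matrix.GeneralLinearGroup.det, Matrix.det_fin_two]
  apply UpperHalfPlane.ext
  rw [UpperHalfPlane.coe_smul_of_det_pos hdet]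
  simp [UpperHalfPlane.num, UpperHalfPlane.denom, nm, zb, WA.vz]
  apply Complex.ext <;> simp

theorem hb_per {k : ℕ} {F : (Em K → ℍ) → Lat K → ℂ} (hF : IsForm k F) {b a : Id K} {γ : K}
    (hγ : γ ∈ (a / b).m) (β : K) (u : Em K → ℝ) :
    PF k F (zb (β + γ) u) (Lat.ds b a) = PF k F (zb β u) (Lat.ds b a) := by
  have h1 := form_act hF (nm γ) (zb β u) (Lat.ds b a)
  rw [hb_shift] at h1
  have h2 : nm γ • Lat.ds b a = Lat.ds b a := by
    rw [act_eq]
    have h3 : (nm γ : SL(2, K))⁻¹ = nm (-γ) := by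
      apply inv_eq_of_mul_eq_one_left
      ext i j
      fin_cases i <;> fin_cases j <;> simp [nm, Matrix.mul_fin_two]
    rw [h3]
    exact ds_nm b a ((a / b).m.neg_mem hγ)
  rw [h2] at h1
  rw [h1]
  have h4 : ∀ w : Em K, lz (((nm γ : SL(2, K)) : GL (Fin 2) K) 1) (zb β u) w = 1 := by
    intro w
    simp [lz, nm]
  simp only [h4]
  simp

omit [IsTotallyReal K] in
theorem hb_cong {c x : Id K} {β β' : K} (h : ExD x c β) (hd : β - β' ∈ x.m) :
    ExD x c β' := by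
  intro t
  rw [← h t]
  constructor
  · rintro ⟨h1, h2⟩
    refine ⟨h1, ?_⟩
    obtain ⟨y, hy⟩ := (mem_m_one t).1 h1
    have h3 := x.m.smul_mem y hd
    have h4 : y • (β - β') = t * (β - β') := by
      rw [← hy]
      rfl
    rw [h4] at h3
    have h5 := x.m.add_mem h2 h3
    have h6 : t * β' + t * (β - β') = t * β := by ring
    rwa [h6] at h5
  · rintro ⟨h1, h2⟩
    refine ⟨h1, ?_⟩
    obtain ⟨y, hy⟩ := (mem_m_one t).1 h1
    have h3 := x.m.smul_mem y hd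
    have h4 : y • (β - β') = t * (β - β') := by
      rw [← hy]
      rfl
    rw [h4] at h3
    have h5 := x.m.sub_mem h2 h3
    have h6 : t * β - t * (β - β') = t * β' := by ring
    rwa [h6] at h5

omit [IsTotallyReal K] in
theorem hb_group {x : Id K} {b : Pr K →₀ ℕ} {B : Finset K} (hB : IsRepQ (x / HS.idl b) x B)
    {S : (Pr K →₀ ℕ) → Finset K} (hS : ∀ c, IsRep x (HS.idl c) (S c))
    {D : Finset (Pr K →₀ ℕ)} (hD : ∀ c, c ≤ b → c ∈ D) {f : K → ℂ}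
    (hf : ∀ β γ, γ ∈ x.m → f (β + γ) = f β) :
    ∑ β ∈ B, f β = ∑ c ∈ D, if c ≤ b then ∑ β ∈ S c, f β else 0 := by
  classical
  have hmem : ∀ c, c ≤ b → ∀ β ∈ S c, β ∈ (x / HS.idl b).m := by
    intro c hc β hβ
    rw [exd_mem ((hS c).ex β hβ) (idl_int b)]
    exact (idl_dvd b c).2 hc
  have hch : ∀ c, c ≤ b → ∀ β ∈ S c, ∃ β' ∈ B, β - β' ∈ x.m := fun c hc β hβ =>
    hB.sur β (hmem c hc β hβ)
  rw [← Finset.sum_filter, Finset.sum_sigma']
  symm
  apply Finset.sum_bij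
    (i := fun (p : (_ : Pr K →₀ ℕ) × K) (hp : p ∈ (D.filter (fun c => c ≤ b)).sigma S) =>
      (hch p.1 (Finset.mem_filter.1 (Finset.mem_sigma.1 hp).1).2 p.2
        (Finset.mem_sigma.1 hp).2).choose)
  · intro p hp
    exact (hch p.1 (Finset.mem_filter.1 (Finset.mem_sigma.1 hp).1).2 p.2
        (Finset.mem_sigma.1 hp).2).choose_spec.1
  · intro p hp p' hp' heq
    have h1 := (hch p.1 (Finset.mem_filter.1 (Finset.mem_sigma.1 hp).1).2 p.2
        (Finset.mem_sigma.1 hp).2).choose_spec.2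
    have h2 := (hch p'.1 (Finset.mem_filter.1 (Finset.mem_sigma.1 hp').1).2 p'.2
        (Finset.mem_sigma.1 hp').2).choose_spec.2
    rw [← heq] at h2
    have h3 : p.2 - p'.2 ∈ x.m := by
      have h4 := x.m.sub_mem h1 h2
      have h5 : ∀ t : K, p.2 - t - (p'.2 - t) = p.2 - p'.2 := fun t => by ring
      rwa [h5] at h4
    have e1 := (hS p.1).ex p.2 (Finset.mem_sigma.1 hp).2
    have e2 := (hS p'.1).ex p'.2 (Finset.mem_sigma.1 hp').2
    have e3 := hb_cong e1 h3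
    have e4 : HS.idl p.1 = HS.idl p'.1 := (exd_self x p'.2).unique e3 e2
    have e5 : p.1 = p'.1 := HS.idl_inj e4
    obtain ⟨c, β⟩ := p
    obtain ⟨c', β'⟩ := p'
    simp only at e5 h3
    subst e5
    have e6 := (hS c).inj β (Finset.mem_sigma.1 hp).2 β' (Finset.mem_sigma.1 hp').2 h3
    subst e6
    rfl
  · intro β hβ
    obtain ⟨c', hc', -⟩ := exd_self x β
    obtain ⟨c, rfl⟩ := idl_sur (exd_int hc')
    have h1 : c ≤ b := by
      rw [← idl_dvd, ← exd_mem hc' (idl_int b)]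
      exact hB.mem β hβ
    obtain ⟨β', hβ', hd⟩ := (hS c).sur β hc'
    have hp : (⟨c, β'⟩ : (_ : Pr K →₀ ℕ) × K) ∈ (D.filter (fun c => c ≤ b)).sigma S :=
      Finset.mem_sigma.2 ⟨Finset.mem_filter.2 ⟨hD c h1, h1⟩, hβ'⟩
    refine ⟨⟨c, β'⟩, hp, ?_⟩
    have h2 := (hch c (Finset.mem_filter.1 (Finset.mem_sigma.1 hp).1).2 β'
        (Finset.mem_sigma.1 hp).2).choose_spec
    refine (hB.inj β hβ _ h2.1 ?_).symm
    have h3 := x.m.add_mem hd h2.2
    have h4 : ∀ t : K, β - β' + (β' - t) = β - t := fun t => by ring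
    rwa [h4] at h3
  · intro p hp
    have h1 := (hch p.1 (Finset.mem_filter.1 (Finset.mem_sigma.1 hp).1).2 p.2
        (Finset.mem_sigma.1 hp).2).choose_spec.2
    have h2 := hf (hch p.1 (Finset.mem_filter.1 (Finset.mem_sigma.1 hp).1).2 p.2
        (Finset.mem_sigma.1 hp).2).choose _ h1
    rw [← h2]
    congr 1
    ring

omit [NumberField K] [IsTotallyReal K] in
theorem hb_zb_cont (β : K) : Continuous (fun u : Em K → ℝ => zb β u) := by
  refine continuous_pi fun w => ?_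
  rw [UpperHalfPlane.isEmbedding_coe.continuous_iff]
  show Continuous (fun u : Em K → ℝ => (⟨w β, Real.exp (u w)⟩ : ℂ))
  have h1 : (fun u : Em K → ℝ => (⟨w β, Real.exp (u w)⟩ : ℂ)) =
      fun u : Em K → ℝ => ((w β : ℝ) : ℂ) + ((Real.exp (u w) : ℝ) : ℂ) * Complex.I := by
    funext u
    apply Complex.ext <;> simp [-Complex.ofReal_exp]
  rw [h1]
  fun_prop

theorem hb_integrable {k : ℕ} {F : (Em K → ℍ) → Lat K → ℂ} (hF : IsForm k F) (β : K) (L : Lat K)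
    {g : (Em K → ℝ) → ℂ} (hg : Measurable g) {M V : ℝ} (hM : ∀ u, ‖g u‖ ≤ M)
    (hV : ∀ u, g u ≠ 0 → ∀ w, |u w| ≤ V) :
    Integrable (fun u => g u * PF k F (zb β u) L) := by
  obtain ⟨C, hC0, hC⟩ := pf_bdd hF
  have hc : Continuous (fun u : Em K → ℝ => PF k F (zb β u) L) :=
    (pf_cont hF L).comp (hb_zb_cont β)
  have hmeas : AEStronglyMeasurable (fun u => g u * PF k F (zb β u) L) volume :=
    (hg.mul hc.measurable).aestronglyMeasurable
  set s : Set (Em K → ℝ) := Set.Icc (fun _ => -V) (fun _ => V) with hs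
  have hfin : volume s < ∞ := isCompact_Icc.measure_lt_top
  have h1 : IntegrableOn (fun u => g u * PF k F (zb β u) L) s := by
    apply IntegrableOn.of_bound hfin hmeas.restrict (M * C)
    refine Filter.Eventually.of_forall fun u => ?_
    rw [norm_mul]
    exact mul_le_mul (hM u) (hC _ _) (norm_nonneg _) ((norm_nonneg _).trans (hM u))
  refine (integrableOn_iff_integrable_of_support_subset ?_).1 h1
  intro u hu
  have h2 : g u ≠ 0 := by
    intro h0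
    apply hu
    simp only [h0, zero_mul]
  have h3 := hV u h2
  exact ⟨fun w => (abs_le.1 (h3 w)).1, fun w => (abs_le.1 (h3 w)).2⟩

theorem hb_box {R0 : ℝ} (ρ : UW K R0) {V t : ℝ} {u : Em K → ℝ} (hρ : ρ.ρ u ≠ 0)
    (hV : |∑ w, u w + t| ≤ V) (w : Em K) : |u w| ≤ |ρ.R| + (V + |t|) := by
  have h1 := ρ.supp u hρ w
  have hd : (1 : ℝ) ≤ dg K := by exact_mod_cast dg_pos (K := K)
  have h2 : |∑ v, u v| ≤ V + |t| := by
    have e1 : ∑ v, u v = (∑ v, u v + t) - t := by ring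
    rw [e1]
    exact (abs_sub _ _).trans (add_le_add hV le_rfl)
  have h3 : |(∑ v, u v) / (dg K : ℝ)| ≤ V + |t| := by
    rw [abs_div, abs_of_pos (by linarith : (0 : ℝ) < dg K)]
    exact (div_le_self (abs_nonneg _) hd).trans h2
  have h4 : u w = (u w - (∑ v, u v) / (dg K : ℝ)) + (∑ v, u v) / (dg K : ℝ) := by ring
  rw [h4]
  refine (abs_add_le _ _).trans (add_le_add (h1.trans (le_abs_self _)) h3)

/-- the bound for the kernel sum, inserted in the pre-trace inequality -/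
theorem hb_core (cu : Cusps K) {R0 : ℝ} (ρ : UW K R0) (ω : ExW K)
    [Fintype (NCl K)] : ∃ (C E : ℝ) (k₀ : ℕ), 0 < C ∧ 0 < E ∧
    ∀ k : ℕ, k₀ ≤ k → ∀ {J : Type} [Fintype J] (G : GFam cu J) (Φ : J → ℝ → ℂ) (X : ℕ) (M V : ℝ),
    1 ≤ X → 0 ≤ V → (∀ j, nI (G.c j) ≤ X) → (∀ j, Measurable (Φ j)) → (∀ j v, ‖Φ j v‖ ≤ M) →
    (∀ j v, V < |v| → Φ j v = 0) →
    ∀ {F : (Em K → ℍ) → Lat K → ℂ}, IsForm k F →
    ‖∑ j, ∫ u : Em K → ℝ, (ρ.ρ u : ℂ) *
        Φ j (∑ w, u w + Real.log (nI (cu.b (G.κ j) / cu.a (G.κ j)))) *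
          PF k F (zb (G.β j) u) (cu.L (G.κ j))‖ ^ 2 ≤
      C * ((k : ℝ) ^ ((dg K : ℝ) / 2) * (∑ j, ∫ v, ‖Φ j v‖ ^ 2) +
        (M * Fintype.card J) ^ 2 * (X : ℝ) ^ E * Real.exp (E * V)) * pn ω k F := by
  obtain ⟨C, E, k₀, hC, hE, hks⟩ := ks_bound cu ρ
  refine ⟨C, E, max k₀ (max (16 * dg K) 1), hC, hE, ?_⟩
  intro k hk J _ G Φ X M V hX hV hc hm hb hs F hF
  have hk1 : k₀ ≤ k := (le_max_left _ _).trans hk
  have hk2 : 16 * dg K ≤ k := ((le_max_left _ _).trans (le_max_right _ _)).trans hk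
  have hk3 : 1 ≤ k := ((le_max_right _ _).trans (le_max_right _ _)).trans hk
  have hk0 : (0 : ℝ) < k := by exact_mod_cast hk3
  set t : NCl K → ℝ := fun κ => Real.log (nI (cu.b κ / cu.a κ)) with ht
  set Ψ : J → (Em K → ℝ) → ℂ := fun j u => (ρ.ρ u : ℂ) * Φ j (∑ w, u w + t (G.κ j)) with hΨd
  have hmeasS : Measurable (fun u : Em K → ℝ => ∑ w, u w) := by fun_prop
  have hΨ : PsB Ψ (|M|) (|ρ.R| + (V + ∑ κ, |t κ|)) := by
    refine ⟨fun j => ?_, fun j u => ?_, fun j u hu w => ?_⟩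
    · exact (Complex.measurable_ofReal.comp ρ.meas).mul ((hm j).comp (hmeasS.add_const _))
    · simp only [hΨd]
      rw [norm_mul, Complex.norm_real, Real.norm_eq_abs, abs_of_nonneg (ρ.nn u)]
      calc ρ.ρ u * ‖Φ j (∑ w, u w + t (G.κ j))‖ ≤ 1 * |M| :=
            mul_le_mul (ρ.le u) ((hb j _).trans (le_abs_self M)) (norm_nonneg _) zero_le_one
        _ = |M| := one_mul _
    · have h1 : ρ.ρ u ≠ 0 := by
        intro h0
        apply hu
        simp only [hΨd, h0, Complex.ofReal_zero, zero_mul]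
      have h2 : |∑ w, u w + t (G.κ j)| ≤ V := by
        by_contra hcon
        push Not at hcon
        apply hu
        simp only [hΨd, hs j _ hcon, mul_zero]
      refine (hb_box ρ h1 h2 w).trans ?_
      have h3 : |t (G.κ j)| ≤ ∑ κ, |t κ| :=
        Finset.single_le_sum (f := fun κ => |t κ|) (fun κ _ => abs_nonneg _) (Finset.mem_univ _)
      linarith
  have hK := hks k hk1 G Φ X M V hX hV hc hm hb hs
  have hdet : ∀ j, ∃ g : Gen K, (cu.L (G.κ j)).det = g.out := by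
    intro j
    obtain ⟨g, hg⟩ := cu.rr (G.κ j)
    refine ⟨g, ?_⟩
    rw [← hg]
    exact det_ds _ _
  have hpt := pretrace ω hk2 hF G.β (fun j => cu.L (G.κ j)) hdet hΨ
    (lt_of_le_of_lt hK ENNReal.ofReal_lt_top)
  set A := (k : ℝ) ^ (-(dg K : ℝ) / 2) * (∑ j, ∫ v, ‖Φ j v‖ ^ 2) +
        (M * Fintype.card J) ^ 2 * (X : ℝ) ^ E * Real.exp (E * V) *
          (k : ℝ) ^ (-(dg K : ℝ)) with hA
  have hI : 0 ≤ ∑ j, ∫ v, ‖Φ j v‖ ^ 2 :=
    Finset.sum_nonneg fun j _ => integral_nonneg fun v => by positivity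
  have hA0 : 0 ≤ A := by positivity
  have hKS : (KS k G.β (fun j => cu.L (G.κ j)) Ψ).toReal ≤ C * A :=
    ENNReal.toReal_le_of_le_ofReal (by positivity) hK
  have hpn := pn_nonneg ω k F
  have hL : Lf k G.β (fun j => cu.L (G.κ j)) Ψ F = ∑ j, ∫ u : Em K → ℝ, (ρ.ρ u : ℂ) *
        Φ j (∑ w, u w + Real.log (nI (cu.b (G.κ j) / cu.a (G.κ j)))) *
          PF k F (zb (G.β j) u) (cu.L (G.κ j)) := rfl
  rw [← hL]
  refine hpt.trans ?_
  apply mul_le_mul_of_nonneg_right _ hpn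
  have h1 : (((k : ℝ) - 1) / (4 * Real.pi)) ^ dg K ≤ (k : ℝ) ^ dg K := by
    apply pow_le_pow_left₀
    · apply div_nonneg _ (by positivity)
      have : (1 : ℝ) ≤ k := by exact_mod_cast hk3
      linarith
    · rw [div_le_iff₀ (by positivity)]
      nlinarith [Real.pi_gt_three]
  calc (((k : ℝ) - 1) / (4 * Real.pi)) ^ dg K * (KS k G.β (fun j => cu.L (G.κ j)) Ψ).toReal ≤
      (k : ℝ) ^ dg K * (C * A) := mul_le_mul h1 hKS ENNReal.toReal_nonneg (by positivity)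
    _ = C * ((k : ℝ) ^ dg K * A) := by ring
    _ = _ := by
      congr 1
      rw [hA, mul_add]
      have e1 : (k : ℝ) ^ dg K * ((k : ℝ) ^ (-(dg K : ℝ) / 2) * ∑ j, ∫ v, ‖Φ j v‖ ^ 2) =
          (k : ℝ) ^ ((dg K : ℝ) / 2) * ∑ j, ∫ v, ‖Φ j v‖ ^ 2 := by
        rw [← mul_assoc, ← Real.rpow_natCast, ← Real.rpow_add hk0]
        congr 2
        ring
      have e2 : (k : ℝ) ^ dg K * (k : ℝ) ^ (-(dg K : ℝ)) = 1 := by
        rw [← Real.rpow_natCast, ← Real.rpow_add hk0, add_neg_cancel, Real.rpow_zero]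
      rw [e1]
      congr 1
      calc (k : ℝ) ^ dg K * ((M * Fintype.card J) ^ 2 * (X : ℝ) ^ E * Real.exp (E * V) *
          (k : ℝ) ^ (-(dg K : ℝ))) = ((k : ℝ) ^ dg K * (k : ℝ) ^ (-(dg K : ℝ))) *
          ((M * Fintype.card J) ^ 2 * (X : ℝ) ^ E * Real.exp (E * V)) := by ring
        _ = _ := by rw [e2, one_mul]

theorem r_form (cu : Cusps K) {R0 : ℝ} (ρ : UW K R0) (ω : ExW K)
    [Fintype (NCl K)] : ∃ (C E : ℝ) (k₀ : ℕ), 0 < C ∧ 0 < E ∧
    ∀ k : ℕ, k₀ ≤ k → ∀ (T : Finset (Pr K →₀ ℕ)) (Φ : (Pr K →₀ ℕ) → ℝ → ℂ) (X : ℕ) (M V : ℝ),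
    1 ≤ X → 0 ≤ V → (∀ b ∈ T, (HS.PK K).nrm b ≤ X) → (∀ b, Measurable (Φ b)) → (∀ b v, ‖Φ b v‖ ≤ M) →
    (∀ b v, V < |v| → Φ b v = 0) →
    ∀ (B : (Pr K →₀ ℕ) → NCl K → Finset K),
    (∀ b κ, IsRepQ (cu.x κ / HS.idl b) (cu.x κ) (B b κ)) →
    ∀ {F : (Em K → ℍ) → Lat K → ℂ}, IsForm k F →
    ‖∑ b ∈ T, ∑ κ, ∑ β ∈ B b κ, ∫ u : Em K → ℝ, (ρ.ρ u : ℂ) *
        Φ b (∑ w, u w + Real.log (nI (cu.b κ / cu.a κ))) * PF k F (zb β u) (cu.L κ)‖ ^ 2 ≤
      C * ((k : ℝ) ^ ((dg K : ℝ) / 2) * ∑ c ∈ (HS.PK K).BL (X + 1), (phK (HS.idl c) : ℝ) *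
          (∫ v : ℝ, ‖∑ b ∈ T.filter (fun b => c ≤ b), Φ b v‖ ^ 2) +
        (M * T.card) ^ 2 * (X : ℝ) ^ E * Real.exp (E * V)) * pn ω k F := by
  classical
  obtain ⟨C, E, k₀, hC, hE, hcore⟩ := hb_core cu ρ ω
  obtain ⟨c1, C1, hax⟩ := HS.PK_ax K
  set h : ℝ := (Fintype.card (NCl K) : ℝ) with hh
  have hh0 : 0 ≤ h := Nat.cast_nonneg _
  set C2 : ℝ := 1 + h + (|C1| * h) ^ 2 with hC2
  have hC21 : 1 ≤ C2 := by
    have := sq_nonneg (|C1| * h)
    linarith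
  refine ⟨C * C2, E + 4, k₀, by positivity, by linarith, ?_⟩
  intro k hk T Φ X M V hX hV hnT hm hb hs B hB F hF
  -- representatives
  have hSex : ∀ (c : Pr K →₀ ℕ) (κ : NCl K), ∃ S : Finset K, IsRep (cu.x κ) (HS.idl c) S :=
    fun c κ => rep_exists (cu.x κ) (idl_int c)
  choose S hS using hSex
  set D := (HS.PK K).BL (X + 1) with hD
  have hDm : ∀ c, c ∈ D ↔ (HS.PK K).nrm c ≤ X := by
    intro c
    rw [hD, HS.mem_BL]
    omega
  have hTD : ∀ b ∈ T, ∀ c, c ≤ b → c ∈ D := by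
    intro b hbT c hc
    rw [hDm]
    exact (HS.nrm_mono (HS.PK K) hc).trans (hnT b hbT)
  set JJ : Finset ((_ : Pr K →₀ ℕ) × (_ : NCl K) × K) :=
    D.sigma (fun c => (Finset.univ : Finset (NCl K)).sigma (fun κ => S c κ)) with hJJ
  have hJm' : ∀ q : (_ : Pr K →₀ ℕ) × (_ : NCl K) × K, q ∈ JJ → q.1 ∈ D ∧ q.2.2 ∈ S q.1 q.2.1 := by
    intro q h1
    rw [hJJ, Finset.mem_sigma, Finset.mem_sigma] at h1
    exact ⟨h1.1, h1.2.2⟩
  have hJm : ∀ j : JJ, j.1.1 ∈ D ∧ j.1.2.2 ∈ S j.1.1 j.1.2.1 := fun j => hJm' j.1 j.2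
  let G : GFam cu JJ :=
    { κ := fun j => j.1.2.1
      β := fun j => j.1.2.2
      c := fun j => HS.idl j.1.1
      cint := fun j => idl_int _
      den := fun j => (hS _ _).ex _ (hJm j).2
      inj := by
        rintro ⟨⟨c, κ, β⟩, hj⟩ ⟨⟨c', κ', β'⟩, hj'⟩ hκ hd
        simp only at hκ hd
        subst hκ
        have m1 := (hJm ⟨⟨c, κ, β⟩, hj⟩).2
        have m2 := (hJm ⟨⟨c', κ, β'⟩, hj'⟩).2
        simp only at m1 m2
        have e1 := (hS c κ).ex β m1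
        have e2 := (hS c' κ).ex β' m2
        have e3 := hb_cong e1 hd
        have e4 : HS.idl c = HS.idl c' := (exd_self (cu.x κ) β').unique e3 e2
        have e5 : c = c' := HS.idl_inj e4
        subst e5
        have e6 := (hS c κ).inj β m1 β' m2 hd
        subst e6
        rfl }
  set Ψ : (Pr K →₀ ℕ) → ℝ → ℂ := fun c v => ∑ b ∈ T.filter (fun b => c ≤ b), Φ b v with hΨ
  have hM0 : 0 ≤ M := (norm_nonneg _).trans (hb 0 0)
  have key := hcore k hk G (fun j => Ψ j.1.1) X (M * T.card) V hX hV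
    (fun j => by
      show nI (HS.idl j.1.1) ≤ X
      rw [nI_idl]
      exact_mod_cast (hDm _).1 (hJm j).1)
    (fun j => by
      simp only [hΨ]
      exact Finset.measurable_sum _ fun b _ => hm b)
    (fun j v => by
      simp only [hΨ]
      refine (norm_sum_le _ _).trans ?_
      calc ∑ b ∈ T.filter (fun b => j.1.1 ≤ b), ‖Φ b v‖ ≤
          ∑ b ∈ T.filter (fun b => j.1.1 ≤ b), M := Finset.sum_le_sum fun b _ => hb b v
        _ = ((T.filter (fun b => j.1.1 ≤ b)).card : ℝ) * M := by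
            rw [Finset.sum_const, nsmul_eq_mul]
        _ ≤ (T.card : ℝ) * M := by
            apply mul_le_mul_of_nonneg_right _ hM0
            exact_mod_cast Finset.card_filter_le _ _
        _ = _ := mul_comm _ _)
    (fun j v hv => by
      simp only [hΨ]
      exact Finset.sum_eq_zero fun b _ => hs b v hv) hF
  -- sums over the family
  have hsumJ : ∀ {A : Type} [AddCommMonoid A] (f : (Pr K →₀ ℕ) → NCl K → K → A),
      ∑ j : JJ, f j.1.1 j.1.2.1 j.1.2.2 = ∑ c ∈ D, ∑ κ, ∑ β ∈ S c κ, f c κ β := by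
    intro A _ f
    rw [Finset.sum_coe_sort JJ (fun j => f j.1 j.2.1 j.2.2), hJJ, Finset.sum_sigma]
    apply Finset.sum_congr rfl
    intro c _
    rw [Finset.sum_sigma]
  -- the functional
  set t : NCl K → ℝ := fun κ => Real.log (nI (cu.b κ / cu.a κ)) with ht
  set I : (Pr K →₀ ℕ) → NCl K → K → ℂ := fun b κ β => ∫ u : Em K → ℝ, (ρ.ρ u : ℂ) *
        Φ b (∑ w, u w + t κ) * PF k F (zb β u) (cu.L κ) with hI
  have hmeasS : Measurable (fun u : Em K → ℝ => ∑ w, u w) := by fun_prop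
  have hint : ∀ b κ β, Integrable (fun u : Em K → ℝ => (ρ.ρ u : ℂ) *
        Φ b (∑ w, u w + t κ) * PF k F (zb β u) (cu.L κ)) := by
    intro b κ β
    apply hb_integrable hF β (cu.L κ) (M := M) (V := |ρ.R| + (V + |t κ|))
    · exact (Complex.measurable_ofReal.comp ρ.meas).mul ((hm b).comp (hmeasS.add_const _))
    · intro u
      rw [norm_mul, Complex.norm_real, Real.norm_eq_abs, abs_of_nonneg (ρ.nn u)]
      calc ρ.ρ u * ‖Φ b (∑ w, u w + t κ)‖ ≤ 1 * M :=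
            mul_le_mul (ρ.le u) (hb b _) (norm_nonneg _) zero_le_one
        _ = M := one_mul _
    · intro u hu w
      have h1 : ρ.ρ u ≠ 0 := by
        intro h0
        apply hu
        simp only [h0, Complex.ofReal_zero, zero_mul]
      have h2 : |∑ w, u w + t κ| ≤ V := by
        by_contra hcon
        push Not at hcon
        apply hu
        simp only [hs b _ hcon, mul_zero]
      exact hb_box ρ h1 h2 w
  have hL : ∑ b ∈ T, ∑ κ, ∑ β ∈ B b κ, I b κ β =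
      ∑ j : JJ, ∫ u : Em K → ℝ, (ρ.ρ u : ℂ) * Ψ j.1.1 (∑ w, u w + t j.1.2.1) *
        PF k F (zb j.1.2.2 u) (cu.L j.1.2.1) := by
    rw [hsumJ (fun c κ β => ∫ u : Em K → ℝ, (ρ.ρ u : ℂ) * Ψ c (∑ w, u w + t κ) *
        PF k F (zb β u) (cu.L κ))]
    have e1 : ∀ c κ β, (∫ u : Em K → ℝ, (ρ.ρ u : ℂ) * Ψ c (∑ w, u w + t κ) *
        PF k F (zb β u) (cu.L κ)) = ∑ b ∈ T, if c ≤ b then I b κ β else 0 := by
      intro c κ β
      rw [← Finset.sum_filter, ← integral_finset_sum _ fun b _ => hint b κ β]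
      congr 1
      funext u
      simp only [hΨ]
      rw [Finset.mul_sum, Finset.sum_mul]
    simp only [e1]
    have e2 : ∀ b ∈ T, ∀ κ, ∑ β ∈ B b κ, I b κ β =
        ∑ c ∈ D, if c ≤ b then ∑ β ∈ S c κ, I b κ β else 0 := by
      intro b hbT κ
      apply hb_group (hB b κ) (fun c => hS c κ) (hTD b hbT)
      intro β γ hγ
      simp only [hI]
      congr 1
      funext u
      congr 1
      exact hb_per hF hγ β u
    have e3 : ∑ b ∈ T, ∑ κ, ∑ β ∈ B b κ, I b κ β =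
        ∑ b ∈ T, ∑ κ, ∑ c ∈ D, if c ≤ b then ∑ β ∈ S c κ, I b κ β else 0 :=
      Finset.sum_congr rfl fun b hbT => Finset.sum_congr rfl fun κ _ => e2 b hbT κ
    rw [e3]
    have e4 : ∀ c κ, ∑ β ∈ S c κ, ∑ b ∈ T, (if c ≤ b then I b κ β else 0) =
        ∑ b ∈ T, if c ≤ b then ∑ β ∈ S c κ, I b κ β else 0 := by
      intro c κ
      rw [Finset.sum_comm]
      apply Finset.sum_congr rfl
      intro b _
      split_ifs
      · rfl
      · exact Finset.sum_const_zero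
    simp only [e4]
    rw [Finset.sum_comm]
    have e5 : ∀ κ : NCl K, ∑ b ∈ T, ∑ c ∈ D, (if c ≤ b then ∑ β ∈ S c κ, I b κ β else 0) =
        ∑ c ∈ D, ∑ b ∈ T, if c ≤ b then ∑ β ∈ S c κ, I b κ β else 0 := fun κ => Finset.sum_comm
    simp only [e5]
    exact Finset.sum_comm
  have hLHS : ∑ b ∈ T, ∑ κ, ∑ β ∈ B b κ, ∫ u : Em K → ℝ, (ρ.ρ u : ℂ) *
        Φ b (∑ w, u w + Real.log (nI (cu.b κ / cu.a κ))) * PF k F (zb β u) (cu.L κ) =
      ∑ j : JJ, ∫ u : Em K → ℝ, (ρ.ρ u : ℂ) *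
        Ψ j.1.1 (∑ w, u w + Real.log (nI (cu.b (G.κ j) / cu.a (G.κ j)))) *
          PF k F (zb (G.β j) u) (cu.L (G.κ j)) := hL
  rw [hLHS]
  refine key.trans ?_
  have hpn := pn_nonneg ω k F
  apply mul_le_mul_of_nonneg_right _ hpn
  -- counting
  have hcardS : ∀ c κ, ((S c κ).card : ℝ) = phK (HS.idl c) := fun c κ => rep_card (hS c κ)
  have hJcard : (Fintype.card JJ : ℝ) ≤ (|C1| * h) * (X : ℝ) ^ 2 := by
    have e1 : (Fintype.card JJ : ℝ) = ∑ c ∈ D, ∑ κ : NCl K, ∑ β ∈ S c κ, (1 : ℝ) := by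
      rw [← hsumJ (fun _ _ _ => (1 : ℝ)), Finset.sum_const, Finset.card_univ, nsmul_eq_mul,
        mul_one]
    rw [e1]
    calc ∑ c ∈ D, ∑ κ : NCl K, ∑ β ∈ S c κ, (1 : ℝ) ≤ ∑ c ∈ D, ∑ _κ : NCl K, (X : ℝ) := by
          apply Finset.sum_le_sum
          intro c hc
          apply Finset.sum_le_sum
          intro κ _
          rw [Finset.sum_const, nsmul_eq_mul, mul_one, hcardS]
          refine (phK_le (idl_int c)).2.trans ?_
          rw [nI_idl]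
          exact_mod_cast (hDm c).1 hc
      _ = (D.card : ℝ) * (h * X) := by
          rw [Finset.sum_const, Finset.sum_const, Finset.card_univ, nsmul_eq_mul, nsmul_eq_mul]
      _ ≤ (|C1| * X) * (h * X) := by
          apply mul_le_mul_of_nonneg_right _ (by positivity)
          refine (hax.cnt X).trans ?_
          exact mul_le_mul_of_nonneg_right (le_abs_self C1) (Nat.cast_nonneg X)
      _ = _ := by ring
  have hsumI : ∑ j : JJ, ∫ v, ‖Ψ j.1.1 v‖ ^ 2 =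
      h * ∑ c ∈ D, (phK (HS.idl c) : ℝ) * ∫ v, ‖Ψ c v‖ ^ 2 := by
    rw [hsumJ (fun c _ _ => ∫ v, ‖Ψ c v‖ ^ 2), Finset.mul_sum]
    apply Finset.sum_congr rfl
    intro c _
    have e1 : ∀ κ : NCl K, ∑ β ∈ S c κ, ∫ v, ‖Ψ c v‖ ^ 2 =
        (phK (HS.idl c) : ℝ) * ∫ v, ‖Ψ c v‖ ^ 2 := by
      intro κ
      rw [Finset.sum_const, nsmul_eq_mul, hcardS]
    simp only [e1]
    rw [Finset.sum_const, Finset.card_univ, nsmul_eq_mul]
  set Q := ∑ c ∈ D, (phK (HS.idl c) : ℝ) * ∫ v, ‖Ψ c v‖ ^ 2 with hQ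
  have hQ0 : 0 ≤ Q := Finset.sum_nonneg fun c _ =>
    mul_nonneg (Nat.cast_nonneg _) (integral_nonneg fun v => by positivity)
  have hX1 : (1 : ℝ) ≤ X := by exact_mod_cast hX
  have hX0 : (0 : ℝ) < X := by linarith
  rw [hsumI]
  have f1 : (k : ℝ) ^ ((dg K : ℝ) / 2) * (h * Q) ≤ C2 * ((k : ℝ) ^ ((dg K : ℝ) / 2) * Q) := by
    have e0 : 0 ≤ (k : ℝ) ^ ((dg K : ℝ) / 2) * Q := mul_nonneg (by positivity) hQ0
    have e1 : h ≤ C2 := by
      have := sq_nonneg (|C1| * h)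
      linarith
    calc (k : ℝ) ^ ((dg K : ℝ) / 2) * (h * Q) = h * ((k : ℝ) ^ ((dg K : ℝ) / 2) * Q) := by ring
      _ ≤ _ := mul_le_mul_of_nonneg_right e1 e0
  have f2 : (M * T.card * Fintype.card JJ) ^ 2 * (X : ℝ) ^ E * Real.exp (E * V) ≤
      C2 * ((M * T.card) ^ 2 * (X : ℝ) ^ (E + 4) * Real.exp ((E + 4) * V)) := by
    have e1 : (M * T.card * Fintype.card JJ) ^ 2 ≤
        (M * T.card) ^ 2 * ((|C1| * h) ^ 2 * (X : ℝ) ^ 4) := by
      rw [mul_pow]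
      apply mul_le_mul_of_nonneg_left _ (sq_nonneg _)
      calc (Fintype.card JJ : ℝ) ^ 2 ≤ ((|C1| * h) * (X : ℝ) ^ 2) ^ 2 :=
            pow_le_pow_left₀ (Nat.cast_nonneg _) hJcard 2
        _ = _ := by ring
    have e2 : (X : ℝ) ^ (E + 4) = (X : ℝ) ^ E * (X : ℝ) ^ 4 := by
      rw [Real.rpow_add hX0]
      congr 1
      exact_mod_cast Real.rpow_natCast (X : ℝ) 4
    have e3 : Real.exp (E * V) ≤ Real.exp ((E + 4) * V) := by
      apply Real.exp_le_exp.2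
      nlinarith
    have e4 : (|C1| * h) ^ 2 ≤ C2 := by linarith
    rw [e2]
    calc (M * T.card * Fintype.card JJ) ^ 2 * (X : ℝ) ^ E * Real.exp (E * V) ≤
        ((M * T.card) ^ 2 * ((|C1| * h) ^ 2 * (X : ℝ) ^ 4)) * (X : ℝ) ^ E *
          Real.exp ((E + 4) * V) := by
          apply mul_le_mul _ e3 (by positivity) (by positivity)
          exact mul_le_mul_of_nonneg_right e1 (by positivity)
      _ = (|C1| * h) ^ 2 * ((M * T.card) ^ 2 * ((X : ℝ) ^ E * (X : ℝ) ^ 4) *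
          Real.exp ((E + 4) * V)) := by ring
      _ ≤ _ := mul_le_mul_of_nonneg_right e4 (by positivity)
  calc C * ((k : ℝ) ^ ((dg K : ℝ) / 2) * (h * Q) +
        (M * T.card * Fintype.card JJ) ^ 2 * (X : ℝ) ^ E * Real.exp (E * V)) ≤
      C * (C2 * ((k : ℝ) ^ ((dg K : ℝ) / 2) * Q) +
        C2 * ((M * T.card) ^ 2 * (X : ℝ) ^ (E + 4) * Real.exp ((E + 4) * V))) :=
        mul_le_mul_of_nonneg_left (add_le_add f1 f2) hC.le
    _ = _ := by ring

end tr4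


end Pool.Agent.HSG
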