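import Pool.Agent.Lib_helper84.HSG.DefsB
import Pool.Agent.Lib_helper84.HSGF.GA1
import Pool.Agent.Lib_helper84.HSGF.GA3
import Pool.Agent.Lib_helper84.HSGF.GD1
import Pool.Agent.Lib_helper84.HSGF.GF2
import Pool.Agent.Lib_helper84.HSGF.GG
import Pool.Agent.Lib_helper84.HSGF.GH
import Pool.Agent.Lib_helper84.HSGF.GJ1
import Pool.Agent.Lib_helper84.HSGF.GJ2
import Pool.Agent.Lib_helper84.HSGF.GL1
import Pool.Agent.Lib_helper84.HSGF.GL2
import Pool.Agent.Lib_helper84.HSGF.GM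
import Pool.Agent.Lib_helper84.HSGF.GN3
import Pool.Agent.Lib_helper84.HSGF.GO
import Pool.Agent.Lib_helper84.HSGF.GR3
import Pool.Agent.Lib_helper84.HSGF.GS
import Pool.Agent.Lib_helper84.HSGF.GT
import Pool.Agent.Lib_helper84.HSGF.HB
import Pool.Agent.Lib_helper84.HSGF.HD
import Pool.Agent.Lib_helper84.HSGF.HF
import Pool.Agent.Lib_helper84.HSGF.HG
import Pool.Agent.Lib_helper45.HSF.KI
import Pool.Agent.Lib_helper45.HSF.P0

/-! # Block HH: the families -/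

namespace Pool.Agent.HSG

open Complex MeasureTheory Filter Topology UpperHalfPlane NumberField IsDedekindDomain
open scoped nonZeroDivisors MatrixGroups ENNReal

variable {K : Type} [Field K] [NumberField K]

theorem hh_omk {k : ℕ} (hk : 2 ≤ k) : 0 < WA.omk k := by
  unfold WA.omk
  have h : (2 : ℝ) ≤ k := by exact_mod_cast hk
  have := Real.Gamma_pos_of_pos (show (0 : ℝ) < (k : ℝ) - 1 by linarith)
  positivity

theorem hh_gk {k : ℕ} (hk : 2 ≤ k) : 0 < WA.gk k := by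
  unfold WA.gk
  have h : (2 : ℝ) ≤ k := by exact_mod_cast hk
  have := Real.Gamma_pos_of_pos (show (0 : ℝ) < (k : ℝ) / 2 by linarith)
  positivity

section tr
variable [IsTotallyReal K]

/-- the functional of `r_form` -/
noncomputable def hhR [Fintype (NCl K)] (cu : Cusps K) {R0 : ℝ} (ρ : UW K R0) (k : ℕ)
    (T : Finset (Pr K →₀ ℕ)) (Φ : (Pr K →₀ ℕ) → ℝ → ℂ) (B : (Pr K →₀ ℕ) → NCl K → Finset K)
    (F : (Em K → ℍ) → Lat K → ℂ) : ℂ :=
  ∑ b ∈ T, ∑ κ, ∑ β ∈ B b κ, ∫ u : Em K → ℝ, (ρ.ρ u : ℂ) *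
    Φ b (∑ w, u w + Real.log (nI (cu.b κ / cu.a κ))) * PF k F (zb β u) (cu.L κ)

theorem hh_zb_cont (β : K) : Continuous (fun u : Em K → ℝ => zb β u) := by
  apply continuous_pi
  intro w
  have h : Continuous (fun t : ℝ => WA.vz (w β) t) := by
    rw [UpperHalfPlane.isOpenEmbedding_coe.isInducing.continuous_iff]
    show Continuous (fun t : ℝ => ((⟨w β, Real.exp t⟩ : ℂ)))
    have : (fun t : ℝ => ((⟨w β, Real.exp t⟩ : ℂ))) = fun t : ℝ =>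
        ((w β : ℝ) : ℂ) + ((Real.exp t : ℝ) : ℂ) * Complex.I := by
      funext t
      apply Complex.ext <;> simp [-Complex.ofReal_exp]
    rw [this]
    fun_prop
  exact h.comp (continuous_apply w)

/-- integrability of the integrands -/
theorem hh_int {R0 : ℝ} (ρ : UW K R0) {k : ℕ} {F : (Em K → ℍ) → Lat K → ℂ} (hF : IsForm k F)
    {Φ : ℝ → ℂ} {M V t : ℝ} (hm : Measurable Φ) (hb : ∀ v, ‖Φ v‖ ≤ M)
    (hs : ∀ v, V < |v| → Φ v = 0) (β : K) (L : Lat K) :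
    Integrable (fun u : Em K → ℝ => (ρ.ρ u : ℂ) * Φ (∑ w, u w + t) * PF k F (zb β u) L) := by
  obtain ⟨C, hC0, hC⟩ := pf_bdd hF
  have hd : (1 : ℝ) ≤ dg K := by exact_mod_cast dg_pos (K := K)
  set W : ℝ := (|V| + |t|) / dg K + |ρ.R| with hW
  have hmeas : Measurable (fun u : Em K → ℝ =>
      (ρ.ρ u : ℂ) * Φ (∑ w, u w + t) * PF k F (zb β u) L) := by
    apply Measurable.mul
    · apply Measurable.mul
      · exact Complex.measurable_ofReal.comp ρ.meas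
      · apply hm.comp
        fun_prop
    · exact ((pf_cont hF L).comp (hh_zb_cont β)).measurable
  have hsupp : ∀ u : Em K → ℝ, u ∉ Set.Icc (fun _ : Em K => -W) (fun _ => W) →
      (ρ.ρ u : ℂ) * Φ (∑ w, u w + t) * PF k F (zb β u) L = 0 := by
    intro u hu
    by_contra hne
    apply hu
    have h1 : ρ.ρ u ≠ 0 := by
      intro h
      apply hne
      rw [h]
      simp
    have h2 : |∑ w, u w + t| ≤ V := by
      by_contra h
      push Not at h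
      apply hne
      rw [hs _ h]
      simp
    have h3 := ρ.supp u h1
    have h4 : |∑ w, u w| ≤ |V| + |t| := by
      have h5 : |∑ w, u w| ≤ |∑ w, u w + t| + |t| := by
        have := abs_sub_abs_le_abs_sub (∑ w, u w) (-t)
        have h6 := abs_neg t
        rw [sub_neg_eq_add] at this
        linarith
      linarith [le_abs_self V]
    have h5 : |(∑ w, u w) / (dg K : ℝ)| ≤ (|V| + |t|) / dg K := by
      rw [abs_div, abs_of_pos (by linarith : (0 : ℝ) < dg K)]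
      gcongr
    have h6 : ∀ w, |u w| ≤ W := by
      intro w
      have h7 := h3 w
      have h8 : |u w| ≤ |u w - (∑ v, u v) / (dg K : ℝ)| + |(∑ v, u v) / (dg K : ℝ)| := by
        have := abs_add_le (u w - (∑ v, u v) / (dg K : ℝ)) ((∑ v, u v) / (dg K : ℝ))
        simpa using this
      linarith [le_abs_self ρ.R]
    constructor
    · intro w
      exact (abs_le.mp (h6 w)).1
    · intro w
      exact (abs_le.mp (h6 w)).2
  have hfin : volume (Set.Icc (fun _ : Em K => -W) (fun _ : Em K => W)) < ∞ := by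
    exact isCompact_Icc.measure_lt_top
  rw [← integrableOn_iff_integrable_of_support_subset
    (s := Set.Icc (fun _ : Em K => -W) (fun _ => W))]
  · apply Measure.integrableOn_of_bounded (M := M * C) hfin.ne hmeas.aestronglyMeasurable
    refine Eventually.of_forall fun u => ?_
    rw [norm_mul, norm_mul, Complex.norm_real, Real.norm_eq_abs, abs_of_nonneg (ρ.nn u)]
    have hM : 0 ≤ M := (norm_nonneg _).trans (hb 0)
    calc ρ.ρ u * ‖Φ (∑ w, u w + t)‖ * ‖PF k F (zb β u) L‖ ≤ 1 * M * C := by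
          apply mul_le_mul _ (hC _ _) (norm_nonneg _) (by positivity)
          exact mul_le_mul (ρ.le u) (hb _) (norm_nonneg _) zero_le_one
      _ = M * C := by ring
  · intro u hu
    by_contra h
    exact hu (hsupp u h)

theorem hh_lin [Fintype (NCl K)] (cu : Cusps K) {R0 : ℝ} (ρ : UW K R0) {k : ℕ}
    (T : Finset (Pr K →₀ ℕ)) {Φ : (Pr K →₀ ℕ) → ℝ → ℂ} {M V : ℝ} (hm : ∀ b, Measurable (Φ b))
    (hb : ∀ b v, ‖Φ b v‖ ≤ M) (hs : ∀ b v, V < |v| → Φ b v = 0)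
    (B : (Pr K →₀ ℕ) → NCl K → Finset K) {ι : Type} [Fintype ι]
    {F : ι → (Em K → ℍ) → Lat K → ℂ} (hF : ∀ i, IsForm k (F i)) (c : ι → ℂ) :
    hhR cu ρ k T Φ B (fun z L => ∑ i, c i * F i z L) = ∑ i, c i * hhR cu ρ k T Φ B (F i) := by
  unfold hhR
  simp_rw [Finset.mul_sum]
  conv_rhs => rw [Finset.sum_comm]
  apply Finset.sum_congr rfl
  intro b _
  conv_rhs => rw [Finset.sum_comm]
  apply Finset.sum_congr rfl
  intro κ _
  conv_rhs => rw [Finset.sum_comm]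
  apply Finset.sum_congr rfl
  intro β _
  have h1 : ∀ u : Em K → ℝ, (ρ.ρ u : ℂ) * Φ b (∑ w, u w + Real.log (nI (cu.b κ / cu.a κ))) *
      PF k (fun z L => ∑ i, c i * F i z L) (zb β u) (cu.L κ) =
      ∑ i, c i * ((ρ.ρ u : ℂ) * Φ b (∑ w, u w + Real.log (nI (cu.b κ / cu.a κ))) *
        PF k (F i) (zb β u) (cu.L κ)) := by
    intro u
    unfold PF
    rw [Finset.sum_mul, Finset.mul_sum]
    apply Finset.sum_congr rfl
    intro i _
    ring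
  simp_rw [h1]
  rw [integral_finsetSum]
  · apply Finset.sum_congr rfl
    intro i _
    rw [integral_const_mul]
  · intro i _
    exact (hh_int ρ (hF i) (hm b) (hb b) (hs b) β (cu.L κ)).const_mul (c i)

/-- the data of a family -/
structure HhD (ω : ExW K) (k : ℕ) {ι : Type} (θ : ι → Pr K → ℝ)
    (F : ι → (Em K → ℍ) → Lat K → ℂ) (A : ι → Id K → ℂ) : Prop where
  eig : ∀ i, IsEig k (F i) (θ i)
  co : ∀ i, IsCo k (F i) (A i)
  orth : ∀ i j, i ≠ j → pet ω k (F i) (F j) = 0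
  pn : ∀ i, 0 < pn ω k (F i)

/-- the harmonic weights -/
noncomputable def hhom (ω : ExW K) (k : ℕ) {ι : Type} (F : ι → (Em K → ℍ) → Lat K → ℂ)
    (A : ι → Id K → ℂ) (i : ι) : ℝ :=
  dK K ^ k * WA.omk k ^ dg K * ‖A i 1‖ ^ 2 / pn ω k (F i)

theorem hh_pos {ω : ExW K} {k : ℕ} (hk : 2 ≤ k) {ι : Type} {θ : ι → Pr K → ℝ}
    {F : ι → (Em K → ℍ) → Lat K → ℂ} {A : ι → Id K → ℂ} (D : HhD ω k θ F A) (i : ι) :
    0 < hhom ω k F A i := by
  unfold hhom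
  have h1 := hh_omk hk
  have h2 : 0 < dK K := by linarith [dK_ge (K := K)]
  have h3 : 0 < ‖A i 1‖ := norm_pos_iff.mpr (eig_co (D.eig i) (D.co i)).1
  have h4 := D.pn i
  positivity

/-- the normalised coefficients -/
theorem hh_coef {ω : ExW K} {k : ℕ} {ι : Type} {θ : ι → Pr K → ℝ}
    {F : ι → (Em K → ℍ) → Lat K → ℂ} {A : ι → Id K → ℂ} (D : HhD ω k θ F A) (i : ι)
    (m : Pr K →₀ ℕ) :
    ‖A i (HS.idl m)‖ ^ 2 * nI (HS.idl m) ^ (-((k : ℝ) - 1)) = ‖A i 1‖ ^ 2 * HS.hs (θ i) m ^ 2 := by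
  have h1 := (eig_co (D.eig i) (D.co i)).2 m
  have h2 : (0 : ℝ) < (HS.PK K).nrm m := by exact_mod_cast HS.nrm_pos (HS.PK K) m
  rw [h1, nI_idl, norm_mul, Complex.norm_real, Real.norm_eq_abs, mul_pow, sq_abs, mul_pow,
    ← Real.rpow_natCast (((HS.PK K).nrm m : ℝ) ^ (((k : ℝ) - 1) / 2)), ← Real.rpow_mul h2.le,
    mul_assoc, mul_assoc, ← Real.rpow_add h2]
  have h3 : ((k : ℝ) - 1) / 2 * ((2 : ℕ) : ℝ) + -((k : ℝ) - 1) = 0 := by
    push_cast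
    ring
  rw [h3, Real.rpow_zero, mul_one]

theorem hh_sq {x : ℂ} {r N : ℝ} (hN : 0 ≤ N) (hr : 0 < r) (k : ℕ) :
    ‖x * ((r ^ (-((k : ℝ) - 1) / 2) * √N : ℝ) : ℂ)‖ ^ 2 = ‖x‖ ^ 2 * r ^ (-((k : ℝ) - 1)) * N := by
  rw [norm_mul, Complex.norm_real, Real.norm_eq_abs, mul_pow, sq_abs, mul_pow, Real.sq_sqrt hN,
    ← Real.rpow_natCast (r ^ (-((k : ℝ) - 1) / 2)), ← Real.rpow_mul hr.le, mul_assoc]
  congr 3
  push_cast
  ring

theorem hh_LS {ω : ExW K} {k : ℕ} (hk : 2 ≤ k) {ι : Type} [Fintype ι] {θ : ι → Pr K → ℝ}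
    {F : ι → (Em K → ℍ) → Lat K → ℂ} {A : ι → Id K → ℂ} (D : HhD ω k θ F A) {C : ℝ}
    (hC0 : 0 < C) (hC : ∀ {F : (Em K → ℍ) → Lat K → ℂ} {A : Id K → ℂ}, IsForm k F → IsCo k F A →
    ∀ (Y : ℝ) (s : Finset (Id K)), 0 ≤ Y → (∀ m ∈ s, IsInt m ∧ nI m ≤ Y) →
    ∑ m ∈ s, ‖A m‖ ^ 2 * nI m ^ (-((k : ℝ) - 1)) * (dK K ^ k * WA.omk k ^ dg K) ≤
      C * (1 + Y / (k : ℝ) ^ dg K) * pn ω k F) (Y : ℕ) (c : (Pr K →₀ ℕ) → ℂ) :
    ∑ i, hhom ω k F A i * ‖∑ m ∈ (HS.PK K).BL (Y + 1), c m * (HS.hs (θ i) m : ℂ)‖ ^ 2 ≤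
      C * (1 + Y / (k : ℝ) ^ dg K) * ∑ m ∈ (HS.PK K).BL (Y + 1), ‖c m‖ ^ 2 := by
  classical
  have hN : 0 ≤ dK K ^ k * WA.omk k ^ dg K := by
    have h1 := hh_omk hk
    have h2 : 0 < dK K := by linarith [dK_ge (K := K)]
    positivity
  have hB : 0 ≤ C * (1 + Y / (k : ℝ) ^ dg K) := by positivity
  have key := bessel_dual ω ((HS.PK K).BL (Y + 1)) (fun i => (D.eig i).form) D.orth D.pn hB
    (fun m i => A i (HS.idl m) * ((nI (HS.idl m) ^ (-((k : ℝ) - 1) / 2) *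
      √(dK K ^ k * WA.omk k ^ dg K) : ℝ) : ℂ)) ?_ c
  · refine le_trans (le_of_eq ?_) key
    apply Finset.sum_congr rfl
    intro i _
    have h1 : ∀ m : Pr K →₀ ℕ, A i (HS.idl m) * ((nI (HS.idl m) ^ (-((k : ℝ) - 1) / 2) *
        √(dK K ^ k * WA.omk k ^ dg K) : ℝ) : ℂ) =
        A i 1 * ((√(dK K ^ k * WA.omk k ^ dg K) : ℝ) : ℂ) * (HS.hs (θ i) m : ℂ) := by
      intro m
      have h2 : (0 : ℝ) < (HS.PK K).nrm m := by exact_mod_cast HS.nrm_pos (HS.PK K) m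
      rw [(eig_co (D.eig i) (D.co i)).2 m, nI_idl]
      have h3 : ((HS.PK K).nrm m : ℝ) ^ (((k : ℝ) - 1) / 2) *
          ((HS.PK K).nrm m : ℝ) ^ (-((k : ℝ) - 1) / 2) = 1 := by
        rw [← Real.rpow_add h2]
        have : ((k : ℝ) - 1) / 2 + -((k : ℝ) - 1) / 2 = 0 := by ring
        rw [this, Real.rpow_zero]
      have h4 : ((((HS.PK K).nrm m : ℝ) ^ (((k : ℝ) - 1) / 2) : ℝ) : ℂ) *
          ((((HS.PK K).nrm m : ℝ) ^ (-((k : ℝ) - 1) / 2) : ℝ) : ℂ) = 1 := by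
        rw [← Complex.ofReal_mul, h3, Complex.ofReal_one]
      rw [Complex.ofReal_mul, Complex.ofReal_mul]
      linear_combination (A i 1 * (HS.hs (θ i) m : ℂ) *
        ((√(dK K ^ k * WA.omk k ^ dg K) : ℝ) : ℂ)) * h4
    simp only [h1]
    have h5 : ∑ m ∈ (HS.PK K).BL (Y + 1), c m * (A i 1 *
        ((√(dK K ^ k * WA.omk k ^ dg K) : ℝ) : ℂ) * (HS.hs (θ i) m : ℂ)) =
        (A i 1 * ((√(dK K ^ k * WA.omk k ^ dg K) : ℝ) : ℂ)) *
          ∑ m ∈ (HS.PK K).BL (Y + 1), c m * (HS.hs (θ i) m : ℂ) := by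
      rw [Finset.mul_sum]
      apply Finset.sum_congr rfl
      intro m _
      ring
    rw [h5, norm_mul, norm_mul, Complex.norm_real, Real.norm_eq_abs, mul_pow, mul_pow, sq_abs,
      Real.sq_sqrt hN, hhom]
    ring
  · intro a
    have hf := form_lin Finset.univ a (fun i _ => (D.eig i).form)
    have hc := co_lin Finset.univ a (fun i _ => D.co i)
    have h6 := hC hf hc Y (((HS.PK K).BL (Y + 1)).image HS.idl) (Nat.cast_nonneg Y) ?_
    · refine le_trans (le_of_eq ?_) h6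
      rw [Finset.sum_image (fun x _ y _ h => HS.idl_inj h)]
      apply Finset.sum_congr rfl
      intro m _
      rw [← hh_sq hN (nI_pos _) k, Finset.sum_mul]
      congr 2
      apply Finset.sum_congr rfl
      intro i _
      ring
    · intro m hm
      rw [Finset.mem_image] at hm
      obtain ⟨n, hn, rfl⟩ := hm
      rw [HS.mem_BL] at hn
      refine ⟨idl_int n, ?_⟩
      rw [nI_idl]
      exact_mod_cast Nat.lt_succ_iff.mp hn

theorem hh_PN {ω : ExW K} {k : ℕ} (hk : 2 ≤ k) {ι : Type} [Fintype ι] {θ : ι → Pr K → ℝ}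
    {F : ι → (Em K → ℍ) → Lat K → ℂ} {A : ι → Id K → ℂ} (D : HhD ω k θ F A) {C : ℝ}
    (hC : ∀ {F : (Em K → ℍ) → Lat K → ℂ} {A : Id K → ℂ}, IsForm k F → IsCo k F A →
    Summable (fun m : Id K => ‖A m‖ ^ 2 * nI m ^ (-((k : ℝ) - 1)) *
      min 1 (((k : ℝ) ^ dg K / nI m) ^ 6)) ∧
    pn ω k F ≤ C * (dK K ^ k * WA.omk k ^ dg K) * ∑' m : Id K,
      ‖A m‖ ^ 2 * nI m ^ (-((k : ℝ) - 1)) * min 1 (((k : ℝ) ^ dg K / nI m) ^ 6)) (i : ι) :
    Summable (fun m : Pr K →₀ ℕ => HS.hs (θ i) m ^ 2 *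
      min 1 (((k : ℝ) ^ (HS.PK K).d / (HS.PK K).nrm m) ^ 6)) ∧
    1 / hhom ω k F A i ≤ C * ∑' m : Pr K →₀ ℕ, HS.hs (θ i) m ^ 2 *
      min 1 (((k : ℝ) ^ (HS.PK K).d / (HS.PK K).nrm m) ^ 6) := by
  obtain ⟨h1, h2⟩ := hC (D.eig i).form (D.co i)
  have hA : ‖A i 1‖ ≠ 0 := norm_ne_zero_iff.mpr (eig_co (D.eig i) (D.co i)).1
  have h3 : ∀ m : Pr K →₀ ℕ, ‖A i (HS.idl m)‖ ^ 2 * nI (HS.idl m) ^ (-((k : ℝ) - 1)) *
      min 1 (((k : ℝ) ^ dg K / nI (HS.idl m)) ^ 6) = ‖A i 1‖ ^ 2 * (HS.hs (θ i) m ^ 2 *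
      min 1 (((k : ℝ) ^ (HS.PK K).d / (HS.PK K).nrm m) ^ 6)) := by
    intro m
    rw [hh_coef D i m, nI_idl]
    show _ * min 1 (((k : ℝ) ^ dg K / _) ^ 6) = _ * (_ * min 1 (((k : ℝ) ^ dg K / _) ^ 6))
    ring
  have h4 : Summable (fun m : Pr K →₀ ℕ => ‖A i 1‖ ^ 2 * (HS.hs (θ i) m ^ 2 *
      min 1 (((k : ℝ) ^ (HS.PK K).d / (HS.PK K).nrm m) ^ 6))) := by
    have := h1.comp_injective (HS.idl_inj (K := K))
    exact this.congr h3
  have h5 : Summable (fun m : Pr K →₀ ℕ => HS.hs (θ i) m ^ 2 *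
      min 1 (((k : ℝ) ^ (HS.PK K).d / (HS.PK K).nrm m) ^ 6)) :=
    (summable_mul_left_iff (pow_ne_zero 2 hA)).mp h4
  refine ⟨h5, ?_⟩
  have h6 : ∑' m : Id K, ‖A i m‖ ^ 2 * nI m ^ (-((k : ℝ) - 1)) *
      min 1 (((k : ℝ) ^ dg K / nI m) ^ 6) = ‖A i 1‖ ^ 2 * ∑' m : Pr K →₀ ℕ, HS.hs (θ i) m ^ 2 *
      min 1 (((k : ℝ) ^ (HS.PK K).d / (HS.PK K).nrm m) ^ 6) := by
    rw [← tsum_mul_left, ← tsum_congr h3]
    symm
    refine (HS.idl_inj (K := K)).tsum_eq (f := fun m : Id K => ‖A i m‖ ^ 2 *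
      nI m ^ (-((k : ℝ) - 1)) * min 1 (((k : ℝ) ^ dg K / nI m) ^ 6)) ?_
    intro m hm
    by_contra hne
    apply hm
    have h7 : ¬ IsInt m := by
      intro h
      exact hne (idl_sur h)
    simp only [(D.co i).int m h7]
    simp
  rw [h6] at h2
  have h8 := hh_omk hk
  have h9 : 0 < dK K := by linarith [dK_ge (K := K)]
  have h10 : 0 < dK K ^ k * WA.omk k ^ dg K * ‖A i 1‖ ^ 2 := by positivity
  rw [hhom, one_div_div, div_le_iff₀ h10]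
  calc pn ω k (F i) ≤ _ := h2
    _ = _ := by ring

theorem hh_R {ω : ExW K} {k : ℕ} (hk : 2 ≤ k) [Fintype (NCl K)] (cu : Cusps K) {R0 : ℝ}
    (ρ : UW K R0) {ι : Type} [Fintype ι] {θ : ι → Pr K → ℝ}
    {F : ι → (Em K → ℍ) → Lat K → ℂ} {A : ι → Id K → ℂ} (D : HhD ω k θ F A) {C E C5 : ℝ}
    (hC0 : 0 < C) (hC5 : 0 < C5) (hg : WA.omk k * √(k : ℝ) ≤ C5 * WA.gk k ^ 2)
    (hC : ∀ (T : Finset (Pr K →₀ ℕ)) (Φ : (Pr K →₀ ℕ) → ℝ → ℂ) (X : ℕ) (M V : ℝ),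
    1 ≤ X → 0 ≤ V → (∀ b ∈ T, (HS.PK K).nrm b ≤ X) → (∀ b, Measurable (Φ b)) →
    (∀ b v, ‖Φ b v‖ ≤ M) → (∀ b v, V < |v| → Φ b v = 0) →
    ∀ (B : (Pr K →₀ ℕ) → NCl K → Finset K),
    (∀ b κ, IsRepQ (cu.x κ / HS.idl b) (cu.x κ) (B b κ)) →
    ∀ {F : (Em K → ℍ) → Lat K → ℂ}, IsForm k F →
    ‖hhR cu ρ k T Φ B F‖ ^ 2 ≤
      C * ((k : ℝ) ^ ((dg K : ℝ) / 2) * ∑ c ∈ (HS.PK K).BL (X + 1), (phK (HS.idl c) : ℝ) *
          (∫ v : ℝ, ‖∑ b ∈ T.filter (fun b => c ≤ b), Φ b v‖ ^ 2) +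
        (M * T.card) ^ 2 * (X : ℝ) ^ E * Real.exp (E * V)) * pn ω k F)
    (T : Finset (Pr K →₀ ℕ)) (Φ : (Pr K →₀ ℕ) → ℝ → ℂ) (X : ℕ) (M V : ℝ)
    (hX : 1 ≤ X) (hV : 0 ≤ V) (hT : ∀ b ∈ T, (HS.PK K).nrm b ≤ X) (hm : ∀ b, Measurable (Φ b))
    (hb : ∀ b v, ‖Φ b v‖ ≤ M) (hs : ∀ b v, V < |v| → Φ b v = 0) :
    ∑ i, hhom ω k F A i * ‖∑ b ∈ T, ∫ v : ℝ, Φ b v *
        (HS.Db (HS.PK K) k (Real.log (dK K)) (θ i) b v : ℂ)‖ ^ 2 ≤
      C * C5 ^ dg K * HS.GK (HS.PK K) k ^ 2 * (∑ c ∈ (HS.PK K).BL (X + 1),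
          (phK (HS.idl c) : ℝ) * (∫ v : ℝ, ‖∑ b ∈ T.filter (fun b => c ≤ b), Φ b v‖ ^ 2) +
        (M * T.card) ^ 2 * (X : ℝ) ^ E * Real.exp (E * V) / √k) := by
  classical
  have hrep : ∀ (b : Pr K →₀ ℕ) (κ : NCl K), ∃ S, IsRepQ (cu.x κ / HS.idl b) (cu.x κ) S := by
    intro b κ
    apply repq_exists
    rw [← isInt_div, div_div_cancel]
    exact idl_int b
  choose B hB using hrep
  have homk := hh_omk hk
  have hdK : 0 < dK K := by linarith [dK_ge (K := K)]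
  have hk0 : (0 : ℝ) < k := by
    have : (2 : ℝ) ≤ k := by exact_mod_cast hk
    linarith
  set SS : ℝ := ∑ c ∈ (HS.PK K).BL (X + 1), (phK (HS.idl c) : ℝ) *
    ∫ v : ℝ, ‖∑ b ∈ T.filter (fun b => c ≤ b), Φ b v‖ ^ 2 with hSS
  have hSS0 : 0 ≤ SS := by
    apply Finset.sum_nonneg
    intro c _
    apply mul_nonneg (Nat.cast_nonneg _)
    exact integral_nonneg fun v => by positivity
  set RR : ℝ := (M * T.card) ^ 2 * (X : ℝ) ^ E * Real.exp (E * V) with hRR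
  have hRR0 : 0 ≤ RR := by positivity
  have hB0 : 0 ≤ C * ((k : ℝ) ^ ((dg K : ℝ) / 2) * SS + RR) := by positivity
  have key := bessel ω (fun i => (D.eig i).form) D.orth D.pn hB0
    (fun i => hhR cu ρ k T Φ B (F i)) ?_
  · have h1 : ∀ i, hhR cu ρ k T Φ B (F i) = A i 1 * ((dK K ^ ((k : ℝ) / 2) : ℝ) : ℂ) *
        ∑ b ∈ T, ∫ v : ℝ, Φ b v *
        (HS.Db (HS.PK K) k (Real.log (dK K)) (θ i) b v : ℂ) := by
      intro i
      rw [Finset.mul_sum, hhR]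
      apply Finset.sum_congr rfl
      intro b _
      exact geo_eig (by omega) (D.eig i) (D.co i) cu.cls ρ b (hB b) (hm b) (hb b) (hs b)
    have h2 : ∀ i, hhom ω k F A i * ‖∑ b ∈ T, ∫ v : ℝ, Φ b v *
        (HS.Db (HS.PK K) k (Real.log (dK K)) (θ i) b v : ℂ)‖ ^ 2 =
        WA.omk k ^ dg K * (‖hhR cu ρ k T Φ B (F i)‖ ^ 2 / pn ω k (F i)) := by
      intro i
      rw [h1 i, norm_mul, norm_mul, Complex.norm_real, Real.norm_eq_abs, mul_pow, mul_pow, sq_abs,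
        hhom, ← Real.rpow_natCast (dK K ^ ((k : ℝ) / 2)), ← Real.rpow_mul hdK.le]
      have h3 : (k : ℝ) / 2 * ((2 : ℕ) : ℝ) = (k : ℝ) := by
        push_cast
        ring
      rw [h3, Real.rpow_natCast]
      ring
    simp_rw [h2]
    rw [← Finset.mul_sum]
    have h4 : WA.omk k ^ dg K * ∑ i, ‖hhR cu ρ k T Φ B (F i)‖ ^ 2 / pn ω k (F i) ≤
        WA.omk k ^ dg K * (C * ((k : ℝ) ^ ((dg K : ℝ) / 2) * SS + RR)) :=
      mul_le_mul_of_nonneg_left key (by positivity)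
    refine h4.trans ?_
    have hGK : HS.GK (HS.PK K) k = WA.gk k ^ dg K := rfl
    have h5 : WA.omk k ^ dg K * (k : ℝ) ^ ((dg K : ℝ) / 2) ≤
        C5 ^ dg K * HS.GK (HS.PK K) k ^ 2 := by
      have h6 : (k : ℝ) ^ ((dg K : ℝ) / 2) = √(k : ℝ) ^ dg K := by
        rw [Real.sqrt_eq_rpow, ← Real.rpow_natCast, ← Real.rpow_mul hk0.le]
        congr 1
        ring
      rw [h6, hGK, ← mul_pow, ← pow_mul, mul_comm (dg K) 2, pow_mul, ← mul_pow]
      exact pow_le_pow_left₀ (by positivity) hg _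
    have h7 : WA.omk k ^ dg K ≤ C5 ^ dg K * HS.GK (HS.PK K) k ^ 2 / √k := by
      rw [le_div_iff₀ (Real.sqrt_pos.mpr hk0)]
      refine le_trans ?_ h5
      apply mul_le_mul_of_nonneg_left _ (by positivity)
      rw [Real.sqrt_eq_rpow]
      apply Real.rpow_le_rpow_of_exponent_le
      · have : (2 : ℝ) ≤ k := by exact_mod_cast hk
        linarith
      · have : (1 : ℝ) ≤ dg K := by exact_mod_cast dg_pos (K := K)
        linarith
    calc WA.omk k ^ dg K * (C * ((k : ℝ) ^ ((dg K : ℝ) / 2) * SS + RR))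
        = C * ((WA.omk k ^ dg K * (k : ℝ) ^ ((dg K : ℝ) / 2)) * SS + WA.omk k ^ dg K * RR) := by
          ring
      _ ≤ C * ((C5 ^ dg K * HS.GK (HS.PK K) k ^ 2) * SS +
            (C5 ^ dg K * HS.GK (HS.PK K) k ^ 2 / √k) * RR) := by
          gcongr
      _ = C * C5 ^ dg K * HS.GK (HS.PK K) k ^ 2 * (SS + RR / √k) := by ring
  · intro a
    rw [← hh_lin cu ρ T hm hb hs B (fun i => (D.eig i).form) a]
    exact hC T Φ X M V hX hV hT hm hb hs B hB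
      (form_lin Finset.univ a (fun i _ => (D.eig i).form))

theorem hfam_exists : ∃ (C E : ℝ) (k₀ : ℕ), ∀ k : ℕ, k₀ ≤ k → Even k →
    ∀ {ι : Type} [Fintype ι]
      (θ : ι → Pr K → ℝ), Function.Injective θ → (∀ i, ∃ F, IsEig k F (θ i)) →
      ∃ om : ι → ℝ, HS.HFam (HS.PK K) (Real.log (dK K)) C E (fun c => (phK (HS.idl c) : ℝ)) k θ om := by
  classical
  obtain ⟨ω⟩ := exw_exists (K := K)
  obtain ⟨cu⟩ := cusps_exists (K := K)
  obtain ⟨ρ⟩ := uw_exists (K := K) 0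
  have : Finite (NCl K) := ncl_finite
  have : Fintype (NCl K) := Fintype.ofFinite _
  obtain ⟨C1, k1, hC1, h1⟩ := ls_form ω
  obtain ⟨k2, h2⟩ := pn_pos ω
  obtain ⟨C3, k3, hC3, h3⟩ := pn_form ω
  obtain ⟨C4, E4, k4, hC4, hE4, h4⟩ := r_form cu ρ ω
  obtain ⟨C5, hC5, h5⟩ := omk_gk
  refine ⟨max C1 (max C3 (C4 * C5 ^ dg K)), E4, max 2 (max k1 (max k2 (max k3 k4))), ?_⟩
  intro k hk he ι _ θ hθ hF
  simp only [max_le_iff] at hk
  obtain ⟨hk0, hk1, hk2, hk3, hk4⟩ := hk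
  choose F hF using hF
  have hA : ∀ i, ∃ A, IsCo k (F i) A := fun i => co_exists (by omega) (hF i).form
  choose A hA using hA
  have D : HhD ω k θ F A := by
    refine ⟨hF, hA, ?_, ?_⟩
    · intro i j hij
      exact eig_orth ω (hF i) (hF j) (fun h => hij (hθ h))
    · intro i
      exact h2 k hk2 (hF i).form (hF i).ne
  set C : ℝ := max C1 (max C3 (C4 * C5 ^ dg K)) with hC
  have hCC1 : C1 ≤ C := le_max_left _ _
  have hCC3 : C3 ≤ C := (le_max_left _ _).trans (le_max_right _ _)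
  have hCC4 : C4 * C5 ^ dg K ≤ C := (le_max_right _ _).trans (le_max_right _ _)
  have hC0 : 0 < C := hC1.trans_le hCC1
  refine ⟨hhom ω k F A, ?_, ?_, ?_, ?_, ?_⟩
  · intro i
    exact td_eig (by omega) he (hF i)
  · intro i
    exact hh_pos hk0 D i
  · intro Y c
    refine (hh_LS hk0 D hC1 (fun hF hA => h1 k hk1 hF hA) Y c).trans ?_
    show C1 * (1 + Y / (k : ℝ) ^ dg K) * _ ≤ C * (1 + Y / (k : ℝ) ^ dg K) * _
    gcongr
  · intro i
    obtain ⟨h6, h7⟩ := hh_PN hk0 D (fun hF hA => h3 k hk3 hF hA) i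
    refine ⟨h6, h7.trans ?_⟩
    apply mul_le_mul_of_nonneg_right hCC3
    apply tsum_nonneg
    intro m
    positivity
  · intro T Φ X M V hV hT hm hb hs
    rcases T.eq_empty_or_nonempty with rfl | ⟨b0, hb0⟩
    · simp only [Finset.sum_empty, norm_zero, Finset.filter_empty, Finset.card_empty,
        Nat.cast_zero, mul_zero]
      simp
    · have hX : 1 ≤ X := (HS.nrm_pos (HS.PK K) b0).trans_le (hT b0 hb0)
      refine (hh_R hk0 cu ρ D (E := E4) hC4 hC5 (h5 k hk0) (fun T Φ X M V a1 a2 a3 a4 a5 a6 B a7 F a8 =>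
        h4 k hk4 T Φ X M V a1 a2 a3 a4 a5 a6 B a7 a8) T Φ X M V hX hV hT hm hb hs).trans ?_
      have h8 : 0 ≤ ∑ c ∈ (HS.PK K).BL (X + 1), (phK (HS.idl c) : ℝ) *
          ∫ v : ℝ, ‖∑ b ∈ T.filter (fun b => c ≤ b), Φ b v‖ ^ 2 := by
        apply Finset.sum_nonneg
        intro c _
        apply mul_nonneg (Nat.cast_nonneg _)
        exact integral_nonneg fun v => by positivity
      gcongr

end tr

end Pool.Agent.HSG
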