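import Pool.Agent.Lib_helper84.HSG.DefsB
import Pool.Agent.Lib_helper84.HSGF.GA1
import Pool.Agent.Lib_helper84.HSGF.GA3
import Pool.Agent.Lib_helper84.HSGF.GD1
import Pool.Agent.Lib_helper84.HSGF.GW1

namespace Pool.Agent.HSG

open Complex MeasureTheory Filter Topology UpperHalfPlane NumberField IsDedekindDomain
open scoped nonZeroDivisors MatrixGroups ENNReal

variable {K : Type} [Field K] [NumberField K]

theorem gy1_am {E F : ℝ} (X c : ℝ) (hE : 0 < E) (hEF : E * F = 1) :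
    2 * |X * c| ≤ X ^ 2 * E + c ^ 2 * F := by
  have h1 : 0 ≤ E * (|X| - |c| * F) ^ 2 := by positivity
  have h2 : E * (|X| - |c| * F) ^ 2 = |X| ^ 2 * E - 2 * (|X| * |c|) * (E * F) +
      |c| ^ 2 * F * (E * F) := by ring
  rw [h2, hEF, sq_abs, sq_abs, ← abs_mul] at h1
  linarith

omit [NumberField K] in
theorem gy1_chm (m : Matrix (Fin 2) (Fin 2) K) (u u' : Em K → ℝ) (w : Em K) :
    (1 + |w (m 0 1 * m 1 0)| + |w (m 0 0 * m 1 1)|) / 2 ≤ chm m u u' w := by
  have h1 := gy1_am (E := Real.exp (-(u w + u' w))) (F := Real.exp (u w + u' w))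
    (w (m 0 1)) (w (m 1 0)) (Real.exp_pos _) (by rw [← Real.exp_add]; simp)
  have h2 := gy1_am (E := Real.exp (u' w - u w)) (F := Real.exp (u w - u' w))
    (w (m 0 0)) (w (m 1 1)) (Real.exp_pos _) (by rw [← Real.exp_add]; simp)
  unfold chm
  rw [map_mul, map_mul]
  linarith

theorem gy1_prod {ι : Type*} [Fintype ι] [DecidableEq ι] (f : ι → ℝ) (h1 : ∀ w, 1 ≤ f w) (w₀ : ι) :
    f w₀ ≤ ∏ w, f w := by
  rw [← Finset.mul_prod_erase Finset.univ f (Finset.mem_univ w₀)]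
  refine le_mul_of_one_le_right (le_trans zero_le_one (h1 w₀)) ?_
  exact Finset.prod_induction f (fun x => 1 ≤ x)
    (fun a b ha hb => one_le_mul_of_one_le_of_one_le ha hb) le_rfl (fun w _ => h1 w)

theorem gy1_mul {Q : ℕ} {x y : K} (hx : (Q : K) * x ∈ (1 : Id K).m)
    (hy : (Q : K) * y ∈ (1 : Id K).m) : ((Q ^ 2 : ℕ) : K) * (x * y) ∈ (1 : Id K).m := by
  have h := mem_mul_of hx hy
  rw [mul_one] at h
  have e : ((Q ^ 2 : ℕ) : K) * (x * y) = (Q : K) * x * ((Q : K) * y) := by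
    push_cast; ring
  rw [e]
  exact h

section tr
variable [IsTotallyReal K]

theorem gy1_norm {n : ℕ} (hn : 1 ≤ n) {x : K} (hx : x ≠ 0) (h : (n : K) * x ∈ (1 : Id K).m) :
    1 ≤ (n : ℝ) ^ (dg K) * ∏ w : Em K, |w x| := by
  have hn0 : (n : K) ≠ 0 := by
    have : n ≠ 0 := by omega
    exact_mod_cast this
  have h1 := nI_mem (a := (1 : Id K)) (x := Units.mk0 ((n : K) * x) (mul_ne_zero hn0 hx)) h
  rw [nI_one, nI_prI] at h1
  simp only [Units.val_mk0, map_mul, map_natCast, abs_mul, Finset.prod_mul_distrib,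
    Finset.prod_const, Finset.card_univ, Nat.abs_cast] at h1
  rw [card_em] at h1
  exact h1

theorem gy1_case {Q : ℕ} (hQ : 1 ≤ Q) {y : K} (hy : y ≠ 0)
    (h : ((Q ^ 2 : ℕ) : K) * y ∈ (1 : Id K).m) (hb : ∀ w : Em K, |w y| ≤ 2) (w₀ : Em K)
    (h0 : |w₀ y| < ((2 : ℝ) ^ (dg K) * (Q : ℝ) ^ (2 * dg K))⁻¹) : False := by
  classical
  have hQ2 : 1 ≤ Q ^ 2 := Nat.one_le_pow _ _ (by omega)
  have h1 := gy1_norm hQ2 hy h
  have h2 : ∏ w : Em K, |w y| ≤ |w₀ y| * (2 : ℝ) ^ (dg K) := by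
    rw [← Finset.mul_prod_erase Finset.univ (fun w : Em K => |w y|) (Finset.mem_univ w₀)]
    refine mul_le_mul_of_nonneg_left ?_ (abs_nonneg _)
    calc ∏ w ∈ Finset.univ.erase w₀, |w y| ≤ ∏ w ∈ Finset.univ.erase w₀, (2 : ℝ) :=
          Finset.prod_le_prod (fun w _ => abs_nonneg _) (fun w _ => hb w)
      _ = (2 : ℝ) ^ (Finset.univ.erase w₀ : Finset (Em K)).card := by rw [Finset.prod_const]
      _ ≤ (2 : ℝ) ^ (dg K) := by
          apply pow_le_pow_right₀ (by norm_num)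
          rw [← card_em (K := K)]
          exact Finset.card_le_univ _
  have hQr : (0 : ℝ) < Q := by exact_mod_cast hQ
  have h3 : (0 : ℝ) < (2 : ℝ) ^ (dg K) * (Q : ℝ) ^ (2 * dg K) := by positivity
  have h4 : |w₀ y| * ((2 : ℝ) ^ (dg K) * (Q : ℝ) ^ (2 * dg K)) < 1 := by
    rw [lt_inv_comm₀] at h0
    · rw [← lt_div_iff₀ h3]
      rw [one_div]
      rw [lt_inv_comm₀]
      · exact h0
      · by_contra hc
        have : |w₀ y| = 0 := le_antisymm (not_lt.mp hc) (abs_nonneg _)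
        rw [abs_eq_zero, map_eq_zero] at this
        exact hy this
      · exact h3
    · by_contra hc
      have : |w₀ y| = 0 := le_antisymm (not_lt.mp hc) (abs_nonneg _)
      rw [abs_eq_zero, map_eq_zero] at this
      exact hy this
    · exact h3
  have h5 : ((Q ^ 2 : ℕ) : ℝ) ^ (dg K) = (Q : ℝ) ^ (2 * dg K) := by
    push_cast; rw [← pow_mul]
  rw [h5] at h1
  have h6 : (Q : ℝ) ^ (2 * dg K) * ∏ w : Em K, |w y| ≤
      (Q : ℝ) ^ (2 * dg K) * (|w₀ y| * (2 : ℝ) ^ (dg K)) :=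
    mul_le_mul_of_nonneg_left h2 (by positivity)
  nlinarith

theorem gy1_exists {Q : ℕ} (hQ : 1 ≤ Q) {y : K} (hy : y ≠ 0)
    (h : (Q : K) * y ∈ (1 : Id K).m) : ∃ w : Em K, 1 ≤ (Q : ℝ) ^ 2 * (w y) ^ 2 := by
  by_contra hc
  push Not at hc
  have h1 := gy1_norm hQ hy h
  have hQr : (0 : ℝ) < Q := by exact_mod_cast hQ
  have h2 : ∀ w : Em K, (Q : ℝ) * |w y| < 1 := by
    intro w
    have h3 : ((Q : ℝ) * |w y|) ^ 2 < 1 := by
      rw [mul_pow, sq_abs]; exact hc w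
    have h4 : 0 ≤ (Q : ℝ) * |w y| := by positivity
    nlinarith
  have h3 : (Q : ℝ) ^ (dg K) * ∏ w : Em K, |w y| = ∏ w : Em K, ((Q : ℝ) * |w y|) := by
    rw [Finset.prod_mul_distrib, Finset.prod_const, Finset.card_univ, card_em]
  rw [h3] at h1
  have h5 : Nonempty (Em K) := by
    rw [← Fintype.card_pos_iff, card_em]
    exact dg_pos
  have h6 : ∏ w : Em K, ((Q : ℝ) * |w y|) < ∏ w : Em K, (1 : ℝ) := by
    obtain ⟨w₀⟩ := h5
    apply Finset.prod_lt_prod_of_nonempty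
    · intro w _
      have : w y ≠ 0 := by rw [Ne, map_eq_zero]; exact hy
      positivity
    · intro w _; exact h2 w
    · exact ⟨w₀, Finset.mem_univ _⟩
  rw [Finset.prod_const_one] at h6
  linarith

/-- for all others there is a gap -/
theorem gap : ∃ c E : ℝ, 0 < c ∧ 0 < E ∧ ∀ (Q : ℕ) (V : ℝ) (m : Matrix (Fin 2) (Fin 2) K)
    (u u' : Em K → ℝ), 1 ≤ Q → 0 ≤ V → m ∈ MQ K Q → ¬ Mono m → ¬ Inr m V → (∀ w, |u w| ≤ V) →
    (∀ w, |u' w| ≤ V) → 1 + c * (Q : ℝ) ^ (-E) * Real.exp (-(E * V)) ≤ ∏ w, chm m u u' w := by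
  classical
  refine ⟨((2 : ℝ) ^ (dg K))⁻¹ / 4, ((2 * dg K + 2 : ℕ) : ℝ), by positivity, by positivity, ?_⟩
  intro Q V m u u' hQ hV hm hMono hInr hu hu'
  obtain ⟨hdet, hint⟩ := hm
  have hQr : (1 : ℝ) ≤ Q := by exact_mod_cast hQ
  have hQ0 : (0 : ℝ) < Q := by linarith
  rw [Real.rpow_neg hQ0.le, Real.rpow_natCast]
  set D : ℝ := ((2 : ℝ) ^ (dg K))⁻¹ with hD
  have hD0 : 0 < D := by positivity
  have hD1 : D ≤ 1 := inv_le_one_of_one_le₀ (one_le_pow₀ (by norm_num))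
  have hE1 : Real.exp (-(((2 * dg K + 2 : ℕ) : ℝ) * V)) ≤ Real.exp (-(2 * V)) := by
    apply Real.exp_le_exp.mpr
    push_cast
    nlinarith [(Nat.cast_nonneg (dg K) : (0 : ℝ) ≤ (dg K : ℝ))]
  have hE2 : Real.exp (-(2 * V)) ≤ 1 := by
    rw [Real.exp_le_one_iff]; linarith
  have hE0 : 0 < Real.exp (-(((2 * dg K + 2 : ℕ) : ℝ) * V)) := Real.exp_pos _
  have hP1 : ((Q : ℝ) ^ (2 * dg K + 2))⁻¹ ≤ ((Q : ℝ) ^ (2 * dg K))⁻¹ := by
    apply inv_anti₀ (by positivity)
    exact pow_le_pow_right₀ hQr (by omega)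
  have hP2 : ((Q : ℝ) ^ (2 * dg K + 2))⁻¹ ≤ ((Q : ℝ) ^ 2)⁻¹ := by
    apply inv_anti₀ (by positivity)
    exact pow_le_pow_right₀ hQr (by omega)
  have hP3 : ((Q : ℝ) ^ (2 * dg K))⁻¹ ≤ 1 := inv_le_one_of_one_le₀ (one_le_pow₀ hQr)
  have hP0 : 0 < ((Q : ℝ) ^ (2 * dg K + 2))⁻¹ := by positivity
  have hP00 : 0 < ((Q : ℝ) ^ (2 * dg K))⁻¹ := by positivity
  have hP20 : 0 < ((Q : ℝ) ^ 2)⁻¹ := by positivity
  have hge : ∀ w, 1 ≤ chm m u u' w := fun w => chm_ge m hdet u u' w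
  -- the two bounds for the target
  have hT1 : D / 4 * ((Q : ℝ) ^ (2 * dg K + 2))⁻¹ * Real.exp (-(((2 * dg K + 2 : ℕ) : ℝ) * V)) ≤
      D * ((Q : ℝ) ^ (2 * dg K))⁻¹ := by
    calc D / 4 * ((Q : ℝ) ^ (2 * dg K + 2))⁻¹ * Real.exp (-(((2 * dg K + 2 : ℕ) : ℝ) * V))
        ≤ D / 4 * ((Q : ℝ) ^ (2 * dg K + 2))⁻¹ * 1 := by
          apply mul_le_mul_of_nonneg_left (hE1.trans hE2) (by positivity)
      _ ≤ D * ((Q : ℝ) ^ (2 * dg K))⁻¹ := by
          rw [mul_one]
          apply mul_le_mul (by linarith) hP1 hP0.le hD0.le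
  have hT2 : D / 4 * ((Q : ℝ) ^ (2 * dg K + 2))⁻¹ * Real.exp (-(((2 * dg K + 2 : ℕ) : ℝ) * V)) ≤
      ((Q : ℝ) ^ 2)⁻¹ * Real.exp (-(2 * V)) / 4 := by
    calc D / 4 * ((Q : ℝ) ^ (2 * dg K + 2))⁻¹ * Real.exp (-(((2 * dg K + 2 : ℕ) : ℝ) * V))
        ≤ 1 / 4 * ((Q : ℝ) ^ 2)⁻¹ * Real.exp (-(2 * V)) := by
          apply mul_le_mul _ hE1 hE0.le (by positivity)
          apply mul_le_mul (by linarith) hP2 hP0.le (by norm_num)
      _ = ((Q : ℝ) ^ 2)⁻¹ * Real.exp (-(2 * V)) / 4 := by ring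
  have hT3 : D * ((Q : ℝ) ^ (2 * dg K))⁻¹ ≤ 1 := by
    calc D * ((Q : ℝ) ^ (2 * dg K))⁻¹ ≤ 1 * 1 := mul_le_mul hD1 hP3 hP00.le (by norm_num)
      _ = 1 := one_mul 1
  have hex1 : ∀ w, Real.exp (-(2 * V)) ≤ Real.exp (-(u w + u' w)) := fun w =>
    Real.exp_le_exp.mpr (by have := abs_le.mp (hu w); have := abs_le.mp (hu' w); linarith)
  have hex2 : ∀ w, Real.exp (-(2 * V)) ≤ Real.exp (u w + u' w) := fun w =>
    Real.exp_le_exp.mpr (by have := abs_le.mp (hu w); have := abs_le.mp (hu' w); linarith)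
  have hex3 : ∀ w, Real.exp (-(2 * V)) ≤ Real.exp (u' w - u w) := fun w =>
    Real.exp_le_exp.mpr (by have := abs_le.mp (hu w); have := abs_le.mp (hu' w); linarith)
  have hex4 : ∀ w, Real.exp (-(2 * V)) ≤ Real.exp (u w - u' w) := fun w =>
    Real.exp_le_exp.mpr (by have := abs_le.mp (hu w); have := abs_le.mp (hu' w); linarith)
  rw [Matrix.det_fin_two] at hdet
  have hcX : m 0 1 * m 1 0 = m 0 0 * m 1 1 - 1 := by rw [← hdet]; ring
  by_cases hA : ∃ i j, ∃ w : Em K, 4 * Real.exp V < |w (m i j)|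
  · -- a large entry
    obtain ⟨i, j, w, hw⟩ := hA
    have hb : 16 ≤ (w (m i j)) ^ 2 * Real.exp (-(2 * V)) := by
      have h1 : (4 * Real.exp V) ^ 2 ≤ (w (m i j)) ^ 2 := by
        rw [← sq_abs (w (m i j))]
        exact pow_le_pow_left₀ (by positivity) hw.le 2
      have h2 : (4 * Real.exp V) ^ 2 * Real.exp (-(2 * V)) = 16 := by
        have : Real.exp V ^ 2 * Real.exp (-(2 * V)) = 1 := by
          rw [← Real.exp_nat_mul, ← Real.exp_add]; simp
        calc (4 * Real.exp V) ^ 2 * Real.exp (-(2 * V)) =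
            16 * (Real.exp V ^ 2 * Real.exp (-(2 * V))) := by ring
          _ = 16 := by rw [this, mul_one]
      calc (16 : ℝ) = (4 * Real.exp V) ^ 2 * Real.exp (-(2 * V)) := h2.symm
        _ ≤ _ := mul_le_mul_of_nonneg_right h1 (Real.exp_pos _).le
    have h01 : 0 ≤ (w (m 0 1)) ^ 2 * Real.exp (-(u w + u' w)) := by positivity
    have h10 : 0 ≤ (w (m 1 0)) ^ 2 * Real.exp (u w + u' w) := by positivity
    have h00 : 0 ≤ (w (m 0 0)) ^ 2 * Real.exp (u' w - u w) := by positivity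
    have h11 : 0 ≤ (w (m 1 1)) ^ 2 * Real.exp (u w - u' w) := by positivity
    have g01 : (w (m 0 1)) ^ 2 * Real.exp (-(2 * V)) ≤ (w (m 0 1)) ^ 2 * Real.exp (-(u w + u' w)) :=
      mul_le_mul_of_nonneg_left (hex1 w) (sq_nonneg _)
    have g10 : (w (m 1 0)) ^ 2 * Real.exp (-(2 * V)) ≤ (w (m 1 0)) ^ 2 * Real.exp (u w + u' w) :=
      mul_le_mul_of_nonneg_left (hex2 w) (sq_nonneg _)
    have g00 : (w (m 0 0)) ^ 2 * Real.exp (-(2 * V)) ≤ (w (m 0 0)) ^ 2 * Real.exp (u' w - u w) :=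
      mul_le_mul_of_nonneg_left (hex3 w) (sq_nonneg _)
    have g11 : (w (m 1 1)) ^ 2 * Real.exp (-(2 * V)) ≤ (w (m 1 1)) ^ 2 * Real.exp (u w - u' w) :=
      mul_le_mul_of_nonneg_left (hex4 w) (sq_nonneg _)
    have hch : 2 ≤ chm m u u' w := by
      unfold chm
      fin_cases i <;> fin_cases j <;> simp only [Fin.zero_eta, Fin.mk_one, Fin.isValue] at hb <;>
        linarith
    have h3 := gy1_prod (fun w => chm m u u' w) hge w
    linarith
  · push Not at hA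
    have hB : ∃ w₀ : Em K, ¬ (0 < w₀ (m 0 0 * m 1 1) ∧ w₀ (m 0 0 * m 1 1) < 1) := by
      by_contra hc
      push Not at hc
      exact hInr ⟨hc, hA⟩
    obtain ⟨w₀, hw₀⟩ := hB
    by_cases hx0 : m 0 0 * m 1 1 = 0
    · -- x = 0
      have h2 : m 0 1 * m 1 0 = -1 := by rw [hcX, hx0]; ring
      have key : ∀ e : K, e ≠ 0 → ((Q : K) * e ∈ (1 : Id K).m) →
          (∀ w : Em K, (w e) ^ 2 * Real.exp (-(2 * V)) ≤
            (w (m 0 0)) ^ 2 * Real.exp (u' w - u w) + (w (m 1 1)) ^ 2 * Real.exp (u w - u' w)) →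
          1 + D / 4 * ((Q : ℝ) ^ (2 * dg K + 2))⁻¹ *
            Real.exp (-(((2 * dg K + 2 : ℕ) : ℝ) * V)) ≤ ∏ w, chm m u u' w := by
        intro e he hQe hle
        obtain ⟨w, hw⟩ := gy1_exists hQ he hQe
        have h3 := gy1_prod (fun w => chm m u u' w) hge w
        have h4 := gy1_am (E := Real.exp (-(u w + u' w))) (F := Real.exp (u w + u' w))
          (w (m 0 1)) (w (m 1 0)) (Real.exp_pos _) (by rw [← Real.exp_add]; simp)
        rw [← map_mul, h2, map_neg, map_one, abs_neg, abs_one] at h4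
        have h5 : ((Q : ℝ) ^ 2)⁻¹ ≤ (w e) ^ 2 := by
          rw [inv_le_iff_one_le_mul₀ (by positivity), mul_comm]
          exact hw
        have h6 : ((Q : ℝ) ^ 2)⁻¹ * Real.exp (-(2 * V)) ≤ (w e) ^ 2 * Real.exp (-(2 * V)) :=
          mul_le_mul_of_nonneg_right h5 (Real.exp_pos _).le
        have h7 : 1 + ((Q : ℝ) ^ 2)⁻¹ * Real.exp (-(2 * V)) / 4 ≤ chm m u u' w := by
          unfold chm
          have := hle w
          linarith
        linarith
      rcases mul_eq_zero.mp hx0 with h00 | h11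
      · have h11 : m 1 1 ≠ 0 := fun h => hMono (Or.inr ⟨h00, h⟩)
        refine key (m 1 1) h11 (hint 1 1) ?_
        intro w
        have g11 : (w (m 1 1)) ^ 2 * Real.exp (-(2 * V)) ≤
          (w (m 1 1)) ^ 2 * Real.exp (u w - u' w) := mul_le_mul_of_nonneg_left (hex4 w) (sq_nonneg _)
        have : 0 ≤ (w (m 0 0)) ^ 2 * Real.exp (u' w - u w) := by positivity
        linarith
      · have h00 : m 0 0 ≠ 0 := fun h => hMono (Or.inr ⟨h, h11⟩)
        refine key (m 0 0) h00 (hint 0 0) ?_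
        intro w
        have g00 : (w (m 0 0)) ^ 2 * Real.exp (-(2 * V)) ≤
          (w (m 0 0)) ^ 2 * Real.exp (u' w - u w) := mul_le_mul_of_nonneg_left (hex3 w) (sq_nonneg _)
        have : 0 ≤ (w (m 1 1)) ^ 2 * Real.exp (u w - u' w) := by positivity
        linarith
    · by_cases hx1 : m 0 1 * m 1 0 = 0
      · -- x = 1
        have h2 : m 0 0 * m 1 1 = 1 := by
          have := hcX; rw [hx1] at this; exact (sub_eq_zero.mp this.symm)
        have key : ∀ e : K, e ≠ 0 → ((Q : K) * e ∈ (1 : Id K).m) →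
            (∀ w : Em K, (w e) ^ 2 * Real.exp (-(2 * V)) ≤
              (w (m 0 1)) ^ 2 * Real.exp (-(u w + u' w)) +
                (w (m 1 0)) ^ 2 * Real.exp (u w + u' w)) →
            1 + D / 4 * ((Q : ℝ) ^ (2 * dg K + 2))⁻¹ *
              Real.exp (-(((2 * dg K + 2 : ℕ) : ℝ) * V)) ≤ ∏ w, chm m u u' w := by
          intro e he hQe hle
          obtain ⟨w, hw⟩ := gy1_exists hQ he hQe
          have h3 := gy1_prod (fun w => chm m u u' w) hge w
          have h4 := gy1_am (E := Real.exp (u' w - u w)) (F := Real.exp (u w - u' w))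
            (w (m 0 0)) (w (m 1 1)) (Real.exp_pos _) (by rw [← Real.exp_add]; simp)
          rw [← map_mul, h2, map_one, abs_one] at h4
          have h5 : ((Q : ℝ) ^ 2)⁻¹ ≤ (w e) ^ 2 := by
            rw [inv_le_iff_one_le_mul₀ (by positivity), mul_comm]
            exact hw
          have h6 : ((Q : ℝ) ^ 2)⁻¹ * Real.exp (-(2 * V)) ≤ (w e) ^ 2 * Real.exp (-(2 * V)) :=
            mul_le_mul_of_nonneg_right h5 (Real.exp_pos _).le
          have h7 : 1 + ((Q : ℝ) ^ 2)⁻¹ * Real.exp (-(2 * V)) / 4 ≤ chm m u u' w := by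
            unfold chm
            have := hle w
            linarith
          linarith
        rcases mul_eq_zero.mp hx1 with h01 | h10
        · have h10 : m 1 0 ≠ 0 := fun h => hMono (Or.inl ⟨h01, h⟩)
          refine key (m 1 0) h10 (hint 1 0) ?_
          intro w
          have g10 : (w (m 1 0)) ^ 2 * Real.exp (-(2 * V)) ≤
            (w (m 1 0)) ^ 2 * Real.exp (u w + u' w) :=
              mul_le_mul_of_nonneg_left (hex2 w) (sq_nonneg _)
          have : 0 ≤ (w (m 0 1)) ^ 2 * Real.exp (-(u w + u' w)) := by positivity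
          linarith
        · have h01 : m 0 1 ≠ 0 := fun h => hMono (Or.inl ⟨h, h10⟩)
          refine key (m 0 1) h01 (hint 0 1) ?_
          intro w
          have g01 : (w (m 0 1)) ^ 2 * Real.exp (-(2 * V)) ≤
            (w (m 0 1)) ^ 2 * Real.exp (-(u w + u' w)) :=
              mul_le_mul_of_nonneg_left (hex1 w) (sq_nonneg _)
          have : 0 ≤ (w (m 1 0)) ^ 2 * Real.exp (u w + u' w) := by positivity
          linarith
      · -- x different from 0 and 1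
        by_contra hc
        push Not at hc
        have hlt : ∀ w : Em K, chm m u u' w < 1 + D * ((Q : ℝ) ^ (2 * dg K))⁻¹ := by
          intro w
          have h3 := gy1_prod (fun w => chm m u u' w) hge w
          linarith
        have hDQ : D * ((Q : ℝ) ^ (2 * dg K))⁻¹ =
            ((2 : ℝ) ^ (dg K) * (Q : ℝ) ^ (2 * dg K))⁻¹ := by rw [hD, mul_inv]
        have hsum : ∀ w : Em K, |w (m 0 0 * m 1 1) - 1| + |w (m 0 0 * m 1 1)| <
            1 + 2 * (D * ((Q : ℝ) ^ (2 * dg K))⁻¹) := by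
          intro w
          have h4 := gy1_chm m u u' w
          have h5 := hlt w
          rw [hcX, map_sub, map_one] at h4
          linarith
        have hle1 : ∀ w : Em K, |w (m 0 0 * m 1 1)| ≤ 2 := by
          intro w
          have h1 := hsum w
          have h2 := abs_sub_abs_le_abs_sub (1 : ℝ) (w (m 0 0 * m 1 1))
          have h3 := abs_sub_abs_le_abs_sub (w (m 0 0 * m 1 1)) (1 : ℝ)
          rw [abs_one] at h3
          linarith
        have hle2 : ∀ w : Em K, |w (m 0 1 * m 1 0)| ≤ 2 := by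
          intro w
          have h1 := hsum w
          rw [hcX, map_sub, map_one]
          have h3 : |w (m 0 0 * m 1 1) - 1| ≤ |w (m 0 0 * m 1 1)| + 1 := by
            have := abs_sub (w (m 0 0 * m 1 1)) (1 : ℝ)
            rwa [abs_one] at this
          linarith
        have hs := hsum w₀
        by_cases h0 : w₀ (m 0 0 * m 1 1) ≤ 0
        · refine gy1_case hQ hx0 (gy1_mul (hint 0 0) (hint 1 1)) hle1 w₀ ?_
          rw [← hDQ]
          rw [abs_of_nonpos h0, abs_of_nonpos (by linarith)] at hs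
          rw [abs_of_nonpos h0]
          linarith
        · have h1 : 1 ≤ w₀ (m 0 0 * m 1 1) := by
            by_contra h
            exact hw₀ ⟨not_le.mp h0, not_le.mp h⟩
          refine gy1_case hQ hx1 (gy1_mul (hint 0 1) (hint 1 0)) hle2 w₀ ?_
          rw [← hDQ, hcX, map_sub, map_one]
          rw [abs_of_nonneg (by linarith : (0 : ℝ) ≤ w₀ (m 0 0 * m 1 1)),
            abs_of_nonneg (by linarith : (0 : ℝ) ≤ w₀ (m 0 0 * m 1 1) - 1)] at hs
          rw [abs_of_nonneg (by linarith : (0 : ℝ) ≤ w₀ (m 0 0 * m 1 1) - 1)]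
          linarith


end tr

end Pool.Agent.HSG
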