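import Pool.Agent.Lib_helper84.HSG.DefsB
import Pool.Agent.Lib_helper98.WAF.A9
import Pool.Agent.Lib_helper84.HSGF.GA1
import Pool.Agent.Lib_helper84.HSGF.GA3
import Pool.Agent.Lib_helper84.HSGF.GD1
import Pool.Agent.Lib_helper84.HSGF.GW1

namespace Pool.Agent.HSG

open Complex MeasureTheory Filter Topology UpperHalfPlane NumberField IsDedekindDomain
open scoped nonZeroDivisors MatrixGroups ENNReal

variable {K : Type} [Field K] [NumberField K]

/-! ### Tonelli for products -/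

theorem gy2_fin {n : ℕ} (f : Fin n → ℝ → ℝ≥0∞) (hf : ∀ i, Measurable (f i)) :
    ∫⁻ x : Fin n → ℝ, ∏ i, f i (x i) = ∏ i, ∫⁻ t, f i t := by
  induction n with
  | zero => simp [volume_pi, Measure.pi_empty_univ]
  | succ n ih =>
    have h1 := (volume_preserving_piFinSuccAbove (fun _ : Fin (n + 1) => ℝ) 0).symm
    rw [← h1.lintegral_comp_emb (MeasurableEquiv.measurableEmbedding _)]
    have h2 : ∀ x : ℝ × (Fin n → ℝ),
        ∏ i, f i ((MeasurableEquiv.piFinSuccAbove (fun _ : Fin (n + 1) => ℝ) 0).symm x i) =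
          f 0 x.1 * ∏ i : Fin n, f i.succ (x.2 i) := by
      intro x
      rw [Fin.prod_univ_succ]
      simp [MeasurableEquiv.piFinSuccAbove_symm_apply, Fin.insertNthEquiv]
    simp only [h2]
    rw [Fin.prod_univ_succ, ← ih (fun i => f i.succ) (fun i => hf _)]
    rw [Measure.volume_eq_prod]
    exact lintegral_prod_mul (hf 0).aemeasurable
      (Finset.measurable_prod Finset.univ
        (fun (i : Fin n) _ => (hf i.succ).comp (measurable_pi_apply i))).aemeasurable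

theorem gy2_lint {ι : Type} [Fintype ι] (f : ι → ℝ → ℝ≥0∞) (hf : ∀ i, Measurable (f i)) :
    ∫⁻ x : ι → ℝ, ∏ i, f i (x i) = ∏ i, ∫⁻ t, f i t := by
  let e := (Fintype.equivFin ι).symm
  have h1 := volume_measurePreserving_piCongrLeft (fun _ : ι => ℝ) e
  rw [← h1.lintegral_comp_emb (MeasurableEquiv.measurableEmbedding _)]
  simp_rw [← e.prod_comp, MeasurableEquiv.coe_piCongrLeft, Equiv.piCongrLeft_apply_apply]
  exact gy2_fin (fun i => f (e i)) (fun i => hf _)

theorem gy2_two {ι : Type} [Fintype ι] (F : ι → ℝ → ℝ → ℝ≥0∞)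
    (hF : ∀ w, Measurable (fun z : ℝ × ℝ => F w z.1 z.2)) :
    ∫⁻ u : ι → ℝ, ∫⁻ u' : ι → ℝ, ∏ w, F w (u w) (u' w) = ∏ w, ∫⁻ x, ∫⁻ y, F w x y := by
  have h1 : ∀ u : ι → ℝ, ∫⁻ u' : ι → ℝ, ∏ w, F w (u w) (u' w) = ∏ w, ∫⁻ y, F w (u w) y := by
    intro u
    refine gy2_lint (fun w => F w (u w)) (fun w => ?_)
    have h2 : Measurable (fun y : ℝ => ((u w, y) : ℝ × ℝ)) := measurable_prodMk_left
    exact (hF w).comp h2
  simp only [h1]
  exact gy2_lint (fun w x => ∫⁻ y, F w x y) (fun w => Measurable.lintegral_prod_right' (hF w))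

/-! ### One place -/

theorem gy2_quad {x y : ℝ} (hx : x ≠ 0) (hy : y ≠ 0) (t : ℝ) :
    |x * y| * (t - Real.log (|x| / |y|)) ^ 2 ≤
      x ^ 2 * Real.exp (-t) + y ^ 2 * Real.exp t - 2 * |x * y| := by
  have hx' : 0 < |x| := abs_pos.2 hx
  have hy' : 0 < |y| := abs_pos.2 hy
  set t₀ := Real.log (|x| / |y|) with ht₀
  have he : Real.exp t₀ = |x| / |y| := Real.exp_log (by positivity)
  have he' : Real.exp (-t₀) = |y| / |x| := by
    rw [Real.exp_neg, he, inv_div]
  have h1 : x ^ 2 = |x * y| * Real.exp t₀ := by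
    rw [he, abs_mul, ← sq_abs x]; field_simp
  have h2 : y ^ 2 = |x * y| * Real.exp (-t₀) := by
    rw [he', abs_mul, ← sq_abs y]; field_simp
  have h3 : x ^ 2 * Real.exp (-t) + y ^ 2 * Real.exp t - 2 * |x * y| =
      |x * y| * (2 * Real.cosh (t - t₀) - 2) := by
    rw [h1, h2, Real.cosh_eq]
    have e1 : Real.exp (t - t₀) = Real.exp (-t₀) * Real.exp t := by
      rw [← Real.exp_add]; congr 1; ring
    have e2 : Real.exp (-(t - t₀)) = Real.exp t₀ * Real.exp (-t) := by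
      rw [← Real.exp_add]; congr 1; ring
    rw [e1, e2]
    ring
  rw [h3]
  have h4 := WA.A8_cosh (t - t₀)
  exact mul_le_mul_of_nonneg_left (by linarith) (abs_nonneg _)

theorem gy2_loc {p q X c : ℝ} (hdet : p * q - X * c = 1) (h0 : 0 < p * q) (h1 : p * q < 1)
    {k : ℕ} (hk : 4 ≤ k) (u u' : ℝ) :
    ENNReal.ofReal (((X ^ 2 * Real.exp (-(u + u')) + c ^ 2 * Real.exp (u + u') +
      p ^ 2 * Real.exp (u' - u) + q ^ 2 * Real.exp (u - u') + 2) / 4) ^ (-(k : ℝ) / 2)) ≤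
      WA.A8K (k * (p * q * (1 - p * q)) / 16) (u + u' - Real.log (|X| / |c|)) *
        WA.A8K (k * (p * q * (1 - p * q)) / 16) (u - u' - Real.log (|p| / |q|)) := by
  have hXc : X * c = p * q - 1 := by linarith
  have hX0 : X ≠ 0 := by
    intro h; rw [h] at hXc; linarith
  have hc0 : c ≠ 0 := by
    intro h; rw [h] at hXc; linarith
  have hp0 : p ≠ 0 := by
    intro h; rw [h] at h0; simp at h0
  have hq0 : q ≠ 0 := by
    intro h; rw [h] at h0; simp at h0
  have k1 := gy2_quad hX0 hc0 (u + u')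
  have k2 := gy2_quad hp0 hq0 (u - u')
  rw [neg_sub] at k2
  have e1 : |X * c| = 1 - p * q := by
    rw [hXc, abs_of_nonpos (by linarith)]; ring
  have e2 : |p * q| = p * q := abs_of_pos h0
  rw [e1] at k1
  rw [e2] at k2
  set s₀ := Real.log (|X| / |c|)
  set t₀ := Real.log (|p| / |q|)
  set x := p * q
  have hm1 : x * (1 - x) ≤ 1 - x := by nlinarith
  have hm2 : x * (1 - x) ≤ x := by nlinarith
  have hm0 : 0 < x * (1 - x) := mul_pos h0 (by linarith)
  have g1 : x * (1 - x) * (u + u' - s₀) ^ 2 ≤ (1 - x) * (u + u' - s₀) ^ 2 :=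
    mul_le_mul_of_nonneg_right hm1 (sq_nonneg _)
  have g2 : x * (1 - x) * (u - u' - t₀) ^ 2 ≤ x * (u - u' - t₀) ^ 2 :=
    mul_le_mul_of_nonneg_right hm2 (sq_nonneg _)
  have hx : 1 + x * (1 - x) * (u + u' - s₀) ^ 2 / 4 + x * (1 - x) * (u - u' - t₀) ^ 2 / 4 ≤
      (X ^ 2 * Real.exp (-(u + u')) + c ^ 2 * Real.exp (u + u') +
      p ^ 2 * Real.exp (u' - u) + q ^ 2 * Real.exp (u - u') + 2) / 4 := by
    linarith
  have hfin := WA.A9_pow hk (by positivity) (by positivity) hx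
  unfold WA.A8K
  rw [← ENNReal.ofReal_mul (by positivity)]
  apply ENNReal.ofReal_le_ofReal
  refine hfin.trans (le_of_eq ?_)
  congr 3
  · ring
  · ring

section tr
variable [IsTotallyReal K]

theorem gy2_norm {n : ℕ} (hn : 1 ≤ n) {x : K} (hx : x ≠ 0) (h : (n : K) * x ∈ (1 : Id K).m) :
    1 ≤ (n : ℝ) ^ (dg K) * ∏ w : Em K, |w x| := by
  have hn0 : (n : K) ≠ 0 := by
    have : n ≠ 0 := by omega
    exact_mod_cast this
  have h1 := nI_mem (a := (1 : Id K)) (x := Units.mk0 ((n : K) * x) (mul_ne_zero hn0 hx)) h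
  rw [nI_one, nI_prI] at h1
  simp only [Units.val_mk0, map_mul, map_natCast, abs_mul, Finset.prod_mul_distrib,
    Finset.prod_const, Finset.card_univ, Nat.abs_cast] at h1
  rw [card_em] at h1
  exact h1

omit [IsTotallyReal K] in
theorem gy2_mul {Q : ℕ} {x y : K} (hx : (Q : K) * x ∈ (1 : Id K).m)
    (hy : (Q : K) * y ∈ (1 : Id K).m) : ((Q ^ 2 : ℕ) : K) * (x * y) ∈ (1 : Id K).m := by
  have h := mem_mul_of hx hy
  rw [mul_one] at h
  have e : ((Q ^ 2 : ℕ) : K) * (x * y) = (Q : K) * x * ((Q : K) * y) := by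
    push_cast; ring
  rw [e]
  exact h

theorem gy2_big {k Q : ℕ} {V : ℝ} {m : Matrix (Fin 2) (Fin 2) K} (hk : 4 ≤ k) (hQ : 1 ≤ Q)
    (hm : m ∈ MQ K Q) (hI : Inr m V) :
    ∫⁻ u in box K V, ∫⁻ u' in box K V,
        ENNReal.ofReal ((∏ w, chm m u u' w) ^ (-(k : ℝ) / 2)) ≤
      ENNReal.ofReal ((8 * Real.pi ^ 2) ^ (dg K) * (Q : ℝ) ^ (4 * dg K) *
        ((k : ℝ) ^ (dg K))⁻¹) := by
  obtain ⟨hdet, hint⟩ := hm
  obtain ⟨hx01, _⟩ := hI
  have hge : ∀ u u' w, 1 ≤ chm m u u' w := fun u u' w => chm_ge m hdet u u' w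
  rw [Matrix.det_fin_two] at hdet
  set μ : Em K → ℝ := fun w => w (m 0 0 * m 1 1) * (1 - w (m 0 0 * m 1 1)) with hμ
  have hμ0 : ∀ w, 0 < μ w := fun w => mul_pos (hx01 w).1 (by have := (hx01 w).2; linarith)
  set S : Em K → ℝ := fun w => Real.log (|w (m 0 1)| / |w (m 1 0)|)
  set T : Em K → ℝ := fun w => Real.log (|w (m 0 0)| / |w (m 1 1)|)
  have hkr : (4 : ℝ) ≤ k := by exact_mod_cast hk
  have hk0 : (0 : ℝ) < k := by linarith
  have hκ : ∀ w, 0 < (k : ℝ) * μ w / 16 := fun w => by have := hμ0 w; positivity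
  set F : Em K → ℝ → ℝ → ℝ≥0∞ := fun w x y =>
    WA.A8K (k * μ w / 16) (x + y - S w) * WA.A8K (k * μ w / 16) (x - y - T w) with hF
  have hpt : ∀ u u' : Em K → ℝ, ENNReal.ofReal ((∏ w, chm m u u' w) ^ (-(k : ℝ) / 2)) ≤
      ∏ w, F w (u w) (u' w) := by
    intro u u'
    rw [← Real.finsetProd_rpow _ _ (fun w _ => le_trans zero_le_one (hge u u' w)),
      ENNReal.ofReal_prod_of_nonneg
        (fun w _ => Real.rpow_nonneg (le_trans zero_le_one (hge u u' w)) _)]
    refine Finset.prod_le_prod' fun w _ => ?_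
    have hd : w (m 0 0) * w (m 1 1) - w (m 0 1) * w (m 1 0) = 1 := by
      rw [← map_mul, ← map_mul, ← map_sub, hdet, map_one]
    have h0 := (hx01 w).1
    have h1 := (hx01 w).2
    rw [map_mul] at h0 h1
    have := gy2_loc hd h0 h1 hk (u w) (u' w)
    simp only [hF, hμ, map_mul]
    exact this
  have hFm : ∀ w, Measurable (fun z : ℝ × ℝ => F w z.1 z.2) := by
    intro w
    have hK := WA.A8K_meas (k * μ w / 16)
    have g1 : Measurable (fun z : ℝ × ℝ => z.1 + z.2 - S w) := by fun_prop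
    have g2 : Measurable (fun z : ℝ × ℝ => z.1 - z.2 - T w) := by fun_prop
    exact (hK.comp g1).mul (hK.comp g2)
  calc ∫⁻ u in box K V, ∫⁻ u' in box K V,
        ENNReal.ofReal ((∏ w, chm m u u' w) ^ (-(k : ℝ) / 2))
      ≤ ∫⁻ u : Em K → ℝ, ∫⁻ u' : Em K → ℝ, ∏ w, F w (u w) (u' w) := by
        refine le_trans (setLIntegral_le_lintegral _ _) (lintegral_mono fun u => ?_)
        exact le_trans (setLIntegral_le_lintegral _ _) (lintegral_mono fun u' => hpt u u')
    _ = ∏ w, ∫⁻ x, ∫⁻ y, F w x y := gy2_two F hFm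
    _ = ∏ w : Em K, ENNReal.ofReal (Real.pi ^ 2 / (2 * (k * μ w / 16))) := by
        refine Finset.prod_congr rfl fun w _ => ?_
        exact WA.A9_int2 (hκ w) (S w) (T w)
    _ = ENNReal.ofReal (∏ w : Em K, Real.pi ^ 2 / (2 * (k * μ w / 16))) := by
        rw [ENNReal.ofReal_prod_of_nonneg]
        intro w _
        have := hκ w
        positivity
    _ ≤ _ := by
        apply ENNReal.ofReal_le_ofReal
        have e1 : ∀ w : Em K, Real.pi ^ 2 / (2 * (k * μ w / 16)) =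
            8 * Real.pi ^ 2 * (k : ℝ)⁻¹ * (μ w)⁻¹ := by
          intro w
          have := hμ0 w
          field_simp
          ring
        simp only [e1, Finset.prod_mul_distrib, Finset.prod_const, Finset.card_univ, card_em]
        have hx0 : m 0 0 * m 1 1 ≠ 0 := by
          intro h
          obtain ⟨w⟩ : Nonempty (Em K) := by
            rw [← Fintype.card_pos_iff, card_em]; exact dg_pos
          have := (hx01 w).1
          rw [h, map_zero] at this
          exact lt_irrefl _ this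
        have hx1 : m 0 1 * m 1 0 ≠ 0 := by
          intro h
          obtain ⟨w⟩ : Nonempty (Em K) := by
            rw [← Fintype.card_pos_iff, card_em]; exact dg_pos
          have h2 := (hx01 w).2
          rw [h, sub_zero] at hdet
          rw [hdet, map_one] at h2
          exact lt_irrefl _ h2
        have hQ2 : 1 ≤ Q ^ 2 := Nat.one_le_pow _ _ (by omega)
        have n1 := gy2_norm hQ2 hx0 (gy2_mul (hint 0 0) (hint 1 1))
        have n2 := gy2_norm hQ2 hx1 (gy2_mul (hint 0 1) (hint 1 0))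
        have e2 : ∏ w : Em K, μ w = (∏ w : Em K, |w (m 0 0 * m 1 1)|) *
            ∏ w : Em K, |w (m 0 1 * m 1 0)| := by
          rw [← Finset.prod_mul_distrib]
          refine Finset.prod_congr rfl fun w _ => ?_
          have h3 : m 0 1 * m 1 0 = m 0 0 * m 1 1 - 1 := by rw [← hdet]; ring
          rw [h3, map_sub, map_one, abs_of_pos (hx01 w).1,
            abs_of_nonpos (by have := (hx01 w).2; linarith)]
          simp only [hμ]
          ring
        have hP : 0 < ∏ w : Em K, μ w := Finset.prod_pos fun w _ => hμ0 w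
        have e3 : ∏ w : Em K, (μ w)⁻¹ ≤ (Q : ℝ) ^ (4 * dg K) := by
          rw [Finset.prod_inv_distrib, inv_le_iff_one_le_mul₀ hP, e2]
          have e4 : (Q : ℝ) ^ (4 * dg K) = ((Q ^ 2 : ℕ) : ℝ) ^ (dg K) * ((Q ^ 2 : ℕ) : ℝ) ^ (dg K) := by
            push_cast
            rw [← pow_mul, ← pow_add]
            congr 1
            ring
          rw [e4]
          calc (1 : ℝ) ≤ (((Q ^ 2 : ℕ) : ℝ) ^ (dg K) * ∏ w : Em K, |w (m 0 0 * m 1 1)|) *
                (((Q ^ 2 : ℕ) : ℝ) ^ (dg K) * ∏ w : Em K, |w (m 0 1 * m 1 0)|) :=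
                one_le_mul_of_one_le_of_one_le n1 n2
            _ = _ := by ring
        rw [mul_pow, inv_pow]
        calc (8 : ℝ) ^ dg K * (Real.pi ^ 2) ^ dg K * ((k : ℝ) ^ dg K)⁻¹ * ∏ w : Em K, (μ w)⁻¹
            ≤ (8 : ℝ) ^ dg K * (Real.pi ^ 2) ^ dg K * ((k : ℝ) ^ dg K)⁻¹ * (Q : ℝ) ^ (4 * dg K) :=
              mul_le_mul_of_nonneg_left e3 (by positivity)
          _ = _ := by ring

theorem gy2_small {k Q : ℕ} {V : ℝ} {m : Matrix (Fin 2) (Fin 2) K} (hk1 : 1 ≤ k) (hk : k < 4)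
    (hQ : 1 ≤ Q) (hV : 0 ≤ V) (hm : m ∈ MQ K Q) :
    ∫⁻ u in box K V, ∫⁻ u' in box K V,
        ENNReal.ofReal ((∏ w, chm m u u' w) ^ (-(k : ℝ) / 2)) ≤
      ENNReal.ofReal ((8 * Real.pi ^ 2) ^ (dg K) * (Q : ℝ) ^ (4 * dg K) *
        Real.exp (((4 * dg K : ℕ) : ℝ) * V) * ((k : ℝ) ^ (dg K))⁻¹) := by
  obtain ⟨hdet, hint⟩ := hm
  have hge : ∀ u u' w, 1 ≤ chm m u u' w := fun u u' w => chm_ge m hdet u u' w
  have hbox : box K V = Set.Icc (fun _ : Em K => -V) (fun _ => V) := by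
    ext u
    simp only [box, Set.mem_ofPred_eq, Set.mem_Icc, Pi.le_def, abs_le]
    exact forall_and
  have hvol : (volume : Measure (Em K → ℝ)) (box K V) = ENNReal.ofReal ((2 * V) ^ (dg K)) := by
    rw [hbox, Real.volume_Icc_pi]
    simp only [sub_neg_eq_add, Finset.prod_const, Finset.card_univ, card_em]
    rw [← two_mul, ENNReal.ofReal_pow (by linarith)]
  have hle : ∀ u u' : Em K → ℝ,
      ENNReal.ofReal ((∏ w, chm m u u' w) ^ (-(k : ℝ) / 2)) ≤ 1 := by
    intro u u'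
    rw [← ENNReal.ofReal_one]
    apply ENNReal.ofReal_le_ofReal
    have h1 : 1 ≤ ∏ w, chm m u u' w :=
      Finset.prod_induction _ (fun x => 1 ≤ x)
        (fun a b ha hb => one_le_mul_of_one_le_of_one_le ha hb) le_rfl (fun w _ => hge u u' w)
    apply Real.rpow_le_one_of_one_le_of_nonpos h1
    have : (0 : ℝ) ≤ k := Nat.cast_nonneg k
    linarith
  calc ∫⁻ u in box K V, ∫⁻ u' in box K V,
        ENNReal.ofReal ((∏ w, chm m u u' w) ^ (-(k : ℝ) / 2))
      ≤ ∫⁻ _u in box K V, ∫⁻ _u' in box K V, 1 :=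
        lintegral_mono fun u => lintegral_mono fun u' => hle u u'
    _ = ENNReal.ofReal ((2 * V) ^ (dg K)) * ENNReal.ofReal ((2 * V) ^ (dg K)) := by
        simp only [lintegral_const, MeasurableSet.univ, Measure.restrict_apply, Set.univ_inter,
          one_mul, hvol]
    _ = ENNReal.ofReal ((2 * V) ^ (dg K) * (2 * V) ^ (dg K)) := by
        rw [ENNReal.ofReal_mul (by positivity)]
    _ ≤ _ := by
        apply ENNReal.ofReal_le_ofReal
        have h2V : 2 * V ≤ Real.exp (2 * V) := by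
          have := Real.add_one_le_exp (2 * V); linarith
        have h1 : (2 * V) ^ (dg K) ≤ Real.exp (2 * V) ^ (dg K) :=
          pow_le_pow_left₀ (by linarith) h2V _
        have h2 : (2 * V) ^ (dg K) * (2 * V) ^ (dg K) ≤ Real.exp (((4 * dg K : ℕ) : ℝ) * V) := by
          calc (2 * V) ^ (dg K) * (2 * V) ^ (dg K) ≤
              Real.exp (2 * V) ^ (dg K) * Real.exp (2 * V) ^ (dg K) :=
                mul_le_mul h1 h1 (by positivity) (by positivity)
            _ = Real.exp (((4 * dg K : ℕ) : ℝ) * V) := by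
                rw [← Real.exp_nat_mul, ← Real.exp_add]
                congr 1
                push_cast
                ring
        have hk0 : (0 : ℝ) < k := by exact_mod_cast hk1
        have hk3 : (k : ℝ) ≤ 8 * Real.pi ^ 2 := by
          have h3 : (k : ℝ) ≤ 3 := by exact_mod_cast (by omega : k ≤ 3)
          have := Real.pi_gt_three
          nlinarith
        have h4 : 1 ≤ (8 * Real.pi ^ 2) ^ (dg K) * ((k : ℝ) ^ (dg K))⁻¹ := by
          rw [← inv_pow, ← mul_pow]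
          apply one_le_pow₀
          rw [← div_eq_mul_inv, one_le_div hk0]
          exact hk3
        have h5 : (1 : ℝ) ≤ (Q : ℝ) ^ (4 * dg K) := one_le_pow₀ (by exact_mod_cast hQ)
        calc (2 * V) ^ (dg K) * (2 * V) ^ (dg K) ≤ Real.exp (((4 * dg K : ℕ) : ℝ) * V) := h2
          _ = 1 * 1 * Real.exp (((4 * dg K : ℕ) : ℝ) * V) := by ring
          _ ≤ ((8 * Real.pi ^ 2) ^ (dg K) * ((k : ℝ) ^ (dg K))⁻¹) * (Q : ℝ) ^ (4 * dg K) *
              Real.exp (((4 * dg K : ℕ) : ℝ) * V) := by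
              apply mul_le_mul_of_nonneg_right _ (Real.exp_pos _).le
              exact mul_le_mul h4 h5 zero_le_one (by positivity)
          _ = _ := by ring

theorem inr_int : ∃ C E : ℝ, 0 < C ∧ 0 < E ∧ ∀ (k Q : ℕ) (V : ℝ) (m : Matrix (Fin 2) (Fin 2) K),
    1 ≤ k → 1 ≤ Q → 0 ≤ V → m ∈ MQ K Q → Inr m V →
    ∫⁻ u in box K V, ∫⁻ u' in box K V,
        ENNReal.ofReal ((∏ w, chm m u u' w) ^ (-(k : ℝ) / 2)) ≤
      ENNReal.ofReal (C * (Q : ℝ) ^ E * Real.exp (E * V) * (k : ℝ) ^ (-(dg K : ℝ))) := by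
  have hd := dg_pos (K := K)
  refine ⟨(8 * Real.pi ^ 2) ^ (dg K), ((4 * dg K : ℕ) : ℝ), by positivity, ?_, ?_⟩
  · have : 0 < 4 * dg K := by omega
    exact_mod_cast this
  intro k Q V m hk1 hQ hV hm hI
  have hk0 : (0 : ℝ) < k := by exact_mod_cast hk1
  rw [Real.rpow_natCast, Real.rpow_neg hk0.le, Real.rpow_natCast]
  by_cases hk : 4 ≤ k
  · refine (gy2_big hk hQ hm hI).trans (ENNReal.ofReal_le_ofReal ?_)
    apply mul_le_mul_of_nonneg_right _ (by positivity)
    apply le_mul_of_one_le_right (by positivity)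
    apply Real.one_le_exp
    positivity
  · exact gy2_small hk1 (by omega) hQ hV hm


end tr

end Pool.Agent.HSG
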