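import Pool.Agent.Lib_helper84.HSG.DefsB
import Pool.Agent.Lib_helper84.HSGF.GE2

/-! # HSG block GY3 (INC): the number of interior matrices -/

namespace Pool.Agent.HSG

open Complex MeasureTheory Filter Topology UpperHalfPlane NumberField IsDedekindDomain
open scoped nonZeroDivisors MatrixGroups ENNReal

variable {K : Type} [Field K] [NumberField K]

section tr4
variable [IsTotallyReal K]

theorem inr_card : ∃ C E : ℝ, 0 < C ∧ 0 < E ∧ ∀ (Q : ℕ) (V : ℝ), 1 ≤ Q → 0 ≤ V →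
    {m : Matrix (Fin 2) (Fin 2) K | m ∈ MQ K Q ∧ Inr m V}.Finite ∧
    ({m : Matrix (Fin 2) (Fin 2) K | m ∈ MQ K Q ∧ Inr m V}.ncard : ℝ) ≤
      C * (Q : ℝ) ^ E * Real.exp (E * V) := by
  obtain ⟨C, hC, hcnt⟩ := cnt_box (1 : Id K)
  have hd : 0 < dg K := Module.finrank_pos
  refine ⟨(C * 5 ^ dg K) ^ 4, ((4 * dg K : ℕ) : ℝ), by positivity, by positivity, ?_⟩
  intro Q V hQ hV
  have hQr : (1 : ℝ) ≤ Q := by exact_mod_cast hQ
  have hQK : (Q : K) ≠ 0 := by exact_mod_cast (by omega : Q ≠ 0)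
  have heV : 1 ≤ Real.exp V := Real.one_le_exp hV
  set T : ℝ := 4 * Q * Real.exp V with hT
  have hT0 : 0 ≤ T := by positivity
  have hfin := box_finite (1 : Id K) T
  set s : Finset K := hfin.toFinset with hs
  have hcard : (s.card : ℝ) ≤ C * (1 + T) ^ dg K := by
    refine hcnt (fun _ => 0) T hT0 s (fun x hx => ?_)
    have h1 := hfin.mem_toFinset.1 hx
    exact ⟨h1.1, fun w => by simpa using h1.2 w⟩
  classical
  set t : Finset (Fin 2 × Fin 2 → K) := Fintype.piFinset (fun _ => s) with ht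
  set φ : Matrix (Fin 2) (Fin 2) K → (Fin 2 × Fin 2 → K) := fun m p => (Q : K) * m p.1 p.2 with hφ
  have hmaps : ∀ m ∈ {m : Matrix (Fin 2) (Fin 2) K | m ∈ MQ K Q ∧ Inr m V},
      φ m ∈ (t : Set (Fin 2 × Fin 2 → K)) := by
    rintro m ⟨h1, h2⟩
    rw [ht, Finset.mem_coe, Fintype.mem_piFinset]
    intro p
    rw [hs, Set.Finite.mem_toFinset]
    refine ⟨h1.2 p.1 p.2, fun w => ?_⟩
    rw [hφ]
    simp only []
    rw [map_mul, map_natCast, abs_mul, abs_of_nonneg (by positivity : (0 : ℝ) ≤ (Q : ℝ))]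
    calc (Q : ℝ) * |w (m p.1 p.2)| ≤ Q * (4 * Real.exp V) :=
          mul_le_mul_of_nonneg_left (h2.2 p.1 p.2 w) (by positivity)
      _ = T := by rw [hT]; ring
  have hinj : Set.InjOn φ {m : Matrix (Fin 2) (Fin 2) K | m ∈ MQ K Q ∧ Inr m V} := by
    intro m _ m' _ h
    ext i k
    have h1 := congrFun h (i, k)
    exact mul_left_cancel₀ hQK h1
  refine ⟨Set.Finite.of_injOn hmaps hinj t.finite_toSet, ?_⟩
  have h1 := Set.ncard_le_ncard_of_injOn φ hmaps hinj t.finite_toSet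
  rw [Set.ncard_coe_finset] at h1
  have h2 : t.card = s.card ^ 4 := by
    rw [ht, Fintype.card_piFinset]
    simp
  have h3 : 1 + T ≤ 5 * (Q * Real.exp V) := by
    have : 1 ≤ (Q : ℝ) * Real.exp V := one_le_mul_of_one_le_of_one_le hQr heV
    rw [hT]
    linarith
  calc ({m : Matrix (Fin 2) (Fin 2) K | m ∈ MQ K Q ∧ Inr m V}.ncard : ℝ) ≤ (t.card : ℝ) := by
        exact_mod_cast h1
    _ = (s.card : ℝ) ^ 4 := by rw [h2]; push_cast; ring
    _ ≤ (C * (1 + T) ^ dg K) ^ 4 := pow_le_pow_left₀ (by positivity) hcard 4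
    _ ≤ (C * (5 * (Q * Real.exp V)) ^ dg K) ^ 4 := by
        refine pow_le_pow_left₀ (by positivity) ?_ 4
        exact mul_le_mul_of_nonneg_left (pow_le_pow_left₀ (by positivity) h3 _) hC.le
    _ = (C * 5 ^ dg K) ^ 4 * (Q : ℝ) ^ ((4 * dg K : ℕ) : ℝ) *
        Real.exp (((4 * dg K : ℕ) : ℝ) * V) := by
        rw [Real.rpow_natCast, Real.exp_nat_mul, mul_pow, mul_pow, mul_pow, mul_pow, mul_pow,
          ← pow_mul, ← pow_mul, ← pow_mul, mul_comm (dg K) 4]
        ring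

end tr4


end Pool.Agent.HSG
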