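import Pool.Agent.Lib_helper84.HSG.DefsB
import Pool.Agent.Lib_helper84.HSGF.GW1
import Pool.Agent.Lib_helper84.HSGF.GX
import Pool.Agent.Lib_helper84.HSGF.GY1
import Pool.Agent.Lib_helper84.HSGF.GY2
import Pool.Agent.Lib_helper84.HSGF.GY3

namespace Pool.Agent.HSG

open Complex MeasureTheory Filter Topology UpperHalfPlane NumberField IsDedekindDomain
open scoped nonZeroDivisors MatrixGroups ENNReal

variable {K : Type} [Field K] [NumberField K]

theorem gy4_countable (K : Type) [Field K] [NumberField K] :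
    Countable (Matrix (Fin 2) (Fin 2) K) := by
  have h1 : Countable K :=
    (Module.finBasis ℚ K).equivFun.toEquiv.countable_iff.mpr inferInstance
  unfold Matrix
  infer_instance

omit [NumberField K] in
theorem gy4_chm_cont (m : Matrix (Fin 2) (Fin 2) K) (w : Em K) :
    Continuous (fun p : (Em K → ℝ) × (Em K → ℝ) => chm m p.1 p.2 w) := by
  unfold chm
  fun_prop

theorem gy4_meas (m : Matrix (Fin 2) (Fin 2) K) (s : ℝ) :
    Measurable (fun p : (Em K → ℝ) × (Em K → ℝ) =>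
      ENNReal.ofReal ((∏ w, chm m p.1 p.2 w) ^ s)) := by
  have h1 : Measurable (fun p : (Em K → ℝ) × (Em K → ℝ) => ∏ w, chm m p.1 p.2 w) :=
    (continuous_finsetProd _ fun w _ => gy4_chm_cont m w).measurable
  exact (h1.pow_const s).ennreal_ofReal

theorem gy4_box_meas (V : ℝ) : MeasurableSet (box K V) := by
  have h : box K V = ⋂ w : Em K, {u : Em K → ℝ | |u w| ≤ V} := by
    ext u
    simp [box]
  rw [h]
  refine MeasurableSet.iInter fun w => ?_
  exact measurableSet_le ((measurable_pi_apply w).norm) measurable_const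

theorem gy4_box_vol {V : ℝ} (hV : 0 ≤ V) :
    volume (box K V) = ENNReal.ofReal ((2 * V) ^ Fintype.card (Em K)) := by
  have h : box K V = Set.pi Set.univ (fun _ : Em K => Set.Icc (-V) V) := by
    ext u
    simp only [box, Set.mem_ofPred_eq, Set.mem_pi, Set.mem_univ, forall_true_left, Set.mem_Icc,
      abs_le]
  rw [h, volume_pi_pi]
  simp only [Real.volume_Icc, Finset.prod_const, Finset.card_univ]
  rw [ENNReal.ofReal_pow (by linarith)]
  congr 2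
  ring

/-- `(1+δ)^{-n} ≤ d! (8/(kδ))^d` -/
theorem gy4_gap {δ : ℝ} (hδ : 0 < δ) (hδ1 : δ ≤ 1) (d k : ℕ) (hk : 1 ≤ k) {n : ℝ}
    (hn : (k : ℝ) / 4 ≤ n) :
    (1 + δ) ^ (-n) ≤ (d.factorial : ℝ) * 8 ^ d * (δ ^ d)⁻¹ * ((k : ℝ) ^ (-(d : ℝ))) := by
  have hk0 : (0 : ℝ) < k := by exact_mod_cast (by omega : 0 < k)
  have h1 : δ / 2 ≤ Real.log (1 + δ) := by
    have h2 := Real.one_sub_inv_le_log_of_pos (by linarith : 0 < 1 + δ)
    have h3 : δ / 2 ≤ 1 - (1 + δ)⁻¹ := by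
      rw [div_le_iff₀ (by norm_num)]
      have h4 : (1 + δ) * (1 + δ)⁻¹ = 1 := mul_inv_cancel₀ (by linarith)
      have h5 : 0 < (1 + δ)⁻¹ := inv_pos.mpr (by linarith)
      nlinarith
    linarith
  have h6 : (1 + δ) ^ (-n) = Real.exp (-(n * Real.log (1 + δ))) := by
    rw [Real.rpow_def_of_pos (by linarith)]
    congr 1
    ring
  have h7 : (k : ℝ) * δ / 8 ≤ n * Real.log (1 + δ) := by
    have h8 : (k : ℝ) / 4 * (δ / 2) ≤ n * Real.log (1 + δ) :=
      mul_le_mul hn h1 (by linarith) (le_trans (by positivity) hn)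
    linarith
  have hx : 0 < (k : ℝ) * δ / 8 := by positivity
  have h9 : ((k : ℝ) * δ / 8) ^ d / d.factorial ≤ Real.exp ((k : ℝ) * δ / 8) :=
    Real.pow_div_factorial_le_exp _ hx.le d
  have hfac : (0 : ℝ) < d.factorial := by exact_mod_cast Nat.factorial_pos d
  have h10 : Real.exp (-((k : ℝ) * δ / 8)) ≤ (d.factorial : ℝ) / ((k : ℝ) * δ / 8) ^ d := by
    rw [Real.exp_neg, inv_le_comm₀ (Real.exp_pos _) (by positivity), inv_div]
    exact h9
  calc (1 + δ) ^ (-n) ≤ Real.exp (-((k : ℝ) * δ / 8)) := by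
        rw [h6]
        exact Real.exp_le_exp.mpr (by linarith)
    _ ≤ (d.factorial : ℝ) / ((k : ℝ) * δ / 8) ^ d := h10
    _ = (d.factorial : ℝ) * 8 ^ d * (δ ^ d)⁻¹ * ((k : ℝ) ^ (-(d : ℝ))) := by
        rw [Real.rpow_neg hk0.le, Real.rpow_natCast, div_pow, mul_pow]
        field_simp

section tr4
variable [IsTotallyReal K]

theorem gy4_one_le {Q : ℕ} {m : Matrix (Fin 2) (Fin 2) K} (hm : m ∈ MQ K Q)
    (u u' : Em K → ℝ) : 1 ≤ ∏ w, chm m u u' w := by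
  calc (1 : ℝ) = ∏ _w : Em K, (1 : ℝ) := by simp
    _ ≤ ∏ w, chm m u u' w :=
      Finset.prod_le_prod (fun _ _ => zero_le_one) (fun w _ => chm_ge m hm.1 u u' w)

/-- the part of the interior matrices -/
theorem gy4_inr (k Q : ℕ) (V : ℝ) {B0 : ℝ} {N : ℝ} (hB : 0 ≤ B0)
    (hfin : {m : Matrix (Fin 2) (Fin 2) K | m ∈ MQ K Q ∧ Inr m V}.Finite)
    (hN : ({m : Matrix (Fin 2) (Fin 2) K | m ∈ MQ K Q ∧ Inr m V}.ncard : ℝ) ≤ N)
    {I : Matrix (Fin 2) (Fin 2) K → ℝ≥0∞}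
    (hI : ∀ m : Matrix (Fin 2) (Fin 2) K, m ∈ MQ K Q → Inr m V → I m ≤ ENNReal.ofReal B0) :
    ∑' m : {m : Matrix (Fin 2) (Fin 2) K // m ∈ MQ K Q ∧ ¬ Mono m},
      {m : Matrix (Fin 2) (Fin 2) K | Inr m V}.indicator I m.1 ≤ ENNReal.ofReal (N * B0) := by
  classical
  set T : Set (Matrix (Fin 2) (Fin 2) K) := {m | m ∈ MQ K Q ∧ Inr m V} with hT
  have h1 : ∑' m : {m : Matrix (Fin 2) (Fin 2) K // m ∈ MQ K Q ∧ ¬ Mono m},
      {m : Matrix (Fin 2) (Fin 2) K | Inr m V}.indicator I m.1 ≤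
      ∑' m : {m : Matrix (Fin 2) (Fin 2) K // m ∈ MQ K Q ∧ ¬ Mono m},
        T.indicator (fun _ => ENNReal.ofReal B0) m.1 := by
    refine ENNReal.tsum_le_tsum fun m => ?_
    by_cases hm : Inr m.1 V
    · rw [Set.indicator_of_mem (show m.1 ∈ {m | Inr m V} from hm),
        Set.indicator_of_mem (show m.1 ∈ T from ⟨m.2.1, hm⟩)]
      exact hI m.1 m.2.1 hm
    · rw [Set.indicator_of_notMem (show m.1 ∉ {m | Inr m V} from hm)]
      exact bot_le
  refine h1.trans ?_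
  refine (ENNReal.tsum_comp_le_tsum_of_injective (f := Subtype.val) Subtype.val_injective
    (T.indicator (fun _ => ENNReal.ofReal B0))).trans ?_
  have h2 : ∑' m, T.indicator (fun _ => ENNReal.ofReal B0) m =
      (T.ncard : ℝ≥0∞) * ENNReal.ofReal B0 := by
    rw [tsum_eq_sum (s := hfin.toFinset)]
    · rw [Finset.sum_congr rfl (g := fun _ => ENNReal.ofReal B0)]
      · rw [Finset.sum_const, nsmul_eq_mul, Set.ncard_eq_toFinset_card T hfin]
      · intro m hm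
        rw [Set.indicator_of_mem]
        exact hfin.mem_toFinset.mp hm
    · intro m hm
      rw [Set.indicator_of_notMem]
      intro h
      exact hm (hfin.mem_toFinset.mpr h)
  rw [h2, ENNReal.ofReal_mul' hB]
  refine mul_le_mul_left ?_ _
  calc (T.ncard : ℝ≥0∞) = ENNReal.ofReal (T.ncard : ℝ) := (ENNReal.ofReal_natCast _).symm
    _ ≤ ENNReal.ofReal N := ENNReal.ofReal_le_ofReal hN

/-- the other matrices -/
theorem gy4_out (k Q : ℕ) {V : ℝ} (hV : 0 ≤ V) {δ S : ℝ} (hδ : 0 < δ) (hS : 0 ≤ S)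
    (hk : 16 * dg K ≤ k)
    (hgap : ∀ (m : Matrix (Fin 2) (Fin 2) K) (u u' : Em K → ℝ), m ∈ MQ K Q → ¬ Mono m →
      ¬ Inr m V → (∀ w, |u w| ≤ V) → (∀ w, |u' w| ≤ V) → 1 + δ ≤ ∏ w, chm m u u' w)
    (hsum : ∀ (u u' : Em K → ℝ), (∀ w, |u w| ≤ V) → (∀ w, |u' w| ≤ V) →
      ∑' m : MQ K Q, ENNReal.ofReal ((∏ w, chm m.1 u u' w) ^ (-(4 * (dg K : ℝ)))) ≤
      ENNReal.ofReal S) :
    ∑' m : {m : Matrix (Fin 2) (Fin 2) K // m ∈ MQ K Q ∧ ¬ Mono m},
      {m : Matrix (Fin 2) (Fin 2) K | ¬ Inr m V}.indicator (fun m =>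
      ∫⁻ u in box K V, ∫⁻ u' in box K V,
        ENNReal.ofReal ((∏ w, chm m u u' w) ^ (-(k : ℝ) / 2))) m.1 ≤
      ENNReal.ofReal ((1 + δ) ^ (-((k : ℝ) / 2 - 4 * dg K)) * S *
        ((2 * V) ^ Fintype.card (Em K) * (2 * V) ^ Fintype.card (Em K))) := by
  classical
  have := gy4_countable K
  set D : ℝ := (1 + δ) ^ (-((k : ℝ) / 2 - 4 * dg K)) with hD
  have hD0 : 0 ≤ D := Real.rpow_nonneg (by linarith) _
  have hkR : 16 * (dg K : ℝ) ≤ k := by exact_mod_cast hk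
  have hn : 0 ≤ (k : ℝ) / 2 - 4 * dg K := by
    have : (0 : ℝ) ≤ dg K := Nat.cast_nonneg _
    linarith
  have hpt : ∀ (m : {m : Matrix (Fin 2) (Fin 2) K // m ∈ MQ K Q ∧ ¬ Mono m}) (u u' : Em K → ℝ),
      ¬ Inr m.1 V → u ∈ box K V → u' ∈ box K V →
      ENNReal.ofReal ((∏ w, chm m.1 u u' w) ^ (-(k : ℝ) / 2)) ≤
        ENNReal.ofReal D * ENNReal.ofReal ((∏ w, chm m.1 u u' w) ^ (-(4 * (dg K : ℝ)))) := by
    intro m u u' hI hu hu'
    rw [← ENNReal.ofReal_mul hD0]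
    apply ENNReal.ofReal_le_ofReal
    have h1 := hgap m.1 u u' m.2.1 m.2.2 hI hu hu'
    have h0 : 0 < ∏ w, chm m.1 u u' w := by linarith
    have h2 : (∏ w, chm m.1 u u' w) ^ (-(k : ℝ) / 2) =
        (∏ w, chm m.1 u u' w) ^ (-((k : ℝ) / 2 - 4 * dg K)) *
          (∏ w, chm m.1 u u' w) ^ (-(4 * (dg K : ℝ))) := by
      rw [← Real.rpow_add h0]
      congr 1
      ring
    rw [h2]
    refine mul_le_mul_of_nonneg_right ?_ (Real.rpow_nonneg h0.le _)
    exact Real.rpow_le_rpow_of_nonpos (by linarith) h1 (by linarith)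
  have hmb := gy4_box_meas (K := K) V
  calc ∑' m : {m : Matrix (Fin 2) (Fin 2) K // m ∈ MQ K Q ∧ ¬ Mono m},
      {m : Matrix (Fin 2) (Fin 2) K | ¬ Inr m V}.indicator (fun m =>
      ∫⁻ u in box K V, ∫⁻ u' in box K V,
        ENNReal.ofReal ((∏ w, chm m u u' w) ^ (-(k : ℝ) / 2))) m.1
      ≤ ∑' m : {m : Matrix (Fin 2) (Fin 2) K // m ∈ MQ K Q ∧ ¬ Mono m},
        ∫⁻ u in box K V, ∫⁻ u' in box K V,
          ENNReal.ofReal D *
            ENNReal.ofReal ((∏ w, chm m.1 u u' w) ^ (-(4 * (dg K : ℝ)))) := by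
        refine ENNReal.tsum_le_tsum fun m => ?_
        by_cases hI : Inr m.1 V
        · rw [Set.indicator_of_notMem (show m.1 ∉ {m | ¬ Inr m V} from fun h => h hI)]
          exact bot_le
        · rw [Set.indicator_of_mem (show m.1 ∈ {m | ¬ Inr m V} from hI)]
          refine setLIntegral_mono' hmb fun u hu => ?_
          refine setLIntegral_mono' hmb fun u' hu' => ?_
          exact hpt m u u' hI hu hu'
    _ = ∫⁻ u in box K V, ∫⁻ u' in box K V,
          ∑' m : {m : Matrix (Fin 2) (Fin 2) K // m ∈ MQ K Q ∧ ¬ Mono m},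
          ENNReal.ofReal D *
            ENNReal.ofReal ((∏ w, chm m.1 u u' w) ^ (-(4 * (dg K : ℝ)))) := by
        rw [← lintegral_tsum]
        · refine lintegral_congr fun u => ?_
          rw [← lintegral_tsum]
          intro m
          exact (((gy4_meas m.1 _).comp (measurable_const.prodMk measurable_id)).const_mul
            _).aemeasurable
        · intro m
          exact (Measurable.lintegral_prod_right' ((gy4_meas m.1 _).const_mul _)).aemeasurable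
    _ ≤ ∫⁻ u in box K V, ∫⁻ u' in box K V, ENNReal.ofReal (D * S) := by
        refine setLIntegral_mono' hmb fun u hu => ?_
        refine setLIntegral_mono' hmb fun u' hu' => ?_
        rw [ENNReal.tsum_mul_left, ENNReal.ofReal_mul hD0]
        refine mul_le_mul_right ?_ _
        refine le_trans ?_ (hsum u u' hu hu')
        exact ENNReal.tsum_comp_le_tsum_of_injective
          (f := fun m : {m : Matrix (Fin 2) (Fin 2) K // m ∈ MQ K Q ∧ ¬ Mono m} =>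
            (⟨m.1, m.2.1⟩ : MQ K Q)) (fun a b h => Subtype.ext (congrArg (fun x : MQ K Q => x.1) h))
          (fun m : MQ K Q => ENNReal.ofReal ((∏ w, chm m.1 u u' w) ^ (-(4 * (dg K : ℝ)))))
    _ = ENNReal.ofReal (D * S *
        ((2 * V) ^ Fintype.card (Em K) * (2 * V) ^ Fintype.card (Em K))) := by
        have hv : 0 ≤ (2 * V) ^ Fintype.card (Em K) := pow_nonneg (by linarith) _
        simp only [lintegral_const, MeasureTheory.Measure.restrict_apply MeasurableSet.univ,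
          Set.univ_inter]
        rw [gy4_box_vol hV, mul_assoc, ← ENNReal.ofReal_mul hv, ← ENNReal.ofReal_mul
          (mul_nonneg hD0 hS)]

theorem nonmono : ∃ (C E : ℝ) (k₀ : ℕ), 0 < C ∧ 0 < E ∧ ∀ (k Q : ℕ) (V : ℝ), k₀ ≤ k → 1 ≤ Q →
    0 ≤ V → ∑' m : {m : Matrix (Fin 2) (Fin 2) K // m ∈ MQ K Q ∧ ¬ Mono m},
      ∫⁻ u in box K V, ∫⁻ u' in box K V,
        ENNReal.ofReal ((∏ w, chm m.1 u u' w) ^ (-(k : ℝ) / 2)) ≤
      ENNReal.ofReal (C * (Q : ℝ) ^ E * Real.exp (E * V) * (k : ℝ) ^ (-(dg K : ℝ))) := by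
  classical
  obtain ⟨C1, E1, hC1, hE1, h1⟩ := ksum (K := K)
  obtain ⟨c2, E2, hc2, hE2, h2⟩ := gap (K := K)
  obtain ⟨C3, E3, hC3, hE3, h3⟩ := inr_int (K := K)
  obtain ⟨C4, E4, hC4, hE4, h4⟩ := inr_card (K := K)
  set d := dg K with hd
  set r := Fintype.card (Em K) with hr
  set c := min c2 1 with hc
  have hc0 : 0 < c := lt_min hc2 one_pos
  have hc1 : c ≤ 1 := min_le_right _ _
  have hc2' : c ≤ c2 := min_le_left _ _
  -- constants
  set CB : ℝ := (d.factorial : ℝ) * 8 ^ d * (c ^ d)⁻¹ * C1 * ((2 * r).factorial : ℝ) with hCB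
  have hfac : (0 : ℝ) < d.factorial := by exact_mod_cast Nat.factorial_pos d
  have hfac2 : (0 : ℝ) < (2 * r).factorial := by exact_mod_cast Nat.factorial_pos (2 * r)
  have hCB0 : 0 < CB := by positivity
  set E : ℝ := E3 + E4 + (d * E2 + E1 + 2) with hE
  have hdR : (0 : ℝ) ≤ d := Nat.cast_nonneg _
  have hE0 : 0 < E := by positivity
  refine ⟨C4 * C3 + CB, E, 16 * d + 1, by positivity, hE0, ?_⟩
  intro k Q V hk hQ hV
  have hk1 : 1 ≤ k := by omega
  have hkpos : (0 : ℝ) < k := by exact_mod_cast (by omega : 0 < k)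
  have hQR : (1 : ℝ) ≤ Q := by exact_mod_cast hQ
  have hQ0 : (0 : ℝ) < Q := by linarith
  set δ : ℝ := c * (Q : ℝ) ^ (-E2) * Real.exp (-(E2 * V)) with hδ
  have hQE : (Q : ℝ) ^ (-E2) ≤ 1 := Real.rpow_le_one_of_one_le_of_nonpos hQR (by linarith)
  have hQE0 : 0 < (Q : ℝ) ^ (-E2) := Real.rpow_pos_of_pos hQ0 _
  have hexp1 : Real.exp (-(E2 * V)) ≤ 1 := Real.exp_le_one_iff.mpr (by
    have := mul_nonneg hE2.le hV
    linarith)
  have hδ0 : 0 < δ := by positivity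
  have hδ1 : δ ≤ 1 := by
    calc δ ≤ 1 * 1 * 1 := by
          rw [hδ]
          gcongr
      _ = 1 := by norm_num
  -- the split
  have hsplit : ∀ m : {m : Matrix (Fin 2) (Fin 2) K // m ∈ MQ K Q ∧ ¬ Mono m},
      ∫⁻ u in box K V, ∫⁻ u' in box K V,
        ENNReal.ofReal ((∏ w, chm m.1 u u' w) ^ (-(k : ℝ) / 2)) =
      {m : Matrix (Fin 2) (Fin 2) K | Inr m V}.indicator (fun m =>
        ∫⁻ u in box K V, ∫⁻ u' in box K V,
          ENNReal.ofReal ((∏ w, chm m u u' w) ^ (-(k : ℝ) / 2))) m.1 +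
      {m : Matrix (Fin 2) (Fin 2) K | ¬ Inr m V}.indicator (fun m =>
        ∫⁻ u in box K V, ∫⁻ u' in box K V,
          ENNReal.ofReal ((∏ w, chm m u u' w) ^ (-(k : ℝ) / 2))) m.1 := by
    intro m
    by_cases hI : Inr m.1 V
    · rw [Set.indicator_of_mem (show m.1 ∈ {m | Inr m V} from hI),
        Set.indicator_of_notMem (show m.1 ∉ {m | ¬ Inr m V} from fun h => h hI), add_zero]
    · rw [Set.indicator_of_notMem (show m.1 ∉ {m | Inr m V} from hI),
        Set.indicator_of_mem (show m.1 ∈ {m | ¬ Inr m V} from hI), zero_add]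
  rw [tsum_congr hsplit, ENNReal.tsum_add]
  obtain ⟨hfin, hcard⟩ := h4 Q V hQ hV
  have hB0 : 0 ≤ C3 * (Q : ℝ) ^ E3 * Real.exp (E3 * V) * (k : ℝ) ^ (-(d : ℝ)) := by positivity
  have hA := gy4_inr (K := K) k Q V hB0 hfin hcard (I := fun m =>
        ∫⁻ u in box K V, ∫⁻ u' in box K V,
          ENNReal.ofReal ((∏ w, chm m u u' w) ^ (-(k : ℝ) / 2)))
    (fun m hm hI => h3 k Q V m hk1 hQ hV hm hI)
  have hSnn : 0 ≤ C1 * (Q : ℝ) ^ E1 * Real.exp (E1 * V) := by positivity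
  have hB := gy4_out (K := K) k Q hV hδ0 hSnn (by omega)
    (fun m u u' hm hM hI hu hu' => le_trans (by
      have : c * (Q : ℝ) ^ (-E2) * Real.exp (-(E2 * V)) ≤
          c2 * (Q : ℝ) ^ (-E2) * Real.exp (-(E2 * V)) := by gcongr
      rw [hδ]
      linarith) (h2 Q V m u u' hQ hV hm hM hI hu hu'))
    (fun u u' hu hu' => h1 Q V u u' hQ hV hu hu')
  refine (add_le_add hA hB).trans ?_
  rw [← ENNReal.ofReal_add (by positivity) (by
    have : 0 ≤ (1 + δ) ^ (-((k : ℝ) / 2 - 4 * d)) := Real.rpow_nonneg (by linarith) _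
    positivity)]
  apply ENNReal.ofReal_le_ofReal
  have hg := gy4_gap hδ0 hδ1 d k hk1 (n := (k : ℝ) / 2 - 4 * d) (by
    have : (16 * d + 1 : ℝ) ≤ k := by exact_mod_cast hk
    linarith)
  -- δ^{-d}
  have hδd : (δ ^ d)⁻¹ = (c ^ d)⁻¹ * ((Q : ℝ) ^ ((d : ℝ) * E2)) * Real.exp (d * E2 * V) := by
    rw [hδ, mul_pow, mul_pow, mul_inv, mul_inv]
    congr 1
    · congr 1
      rw [← Real.rpow_natCast ((Q : ℝ) ^ (-E2)) d, ← Real.rpow_mul hQ0.le, ← Real.rpow_neg hQ0.le]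
      congr 1
      ring
    · rw [← Real.exp_nat_mul, ← Real.exp_neg]
      congr 1
      ring
  -- volume
  have hvol : (2 * V) ^ r * (2 * V) ^ r ≤ ((2 * r).factorial : ℝ) * Real.exp (2 * V) := by
    rw [← pow_add, ← two_mul]
    have := Real.pow_div_factorial_le_exp (2 * V) (by linarith) (2 * r)
    rw [div_le_iff₀ hfac2] at this
    linarith
  have hvol0 : 0 ≤ (2 * V) ^ r * (2 * V) ^ r := by positivity
  have hQm : ∀ {a b : ℝ}, a ≤ b → (Q : ℝ) ^ a ≤ (Q : ℝ) ^ b := fun h =>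
    Real.rpow_le_rpow_of_exponent_le hQR h
  have hexm : ∀ {a b : ℝ}, a ≤ b → Real.exp (a * V) ≤ Real.exp (b * V) := fun h =>
    Real.exp_le_exp.mpr (mul_le_mul_of_nonneg_right h hV)
  have p1 : C4 * (Q : ℝ) ^ E4 * Real.exp (E4 * V) *
      (C3 * (Q : ℝ) ^ E3 * Real.exp (E3 * V) * (k : ℝ) ^ (-(d : ℝ))) ≤
      C4 * C3 * (Q : ℝ) ^ E * Real.exp (E * V) * (k : ℝ) ^ (-(d : ℝ)) := by
    have e1 : (Q : ℝ) ^ E4 * (Q : ℝ) ^ E3 = (Q : ℝ) ^ (E4 + E3) := (Real.rpow_add hQ0 _ _).symm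
    have e2 : Real.exp (E4 * V) * Real.exp (E3 * V) = Real.exp ((E4 + E3) * V) := by
      rw [← Real.exp_add]
      congr 1
      ring
    calc C4 * (Q : ℝ) ^ E4 * Real.exp (E4 * V) *
        (C3 * (Q : ℝ) ^ E3 * Real.exp (E3 * V) * (k : ℝ) ^ (-(d : ℝ)))
        = C4 * C3 * ((Q : ℝ) ^ E4 * (Q : ℝ) ^ E3) * (Real.exp (E4 * V) * Real.exp (E3 * V)) *
          (k : ℝ) ^ (-(d : ℝ)) := by ring
      _ = C4 * C3 * (Q : ℝ) ^ (E4 + E3) * Real.exp ((E4 + E3) * V) *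
          (k : ℝ) ^ (-(d : ℝ)) := by rw [e1, e2]
      _ ≤ C4 * C3 * (Q : ℝ) ^ E * Real.exp (E * V) * (k : ℝ) ^ (-(d : ℝ)) := by
          have a1 := hQm (a := E4 + E3) (b := E) (by
            have := mul_nonneg hdR hE2.le
            rw [hE]; linarith)
          have a2 := hexm (a := E4 + E3) (b := E) (by
            have := mul_nonneg hdR hE2.le
            rw [hE]; linarith)
          gcongr
  have p2 : (1 + δ) ^ (-((k : ℝ) / 2 - 4 * d)) * (C1 * (Q : ℝ) ^ E1 * Real.exp (E1 * V)) *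
      ((2 * V) ^ r * (2 * V) ^ r) ≤
      CB * (Q : ℝ) ^ E * Real.exp (E * V) * (k : ℝ) ^ (-(d : ℝ)) := by
    calc (1 + δ) ^ (-((k : ℝ) / 2 - 4 * d)) * (C1 * (Q : ℝ) ^ E1 * Real.exp (E1 * V)) *
        ((2 * V) ^ r * (2 * V) ^ r)
        ≤ ((d.factorial : ℝ) * 8 ^ d * (δ ^ d)⁻¹ * ((k : ℝ) ^ (-(d : ℝ)))) *
          (C1 * (Q : ℝ) ^ E1 * Real.exp (E1 * V)) *
          (((2 * r).factorial : ℝ) * Real.exp (2 * V)) := by
          gcongr
      _ = (d.factorial : ℝ) * 8 ^ d * (c ^ d)⁻¹ * C1 * ((2 * r).factorial : ℝ) *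
          ((Q : ℝ) ^ ((d : ℝ) * E2) * (Q : ℝ) ^ E1) *
          (Real.exp (d * E2 * V) * Real.exp (E1 * V) * Real.exp (2 * V)) *
          ((k : ℝ) ^ (-(d : ℝ))) := by
          rw [hδd]
          ring
      _ = CB * (Q : ℝ) ^ ((d : ℝ) * E2 + E1) * Real.exp ((d * E2 + E1 + 2) * V) *
          ((k : ℝ) ^ (-(d : ℝ))) := by
          rw [← Real.rpow_add hQ0, ← Real.exp_add, ← Real.exp_add, hCB]
          congr 3
          ring
      _ ≤ CB * (Q : ℝ) ^ E * Real.exp (E * V) * (k : ℝ) ^ (-(d : ℝ)) := by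
          have a1 := hQm (a := (d : ℝ) * E2 + E1) (b := E) (by rw [hE]; linarith)
          have a2 := hexm (a := (d : ℝ) * E2 + E1 + 2) (b := E) (by rw [hE]; linarith)
          gcongr
  calc _ ≤ C4 * C3 * (Q : ℝ) ^ E * Real.exp (E * V) * (k : ℝ) ^ (-(d : ℝ)) +
      CB * (Q : ℝ) ^ E * Real.exp (E * V) * (k : ℝ) ^ (-(d : ℝ)) := add_le_add p1 p2
    _ = (C4 * C3 + CB) * (Q : ℝ) ^ E * Real.exp (E * V) * (k : ℝ) ^ (-(d : ℝ)) := by ring

end tr4

end Pool.Agent.HSG
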