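import Pool.Agent.Lib_helper84.HSG.DefsB
import Pool.Agent.Lib_helper84.HSGF.GA1
import Pool.Agent.Lib_helper84.HSGF.GA2
import Pool.Agent.Lib_helper84.HSGF.GB2

/-!
# Block GZ1 (MOI): monomial matrices between geodesics

`m = n(-β) g n(β')` maps the lattice `(b ⊕ a) n(β)` to `(b' ⊕ a') n(β')`.
-/

namespace Pool.Agent.HSG

open Complex MeasureTheory Filter Topology UpperHalfPlane NumberField IsDedekindDomain
open scoped nonZeroDivisors MatrixGroups ENNReal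

variable {K : Type} [Field K] [NumberField K]

omit [NumberField K] in
/-- membership in the image lattice -/
theorem gz1_mem_mul (N : Lat K) (h : GL (Fin 2) K) (v : Fin 2 → K) :
    Matrix.vecMul v (h : Matrix (Fin 2) (Fin 2) K) ∈ (N.mul h).M ↔ v ∈ N.M := by
  constructor
  · rintro ⟨x, hx, hxe⟩
    have h1 : Matrix.vecMul x (h : Matrix (Fin 2) (Fin 2) K) =
        Matrix.vecMul v (h : Matrix (Fin 2) (Fin 2) K) := hxe
    have h2 : x = v := by
      have h3 := congrArg (fun y => Matrix.vecMul y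
        ((h⁻¹ : GL (Fin 2) K) : Matrix (Fin 2) (Fin 2) K)) h1
      simp only [Matrix.vecMul_vecMul, ← Units.val_mul, mul_inv_cancel] at h3
      simpa using h3
    rw [← h2]
    exact hx
  · intro hv
    exact ⟨v, hv, rfl⟩

theorem gz1_mem {L L' : Lat K} {g : SL(2, K)} (h : g • L' = L) (β β' : K) (v : Fin 2 → K) :
    Matrix.vecMul v (mm β g β') ∈ (L'.mul (nm β' : GL (Fin 2) K)).M ↔
      v ∈ (L.mul (nm β : GL (Fin 2) K)).M := by
  have h1 : L' = L.mul (g : GL (Fin 2) K) := by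
    rw [← h, act_eq, ← mul_mul, ← map_mul, inv_mul_cancel, map_one]
    ext v
    constructor
    · intro hv
      exact ⟨v, hv, by simp⟩
    · rintro ⟨x, hx, rfl⟩
      simpa using hx
  have h0 : nm β * nm (-β) = (1 : SL(2, K)) := by
    ext i j
    fin_cases i <;> fin_cases j <;> simp [nm]
  have h2 : L'.mul (nm β' : GL (Fin 2) K) = (L.mul (nm β : GL (Fin 2) K)).mul
      ((nm (-β) * g * nm β' : SL(2, K)) : GL (Fin 2) K) := by
    rw [h1, ← mul_mul, ← mul_mul, ← map_mul, ← map_mul, mul_assoc (nm (-β)) g, ← mul_assoc (nm β),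
      h0, one_mul]
  rw [h2]
  exact gz1_mem_mul _ ((nm (-β) * g * nm β' : SL(2, K)) : GL (Fin 2) K) v

/-- the same in coordinates -/
theorem gz1_mem' {b a b' a' : Id K} {g : SL(2, K)}
    (h : g • Lat.ds b' a' = Lat.ds b a) (β β' x y : K) :
    (x * mm β g β' 0 0 + y * mm β g β' 1 0 ∈ b'.m ∧
      x * mm β g β' 0 1 + y * mm β g β' 1 1 -
        (x * mm β g β' 0 0 + y * mm β g β' 1 0) * β' ∈ a'.m) ↔
      (x ∈ b.m ∧ y - x * β ∈ a.m) := by
  have h1 := gz1_mem h β β' ![x, y]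
  rw [mem_ds_nm, mem_ds_nm] at h1
  simpa [Matrix.vecMul, dotProduct, Fin.sum_univ_two] using h1

omit [NumberField K] in
theorem gz1_det (β : K) (g : SL(2, K)) (β' : K) :
    mm β g β' 0 0 * mm β g β' 1 1 - mm β g β' 0 1 * mm β g β' 1 0 = 1 := by
  have h1 : (mm β g β').det = 1 := (nm (-β) * g * nm β' : SL(2, K)).2
  rw [Matrix.det_fin_two] at h1
  exact h1

omit [NumberField K] in
/-- `g` is determined by `m` -/
theorem gz1_g {β β' : K} {g g' : SL(2, K)} (h : mm β g β' = mm β g' β') : g = g' := by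
  have h1 : (nm (-β) * g * nm β' : SL(2, K)) = nm (-β) * g' * nm β' := Subtype.ext h
  exact mul_left_cancel (mul_right_cancel h1)

/-- the partner and `g` are determined by the class and `m` -/
theorem gz1_key {cu : Cusps K} {J : Type} (G : GFam cu J) {j j₁ j₂ : J} {g₁ g₂ : SL(2, K)}
    (h₁ : g₁ • cu.L (G.κ j₁) = cu.L (G.κ j)) (h₂ : g₂ • cu.L (G.κ j₂) = cu.L (G.κ j))
    (hm : mm (G.β j) g₁ (G.β j₁) = mm (G.β j) g₂ (G.β j₂)) (hκ : G.κ j₁ = G.κ j₂) :
    j₁ = j₂ ∧ g₁ = g₂ := by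
  have hj : j₁ = j₂ := by
    refine G.inj j₁ j₂ hκ ?_
    rw [Cusps.x, mem_div_iff]
    intro s hs
    -- the inverse image of `(s, s β₁)`
    have hd := gz1_det (G.β j) g₁ (G.β j₁)
    set m := mm (G.β j) g₁ (G.β j₁) with hmd
    have e1 : (s * m 1 1 - s * G.β j₁ * m 1 0) * m 0 0 +
        (-(s * m 0 1) + s * G.β j₁ * m 0 0) * m 1 0 = s := by
      linear_combination s * hd
    have e2 : (s * m 1 1 - s * G.β j₁ * m 1 0) * m 0 1 +
        (-(s * m 0 1) + s * G.β j₁ * m 0 0) * m 1 1 = s * G.β j₁ := by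
      linear_combination s * G.β j₁ * hd
    have k1 := gz1_mem' h₁ (G.β j) (G.β j₁) (s * m 1 1 - s * G.β j₁ * m 1 0)
      (-(s * m 0 1) + s * G.β j₁ * m 0 0)
    have k2 := gz1_mem' h₂ (G.β j) (G.β j₂) (s * m 1 1 - s * G.β j₁ * m 1 0)
      (-(s * m 0 1) + s * G.β j₁ * m 0 0)
    rw [← hmd, e1, e2] at k1
    rw [← hm, e1, e2] at k2
    have k3 := k2.mpr (k1.mp ⟨hs, by rw [sub_self]; exact Submodule.zero_mem _⟩)
    have k4 : (G.β j₁ - G.β j₂) * s = s * G.β j₁ - s * G.β j₂ := by ring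
    rw [k4, hκ]
    exact k3.2
  subst hj
  exact ⟨rfl, gz1_g hm⟩

omit [NumberField K] in
theorem gz1_sq (p : Kˣ) : p ^ 2 ∈ Kp K := by
  intro w
  rw [Units.val_pow_eq_pow_val, map_pow]
  have h1 : w (p : K) ≠ 0 := by
    rw [Ne, map_eq_zero]
    exact p.ne_zero
  positivity

theorem gz1_grp {G : Type} [CommGroup G] (p b a : G) : p * b / a = p ^ 2 * (b / (p * a)) := by
  rw [div_eq_mul_inv, div_eq_mul_inv, mul_inv, pow_two]
  have h1 : p * p * (b * (p⁻¹ * a⁻¹)) = (p * p⁻¹) * (p * b * a⁻¹) := by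
    simp only [mul_comm, mul_left_comm, mul_assoc]
  rw [h1, mul_inv_cancel, one_mul]

theorem gz1_grp2 {G : Type} [CommGroup G] (p b a c : G) :
    p * (a / c) / (p⁻¹ * (b * c)) = p ^ 2 * (a / (b * c * c)) := by
  simp only [div_eq_mul_inv, mul_inv, pow_two, inv_inv]
  simp only [mul_comm, mul_left_comm, mul_assoc]

/-- squares do not change the narrow class -/
theorem gz1_cls (p : Kˣ) (x : Id K) :
    (QuotientGroup.mk (prI (p ^ 2) * x) : NCl K) = QuotientGroup.mk x := by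
  rw [QuotientGroup.eq]
  have h1 : (prI (p ^ 2) * x)⁻¹ * x = (prI (p ^ 2))⁻¹ := by
    rw [mul_inv_rev, mul_assoc, mul_comm, mul_assoc, mul_inv_cancel, mul_one]
  rw [h1]
  exact inv_mem (Subgroup.mem_map_of_mem _ (gz1_sq p))

/-- the diagonal matrices -/
theorem gz1_diag {cu : Cusps K} {κ κ' : NCl K} {g : SL(2, K)} (h : g • cu.L κ' = cu.L κ)
    (β β' : K) (h01 : mm β g β' 0 1 = 0) (h10 : mm β g β' 1 0 = 0) :
    κ' = κ ∧ ∃ ε : Kˣ, ε ∈ Uu K ∧ mm β g β' 0 0 = ε := by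
  have hd := gz1_det β g β'
  rw [h01, zero_mul, sub_zero] at hd
  have hp : mm β g β' 0 0 ≠ 0 := left_ne_zero_of_mul_eq_one hd
  set p : Kˣ := Units.mk0 _ hp with hpd
  have hp' : mm β g β' 0 0 = p := rfl
  have hq : mm β g β' 1 1 = ((p⁻¹ : Kˣ) : K) := by
    rw [Units.val_inv_eq_inv_val, ← hp']
    exact eq_inv_of_mul_eq_one_right hd
  have hpq : (p : K) * ((p⁻¹ : Kˣ) : K) = 1 := by
    rw [← Units.val_mul, mul_inv_cancel, Units.val_one]
  have key := fun x y => gz1_mem' h β β' x y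
  simp only [h01, h10, hp', hq, mul_zero, add_zero, zero_add] at key
  have ha : cu.a κ = prI p * cu.a κ' := by
    apply m_inj
    ext y
    rw [mem_prI_mul]
    have k := key 0 y
    simp only [zero_mul, sub_zero, Submodule.zero_mem, true_and] at k
    rw [← k, mul_comm]
  have hb : cu.b κ' = prI p * cu.b κ := by
    apply m_inj
    ext z
    rw [mem_prI_mul]
    constructor
    · intro hz
      have k := key (((p⁻¹ : Kˣ) : K) * z) (z * β' * p)
      have e1 : ((p⁻¹ : Kˣ) : K) * z * p = z := by linear_combination z * hpq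
      have e2 : z * β' * p * ((p⁻¹ : Kˣ) : K) - z * β' = 0 := by linear_combination z * β' * hpq
      rw [e1, e2] at k
      exact (k.mp ⟨hz, Submodule.zero_mem _⟩).1
    · intro hz
      have k := key (((p⁻¹ : Kˣ) : K) * z) (((p⁻¹ : Kˣ) : K) * z * β)
      have e1 : ((p⁻¹ : Kˣ) : K) * z * p = z := by linear_combination z * hpq
      rw [e1, sub_self] at k
      exact (k.mpr ⟨hz, Submodule.zero_mem _⟩).1
  have hκ : κ' = κ := by
    rw [← cu.cls κ', ← cu.cls κ, ha, hb, ← gz1_cls p (cu.b κ / (prI p * cu.a κ'))]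
    congr 1
    rw [map_pow]
    exact gz1_grp _ _ _
  refine ⟨hκ, p, ?_, rfl⟩
  rw [hκ] at ha
  show prI p = 1
  exact left_eq_mul.mp (ha.trans (mul_comm _ _))

/-- the antidiagonal matrices -/
theorem gz1_anti {cu : Cusps K} {κ κ' : NCl K} {g : SL(2, K)} (h : g • cu.L κ' = cu.L κ)
    {c : Id K} {β : K} (hc : ExD (cu.x κ) c β) (β' : K) (h00 : mm β g β' 0 0 = 0)
    (h11 : mm β g β' 1 1 = 0) :
    κ' = QuotientGroup.mk (cu.a κ / (cu.b κ * c * c)) ∧
      ∃ e : Kˣ, mm β g β' 1 0 = e ∧ cu.a κ' = (prI e)⁻¹ * (cu.b κ * c) := by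
  have hd := gz1_det β g β'
  rw [h00, zero_mul, zero_sub] at hd
  have hp : mm β g β' 1 0 ≠ 0 := by
    intro h0
    rw [h0, mul_zero, neg_zero] at hd
    exact zero_ne_one hd
  set p : Kˣ := Units.mk0 _ hp with hpd
  have hp' : mm β g β' 1 0 = p := rfl
  have hpq : (p : K) * ((p⁻¹ : Kˣ) : K) = 1 := by
    rw [← Units.val_mul, mul_inv_cancel, Units.val_one]
  have hq : mm β g β' 0 1 = -((p⁻¹ : Kˣ) : K) := by
    rw [hp'] at hd
    linear_combination (-((p⁻¹ : Kˣ) : K)) * hd - mm β g β' 0 1 * hpq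
  obtain ⟨hc1, hc2⟩ := exd_parts hc
  have key := fun x y => gz1_mem' h β β' x y
  simp only [h00, h11, hp', hq, mul_zero, add_zero, zero_add] at key
  have ha : cu.a κ' = prI p⁻¹ * (cu.b κ * c) := by
    apply m_inj
    ext z
    rw [mem_prI_mul, inv_inv, ← hc1]
    have k := key (p * z) 0
    have e1 : p * z * -((p⁻¹ : Kˣ) : K) - 0 * (p : K) * β' = -z := by
      linear_combination (-z) * hpq
    rw [e1, zero_mul, neg_mem_iff, zero_sub, neg_mem_iff] at k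
    rw [← k]
    exact ⟨fun hz => ⟨Submodule.zero_mem _, hz⟩, fun hz => hz.2⟩
  have hb : cu.b κ' = prI p * (cu.a κ / c) := by
    apply m_inj
    ext z
    rw [mem_prI_mul, ← hc2]
    constructor
    · intro hz
      have k := key (-(z * β' * p)) (((p⁻¹ : Kˣ) : K) * z)
      have e1 : ((p⁻¹ : Kˣ) : K) * z * p = z := by linear_combination z * hpq
      have e2 : -(z * β' * p) * -((p⁻¹ : Kˣ) : K) - z * β' = 0 := by
        linear_combination z * β' * hpq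
      rw [e1, e2] at k
      obtain ⟨k1, k2⟩ := k.mp ⟨hz, Submodule.zero_mem _⟩
      exact ⟨_, k1, _, k2, by ring⟩
    · rintro ⟨s, hs, r, hr, hsr⟩
      have k := key s (((p⁻¹ : Kˣ) : K) * z)
      have e1 : ((p⁻¹ : Kˣ) : K) * z * p = z := by linear_combination z * hpq
      have e3 : ((p⁻¹ : Kˣ) : K) * z - s * β = r := by
        rw [hsr]
        ring
      rw [e1, e3] at k
      exact (k.mpr ⟨hs, hr⟩).1
  refine ⟨?_, p, rfl, ?_⟩
  · rw [← cu.cls κ', ← gz1_cls p (cu.a κ / (cu.b κ * c * c)), hb, ha]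
    congr 1
    rw [map_pow, map_inv]
    exact gz1_grp2 _ _ _ _
  · rw [ha, map_inv]

section tr4
variable [IsTotallyReal K]

/-- diagonal: for a fixed geodesic the partner and `g` are determined by the unit `m 0 0` -/
theorem diag_inj (cu : Cusps K) {J : Type} (G : GFam cu J) (j : J) :
    (∀ (j' : J) (g : SL(2, K)), g • cu.L (G.κ j') = cu.L (G.κ j) →
      (mm (G.β j) g (G.β j')) 0 1 = 0 → (mm (G.β j) g (G.β j')) 1 0 = 0 →
      ∃ ε : Kˣ, ε ∈ Uu K ∧ (mm (G.β j) g (G.β j')) 0 0 = ε) ∧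
    ∀ (j₁ j₂ : J) (g₁ g₂ : SL(2, K)), g₁ • cu.L (G.κ j₁) = cu.L (G.κ j) →
      g₂ • cu.L (G.κ j₂) = cu.L (G.κ j) →
      (mm (G.β j) g₁ (G.β j₁)) 0 1 = 0 → (mm (G.β j) g₁ (G.β j₁)) 1 0 = 0 →
      (mm (G.β j) g₂ (G.β j₂)) 0 1 = 0 → (mm (G.β j) g₂ (G.β j₂)) 1 0 = 0 →
      (mm (G.β j) g₁ (G.β j₁)) 0 0 = (mm (G.β j) g₂ (G.β j₂)) 0 0 → j₁ = j₂ ∧ g₁ = g₂ := by
  refine ⟨fun j' g hg h01 h10 => (gz1_diag hg _ _ h01 h10).2, ?_⟩
  intro j₁ j₂ g₁ g₂ h₁ h₂ a01 a10 b01 b10 hm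
  refine gz1_key G h₁ h₂ ?_ ?_
  · have hd := gz1_det (G.β j) g₁ (G.β j₁)
    have hd' := gz1_det (G.β j) g₂ (G.β j₂)
    rw [a01, zero_mul, sub_zero] at hd
    rw [b01, zero_mul, sub_zero, ← hm] at hd'
    have h11 : mm (G.β j) g₁ (G.β j₁) 1 1 = mm (G.β j) g₂ (G.β j₂) 1 1 :=
      mul_left_cancel₀ (left_ne_zero_of_mul_eq_one hd) (hd.trans hd'.symm)
    ext i l
    fin_cases i <;> fin_cases l
    · exact hm
    · exact a01.trans b01.symm
    · exact a10.trans b10.symm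
    · exact h11
  · rw [(gz1_diag h₁ _ _ a01 a10).1, (gz1_diag h₂ _ _ b01 b10).1]

/-- antidiagonal: the partner and `g` are determined by `m 1 0`, which lies in a coset of the
units -/
theorem anti_inj (cu : Cusps K) {J : Type} (G : GFam cu J) (j : J) :
    (∃ c₀ : Kˣ, ∀ (j' : J) (g : SL(2, K)), g • cu.L (G.κ j') = cu.L (G.κ j) →
      (mm (G.β j) g (G.β j')) 0 0 = 0 → (mm (G.β j) g (G.β j')) 1 1 = 0 →
      ∃ ε : Kˣ, ε ∈ Uu K ∧ (mm (G.β j) g (G.β j')) 1 0 = c₀ * ε) ∧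
    ∀ (j₁ j₂ : J) (g₁ g₂ : SL(2, K)), g₁ • cu.L (G.κ j₁) = cu.L (G.κ j) →
      g₂ • cu.L (G.κ j₂) = cu.L (G.κ j) →
      (mm (G.β j) g₁ (G.β j₁)) 0 0 = 0 → (mm (G.β j) g₁ (G.β j₁)) 1 1 = 0 →
      (mm (G.β j) g₂ (G.β j₂)) 0 0 = 0 → (mm (G.β j) g₂ (G.β j₂)) 1 1 = 0 →
      (mm (G.β j) g₁ (G.β j₁)) 1 0 = (mm (G.β j) g₂ (G.β j₂)) 1 0 → j₁ = j₂ ∧ g₁ = g₂ := by
  constructor
  · by_cases hex : ∃ (j' : J) (g : SL(2, K)), g • cu.L (G.κ j') = cu.L (G.κ j) ∧
      (mm (G.β j) g (G.β j')) 0 0 = 0 ∧ (mm (G.β j) g (G.β j')) 1 1 = 0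
    · obtain ⟨j₀, g₀, h₀, a00, a11⟩ := hex
      obtain ⟨hκ₀, c₀, hc₀, hi₀⟩ := gz1_anti h₀ (G.den j) _ a00 a11
      refine ⟨c₀, fun j' g hg h00 h11 => ?_⟩
      obtain ⟨hκ, e, he, hi⟩ := gz1_anti hg (G.den j) _ h00 h11
      refine ⟨c₀⁻¹ * e, ?_, ?_⟩
      · rw [hκ.trans hκ₀.symm, hi₀] at hi
        have h1 := inv_injective (mul_right_cancel hi)
        show prI (c₀⁻¹ * e) = 1
        rw [map_mul, map_inv, h1, inv_mul_cancel]
      · rw [he, ← Units.val_mul, mul_inv_cancel_left]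
    · refine ⟨1, fun j' g hg h00 h11 => ?_⟩
      exact absurd ⟨j', g, hg, h00, h11⟩ hex
  · intro j₁ j₂ g₁ g₂ h₁ h₂ a00 a11 b00 b11 hm
    refine gz1_key G h₁ h₂ ?_ ?_
    · have hd := gz1_det (G.β j) g₁ (G.β j₁)
      have hd' := gz1_det (G.β j) g₂ (G.β j₂)
      rw [a00, zero_mul, zero_sub] at hd
      rw [b00, zero_mul, zero_sub, ← hm] at hd'
      have hne : mm (G.β j) g₁ (G.β j₁) 1 0 ≠ 0 := by
        intro h0
        rw [h0, mul_zero, neg_zero] at hd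
        exact zero_ne_one hd
      have h01 : mm (G.β j) g₁ (G.β j₁) 0 1 = mm (G.β j) g₂ (G.β j₂) 0 1 :=
        mul_right_cancel₀ hne (neg_injective (hd.trans hd'.symm))
      ext i l
      fin_cases i <;> fin_cases l
      · exact a00.trans b00.symm
      · exact h01
      · exact hm
      · exact a11.trans b11.symm
    · rw [(gz1_anti h₁ (G.den j) _ a00 a11).1, (gz1_anti h₂ (G.den j) _ b00 b11).1]

end tr4

end Pool.Agent.HSG
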