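import Pool.Agent.Lib_helper84.HSG.DefsB
import Pool.Agent.Lib_helper84.HSGF.GD1
import Pool.Agent.Lib_helper84.HSGF.GF2

/-! # Hilbert-Selberg, PART II: block GZ2 (MOC), by helper24 -/

namespace Pool.Agent.HSG

open Complex MeasureTheory Filter Topology UpperHalfPlane NumberField IsDedekindDomain
open scoped nonZeroDivisors MatrixGroups ENNReal

theorem gz2_cosh_sq (x : ℝ) : Real.cosh (x / 2) ^ 2 = (Real.exp x + Real.exp (-x) + 2) / 4 := by
  have h1 : Real.exp x = Real.exp (x / 2) * Real.exp (x / 2) := by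
    rw [← Real.exp_add]
    congr 1
    ring
  have h2 : Real.exp (-x) = Real.exp (-(x / 2)) * Real.exp (-(x / 2)) := by
    rw [← Real.exp_add]
    congr 1
    ring
  have h3 : Real.exp (x / 2) * Real.exp (-(x / 2)) = 1 := by
    rw [← Real.exp_add]
    simp
  rw [Real.cosh_eq, h1, h2]
  linear_combination (1 / 2 : ℝ) * h3

theorem gz2_exp_two {y : ℝ} (hy : y ≠ 0) : Real.exp (2 * Real.log |y|) = y ^ 2 := by
  rw [two_mul, Real.exp_add, Real.exp_log (abs_pos.mpr hy), ← sq, sq_abs]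

theorem gz2_sq_le (y : ℝ) : 1 + y ^ 2 / 2 ≤ Real.cosh y := by
  have h1 : Real.cosh y = 2 * Real.sinh (y / 2) ^ 2 + 1 := by
    have h2 := Real.cosh_two_mul (y / 2)
    have h3 := Real.cosh_sq (y / 2)
    rw [mul_div_cancel₀ y (two_ne_zero)] at h2
    rw [h2, h3]
    ring
  have h2 : (y / 2) ^ 2 ≤ Real.sinh (y / 2) ^ 2 := by
    rcases le_total 0 (y / 2) with h | h
    · exact pow_le_pow_left₀ h (Real.self_le_sinh_iff.mpr h) 2
    · have h3 : -(y / 2) ≤ Real.sinh (-(y / 2)) := Real.self_le_sinh_iff.mpr (by linarith)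
      rw [Real.sinh_neg] at h3
      have := pow_le_pow_left₀ (by linarith : (0 : ℝ) ≤ -(y / 2)) h3 2
      simpa using this
  rw [h1]
  linarith

theorem gz2_fin : ∀ {n : ℕ} (f : Fin n → ℝ → ℝ≥0∞) (_ : ∀ i, Measurable (f i)),
    ∫⁻ x : Fin n → ℝ, ∏ i, f i (x i) = ∏ i, ∫⁻ x, f i x := by
  intro n
  induction n with
  | zero =>
    intro f _
    rw [volume_pi]
    simp
  | succ n ih =>
    intro f hf
    have h1 := (volume_preserving_piFinSuccAbove (fun _ : Fin (n + 1) => ℝ) 0).symm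
    rw [← h1.lintegral_comp_emb (MeasurableEquiv.measurableEmbedding _)]
    have h2 : ∀ x : ℝ × (Fin n → ℝ), ∏ i, f i ((MeasurableEquiv.piFinSuccAbove
        (fun _ : Fin (n + 1) => ℝ) 0).symm x i) = f 0 x.1 * ∏ i : Fin n, f i.succ (x.2 i) := by
      intro x
      rw [Fin.prod_univ_succ]
      simp [MeasurableEquiv.piFinSuccAbove_symm_apply, Fin.insertNthEquiv]
    simp_rw [h2]
    have h3 : Measurable (fun y : Fin n → ℝ => ∏ i : Fin n, f i.succ (y i)) :=
      Finset.measurable_prod _ (fun i _ => (hf i.succ).comp (measurable_pi_apply i))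
    rw [Measure.volume_eq_prod, lintegral_prod_mul (hf 0).aemeasurable h3.aemeasurable,
      ih (fun i => f i.succ) (fun i => hf i.succ), Fin.prod_univ_succ]

theorem gz2_prod {ι : Type} [Fintype ι] (f : ι → ℝ → ℝ≥0∞) (hf : ∀ i, Measurable (f i)) :
    ∫⁻ x : ι → ℝ, ∏ i, f i (x i) = ∏ i, ∫⁻ x, f i x := by
  let e := (Fintype.equivFin ι).symm
  have h1 := volume_measurePreserving_piCongrLeft (fun _ : ι => ℝ) e
  rw [← h1.lintegral_comp_emb (MeasurableEquiv.measurableEmbedding _)]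
  have h2 : ∀ x : Fin (Fintype.card ι) → ℝ, ∏ i, f i (MeasurableEquiv.piCongrLeft
      (fun _ : ι => ℝ) e x i) = ∏ j, f (e j) (x j) := by
    intro x
    rw [← e.prod_comp]
    refine Finset.prod_congr rfl (fun j _ => ?_)
    rw [MeasurableEquiv.coe_piCongrLeft, Equiv.piCongrLeft_apply_apply]
  simp_rw [h2]
  rw [gz2_fin _ (fun j => hf (e j)), ← e.prod_comp (fun i => ∫⁻ x, f i x)]

theorem gz2_one {k : ℕ} (hk : 1 ≤ k) : ∫⁻ x : ℝ, ENNReal.ofReal (Real.cosh (x / 2) ^ (-(k : ℝ))) ≤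
    ENNReal.ofReal (Real.pi * √8 * (k : ℝ) ^ (-(1 / 2 : ℝ))) := by
  have hk0 : (0 : ℝ) < k := by exact_mod_cast hk
  have ha : 0 < √((k : ℝ) / 8) := Real.sqrt_pos.mpr (by positivity)
  have h1 : ∀ x : ℝ, Real.cosh (x / 2) ^ (-(k : ℝ)) ≤ (1 + (√((k : ℝ) / 8) * x) ^ 2)⁻¹ := by
    intro x
    have h2 : 1 + (x / 2) ^ 2 / 2 ≤ Real.cosh (x / 2) := gz2_sq_le _
    have h3 : 1 + (√((k : ℝ) / 8) * x) ^ 2 ≤ Real.cosh (x / 2) ^ k := by
      calc 1 + (√((k : ℝ) / 8) * x) ^ 2 = 1 + (k : ℝ) * ((x / 2) ^ 2 / 2) := by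
            rw [mul_pow, Real.sq_sqrt (by positivity)]
            ring
        _ ≤ (1 + (x / 2) ^ 2 / 2) ^ k := one_add_mul_le_pow (by nlinarith [sq_nonneg (x / 2)]) k
        _ ≤ Real.cosh (x / 2) ^ k := pow_le_pow_left₀ (by positivity) h2 k
    rw [Real.rpow_neg (Real.cosh_pos _).le, Real.rpow_natCast]
    exact inv_anti₀ (by positivity) h3
  calc ∫⁻ x : ℝ, ENNReal.ofReal (Real.cosh (x / 2) ^ (-(k : ℝ)))
      ≤ ∫⁻ x : ℝ, ENNReal.ofReal ((1 + (√((k : ℝ) / 8) * x) ^ 2)⁻¹) :=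
        lintegral_mono (fun x => ENNReal.ofReal_le_ofReal (h1 x))
    _ = ENNReal.ofReal (∫ x : ℝ, (1 + (√((k : ℝ) / 8) * x) ^ 2)⁻¹) := by
        rw [ofReal_integral_eq_lintegral_ofReal]
        · exact (integrable_inv_one_add_sq.comp_mul_left' ha.ne')
        · exact Eventually.of_forall (fun x => by positivity)
    _ = ENNReal.ofReal (Real.pi * √8 * (k : ℝ) ^ (-(1 / 2 : ℝ))) := by
        congr 1
        rw [Measure.integral_comp_mul_left (fun y : ℝ => (1 + y ^ 2)⁻¹), integral_univ_inv_one_add_sq,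
          abs_of_pos (inv_pos.mpr ha), Real.sqrt_div hk0.le, Real.rpow_neg hk0.le,
          ← Real.sqrt_eq_rpow, smul_eq_mul, inv_div]
        ring

variable {K : Type} [Field K] [NumberField K]

section tr4
variable [IsTotallyReal K]

theorem gz2_pi {k : ℕ} (hk : 1 ≤ k) (t : Em K → ℝ) :
    ∫⁻ u : Em K → ℝ, ENNReal.ofReal (∏ w, Real.cosh ((u w + t w) / 2) ^ (-(k : ℝ))) ≤
      ENNReal.ofReal ((Real.pi * √8) ^ dg K * (k : ℝ) ^ (-(dg K : ℝ) / 2)) := by
  classical
  have hk0 : (0 : ℝ) < k := by exact_mod_cast hk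
  have h1 : ∀ u : Em K → ℝ, ENNReal.ofReal (∏ w, Real.cosh ((u w + t w) / 2) ^ (-(k : ℝ))) =
      ∏ w, (fun (w : Em K) (x : ℝ) => ENNReal.ofReal (Real.cosh ((x + t w) / 2) ^ (-(k : ℝ)))) w
        (u w) := by
    intro u
    exact ENNReal.ofReal_prod_of_nonneg (fun w _ => Real.rpow_nonneg (Real.cosh_pos _).le _)
  rw [lintegral_congr h1, gz2_prod (fun (w : Em K) (x : ℝ) =>
    ENNReal.ofReal (Real.cosh ((x + t w) / 2) ^ (-(k : ℝ))))]
  · calc ∏ w : Em K, ∫⁻ x : ℝ, ENNReal.ofReal (Real.cosh ((x + t w) / 2) ^ (-(k : ℝ)))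
        ≤ ∏ _w : Em K, ENNReal.ofReal (Real.pi * √8 * (k : ℝ) ^ (-(1 / 2 : ℝ))) := by
          refine Finset.prod_le_prod' (fun w _ => ?_)
          rw [lintegral_add_right_eq_self
            (fun x : ℝ => ENNReal.ofReal (Real.cosh (x / 2) ^ (-(k : ℝ)))) (t w)]
          exact gz2_one hk
      _ = ENNReal.ofReal ((Real.pi * √8) ^ dg K * (k : ℝ) ^ (-(dg K : ℝ) / 2)) := by
          rw [Finset.prod_const, Finset.card_univ, card_em, ← ENNReal.ofReal_pow (by positivity),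
            mul_pow, ← Real.rpow_natCast ((k : ℝ) ^ (-(1 / 2 : ℝ))), ← Real.rpow_mul hk0.le]
          congr 3
          ring
  · intro w
    have : Measurable (fun x : ℝ => Real.cosh ((x + t w) / 2)) :=
      Real.measurable_cosh.comp (by fun_prop)
    exact (this.pow_const _).ennreal_ofReal

omit [IsTotallyReal K] [NumberField K] in
theorem gz2_lg_inv (ε : Kˣ) : lg ε⁻¹ = -lg ε := by
  funext w
  simp only [lg, Units.val_inv_eq_inv_val, map_inv₀, abs_inv, Real.log_inv, Pi.neg_apply]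

omit [IsTotallyReal K] in
theorem gz2_count : Countable (Uu K) := by
  have := countK K
  have : Countable Kˣ := Units.val_injective.countable
  infer_instance

theorem mono_int {R0 : ℝ} (ρ : UW K R0) : ∃ C : ℝ, 0 < C ∧ ∀ k : ℕ, 1 ≤ k → ∀ t : Em K → ℝ,
    (∑' ε : Uu K, ∫⁻ u : Em K → ℝ, ENNReal.ofReal (ρ.ρ u *
      ∏ w, Real.cosh ((u w + t w + 2 * lg ε.1 w) / 2) ^ (-(k : ℝ)))) ≤
        ENNReal.ofReal (C * (k : ℝ) ^ (-(dg K : ℝ) / 2)) := by
  classical
  refine ⟨2 * (Real.pi * √8) ^ dg K, by positivity, fun k hk t => ?_⟩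
  have hk0 : (0 : ℝ) < k := by exact_mod_cast hk
  have hc : Countable (Uu K) := gz2_count
  set P : (Em K → ℝ) → ℝ := fun u => ∏ w, Real.cosh ((u w + t w) / 2) ^ (-(k : ℝ)) with hP
  have hP0 : ∀ u, 0 ≤ P u := fun u =>
    Finset.prod_nonneg (fun w _ => Real.rpow_nonneg (Real.cosh_pos _).le _)
  have hPm : Measurable P := by
    refine Finset.measurable_prod _ (fun w _ => ?_)
    have : Measurable (fun u : Em K → ℝ => Real.cosh ((u w + t w) / 2)) :=
      Real.measurable_cosh.comp (by fun_prop)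
    exact this.pow_const _
  have h1 : ∀ ε : Uu K, ∫⁻ u : Em K → ℝ, ENNReal.ofReal (ρ.ρ u *
      ∏ w, Real.cosh ((u w + t w + 2 * lg ε.1 w) / 2) ^ (-(k : ℝ))) =
      ∫⁻ u : Em K → ℝ, ENNReal.ofReal (ρ.ρ (u - 2 • lg ε.1)) * ENNReal.ofReal (P u) := by
    intro ε
    rw [← lintegral_add_right_eq_self (fun u : Em K → ℝ =>
      ENNReal.ofReal (ρ.ρ (u - 2 • lg ε.1)) * ENNReal.ofReal (P u)) (2 • lg ε.1)]
    refine lintegral_congr (fun u => ?_)
    rw [add_sub_cancel_right, ← ENNReal.ofReal_mul (ρ.nn u)]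
    congr 2
    refine Finset.prod_congr rfl (fun w _ => ?_)
    congr 2
    rw [Pi.add_apply, Pi.smul_apply, nsmul_eq_mul, Nat.cast_ofNat]
    ring
  have h2 : ∀ u : Em K → ℝ, ∑' ε : Uu K, ENNReal.ofReal (ρ.ρ (u - 2 • lg ε.1)) ≤ 2 := by
    intro u
    rw [← (Equiv.inv (Uu K)).tsum_eq (fun ε : Uu K => ENNReal.ofReal (ρ.ρ (u - 2 • lg ε.1)))]
    refine le_trans (le_of_eq ?_) (uw_sq ρ u)
    refine tsum_congr (fun ε => ?_)
    congr 2
    rw [Equiv.inv_apply, Subgroup.coe_inv, gz2_lg_inv, smul_neg, sub_neg_eq_add]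
  calc (∑' ε : Uu K, ∫⁻ u : Em K → ℝ, ENNReal.ofReal (ρ.ρ u *
      ∏ w, Real.cosh ((u w + t w + 2 * lg ε.1 w) / 2) ^ (-(k : ℝ))))
      = ∑' ε : Uu K, ∫⁻ u : Em K → ℝ, ENNReal.ofReal (ρ.ρ (u - 2 • lg ε.1)) *
          ENNReal.ofReal (P u) := tsum_congr h1
    _ = ∫⁻ u : Em K → ℝ, ∑' ε : Uu K, ENNReal.ofReal (ρ.ρ (u - 2 • lg ε.1)) *
          ENNReal.ofReal (P u) := by
        rw [lintegral_tsum]
        intro ε
        refine Measurable.aemeasurable (Measurable.mul ?_ hPm.ennreal_ofReal)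
        exact (ρ.meas.comp (measurable_id.sub_const _)).ennreal_ofReal
    _ ≤ ∫⁻ u : Em K → ℝ, 2 * ENNReal.ofReal (P u) := by
        refine lintegral_mono (fun u => ?_)
        simp only
        rw [ENNReal.tsum_mul_right]
        gcongr
        exact h2 u
    _ = 2 * ∫⁻ u : Em K → ℝ, ENNReal.ofReal (P u) := lintegral_const_mul _ hPm.ennreal_ofReal
    _ ≤ 2 * ENNReal.ofReal ((Real.pi * √8) ^ dg K * (k : ℝ) ^ (-(dg K : ℝ) / 2)) := by
        gcongr
        exact gz2_pi hk t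
    _ = ENNReal.ofReal (2 * (Real.pi * √8) ^ dg K * (k : ℝ) ^ (-(dg K : ℝ) / 2)) := by
        rw [mul_assoc, ENNReal.ofReal_mul (by norm_num : (0 : ℝ) ≤ 2)]
        simp

theorem mono_chm (m : Matrix (Fin 2) (Fin 2) K) (hm : m.det = 1) (u u' : Em K → ℝ) (w : Em K) :
    (∀ ε : Kˣ, m 0 1 = 0 → m 1 0 = 0 → m 0 0 = ε →
      chm m u u' w = Real.cosh ((u' w - u w + 2 * lg ε w) / 2) ^ 2) ∧
    ∀ c : Kˣ, m 0 0 = 0 → m 1 1 = 0 → m 1 0 = c →
      chm m u u' w = Real.cosh ((u w + u' w + 2 * lg c w) / 2) ^ 2 := by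
  rw [Matrix.det_fin_two] at hm
  constructor
  · intro ε h1 h2 h3
    have hε : w (ε : K) ≠ 0 := by
      rw [map_ne_zero]
      exact ε.ne_zero
    have h4 : m 1 1 = (ε : K)⁻¹ := by
      rw [h1, h2, h3] at hm
      have : (ε : K) * m 1 1 = 1 := by linear_combination hm
      exact eq_inv_of_mul_eq_one_right this
    rw [gz2_cosh_sq, chm, h1, h2, h3, h4]
    have e1 : Real.exp (u' w - u w + 2 * lg ε w) = Real.exp (u' w - u w) * (w (ε : K)) ^ 2 := by
      rw [Real.exp_add, lg, gz2_exp_two hε]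
    have e2 : Real.exp (-(u' w - u w + 2 * lg ε w)) =
        Real.exp (u w - u' w) * (w (ε : K)⁻¹) ^ 2 := by
      rw [map_inv₀, inv_pow, ← gz2_exp_two hε, ← Real.exp_neg, ← Real.exp_add, lg]
      congr 1
      ring
    rw [e1, e2, map_zero]
    ring
  · intro c h1 h2 h3
    have hc : w (c : K) ≠ 0 := by
      rw [map_ne_zero]
      exact c.ne_zero
    have h4 : m 0 1 = -(c : K)⁻¹ := by
      rw [h1, h2, h3] at hm
      have : (c : K) * (-m 0 1) = 1 := by linear_combination hm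
      rw [← eq_inv_of_mul_eq_one_right this, neg_neg]
    rw [gz2_cosh_sq, chm, h1, h2, h3, h4]
    have e1 : Real.exp (u w + u' w + 2 * lg c w) = Real.exp (u w + u' w) * (w (c : K)) ^ 2 := by
      rw [Real.exp_add, lg, gz2_exp_two hc]
    have e2 : Real.exp (-(u w + u' w + 2 * lg c w)) =
        Real.exp (-(u w + u' w)) * (w (-(c : K)⁻¹)) ^ 2 := by
      rw [map_neg, map_inv₀, neg_sq, inv_pow, ← gz2_exp_two hc, ← Real.exp_neg, ← Real.exp_add, lg]
      congr 1
      ring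
    rw [e1, e2, map_zero]
    ring

/-- the linear map `u ↦ (∑ u at w₀, u_w - (∑ u)/n elsewhere)` -/
noncomputable def gz2_S (w₀ : Em K) : (Em K → ℝ) →ₗ[ℝ] (Em K → ℝ) := by
  classical
  exact LinearMap.pi (fun w => if w = w₀ then (∑ v : Em K, LinearMap.proj (R := ℝ) (φ := fun _ => ℝ) v)
    else LinearMap.proj w - ((dg K : ℝ)⁻¹) • (∑ v : Em K, LinearMap.proj (R := ℝ) (φ := fun _ => ℝ) v))

omit [IsTotallyReal K] in
theorem gz2_S_self (w₀ : Em K) (u : Em K → ℝ) : gz2_S w₀ u w₀ = ∑ v, u v := by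
  simp [gz2_S]

omit [IsTotallyReal K] in
theorem gz2_S_ne (w₀ : Em K) (u : Em K → ℝ) {w : Em K} (hw : w ≠ w₀) :
    gz2_S w₀ u w = u w - (∑ v, u v) / (dg K : ℝ) := by
  simp [gz2_S, hw, div_eq_inv_mul]

omit [IsTotallyReal K] in
theorem gz2_S_det (w₀ : Em K) : LinearMap.det (gz2_S w₀) ≠ 0 := by
  classical
  have h1 : LinearMap.ker (gz2_S w₀) = ⊥ := by
    rw [LinearMap.ker_eq_bot']
    intro u hu
    have h2 : ∑ v, u v = 0 := by
      rw [← gz2_S_self w₀ u, hu]
      rfl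
    have h3 : ∀ w, w ≠ w₀ → u w = 0 := by
      intro w hw
      have := gz2_S_ne w₀ u hw
      rw [hu, h2, zero_div, sub_zero] at this
      exact this.symm
    have h4 : u w₀ = 0 := by
      rw [← Finset.add_sum_erase _ _ (Finset.mem_univ w₀)] at h2
      rw [Finset.sum_eq_zero (fun w hw => h3 w (Finset.ne_of_mem_erase hw)), add_zero] at h2
      exact h2
    funext w
    by_cases hw : w = w₀
    · rw [hw, h4]
      rfl
    · exact h3 w hw
  exact ((LinearMap.isUnit_iff_ker_eq_bot _).mpr h1).map LinearMap.det |>.ne_zero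

/-- integration of a function of `∑ u` against a unit weight -/
theorem uw_int {R0 : ℝ} (ρ : UW K R0) : ∃ C : ℝ, 0 < C ∧ ∀ f : ℝ → ℝ≥0∞, Measurable f →
    ∀ t : ℝ, ∫⁻ u : Em K → ℝ, ENNReal.ofReal (ρ.ρ u) * f (∑ w, u w + t) ≤
      ENNReal.ofReal C * ∫⁻ v, f v := by
  classical
  have hne : Nonempty (Em K) := by
    rw [← Fintype.card_pos_iff, card_em]
    exact dg_pos
  obtain ⟨w₀⟩ := hne
  set D : ℝ := |(LinearMap.det (gz2_S w₀))⁻¹| with hD
  refine ⟨D * |2 * ρ.R| ^ ((Finset.univ : Finset (Em K)).erase w₀).card + 1, by positivity,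
    fun f hf t => ?_⟩
  set g : Em K → ℝ → ℝ≥0∞ := fun w => if w = w₀ then (fun x => f (x + t)) else
    Set.indicator (Set.Icc (-ρ.R) ρ.R) 1 with hg
  have hgm : ∀ w, Measurable (g w) := by
    intro w
    simp only [hg]
    split_ifs
    · exact hf.comp (measurable_id.add_const t)
    · exact measurable_one.indicator measurableSet_Icc
  have hG : Measurable (fun v : Em K → ℝ => ∏ w, g w (v w)) :=
    Finset.measurable_prod _ (fun w _ => (hgm w).comp (measurable_pi_apply w))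
  have h1 : ∀ u : Em K → ℝ, ENNReal.ofReal (ρ.ρ u) * f (∑ w, u w + t) ≤
      ∏ w, g w (gz2_S w₀ u w) := by
    intro u
    by_cases h0 : ρ.ρ u = 0
    · rw [h0]
      simp
    · have h2 := ρ.supp u h0
      rw [Finset.prod_eq_single w₀]
      · simp only [hg, if_true, gz2_S_self]
        calc ENNReal.ofReal (ρ.ρ u) * f (∑ w, u w + t) ≤ 1 * f (∑ w, u w + t) := by
              gcongr
              exact ENNReal.ofReal_le_one.mpr (ρ.le u)
          _ = _ := one_mul _
      · intro w _ hw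
        simp only [hg, if_neg hw, gz2_S_ne w₀ u hw]
        rw [Set.indicator_of_mem]
        · rfl
        · rw [Set.mem_Icc]
          exact abs_le.mp (h2 w)
      · intro h
        exact absurd (Finset.mem_univ _) h
  have hSm : Measurable (gz2_S w₀ : (Em K → ℝ) → (Em K → ℝ)) :=
    (LinearMap.continuous_of_finiteDimensional (gz2_S w₀)).measurable
  calc ∫⁻ u : Em K → ℝ, ENNReal.ofReal (ρ.ρ u) * f (∑ w, u w + t)
      ≤ ∫⁻ u : Em K → ℝ, ∏ w, g w (gz2_S w₀ u w) := lintegral_mono h1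
    _ = ∫⁻ v : Em K → ℝ, ∏ w, g w (v w) ∂(Measure.map (gz2_S w₀) volume) := by
        rw [lintegral_map hG hSm]
    _ = ENNReal.ofReal D * ∫⁻ v : Em K → ℝ, ∏ w, g w (v w) := by
        rw [Measure.map_linearMap_addHaar_eq_smul_addHaar volume (gz2_S_det w₀),
          lintegral_smul_measure]
        rfl
    _ = ENNReal.ofReal D * ((∫⁻ v, f v) *
          (ENNReal.ofReal (2 * ρ.R)) ^ ((Finset.univ : Finset (Em K)).erase w₀).card) := by
        congr 1
        rw [gz2_prod g]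
        · rw [← Finset.mul_prod_erase Finset.univ (fun w => ∫⁻ x, g w x) (Finset.mem_univ w₀)]
          congr 1
          · simp only [hg, if_true]
            exact lintegral_add_right_eq_self f t
          · rw [← Finset.prod_const]
            refine Finset.prod_congr rfl (fun w hw => ?_)
            simp only [hg, if_neg (Finset.ne_of_mem_erase hw)]
            rw [lintegral_indicator_one measurableSet_Icc, Real.volume_Icc]
            congr 1
            ring
        · exact hgm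
    _ ≤ _ := by
        rw [mul_comm (∫⁻ v, f v), ← mul_assoc]
        gcongr
        have hD0 : 0 ≤ D := abs_nonneg _
        calc ENNReal.ofReal D *
              (ENNReal.ofReal (2 * ρ.R)) ^ ((Finset.univ : Finset (Em K)).erase w₀).card
            ≤ ENNReal.ofReal D *
              (ENNReal.ofReal |2 * ρ.R|) ^ ((Finset.univ : Finset (Em K)).erase w₀).card := by
              gcongr
              exact le_abs_self _
          _ = ENNReal.ofReal (D * |2 * ρ.R| ^ ((Finset.univ : Finset (Em K)).erase w₀).card) := by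
              rw [ENNReal.ofReal_mul hD0, ENNReal.ofReal_pow (abs_nonneg _)]
          _ ≤ _ := ENNReal.ofReal_le_ofReal (by linarith)


end tr4

end Pool.Agent.HSG
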