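import Pool.Agent.Lib_helper84.HSG.DefsB
import Pool.Agent.Lib_helper84.HSGF.GA3
import Pool.Agent.Lib_helper84.HSGF.GD1
import Pool.Agent.Lib_helper84.HSGF.GG
import Pool.Agent.Lib_helper84.HSGF.GW1
import Pool.Agent.Lib_helper84.HSGF.GW2
import Pool.Agent.Lib_helper84.HSGF.GY4
import Pool.Agent.Lib_helper84.HSGF.GZ1
import Pool.Agent.Lib_helper84.HSGF.GZ2

/-! # Block HA (KSB): the bound for the kernel sum (helper9) -/

namespace Pool.Agent.HSG

open Complex MeasureTheory Filter Topology UpperHalfPlane NumberField IsDedekindDomain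
open scoped nonZeroDivisors MatrixGroups ENNReal

variable {K : Type} [Field K] [NumberField K]

/-- comparison of sums along an injection -/
theorem ha_inj {I Y : Type} (p : I → Prop) (F : I → ℝ≥0∞) (H : Y → ℝ≥0∞)
    (h0 : ∀ i, ¬ p i → F i = 0) (e : {i // p i} → Y) (he : ∀ i, F i.1 ≤ H (e i))
    (hi : Function.Injective e) : ∑' i, F i ≤ ∑' y, H y := by
  have h1 : ∑' i : {i // p i}, F i.1 = ∑' i, F i := by
    apply tsum_subtype_eq_of_support_subset (s := {i | p i})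
    intro i hi'
    by_contra h
    exact hi' (h0 i h)
  rw [← h1]
  calc ∑' i : {i // p i}, F i.1 ≤ ∑' i : {i // p i}, H (e i) := ENNReal.tsum_le_tsum he
    _ ≤ ∑' y, H y := ENNReal.tsum_comp_le_tsum_of_injective hi H

/-- the kernel of a matrix -/
noncomputable def haK (k : ℕ) (m : Matrix (Fin 2) (Fin 2) K) (u u' : Em K → ℝ) : ℝ≥0∞ :=
  ENNReal.ofReal ((∏ w, chm m u u' w) ^ (-(k : ℝ) / 2))

theorem haK_meas (k : ℕ) (m : Matrix (Fin 2) (Fin 2) K) :
    Measurable (fun p : (Em K → ℝ) × (Em K → ℝ) => haK k m p.1 p.2) := by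
  have h : Measurable (fun p : (Em K → ℝ) × (Em K → ℝ) => ∏ w, chm m p.1 p.2 w) := by
    apply Finset.measurable_prod
    intro w _
    unfold chm
    fun_prop
  exact (h.pow_const _).ennreal_ofReal

theorem ha_nm (β : K) : (nm β)⁻¹ = nm (-β) := by
  rw [inv_eq_iff_mul_eq_one]
  apply Subtype.ext
  rw [Matrix.SpecialLinearGroup.coe_mul]
  unfold nm
  rw [Matrix.mul_fin_two, Matrix.SpecialLinearGroup.coe_one, Matrix.one_fin_two]
  simp

theorem ha_mm_inv (β β' : K) (g : SL(2, K)) :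
    mm β' g⁻¹ β = (mm β g β').adjugate := by
  have h : nm (-β') * g⁻¹ * nm β = (nm (-β) * g * nm β')⁻¹ := by
    rw [mul_inv_rev, mul_inv_rev, ha_nm, ha_nm, neg_neg, mul_assoc]
  unfold mm
  rw [h, Matrix.SpecialLinearGroup.coe_inv]

theorem ha_chm_inv (m : Matrix (Fin 2) (Fin 2) K) (u u' : Em K → ℝ) (w : Em K) :
    chm m.adjugate u' u w = chm m u u' w := by
  unfold chm
  rw [Matrix.adjugate_fin_two]
  simp only [Matrix.of_apply, Matrix.cons_val', Matrix.cons_val_zero, Matrix.cons_val_one,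
    Matrix.cons_val_fin_one, map_neg, even_two.neg_pow, add_comm (u' w) (u w)]
  ring

theorem haK_inv (k : ℕ) (m : Matrix (Fin 2) (Fin 2) K) (u u' : Em K → ℝ) :
    haK k m.adjugate u' u = haK k m u u' := by
  unfold haK
  simp only [ha_chm_inv]

theorem ha_mono_inv (m : Matrix (Fin 2) (Fin 2) K) : Mono m.adjugate ↔ Mono m := by
  unfold Mono
  rw [Matrix.adjugate_fin_two]
  simp [and_comm]

theorem ha_det (β β' : K) (g : SL(2, K)) : (mm β g β').det = 1 := by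
  unfold mm
  exact Matrix.SpecialLinearGroup.det_coe _

theorem ha_mm_inj (β β' : K) {g g' : SL(2, K)} (h : mm β g β' = mm β g' β') : g = g' := by
  have h1 : nm (-β) * g * nm β' = nm (-β) * g' * nm β' := Subtype.ext h
  exact mul_left_cancel (mul_right_cancel h1)

section tr5
variable [IsTotallyReal K]

/-- the kernel sum as a sum of integrals -/
theorem ha_KS {J : Type} [Fintype J] (k : ℕ) (β : J → K) (L : J → Lat K)
    (Ψ : J → (Em K → ℝ) → ℂ) (hm : ∀ j, Measurable (Ψ j)) :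
    KS k β L Ψ = ∑ j, ∑ j', ∑' g : {g : SL(2, K) // g • L j' = L j},
      ∫⁻ u, ∫⁻ u', ‖Ψ j u‖ₑ * ‖Ψ j' u'‖ₑ * haK k (mm (β j) g.1 (β j')) u u' := by
  unfold KS
  refine Finset.sum_congr rfl fun j _ => Finset.sum_congr rfl fun j' _ => ?_
  have h1 : ∀ u u', ∑' g : {g : SL(2, K) // g • L j' = L j},
      ENNReal.ofReal (chW (g.1 • zb (β j') u') (zb (β j) u) ^ (-(k : ℝ) / 2)) =
      ∑' g : {g : SL(2, K) // g • L j' = L j}, haK k (mm (β j) g.1 (β j')) u u' := by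
    intro u u'
    refine tsum_congr fun g => ?_
    rw [chW_mm]
    rfl
  simp only [h1, ← ENNReal.tsum_mul_left]
  have h2 : ∀ g : {g : SL(2, K) // g • L j' = L j}, Measurable
      (fun p : (Em K → ℝ) × (Em K → ℝ) => ‖Ψ j p.1‖ₑ * ‖Ψ j' p.2‖ₑ *
        haK k (mm (β j) g.1 (β j')) p.1 p.2) := by
    intro g
    exact (((hm j).comp measurable_fst).enorm.mul ((hm j').comp measurable_snd).enorm).mul
      (haK_meas k _)
  have h3 : ∀ u, ∫⁻ u', ∑' g : {g : SL(2, K) // g • L j' = L j}, ‖Ψ j u‖ₑ * ‖Ψ j' u'‖ₑ *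
        haK k (mm (β j) g.1 (β j')) u u' =
      ∑' g : {g : SL(2, K) // g • L j' = L j}, ∫⁻ u', ‖Ψ j u‖ₑ * ‖Ψ j' u'‖ₑ *
        haK k (mm (β j) g.1 (β j')) u u' := by
    intro u
    rw [lintegral_tsum]
    intro g
    exact ((h2 g).comp (measurable_const.prodMk measurable_id)).aemeasurable
  simp only [h3]
  rw [lintegral_tsum]
  intro g
  exact (h2 g).lintegral_prod_right'.aemeasurable

/-! ### The non-monomial part -/

theorem ha_box_meas (V : ℝ) : MeasurableSet (box K V) := by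
  have : box K V = ⋂ w : Em K, {u | |u w| ≤ V} := by
    ext u
    simp [box]
  rw [this]
  exact MeasurableSet.iInter fun w => measurableSet_le (by fun_prop) measurable_const

/-- bounded weights in a box -/
theorem ha_boxed (k : ℕ) (m : Matrix (Fin 2) (Fin 2) K) {A B : (Em K → ℝ) → ℝ≥0∞} {M : ℝ≥0∞}
    (hM : M ≠ ∞) {V : ℝ} (hA : ∀ u, A u ≤ M) (hB : ∀ u, B u ≤ M)
    (hA0 : ∀ u, u ∉ box K V → A u = 0) (hB0 : ∀ u, u ∉ box K V → B u = 0) :
    ∫⁻ u, ∫⁻ u', A u * B u' * haK k m u u' ≤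
      M ^ 2 * ∫⁻ u in box K V, ∫⁻ u' in box K V, haK k m u u' := by
  have hM2 : M ^ 2 ≠ ∞ := ENNReal.pow_ne_top hM
  rw [← lintegral_const_mul' _ _ hM2, ← lintegral_indicator (ha_box_meas V)]
  refine lintegral_mono fun u => ?_
  by_cases hu : u ∈ box K V
  · rw [Set.indicator_of_mem hu, ← lintegral_const_mul' _ _ hM2,
      ← lintegral_indicator (ha_box_meas V)]
    refine lintegral_mono fun u' => ?_
    by_cases hu' : u' ∈ box K V
    · rw [Set.indicator_of_mem hu', pow_two]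
      exact mul_le_mul' (mul_le_mul' (hA u) (hB u')) le_rfl
    · rw [Set.indicator_of_notMem hu', hB0 u' hu', mul_zero, zero_mul]
  · rw [Set.indicator_of_notMem hu]
    simp only [hA0 u hu, zero_mul, lintegral_zero]
    exact le_rfl

/-- the sum over the non-monomial matrices -/
theorem ha_non {Q : ℕ} (k : ℕ) (β β' : K) (L L' : Lat K)
    (hQ : ∀ g : SL(2, K), g • L' = L → mm β g β' ∈ MQ K Q)
    {A B : (Em K → ℝ) → ℝ≥0∞} {M : ℝ≥0∞}
    (hM : M ≠ ∞) {V : ℝ} (hA : ∀ u, A u ≤ M) (hB : ∀ u, B u ≤ M)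
    (hA0 : ∀ u, u ∉ box K V → A u = 0) (hB0 : ∀ u, u ∉ box K V → B u = 0)
    (F : {g : SL(2, K) // g • L' = L} → ℝ≥0∞) (hF0 : ∀ g, Mono (mm β g.1 β') → F g = 0)
    (hF : ∀ g, F g ≤ ∫⁻ u, ∫⁻ u', A u * B u' * haK k (mm β g.1 β') u u') :
    ∑' g, F g ≤
    M ^ 2 * ∑' m : {m : Matrix (Fin 2) (Fin 2) K // m ∈ MQ K Q ∧ ¬ Mono m},
      ∫⁻ u in box K V, ∫⁻ u' in box K V, haK k m.1 u u' := by
  rw [← ENNReal.tsum_mul_left]
  have hi : Function.Injective
      (fun g : {g : {g : SL(2, K) // g • L' = L} // ¬ Mono (mm β g.1 β')} =>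
      (⟨mm β g.1.1 β', hQ g.1.1 g.1.2, g.2⟩ :
        {m : Matrix (Fin 2) (Fin 2) K // m ∈ MQ K Q ∧ ¬ Mono m})) := by
    intro g g' h
    have h1 : mm β g.1.1 β' = mm β g'.1.1 β' := by
      have := Subtype.ext_iff.mp h
      exact this
    exact Subtype.ext (Subtype.ext (ha_mm_inj β β' h1))
  refine ha_inj (fun g : {g : SL(2, K) // g • L' = L} => ¬ Mono (mm β g.1 β')) F _
    (fun g hg => hF0 g (not_not.mp hg)) _ ?_ hi
  intro g
  have h1 := ha_boxed k (mm β g.1.1 β') hM hA hB hA0 hB0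
  exact (hF g.1).trans h1

/-! ### The monomial part -/

/-- the integral with weights `a(u) r(u')` -/
noncomputable def haP (k : ℕ) (a r : (Em K → ℝ) → ℝ≥0∞) (m : Matrix (Fin 2) (Fin 2) K) : ℝ≥0∞ :=
  ∫⁻ u, ∫⁻ u', a u * r u' * haK k m u u'

theorem haP_inv (k : ℕ) {a r : (Em K → ℝ) → ℝ≥0∞} (ha : Measurable a) (hr : Measurable r)
    (m : Matrix (Fin 2) (Fin 2) K) : haP k a r m.adjugate = haP k r a m := by
  unfold haP
  rw [lintegral_lintegral_swap]
  · refine lintegral_congr fun u => lintegral_congr fun u' => ?_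
    rw [haK_inv, mul_comm (a u')]
  · exact (((ha.comp measurable_fst).mul (hr.comp measurable_snd)).mul
      (haK_meas k _)).aemeasurable

theorem ha_cosh (k : ℕ) (x : Em K → ℝ) :
    (∏ w, Real.cosh (x w) ^ 2) ^ (-(k : ℝ) / 2) = ∏ w, Real.cosh (x w) ^ (-(k : ℝ)) := by
  rw [← Real.finsetProd_rpow _ _ (fun w _ => by positivity)]
  refine Finset.prod_congr rfl fun w _ => ?_
  rw [← Real.rpow_natCast, ← Real.rpow_mul (Real.cosh_pos _).le]
  congr 1
  push_cast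
  ring

/-- the sum over the units -/
theorem ha_units {R0 : ℝ} (ρ : UW K R0) {k : ℕ} {B : ℝ≥0∞}
    (hB : ∀ t : Em K → ℝ, (∑' ε : Uu K, ∫⁻ u : Em K → ℝ, ENNReal.ofReal (ρ.ρ u *
      ∏ w, Real.cosh ((u w + t w + 2 * lg ε.1 w) / 2) ^ (-(k : ℝ)))) ≤ B)
    {a : (Em K → ℝ) → ℝ≥0∞} (ha : Measurable a) (t : (Em K → ℝ) → Em K → ℝ)
    (ht : Measurable t) :
    ∑' ε : Uu K, ∫⁻ u, ∫⁻ u', a u * ENNReal.ofReal (ρ.ρ u') * ENNReal.ofReal
      (∏ w, Real.cosh ((u' w + t u w + 2 * lg ε.1 w) / 2) ^ (-(k : ℝ))) ≤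
      B * ∫⁻ u, a u := by
  have := countK K
  have : Countable Kˣ := Units.val_injective.countable
  have hme : ∀ ε : Uu K, Measurable (fun p : (Em K → ℝ) × (Em K → ℝ) =>
      a p.1 * ENNReal.ofReal (ρ.ρ p.2) * ENNReal.ofReal
      (∏ w, Real.cosh ((p.2 w + t p.1 w + 2 * lg ε.1 w) / 2) ^ (-(k : ℝ)))) := by
    intro ε
    refine ((ha.comp measurable_fst).mul (ρ.meas.comp measurable_snd).ennreal_ofReal).mul ?_
    refine Measurable.ennreal_ofReal ?_
    apply Finset.measurable_prod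
    intro w _
    refine Measurable.pow_const ?_ _
    refine Real.measurable_cosh.comp ?_
    have h1 : Measurable (fun p : (Em K → ℝ) × (Em K → ℝ) => t p.1 w) :=
      (measurable_pi_apply w).comp (ht.comp measurable_fst)
    have h2 : Measurable (fun p : (Em K → ℝ) × (Em K → ℝ) => p.2 w) :=
      (measurable_pi_apply w).comp measurable_snd
    exact ((h2.add h1).add_const _).div_const _
  rw [← lintegral_tsum (fun ε => (hme ε).lintegral_prod_right'.aemeasurable)]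
  rw [← lintegral_const_mul _ ha]
  refine lintegral_mono fun u => ?_
  have h1 : ∀ ε : Uu K, ∫⁻ u', a u * ENNReal.ofReal (ρ.ρ u') * ENNReal.ofReal
      (∏ w, Real.cosh ((u' w + t u w + 2 * lg ε.1 w) / 2) ^ (-(k : ℝ))) =
      a u * ∫⁻ u', ENNReal.ofReal (ρ.ρ u' *
      ∏ w, Real.cosh ((u' w + t u w + 2 * lg ε.1 w) / 2) ^ (-(k : ℝ))) := by
    intro ε
    have h2 : Measurable (fun u' : Em K → ℝ => ENNReal.ofReal (ρ.ρ u' *
      ∏ w, Real.cosh ((u' w + t u w + 2 * lg ε.1 w) / 2) ^ (-(k : ℝ)))) := by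
      refine Measurable.ennreal_ofReal (ρ.meas.mul ?_)
      apply Finset.measurable_prod
      intro w _
      refine Measurable.pow_const ?_ _
      refine Real.measurable_cosh.comp ?_
      exact (((measurable_pi_apply w).add_const _).add_const _).div_const _
    rw [← lintegral_const_mul _ h2]
    refine lintegral_congr fun u' => ?_
    rw [ENNReal.ofReal_mul (ρ.nn u'), mul_assoc]
  simp only [h1]
  rw [ENNReal.tsum_mul_left, mul_comm B]
  exact mul_le_mul' le_rfl (hB (t u))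

/-- the data of one geodesic for the monomial part -/
theorem ha_one (cu : Cusps K) {R0 : ℝ} (ρ : UW K R0) {J : Type} [Fintype J] (G : GFam cu J)
    {k : ℕ} {B : ℝ≥0∞}
    (hB : ∀ t : Em K → ℝ, (∑' ε : Uu K, ∫⁻ u : Em K → ℝ, ENNReal.ofReal (ρ.ρ u *
      ∏ w, Real.cosh ((u w + t w + 2 * lg ε.1 w) / 2) ^ (-(k : ℝ)))) ≤ B) (j : J)
    {a : (Em K → ℝ) → ℝ≥0∞} (ha : Measurable a)
    (Q : (j' : J) → {g : SL(2, K) // g • cu.L (G.κ j') = cu.L (G.κ j)} → ℝ≥0∞)
    (hQ0 : ∀ j' g, ¬ Mono (mm (G.β j) g.1 (G.β j')) → Q j' g = 0)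
    (hQ : ∀ j' g, Q j' g ≤ haP k a (fun u => ENNReal.ofReal (ρ.ρ u))
      (mm (G.β j) g.1 (G.β j'))) :
    ∑ j', ∑' g, Q j' g ≤ 2 * B * ∫⁻ u, a u := by
  classical
  set I := Σ j' : J, {g : SL(2, K) // g • cu.L (G.κ j') = cu.L (G.κ j)} with hI
  let mt : I → Matrix (Fin 2) (Fin 2) K := fun i => mm (G.β j) i.2.1 (G.β i.1)
  have hsum : ∑ j', ∑' g, Q j' g = ∑' i : I, Q i.1 i.2 := by
    rw [ENNReal.tsum_sigma', tsum_fintype]
  rw [hsum]
  let Dg : I → Prop := fun i => mt i 0 1 = 0 ∧ mt i 1 0 = 0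
  let An : I → Prop := fun i => mt i 0 0 = 0 ∧ mt i 1 1 = 0
  have hsplit : ∀ i : I, Q i.1 i.2 ≤ (if Dg i then Q i.1 i.2 else 0) +
      (if An i then Q i.1 i.2 else 0) := by
    intro i
    by_cases h1 : Dg i
    · rw [if_pos h1]
      exact le_self_add
    · by_cases h2 : An i
      · rw [if_pos h2]
        exact le_add_self
      · have : Q i.1 i.2 = 0 := hQ0 _ _ (fun h => h.elim h1 h2)
        rw [this]
        exact zero_le
  refine (ENNReal.tsum_le_tsum hsplit).trans ?_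
  rw [ENNReal.tsum_add, two_mul, add_mul]
  obtain ⟨hd1, hd2⟩ := diag_inj cu G j
  obtain ⟨⟨c₀, ha1⟩, ha2⟩ := anti_inj cu G j
  refine add_le_add ?_ ?_
  · -- diagonal
    have hex : ∀ i : {i // Dg i}, ∃ ε : Uu K, mt i.1 0 0 = (ε.1 : K) := by
      rintro ⟨⟨j', g⟩, h⟩
      obtain ⟨ε, hε, h1⟩ := hd1 j' g.1 g.2 h.1 h.2
      exact ⟨⟨ε, hε⟩, h1⟩
    choose e he using hex
    refine le_trans ?_ (ha_units ρ hB ha (fun u w => -u w) (by fun_prop))
    refine ha_inj Dg _ _ (fun i hi => if_neg hi) e (fun i => ?_) ?_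
    · rw [if_pos i.2]
      refine (hQ _ _).trans (le_of_eq ?_)
      unfold haP
      refine lintegral_congr fun u => lintegral_congr fun u' => ?_
      congr 1
      unfold haK
      congr 1
      rw [← ha_cosh]
      congr 1
      refine Finset.prod_congr rfl fun w _ => ?_
      rw [(mono_chm _ (ha_det _ _ _) u u' w).1 (e i).1 i.2.1 i.2.2 (he i)]
      congr 2
    · intro i i' h
      have h1 : mt i.1 0 0 = mt i'.1 0 0 := by rw [he i, he i', h]
      obtain ⟨⟨j₁, g₁⟩, hi⟩ := i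
      obtain ⟨⟨j₂, g₂⟩, hi'⟩ := i'
      obtain ⟨h2, h3⟩ := hd2 j₁ j₂ g₁.1 g₂.1 g₁.2 g₂.2 hi.1 hi.2 hi'.1 hi'.2 h1
      subst h2
      obtain ⟨g₁, hg₁⟩ := g₁
      obtain ⟨g₂, hg₂⟩ := g₂
      simp only at h3
      subst h3
      rfl
  · -- antidiagonal
    have hex : ∀ i : {i // An i}, ∃ ε : Uu K, mt i.1 1 0 = (c₀ : K) * (ε.1 : K) := by
      rintro ⟨⟨j', g⟩, h⟩
      obtain ⟨ε, hε, h1⟩ := ha1 j' g.1 g.2 h.1 h.2
      exact ⟨⟨ε, hε⟩, h1⟩
    choose e he using hex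
    refine le_trans ?_ (ha_units ρ hB ha (fun u w => u w + 2 * lg c₀ w) (by fun_prop))
    refine ha_inj An _ _ (fun i hi => if_neg hi) e (fun i => ?_) ?_
    · rw [if_pos i.2]
      refine (hQ _ _).trans (le_of_eq ?_)
      unfold haP
      refine lintegral_congr fun u => lintegral_congr fun u' => ?_
      congr 1
      unfold haK
      congr 1
      rw [← ha_cosh]
      congr 1
      refine Finset.prod_congr rfl fun w _ => ?_
      rw [(mono_chm _ (ha_det _ _ _) u u' w).2 (c₀ * (e i).1) i.2.1 i.2.2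
        ((he i).trans (Units.val_mul _ _).symm)]
      have h1 : lg (c₀ * (e i).1) w = lg c₀ w + lg (e i).1 w := by
        unfold lg
        rw [Units.val_mul, map_mul, abs_mul, Real.log_mul]
        · exact abs_ne_zero.mpr ((map_ne_zero w).mpr c₀.ne_zero)
        · exact abs_ne_zero.mpr ((map_ne_zero w).mpr (e i).1.ne_zero)
      rw [h1]
      congr 2
      ring
    · intro i i' h
      have h1 : mt i.1 1 0 = mt i'.1 1 0 := by rw [he i, he i', h]
      obtain ⟨⟨j₁, g₁⟩, hi⟩ := i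
      obtain ⟨⟨j₂, g₂⟩, hi'⟩ := i'
      obtain ⟨h2, h3⟩ := ha2 j₁ j₂ g₁.1 g₂.1 g₁.2 g₂.2 hi.1 hi.2 hi'.1 hi'.2 h1
      subst h2
      obtain ⟨g₁, hg₁⟩ := g₁
      obtain ⟨g₂, hg₂⟩ := g₂
      simp only at h3
      subst h3
      rfl

theorem ha_mulle (x y : ℝ≥0∞) : x * y ≤ x ^ 2 + y ^ 2 := by
  rcases le_total x y with h | h
  · calc x * y ≤ y * y := mul_le_mul' h le_rfl
      _ = y ^ 2 := (pow_two y).symm
      _ ≤ x ^ 2 + y ^ 2 := le_add_self
  · calc x * y ≤ x * x := mul_le_mul' le_rfl h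
      _ = x ^ 2 := (pow_two x).symm
      _ ≤ x ^ 2 + y ^ 2 := le_self_add

/-- splitting a product of two weights -/
theorem ha_split (k : ℕ) (m : Matrix (Fin 2) (Fin 2) K) {r x y : (Em K → ℝ) → ℝ≥0∞}
    (hr : Measurable r) (hx : Measurable x) (_hy : Measurable y) :
    ∫⁻ u, ∫⁻ u', (r u * x u) * (r u' * y u') * haK k m u u' ≤
      haP k (fun u => r u * x u ^ 2) r m + haP k r (fun u => r u * y u ^ 2) m := by
  unfold haP
  have hK := haK_meas k m
  have h1 : Measurable (fun p : (Em K → ℝ) × (Em K → ℝ) =>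
      (r p.1 * x p.1 ^ 2) * r p.2 * haK k m p.1 p.2) :=
    ((((hr.comp measurable_fst).mul ((hx.comp measurable_fst).pow_const 2))).mul
      (hr.comp measurable_snd)).mul hK
  rw [← lintegral_add_left h1.lintegral_prod_right']
  refine lintegral_mono fun u => ?_
  have h2 : Measurable (fun u' => (r u * x u ^ 2) * r u' * haK k m u u') :=
    h1.comp (measurable_const.prodMk measurable_id)
  dsimp only
  rw [← lintegral_add_left h2]
  refine lintegral_mono fun u' => ?_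
  calc (r u * x u) * (r u' * y u') * haK k m u u' =
      (r u * r u') * (x u * y u') * haK k m u u' := by ring
    _ ≤ (r u * r u') * (x u ^ 2 + y u' ^ 2) * haK k m u u' :=
      mul_le_mul' (mul_le_mul' le_rfl (ha_mulle _ _)) le_rfl
    _ = _ := by ring

/-- the symmetry of the monomial part -/
theorem ha_sym (k : ℕ) (β β' : K) (L L' : Lat K) {a r : (Em K → ℝ) → ℝ≥0∞}
    (ha : Measurable a) (hr : Measurable r) (P : Matrix (Fin 2) (Fin 2) K → ℝ≥0∞)
    (hP : ∀ m, P m.adjugate = P m) :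
    ∑' g : {g : SL(2, K) // g • L' = L}, P (mm β g.1 β') * haP k r a (mm β g.1 β') =
      ∑' g : {g : SL(2, K) // g • L = L'}, P (mm β' g.1 β) * haP k a r (mm β' g.1 β) := by
  let e : {g : SL(2, K) // g • L' = L} ≃ {g : SL(2, K) // g • L = L'} :=
    { toFun := fun g => ⟨g.1⁻¹, inv_smul_eq_iff.mpr g.2.symm⟩
      invFun := fun g => ⟨g.1⁻¹, inv_smul_eq_iff.mpr g.2.symm⟩
      left_inv := fun g => Subtype.ext (inv_inv _)
      right_inv := fun g => Subtype.ext (inv_inv _) }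
  rw [← e.tsum_eq]
  refine tsum_congr fun g => ?_
  show _ = P (mm β' g.1⁻¹ β) * haP k a r (mm β' g.1⁻¹ β)
  rw [ha_mm_inv, hP, haP_inv k ha hr]

theorem ha_lint {Φ : ℝ → ℂ} (hΦ : Measurable Φ) {M V : ℝ} (hM : ∀ v, ‖Φ v‖ ≤ M)
    (hs : ∀ v, V < |v| → Φ v = 0) :
    ∫⁻ v, ‖Φ v‖ₑ ^ 2 = ENNReal.ofReal (∫ v, ‖Φ v‖ ^ 2) := by
  have hint : Integrable (fun v => ‖Φ v‖ ^ 2) := by
    have h1 : IntegrableOn (fun v => ‖Φ v‖ ^ 2) (Set.Icc (-V) V) := by
      refine Integrable.mono' (g := fun _ => M ^ 2) (integrable_const _)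
        (hΦ.norm.pow_const 2).aestronglyMeasurable ?_
      refine Filter.Eventually.of_forall fun v => ?_
      rw [Real.norm_eq_abs, abs_of_nonneg (by positivity)]
      exact pow_le_pow_left₀ (norm_nonneg _) (hM v) 2
    rw [← integrableOn_iff_integrable_of_support_subset (s := Set.Icc (-V) V)]
    · exact h1
    · intro v hv
      by_contra h
      apply hv
      have h2 : Φ v = 0 := by
        apply hs
        rw [Set.mem_Icc, ← abs_le] at h
        exact not_le.mp h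
      simp [h2]
  rw [ofReal_integral_eq_lintegral_ofReal hint (Filter.Eventually.of_forall fun v => by positivity)]
  refine lintegral_congr fun v => ?_
  rw [ENNReal.ofReal_pow (norm_nonneg _), ofReal_norm]

theorem ks_bound (cu : Cusps K) {R0 : ℝ} (ρ : UW K R0) : ∃ (C E : ℝ) (k₀ : ℕ), 0 < C ∧ 0 < E ∧
    ∀ k : ℕ, k₀ ≤ k → ∀ {J : Type} [Fintype J] (G : GFam cu J) (Φ : J → ℝ → ℂ) (X : ℕ) (M V : ℝ),
    1 ≤ X → 0 ≤ V → (∀ j, nI (G.c j) ≤ X) → (∀ j, Measurable (Φ j)) → (∀ j v, ‖Φ j v‖ ≤ M) →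
    (∀ j v, V < |v| → Φ j v = 0) →
    KS k G.β (fun j => cu.L (G.κ j)) (fun j u => (ρ.ρ u : ℂ) *
        Φ j (∑ w, u w + Real.log (nI (cu.b (G.κ j) / cu.a (G.κ j))))) ≤
      ENNReal.ofReal (C * ((k : ℝ) ^ (-(dg K : ℝ) / 2) * ∑ j, (∫ v, ‖Φ j v‖ ^ 2) +
        (M * Fintype.card J) ^ 2 * (X : ℝ) ^ E * Real.exp (E * V) *
          (k : ℝ) ^ (-(dg K : ℝ)))) := by
  classical
  have hfin : Finite (NCl K) := ncl_finite
  obtain ⟨C₀, hC₀, hden⟩ := mm_den cu
  obtain ⟨Cn, En, k₀, hCn, hEn, hnon⟩ := nonmono (K := K)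
  obtain ⟨Cm, hCm, hmono⟩ := mono_int ρ
  obtain ⟨Cu, hCu, huw⟩ := uw_int ρ
  obtain ⟨T0, hT0⟩ : ∃ T0 : ℝ, ∀ κ : NCl K, |Real.log (nI (cu.b κ / cu.a κ))| ≤ T0 := by
    obtain ⟨T0, h⟩ :=
      (Set.finite_range (fun κ : NCl K => |Real.log (nI (cu.b κ / cu.a κ))|)).bddAbove
    exact ⟨T0, fun κ => h ⟨κ, rfl⟩⟩
  have hT0' : 0 ≤ T0 := (abs_nonneg _).trans (hT0 1)
  set D := |ρ.R| + T0 with hD
  have hD0 : 0 ≤ D := by positivity
  have hC₀' : (0 : ℝ) < C₀ := by exact_mod_cast hC₀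
  refine ⟨Cn * (C₀ : ℝ) ^ En * Real.exp (En * D) + 4 * (Cm * Cu), 2 * En, max k₀ 1,
    by positivity, by positivity, ?_⟩
  intro k hk J _ G Φ X M V hX hV hc hΦ hM hs
  have hk0 : k₀ ≤ k := (le_max_left _ _).trans hk
  have hk1 : 1 ≤ k := (le_max_right _ _).trans hk
  have hX' : (1 : ℝ) ≤ X := by exact_mod_cast hX
  have hk1' : (0 : ℝ) < k := by exact_mod_cast hk1
  set T : J → ℝ := fun j => Real.log (nI (cu.b (G.κ j) / cu.a (G.κ j))) with hT
  set r : (Em K → ℝ) → ℝ≥0∞ := fun u => ENNReal.ofReal (ρ.ρ u) with hr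
  set x : J → (Em K → ℝ) → ℝ≥0∞ := fun j u => ‖Φ j (∑ w, u w + T j)‖ₑ with hx
  have hrm : Measurable r := ρ.meas.ennreal_ofReal
  have hsm : ∀ j, Measurable (fun u : Em K → ℝ => ∑ w, u w + T j) := fun j => by fun_prop
  have hxm : ∀ j, Measurable (x j) := fun j => ((hΦ j).comp (hsm j)).enorm
  have ham : ∀ j, Measurable (fun u => r u * x j u ^ 2) := fun j => hrm.mul ((hxm j).pow_const 2)
  have hΨm : ∀ j, Measurable (fun u : Em K → ℝ => (ρ.ρ u : ℂ) * Φ j (∑ w, u w + T j)) :=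
    fun j => (Complex.measurable_ofReal.comp ρ.meas).mul ((hΦ j).comp (hsm j))
  have hΨ : ∀ j u, ‖(ρ.ρ u : ℂ) * Φ j (∑ w, u w + T j)‖ₑ = r u * x j u := by
    intro j u
    rw [enorm_mul, ← ofReal_norm (ρ.ρ u : ℂ), Complex.norm_real, Real.norm_eq_abs,
      abs_of_nonneg (ρ.nn u)]
  have hKS := ha_KS k G.β (fun j => cu.L (G.κ j))
    (fun j u => (ρ.ρ u : ℂ) * Φ j (∑ w, u w + T j)) hΨm
  simp only [hΨ] at hKS
  rw [show KS k G.β (fun j => cu.L (G.κ j)) (fun j u => (ρ.ρ u : ℂ) *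
        Φ j (∑ w, u w + Real.log (nI (cu.b (G.κ j) / cu.a (G.κ j))))) = _ from hKS]
  -- the three parts
  set ind : Matrix (Fin 2) (Fin 2) K → ℝ≥0∞ := fun m => if Mono m then 1 else 0 with hind
  have hind0 : ∀ m, ¬ Mono m → ind m = 0 := fun m h => if_neg h
  have hind1 : ∀ m, Mono m → ind m = 1 := fun m h => if_pos h
  have hindle : ∀ m, ind m ≤ 1 := by
    intro m
    simp only [hind]
    split_ifs <;> simp
  have hindinv : ∀ m, ind m.adjugate = ind m := by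
    intro m
    by_cases h : Mono m
    · rw [hind1 m h, hind1 _ ((ha_mono_inv m).mpr h)]
    · rw [hind0 m h, hind0 _ (fun h' => h ((ha_mono_inv m).mp h'))]
  set F : (j j' : J) → {g : SL(2, K) // g • cu.L (G.κ j') = cu.L (G.κ j)} → ℝ≥0∞ :=
    fun j j' g => ∫⁻ u, ∫⁻ u', (r u * x j u) * (r u' * x j' u') *
      haK k (mm (G.β j) g.1 (G.β j')) u u' with hF
  set N : (j j' : J) → {g : SL(2, K) // g • cu.L (G.κ j') = cu.L (G.κ j)} → ℝ≥0∞ :=
    fun j j' g => (1 - ind (mm (G.β j) g.1 (G.β j'))) * F j j' g with hN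
  set Q1 : (j j' : J) → {g : SL(2, K) // g • cu.L (G.κ j') = cu.L (G.κ j)} → ℝ≥0∞ :=
    fun j j' g => ind (mm (G.β j) g.1 (G.β j')) *
      haP k (fun u => r u * x j u ^ 2) r (mm (G.β j) g.1 (G.β j')) with hQ1
  set Q2 : (j j' : J) → {g : SL(2, K) // g • cu.L (G.κ j') = cu.L (G.κ j)} → ℝ≥0∞ :=
    fun j j' g => ind (mm (G.β j) g.1 (G.β j')) *
      haP k r (fun u => r u * x j' u ^ 2) (mm (G.β j) g.1 (G.β j')) with hQ2
  have hFle : ∀ j j' g, F j j' g ≤ N j j' g + (Q1 j j' g + Q2 j j' g) := by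
    intro j j' g
    by_cases h : Mono (mm (G.β j) g.1 (G.β j'))
    · refine le_add_left ?_
      simp only [hQ1, hQ2]
      rw [hind1 _ h, one_mul, one_mul]
      exact ha_split k _ hrm (hxm j) (hxm j')
    · refine le_add_right ?_
      simp only [hN]
      rw [hind0 _ h, tsub_zero, one_mul]
  have hsum : ∑ j, ∑ j', ∑' g, F j j' g ≤ (∑ j, ∑ j', ∑' g, N j j' g) +
      ((∑ j, ∑ j', ∑' g, Q1 j j' g) + ∑ j, ∑ j', ∑' g, Q2 j j' g) := by
    rw [← Finset.sum_add_distrib, ← Finset.sum_add_distrib]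
    refine Finset.sum_le_sum fun j _ => ?_
    rw [← Finset.sum_add_distrib, ← Finset.sum_add_distrib]
    refine Finset.sum_le_sum fun j' _ => ?_
    rw [← ENNReal.tsum_add, ← ENNReal.tsum_add]
    exact ENNReal.tsum_le_tsum (hFle j j')
  refine hsum.trans ?_
  -- the symmetry
  have hS : ∑ j, ∑ j', ∑' g, Q2 j j' g = ∑ j, ∑ j', ∑' g, Q1 j j' g := by
    rw [Finset.sum_comm]
    refine Finset.sum_congr rfl fun j' _ => Finset.sum_congr rfl fun j _ => ?_
    exact ha_sym k (G.β j) (G.β j') (cu.L (G.κ j)) (cu.L (G.κ j')) (ham j') hrm ind hindinv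
  rw [hS]
  -- the monomial part
  have hB : ∀ t : Em K → ℝ, (∑' ε : Uu K, ∫⁻ u : Em K → ℝ, ENNReal.ofReal (ρ.ρ u *
      ∏ w, Real.cosh ((u w + t w + 2 * lg ε.1 w) / 2) ^ (-(k : ℝ)))) ≤
        ENNReal.ofReal (Cm * (k : ℝ) ^ (-(dg K : ℝ) / 2)) := hmono k hk1
  have hI : ∀ j, 0 ≤ ∫ v, ‖Φ j v‖ ^ 2 := fun j => integral_nonneg fun v => by positivity
  have hm1 : ∀ j, ∑ j', ∑' g, Q1 j j' g ≤
      ENNReal.ofReal (2 * (Cm * Cu) * ((k : ℝ) ^ (-(dg K : ℝ) / 2) * ∫ v, ‖Φ j v‖ ^ 2)) := by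
    intro j
    have h1 := ha_one cu ρ G hB j (ham j) (Q1 j)
      (fun j' g h => by simp only [hQ1]; rw [hind0 _ h, zero_mul])
      (fun j' g => by
        simp only [hQ1]
        exact mul_le_of_le_one_left zero_le (hindle _))
    have h2 := huw (fun v => ‖Φ j v‖ₑ ^ 2) ((hΦ j).enorm.pow_const 2) (T j)
    have h3 := ha_lint (hΦ j) (hM j) (hs j)
    rw [h3] at h2
    refine h1.trans ?_
    refine (mul_le_mul' le_rfl h2).trans (le_of_eq ?_)
    rw [← ENNReal.ofReal_mul hCu.le, show (2 : ℝ≥0∞) = ENNReal.ofReal 2 by simp,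
      ← ENNReal.ofReal_mul (by norm_num), ← ENNReal.ofReal_mul (by positivity)]
    congr 1
    ring
  have hm2 : ∑ j, ∑ j', ∑' g, Q1 j j' g ≤
      ENNReal.ofReal (2 * (Cm * Cu) * ((k : ℝ) ^ (-(dg K : ℝ) / 2) *
        ∑ j, (∫ v, ‖Φ j v‖ ^ 2))) := by
    refine (Finset.sum_le_sum fun j _ => hm1 j).trans (le_of_eq ?_)
    rw [← ENNReal.ofReal_sum_of_nonneg (fun j _ => by have := hI j; positivity),
      Finset.mul_sum, Finset.mul_sum]
  -- the non-monomial part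
  have hbox0 : ∀ j u, u ∉ box K (V + D) → r u * x j u = 0 := by
    intro j u hu
    by_contra hne
    apply hu
    have h1 : ρ.ρ u ≠ 0 := by
      intro h
      apply hne
      simp only [hr]
      rw [h, ENNReal.ofReal_zero, zero_mul]
    have h2 : |∑ w, u w + T j| ≤ V := by
      by_contra h
      apply hne
      simp only [hx]
      rw [hs j _ (not_le.mp h), enorm_zero, mul_zero]
    have h3 := ρ.supp u h1
    have hd : (1 : ℝ) ≤ dg K := by exact_mod_cast dg_pos (K := K)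
    intro w
    have h4 : |∑ v, u v| ≤ V + T0 := by
      have h5 : ∑ v, u v = (∑ v, u v + T j) - T j := by ring
      rw [h5]
      exact (abs_sub _ _).trans (add_le_add h2 (hT0 _))
    have h6 : |(∑ v, u v) / (dg K : ℝ)| ≤ V + T0 := by
      rw [abs_div, abs_of_pos (by linarith : (0 : ℝ) < dg K)]
      exact (div_le_self (abs_nonneg _) hd).trans h4
    have h7 : u w = (u w - (∑ v, u v) / (dg K : ℝ)) + (∑ v, u v) / (dg K : ℝ) := by ring
    rw [h7]
    refine (abs_add_le _ _).trans ((add_le_add (h3 w) h6).trans ?_)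
    have := le_abs_self ρ.R
    rw [hD]
    linarith
  have hboxM : ∀ j u, r u * x j u ≤ ENNReal.ofReal M := by
    intro j u
    have h1 : r u ≤ 1 := by
      simp only [hr]
      rw [ENNReal.ofReal_le_one]
      exact ρ.le u
    have h2 : x j u ≤ ENNReal.ofReal M := by
      simp only [hx]
      rw [← ofReal_norm]
      exact ENNReal.ofReal_le_ofReal (hM j _)
    calc r u * x j u ≤ 1 * ENNReal.ofReal M := mul_le_mul' h1 h2
      _ = _ := one_mul _
  have hn1 : ∀ j j', ∑' g, N j j' g ≤ ENNReal.ofReal (M ^ 2 * (Cn * ((C₀ : ℝ) * X ^ 2) ^ En *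
      Real.exp (En * (V + D)) * (k : ℝ) ^ (-(dg K : ℝ)))) := by
    intro j j'
    obtain ⟨n, hn1, hn, -⟩ := nI_int (G.cint j)
    obtain ⟨n', hn1', hn', -⟩ := nI_int (G.cint j')
    have hnX : (n : ℝ) ≤ X := by rw [← hn]; exact hc j
    have hnX' : (n' : ℝ) ≤ X := by rw [← hn']; exact hc j'
    have h1 := ha_non (Q := C₀ * n * n') k (G.β j) (G.β j') (cu.L (G.κ j)) (cu.L (G.κ j'))
      (fun g hg => hden _ _ _ _ _ _ n n' g (G.den j) (G.den j') hn hn' hg)
      (M := ENNReal.ofReal M) ENNReal.ofReal_ne_top (V := V + D) (hboxM j) (hboxM j')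
      (hbox0 j) (hbox0 j') (N j j')
      (fun g hg => by simp only [hN]; rw [hind1 _ hg, tsub_self, zero_mul])
      (fun g => by
        simp only [hN]
        exact mul_le_of_le_one_left zero_le tsub_le_self)
    have h2 := hnon k (C₀ * n * n') (V + D) hk0
      (Nat.mul_pos (Nat.mul_pos hC₀ hn1) hn1') (by positivity)
    refine h1.trans ((mul_le_mul' le_rfl h2).trans ?_)
    have h3 : ENNReal.ofReal M ^ 2 ≤ ENNReal.ofReal (M ^ 2) := by
      by_cases hM0 : 0 ≤ M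
      · rw [ENNReal.ofReal_pow hM0]
      · rw [ENNReal.ofReal_of_nonpos (not_le.mp hM0).le]
        simp
    refine (mul_le_mul' h3 le_rfl).trans ?_
    rw [← ENNReal.ofReal_mul (by positivity)]
    apply ENNReal.ofReal_le_ofReal
    refine mul_le_mul_of_nonneg_left ?_ (by positivity)
    refine mul_le_mul_of_nonneg_right ?_ (by positivity)
    refine mul_le_mul_of_nonneg_right ?_ (by positivity)
    refine mul_le_mul_of_nonneg_left ?_ hCn.le
    apply Real.rpow_le_rpow (by positivity) _ hEn.le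
    push_cast
    calc (C₀ : ℝ) * n * n' = C₀ * (n * n') := by ring
      _ ≤ C₀ * (X * X) := by gcongr
      _ = C₀ * X ^ 2 := by ring
  have hn2 : ∑ j, ∑ j', ∑' g, N j j' g ≤ ENNReal.ofReal ((M * Fintype.card J) ^ 2 *
      (Cn * ((C₀ : ℝ) * X ^ 2) ^ En *
      Real.exp (En * (V + D)) * (k : ℝ) ^ (-(dg K : ℝ)))) := by
    refine (Finset.sum_le_sum fun j _ => Finset.sum_le_sum fun j' _ => hn1 j j').trans
      (le_of_eq ?_)
    rw [Finset.sum_const, Finset.sum_const, Finset.card_univ, smul_smul, nsmul_eq_mul,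
      ← ENNReal.ofReal_natCast, ← ENNReal.ofReal_mul (by positivity)]
    congr 1
    push_cast
    ring
  -- the end
  refine (add_le_add hn2 (add_le_add hm2 hm2)).trans ?_
  have hS0 : 0 ≤ ∑ j, ∫ v, ‖Φ j v‖ ^ 2 := Finset.sum_nonneg fun j _ => hI j
  rw [← ENNReal.ofReal_add (by positivity) (by positivity),
    ← ENNReal.ofReal_add (by positivity) (by positivity)]
  apply ENNReal.ofReal_le_ofReal
  have e1 : ((C₀ : ℝ) * X ^ 2) ^ En = (C₀ : ℝ) ^ En * (X : ℝ) ^ (2 * En) := by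
    rw [Real.mul_rpow hC₀'.le (by positivity), ← Real.rpow_natCast, ← Real.rpow_mul (by positivity)]
    norm_num
  have e2 : Real.exp (En * (V + D)) ≤ Real.exp (En * D) * Real.exp (2 * En * V) := by
    rw [← Real.exp_add]
    apply Real.exp_le_exp.mpr
    nlinarith
  rw [e1]
  set S := ∑ j, ∫ v, ‖Φ j v‖ ^ 2 with hSdef
  set y := (M * (Fintype.card J : ℝ)) ^ 2 with hy
  set kk := (k : ℝ) ^ (-(dg K : ℝ)) with hkk
  set kh := (k : ℝ) ^ (-(dg K : ℝ) / 2) with hkh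
  have hy0 : 0 ≤ y := by positivity
  have hkk0 : 0 ≤ kk := by positivity
  have hkh0 : 0 ≤ kh := by positivity
  have hXE : 0 ≤ (X : ℝ) ^ (2 * En) := by positivity
  calc y * (Cn * ((C₀ : ℝ) ^ En * (X : ℝ) ^ (2 * En)) * Real.exp (En * (V + D)) * kk) +
      (2 * (Cm * Cu) * (kh * S) + 2 * (Cm * Cu) * (kh * S))
      ≤ y * (Cn * ((C₀ : ℝ) ^ En * (X : ℝ) ^ (2 * En)) *
        (Real.exp (En * D) * Real.exp (2 * En * V)) * kk) + 4 * (Cm * Cu) * (kh * S) := by
        have : y * (Cn * ((C₀ : ℝ) ^ En * (X : ℝ) ^ (2 * En)) * Real.exp (En * (V + D)) * kk) ≤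
            y * (Cn * ((C₀ : ℝ) ^ En * (X : ℝ) ^ (2 * En)) *
              (Real.exp (En * D) * Real.exp (2 * En * V)) * kk) := by gcongr
        linarith
    _ ≤ (Cn * (C₀ : ℝ) ^ En * Real.exp (En * D) + 4 * (Cm * Cu)) *
        (kh * S + y * (X : ℝ) ^ (2 * En) * Real.exp (2 * En * V) * kk) := by
        have t1 : 0 ≤ Cn * (C₀ : ℝ) ^ En * Real.exp (En * D) * (kh * S) := by positivity
        have t2 : 0 ≤ 4 * (Cm * Cu) * (y * (X : ℝ) ^ (2 * En) * Real.exp (2 * En * V) * kk) := by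
          positivity
        nlinarith


end tr5

end Pool.Agent.HSG
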